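import Pool.Agent.MP_6cbfb8_an.Defs

/-!
Finite-dimensional families of phases and cuts.
-/

namespace Pool.Agent.VAN

open MeasureTheory Set Pool.Agent.MP_6cbfb8_an
open scoped ENNReal Real

/-- The linear combination with coefficients `c` of the functions `φ j`. -/
noncomputable def fam {n d : ℕ} (φ : Fin d → E n → ℝ) (c : Fin d → ℝ) (x : E n) : ℝ :=
  ∑ j, c j * φ j x

/-- The function `e^{iu} ∏ 1_{v_i > 0}`, where `u` and `v_i` are the linear combinations of the
functions `φ j` with coefficients `c` and `cs i`. -/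
noncomputable def famc {n d N : ℕ} (φ : Fin d → E n → ℝ) (c : Fin d → ℝ)
    (cs : Fin N → Fin d → ℝ) (x : E n) : ℂ :=
  Complex.exp (((fam φ c x : ℝ) : ℂ) * Complex.I) * ∏ i, if 0 < fam φ (cs i) x then 1 else 0

end Pool.Agent.VAN
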