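import Pool.Agent.VAN.Defs
import Pool.Agent.MP_6cbfb8_an.Super
import Pool.Agent.PPH.S2
import Pool.Agent.PPH.S4a

/-!
Cuts: from phases to phases times indicators of superlevel sets.
-/

namespace Pool.Agent.VAN

open MeasureTheory Set Pool.Agent.MP_6cbfb8_an Pool.Agent.PPH
open scoped ENNReal Real

variable {n d : ℕ}

lemma f_fam_add (phi : Fin d → E n → ℝ) (c c' : Fin d → ℝ) (x : E n) :
    fam phi (c + c') x = fam phi c x + fam phi c' x := by
  unfold fam
  rw [← Finset.sum_add_distrib]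
  exact Finset.sum_congr rfl fun j _ => by rw [Pi.add_apply, add_mul]

lemma f_fam_smul (phi : Fin d → E n → ℝ) (t : ℝ) (c : Fin d → ℝ) (x : E n) :
    fam phi (t • c) x = t * fam phi c x := by
  unfold fam
  rw [Finset.mul_sum]
  exact Finset.sum_congr rfl fun j _ => by rw [Pi.smul_apply, smul_eq_mul, mul_assoc]

lemma f_measurable_fam (phi : Fin d → E n → ℝ) (hm : ∀ j, Measurable (phi j)) (c : Fin d → ℝ) :
    Measurable (fam phi c) := by
  unfold fam
  exact Finset.measurable_sum _ fun j _ => (hm j).const_mul _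

lemma f_measurable_famc (phi : Fin d → E n → ℝ) (hm : ∀ j, Measurable (phi j)) {N : ℕ}
    (c : Fin d → ℝ) (cs : Fin N → Fin d → ℝ) : Measurable (famc phi c cs) := by
  unfold famc
  refine Measurable.mul ?_ (Finset.measurable_prod _ fun i _ => ?_)
  · exact Complex.measurable_exp.comp
      ((Complex.measurable_ofReal.comp (f_measurable_fam phi hm c)).mul_const _)
  · exact Measurable.ite (measurableSet_lt measurable_const (f_measurable_fam phi hm _))
      measurable_const measurable_const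

lemma f_norm_famc_le (phi : Fin d → E n → ℝ) {N : ℕ} (c : Fin d → ℝ) (cs : Fin N → Fin d → ℝ)
    (x : E n) : ‖famc phi c cs x‖ ≤ 1 := by
  unfold famc
  rw [norm_mul, Complex.norm_exp_ofReal_mul_I, one_mul, norm_prod]
  refine Finset.prod_le_one (fun i _ => norm_nonneg _) fun i _ => ?_
  split_ifs <;> simp

lemma f_shift (phi : Fin d → E n → ℝ) {N : ℕ} (c : Fin d → ℝ) (cs : Fin N → Fin d → ℝ)
    (c1 : Fin d → ℝ) (r s : ℝ) (x : E n) :
    famc phi (c + (s * r) • c1) cs x = famc phi c cs x *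
      Complex.exp (((s * (r * fam phi c1 x) : ℝ) : ℂ) * Complex.I) := by
  unfold famc
  rw [f_fam_add, f_fam_smul]
  have : (((fam phi c x + s * r * fam phi c1 x : ℝ) : ℂ) * Complex.I) =
      ((fam phi c x : ℝ) : ℂ) * Complex.I + ((s * (r * fam phi c1 x) : ℝ) : ℂ) * Complex.I := by
    push_cast
    ring
  rw [this, Complex.exp_add]
  ring

lemma f_extn_le (g : E n → ℂ) (ξ : E n) : ‖extn g ξ‖ₑ ≤ ∫⁻ x : S n, ‖g x‖ₑ ∂(sm n) := by
  unfold extn
  refine (enorm_integral_le_lintegral_enorm _).trans (le_of_eq ?_)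
  refine lintegral_congr fun x => ?_
  rw [enorm_mul]
  have : ‖Complex.exp (((-(2 * π * inner ℝ (x : E n) ξ) : ℝ) : ℂ) * Complex.I)‖ₑ = 1 := by
    rw [← ofReal_norm, Complex.norm_exp_ofReal_mul_I, ENNReal.ofReal_one]
  rw [this, mul_one]

private theorem f_exp1 {v : ℝ} (_hv : 0 ≤ v) : v * Real.exp (-v ^ 2) ≤ 1 := by
  rw [Real.exp_neg, ← div_eq_mul_inv, div_le_one (Real.exp_pos _)]
  have h1 := Real.add_one_le_exp (v ^ 2)
  nlinarith [sq_nonneg (v - 1)]

private theorem f_exp2 {v : ℝ} : v ^ 2 * Real.exp (-v ^ 2) ≤ 1 := by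
  rw [Real.exp_neg, ← div_eq_mul_inv, div_le_one (Real.exp_pos _)]
  have h1 := Real.add_one_le_exp (v ^ 2)
  linarith

/-- the `L¹` bound -/
theorem f_l1 {X : Type*} [MeasurableSpace X] (μ : Measure X) [IsFiniteMeasure μ]
    (K0 K1 κ : ℝ) (hK0 : 0 ≤ K0) (hK1 : 0 ≤ K1) (hκ : 0 < κ) : ∃ K : ℝ, 0 < K ∧
    ∀ q : X → ℝ, Measurable q → (∀ x, |q x| ≤ K0) →
      (∀ δ : ℝ, 0 ≤ δ → μ {x | |q x| ≤ δ} ≤ ENNReal.ofReal (K1 * δ ^ κ)) → ∀ r : ℝ, 0 < r →
    ∫⁻ x, ENNReal.ofReal (|r * q x| * Real.exp (-(r * q x) ^ 2)) ∂μ ≤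
      ENNReal.ofReal (K * min r (r ^ (-(min (κ / 2) (1 / 2))))) := by
  set m : ℝ := (μ univ).toReal with hm
  have hm0 : 0 ≤ m := ENNReal.toReal_nonneg
  have hmu : μ univ = ENNReal.ofReal m := (ENNReal.ofReal_toReal (measure_ne_top μ univ)).symm
  set κ' : ℝ := min (κ / 2) (1 / 2) with hκ'
  have hκ'0 : 0 < κ' := lt_min (by positivity) (by norm_num)
  refine ⟨K0 * m + K1 + m + 1, by positivity, fun q hq hqK hs r hr => ?_⟩
  set f : X → ℝ := fun x => |r * q x| * Real.exp (-(r * q x) ^ 2) with hf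
  have hf0 : ∀ x, 0 ≤ f x := fun x => by positivity
  show ∫⁻ x, ENNReal.ofReal (f x) ∂μ ≤ _
  rcases le_total r 1 with hr1 | hr1
  · -- `r ≤ 1`
    have hmin : min r (r ^ (-κ')) = r := by
      apply min_eq_left
      calc r ≤ 1 := hr1
        _ ≤ r ^ (-κ') := Real.one_le_rpow_of_pos_of_le_one_of_nonpos hr hr1 (by linarith)
    rw [hmin]
    have h1 : ∀ x, ENNReal.ofReal (f x) ≤ ENNReal.ofReal (r * K0) := by
      intro x
      apply ENNReal.ofReal_le_ofReal
      have h2 := hqK x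
      have h3 : Real.exp (-(r * q x) ^ 2) ≤ 1 := by
        rw [Real.exp_le_one_iff]
        nlinarith [sq_nonneg (r * q x)]
      calc f x ≤ |r * q x| * 1 := mul_le_mul_of_nonneg_left h3 (abs_nonneg _)
        _ = r * |q x| := by rw [mul_one, abs_mul, abs_of_pos hr]
        _ ≤ r * K0 := mul_le_mul_of_nonneg_left h2 hr.le
    calc ∫⁻ x, ENNReal.ofReal (f x) ∂μ ≤ ∫⁻ _, ENNReal.ofReal (r * K0) ∂μ :=
          lintegral_mono h1
      _ = ENNReal.ofReal (r * K0) * ENNReal.ofReal m := by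
          rw [lintegral_const, hmu]
      _ = ENNReal.ofReal (r * K0 * m) := by
          rw [← ENNReal.ofReal_mul (by positivity)]
      _ ≤ ENNReal.ofReal ((K0 * m + K1 + m + 1) * r) := by
          apply ENNReal.ofReal_le_ofReal
          have : 0 ≤ (K1 + m + 1) * r := by positivity
          nlinarith
  · -- `1 ≤ r`
    have hrκ : 0 < r ^ (-κ') := Real.rpow_pos_of_pos hr _
    have hmin : min r (r ^ (-κ')) = r ^ (-κ') := by
      apply min_eq_right
      calc r ^ (-κ') ≤ 1 := Real.rpow_le_one_of_one_le_of_nonpos hr1 (by linarith)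
        _ ≤ r := hr1
    rw [hmin]
    set T : Set X := {x | |q x| ≤ r ^ (-(1 / 2 : ℝ))} with hT
    have hTm : MeasurableSet T := measurableSet_le hq.abs measurable_const
    have hvolT : μ T ≤ ENNReal.ofReal (K1 * r ^ (-κ')) := by
      refine (hs (r ^ (-(1 / 2 : ℝ))) (Real.rpow_nonneg hr.le _)).trans ?_
      apply ENNReal.ofReal_le_ofReal
      apply mul_le_mul_of_nonneg_left _ hK1
      rw [← Real.rpow_mul hr.le]
      apply Real.rpow_le_rpow_of_exponent_le hr1
      have : κ' ≤ κ / 2 := min_le_left _ _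
      linarith
    have hpt : ∀ x, ENNReal.ofReal (f x) ≤
        T.indicator (fun _ => (1 : ℝ≥0∞)) x + ENNReal.ofReal (r ^ (-κ')) := by
      intro x
      by_cases hxT : x ∈ T
      · rw [Set.indicator_of_mem hxT]
        have h1 : f x ≤ 1 := by
          have h2 := f_exp1 (abs_nonneg (r * q x))
          rwa [sq_abs] at h2
        calc ENNReal.ofReal (f x) ≤ ENNReal.ofReal 1 := ENNReal.ofReal_le_ofReal h1
          _ = 1 := ENNReal.ofReal_one
          _ ≤ 1 + ENNReal.ofReal (r ^ (-κ')) := le_self_add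
      · rw [Set.indicator_of_notMem hxT, zero_add]
        apply ENNReal.ofReal_le_ofReal
        have h1 : r ^ (-(1 / 2 : ℝ)) < |q x| := not_le.1 hxT
        have h2 : r ^ (1 / 2 : ℝ) ≤ |r * q x| := by
          rw [abs_mul, abs_of_pos hr]
          calc r ^ (1 / 2 : ℝ) = r * r ^ (-(1 / 2 : ℝ)) := by
                nth_rw 2 [← Real.rpow_one r]
                rw [← Real.rpow_add hr]
                norm_num
            _ ≤ r * |q x| := mul_le_mul_of_nonneg_left h1.le hr.le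
        have hr2 : 0 < r ^ (1 / 2 : ℝ) := Real.rpow_pos_of_pos hr _
        have h3 : r ^ (1 / 2 : ℝ) * f x ≤ 1 := by
          calc r ^ (1 / 2 : ℝ) * f x ≤ |r * q x| * f x :=
                mul_le_mul_of_nonneg_right h2 (hf0 x)
            _ = (r * q x) ^ 2 * Real.exp (-(r * q x) ^ 2) := by
                rw [hf]
                simp only
                rw [← mul_assoc, abs_mul_abs_self]
                ring
            _ ≤ 1 := f_exp2
        have h4 : f x ≤ r ^ (-(1 / 2 : ℝ)) := by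
          rw [Real.rpow_neg hr.le, ← one_div, le_div_iff₀ hr2, mul_comm]
          exact h3
        refine h4.trans (Real.rpow_le_rpow_of_exponent_le hr1 ?_)
        have : κ' ≤ 1 / 2 := min_le_right _ _
        linarith
    calc ∫⁻ x, ENNReal.ofReal (f x) ∂μ
        ≤ ∫⁻ x, (T.indicator (fun _ => (1 : ℝ≥0∞)) x + ENNReal.ofReal (r ^ (-κ'))) ∂μ :=
          lintegral_mono hpt
      _ = (∫⁻ x, T.indicator (fun _ => (1 : ℝ≥0∞)) x ∂μ) +
            ∫⁻ _, ENNReal.ofReal (r ^ (-κ')) ∂μ :=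
          lintegral_add_right _ measurable_const
      _ = μ T + ENNReal.ofReal (r ^ (-κ')) * ENNReal.ofReal m := by
          rw [lintegral_const, lintegral_indicator_const hTm, one_mul, hmu]
      _ ≤ ENNReal.ofReal (K1 * r ^ (-κ')) + ENNReal.ofReal (r ^ (-κ')) * ENNReal.ofReal m := by
          gcongr
      _ = ENNReal.ofReal (K1 * r ^ (-κ') + r ^ (-κ') * m) := by
          rw [ENNReal.ofReal_add (by positivity) (by positivity), ENNReal.ofReal_mul hrκ.le]
      _ ≤ ENNReal.ofReal ((K0 * m + K1 + m + 1) * r ^ (-κ')) := by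
          apply ENNReal.ofReal_le_ofReal
          have : 0 ≤ (K0 * m + 1) * r ^ (-κ') := by positivity
          nlinarith

/-- the Gaussian weight -/
noncomputable def f_g (s : ℝ) : ℝ := |s| * Real.exp (-s ^ 2 / 4) / (4 * √π)

lemma f_g_nonneg (s : ℝ) : 0 ≤ f_g s := by unfold f_g; positivity

lemma f_g_meas : Measurable f_g := by unfold f_g; fun_prop

lemma f_g_int : Integrable f_g := by
  refine ⟨f_g_meas.aestronglyMeasurable, ?_⟩
  rw [hasFiniteIntegral_iff_ofReal (Filter.Eventually.of_forall f_g_nonneg)]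
  exact lt_of_le_of_lt gauss_mass (by simp)

/-- the complex weight -/
noncomputable def f_w (s : ℝ) : ℂ :=
  (((s * Real.exp (-s ^ 2 / 4) / (4 * √π)) : ℝ) : ℂ) * (-Complex.I)

lemma f_w_meas : Measurable f_w := by unfold f_w; fun_prop

lemma f_w_norm (s : ℝ) : ‖f_w s‖ = f_g s := by
  unfold f_w f_g
  rw [norm_mul, Complex.norm_real, norm_neg, Complex.norm_I, mul_one, Real.norm_eq_abs, abs_div,
    abs_mul, Real.abs_exp, abs_of_pos (by positivity : 0 < 4 * √π)]

/-- the oscillating factor -/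
noncomputable def f_osc (ξ : E n) (x : S n) : ℂ :=
  Complex.exp (((-(2 * π * inner ℝ (x : E n) ξ) : ℝ) : ℂ) * Complex.I)

lemma f_osc_norm (ξ : E n) (x : S n) : ‖f_osc ξ x‖ = 1 := Complex.norm_exp_ofReal_mul_I _

lemma f_osc_meas (ξ : E n) : Measurable (f_osc ξ) := by
  unfold f_osc
  have h4 : Measurable fun x : S n => (x : E n) := measurable_subtype_coe
  have h3 : Measurable fun x : S n => (inner ℝ (x : E n) ξ : ℝ) := h4.inner measurable_const
  fun_prop

lemma f_formula (phi : Fin d → E n → ℝ) (hm : ∀ j, Measurable (phi j)) {N : ℕ} (c : Fin d → ℝ)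
    (cs : Fin N → Fin d → ℝ) (c1 : Fin d → ℝ) (r : ℝ) (ξ : E n) :
    extn (fun x => famc phi c cs x *
      ((r * fam phi c1 x * Real.exp (-(r * fam phi c1 x) ^ 2) : ℝ) : ℂ)) ξ =
      ∫ s : ℝ, f_w s * extn (famc phi (c + (s * r) • c1) cs) ξ := by
  have hEm := f_osc_meas (n := n) ξ
  set f : S n → ℝ → ℂ := fun x s => f_w s * (famc phi (c + (s * r) • c1) cs x * f_osc ξ x) with hf
  have hq : Measurable fun x : S n => fam phi c1 (x : E n) :=
    (f_measurable_fam phi hm c1).comp measurable_subtype_coe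
  have hGm : Measurable fun x : S n => famc phi c cs (x : E n) :=
    (f_measurable_famc phi hm c cs).comp measurable_subtype_coe
  have hfm : Measurable (Function.uncurry f) := by
    have : Function.uncurry f = fun x : S n × ℝ => f_w x.2 * ((famc phi c cs (x.1 : E n) *
        Complex.exp (((x.2 * (r * fam phi c1 (x.1 : E n)) : ℝ) : ℂ) * Complex.I)) *
          f_osc ξ x.1) := by
      funext x
      simp only [Function.uncurry, hf, f_shift]
    rw [this]
    have h1 : Measurable fun x : S n × ℝ => f_w x.2 := f_w_meas.comp measurable_snd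
    have h2 : Measurable fun x : S n × ℝ => famc phi c cs (x.1 : E n) := hGm.comp measurable_fst
    have h3 : Measurable fun x : S n × ℝ => f_osc ξ x.1 := hEm.comp measurable_fst
    have h4 : Measurable fun x : S n × ℝ => fam phi c1 (x.1 : E n) := hq.comp measurable_fst
    refine h1.mul ((h2.mul ?_).mul h3)
    fun_prop
  have hfi : Integrable (Function.uncurry f) ((sm n).prod volume) := by
    refine (Integrable.mul_prod (μ := sm n) (integrable_const (1 : ℝ)) f_g_int).mono'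
      hfm.aestronglyMeasurable (Filter.Eventually.of_forall fun x => ?_)
    simp only [Function.uncurry, hf, norm_mul, f_w_norm, f_osc_norm, mul_one, one_mul]
    exact mul_le_of_le_one_right (f_g_nonneg _) (f_norm_famc_le _ _ _ _)
  unfold extn
  have step : ∀ x : S n, (famc phi c cs (x : E n) *
      ((r * fam phi c1 (x : E n) * Real.exp (-(r * fam phi c1 (x : E n)) ^ 2) : ℝ) : ℂ)) *
        f_osc ξ x = ∫ s : ℝ, f x s := by
    intro x
    rw [gauss_four, ← integral_const_mul, ← integral_mul_const]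
    congr 1
    funext s
    simp only [hf, f_shift, f_w]
    ring
  calc ∫ x : S n, (famc phi c cs (x : E n) *
      ((r * fam phi c1 (x : E n) * Real.exp (-(r * fam phi c1 (x : E n)) ^ 2) : ℝ) : ℂ)) *
        f_osc ξ x ∂(sm n)
      = ∫ x : S n, (∫ s : ℝ, f x s) ∂(sm n) := by
        congr 1
        funext x
        exact step x
    _ = ∫ s : ℝ, (∫ x : S n, f x s ∂(sm n)) := integral_integral_swap hfi
    _ = _ := by
        congr 1
        funext s
        simp only [hf]
        rw [integral_const_mul]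
        rfl

theorem f_damped (phi : Fin d → E n → ℝ) (hm : ∀ j, Measurable (phi j)) {N : ℕ} (p : ℝ)
    (hp : 1 ≤ p) (C : ℝ≥0∞)
    (H : ∀ (c : Fin d → ℝ) (cs : Fin N → Fin d → ℝ), ∫⁻ ξ, ‖extn (famc phi c cs) ξ‖ₑ ^ p ≤ C)
    (c : Fin d → ℝ) (cs : Fin N → Fin d → ℝ) (c1 : Fin d → ℝ) (r : ℝ) :
    ∫⁻ ξ, ‖extn (fun x => famc phi c cs x *
      ((r * fam phi c1 x * Real.exp (-(r * fam phi c1 x) ^ 2) : ℝ) : ℂ)) ξ‖ₑ ^ p ≤ C := by
  set ν : Measure ℝ := volume.withDensity (fun s => ENNReal.ofReal (f_g s)) with hν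
  have hνu : ν univ ≤ 1 := by
    rw [hν, withDensity_apply _ MeasurableSet.univ, Measure.restrict_univ]
    exact gauss_mass
  have hfin : IsFiniteMeasure ν := ⟨lt_of_le_of_lt hνu (by simp)⟩
  have hGm := f_measurable_famc phi hm c cs
  have hq := f_measurable_fam phi hm c1
  have hhm : Measurable (Function.uncurry fun (s : ℝ) (x : E n) =>
      famc phi (c + (s * r) • c1) cs x) := by
    have : (Function.uncurry fun (s : ℝ) (x : E n) => famc phi (c + (s * r) • c1) cs x) =
        fun x : ℝ × E n => famc phi c cs x.2 *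
          Complex.exp (((x.1 * (r * fam phi c1 x.2) : ℝ) : ℂ) * Complex.I) := by
      funext x
      simp only [Function.uncurry, f_shift]
    rw [this]
    have h2 : Measurable fun x : ℝ × E n => famc phi c cs x.2 := hGm.comp measurable_snd
    have h4 : Measurable fun x : ℝ × E n => fam phi c1 x.2 := hq.comp measurable_snd
    refine h2.mul ?_
    fun_prop
  have hVm := measurable_extn_param (fun (s : ℝ) (x : E n) => famc phi (c + (s * r) • c1) cs x) hhm
  set F : ℝ → E n → ℝ≥0∞ := fun s ξ => ‖extn (famc phi (c + (s * r) • c1) cs) ξ‖ₑ with hF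
  have hFm : Measurable (Function.uncurry F) := hVm.enorm
  have hpt : ∀ ξ : E n, ‖extn (fun x => famc phi c cs x *
      ((r * fam phi c1 x * Real.exp (-(r * fam phi c1 x) ^ 2) : ℝ) : ℂ)) ξ‖ₑ ≤
      ∫⁻ s, F s ξ ∂ν := by
    intro ξ
    rw [f_formula phi hm]
    refine (enorm_integral_le_lintegral_enorm _).trans (le_of_eq ?_)
    have hFz : Measurable fun s => F s ξ := Measurable.of_uncurry_right hFm
    rw [hν, lintegral_withDensity_eq_lintegral_mul _ f_g_meas.ennreal_ofReal hFz]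
    congr 1
    funext s
    rw [Pi.mul_apply, enorm_mul, ← ofReal_norm, f_w_norm]
  calc ∫⁻ ξ, ‖extn (fun x => famc phi c cs x *
        ((r * fam phi c1 x * Real.exp (-(r * fam phi c1 x) ^ 2) : ℝ) : ℂ)) ξ‖ₑ ^ p
      ≤ ∫⁻ ξ, (∫⁻ s, F s ξ ∂ν) ^ p :=
        lintegral_mono fun ξ => ENNReal.rpow_le_rpow (hpt ξ) (by linarith)
    _ ≤ ν univ ^ (p - 1) * ∫⁻ s, (∫⁻ ξ, F s ξ ^ p) ∂ν := mink ν volume F hFm p hp
    _ ≤ 1 * ∫⁻ _s, C ∂ν := by
        gcongr
        · exact ENNReal.rpow_le_one hνu (by linarith)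
        · exact H _ _
    _ ≤ C := by
        rw [lintegral_const, one_mul]
        calc C * ν univ ≤ C * 1 := by gcongr
          _ = C := mul_one C

/-- the weight -/
noncomputable def f_wr (κ r : ℝ) : ℝ := min r (r ^ (-κ))

lemma f_wr_pos (κ : ℝ) {r : ℝ} (hr : 0 < r) : 0 < f_wr κ r :=
  lt_min hr (Real.rpow_pos_of_pos hr _)

lemma f_wr_meas (κ : ℝ) : Measurable (f_wr κ) := by
  unfold f_wr
  exact measurable_id.min (measurable_id.pow_const _)

/-- the measure -/
noncomputable def f_nur (κ θ : ℝ) : Measure ℝ :=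
  (volume.restrict (Ioi (0:ℝ))).withDensity fun r => ENNReal.ofReal (f_wr κ r ^ θ / r)

lemma f_nur_fin {κ : ℝ} (hκ : 0 < κ) {θ : ℝ} (h0 : 0 < θ) : IsFiniteMeasure (f_nur κ θ) := by
  refine ⟨?_⟩
  unfold f_nur
  rw [withDensity_apply _ MeasurableSet.univ, Measure.restrict_univ]
  have hsplit : Ioi (0:ℝ) = Ioc 0 1 ∪ Ioi 1 := (Ioc_union_Ioi_eq_Ioi zero_le_one).symm
  rw [hsplit]
  refine (lintegral_union_le _ _ _).trans_lt (ENNReal.add_lt_top.2 ⟨?_, ?_⟩)
  · have hI : IntegrableOn (fun r : ℝ => r ^ (θ - 1)) (Ioc 0 1) volume := by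
      rw [← intervalIntegrable_iff_integrableOn_Ioc_of_le zero_le_one]
      exact intervalIntegral.intervalIntegrable_rpow' (by linarith)
    have hfin := hI.2
    refine lt_of_le_of_lt ?_ hfin
    apply setLIntegral_mono' measurableSet_Ioc
    intro r hr
    have hr0 : 0 < r := hr.1
    rw [← ofReal_norm]
    apply ENNReal.ofReal_le_ofReal
    rw [Real.norm_eq_abs, abs_of_nonneg (Real.rpow_nonneg hr0.le _), Real.rpow_sub_one hr0.ne']
    apply div_le_div_of_nonneg_right _ hr0.le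
    exact Real.rpow_le_rpow (f_wr_pos κ hr0).le (min_le_left _ _) h0.le
  · have hI : IntegrableOn (fun r : ℝ => r ^ (-κ * θ - 1)) (Ioi 1) volume :=
      integrableOn_Ioi_rpow_of_lt (by nlinarith) zero_lt_one
    have hfin := hI.2
    refine lt_of_le_of_lt ?_ hfin
    apply setLIntegral_mono' measurableSet_Ioi
    intro r hr
    have hr0 : 0 < r := lt_trans zero_lt_one hr
    rw [← ofReal_norm]
    apply ENNReal.ofReal_le_ofReal
    rw [Real.norm_eq_abs, abs_of_nonneg (Real.rpow_nonneg hr0.le _), Real.rpow_sub_one hr0.ne']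
    apply div_le_div_of_nonneg_right _ hr0.le
    rw [Real.rpow_mul hr0.le]
    exact Real.rpow_le_rpow (f_wr_pos κ hr0).le (min_le_right _ _) h0.le

lemma f_cut {q : ℝ} (hq : q ≠ 0) : ((if 0 < q then 1 else 0 : ℂ)) =
    1 / 2 + ((1 / √π : ℝ) : ℂ) * ∫ r in Ioi (0:ℝ), ((q * Real.exp (-(r * q) ^ 2) : ℝ) : ℂ) := by
  rw [integral_complex_ofReal, gauss_Ioi]
  have hpi : √π ≠ 0 := (Real.sqrt_pos.2 Real.pi_pos).ne'
  rcases lt_or_gt_of_ne hq with h | h
  · rw [if_neg (not_lt.2 h.le), Real.sign_of_neg h, ← Complex.ofReal_mul]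
    have : 1 / √π * (-1 * (√π / 2)) = -(1 / 2) := by field_simp
    rw [this]
    push_cast
    ring
  · rw [if_pos h, Real.sign_of_pos h, ← Complex.ofReal_mul]
    have : 1 / √π * (1 * (√π / 2)) = 1 / 2 := by field_simp
    rw [this]
    push_cast
    ring

/-- the damped cut -/
noncomputable def f_T (phi : Fin d → E n → ℝ) {N : ℕ} (c : Fin d → ℝ) (cs : Fin N → Fin d → ℝ)
    (c1 : Fin d → ℝ) (r : ℝ) (x : E n) : ℂ :=
  famc phi c cs x * ((r * fam phi c1 x * Real.exp (-(r * fam phi c1 x) ^ 2) : ℝ) : ℂ)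

lemma f_T_meas (phi : Fin d → E n → ℝ) (hm : ∀ j, Measurable (phi j)) {N : ℕ} (c : Fin d → ℝ)
    (cs : Fin N → Fin d → ℝ) (c1 : Fin d → ℝ) :
    Measurable (fun q : ℝ × E n => f_T phi c cs c1 q.1 q.2) := by
  unfold f_T
  have h1 : Measurable (fun q : ℝ × E n => famc phi c cs q.2) :=
    (f_measurable_famc phi hm c cs).comp measurable_snd
  have h2 : Measurable (fun q : ℝ × E n => fam phi c1 q.2) :=
    (f_measurable_fam phi hm c1).comp measurable_snd
  have h3 : Measurable (fun q : ℝ × E n =>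
      q.1 * fam phi c1 q.2 * Real.exp (-(q.1 * fam phi c1 q.2) ^ 2)) :=
    (measurable_fst.mul h2).mul (Real.measurable_exp.comp (((measurable_fst.mul h2).pow_const 2).neg))
  exact h1.mul (Complex.measurable_ofReal.comp h3)

/-- Fubini -/
lemma f_step (phi : Fin d → E n → ℝ) (hm : ∀ j, Measurable (phi j)) {N : ℕ} (c : Fin d → ℝ)
    (cs : Fin N → Fin d → ℝ) (c1 : Fin d → ℝ)
    (hnull : sm n {x : S n | fam phi c1 (x : E n) = 0} = 0) (ξ : E n) :
    ‖extn (fun x => famc phi c cs x * if 0 < fam phi c1 x then 1 else 0) ξ‖ₑ ≤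
      ‖extn (famc phi c cs) ξ‖ₑ +
      ∫⁻ r in Ioi (0:ℝ), ENNReal.ofReal (1 / r) * ‖extn (f_T phi c cs c1 r) ξ‖ₑ := by
  set q : S n → ℝ := fun x => fam phi c1 (x : E n) with hq
  have hqm : Measurable q := (f_measurable_fam phi hm c1).comp measurable_subtype_coe
  have hGm : Measurable fun x : S n => famc phi c cs (x : E n) :=
    (f_measurable_famc phi hm c cs).comp measurable_subtype_coe
  set f : S n → ℝ → ℂ := fun x r => famc phi c cs (x : E n) * f_osc ξ x *
    ((q x * Real.exp (-(r * q x) ^ 2) : ℝ) : ℂ) with hf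
  have hfm : Measurable (Function.uncurry f) := by
    simp only [hf]
    have h1 : Measurable (fun p : S n × ℝ => famc phi c cs (p.1 : E n)) := hGm.comp measurable_fst
    have h2 : Measurable (fun p : S n × ℝ => q p.1) := hqm.comp measurable_fst
    have h3 : Measurable (fun p : S n × ℝ => q p.1 * Real.exp (-(p.2 * q p.1) ^ 2)) :=
      h2.mul (Real.measurable_exp.comp (((measurable_snd.mul h2).pow_const 2).neg))
    have h4 : Measurable (fun p : S n × ℝ => f_osc ξ p.1) := (f_osc_meas ξ).comp measurable_fst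
    exact (h1.mul h4).mul (Complex.measurable_ofReal.comp h3)
  have hGle : ∀ x : S n, ‖famc phi c cs (x : E n) * f_osc ξ x‖ ≤ 1 := fun x => by
    rw [norm_mul, f_osc_norm, mul_one]
    exact f_norm_famc_le _ _ _ _
  have hGint : Integrable (fun x : S n => famc phi c cs (x : E n) * f_osc ξ x) (sm n) :=
    Integrable.of_bound (hGm.mul (f_osc_meas ξ)).aestronglyMeasurable 1
      (Filter.Eventually.of_forall hGle)
  have hfint : Integrable (Function.uncurry f)
      ((sm n).prod (volume.restrict (Ioi (0:ℝ)))) := by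
    refine ⟨hfm.aestronglyMeasurable, ?_⟩
    rw [HasFiniteIntegral, lintegral_prod _ hfm.enorm.aemeasurable]
    calc ∫⁻ x : S n, (∫⁻ r in Ioi (0:ℝ), ‖Function.uncurry f (x, r)‖ₑ) ∂(sm n)
        ≤ ∫⁻ x : S n, ENNReal.ofReal (√π / 2) ∂(sm n) := by
          apply lintegral_mono
          intro x
          calc ∫⁻ r in Ioi (0:ℝ), ‖Function.uncurry f (x, r)‖ₑ
              ≤ ∫⁻ r in Ioi (0:ℝ), ENNReal.ofReal (|q x| * Real.exp (-(r * q x) ^ 2)) := by
                apply lintegral_mono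
                intro r
                simp only [Function.uncurry, hf]
                rw [← ofReal_norm, norm_mul]
                apply ENNReal.ofReal_le_ofReal
                rw [Complex.norm_real, Real.norm_eq_abs, abs_mul, Real.abs_exp]
                exact mul_le_of_le_one_left (by positivity) (hGle x)
            _ ≤ _ := gauss_Ioi_abs (q x)
      _ < ∞ := by
          rw [lintegral_const]
          exact ENNReal.mul_lt_top ENNReal.ofReal_lt_top (measure_lt_top _ _)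
  have hae : ∀ᵐ x ∂(sm n), q x ≠ 0 := by
    rw [ae_iff]
    convert hnull using 2
    ext x
    simp [hq]
  have hstep : extn (fun x => famc phi c cs x * if 0 < fam phi c1 x then 1 else 0) ξ =
      1 / 2 * extn (famc phi c cs) ξ +
      ((1 / √π : ℝ) : ℂ) * ∫ r in Ioi (0:ℝ), ((1 / r : ℝ) : ℂ) * extn (f_T phi c cs c1 r) ξ := by
    have e1 : extn (fun x => famc phi c cs x * if 0 < fam phi c1 x then 1 else 0) ξ =
        ∫ x : S n, (1 / 2 * (famc phi c cs (x : E n) * f_osc ξ x) +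
        ((1 / √π : ℝ) : ℂ) * ∫ r in Ioi (0:ℝ), f x r) ∂(sm n) := by
      unfold extn
      apply integral_congr_ae
      filter_upwards [hae] with x hx
      have h1 := f_cut hx
      simp only [hq] at h1
      rw [h1]
      simp only [hf, f_osc]
      rw [integral_const_mul]
      ring
    have hInt2 : Integrable (fun x => ∫ r in Ioi (0:ℝ), f x r) (sm n) :=
      hfint.integral_prod_left
    have e2 : ∫ r in Ioi (0:ℝ), ((1 / r : ℝ) : ℂ) * extn (f_T phi c cs c1 r) ξ =
        ∫ r in Ioi (0:ℝ), (∫ x : S n, f x r ∂(sm n)) := by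
      apply setIntegral_congr_fun measurableSet_Ioi
      intro r hr
      have hr0 : r ≠ 0 := (mem_Ioi.1 hr).ne'
      simp only [extn]
      rw [← integral_const_mul]
      apply integral_congr_ae
      apply Filter.Eventually.of_forall
      intro x
      simp only [hf, f_T, f_osc, hq]
      have hrc : (r : ℂ) ≠ 0 := by exact_mod_cast hr0
      push_cast
      field_simp
    rw [e1, integral_add (hGint.const_mul _) (hInt2.const_mul _), integral_const_mul,
      integral_const_mul, e2]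
    congr 2
    exact integral_integral_swap hfint
  have hpi1 : 1 / √π ≤ 1 := by
    rw [div_le_one (Real.sqrt_pos.2 Real.pi_pos)]
    rw [Real.one_le_sqrt]
    linarith [Real.pi_gt_three]
  have hpi0 : 0 ≤ 1 / √π := by positivity
  rw [hstep]
  refine (enorm_add_le _ _).trans (add_le_add ?_ ?_)
  · rw [enorm_mul]
    have : ‖(1 / 2 : ℂ)‖ₑ ≤ 1 := by
      rw [← ofReal_norm]
      have : ‖(1 / 2 : ℂ)‖ = 1 / 2 := by norm_num
      rw [this]
      exact ENNReal.ofReal_le_one.2 (by norm_num)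
    exact (mul_le_mul_left this _).trans (by rw [one_mul])
  · rw [enorm_mul]
    have : ‖((1 / √π : ℝ) : ℂ)‖ₑ ≤ 1 := by
      rw [← ofReal_norm, Complex.norm_real, Real.norm_eq_abs, abs_of_nonneg hpi0]
      exact ENNReal.ofReal_le_one.2 hpi1
    refine (mul_le_mul_left this _).trans ?_
    rw [one_mul]
    refine (enorm_integral_le_lintegral_enorm _).trans ?_
    apply setLIntegral_mono' measurableSet_Ioi
    intro r hr
    have hr0 : 0 < r := hr
    rw [enorm_mul]
    apply mul_le_mul_left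
    rw [← ofReal_norm, Complex.norm_real, Real.norm_eq_abs, abs_of_nonneg (by positivity)]

theorem f_one_cut (phi : Fin d → E n → ℝ) (hm : ∀ j, Measurable (phi j))
    (hb : ∃ K : ℝ, ∀ j, ∀ x : S n, |phi j (x : E n)| ≤ K)
    (hs : ∃ K κ : ℝ, 0 < κ ∧ ∀ c : Fin d → ℝ, ‖c‖ = 1 → ∀ δ : ℝ, 0 ≤ δ →
      sm n {x : S n | |fam phi c (x : E n)| ≤ δ} ≤ ENNReal.ofReal (K * δ ^ κ))
    (p0 : ℝ) (hp0 : 1 ≤ p0) (N : ℕ)
    (H : ∀ p : ℝ, p0 < p → ∃ C : ℝ≥0∞, C ≠ ∞ ∧
      ∀ (c : Fin d → ℝ) (cs : Fin N → Fin d → ℝ), ∫⁻ ξ, ‖extn (famc phi c cs) ξ‖ₑ ^ p ≤ C) :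
    ∀ p : ℝ, p0 < p → ∃ C : ℝ≥0∞, C ≠ ∞ ∧
      ∀ (c : Fin d → ℝ) (cs : Fin N → Fin d → ℝ) (c1 : Fin d → ℝ),
      ∫⁻ ξ, ‖extn (fun x => famc phi c cs x * if 0 < fam phi c1 x then 1 else 0) ξ‖ₑ ^ p ≤ C := by
  intro p hp
  obtain ⟨K1, hK1⟩ := hb
  obtain ⟨K2, κ0, hκ0, hK2⟩ := hs
  obtain ⟨K, hK0, hKK⟩ := f_l1 (sm n) (d * |K1|) |K2| κ0 (by positivity) (abs_nonneg _) hκ0
  set κ : ℝ := min (κ0 / 2) (1 / 2) with hκ
  have hκp : 0 < κ := lt_min (by positivity) (by norm_num)
  have hfamb : ∀ c : Fin d → ℝ, ‖c‖ = 1 → ∀ x : S n, |fam phi c (x : E n)| ≤ d * |K1| := by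
    intro c hc x
    unfold fam
    refine (Finset.abs_sum_le_sum_abs _ _).trans ?_
    have : ∀ j ∈ (Finset.univ : Finset (Fin d)), |c j * phi j (x : E n)| ≤ |K1| := by
      intro j _
      rw [abs_mul]
      have h1 : |c j| ≤ 1 := by
        have := norm_le_pi_norm c j
        rwa [hc, Real.norm_eq_abs] at this
      have h2 : |phi j (x : E n)| ≤ |K1| := (hK1 j x).trans (le_abs_self _)
      calc |c j| * |phi j (x : E n)| ≤ 1 * |K1| :=
            mul_le_mul h1 h2 (abs_nonneg _) zero_le_one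
        _ = |K1| := one_mul _
    refine (Finset.sum_le_sum this).trans ?_
    rw [Finset.sum_const, Finset.card_univ, Fintype.card_fin, nsmul_eq_mul]
  have hsub : ∀ c : Fin d → ℝ, ‖c‖ = 1 → ∀ δ : ℝ, 0 ≤ δ →
      sm n {x : S n | |fam phi c (x : E n)| ≤ δ} ≤ ENNReal.ofReal (|K2| * δ ^ κ0) := by
    intro c hc δ hδ
    refine (hK2 c hc δ hδ).trans (ENNReal.ofReal_le_ofReal ?_)
    exact mul_le_mul_of_nonneg_right (le_abs_self _) (Real.rpow_nonneg hδ _)
  have hunif : ∀ (c : Fin d → ℝ) (cs : Fin N → Fin d → ℝ) (c1 : Fin d → ℝ), ‖c1‖ = 1 →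
      ∀ r : ℝ, 0 < r → ∀ ξ : E n, ‖extn (f_T phi c cs c1 r) ξ‖ₑ ≤ ENNReal.ofReal (K * f_wr κ r) := by
    intro c cs c1 hc1 r hr ξ
    refine (f_extn_le _ _).trans ?_
    refine le_trans ?_ (hKK (fun x : S n => fam phi c1 (x : E n))
      ((f_measurable_fam phi hm c1).comp measurable_subtype_coe) (hfamb c1 hc1) (hsub c1 hc1) r hr)
    apply lintegral_mono
    intro x
    simp only
    rw [← ofReal_norm]
    apply ENNReal.ofReal_le_ofReal
    unfold f_T
    rw [norm_mul, Complex.norm_real, Real.norm_eq_abs, abs_mul, Real.abs_exp]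
    exact mul_le_of_le_one_left (by positivity) (f_norm_famc_le _ _ _ _)
  set p' : ℝ := (p0 + p) / 2 with hp'
  have hp'3 : p0 < p' := by rw [hp']; linarith
  have hp'p : p' < p := by rw [hp']; linarith
  have hpp : 0 < p := by linarith
  obtain ⟨C', hC', hC'b⟩ := H p' hp'3
  obtain ⟨C0, hC0, hC0b⟩ := H p hp
  set θ : ℝ := (p - p') / p with hθ
  have hθ0 : 0 < θ := div_pos (by linarith) hpp
  have hν := f_nur_fin hκp hθ0
  set ν := f_nur κ θ with hνd
  set C2 : ℝ≥0∞ := ν univ ^ (p - 1) * (ENNReal.ofReal K ^ (p - p') * C' * ν univ) with hC2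
  have hνu : ν univ ≠ ∞ := measure_ne_top ν univ
  have hC2f : C2 ≠ ∞ := by
    rw [hC2]
    refine ENNReal.mul_ne_top (ENNReal.rpow_ne_top_of_nonneg (by linarith) hνu) ?_
    exact ENNReal.mul_ne_top (ENNReal.mul_ne_top
      (ENNReal.rpow_ne_top_of_nonneg (by linarith) ENNReal.ofReal_ne_top) hC') hνu
  refine ⟨2 ^ (p - 1) * (C0 + C2), ?_, ?_⟩
  · refine ENNReal.mul_ne_top (ENNReal.rpow_ne_top_of_nonneg (by linarith) (by norm_num)) ?_
    exact ENNReal.add_ne_top.2 ⟨hC0, hC2f⟩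
  -- the normalised case
  have main : ∀ (c : Fin d → ℝ) (cs : Fin N → Fin d → ℝ) (c1 : Fin d → ℝ), ‖c1‖ = 1 →
      ∫⁻ ξ, ‖extn (fun x => famc phi c cs x * if 0 < fam phi c1 x then 1 else 0) ξ‖ₑ ^ p ≤
        2 ^ (p - 1) * (C0 + C2) := by
    intro c cs c1 hc1
    have hnull : sm n {x : S n | fam phi c1 (x : E n) = 0} = 0 := by
      have h1 := hsub c1 hc1 0 le_rfl
      rw [Real.zero_rpow hκ0.ne', mul_zero, ENNReal.ofReal_zero] at h1
      refine le_antisymm (le_trans (measure_mono ?_) h1) (zero_le)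
      intro x hx
      simp only [mem_ofPred_eq] at hx ⊢
      rw [hx, abs_zero]
    set X : ℝ → E n → ℝ≥0∞ := fun r ξ => ‖extn (f_T phi c cs c1 r) ξ‖ₑ with hX
    have hXm : Measurable (Function.uncurry X) := by
      have := measurable_extn_param (fun r x => f_T phi c cs c1 r x) (f_T_meas phi hm c cs c1)
      exact this.enorm
    set F : ℝ → E n → ℝ≥0∞ := fun r ξ => X r ξ * ENNReal.ofReal (f_wr κ r ^ (-θ)) with hF
    have hFm : Measurable (Function.uncurry F) := by
      refine hXm.mul (ENNReal.measurable_ofReal.comp ?_)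
      exact ((f_wr_meas κ).comp measurable_fst).pow_const _
    have hY : ∀ ξ, ∫⁻ r in Ioi (0:ℝ), ENNReal.ofReal (1 / r) * X r ξ = ∫⁻ r, F r ξ ∂ν := by
      intro ξ
      have hFz : Measurable fun r => F r ξ := hFm.of_uncurry_right
      have hd : Measurable fun r : ℝ => ENNReal.ofReal (f_wr κ r ^ θ / r) :=
        ENNReal.measurable_ofReal.comp (((f_wr_meas κ).pow_const _).div measurable_id)
      rw [hνd, f_nur, lintegral_withDensity_eq_lintegral_mul _ hd hFz]
      apply setLIntegral_congr_fun measurableSet_Ioi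
      intro r hr
      have hr0 : 0 < r := hr
      have hw := f_wr_pos κ hr0
      simp only [Pi.mul_apply, hF]
      have e : ENNReal.ofReal (1 / r) = ENNReal.ofReal (f_wr κ r ^ θ / r) *
          ENNReal.ofReal (f_wr κ r ^ (-θ)) := by
        rw [← ENNReal.ofReal_mul (by positivity)]
        congr 1
        rw [Real.rpow_neg hw.le]
        have : f_wr κ r ^ θ ≠ 0 := (Real.rpow_pos_of_pos hw _).ne'
        field_simp
      rw [e]
      ring
    have hFp : ∀ r, 0 < r → ∫⁻ ξ, F r ξ ^ p ≤ ENNReal.ofReal K ^ (p - p') * C' := by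
      intro r hr
      have hw := f_wr_pos κ hr
      have hXp : ∀ ξ, F r ξ ^ p ≤ ENNReal.ofReal K ^ (p - p') * X r ξ ^ p' := by
        intro ξ
        have hXf : X r ξ ≤ ENNReal.ofReal (K * f_wr κ r) := hunif c cs c1 hc1 r hr ξ
        simp only [hF]
        rw [ENNReal.mul_rpow_of_nonneg _ _ hpp.le]
        have e1 : X r ξ ^ p = X r ξ ^ (p - p') * X r ξ ^ p' := by
          rw [← ENNReal.rpow_add_of_nonneg _ _ (by linarith) (by linarith)]
          congr 1
          ring
        have e2 : X r ξ ^ (p - p') ≤ ENNReal.ofReal K ^ (p - p') *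
            ENNReal.ofReal (f_wr κ r) ^ (p - p') := by
          rw [← ENNReal.mul_rpow_of_nonneg _ _ (by linarith), ← ENNReal.ofReal_mul hK0.le]
          exact ENNReal.rpow_le_rpow hXf (by linarith)
        have e3 : ENNReal.ofReal (f_wr κ r) ^ (p - p') *
            ENNReal.ofReal (f_wr κ r ^ (-θ)) ^ p = 1 := by
          rw [ENNReal.ofReal_rpow_of_pos hw, ENNReal.ofReal_rpow_of_pos (Real.rpow_pos_of_pos hw _),
            ← ENNReal.ofReal_mul (by positivity), ← Real.rpow_mul hw.le, ← Real.rpow_add hw]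
          have : p - p' + -θ * p = 0 := by
            rw [hθ]
            field_simp
            ring
          rw [this, Real.rpow_zero, ENNReal.ofReal_one]
        rw [e1]
        calc X r ξ ^ (p - p') * X r ξ ^ p' * ENNReal.ofReal (f_wr κ r ^ (-θ)) ^ p
            ≤ (ENNReal.ofReal K ^ (p - p') * ENNReal.ofReal (f_wr κ r) ^ (p - p')) * X r ξ ^ p' *
                ENNReal.ofReal (f_wr κ r ^ (-θ)) ^ p := by gcongr
          _ = ENNReal.ofReal K ^ (p - p') * X r ξ ^ p' *
                (ENNReal.ofReal (f_wr κ r) ^ (p - p') * ENNReal.ofReal (f_wr κ r ^ (-θ)) ^ p) := by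
              ring
          _ = _ := by rw [e3, mul_one]
      calc ∫⁻ ξ, F r ξ ^ p ≤ ∫⁻ ξ, ENNReal.ofReal K ^ (p - p') * X r ξ ^ p' := lintegral_mono hXp
        _ = ENNReal.ofReal K ^ (p - p') * ∫⁻ ξ, X r ξ ^ p' := by
            rw [lintegral_const_mul' _ _
              (ENNReal.rpow_ne_top_of_nonneg (by linarith) ENNReal.ofReal_ne_top)]
        _ ≤ _ := mul_le_mul_right
            (f_damped phi hm p' (by linarith) C' hC'b c cs c1 r) _
    have hYp : ∫⁻ ξ, (∫⁻ r, F r ξ ∂ν) ^ p ≤ C2 := by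
      refine (mink ν volume F hFm p (by linarith)).trans ?_
      rw [hC2]
      apply mul_le_mul_right
      have hae : ∀ᵐ r ∂ν, ∫⁻ ξ, F r ξ ^ p ≤ ENNReal.ofReal K ^ (p - p') * C' := by
        have h1 : ∀ᵐ r ∂(volume.restrict (Ioi (0:ℝ))),
            ∫⁻ ξ, F r ξ ^ p ≤ ENNReal.ofReal K ^ (p - p') * C' :=
          (ae_restrict_iff' measurableSet_Ioi).2 (Filter.Eventually.of_forall fun r hr => hFp r hr)
        exact (withDensity_absolutelyContinuous _ _).ae_le h1
      calc ∫⁻ r, (∫⁻ ξ, F r ξ ^ p) ∂ν ≤ ∫⁻ r, ENNReal.ofReal K ^ (p - p') * C' ∂ν :=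
            lintegral_mono_ae hae
        _ = _ := by rw [lintegral_const]
    have hVm : Measurable fun ξ : E n => ‖extn (famc phi c cs) ξ‖ₑ ^ p :=
      (measurable_extn _ (f_measurable_famc phi hm c cs)).enorm.pow_const _
    calc ∫⁻ ξ, ‖extn (fun x => famc phi c cs x * if 0 < fam phi c1 x then 1 else 0) ξ‖ₑ ^ p
        ≤ ∫⁻ ξ, 2 ^ (p - 1) * (‖extn (famc phi c cs) ξ‖ₑ ^ p + (∫⁻ r, F r ξ ∂ν) ^ p) := by
          apply lintegral_mono
          intro ξ
          have hz : ‖extn (fun x => famc phi c cs x * if 0 < fam phi c1 x then 1 else 0) ξ‖ₑ ≤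
              ‖extn (famc phi c cs) ξ‖ₑ + ∫⁻ r, F r ξ ∂ν := by
            have h1 := f_step phi hm c cs c1 hnull ξ
            have h2 := hY ξ
            simp only [hX] at h2
            rwa [h2] at h1
          have hz2 := ENNReal.rpow_le_rpow hz hpp.le
          exact hz2.trans (ENNReal.rpow_add_le_mul_rpow_add_rpow _ _ (by linarith))
      _ = 2 ^ (p - 1) * ((∫⁻ ξ, ‖extn (famc phi c cs) ξ‖ₑ ^ p) +
            ∫⁻ ξ, (∫⁻ r, F r ξ ∂ν) ^ p) := by
          rw [lintegral_const_mul' _ _ (ENNReal.rpow_ne_top_of_nonneg (by linarith) (by norm_num)),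
            lintegral_add_left hVm]
      _ ≤ _ := mul_le_mul_right (add_le_add (hC0b c cs) hYp) _
  intro c cs c1
  by_cases hc1 : c1 = 0
  · subst hc1
    have h0 : ∀ x, fam phi (0 : Fin d → ℝ) x = 0 := by
      intro x
      unfold fam
      simp
    have hV : ∀ ξ, extn (fun x => famc phi c cs x *
        if 0 < fam phi (0 : Fin d → ℝ) x then 1 else 0) ξ = 0 := by
      intro ξ
      unfold extn
      simp [h0]
    simp only [hV]
    simp [ENNReal.zero_rpow_of_pos hpp]
  · have hn : 0 < ‖c1‖ := norm_pos_iff.2 hc1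
    have hcut : ∀ x, (if 0 < fam phi c1 x then (1:ℂ) else 0) =
        if 0 < fam phi (‖c1‖⁻¹ • c1) x then 1 else 0 := by
      intro x
      rw [f_fam_smul]
      have : 0 < ‖c1‖⁻¹ := inv_pos.2 hn
      congr 1
      rw [eq_iff_iff]
      exact (mul_pos_iff_of_pos_left this).symm
    have := main c cs (‖c1‖⁻¹ • c1) (by rw [norm_smul, norm_inv, norm_norm, inv_mul_cancel₀ hn.ne'])
    simpa only [hcut] using this

/-- **Cuts.** -/
theorem cuts {n d : ℕ} (p0 : ℝ) (hp0 : 1 ≤ p0) (phi : Fin d → E n → ℝ)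
    (hm : ∀ j, Measurable (phi j)) (hb : ∃ K : ℝ, ∀ j, ∀ x : E n, ‖x‖ = 1 → |phi j x| ≤ K)
    (hs : ∃ K κ : ℝ, 0 ≤ K ∧ 0 < κ ∧ ∀ c : Fin d → ℝ, ‖c‖ = 1 → ∀ δ : ℝ, 0 ≤ δ →
      sm n {x : S n | |fam phi c x| ≤ δ} ≤ ENNReal.ofReal (K * δ ^ κ))
    (H : ∀ p : ℝ, p0 < p → ∃ C : ℝ≥0∞, C ≠ ∞ ∧ ∀ c : Fin d → ℝ,
      ∫⁻ ξ, ‖extn (fun x : E n => Complex.exp (((fam phi c x : ℝ) : ℂ) * Complex.I)) ξ‖ₑ ^ p ≤ C)
    (N : ℕ) : ∀ p : ℝ, p0 < p → ∃ C : ℝ≥0∞, C ≠ ∞ ∧
      ∀ (c : Fin d → ℝ) (cs : Fin N → Fin d → ℝ), ∫⁻ ξ, ‖extn (famc phi c cs) ξ‖ₑ ^ p ≤ C := by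
  have hb' : ∃ K : ℝ, ∀ j, ∀ x : S n, |phi j (x : E n)| ≤ K := by
    obtain ⟨K, hK⟩ := hb
    exact ⟨K, fun j x => hK j x (norm_eq_of_mem_sphere x)⟩
  have hs' : ∃ K κ : ℝ, 0 < κ ∧ ∀ c : Fin d → ℝ, ‖c‖ = 1 → ∀ δ : ℝ, 0 ≤ δ →
      sm n {x : S n | |fam phi c (x : E n)| ≤ δ} ≤ ENNReal.ofReal (K * δ ^ κ) := by
    obtain ⟨K, κ, _, h⟩ := hs
    exact ⟨K, κ, h⟩
  induction N with
  | zero =>
    intro p hp
    obtain ⟨C, hC, h⟩ := H p hp
    refine ⟨C, hC, fun c cs => ?_⟩
    refine le_trans (le_of_eq ?_) (h c)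
    refine lintegral_congr fun ξ => ?_
    congr 3
    funext x
    unfold famc
    rw [Fin.prod_univ_zero, mul_one]
  | succ N ih =>
    intro p hp
    obtain ⟨C, hC, h⟩ := f_one_cut phi hm hb' hs' p0 hp0 N ih p hp
    refine ⟨C, hC, fun c cs => ?_⟩
    have h1 : famc phi c cs = fun x => famc phi c (fun i : Fin N => cs i.castSucc) x *
        if 0 < fam phi (cs (Fin.last N)) x then 1 else 0 := by
      funext x
      unfold famc
      rw [Fin.prod_univ_castSucc, mul_assoc]
    rw [h1]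
    exact h c (fun i : Fin N => cs i.castSucc) (cs (Fin.last N))

end Pool.Agent.VAN
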