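import Pool.Agent.VAN.N2

/-!
For every smooth function and almost every diagonal quadratic form their sum has no flat points on
the unit sphere of `R^3`.
-/

set_option autoImplicit false

namespace Pool.Agent.VAN.ND

open MeasureTheory Set Filter Topology Asymptotics Pool.Agent.MP_6cbfb8_an Pool.Agent.VAN.K
open Pool.Agent.VAN.NG
open scoped ENNReal Real ContDiff

variable {i l j : Fin 3}

/-- The critical values in the first direction form a null set. -/
lemma crit_null (Ψ : (Fin 3 → ℝ) → Fin 3 → ℝ) :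
    volume (Ψ '' {w | DifferentiableAt ℝ Ψ w ∧
      HasDerivAt (fun t : ℝ => Ψ (w + t • Pi.single 0 1)) 0 0}) = 0 := by
  refine addHaar_image_eq_zero_of_det_fderivWithin_eq_zero volume (f' := fun w => fderiv ℝ Ψ w)
    (fun w hw => hw.1.hasFDerivAt.hasFDerivWithinAt) fun w hw => ?_
  have h1 : HasDerivAt (fun t : ℝ => w + t • (Pi.single 0 1 : Fin 3 → ℝ)) (Pi.single 0 1) 0 := by
    have := ((hasDerivAt_id (0 : ℝ)).smul_const (Pi.single 0 1 : Fin 3 → ℝ)).const_add w
    simpa using this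
  have h2 : HasDerivAt (fun t : ℝ => Ψ (w + t • Pi.single 0 1)) (fderiv ℝ Ψ w (Pi.single 0 1)) 0 := by
    have h3 : HasFDerivAt Ψ (fderiv ℝ Ψ w) (w + (0 : ℝ) • (Pi.single 0 1 : Fin 3 → ℝ)) := by
      simpa using hw.1.hasFDerivAt
    exact h3.comp_hasDerivAt 0 h1
  have h3 : fderiv ℝ Ψ w (Pi.single 0 1) = 0 := h2.unique hw.2
  by_contra hne
  have h4 : Function.Injective (fderiv ℝ Ψ w : (Fin 3 → ℝ) →ₗ[ℝ] (Fin 3 → ℝ)) :=
    (LinearMap.equivOfDetNeZero _ hne).injective
  have h5 : (Pi.single 0 1 : Fin 3 → ℝ) = 0 := h4 (by simpa using h3)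
  have h6 := congrFun h5 0
  simp at h6

lemma norm_rot_sub_le (x : E 3) (hx : ‖x‖ = 1) (h : ℝ) : ‖rot i l x h - x‖ ≤ 4 * |h| := by
  have hc : ∀ m, |x m| ≤ 1 := fun m => by
    rw [← Real.norm_eq_abs, ← hx]
    exact PiLp.norm_apply_le x m
  have h1 : |Real.cos h - 1| ≤ |h| := by
    rcases le_or_gt |h| 1 with h2 | h2
    · have h3 : |Real.cos h - 1| = 1 - Real.cos h := by
        rw [abs_sub_comm, abs_of_nonneg (by linarith [Real.cos_le_one h])]
      have h4 := Real.one_sub_sq_div_two_le_cos (x := h)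
      rw [h3]
      nlinarith [sq_abs h, abs_nonneg h]
    · have h3 : |Real.cos h - 1| ≤ 2 := by
        rw [abs_le]
        constructor <;> linarith [Real.cos_le_one h, Real.neg_one_le_cos h]
      rcases le_or_gt 2 |h| with h4 | h4
      · linarith
      · have h5 := Real.one_sub_sq_div_two_le_cos (x := h)
        have h6 : |Real.cos h - 1| = 1 - Real.cos h := by
          rw [abs_sub_comm, abs_of_nonneg (by linarith [Real.cos_le_one h])]
        rw [h6]
        nlinarith [sq_abs h, abs_nonneg h]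
  have h2 : |Real.sin h| ≤ |h| := Real.abs_sin_le_abs (x := h)
  have hA : |x i * (Real.cos h - 1) + x l * Real.sin h| ≤ 2 * |h| := by
    refine (abs_add_le _ _).trans ?_
    rw [abs_mul, abs_mul]
    nlinarith [hc i, hc l, abs_nonneg (x i), abs_nonneg (x l), abs_nonneg h,
      abs_nonneg (Real.cos h - 1), abs_nonneg (Real.sin h)]
  have hB : |x l * (Real.cos h - 1) - x i * Real.sin h| ≤ 2 * |h| := by
    refine (abs_sub _ _).trans ?_
    rw [abs_mul, abs_mul]
    nlinarith [hc i, hc l, abs_nonneg (x i), abs_nonneg (x l), abs_nonneg h,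
      abs_nonneg (Real.cos h - 1), abs_nonneg (Real.sin h)]
  have h3 : rot i l x h - x = (x i * (Real.cos h - 1) + x l * Real.sin h) •
      (EuclideanSpace.single i (1:ℝ) : E 3) +
      (x l * (Real.cos h - 1) - x i * Real.sin h) • (EuclideanSpace.single l (1:ℝ) : E 3) := by
    unfold rot
    abel
  rw [h3]
  refine (norm_add_le _ _).trans ?_
  rw [norm_smul, norm_smul]
  simp only [PiLp.norm_single, Real.norm_eq_abs, norm_one, mul_one]
  linarith

/-- Second order Taylor estimate along a rotation. -/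
lemma taylor_rot {f : E 3 → ℝ} (hf : ContDiff ℝ ∞ f) (hil : i ≠ l) (hij : i ≠ j) (hjl : j ≠ l) :
    ∃ M : ℝ, 0 ≤ M ∧ ∀ (y : E 3) (h : ℝ), ‖y‖ = 1 →
      |f (rot i l y h) - f y - h * rotD i l f y| ≤ M * h ^ 2 := by
  have hc : Continuous ((rotD i l)^[2] f) := (contDiff_iter hf 2).continuous
  obtain ⟨M, hM⟩ := (isCompact_sphere (0 : E 3) 1).exists_bound_of_continuousOn hc.continuousOn
  refine ⟨|M|, abs_nonneg _, fun y h hy => ?_⟩
  have hd1 : ∀ t, HasDerivAt (fun θ => f (rot i l y θ)) (rotD i l f (rot i l y t)) t := fun t =>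
    ((hf.differentiable (by simp)) (rot i l y t)).hasFDerivAt.comp_hasDerivAt t
      (hasDerivAt_rot hil y t)
  have hd2 : ∀ t, HasDerivAt (fun θ => rotD i l f (rot i l y θ))
      ((rotD i l)^[2] f (rot i l y t)) t := fun t =>
    (((contDiff_rotD hf).differentiable (by simp)) (rot i l y t)).hasFDerivAt.comp_hasDerivAt t
      (hasDerivAt_rot hil y t)
  have hb : ∀ t, |(rotD i l)^[2] f (rot i l y t)| ≤ |M| := fun t => by
    have := hM (rot i l y t) (by simpa using rot_norm hil hij hjl hy t)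
    exact (by simpa using this : _ ≤ M).trans (le_abs_self M)
  have mvt : ∀ (u u' : ℝ → ℝ), (∀ t, HasDerivAt u (u' t) t) → ∀ (B t : ℝ),
      (∀ s, |s| ≤ |t| → |u' s| ≤ B) → |u t - u 0| ≤ B * |t| := by
    intro u u' hu B t hB
    have h := Convex.norm_image_sub_le_of_norm_hasDerivWithin_le (𝕜 := ℝ) (f := u) (f' := u')
      (s := Icc (-|t|) |t|) (x := 0) (y := t) (C := B) (fun r _ => (hu r).hasDerivWithinAt)
      (fun r hr => hB r (abs_le.2 hr)) (convex_Icc _ _)
      ⟨by simp, abs_nonneg t⟩ ⟨neg_abs_le t, le_abs_self t⟩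
    simpa using h
  have h1 : ∀ s, |s| ≤ |h| → |rotD i l f (rot i l y s) - rotD i l f y| ≤ |M| * |h| := by
    intro s hs
    have h2 := mvt _ _ hd2 |M| s (fun r _ => hb r)
    rw [rot_zero] at h2
    exact h2.trans (mul_le_mul_of_nonneg_left hs (abs_nonneg _))
  have h2 := mvt (fun θ => f (rot i l y θ) - θ * rotD i l f y)
    (fun θ => rotD i l f (rot i l y θ) - rotD i l f y) (fun t => by
      have := (hd1 t).sub ((hasDerivAt_id t).mul_const (rotD i l f y))
      rw [one_mul] at this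
      exact this) (|M| * |h|) h h1
  rw [rot_zero] at h2
  have h3 : |M| * |h| * |h| = |M| * h ^ 2 := by rw [mul_assoc, abs_mul_abs_self, sq]
  rw [h3] at h2
  refine le_trans (le_of_eq ?_) h2
  congr 1
  ring

/-- Derivatives of flat functions are flat. -/
lemma flat_rotD {f : E 3 → ℝ} (hf : ContDiff ℝ ∞ f) {x : E 3} (hx : ‖x‖ = 1) (h : Flat f x)
    (hil : i ≠ l) : Flat (rotD i l f) x := by
  obtain ⟨j, hij, hjl⟩ : ∃ j : Fin 3, i ≠ j ∧ j ≠ l := by
    clear hf hx h f x
    revert hil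
    fin_cases i <;> fin_cases l <;> simp <;> decide
  have h0 : rotD i l f x = 0 := by simpa using rotD_of_flat hf hx h hil 1 le_rfl
  obtain ⟨M, hM0, hM⟩ := taylor_rot hf hil hij hjl
  intro k
  obtain ⟨C, hC⟩ := (h (2 * (k + 1))).bound
  rw [Filter.Eventually, Metric.mem_nhdsWithin_iff] at hC
  obtain ⟨ε, hε, hC⟩ := hC
  refine IsBigO.of_bound (|C| * 5 ^ (2 * (k + 1)) + |C| + M) ?_
  rw [Filter.Eventually, Metric.mem_nhdsWithin_iff]
  refine ⟨min 1 (ε / 5), by positivity, fun y hyy => ?_⟩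
  obtain ⟨hy, hyS⟩ := hyy
  rw [Metric.mem_ball, dist_eq_norm] at hy
  have hy1 : ‖y - x‖ < 1 := hy.trans_le (min_le_left _ _)
  have hy2 : 5 * ‖y - x‖ < ε := by
    have := hy.trans_le (min_le_right _ _)
    linarith
  have hyn : ‖y‖ = 1 := by simpa using hyS
  set δ := ‖y - x‖ with hδ
  have hδ0 : 0 ≤ δ := norm_nonneg _
  rw [h0, mem_ofPred_eq, sub_zero]
  rcases hδ0.eq_or_lt with hz | hz
  · have : y = x := by
      rw [← sub_eq_zero, ← norm_eq_zero]
      exact hz.symm
    subst this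
    rw [h0, norm_zero]
    positivity
  set η := δ ^ (k + 1) with hη
  have hη0 : 0 < η := pow_pos hz _
  have hηδ : η ≤ δ := by
    rw [hη, pow_succ]
    have := pow_le_one₀ (n := k) hδ0 hy1.le
    nlinarith
  set z := rot i l y η with hzdef
  have hzn : ‖z‖ = 1 := rot_norm hil hij hjl hyn η
  have hzx : ‖z - x‖ ≤ 5 * δ := by
    have h1 := norm_rot_sub_le (i := i) (l := l) y hyn η
    rw [abs_of_pos hη0] at h1
    calc ‖z - x‖ = ‖(z - y) + (y - x)‖ := by rw [sub_add_sub_cancel]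
      _ ≤ ‖z - y‖ + ‖y - x‖ := norm_add_le _ _
      _ ≤ 4 * η + δ := by rw [← hδ]; gcongr
      _ ≤ 5 * δ := by linarith
  have hzS : z ∈ Metric.sphere (0 : E 3) 1 := by simpa using hzn
  have b1 := hC (⟨by rw [Metric.mem_ball, dist_eq_norm]; exact hzx.trans_lt hy2, hzS⟩ :
    z ∈ Metric.ball x ε ∩ Metric.sphere 0 1)
  have b2 := hC (⟨by rw [Metric.mem_ball, dist_eq_norm, ← hδ]; linarith, hyS⟩ :
    y ∈ Metric.ball x ε ∩ Metric.sphere 0 1)
  have b3 := hM y η hyn
  rw [← hzdef] at b3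
  simp only [mem_ofPred_eq, norm_pow, Real.norm_eq_abs, abs_norm] at b1 b2
  simp only [norm_pow, Real.norm_eq_abs]
  try rw [← hδ] at b2
  rw [← hδ, abs_of_nonneg hδ0]
  have e1 : δ ^ (2 * (k + 1)) = η ^ 2 := by rw [hη]; ring
  have b1' : |f z - f x| ≤ |C| * 5 ^ (2 * (k + 1)) * η ^ 2 := by
    refine b1.trans ?_
    have h1 : ‖z - x‖ ^ (2 * (k + 1)) ≤ (5 * δ) ^ (2 * (k + 1)) :=
      pow_le_pow_left₀ (norm_nonneg _) hzx _
    rw [mul_pow, e1] at h1
    calc C * ‖z - x‖ ^ (2 * (k + 1)) ≤ |C| * ‖z - x‖ ^ (2 * (k + 1)) := by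
          gcongr; exact le_abs_self C
      _ ≤ |C| * (5 ^ (2 * (k + 1)) * η ^ 2) := by gcongr
      _ = _ := by ring
  have b2' : |f y - f x| ≤ |C| * η ^ 2 := by
    refine b2.trans ?_
    rw [e1]
    gcongr
    exact le_abs_self C
  have b4 : η * |rotD i l f y| ≤ (|C| * 5 ^ (2 * (k + 1)) + |C| + M) * η ^ 2 := by
    rw [← abs_of_pos hη0, ← abs_mul, abs_of_pos hη0]
    have h1 : η * rotD i l f y = (f z - f x) - (f y - f x) - (f z - f y - η * rotD i l f y) := by
      ring
    rw [h1]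
    refine (abs_sub _ _).trans ?_
    have h2 := abs_sub (f z - f x) (f y - f x)
    nlinarith
  have b5 : |rotD i l f y| ≤ (|C| * 5 ^ (2 * (k + 1)) + |C| + M) * η := by
    have h1 : η * |rotD i l f y| ≤ η * ((|C| * 5 ^ (2 * (k + 1)) + |C| + M) * η) := by
      refine b4.trans (le_of_eq (by ring))
    exact le_of_mul_le_mul_left h1 hη0
  refine b5.trans ?_
  have h6 : η ≤ δ ^ k := by
    rw [hη, pow_succ]
    have := pow_nonneg hδ0 k
    nlinarith
  gcongr

lemma flat_iter {f : E 3 → ℝ} (hf : ContDiff ℝ ∞ f) {x : E 3} (hx : ‖x‖ = 1) (h : Flat f x)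
    (hil : i ≠ l) (n : ℕ) : Flat ((rotD i l)^[n] f) x := by
  induction n with
  | zero => simpa using h
  | succ n ih =>
    rw [Function.iterate_succ_apply']
    exact flat_rotD (contDiff_iter hf n) hx ih hil


/-- `(L^3 + L) f`, `L` the derivative along the rotations in the plane of the coordinates `i`, `l`. -/
noncomputable def PP (i l : Fin 3) (f : E 3 → ℝ) (x : E 3) : ℝ :=
  (rotD i l)^[3] f x + rotD i l f x

lemma contDiff_PP {f : E 3 → ℝ} (hf : ContDiff ℝ ∞ f) : ContDiff ℝ ∞ (PP i l f) :=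
  (contDiff_iter hf 3).add (contDiff_rotD hf)

lemma PP_qf (hil : i ≠ l) (hij : i ≠ j) (hjl : j ≠ l) (b ζ : Fin 3 → ℝ) :
    PP i l (qf b 0 ζ) = fun x => -6 * (b i - b l) * (x i * x l) := by
  funext x
  unfold PP
  rw [qf_D3 hil hij hjl, qf_D1 hil hij hjl]
  simp only [Pi.zero_apply]
  ring

lemma PP_add {f g : E 3 → ℝ} (hf : ContDiff ℝ ∞ f) (hg : ContDiff ℝ ∞ g) :
    PP i l (fun x => f x + g x) = fun x => PP i l f x + PP i l g x := by
  funext x
  unfold PP
  rw [iter_add hf hg, rotD_add (hf.differentiable (by simp)) (hg.differentiable (by simp))]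
  ring

lemma PP_sum {F : E 3 → ℝ} (hF : ContDiff ℝ ∞ F) (b ζ : Fin 3 → ℝ) (hil : i ≠ l) (hij : i ≠ j)
    (hjl : j ≠ l) : PP i l (fun y => F y + qf b 0 ζ y) =
      fun x => PP i l F x + -6 * (b i - b l) * (x i * x l) := by
  rw [PP_add hF (contDiff_qf b 0 ζ), PP_qf hil hij hjl]

lemma PP_of_flat {F : E 3 → ℝ} (hF : ContDiff ℝ ∞ F) {b ζ : Fin 3 → ℝ} {x : E 3} (hx : ‖x‖ = 1)
    (h : Flat (fun y => F y + qf b 0 ζ y) x) (hil : i ≠ l) (hij : i ≠ j) (hjl : j ≠ l) :
    PP i l F x = 6 * (b i - b l) * (x i * x l) := by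
  have hf : ContDiff ℝ ∞ (fun y => F y + qf b 0 ζ y) := hF.add (contDiff_qf b 0 ζ)
  have h1 : PP i l (fun y => F y + qf b 0 ζ y) x = 0 := by
    unfold PP
    rw [rotD_of_flat hf hx h hil 3 (by norm_num)]
    have := rotD_of_flat hf hx h hil 1 le_rfl
    rw [Function.iterate_one] at this
    rw [this, add_zero]
  rw [PP_sum hF b ζ hil hij hjl] at h1
  simp only at h1
  linarith

lemma rotD_PP_of_flat {F : E 3 → ℝ} (hF : ContDiff ℝ ∞ F) {b ζ : Fin 3 → ℝ} {x : E 3}
    (hx : ‖x‖ = 1) (h : Flat (fun y => F y + qf b 0 ζ y) x) (hil : i ≠ l) (hij : i ≠ j)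
    (hjl : j ≠ l) {u v : Fin 3} (huv : u ≠ v) :
    rotD u v (PP i l F) x = 6 * (b i - b l) * rotD u v (fun y : E 3 => y i * y l) x := by
  have hf : ContDiff ℝ ∞ (fun y => F y + qf b 0 ζ y) := hF.add (contDiff_qf b 0 ζ)
  have hM : ContDiff ℝ ∞ (fun y : E 3 => y i * y l) := by fun_prop
  have h1 : rotD u v (PP i l (fun y => F y + qf b 0 ζ y)) x = 0 := by
    have e1 : PP i l (fun y => F y + qf b 0 ζ y) = fun x =>
        (rotD i l)^[3] (fun y => F y + qf b 0 ζ y) x + rotD i l (fun y => F y + qf b 0 ζ y) x := rfl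
    rw [e1, rotD_add ((contDiff_iter hf 3).differentiable (by simp))
      ((contDiff_rotD hf).differentiable (by simp))]
    have h2 := rotD_of_flat (contDiff_iter hf 3) hx (flat_iter hf hx h hil 3) huv 1 le_rfl
    have h3 := rotD_of_flat (contDiff_rotD hf) hx (flat_rotD hf hx h hil) huv 1 le_rfl
    rw [Function.iterate_one] at h2 h3
    simp only
    rw [h2, h3, add_zero]
  rw [PP_sum hF b ζ hil hij hjl, rotD_add ((contDiff_PP hF).differentiable (by simp))
    ((hM.differentiable (by simp)).const_mul _), rotD_cmul _ (hM.differentiable (by simp))] at h1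
  simp only at h1
  linarith

lemma hasDerivAt_quot {N : E 3 → ℝ} (hN : ContDiff ℝ ∞ N) {x : E 3} {u v : Fin 3} (huv : u ≠ v)
    {c : ℝ} (hx : x i * x l ≠ 0) (h0 : N x = 6 * c * (x i * x l))
    (h1 : rotD u v N x = 6 * c * rotD u v (fun y : E 3 => y i * y l) x) :
    HasDerivAt (fun t => N (rot u v x t) / (6 * (rot u v x t i * rot u v x t l))) 0 0 := by
  have hM : ContDiff ℝ ∞ (fun y : E 3 => y i * y l) := by fun_prop
  have hd : ∀ {g : E 3 → ℝ}, ContDiff ℝ ∞ g →
      HasDerivAt (fun t => g (rot u v x t)) (rotD u v g x) 0 := by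
    intro g hg
    have h2 : HasDerivAt (fun t => g (rot u v x t)) (rotD u v g (rot u v x 0)) 0 :=
      ((hg.differentiable (by simp)) (rot u v x 0)).hasFDerivAt.comp_hasDerivAt 0
        (hasDerivAt_rot huv x 0)
    rwa [rot_zero] at h2
  have d1 := hd hN
  have d2 := (hd hM).const_mul 6
  have h3 : (6 : ℝ) * (rot u v x 0 i * rot u v x 0 l) ≠ 0 := by
    rw [rot_zero]
    exact mul_ne_zero (by norm_num : (6 : ℝ) ≠ 0) hx
  have d3 := d1.div d2 h3
  refine d3.congr_deriv ?_
  rw [rot_zero, h0, h1]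
  have : 6 * c * rotD u v (fun y : E 3 => y i * y l) x * (6 * (x i * x l)) -
      6 * c * (x i * x l) * (6 * rotD u v (fun y : E 3 => y i * y l) x) = 0 := by ring
  rw [this, zero_div]

lemma quot_val {c P : ℝ} (hP : P ≠ 0) : 6 * c * P / (6 * P) = c := by
  field_simp

lemma diff_quot {G : (Fin 3 → ℝ) → E 3} (hG : Differentiable ℝ G) {N : E 3 → ℝ}
    (hN : ContDiff ℝ ∞ N) {w : Fin 3 → ℝ} (a c m : Fin 3) (h : G w a * G w c ≠ 0) :
    DifferentiableAt ℝ (fun w => N (G w) / (6 * (G w a * G w c)) + w m) w := by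
  simp only [div_eq_mul_inv]
  have hd : ∀ {N : E 3 → ℝ}, ContDiff ℝ ∞ N → DifferentiableAt ℝ (fun w => N (G w)) w :=
    fun hN => ((hN.differentiable (by simp)) (G w)).comp w (hG w)
  have m1 : ContDiff ℝ ∞ (fun y : E 3 => 6 * (y a * y c)) := by fun_prop
  have A := hd hN
  have B := hd m1
  have hne : (6 : ℝ) * (G w a * G w c) ≠ 0 := mul_ne_zero (by norm_num) h
  have B' := B.fun_inv hne
  exact (A.fun_mul B').fun_add (differentiableAt_apply m w)

/-- Polar coordinates on the sphere. -/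
noncomputable def pol (w : Fin 3 → ℝ) : E 3 :=
  (Real.cos (w 0) * Real.cos (w 1)) • EuclideanSpace.single 0 (1:ℝ) +
    (Real.sin (w 0) * Real.cos (w 1)) • EuclideanSpace.single 1 (1:ℝ) +
    Real.sin (w 1) • EuclideanSpace.single 2 (1:ℝ)

lemma pol_0 (w : Fin 3 → ℝ) : pol w 0 = Real.cos (w 0) * Real.cos (w 1) := by simp [pol]

lemma pol_1 (w : Fin 3 → ℝ) : pol w 1 = Real.sin (w 0) * Real.cos (w 1) := by simp [pol]

lemma pol_2 (w : Fin 3 → ℝ) : pol w 2 = Real.sin (w 1) := by simp [pol]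

lemma differentiable_pol : Differentiable ℝ pol := by
  unfold pol
  fun_prop

lemma pol_add (w : Fin 3 → ℝ) (t : ℝ) : pol (w + t • Pi.single 0 1) = rot 1 0 (pol w) t := by
  ext m
  have h0 : (w + t • (Pi.single 0 1 : Fin 3 → ℝ)) 0 = w 0 + t := by simp
  have h1 : (w + t • (Pi.single 0 1 : Fin 3 → ℝ)) 1 = w 1 := by simp
  fin_cases m
  · show pol _ 0 = rot 1 0 (pol w) t 0
    rw [rot_l (by decide), pol_0, pol_0, pol_1, h0, h1, Real.cos_add]
    ring
  · show pol _ 1 = rot 1 0 (pol w) t 1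
    rw [rot_i (by decide), pol_1, pol_0, pol_1, h0, h1, Real.sin_add]
    ring
  · show pol _ 2 = rot 1 0 (pol w) t 2
    rw [rot_j (by decide) (by decide), pol_2, pol_2, h1]

lemma exists_polar {a b c : ℝ} (hc : 0 ≤ c) (h : a ^ 2 + b ^ 2 = c ^ 2) :
    ∃ θ : ℝ, a = c * Real.cos θ ∧ b = c * Real.sin θ := by
  have h1 : ‖(⟨a, b⟩ : ℂ)‖ = c := by
    rw [Complex.norm_def, Complex.normSq_mk, ← sq, ← sq, h, Real.sqrt_sq hc]
  refine ⟨Complex.arg ⟨a, b⟩, ?_, ?_⟩
  · have := Complex.norm_mul_cos_arg ⟨a, b⟩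
    rw [h1] at this
    exact this.symm
  · have := Complex.norm_mul_sin_arg ⟨a, b⟩
    rw [h1] at this
    exact this.symm

lemma norm_three {x : E 3} (hx : ‖x‖ = 1) : x 0 ^ 2 + x 1 ^ 2 + x 2 ^ 2 = 1 := by
  have h1 : ‖x‖ ^ 2 = 1 := by rw [hx]; norm_num
  rw [EuclideanSpace.norm_sq_eq, Fin.sum_univ_three] at h1
  simpa using h1

lemma exists_pol {x : E 3} (hx : ‖x‖ = 1) (r : ℝ) : ∃ w, pol w = x ∧ w 2 = r := by
  have h := norm_three hx
  have h2 : x 2 ∈ Icc (-1 : ℝ) 1 := by
    constructor <;> nlinarith [sq_nonneg (x 0), sq_nonneg (x 1), sq_nonneg (x 2 + 1),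
      sq_nonneg (x 2 - 1)]
  obtain ⟨θ, h3, h4⟩ := exists_polar (a := x 0) (b := x 1) (c := Real.cos (Real.arcsin (x 2)))
    (Real.cos_arcsin_nonneg _) (by
      rw [Real.cos_arcsin, Real.sq_sqrt (by nlinarith [h2.1, h2.2])]
      linarith)
  refine ⟨![θ, Real.arcsin (x 2), r], ?_, by simp⟩
  ext m
  fin_cases m
  · show pol _ 0 = x 0
    rw [pol_0, h3]
    simp [mul_comm]
  · show pol _ 1 = x 1
    rw [pol_1, h4]
    simp [mul_comm]
  · show pol _ 2 = x 2
    rw [pol_2]
    simpa using Real.sin_arcsin h2.1 h2.2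

/-- The coefficients for which `(w 0, w 1)` can be a flat point off the coordinate planes. -/
noncomputable def psi1 (F : E 3 → ℝ) (w : Fin 3 → ℝ) : Fin 3 → ℝ :=
  ![PP 0 2 F (pol w) / (6 * (pol w 0 * pol w 2)) + w 2,
    PP 1 2 F (pol w) / (6 * (pol w 1 * pol w 2)) + w 2, w 2]

lemma mem_psi1 {F : E 3 → ℝ} (hF : ContDiff ℝ ∞ F) {b ζ : Fin 3 → ℝ} {x : E 3} (hx : ‖x‖ = 1)
    (h : Flat (fun y => F y + qf b 0 ζ y) x) (h0 : x 0 ≠ 0) (h1 : x 1 ≠ 0) (h2 : x 2 ≠ 0) :
    b ∈ psi1 F '' {w | DifferentiableAt ℝ (psi1 F) w ∧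
      HasDerivAt (fun t : ℝ => psi1 F (w + t • Pi.single 0 1)) 0 0} := by
  obtain ⟨w, rfl, hw⟩ := exists_pol hx (b 2)
  have a02 := PP_of_flat hF hx h (i := 0) (l := 2) (j := 1) (by decide) (by decide) (by decide)
  have a12 := PP_of_flat hF hx h (i := 1) (l := 2) (j := 0) (by decide) (by decide) (by decide)
  have d02 := rotD_PP_of_flat hF hx h (i := 0) (l := 2) (j := 1) (by decide) (by decide)
    (by decide) (u := 1) (v := 0) (by decide)
  have d12 := rotD_PP_of_flat hF hx h (i := 1) (l := 2) (j := 0) (by decide) (by decide)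
    (by decide) (u := 1) (v := 0) (by decide)
  have n02 : pol w 0 * pol w 2 ≠ 0 := mul_ne_zero h0 h2
  have n12 : pol w 1 * pol w 2 ≠ 0 := mul_ne_zero h1 h2
  refine ⟨w, ⟨?_, ?_⟩, ?_⟩
  · rw [differentiableAt_pi]
    intro m
    fin_cases m
    · exact diff_quot differentiable_pol (contDiff_PP hF) 0 2 2 n02
    · exact diff_quot differentiable_pol (contDiff_PP hF) 1 2 2 n12
    · exact differentiableAt_apply 2 w
  · have e2 : ∀ t : ℝ, (w + t • (Pi.single 0 1 : Fin 3 → ℝ)) 2 = w 2 := fun t => by simp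
    rw [hasDerivAt_pi]
    intro m
    have q02 := (hasDerivAt_quot (contDiff_PP hF) (i := 0) (l := 2) (u := 1) (v := 0) (by decide)
      n02 a02 d02).add_const (w 2)
    have q12 := (hasDerivAt_quot (contDiff_PP hF) (i := 1) (l := 2) (u := 1) (v := 0) (by decide)
      n12 a12 d12).add_const (w 2)
    fin_cases m
    · refine q02.congr_of_eventuallyEq (Eventually.of_forall fun t => ?_)
      show PP 0 2 F (pol (w + t • Pi.single 0 1)) / (6 * (pol (w + t • Pi.single 0 1) 0 *
        pol (w + t • Pi.single 0 1) 2)) + (w + t • (Pi.single 0 1 : Fin 3 → ℝ)) 2 = _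
      rw [pol_add, e2]
    · refine q12.congr_of_eventuallyEq (Eventually.of_forall fun t => ?_)
      show PP 1 2 F (pol (w + t • Pi.single 0 1)) / (6 * (pol (w + t • Pi.single 0 1) 1 *
        pol (w + t • Pi.single 0 1) 2)) + (w + t • (Pi.single 0 1 : Fin 3 → ℝ)) 2 = _
      rw [pol_add, e2]
    · refine (hasDerivAt_const (0 : ℝ) (w 2)).congr_of_eventuallyEq
        (Eventually.of_forall fun t => ?_)
      exact e2 t
  · have s0 : psi1 F w 0 = b 0 := by
      show PP 0 2 F (pol w) / (6 * (pol w 0 * pol w 2)) + w 2 = b 0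
      rw [a02, quot_val n02, hw]
      ring
    have s1 : psi1 F w 1 = b 1 := by
      show PP 1 2 F (pol w) / (6 * (pol w 1 * pol w 2)) + w 2 = b 1
      rw [a12, quot_val n12, hw]
      ring
    have s2 : psi1 F w 2 = b 2 := hw
    funext m
    fin_cases m
    · exact s0
    · exact s1
    · exact s2

/-- The great circle in the plane of the coordinates `i` and `l`. -/
noncomputable def gc (i l : Fin 3) (w : Fin 3 → ℝ) : E 3 :=
  Real.sin (w 0) • EuclideanSpace.single i (1:ℝ) + Real.cos (w 0) • EuclideanSpace.single l (1:ℝ)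

lemma gc_i (hil : i ≠ l) (w : Fin 3 → ℝ) : gc i l w i = Real.sin (w 0) := by simp [gc, hil]

lemma gc_l (hil : i ≠ l) (w : Fin 3 → ℝ) : gc i l w l = Real.cos (w 0) := by simp [gc, hil.symm]

lemma gc_j (hij : i ≠ j) (hjl : j ≠ l) (w : Fin 3 → ℝ) : gc i l w j = 0 := by
  simp [gc, hij.symm, hjl]

lemma differentiable_gc : Differentiable ℝ (gc i l) := by
  unfold gc
  fun_prop

lemma ext_three {α : Type*} {f g : Fin 3 → α} (hil : i ≠ l) (hij : i ≠ j) (hjl : j ≠ l)
    (h1 : f i = g i) (h2 : f l = g l) (h3 : f j = g j) : f = g := by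
  funext m
  have : m = i ∨ m = l ∨ m = j := by
    clear h1 h2 h3 f g
    revert hil hij hjl
    fin_cases i <;> fin_cases l <;> fin_cases j <;> fin_cases m <;> simp
  rcases this with h | h | h
  · rw [h, h1]
  · rw [h, h2]
  · rw [h, h3]

lemma ext_three' {f g : E 3} (hil : i ≠ l) (hij : i ≠ j) (hjl : j ≠ l)
    (h1 : f i = g i) (h2 : f l = g l) (h3 : f j = g j) : f = g := by
  ext m
  exact congrFun (ext_three (f := fun m => f m) (g := fun m => g m) hil hij hjl h1 h2 h3) m

lemma gc_add (hil : i ≠ l) (hij : i ≠ j) (hjl : j ≠ l) (w : Fin 3 → ℝ) (t : ℝ) :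
    gc i l (w + t • Pi.single 0 1) = rot i l (gc i l w) t := by
  have h0 : (w + t • (Pi.single 0 1 : Fin 3 → ℝ)) 0 = w 0 + t := by simp
  refine ext_three' hil hij hjl ?_ ?_ ?_
  · rw [rot_i hil, gc_i hil, gc_i hil, gc_l hil, h0, Real.sin_add]
  · rw [rot_l hil, gc_i hil, gc_l hil, gc_l hil, h0, Real.cos_add]
  · rw [rot_j hij hjl, gc_j hij hjl, gc_j hij hjl]

/-- The coefficients for which a point of a coordinate great circle can be flat. -/
noncomputable def psi2 (F : E 3 → ℝ) (i l : Fin 3) (w : Fin 3 → ℝ) (m : Fin 3) : ℝ :=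
  if m = i then PP i l F (gc i l w) / (6 * (gc i l w i * gc i l w l)) + w 1
  else if m = l then w 1 else w 2

lemma mem_psi2 {F : E 3 → ℝ} (hF : ContDiff ℝ ∞ F) {b ζ : Fin 3 → ℝ} {x : E 3} (hx : ‖x‖ = 1)
    (h : Flat (fun y => F y + qf b 0 ζ y) x) (hil : i ≠ l) (hij : i ≠ j) (hjl : j ≠ l)
    (hi : x i ≠ 0) (hl : x l ≠ 0) (hj : x j = 0) :
    b ∈ psi2 F i l '' {w | DifferentiableAt ℝ (psi2 F i l) w ∧
      HasDerivAt (fun t : ℝ => psi2 F i l (w + t • Pi.single 0 1)) 0 0} := by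
  have hn : x l ^ 2 + x i ^ 2 = 1 ^ 2 := by
    have h1 := norm_three hx
    have h2 := sum_three hil hij hjl (fun m => x m ^ 2)
    rw [Fin.sum_univ_three] at h2
    simp only at h2
    rw [hj] at h2
    linarith
  obtain ⟨θ, h3, h4⟩ := exists_polar zero_le_one hn
  rw [one_mul] at h3 h4
  set w : Fin 3 → ℝ := ![θ, b l, b j] with hwdef
  have hw : gc i l w = x := by
    refine ext_three' hil hij hjl ?_ ?_ ?_
    · rw [gc_i hil, h4]; simp [hwdef]
    · rw [gc_l hil, h3]; simp [hwdef]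
    · rw [gc_j hij hjl, hj]
  subst hw
  have a := PP_of_flat hF hx h hil hij hjl
  have d := rotD_PP_of_flat hF hx h hil hij hjl hil
  have n : gc i l w i * gc i l w l ≠ 0 := mul_ne_zero hi hl
  refine ⟨w, ⟨?_, ?_⟩, ?_⟩
  · rw [differentiableAt_pi]
    intro m
    by_cases hm : m = i
    · have e : (fun w => psi2 F i l w m) = fun w =>
          PP i l F (gc i l w) / (6 * (gc i l w i * gc i l w l)) + w 1 := by
        funext w; simp [psi2, hm]
      rw [e]
      exact diff_quot differentiable_gc (contDiff_PP hF) i l 1 n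
    · by_cases hm' : m = l
      · have e : (fun w => psi2 F i l w m) = fun w => w 1 := by
          funext w; simp [psi2, hm', hil.symm]
        rw [e]
        exact differentiableAt_apply 1 w
      · have e : (fun w => psi2 F i l w m) = fun w => w 2 := by
          funext w; simp [psi2, hm, hm']
        rw [e]
        exact differentiableAt_apply 2 w
  · have e1 : ∀ t : ℝ, (w + t • (Pi.single 0 1 : Fin 3 → ℝ)) 1 = w 1 := fun t => by simp
    have e2 : ∀ t : ℝ, (w + t • (Pi.single 0 1 : Fin 3 → ℝ)) 2 = w 2 := fun t => by simp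
    rw [hasDerivAt_pi]
    intro m
    have q := (hasDerivAt_quot (contDiff_PP hF) hil n a d).add_const (w 1)
    by_cases hm : m = i
    · refine q.congr_of_eventuallyEq (Eventually.of_forall fun t => ?_)
      simp only [psi2, hm, if_true]
      rw [gc_add hil hij hjl, e1]
    · by_cases hm' : m = l
      · refine (hasDerivAt_const (0 : ℝ) (w 1)).congr_of_eventuallyEq
          (Eventually.of_forall fun t => ?_)
        simp only [psi2, hm', hil.symm, if_true, if_false]
        exact e1 t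
      · refine (hasDerivAt_const (0 : ℝ) (w 2)).congr_of_eventuallyEq
          (Eventually.of_forall fun t => ?_)
        simp only [psi2, hm, hm', if_false]
        exact e2 t
  · refine ext_three hil hij hjl ?_ ?_ ?_
    · simp only [psi2, if_true]
      rw [a, quot_val n]
      show b i - b l + b l = b i
      ring
    · simp [psi2, hil.symm, hwdef]
    · simp [psi2, hij.symm, hjl, hwdef]

/-- The coefficients for which `s e_j` can be a flat point. -/
noncomputable def psi3 (F : E 3 → ℝ) (s : ℝ) (i l j : Fin 3) (w : Fin 3 → ℝ) (m : Fin 3) : ℝ :=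
  if m = i then ((rotD l j)^[2] F (s • EuclideanSpace.single j 1) -
    (rotD i j)^[2] F (s • EuclideanSpace.single j 1)) / 2 + w 1
  else if m = l then w 1 else w 2

lemma mem_psi3 {F : E 3 → ℝ} (hF : ContDiff ℝ ∞ F) {b ζ : Fin 3 → ℝ} {x : E 3} (hx : ‖x‖ = 1)
    (h : Flat (fun y => F y + qf b 0 ζ y) x) (hil : i ≠ l) (hij : i ≠ j) (hjl : j ≠ l)
    (hi : x i = 0) (hl : x l = 0) {s : ℝ} (hj : x j = s) (hs : s ^ 2 = 1) :
    b ∈ psi3 F s i l j '' {w | DifferentiableAt ℝ (psi3 F s i l j) w ∧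
      HasDerivAt (fun t : ℝ => psi3 F s i l j (w + t • Pi.single 0 1)) 0 0} := by
  have hf : ContDiff ℝ ∞ (fun y => F y + qf b 0 ζ y) := hF.add (contDiff_qf b 0 ζ)
  have hxs : x = s • EuclideanSpace.single j 1 := by
    refine ext_three' hil hij hjl ?_ ?_ ?_
    · simp [hi, hij]
    · simp [hl, hjl.symm]
    · simp [hj]
  have h1 := rotD_of_flat hf hx h hij 2 (by norm_num)
  have h2 := rotD_of_flat hf hx h hjl.symm 2 (by norm_num)
  rw [iter_add hF (contDiff_qf b 0 ζ)] at h1 h2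
  simp only at h1 h2
  rw [qf_D2 hij hil hjl.symm] at h1
  rw [qf_D2 hjl.symm hil.symm hij] at h2
  simp only [Pi.zero_apply] at h1 h2
  rw [hi, hj] at h1
  rw [hl, hj] at h2
  refine ⟨![0, b l, b j], ⟨?_, ?_⟩, ?_⟩
  · rw [differentiableAt_pi]
    intro m
    by_cases hm : m = i
    · have e : (fun w => psi3 F s i l j w m) = fun w : Fin 3 → ℝ =>
          ((rotD l j)^[2] F (s • EuclideanSpace.single j 1) -
            (rotD i j)^[2] F (s • EuclideanSpace.single j 1)) / 2 + w 1 := by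
        funext w; simp [psi3, hm]
      rw [e]
      exact (differentiableAt_apply 1 _).const_add _
    · by_cases hm' : m = l
      · have e : (fun w => psi3 F s i l j w m) = fun w : Fin 3 → ℝ => w 1 := by
          funext w; simp [psi3, hm', hil.symm]
        rw [e]
        exact differentiableAt_apply 1 _
      · have e : (fun w => psi3 F s i l j w m) = fun w : Fin 3 → ℝ => w 2 := by
          funext w; simp [psi3, hm, hm']
        rw [e]
        exact differentiableAt_apply 2 _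
  · rw [hasDerivAt_pi]
    intro m
    have e : (fun t : ℝ => psi3 F s i l j (![0, b l, b j] + t • Pi.single 0 1) m) = fun _ =>
        psi3 F s i l j ![0, b l, b j] m := by
      funext t
      simp [psi3]
    rw [e]
    exact hasDerivAt_const _ _
  · refine ext_three hil hij hjl ?_ ?_ ?_
    · simp only [psi3, if_true]
      rw [← hxs]
      simp only [Matrix.cons_val_one]
      have h3 : ((rotD l j)^[2] F x - (rotD i j)^[2] F x) / 2 = b i - b l := by
        linear_combination (h2 - h1) / 2 + (b i - b l) * hs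
      rw [h3]
      simp
    · simp [psi3, hil.symm]
    · simp [psi3, hij.symm, hjl]

/-- Almost every diagonal quadratic form added to a smooth function gives a function without flat
points, even after adding a linear function. -/
theorem ae_not_flat {F : E 3 → ℝ} (hF : ContDiff ℝ ∞ F) :
    ∀ᵐ b : Fin 3 → ℝ, ∀ (ζ : Fin 3 → ℝ) (x : E 3), ‖x‖ = 1 →
      ¬ Flat (fun y => F y + qf b 0 ζ y) x := by
  have h1 := compl_mem_ae_iff.2 (crit_null (psi1 F))
  have h2 : ∀ᵐ b : Fin 3 → ℝ, ∀ i l : Fin 3, b ∉ psi2 F i l '' {w |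
      DifferentiableAt ℝ (psi2 F i l) w ∧
      HasDerivAt (fun t : ℝ => psi2 F i l (w + t • Pi.single 0 1)) 0 0} := by
    rw [ae_all_iff]; intro i
    rw [ae_all_iff]; intro l
    exact compl_mem_ae_iff.2 (crit_null (psi2 F i l))
  have h3 : ∀ s : ℝ, ∀ᵐ b : Fin 3 → ℝ, ∀ i l j : Fin 3, b ∉ psi3 F s i l j '' {w |
      DifferentiableAt ℝ (psi3 F s i l j) w ∧
      HasDerivAt (fun t : ℝ => psi3 F s i l j (w + t • Pi.single 0 1)) 0 0} := by
    intro s
    rw [ae_all_iff]; intro i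
    rw [ae_all_iff]; intro l
    rw [ae_all_iff]; intro j
    exact compl_mem_ae_iff.2 (crit_null (psi3 F s i l j))
  filter_upwards [h1, h2, h3 1, h3 (-1)] with b b1 b2 b3 b4 ζ x hx hfl
  have c2 : ∀ i l j : Fin 3, i ≠ l → i ≠ j → j ≠ l → x i ≠ 0 → x l ≠ 0 → x j = 0 → False :=
    fun i l j hil hij hjl hi hl hj => b2 i l (mem_psi2 hF hx hfl hil hij hjl hi hl hj)
  have c3 : ∀ i l j : Fin 3, i ≠ l → i ≠ j → j ≠ l → x i = 0 → x l = 0 → False := by
    intro i l j hil hij hjl hi hl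
    have h4 : x j ^ 2 = 1 := by
      have h5 := norm_three hx
      have h6 := sum_three hil hij hjl (fun m => x m ^ 2)
      rw [Fin.sum_univ_three] at h6
      simp only at h6
      rw [hi, hl] at h6
      linarith
    have h5 : (x j - 1) * (x j + 1) = 0 := by linear_combination h4
    rcases mul_eq_zero.1 h5 with h6 | h6
    · exact b3 i l j (mem_psi3 hF hx hfl hil hij hjl hi hl (s := 1) (by linarith) (by norm_num))
    · exact b4 i l j (mem_psi3 hF hx hfl hil hij hjl hi hl (s := -1) (by linarith) (by norm_num))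
  by_cases x0 : x 0 = 0
  · by_cases x1 : x 1 = 0
    · exact c3 0 1 2 (by decide) (by decide) (by decide) x0 x1
    · by_cases x2 : x 2 = 0
      · exact c3 0 2 1 (by decide) (by decide) (by decide) x0 x2
      · exact c2 1 2 0 (by decide) (by decide) (by decide) x1 x2 x0
  · by_cases x1 : x 1 = 0
    · by_cases x2 : x 2 = 0
      · exact c3 1 2 0 (by decide) (by decide) (by decide) x1 x2
      · exact c2 0 2 1 (by decide) (by decide) (by decide) x0 x2 x1
    · by_cases x2 : x 2 = 0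
      · exact c2 0 1 2 (by decide) (by decide) (by decide) x0 x1 x2
      · exact b1 (mem_psi1 hF hx hfl x0 x1 x2)

/-- A linear function which is flat at a point of the sphere vanishes. -/
lemma linear_flat {ζ : Fin 3 → ℝ} {x : E 3} (hx : ‖x‖ = 1) (h : Flat (qf 0 0 ζ) x) : ζ = 0 := by
  have key : ∀ i l j : Fin 3, i ≠ l → i ≠ j → j ≠ l → ζ i * (x i ^ 2 + x l ^ 2) = 0 := by
    intro i l j hil hij hjl
    have h1 := rotD_of_flat (contDiff_qf 0 0 ζ) hx h hil 1 le_rfl
    have h2 := rotD_of_flat (contDiff_qf 0 0 ζ) hx h hil 2 (by norm_num)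
    rw [Function.iterate_one, qf_D1 hil hij hjl] at h1
    rw [qf_D2 hil hij hjl] at h2
    simp only [Pi.zero_apply] at h1 h2
    linear_combination x l * h1 - x i * h2
  have h3 := norm_three hx
  have fin : ∀ i l j : Fin 3, i ≠ l → i ≠ j → j ≠ l → ζ i = 0 := by
    intro i l j hil hij hjl
    have k1 := key i l j hil hij hjl
    have k2 := key i j l hij hil hjl.symm
    have h6 := sum_three hil hij hjl (fun m => x m ^ 2)
    rw [Fin.sum_univ_three] at h6
    simp only at h6
    have h7 : ζ i * (1 + x i ^ 2) = 0 := by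
      linear_combination k1 + k2 + ζ i * (h6 - h3)
    rcases mul_eq_zero.1 h7 with h8 | h8
    · exact h8
    · nlinarith [sq_nonneg (x i)]
  funext m
  fin_cases m
  · exact fin 0 1 2 (by decide) (by decide) (by decide)
  · exact fin 1 0 2 (by decide) (by decide) (by decide)
  · exact fin 2 0 1 (by decide) (by decide) (by decide)

/-- For every function `φ` smooth near the unit sphere of `R^3` and almost every `b` in `R^3` the
function `φ + ∑ b_m x_m^2` is nonflat. -/
theorem ae_nonflat_quad (φ : E 3 → ℝ)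
    (hs : ∀ x ∈ Metric.sphere (0 : E 3) 1, ContDiffAt ℝ ((⊤ : ℕ∞) : WithTop ℕ∞) φ x) :
    ∀ᵐ b : Fin 3 → ℝ, Nonflat fun (_ : Fin 1) (x : E 3) => φ x + ∑ m, b m * x m ^ 2 := by
  obtain ⟨F, hF, _, hFS⟩ := extend φ hs
  filter_upwards [ae_not_flat hF] with b hb
  refine ⟨fun _ x hx => (hs x hx).add ?_, fun a ζ x hx hflat => ?_⟩
  · have : ContDiff ℝ ∞ fun x : E 3 => ∑ m, b m * x m ^ 2 := by fun_prop
    exact this.contDiffAt
  have hin : ∀ y : E 3, inner ℝ y ζ = ∑ m, ζ m * y m := fun y => by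
    rw [PiLp.inner_apply]
    rfl
  by_cases ha : a 0 = 0
  · have e : (fun y : E 3 => fam (fun (_ : Fin 1) (x : E 3) => φ x + ∑ m, b m * x m ^ 2) a y +
        inner ℝ y ζ) = qf 0 0 (fun m => ζ m) := by
      funext y
      rw [hin]
      simp [fam, qf, ha]
    rw [e] at hflat
    have h1 := linear_flat hx hflat
    have h2 : ζ = 0 := by
      ext m
      exact congrFun h1 m
    intro y _
    subst h2
    simp [fam, ha]
  · exfalso
    refine hb (fun m => (a 0)⁻¹ * ζ m) x hx fun k => ?_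
    have e : ∀ y : E 3, ‖y‖ = 1 → F y + qf b 0 (fun m => (a 0)⁻¹ * ζ m) y = (a 0)⁻¹ *
        (fam (fun (_ : Fin 1) (x : E 3) => φ x + ∑ m, b m * x m ^ 2) a y + inner ℝ y ζ) := by
      intro y hy
      have f1 : fam (fun (_ : Fin 1) (x : E 3) => φ x + ∑ m, b m * x m ^ 2) a y =
          a 0 * (φ y + ∑ m, b m * y m ^ 2) := by simp [fam]
      have f2 : qf b 0 (fun m => (a 0)⁻¹ * ζ m) y =
          (∑ m, b m * y m ^ 2) + (a 0)⁻¹ * ∑ m, ζ m * y m := by
        unfold qf
        rw [Finset.mul_sum, ← Finset.sum_add_distrib]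
        refine Finset.sum_congr rfl fun m _ => ?_
        simp only [Pi.zero_apply]
        ring
      rw [hin, hFS y (by simpa using hy), f1, f2, mul_add, ← mul_assoc, inv_mul_cancel₀ ha]
      ring
    refine ((hflat k).const_mul_left (a 0)⁻¹).congr' ?_ EventuallyEq.rfl
    filter_upwards [self_mem_nhdsWithin] with y hy
    rw [e y (by simpa using hy), e x hx]
    ring

end Pool.Agent.VAN.ND
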