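import Pool.Agent.MP_6cbfb8_an.Super

/-!
The crude bound: densities with bounded derivatives are superpositions of plane waves.
-/

namespace Pool.Agent.VAN

open MeasureTheory Set Pool.Agent.MP_6cbfb8_an Metric
open scoped ENNReal Real RealInnerProductSpace FourierTransform ContDiff

lemma iteratedFDeriv_zero_of_eqOn {m : ℕ} {f : E m → ℂ} (hs : ∀ x, 2 < ‖x‖ → f x = 0)
    (k : ℕ) (x : E m) (hx : 2 < ‖x‖) : iteratedFDeriv ℝ k f x = 0 := by
  have h1 : f =ᶠ[nhds x] fun _ => (0 : ℂ) := by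
    have h2 : {y : E m | 2 < ‖y‖} ∈ nhds x := (isOpen_lt continuous_const continuous_norm).mem_nhds hx
    filter_upwards [h2] with y hy
    exact hs y hy
  have h2 := (h1.iteratedFDeriv ℝ k).eq_of_nhds
  rw [h2]
  have h3 : (iteratedFDeriv ℝ k (fun _ : E m => (0 : ℂ))) = 0 := by
    exact iteratedFDeriv_fun_zero
  rw [h3]; rfl

lemma integrable_iter {m : ℕ} {N : ℕ} {f : E m → ℂ} (hf : ContDiff ℝ N f)
    (hs : ∀ x, 2 < ‖x‖ → f x = 0) (k : ℕ) (hk : k ≤ N) :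
    Integrable (fun x => ‖iteratedFDeriv ℝ k f x‖) := by
  have hc : Continuous (fun x => ‖iteratedFDeriv ℝ k f x‖) :=
    (hf.continuous_iteratedFDeriv (by exact_mod_cast hk)).norm
  refine hc.integrable_of_hasCompactSupport ?_
  refine HasCompactSupport.intro (isCompact_closedBall (0 : E m) 2) ?_
  intro x hx
  have hx' : 2 < ‖x‖ := by
    simpa [mem_closedBall, dist_zero_right] using hx
  rw [iteratedFDeriv_zero_of_eqOn hs k x hx', norm_zero]

lemma integral_iter_le {m : ℕ} {N : ℕ} {f : E m → ℂ} (hf : ContDiff ℝ N f)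
    (hs : ∀ x, 2 < ‖x‖ → f x = 0) (k : ℕ) (hk : k ≤ N) (B : ℝ)
    (hB : ∀ x, ‖x‖ ≤ 2 → ‖iteratedFDeriv ℝ k f x‖ ≤ B) :
    ∫ x, ‖iteratedFDeriv ℝ k f x‖ ≤ B * (volume (closedBall (0 : E m) 2)).toReal := by
  have h1 : ∫ x, ‖iteratedFDeriv ℝ k f x‖ = ∫ x in closedBall (0 : E m) 2, ‖iteratedFDeriv ℝ k f x‖ := by
    rw [← integral_indicator measurableSet_closedBall]
    refine integral_congr_ae (Filter.Eventually.of_forall fun x => ?_)
    by_cases hx : x ∈ closedBall (0 : E m) 2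
    · simp only [indicator_of_mem hx]
    · have hx' : 2 < ‖x‖ := by
        simpa [mem_closedBall, dist_zero_right] using hx
      simp only [indicator_of_notMem hx]
      rw [iteratedFDeriv_zero_of_eqOn hs k x hx', norm_zero]
  rw [h1]
  have h2 : IsFiniteMeasure (volume.restrict (closedBall (0 : E m) 2)) :=
    isFiniteMeasure_restrict.2 (isCompact_closedBall _ _).measure_ne_top
  calc ∫ x in closedBall (0 : E m) 2, ‖iteratedFDeriv ℝ k f x‖
      ≤ ∫ _x in closedBall (0 : E m) 2, B := by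
        refine setIntegral_mono_on (integrable_iter hf hs k hk).integrableOn
          (integrable_const _) measurableSet_closedBall fun x hx => ?_
        exact hB x (by simpa [mem_closedBall, dist_zero_right] using hx)
    _ = B * (volume (closedBall (0 : E m) 2)).toReal := by
        rw [setIntegral_const, smul_eq_mul, mul_comm]
        rfl

theorem fourier_decay (m : ℕ) : ∃ K : ℝ, 0 < K ∧ ∀ (f : E m → ℂ) (B : ℝ),
    ContDiff ℝ (m + 1 : ℕ) f → 0 ≤ B → (∀ x, 2 < ‖x‖ → f x = 0) →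
    (∀ k ≤ m + 1, ∀ x, ‖x‖ ≤ 2 → ‖iteratedFDeriv ℝ k f x‖ ≤ B) →
    ∀ w, (1 + ‖w‖) ^ (m + 1) * ‖𝓕 f w‖ ≤ K * B := by
  set V : ℝ := (volume (closedBall (0 : E m) 2)).toReal with hV
  have hV0 : 0 ≤ V := ENNReal.toReal_nonneg
  refine ⟨2 ^ (m + 1) * (V + 2 ^ (m + 1) * ((m + 2) * V)) + 1, by positivity, ?_⟩
  intro f B hf hB hs hb w
  have hI : ∀ k ≤ m + 1, ∫ x, ‖iteratedFDeriv ℝ k f x‖ ≤ B * V := fun k hk =>
    integral_iter_le hf hs k hk B (hb k hk)
  have h0 : ‖𝓕 f w‖ ≤ B * V := by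
    have h1 := hI 0 (by omega)
    simp only [norm_iteratedFDeriv_zero] at h1
    refine le_trans ?_ h1
    exact VectorFourier.norm_fourierIntegral_le_integral_norm _ _ _ _ _
  have h2 : ‖w‖ ^ (m + 1) * ‖𝓕 f w‖ ≤ 2 ^ (m + 1) * ((m + 2) * (B * V)) := by
    have h3 := Real.pow_mul_norm_iteratedFDeriv_fourier_le (K := 0) (N := ((m + 1 : ℕ) : ℕ∞))
      (f := f) (by exact_mod_cast hf) (fun k n hk hn => by
        have hk0 : k = 0 := by
          have : (k : ℕ∞) ≤ 0 := hk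
          exact_mod_cast (nonpos_iff_eq_zero.1 this)
        subst hk0
        simp only [pow_zero, one_mul]
        exact integrable_iter hf hs n (by exact_mod_cast hn)) (k := 0) (n := m + 1) le_rfl le_rfl w
    simp only [norm_iteratedFDeriv_zero, pow_zero, one_mul, Nat.cast_zero, mul_zero, zero_add] at h3
    refine h3.trans ?_
    gcongr
    rw [Finset.sum_product]
    simp only [Finset.range_one, Finset.sum_singleton, pow_zero, one_mul]
    calc ∑ i ∈ Finset.range (m + 1 + 1), ∫ v, ‖iteratedFDeriv ℝ i f v‖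
        ≤ ∑ _i ∈ Finset.range (m + 1 + 1), B * V := Finset.sum_le_sum fun i hi => by
          exact hI i (by simp at hi; omega)
      _ = (m + 2) * (B * V) := by
          rw [Finset.sum_const, Finset.card_range, nsmul_eq_mul]
          push_cast; ring
  have h4 : (1 + ‖w‖) ^ (m + 1) ≤ 2 ^ (m + 1) * (1 + ‖w‖ ^ (m + 1)) := by
    have h5 : (1 + ‖w‖) ≤ 2 * max 1 ‖w‖ := by
      rcases le_total 1 ‖w‖ with h | h
      · rw [max_eq_right h]; linarith
      · rw [max_eq_left h]; linarith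
    calc (1 + ‖w‖) ^ (m + 1) ≤ (2 * max 1 ‖w‖) ^ (m + 1) := by gcongr
      _ = 2 ^ (m + 1) * (max 1 ‖w‖) ^ (m + 1) := by rw [mul_pow]
      _ ≤ 2 ^ (m + 1) * (1 + ‖w‖ ^ (m + 1)) := by
          gcongr
          rcases le_total 1 ‖w‖ with h | h
          · rw [max_eq_right h]; linarith
          · rw [max_eq_left h, one_pow]
            have : 0 ≤ ‖w‖ ^ (m + 1) := by positivity
            linarith
  calc (1 + ‖w‖) ^ (m + 1) * ‖𝓕 f w‖ ≤ (2 ^ (m + 1) * (1 + ‖w‖ ^ (m + 1))) * ‖𝓕 f w‖ := by gcongr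
    _ = 2 ^ (m + 1) * (‖𝓕 f w‖ + ‖w‖ ^ (m + 1) * ‖𝓕 f w‖) := by ring
    _ ≤ 2 ^ (m + 1) * (B * V + 2 ^ (m + 1) * ((m + 2) * (B * V))) := by gcongr
    _ = (2 ^ (m + 1) * (V + 2 ^ (m + 1) * ((m + 2) * V))) * B := by ring
    _ ≤ (2 ^ (m + 1) * (V + 2 ^ (m + 1) * ((m + 2) * V)) + 1) * B := by
        gcongr
        linarith

/-- A bound for the derivatives of order at most `N` on the ball of radius two. -/
lemma exists_bound_iter {m : ℕ} {F : Type*} [NormedAddCommGroup F] [NormedSpace ℝ F] (N : ℕ)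
    (f : E m → F) (hf : ContDiff ℝ N f) :
    ∃ B : ℝ, 1 ≤ B ∧ ∀ k ≤ N, ∀ x, ‖x‖ ≤ 2 → ‖iteratedFDeriv ℝ k f x‖ ≤ B := by
  have h1 : ∀ k, ∃ B : ℝ, 0 ≤ B ∧ (k ≤ N → ∀ x, ‖x‖ ≤ 2 → ‖iteratedFDeriv ℝ k f x‖ ≤ B) := by
    intro k
    by_cases hk : k ≤ N
    · have hc : Continuous (iteratedFDeriv ℝ k f) :=
        hf.continuous_iteratedFDeriv (by exact_mod_cast hk)
      obtain ⟨B, hB⟩ := (isCompact_closedBall (0 : E m) 2).exists_bound_of_continuousOn
        hc.continuousOn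
      refine ⟨max B 0, le_max_right _ _, fun _ x hx => ?_⟩
      exact (hB x (by simpa [mem_closedBall, dist_zero_right] using hx)).trans (le_max_left _ _)
    · exact ⟨0, le_rfl, fun h => absurd h hk⟩
  choose B hB0 hB using h1
  refine ⟨1 + ∑ k ∈ Finset.range (N + 1), B k, ?_, ?_⟩
  · have : 0 ≤ ∑ k ∈ Finset.range (N + 1), B k := Finset.sum_nonneg fun k _ => hB0 k
    linarith
  · intro k hk x hx
    have h2 : B k ≤ ∑ k ∈ Finset.range (N + 1), B k :=
      Finset.single_le_sum (f := B) (fun k _ => hB0 k) (by simp; omega)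
    have := hB k hk x hx
    linarith

/-- A smooth cut off function: one on the unit ball and zero outside the ball of radius two. -/
lemma exists_cutoff (m : ℕ) : ∃ χ : E m → ℂ, ContDiff ℝ ∞ χ ∧ (∀ x, ‖x‖ ≤ 1 → χ x = 1) ∧
    (∀ x, 2 < ‖x‖ → χ x = 0) := by
  let b : ContDiffBump (0 : E m) := ⟨1, 2, by norm_num, by norm_num⟩
  refine ⟨fun x => (b x : ℂ), ?_, ?_, ?_⟩
  · exact Complex.ofRealCLM.contDiff.comp b.contDiff
  · intro x hx
    have : b x = 1 := b.one_of_mem_closedBall (by simpa [mem_closedBall, dist_zero_right] using hx)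
    simp only [this]; rfl
  · intro x hx
    have : b x = 0 := b.zero_of_le_dist (by
      have h1 : b.rOut = 2 := rfl
      rw [h1, dist_zero_right]; exact hx.le)
    simp only [this]; rfl

theorem cutoff_bound (m : ℕ) (χ : E m → ℂ) (hχ : ContDiff ℝ ∞ χ) : ∃ A : ℝ, 0 < A ∧
    ∀ (g : E m → ℂ) (M : ℝ), ContDiff ℝ (m + 1 : ℕ) g → 0 ≤ M →
    (∀ k ≤ m + 1, ∀ x, ‖x‖ ≤ 2 → ‖iteratedFDeriv ℝ k g x‖ ≤ M) →
    ∀ k ≤ m + 1, ∀ x, ‖x‖ ≤ 2 → ‖iteratedFDeriv ℝ k (fun y => χ y * g y) x‖ ≤ A * M := by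
  have hχ' : ContDiff ℝ (m + 1 : ℕ) χ := hχ.of_le (by exact_mod_cast le_top)
  obtain ⟨B, hB1, hB⟩ := exists_bound_iter (m + 1) χ hχ'
  refine ⟨2 ^ (m + 1) * B, by positivity, ?_⟩
  intro g M hg hM hb k hk x hx
  refine (norm_iteratedFDeriv_mul_le hχ' hg x (n := k) (by exact_mod_cast hk)).trans ?_
  calc ∑ i ∈ Finset.range (k + 1), (k.choose i : ℝ) * ‖iteratedFDeriv ℝ i χ x‖ *
        ‖iteratedFDeriv ℝ (k - i) g x‖
      ≤ ∑ i ∈ Finset.range (k + 1), (k.choose i : ℝ) * B * M := by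
        refine Finset.sum_le_sum fun i hi => ?_
        have hi' : i ≤ k := by simp at hi; omega
        have h1 := hB i (by omega) x hx
        have h2 := hb (k - i) (by omega) x hx
        gcongr
    _ = 2 ^ k * B * M := by
        rw [← Finset.sum_mul, ← Finset.sum_mul]
        congr 2
        exact_mod_cast Nat.sum_range_choose k
    _ ≤ 2 ^ (m + 1) * B * M := by
        gcongr
        norm_num

lemma nat_le_infty (k : ℕ) : ((k : ℕ) : ℕ∞ω) ≤ (∞ : ℕ∞ω) := WithTop.coe_le_coe.2 le_top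

/-- Constant densities. -/
lemma const_le (n : ℕ) (hn : 2 ≤ n) (p : ℝ) (hp : 2 * ((n : ℝ) + 1) / n < p) :
    ∃ C : ℝ≥0∞, C ≠ ⊤ ∧ ∀ g : E (n + 1) → ℂ, Measurable g → (∀ x, ‖g x‖ ≤ 1) →
      (∃ c : ℂ, g = fun _ => c) → ∫⁻ ξ, ‖extn g ξ‖ₑ ^ p ≤ C := by
  have hn0 : (2 : ℝ) ≤ n := by exact_mod_cast hn
  obtain ⟨C, hC, H⟩ := main n hn n p (by linarith) hp (by
    refine lt_of_le_of_lt ?_ hp
    rw [div_le_div_iff₀ (by linarith) (by linarith)]
    nlinarith)
  refine ⟨C, hC, ?_⟩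
  rintro g hg hb ⟨c, rfl⟩
  refine H _ hg hb ?_
  unfold angEnergy
  simp

/-- The finite measure used below. -/
noncomputable def wt (m : ℕ) : Measure (E m) :=
  volume.withDensity (fun w => ((Real.toNNReal ((1 + ‖w‖) ^ (-((m : ℝ) + 1))) : NNReal) : ℝ≥0∞))

instance (m : ℕ) : IsFiniteMeasure (wt m) := by
  unfold wt
  refine isFiniteMeasure_withDensity_ofReal (f := fun w : E m => (1 + ‖w‖) ^ (-((m : ℝ) + 1))) ?_
  have h1 : Integrable (fun w : E m => (1 + ‖w‖) ^ (-((m : ℝ) + 1))) := by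
    refine integrable_one_add_norm ?_
    rw [finrank_euclideanSpace_fin]
    linarith
  exact h1.hasFiniteIntegral

lemma c1_extn_congr {m : ℕ} {f g : E m → ℂ} (h : ∀ x, ‖x‖ = 1 → f x = g x) (ξ : E m) :
    extn f ξ = extn g ξ := by
  unfold extn
  refine integral_congr_ae (Filter.Eventually.of_forall fun x => ?_)
  simp only
  rw [h (x : E m) (by simp)]

lemma extn_const_mul {m : ℕ} (c : ℂ) (f : E m → ℂ) (ξ : E m) :
    extn (fun x => c * f x) ξ = c * extn f ξ := by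
  unfold extn
  rw [← integral_const_mul]
  refine integral_congr_ae (Filter.Eventually.of_forall fun x => ?_)
  simp only
  ring

/-- A function whose Fourier transform decays is a superposition of plane waves. -/
theorem wave_bound (n : ℕ) (hn : 2 ≤ n) (p : ℝ) (hp : 2 * ((n : ℝ) + 1) / n < p) :
    ∃ C : ℝ≥0∞, C ≠ ⊤ ∧ ∀ (f : E (n + 1) → ℂ) (K : ℝ), Continuous f → Integrable f → 0 < K →
      (∀ w, (1 + ‖w‖) ^ (n + 1 + 1) * ‖𝓕 f w‖ ≤ K) →
      ∫⁻ ξ, ‖extn f ξ‖ₑ ^ p ≤ C * ENNReal.ofReal (K ^ p) := by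
  have hn0 : (2 : ℝ) ≤ n := by exact_mod_cast hn
  have hp1 : 1 ≤ p := by
    refine le_trans ?_ hp.le
    rw [le_div_iff₀ (by linarith)]
    linarith
  obtain ⟨C, hC, H⟩ := const_le n hn p hp
  refine ⟨C * (wt (n + 1)) univ ^ p, ENNReal.mul_ne_top hC
    (ENNReal.rpow_ne_top_of_nonneg (by linarith) (measure_ne_top _ _)), ?_⟩
  intro f K hf hi hK hb
  have hFc : Continuous (𝓕 f) := by
    exact VectorFourier.fourierIntegral_continuous Real.continuous_fourierChar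
      (by exact continuous_inner) hi
  have hw0 : ∀ w : E (n + 1), (0:ℝ) < (1 + ‖w‖) := fun w => by positivity
  have hFi : Integrable (𝓕 f) := by
    have h1 : Integrable (fun w : E (n + 1) => K * (1 + ‖w‖) ^ (-(((n + 1 : ℕ) : ℝ) + 1))) := by
      refine (integrable_one_add_norm ?_).const_mul K
      rw [finrank_euclideanSpace_fin]
      linarith
    refine h1.mono' hFc.aestronglyMeasurable (Filter.Eventually.of_forall fun w => ?_)
    have h2 : (1 + ‖w‖) ^ (-(((n + 1 : ℕ) : ℝ) + 1)) = ((1 + ‖w‖) ^ (n + 1 + 1))⁻¹ := by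
      rw [Real.rpow_neg (hw0 w).le]
      congr 1
      rw [← Real.rpow_natCast]
      congr 1
      push_cast; ring
    rw [h2, ← div_eq_mul_inv, le_div_iff₀ (pow_pos (hw0 w) _), mul_comm]
    exact hb w
  set h : E (n + 1) → E (n + 1) → ℂ := fun w _ => ((((1 + ‖w‖) ^ (n + 1 + 1) / K : ℝ)) : ℂ) * 𝓕 f w
    with hh
  have hhb : ∀ w x, ‖h w x‖ ≤ 1 := by
    intro w x
    simp only [hh]
    rw [norm_mul, Complex.norm_real, Real.norm_of_nonneg (div_nonneg (pow_nonneg (hw0 w).le _) hK.le)]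
    rw [div_mul_eq_mul_div, div_le_one hK]
    exact hb w
  have hhm : Measurable (Function.uncurry h) := by
    have h1 : Measurable fun w : E (n + 1) => ((((1 + ‖w‖) ^ (n + 1 + 1) / K : ℝ)) : ℂ) * 𝓕 f w := by
      refine Measurable.mul ?_ hFc.measurable
      fun_prop
    exact h1.comp measurable_fst
  have key : ∀ x, f x = (K : ℂ) * mix (wt (n + 1)) (fun _ => LinearIsometryEquiv.refl ℝ (E (n + 1)))
      (fun w => w) h x := by
    intro x
    have h1 : f x = 𝓕⁻ (𝓕 f) x := by rw [hf.fourierInv_fourier_eq hi hFi]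
    rw [h1, Real.fourierInv_eq']
    unfold mix wt
    rw [integral_withDensity_eq_integral_smul (by fun_prop), ← integral_const_mul]
    refine integral_congr_ae (Filter.Eventually.of_forall fun w => ?_)
    simp only [hh]
    rw [NNReal.smul_def, Real.coe_toNNReal _ (Real.rpow_nonneg (hw0 w).le _), real_inner_comm x w,
      smul_eq_mul, Complex.real_smul]
    have h2 : (1 + ‖w‖) ^ (-(((n + 1 : ℕ) : ℝ) + 1)) = ((1 + ‖w‖) ^ (n + 1 + 1))⁻¹ := by
      rw [Real.rpow_neg (hw0 w).le]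
      congr 1
      rw [← Real.rpow_natCast]
      congr 1
      push_cast; ring
    rw [h2]
    have h3 : (K : ℂ) ≠ 0 := by exact_mod_cast hK.ne'
    have h4 : (((1 + ‖w‖ : ℝ) : ℂ)) ≠ 0 := by exact_mod_cast (hw0 w).ne'
    push_cast at h4 ⊢
    field_simp
  have e1 : ∀ ξ, extn f ξ = (K : ℂ) * extn (mix (wt (n + 1))
      (fun _ => LinearIsometryEquiv.refl ℝ (E (n + 1))) (fun w => w) h) ξ := by
    intro ξ
    rw [← extn_const_mul]
    exact c1_extn_congr (fun x _ => key x) ξ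
  calc ∫⁻ ξ, ‖extn f ξ‖ₑ ^ p = ∫⁻ ξ, ENNReal.ofReal (K ^ p) * ‖extn (mix (wt (n + 1))
        (fun _ => LinearIsometryEquiv.refl ℝ (E (n + 1))) (fun w => w) h) ξ‖ₑ ^ p := by
        refine lintegral_congr fun ξ => ?_
        rw [e1 ξ, enorm_mul, ENNReal.mul_rpow_of_nonneg _ _ (by linarith)]
        congr 1
        rw [← ofReal_norm, Complex.norm_real, Real.norm_of_nonneg hK.le,
          ENNReal.ofReal_rpow_of_pos hK]
    _ = ENNReal.ofReal (K ^ p) * ∫⁻ ξ, ‖extn (mix (wt (n + 1))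
        (fun _ => LinearIsometryEquiv.refl ℝ (E (n + 1))) (fun w => w) h) ξ‖ₑ ^ p :=
        lintegral_const_mul' _ _ ENNReal.ofReal_ne_top
    _ ≤ ENNReal.ofReal (K ^ p) * (C * (wt (n + 1)) univ ^ p) := by
        refine mul_le_mul' le_rfl ?_
        refine lintegral_mix_le hp1 (fun g => ∃ c : ℂ, g = fun _ => c) H (wt (n + 1)) _ _ h ?_ ?_
          hhm hhb (fun w => ⟨_, rfl⟩)
        · exact measurable_snd
        · exact measurable_id
    _ = _ := by ring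

/-- The crude bound in terms of the derivatives of order at most `n + 2` on the ball of radius
two (dimension `n + 1`). -/
theorem crudeN (n : ℕ) (hn : 2 ≤ n) (p : ℝ) (hp : 2 * ((n : ℝ) + 1) / n < p) :
    ∃ C : ℝ≥0∞, C ≠ ⊤ ∧ ∀ (g : E (n + 1) → ℂ) (M : ℝ), ContDiff ℝ (n + 2 : ℕ) g → 0 ≤ M →
      (∀ k ≤ n + 2, ∀ x, ‖x‖ ≤ 2 → ‖iteratedFDeriv ℝ k g x‖ ≤ M) →
      ∫⁻ ξ, ‖extn g ξ‖ₑ ^ p ≤ C * ENNReal.ofReal (M ^ p) := by
  have hn0 : (2 : ℝ) ≤ n := by exact_mod_cast hn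
  have hp1 : 1 ≤ p := by
    refine le_trans ?_ hp.le
    rw [le_div_iff₀ (by linarith)]
    linarith
  obtain ⟨C, hC, H⟩ := wave_bound n hn p hp
  obtain ⟨χ, hχ, hχ1, hχ0⟩ := exists_cutoff (n + 1)
  obtain ⟨A, hA, HA⟩ := cutoff_bound (n + 1) χ hχ
  obtain ⟨K, hK, HK⟩ := fourier_decay (n + 1)
  refine ⟨C * ENNReal.ofReal ((K * A) ^ p), ENNReal.mul_ne_top hC ENNReal.ofReal_ne_top, ?_⟩
  intro g M hg hM hb
  rcases hM.eq_or_lt with rfl | hM
  · have h0 : ∀ x : E (n + 1), ‖x‖ = 1 → g x = (fun _ => (0 : ℂ)) x := by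
      intro x hx
      have := hb 0 (by omega) x (by linarith)
      rw [norm_iteratedFDeriv_zero] at this
      simpa using this
    have h1 : ∀ ξ, extn g ξ = 0 := by
      intro ξ
      rw [c1_extn_congr h0 ξ]
      unfold extn
      simp
    simp only [h1]
    simp [ENNReal.zero_rpow_of_pos (by linarith : (0:ℝ) < p)]
  · have hf : ContDiff ℝ (n + 1 + 1 : ℕ) (fun y => χ y * g y) :=
      (hχ.of_le (nat_le_infty _)).mul hg
    have hs : ∀ x, 2 < ‖x‖ → (fun y => χ y * g y) x = 0 := by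
      intro x hx
      simp only [hχ0 x hx, zero_mul]
    have h1 := HA g M hg hM.le hb
    have h2 := HK (fun y => χ y * g y) (A * M) hf (by positivity) hs h1
    have hi : Integrable (fun y => χ y * g y) := by
      have h3 := integrable_iter hf hs 0 (by omega)
      simp only [norm_iteratedFDeriv_zero] at h3
      exact (integrable_norm_iff hf.continuous.aestronglyMeasurable).1 h3
    have h4 := H (fun y => χ y * g y) (K * (A * M)) hf.continuous hi (by positivity) h2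
    have h5 : ∀ ξ, extn g ξ = extn (fun y => χ y * g y) ξ := by
      intro ξ
      refine c1_extn_congr (fun x hx => ?_) ξ
      simp only [hχ1 x hx.le, one_mul]
    simp only [h5]
    refine h4.trans (le_of_eq ?_)
    rw [← mul_assoc, Real.mul_rpow (by positivity) hM.le, ENNReal.ofReal_mul (by positivity),
      mul_assoc]

/-- The norm of the derivatives of `r ↦ e^{ir}`. -/
lemma norm_iteratedFDeriv_cexp (k : ℕ) (r : ℝ) :
    ‖iteratedFDeriv ℝ k (fun r : ℝ => Complex.exp ((r : ℂ) * Complex.I)) r‖ = 1 := by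
  rw [norm_iteratedFDeriv_eq_norm_iteratedDeriv]
  have h1 : ∀ k : ℕ, iteratedDeriv k (fun r : ℝ => Complex.exp ((r : ℂ) * Complex.I)) =
      fun r : ℝ => Complex.I ^ k * Complex.exp ((r : ℂ) * Complex.I) := by
    intro k
    induction k with
    | zero => simp
    | succ k ih =>
      rw [iteratedDeriv_succ, ih]
      ext r
      have h2 : HasDerivAt (fun r : ℝ => Complex.exp ((r : ℂ) * Complex.I))
          (Complex.exp ((r : ℂ) * Complex.I) * (1 * Complex.I)) r := by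
        have h3 : HasDerivAt (fun r : ℝ => ((r : ℂ) * Complex.I)) (1 * Complex.I) r :=
          (Complex.ofRealCLM.hasDerivAt (x := r)).mul_const Complex.I
        exact h3.cexp
      rw [(h2.const_mul (Complex.I ^ k)).deriv]
      ring
  rw [h1 k]
  simp only [norm_mul, norm_pow, Complex.norm_I, one_pow, one_mul]
  exact norm_phase r

lemma contDiff_cexp : ContDiff ℝ ∞ (fun r : ℝ => Complex.exp ((r : ℂ) * Complex.I)) :=
  (Complex.ofRealCLM.contDiff.mul contDiff_const).cexp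

/-- The crude bound for phases in a finite dimensional space of smooth functions. -/
theorem crudeN' (n : ℕ) (hn : 2 ≤ n) {d : ℕ} (φ : Fin d → E (n + 1) → ℝ)
    (hφ : ∀ j, ContDiff ℝ ∞ (φ j)) (p : ℝ) (hp : 2 * ((n : ℝ) + 1) / n < p) :
    ∃ C : ℝ≥0∞, C ≠ ⊤ ∧ ∀ c : Fin d → ℝ,
      ∫⁻ ξ, ‖extn (fun x => Complex.exp (((∑ j, c j * φ j x : ℝ) : ℂ) * Complex.I)) ξ‖ₑ ^ p ≤
        C * ENNReal.ofReal ((1 + ‖c‖) ^ (((n : ℝ) + 2) * p)) := by
  obtain ⟨C, hC, H⟩ := crudeN n hn p hp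
  have h1 : ∀ j, ∃ B : ℝ, 1 ≤ B ∧ ∀ k ≤ n + 2, ∀ x, ‖x‖ ≤ 2 → ‖iteratedFDeriv ℝ k (φ j) x‖ ≤ B :=
    fun j => exists_bound_iter (n + 2) (φ j) ((hφ j).of_le (nat_le_infty _))
  choose B hB1 hB using h1
  set T : ℝ := 1 + ∑ j, B j with hT
  have hT1 : 1 ≤ T := by
    have : 0 ≤ ∑ j, B j := Finset.sum_nonneg fun j _ => by linarith [hB1 j]
    linarith
  refine ⟨C * ENNReal.ofReal ((((n + 2).factorial : ℝ) * T ^ (n + 2)) ^ p),
    ENNReal.mul_ne_top hC ENNReal.ofReal_ne_top, ?_⟩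
  intro c
  have hc0 : (0:ℝ) ≤ ‖c‖ := norm_nonneg c
  have hu : ContDiff ℝ ∞ (fun x => ∑ j, c j * φ j x) :=
    ContDiff.sum fun j _ => contDiff_const.mul (hφ j)
  have hD1 : 1 ≤ T * (1 + ‖c‖) := by nlinarith
  have hu' : ∀ k, 1 ≤ k → k ≤ n + 2 → ∀ x, ‖x‖ ≤ 2 →
      ‖iteratedFDeriv ℝ k (fun x => ∑ j, c j * φ j x) x‖ ≤ (T * (1 + ‖c‖)) ^ k := by
    intro k hk1 hk x hx
    have e1 : iteratedFDeriv ℝ k (fun x => ∑ j, c j * φ j x) x =
        ∑ j, c j • iteratedFDeriv ℝ k (φ j) x := by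
      have h2 : iteratedFDeriv ℝ k (fun x => ∑ j, c j * φ j x) x =
          ∑ j, iteratedFDeriv ℝ k (fun x => c j * φ j x) x := by
        rw [iteratedFDeriv_fun_sum_apply (fun j _ => ((contDiff_const.mul (hφ j)).of_le
          (nat_le_infty _)).contDiffAt)]
      rw [h2]
      refine Finset.sum_congr rfl fun j _ => ?_
      have h3 := iteratedFDeriv_const_smul_apply (𝕜 := ℝ) (i := k) (a := c j) (f := φ j) (x := x)
        (((hφ j).of_le (nat_le_infty _)).contDiffAt)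
      exact h3
    rw [e1]
    calc ‖∑ j, c j • iteratedFDeriv ℝ k (φ j) x‖ ≤ ∑ j, ‖c j • iteratedFDeriv ℝ k (φ j) x‖ :=
          norm_sum_le _ _
      _ ≤ ∑ j, ‖c‖ * B j := by
          refine Finset.sum_le_sum fun j _ => ?_
          rw [norm_smul]
          have h4 := hB j k hk x hx
          have h5 : ‖c j‖ ≤ ‖c‖ := norm_le_pi_norm c j
          gcongr
      _ = ‖c‖ * ∑ j, B j := by rw [Finset.mul_sum]
      _ ≤ T * (1 + ‖c‖) := by
          have h6 : ∑ j, B j ≤ T := by linarith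
          have h7 : 0 ≤ ∑ j, B j := Finset.sum_nonneg fun j _ => by linarith [hB1 j]
          nlinarith
      _ ≤ (T * (1 + ‖c‖)) ^ k := le_self_pow₀ hD1 (by omega)
  have hg : ContDiff ℝ ∞ (fun x => Complex.exp (((∑ j, c j * φ j x : ℝ) : ℂ) * Complex.I)) :=
    contDiff_cexp.comp hu
  have hM : ∀ k ≤ n + 2, ∀ x, ‖x‖ ≤ 2 →
      ‖iteratedFDeriv ℝ k (fun x => Complex.exp (((∑ j, c j * φ j x : ℝ) : ℂ) * Complex.I)) x‖ ≤
      ((n + 2).factorial : ℝ) * (T * (1 + ‖c‖)) ^ (n + 2) := by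
    intro k hk x hx
    have h8 := norm_iteratedFDeriv_comp_le (N := (n + 2 : ℕ)) (n := k)
      (contDiff_cexp.of_le (nat_le_infty _)) (hu.of_le (nat_le_infty _))
      (by exact_mod_cast hk) x (C := 1) (D := T * (1 + ‖c‖))
      (fun i _ => (norm_iteratedFDeriv_cexp i _).le) (fun i hi1 hi => hu' i hi1 (by omega) x hx)
    refine h8.trans ?_
    rw [mul_one]
    have h9 : ((k.factorial : ℕ) : ℝ) ≤ ((n + 2).factorial : ℝ) := by
      exact_mod_cast Nat.factorial_le hk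
    have h10 : (T * (1 + ‖c‖)) ^ k ≤ (T * (1 + ‖c‖)) ^ (n + 2) := pow_le_pow_right₀ hD1 hk
    gcongr
  have h11 := H _ _ (hg.of_le (nat_le_infty _)) (by positivity) hM
  refine h11.trans (le_of_eq ?_)
  have h12 : (((n + 2).factorial : ℝ) * (T * (1 + ‖c‖)) ^ (n + 2)) ^ p =
      (((n + 2).factorial : ℝ) * T ^ (n + 2)) ^ p * (1 + ‖c‖) ^ (((n : ℝ) + 2) * p) := by
    rw [mul_pow, ← mul_assoc, Real.mul_rpow (by positivity) (by positivity)]
    congr 1
    rw [Real.rpow_mul (by positivity), ← Real.rpow_natCast]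
    push_cast
    rfl
  rw [h12, ENNReal.ofReal_mul (by positivity), mul_assoc]

/-- Dimension three. -/
theorem crude0 (p : ℝ) (hp : 3 < p) :
    ∃ C : ℝ≥0∞, C ≠ ⊤ ∧ ∀ (g : E 3 → ℂ) (M : ℝ), ContDiff ℝ 4 g → 0 ≤ M →
      (∀ k ≤ 4, ∀ x, ‖x‖ ≤ 2 → ‖iteratedFDeriv ℝ k g x‖ ≤ M) →
      ∫⁻ ξ, ‖extn g ξ‖ₑ ^ p ≤ C * ENNReal.ofReal (M ^ p) :=
  crudeN 2 le_rfl p (by norm_num; linarith)

/-- Dimension three. -/
theorem crude {d : ℕ} (φ : Fin d → E 3 → ℝ) (hφ : ∀ j, ContDiff ℝ ∞ (φ j)) (p : ℝ) (hp : 3 < p) :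
    ∃ C : ℝ≥0∞, C ≠ ⊤ ∧ ∀ c : Fin d → ℝ,
      ∫⁻ ξ, ‖extn (fun x => Complex.exp (((∑ j, c j * φ j x : ℝ) : ℂ) * Complex.I)) ξ‖ₑ ^ p ≤
        C * ENNReal.ofReal ((1 + ‖c‖) ^ (4 * p)) := by
  obtain ⟨C, hC, H⟩ := crudeN' 2 le_rfl φ hφ p (by norm_num; linarith)
  refine ⟨C, hC, fun c => ?_⟩
  have h1 := H c
  have h2 : (((2 : ℕ) : ℝ) + 2) * p = 4 * p := by norm_num
  rw [h2] at h1
  exact h1

end Pool.Agent.VAN
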