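import Pool.Agent.MP_6cbfb8_an.Defs

/-!
Taylor polynomials, with a uniform error, and the extension of a function which is smooth near the
unit sphere of `R^3` to a smooth function with compact support.
-/

namespace Pool.Agent.VAN

open MeasureTheory Set MvPolynomial Pool.Agent.MP_6cbfb8_an
open scoped ENNReal Real

/-- the polynomial of a multilinear form on the diagonal -/
noncomputable def mpoly (k : ℕ) (M : (E 3) [×k]→L[ℝ] ℝ) (x0 : E 3) : MvPolynomial (Fin 3) ℝ :=
  ∑ κ : Fin k → Fin 3, C (M fun l => EuclideanSpace.single (κ l) (1:ℝ)) *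
    ∏ l, (X (κ l) - C (x0 (κ l)))

theorem mpoly_deg (k : ℕ) (M : (E 3) [×k]→L[ℝ] ℝ) (x0 : E 3) : (mpoly k M x0).totalDegree ≤ k := by
  unfold mpoly
  refine totalDegree_finsetSum_le fun κ _ => ?_
  refine (totalDegree_mul _ _).trans ?_
  rw [totalDegree_C, zero_add]
  refine (totalDegree_finsetProd _ _).trans ?_
  calc ∑ l : Fin k, (X (κ l) - C (x0 (κ l)) : MvPolynomial (Fin 3) ℝ).totalDegree
      ≤ ∑ _l : Fin k, 1 := by
        refine Finset.sum_le_sum fun l _ => ?_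
        refine (totalDegree_sub _ _).trans (max_le ?_ ?_)
        · rw [totalDegree_X]
        · rw [totalDegree_C]; exact Nat.zero_le _
    _ = k := by simp

theorem eval_mpoly (k : ℕ) (M : (E 3) [×k]→L[ℝ] ℝ) (x0 x : E 3) :
    eval (fun i => x i) (mpoly k M x0) = M fun _ => x - x0 := by
  have h1 : x - x0 = ∑ i : Fin 3, (x i - x0 i) • EuclideanSpace.single i (1:ℝ) := by
    ext j
    simp [Fin.sum_univ_three]
    fin_cases j <;> simp
  rw [h1, ContinuousMultilinearMap.map_sum]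
  unfold mpoly
  rw [map_sum]
  refine Finset.sum_congr rfl fun κ _ => ?_
  rw [ContinuousMultilinearMap.map_smul_univ]
  simp [mul_comm]

/-- Taylor's formula with a uniform error -/
theorem taylor3 (F : E 3 → ℝ) (hF : ContDiff ℝ ((⊤ : ℕ∞) : WithTop ℕ∞) F) (A : ℕ) :
    ∃ K : ℝ, 0 ≤ K ∧ ∀ x0 ∈ Metric.closedBall (0 : E 3) 2, ∃ T : MvPolynomial (Fin 3) ℝ,
      T.totalDegree ≤ A ∧ ∀ x ∈ Metric.closedBall (0 : E 3) 2,
        |F x - eval (fun i => x i) T| ≤ K * ‖x - x0‖ ^ (A + 1) := by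
  have hcont : Continuous fun x => ‖iteratedFDeriv ℝ (A + 1) F x‖ :=
    (hF.continuous_iteratedFDeriv (by exact_mod_cast le_top)).norm
  obtain ⟨K, hK⟩ := (isCompact_closedBall (0 : E 3) 2).exists_bound_of_continuousOn
    hcont.continuousOn
  refine ⟨|K|, abs_nonneg _, fun x0 hx0 => ⟨∑ k ∈ Finset.range (A + 1),
    C ((k.factorial : ℝ)⁻¹) * mpoly k (iteratedFDeriv ℝ k F x0) x0, ?_, fun x hx => ?_⟩⟩
  · refine totalDegree_finsetSum_le fun k hk => ?_
    refine (totalDegree_mul _ _).trans ?_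
    rw [totalDegree_C, zero_add]
    exact (mpoly_deg _ _ _).trans (Nat.lt_succ_iff.1 (Finset.mem_range.1 hk))
  · have h1 := map_add_eq_sum_add_integral_iteratedFDeriv (f := F) (x := x0) (y := x - x0) (n := A)
      (fun t _ => hF.contDiffAt.of_le (by exact_mod_cast le_top))
    rw [add_sub_cancel] at h1
    have h2 : eval (fun i => x i) (∑ k ∈ Finset.range (A + 1),
        C ((k.factorial : ℝ)⁻¹) * mpoly k (iteratedFDeriv ℝ k F x0) x0) =
        ∑ k ∈ Finset.range (A + 1), (k.factorial : ℝ)⁻¹ •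
          (iteratedFDeriv ℝ k F x0 fun _ => x - x0) := by
      rw [map_sum]
      refine Finset.sum_congr rfl fun k _ => ?_
      rw [map_mul, eval_C, eval_mpoly, smul_eq_mul]
    rw [h2, h1, add_sub_cancel_left]
    have h3 : ‖∫ t in (0:ℝ)..1, (1 - t) ^ A • iteratedFDeriv ℝ (A + 1) F (x0 + t • (x - x0))
        (fun _ => x - x0)‖ ≤ |K| * ‖x - x0‖ ^ (A + 1) * |1 - 0| := by
      refine intervalIntegral.norm_integral_le_of_norm_le_const fun t ht => ?_
      rw [uIoc_of_le zero_le_one] at ht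
      have ht' : x0 + t • (x - x0) ∈ Metric.closedBall (0 : E 3) 2 := by
        have := (convex_closedBall (0 : E 3) 2).add_smul_sub_mem hx0 hx ⟨ht.1.le, ht.2⟩
        exact this
      rw [norm_smul]
      have e1 : ‖(1 - t) ^ A‖ ≤ 1 := by
        rw [norm_pow, Real.norm_eq_abs, abs_of_nonneg (by linarith [ht.2])]
        exact pow_le_one₀ (by linarith [ht.2]) (by linarith [ht.1])
      have e2 := (iteratedFDeriv ℝ (A + 1) F (x0 + t • (x - x0))).le_opNorm (fun _ => x - x0)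
      rw [Finset.prod_const, Finset.card_univ, Fintype.card_fin] at e2
      have e3 : ‖iteratedFDeriv ℝ (A + 1) F (x0 + t • (x - x0))‖ ≤ |K| := by
        have := hK _ ht'
        rw [norm_norm] at this
        exact this.trans (le_abs_self K)
      calc _ ≤ 1 * (|K| * ‖x - x0‖ ^ (A + 1)) := by
            refine mul_le_mul e1 (e2.trans ?_) (norm_nonneg _) zero_le_one
            exact mul_le_mul_of_nonneg_right e3 (by positivity)
        _ = _ := one_mul _
    rw [smul_eq_mul, abs_mul]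
    have h4 : |((A.factorial : ℝ))⁻¹| ≤ 1 := by
      rw [abs_of_nonneg (by positivity)]
      exact inv_le_one_of_one_le₀ (by exact_mod_cast Nat.succ_le_of_lt (Nat.factorial_pos A))
    rw [Real.norm_eq_abs] at h3
    calc _ ≤ 1 * (|K| * ‖x - x0‖ ^ (A + 1) * |1 - 0|) :=
          mul_le_mul h4 h3 (abs_nonneg _) zero_le_one
      _ = _ := by simp

/-- extension of a function which is smooth near the sphere -/
theorem extend (f : E 3 → ℝ)
    (hf : ∀ x ∈ S 3, ContDiffAt ℝ ((⊤ : ℕ∞) : WithTop ℕ∞) f x) :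
    ∃ F : E 3 → ℝ, ContDiff ℝ ((⊤ : ℕ∞) : WithTop ℕ∞) F ∧ HasCompactSupport F ∧
      ∀ x ∈ S 3, F x = f x := by
  let χ : ContDiffBump (1 : ℝ) := ⟨1 / 4, 1 / 2, by norm_num, by norm_num⟩
  have hχ0 : ∀ t : ℝ, 1 / 2 ≤ |t - 1| → χ t = 0 := fun t ht =>
    χ.zero_of_le_dist (by rw [Real.dist_eq]; exact ht)
  refine ⟨fun x => χ (‖x‖ ^ 2) * f (‖x‖⁻¹ • x), ?_, ?_, ?_⟩
  · rw [contDiff_iff_contDiffAt]
    intro x
    by_cases hx : x = 0
    · subst hx
      have h1 : (fun x : E 3 => χ (‖x‖ ^ 2) * f (‖x‖⁻¹ • x)) =ᶠ[nhds 0] fun _ => 0 := by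
        filter_upwards [Metric.ball_mem_nhds (0 : E 3) (by norm_num : (0:ℝ) < 1 / 2)] with y hy
        rw [mem_ball_zero_iff] at hy
        have h2 : χ (‖y‖ ^ 2) = 0 := hχ0 _ (by
          have h3 : ‖y‖ ^ 2 ≤ 1 / 2 := by nlinarith [norm_nonneg y]
          rw [abs_of_nonpos (by linarith)]
          linarith)
        rw [h2, zero_mul]
      exact contDiffAt_const.congr_of_eventuallyEq h1
    · have hn : ‖x‖ ≠ 0 := norm_ne_zero_iff.2 hx
      have hx1 : ‖x‖⁻¹ • x ∈ S 3 := by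
        rw [mem_sphere_zero_iff_norm, norm_smul, norm_inv, norm_norm, inv_mul_cancel₀ hn]
      have h1 : ContDiffAt ℝ ((⊤ : ℕ∞) : WithTop ℕ∞) (fun x : E 3 => ‖x‖) x := contDiffAt_norm ℝ hx
      have h2 : ContDiffAt ℝ ((⊤ : ℕ∞) : WithTop ℕ∞) (fun x : E 3 => ‖x‖⁻¹ • x) x :=
        (h1.inv hn).smul contDiffAt_id
      refine ContDiffAt.mul ?_ ?_
      · exact χ.contDiff.contDiffAt.comp x (h1.pow 2)
      · exact ContDiffAt.comp (g := f) (f := fun x : E 3 => ‖x‖⁻¹ • x) x (hf _ hx1) h2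
  · refine HasCompactSupport.intro (isCompact_closedBall (0 : E 3) 2) fun x hx => ?_
    rw [Metric.mem_closedBall, dist_zero_right, not_le] at hx
    have h2 : χ (‖x‖ ^ 2) = 0 := hχ0 _ (by
      have h3 : 2 ≤ ‖x‖ ^ 2 := by nlinarith [norm_nonneg x]
      rw [abs_of_nonneg (by linarith)]
      linarith)
    rw [h2, zero_mul]
  · intro x hx
    rw [mem_sphere_zero_iff_norm] at hx
    show χ (‖x‖ ^ 2) * f (‖x‖⁻¹ • x) = f x
    rw [hx, one_pow, inv_one, one_smul, χ.one_of_mem_closedBall (by simp; norm_num [χ]), one_mul]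

end Pool.Agent.VAN
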