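import Pool.Agent.VAN.Defs
import Pool.Agent.VAN.D1
import Pool.Agent.PPH.S5e

/-!
The local bound for smooth phases: on the ball of radius `L^B` the `p`-th power integral of the
Fourier transform is at most `C L^ε`, where `L` is the size of the coefficients of the phase.
-/

namespace Pool.Agent.VAN

open MeasureTheory Set MvPolynomial Pool.Agent.MP_6cbfb8_an Pool.Agent.PPH
open scoped ENNReal Real

/-- the knots `-1 - 1/M + j/M` -/
noncomputable def d2kn (M : ℕ) (j : ℕ) : ℝ := -1 - 1 / M + j / M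

/-- the step functions -/
noncomputable def d2st (M : ℕ) (j : ℕ) (t : ℝ) : ℂ := if d2kn M j < t then 1 else 0

/-- the signs -/
def d2sg (b : Fin 2) : ℂ := if b = 0 then 1 else -1

/-- the indicator functions of the cells -/
noncomputable def d2cel (M : ℕ) (κ : Fin 3 → Fin (2 * M + 1)) (x : E 3) : ℂ :=
  ∏ i, (d2st M (κ i) (x i) - d2st M (κ i + 1) (x i))

theorem d2kn_succ (M : ℕ) (j : ℕ) : d2kn M (j + 1) = d2kn M j + 1 / M := by
  unfold d2kn
  push_cast
  ring

theorem d2_tele (M : ℕ) (hM : 0 < M) (t : ℝ) (h1 : -1 ≤ t) (h2 : t ≤ 1) :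
    ∑ j : Fin (2 * M + 1), (d2st M j t - d2st M (j + 1) t) = 1 := by
  have hM' : (0:ℝ) < M := by exact_mod_cast hM
  rw [Fin.sum_univ_eq_sum_range (fun j : ℕ => d2st M j t - d2st M (j + 1) t),
    Finset.sum_range_sub']
  have e1 : d2st M 0 t = 1 := by
    unfold d2st d2kn
    have : (0:ℝ) < 1 / M := by positivity
    rw [if_pos]
    rw [Nat.cast_zero, zero_div]
    linarith
  have e2 : d2st M (2 * M + 1) t = 0 := by
    unfold d2st d2kn
    rw [if_neg]
    push_cast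
    have : -1 - 1 / (M:ℝ) + (2 * M + 1) / M = 1 := by
      field_simp
      ring
    rw [this]
    exact not_lt.2 h2
  rw [e1, e2, sub_zero]

theorem d2_coord {x : E 3} (hx : ‖x‖ = 1) (i : Fin 3) : |x i| ≤ 1 := by
  have := PiLp.norm_apply_le x i
  rw [Real.norm_eq_abs, hx] at this
  exact this

theorem d2cel_sum (M : ℕ) (hM : 0 < M) {x : E 3} (hx : ‖x‖ = 1) :
    ∑ κ : Fin 3 → Fin (2 * M + 1), d2cel M κ x = 1 := by
  have h := Finset.prod_univ_sum (fun _ : Fin 3 => (Finset.univ : Finset (Fin (2 * M + 1))))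
    (fun i j => d2st M j (x i) - d2st M (j + 1) (x i))
  rw [Fintype.piFinset_univ] at h
  unfold d2cel
  rw [← h]
  refine Finset.prod_eq_one fun i _ => ?_
  exact d2_tele M hM _ (abs_le.1 (d2_coord hx i)).1 (abs_le.1 (d2_coord hx i)).2

theorem d2_factor (M : ℕ) (j : ℕ) (t : ℝ) :
    d2st M j t - d2st M (j + 1) t = 0 ∨
      (d2st M j t - d2st M (j + 1) t = 1 ∧ d2kn M j < t ∧ t ≤ d2kn M j + 1 / M) := by
  unfold d2st
  rw [d2kn_succ]
  have hM : (0:ℝ) ≤ 1 / M := by positivity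
  by_cases h1 : d2kn M j + 1 / M < t
  · left
    rw [if_pos h1, if_pos (by linarith), sub_self]
  · by_cases h2 : d2kn M j < t
    · right
      rw [if_neg h1, if_pos h2, sub_zero]
      exact ⟨rfl, h2, not_lt.1 h1⟩
    · left
      rw [if_neg h1, if_neg h2, sub_zero]

theorem d2cel_or (M : ℕ) (κ : Fin 3 → Fin (2 * M + 1)) (x : E 3) :
    d2cel M κ x = 0 ∨ (d2cel M κ x = 1 ∧
      ∀ i, d2kn M (κ i) < x i ∧ x i ≤ d2kn M (κ i) + 1 / M) := by
  by_cases h : ∃ i, d2st M (κ i) (x i) - d2st M (κ i + 1) (x i) = 0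
  · left
    obtain ⟨i, hi⟩ := h
    exact Finset.prod_eq_zero (Finset.mem_univ i) hi
  · right
    have h' : ∀ i, d2st M (κ i) (x i) - d2st M (κ i + 1) (x i) = 1 ∧
        d2kn M (κ i) < x i ∧ x i ≤ d2kn M (κ i) + 1 / M := fun i =>
      (d2_factor M (κ i) (x i)).resolve_left fun h0 => h ⟨i, h0⟩
    refine ⟨Finset.prod_eq_one fun i _ => (h' i).1, fun i => (h' i).2⟩

theorem d2cel_norm_sum (M : ℕ) (hM : 0 < M) {x : E 3} (hx : ‖x‖ = 1) :
    ∑ κ : Fin 3 → Fin (2 * M + 1), ‖d2cel M κ x‖ = 1 := by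
  have h1 : ∀ κ : Fin 3 → Fin (2 * M + 1), ((‖d2cel M κ x‖ : ℝ) : ℂ) = d2cel M κ x := by
    intro κ
    rcases d2cel_or M κ x with h | ⟨h, _⟩ <;> rw [h] <;> simp
  have h2 : ((∑ κ : Fin 3 → Fin (2 * M + 1), ‖d2cel M κ x‖ : ℝ) : ℂ) = ((1 : ℝ) : ℂ) := by
    push_cast
    rw [Finset.sum_congr rfl fun κ _ => h1 κ]
    exact d2cel_sum M hM hx
  exact_mod_cast h2

/-- the cut polynomials -/
noncomputable def d2Q (M : ℕ) (w : (Fin 3 → Fin (2 * M + 1)) × (Fin 3 → Fin 2)) (i : Fin 3) :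
    MvPolynomial (Fin 3) ℝ := X i - C (d2kn M (w.1 i + w.2 i))

/-- the terms -/
noncomputable def d2h (M : ℕ) (T : (Fin 3 → Fin (2 * M + 1)) → MvPolynomial (Fin 3) ℝ)
    (w : (Fin 3 → Fin (2 * M + 1)) × (Fin 3 → Fin 2)) (x : E 3) : ℂ :=
  (∏ i, d2sg (w.2 i)) * pol (T w.1) (d2Q M w) x

theorem d2_sign (s : Fin 3 → Fin 2) : ∏ i, d2sg (s i) = 1 ∨ ∏ i, d2sg (s i) = -1 := by
  have h : ∀ b : Fin 2, d2sg b = 1 ∨ d2sg b = -1 := by
    intro b
    unfold d2sg
    split_ifs <;> simp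
  rw [Fin.prod_univ_three]
  rcases h (s 0) with h0 | h0 <;> rcases h (s 1) with h1 | h1 <;> rcases h (s 2) with h2 | h2 <;>
    rw [h0, h1, h2] <;> simp

theorem d2_pol (M : ℕ) (T : (Fin 3 → Fin (2 * M + 1)) → MvPolynomial (Fin 3) ℝ)
    (w : (Fin 3 → Fin (2 * M + 1)) × (Fin 3 → Fin 2)) (x : E 3) :
    pol (T w.1) (d2Q M w) x = Complex.exp (((eval (fun i => x i) (T w.1) : ℝ) : ℂ) * Complex.I) *
      ∏ i, d2st M (w.1 i + w.2 i) (x i) := by
  unfold pol d2Q d2st
  congr 1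
  refine Finset.prod_congr rfl fun i _ => ?_
  have h1 : eval (fun j => x j) (X i - C (d2kn M (w.1 i + w.2 i)) : MvPolynomial (Fin 3) ℝ) =
      x i - d2kn M (w.1 i + w.2 i) := by simp
  rw [h1]
  by_cases h : d2kn M (w.1 i + w.2 i) < x i
  · rw [if_pos h, if_pos (sub_pos.2 h)]
  · rw [if_neg h, if_neg (fun h' => h (sub_pos.1 h'))]

theorem d2_expand (M : ℕ) (T : (Fin 3 → Fin (2 * M + 1)) → MvPolynomial (Fin 3) ℝ) (x : E 3) :
    ∑ κ, d2cel M κ x * Complex.exp (((eval (fun i => x i) (T κ) : ℝ) : ℂ) * Complex.I) =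
      ∑ w, d2h M T w x := by
  rw [Fintype.sum_prod_type]
  refine Finset.sum_congr rfl fun κ _ => ?_
  have h := Finset.prod_univ_sum (fun _ : Fin 3 => (Finset.univ : Finset (Fin 2)))
    (fun i b => d2sg b * d2st M (κ i + b) (x i))
  rw [Fintype.piFinset_univ] at h
  have h2 : d2cel M κ x = ∑ s : Fin 3 → Fin 2, ∏ i, (d2sg (s i) * d2st M (κ i + s i) (x i)) := by
    rw [← h]
    unfold d2cel
    refine Finset.prod_congr rfl fun i _ => ?_
    rw [Fin.sum_univ_two]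
    simp [d2sg, sub_eq_add_neg]
  rw [h2, Finset.sum_mul]
  refine Finset.sum_congr rfl fun s _ => ?_
  unfold d2h
  rw [d2_pol, Finset.prod_mul_distrib]
  ring

theorem d2_cells (A : ℕ) (p : ℝ) (hp : 3 < p) : ∃ C : ℝ≥0∞, C ≠ ∞ ∧ ∀ (M : ℕ), 0 < M →
    ∀ T : (Fin 3 → Fin (2 * M + 1)) → MvPolynomial (Fin 3) ℝ, (∀ κ, (T κ).totalDegree ≤ A) →
    ∫⁻ ξ, ‖extn (fun x : E 3 => ∑ κ, d2cel M κ x *
      Complex.exp (((eval (fun i => x i) (T κ) : ℝ) : ℂ) * Complex.I)) ξ‖ₑ ^ p ≤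
      C * ENNReal.ofReal ((6 * M) ^ (3 * p)) := by
  obtain ⟨C, hC, H⟩ := main3 (A + 1) 3 p hp
  refine ⟨C, hC, fun M hM T hT => ?_⟩
  have hQ : ∀ w i, (d2Q M w i).totalDegree ≤ A + 1 := by
    intro w i
    unfold d2Q
    refine (totalDegree_sub _ _).trans (max_le ?_ ?_)
    · rw [totalDegree_X]; omega
    · rw [totalDegree_C]; omega
  have hb : ∀ w x, ‖d2h M T w x‖ ≤ 1 := by
    intro w x
    unfold d2h
    rw [norm_mul]
    rcases d2_sign w.2 with h | h <;> rw [h] <;> simpa using norm_pol_le _ _ x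
  have hm : ∀ w, Measurable (d2h M T w) := fun w => (measurable_pol _ _).const_mul _
  have key := lintegral_mix_le (p := p) (C := C) (by linarith)
    (fun g : E 3 → ℂ => ∃ (P : MvPolynomial (Fin 3) ℝ) (Q : Fin 3 → MvPolynomial (Fin 3) ℝ),
      P.totalDegree ≤ A + 1 ∧ (∀ i, (Q i).totalDegree ≤ A + 1) ∧
        (g = pol P Q ∨ g = fun x => -1 * pol P Q x))
    (by
      rintro g _ _ ⟨P, Q, h1, h2, rfl | rfl⟩
      · exact H P Q h1 h2
      · refine le_trans (le_of_eq ?_) (H P Q h1 h2)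
        refine lintegral_congr fun ξ => ?_
        congr 1
        have : extn (fun x => -1 * pol P Q x) ξ = -1 * extn (pol P Q) ξ := by
          unfold extn
          rw [← integral_const_mul]
          refine integral_congr_ae (Filter.Eventually.of_forall fun x => ?_)
          simp only
          ring
        rw [this, enorm_mul]
        simp)
    (Measure.count : Measure ((Fin 3 → Fin (2 * M + 1)) × (Fin 3 → Fin 2)))
    (fun _ => LinearIsometryEquiv.refl ℝ (E 3)) (fun _ => 0) (d2h M T)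
    measurable_snd measurable_const
    (measurable_from_prod_countable_right hm) hb
    (fun w => ⟨T w.1, d2Q M w, (hT _).trans (Nat.le_succ A), hQ w, by
      rcases d2_sign w.2 with h | h
      · left
        funext x
        unfold d2h
        rw [h, one_mul]
      · right
        funext x
        unfold d2h
        rw [h]⟩)
  have e1 : (fun x : E 3 => ∑ κ, d2cel M κ x *
      Complex.exp (((eval (fun i => x i) (T κ) : ℝ) : ℂ) * Complex.I)) =
      mix (Measure.count : Measure ((Fin 3 → Fin (2 * M + 1)) × (Fin 3 → Fin 2)))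
        (fun _ => LinearIsometryEquiv.refl ℝ (E 3)) (fun _ => 0) (d2h M T) := by
    funext x
    rw [d2_expand]
    unfold mix
    rw [integral_count]
    refine Finset.sum_congr rfl fun w _ => ?_
    simp
  rw [e1]
  refine key.trans ?_
  gcongr
  have hM1 : (1:ℝ) ≤ M := by exact_mod_cast hM
  rw [Measure.count_univ]
  have e2 : ((ENat.card ((Fin 3 → Fin (2 * M + 1)) × (Fin 3 → Fin 2)) : ℕ∞) : ℝ≥0∞) =
      ENNReal.ofReal ((2 * M + 1) ^ 3 * 2 ^ 3) := by
    rw [ENat.card_eq_coe_fintype_card, Fintype.card_prod]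
    simp only [Fintype.card_pi, Fintype.card_fin, Finset.prod_const, Finset.card_univ]
    rw [show ((2 * (M:ℝ) + 1) ^ 3 * 2 ^ 3) = (((2 * M + 1) ^ 3 * 2 ^ 3 : ℕ) : ℝ) by push_cast; ring,
      ENNReal.ofReal_natCast]
    rfl
  rw [e2, ENNReal.ofReal_rpow_of_nonneg (by positivity) (by linarith)]
  refine ENNReal.ofReal_le_ofReal ?_
  rw [Real.rpow_mul (by positivity)]
  refine Real.rpow_le_rpow (by positivity) ?_ (by linarith)
  rw [show ((3:ℝ)) = ((3:ℕ):ℝ) by norm_num, Real.rpow_natCast, ← mul_pow]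
  refine pow_le_pow_left₀ (by positivity) ?_ 3
  linarith

theorem d2_exp_sub (a b : ℝ) : ‖Complex.exp ((a : ℂ) * Complex.I) -
    Complex.exp ((b : ℂ) * Complex.I)‖ ≤ |a - b| := by
  have h1 : Complex.exp ((a : ℂ) * Complex.I) - Complex.exp ((b : ℂ) * Complex.I) =
      Complex.exp ((b : ℂ) * Complex.I) * (Complex.exp (Complex.I * ((a - b : ℝ) : ℂ)) - 1) := by
    rw [mul_sub, mul_one, ← Complex.exp_add]
    congr 2
    push_cast
    ring
  rw [h1, norm_mul, Complex.norm_exp_ofReal_mul_I, one_mul]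
  exact Real.norm_exp_I_mul_ofReal_sub_one_le

/-- points of one cell are near each other -/
theorem d2_dist (M : ℕ) (hM : 0 < M) (κ : Fin 3 → Fin (2 * M + 1)) {x y : E 3}
    (hx : ∀ i, d2kn M (κ i) < x i ∧ x i ≤ d2kn M (κ i) + 1 / M)
    (hy : ∀ i, d2kn M (κ i) < y i ∧ y i ≤ d2kn M (κ i) + 1 / M) : ‖x - y‖ ≤ 2 / M := by
  have hM' : (0:ℝ) < M := by exact_mod_cast hM
  have h1 : ∀ i, (x i - y i) ^ 2 ≤ (1 / M) ^ 2 := by
    intro i
    rw [sq_le_sq, abs_of_pos (show (0:ℝ) < 1 / M by positivity), abs_le]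
    constructor
    · linarith [(hx i).1, (hy i).2]
    · linarith [(hx i).2, (hy i).1]
  have h2 : ‖x - y‖ ^ 2 ≤ (2 / M) ^ 2 := by
    rw [EuclideanSpace.norm_sq_eq, Fin.sum_univ_three]
    have e : ∀ i, ‖(x - y) i‖ ^ 2 = (x i - y i) ^ 2 := by
      intro i
      rw [PiLp.sub_apply, Real.norm_eq_abs, sq_abs]
    rw [e, e, e]
    have h3 : (2 / (M:ℝ)) ^ 2 = 4 * (1 / M) ^ 2 := by ring
    have h4 : (0:ℝ) ≤ (1 / M) ^ 2 := by positivity
    linarith [h1 0, h1 1, h1 2]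
  exact (pow_le_pow_iff_left₀ (norm_nonneg _) (by positivity) two_ne_zero).1 h2

/-- approximation of the phase on the cells by polynomials -/
theorem d2_approx {d : ℕ} (φ : Fin d → E 3 → ℝ)
    (hs : ∀ j, ContDiff ℝ ((⊤ : ℕ∞) : WithTop ℕ∞) (φ j)) (A : ℕ) :
    ∃ K : ℝ, 0 ≤ K ∧ ∀ (M : ℕ), 0 < M → ∀ c : Fin d → ℝ,
      ∃ T : (Fin 3 → Fin (2 * M + 1)) → MvPolynomial (Fin 3) ℝ, (∀ κ, (T κ).totalDegree ≤ A) ∧
      ∀ x : E 3, ‖x‖ = 1 → ‖Complex.exp (((fam φ c x : ℝ) : ℂ) * Complex.I) -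
        ∑ κ, d2cel M κ x * Complex.exp (((eval (fun i => x i) (T κ) : ℝ) : ℂ) * Complex.I)‖ ≤
        ‖c‖ * K * (2 / M) ^ (A + 1) := by
  choose K hK0 hK using fun j => taylor3 (φ j) (hs j) A
  refine ⟨∑ j, K j, Finset.sum_nonneg fun j _ => hK0 j, fun M hM c => ?_⟩
  have hball : ∀ x : E 3, ‖x‖ = 1 → x ∈ Metric.closedBall (0 : E 3) 2 := by
    intro x hx
    rw [mem_closedBall_zero_iff, hx]
    norm_num
  choose T hTd hT using fun (j : Fin d) (x0 : Metric.closedBall (0 : E 3) 2) => hK j x0 x0.2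
  have hcell : ∀ κ : Fin 3 → Fin (2 * M + 1), ∃ P : MvPolynomial (Fin 3) ℝ, P.totalDegree ≤ A ∧
      ∀ x : E 3, ‖x‖ = 1 → d2cel M κ x ≠ 0 →
        |fam φ c x - eval (fun i => x i) P| ≤ ‖c‖ * (∑ j, K j) * (2 / M) ^ (A + 1) := by
    intro κ
    by_cases h : ∃ x0 : E 3, ‖x0‖ = 1 ∧ d2cel M κ x0 ≠ 0
    · obtain ⟨x0, hx0, hc0⟩ := h
      refine ⟨∑ j, C (c j) * T j ⟨x0, hball x0 hx0⟩, ?_, fun x hx hcx => ?_⟩
      · refine totalDegree_finsetSum_le fun j _ => ?_
        refine (totalDegree_mul _ _).trans ?_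
        rw [totalDegree_C, zero_add]
        exact hTd j _
      · have hd : ‖x - x0‖ ≤ 2 / M :=
          d2_dist M hM κ ((d2cel_or M κ x).resolve_left hcx).2 ((d2cel_or M κ x0).resolve_left hc0).2
        have h1 : fam φ c x - eval (fun i => x i) (∑ j, C (c j) * T j ⟨x0, hball x0 hx0⟩) =
            ∑ j, c j * (φ j x - eval (fun i => x i) (T j ⟨x0, hball x0 hx0⟩)) := by
          unfold fam
          rw [map_sum, ← Finset.sum_sub_distrib]
          refine Finset.sum_congr rfl fun j _ => ?_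
          rw [map_mul, eval_C]
          ring
        rw [h1]
        refine (Finset.abs_sum_le_sum_abs _ _).trans ?_
        rw [Finset.mul_sum, Finset.sum_mul]
        refine Finset.sum_le_sum fun j _ => ?_
        rw [abs_mul, mul_assoc]
        refine mul_le_mul ?_ ?_ (abs_nonneg _) (norm_nonneg _)
        · rw [← Real.norm_eq_abs]
          exact norm_le_pi_norm c j
        · refine (hT j ⟨x0, hball x0 hx0⟩ x (hball x hx)).trans ?_
          exact mul_le_mul_of_nonneg_left (pow_le_pow_left₀ (norm_nonneg _) hd _) (hK0 j)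
    · exact ⟨0, by simp, fun x hx hcx => absurd ⟨x, hx, hcx⟩ h⟩
  choose P hPd hP using hcell
  refine ⟨P, hPd, fun x hx => ?_⟩
  have h1 : Complex.exp (((fam φ c x : ℝ) : ℂ) * Complex.I) -
      ∑ κ, d2cel M κ x * Complex.exp (((eval (fun i => x i) (P κ) : ℝ) : ℂ) * Complex.I) =
      ∑ κ, d2cel M κ x * (Complex.exp (((fam φ c x : ℝ) : ℂ) * Complex.I) -
        Complex.exp (((eval (fun i => x i) (P κ) : ℝ) : ℂ) * Complex.I)) := by
    simp_rw [mul_sub]
    rw [Finset.sum_sub_distrib, ← Finset.sum_mul, d2cel_sum M hM hx, one_mul]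
  rw [h1]
  refine (norm_sum_le _ _).trans ?_
  calc ∑ κ, ‖d2cel M κ x * (Complex.exp (((fam φ c x : ℝ) : ℂ) * Complex.I) -
        Complex.exp (((eval (fun i => x i) (P κ) : ℝ) : ℂ) * Complex.I))‖
      ≤ ∑ κ, ‖d2cel M κ x‖ * (‖c‖ * (∑ j, K j) * (2 / M) ^ (A + 1)) := by
        refine Finset.sum_le_sum fun κ _ => ?_
        rw [norm_mul]
        by_cases hc : d2cel M κ x = 0
        · rw [hc, norm_zero, zero_mul, zero_mul]
        · exact mul_le_mul_of_nonneg_left ((d2_exp_sub _ _).trans (hP κ x hx hc)) (norm_nonneg _)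
    _ = _ := by rw [← Finset.sum_mul, d2cel_norm_sum M hM hx, one_mul]

theorem d2_meas_cel (M : ℕ) (T : (Fin 3 → Fin (2 * M + 1)) → MvPolynomial (Fin 3) ℝ) :
    Measurable fun x : E 3 => ∑ κ, d2cel M κ x *
      Complex.exp (((eval (fun i => x i) (T κ) : ℝ) : ℂ) * Complex.I) := by
  have h : (fun x : E 3 => ∑ κ, d2cel M κ x *
      Complex.exp (((eval (fun i => x i) (T κ) : ℝ) : ℂ) * Complex.I)) =
      fun x => ∑ w, d2h M T w x := by
    funext x
    exact d2_expand M T x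
  rw [h]
  exact Finset.measurable_sum _ fun w _ => (measurable_pol _ _).const_mul _

/-- comparison of two transforms -/
theorem d2_extn_le (g m : E 3 → ℂ) (hg : Measurable g) (hm : Measurable m) (B δ : ℝ)
    (hgB : ∀ x : E 3, ‖x‖ = 1 → ‖g x‖ ≤ B) (hd : ∀ x : E 3, ‖x‖ = 1 → ‖g x - m x‖ ≤ δ)
    (ξ : E 3) :
    ‖extn g ξ‖ₑ ≤ ‖extn m ξ‖ₑ + ENNReal.ofReal ((sm 3).real univ * δ) := by
  have hmeas : ∀ f : E 3 → ℂ, Measurable f → Measurable fun x : S 3 =>
      f x * Complex.exp (((-(2 * π * inner ℝ (x : E 3) ξ) : ℝ) : ℂ) * Complex.I) := by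
    intro f hf
    refine (hf.comp measurable_subtype_coe).mul ?_
    have : Continuous fun x : S 3 =>
        Complex.exp (((-(2 * π * inner ℝ (x : E 3) ξ) : ℝ) : ℂ) * Complex.I) := by fun_prop
    exact this.measurable
  have hi1 : Integrable (fun x : S 3 =>
      g x * Complex.exp (((-(2 * π * inner ℝ (x : E 3) ξ) : ℝ) : ℂ) * Complex.I)) (sm 3) := by
    refine Integrable.of_bound (hmeas g hg).aestronglyMeasurable B
      (Filter.Eventually.of_forall fun x => ?_)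
    rw [norm_mul, norm_phase, mul_one]
    exact hgB x (by simp)
  have hi2 : Integrable (fun x : S 3 =>
      m x * Complex.exp (((-(2 * π * inner ℝ (x : E 3) ξ) : ℝ) : ℂ) * Complex.I)) (sm 3) := by
    refine Integrable.of_bound (hmeas m hm).aestronglyMeasurable (B + δ)
      (Filter.Eventually.of_forall fun x => ?_)
    rw [norm_mul, norm_phase, mul_one]
    have h1 := hd x (by simp)
    have h2 := hgB x (by simp)
    calc ‖m x‖ = ‖g x - (g x - m x)‖ := by rw [sub_sub_cancel]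
      _ ≤ ‖g x‖ + ‖g x - m x‖ := norm_sub_le _ _
      _ ≤ B + δ := by linarith
  have h1 : extn g ξ = extn m ξ + ∫ x : S 3, (g x - m x) *
      Complex.exp (((-(2 * π * inner ℝ (x : E 3) ξ) : ℝ) : ℂ) * Complex.I) ∂(sm 3) := by
    unfold extn
    simp_rw [sub_mul]
    rw [integral_sub hi1 hi2]
    ring
  rw [h1]
  refine (enorm_add_le _ _).trans (add_le_add le_rfl ?_)
  rw [← ofReal_norm]
  refine ENNReal.ofReal_le_ofReal ?_
  refine (norm_integral_le_of_norm_le_const (C := δ)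
    (Filter.Eventually.of_forall fun x => ?_)).trans (le_of_eq (mul_comm _ _))
  rw [norm_mul, norm_phase, mul_one]
  exact hd x (by simp)

/-- The local bound. -/
theorem local_bound {d : ℕ} (φ : Fin d → E 3 → ℝ)
    (hs : ∀ j, ContDiff ℝ ((⊤ : ℕ∞) : WithTop ℕ∞) (φ j)) (p ε B : ℝ)
    (hp : 3 < p) (hε : 0 < ε) (hB : 0 ≤ B) :
    ∃ C : ℝ≥0∞, C ≠ ∞ ∧ ∀ c : Fin d → ℝ,
      ∫⁻ ξ in Metric.closedBall 0 ((1 + ‖c‖) ^ B),
        ‖extn (fun x => Complex.exp (((fam φ c x : ℝ) : ℂ) * Complex.I)) ξ‖ₑ ^ p ≤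
          C * ENNReal.ofReal ((1 + ‖c‖) ^ ε) := by
  have hp0 : 0 < p := by linarith
  obtain ⟨e, he⟩ : ∃ e : ℝ, e = ε / (3 * p) := ⟨_, rfl⟩
  have he0 : 0 < e := by rw [he]; positivity
  obtain ⟨A, hA⟩ := exists_nat_ge ((1 + 3 * B) / e)
  have hA' : 1 - e * (A + 1) ≤ -(3 * B) := by
    rw [div_le_iff₀ he0] at hA
    nlinarith
  obtain ⟨K, hK0, hK⟩ := d2_approx φ hs A
  obtain ⟨C1, hC1, H1⟩ := d2_cells A p hp
  set s : ℝ := (sm 3).real univ with hsdef
  have hs0 : 0 ≤ s := measureReal_nonneg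
  obtain ⟨v, hv⟩ : ∃ v : ℝ≥0∞, v = volume (Metric.closedBall (0 : E 3) 1) := ⟨_, rfl⟩
  have hvt : v ≠ ∞ := by
    rw [hv]
    exact (isCompact_closedBall (0 : E 3) 1).measure_ne_top
  refine ⟨2 ^ (p - 1) * (C1 * ENNReal.ofReal (12 ^ (3 * p)) +
    ENNReal.ofReal ((s * (K * 2 ^ (A + 1))) ^ p) * v), ?_, fun c => ?_⟩
  · refine ENNReal.mul_ne_top (ENNReal.rpow_ne_top_of_nonneg (by linarith) (by norm_num)) ?_
    exact ENNReal.add_ne_top.2 ⟨ENNReal.mul_ne_top hC1 ENNReal.ofReal_ne_top,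
      ENNReal.mul_ne_top ENNReal.ofReal_ne_top hvt⟩
  obtain ⟨L, hL⟩ : ∃ L : ℝ, L = 1 + ‖c‖ := ⟨_, rfl⟩
  have hL1 : 1 ≤ L := by rw [hL]; linarith [norm_nonneg c]
  have hL0 : 0 < L := by linarith
  rw [← hL]
  obtain ⟨M, hM⟩ : ∃ M : ℕ, M = ⌈L ^ e⌉₊ := ⟨_, rfl⟩
  have hLe : 1 ≤ L ^ e := Real.one_le_rpow hL1 he0.le
  have hM1 : L ^ e ≤ M := by rw [hM]; exact Nat.le_ceil _
  have hM2 : (M : ℝ) ≤ 2 * L ^ e := by
    have := Nat.ceil_lt_add_one (show 0 ≤ L ^ e by positivity)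
    rw [← hM] at this
    linarith
  have hM0 : 0 < M := by
    have : (0:ℝ) < M := by linarith
    exact_mod_cast this
  have hM0' : (0:ℝ) < M := by exact_mod_cast hM0
  obtain ⟨T, hT, hTd⟩ := hK M hM0 c
  -- the error
  have herr : ‖c‖ * K * (2 / M) ^ (A + 1) ≤ K * 2 ^ (A + 1) * L ^ (-(3 * B)) := by
    have h1 : (1 / (M:ℝ)) ^ (A + 1) ≤ L ^ (-(e * (A + 1))) := by
      have h2 : 1 / (M:ℝ) ≤ L ^ (-e) := by
        rw [Real.rpow_neg hL0.le, ← one_div]
        exact one_div_le_one_div_of_le (by positivity) hM1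
      calc (1 / (M:ℝ)) ^ (A + 1) ≤ (L ^ (-e)) ^ (A + 1) := pow_le_pow_left₀ (by positivity) h2 _
        _ = L ^ (-(e * (A + 1))) := by
          rw [← Real.rpow_natCast, ← Real.rpow_mul hL0.le]
          congr 1
          push_cast
          ring
    have h3 : ‖c‖ ≤ L := by rw [hL]; linarith
    calc ‖c‖ * K * (2 / M) ^ (A + 1) = ‖c‖ * (K * 2 ^ (A + 1)) * (1 / (M:ℝ)) ^ (A + 1) := by
          rw [div_eq_mul_one_div (2:ℝ) (M:ℝ), mul_pow]
          ring
      _ ≤ L * (K * 2 ^ (A + 1)) * L ^ (-(e * (A + 1))) := by gcongr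
      _ = K * 2 ^ (A + 1) * L ^ (1 - e * (A + 1)) := by
          rw [sub_eq_add_neg, Real.rpow_add hL0, Real.rpow_one]
          ring
      _ ≤ K * 2 ^ (A + 1) * L ^ (-(3 * B)) := by
          gcongr
  have hgm : Measurable fun x : E 3 => Complex.exp (((fam φ c x : ℝ) : ℂ) * Complex.I) := by
    have h1 : Continuous fun x : E 3 => fam φ c x := by
      unfold fam
      exact continuous_finsetSum _ fun j _ => continuous_const.mul (hs j).continuous
    have h2 : Continuous fun x : E 3 => Complex.exp (((fam φ c x : ℝ) : ℂ) * Complex.I) := by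
      fun_prop
    exact h2.measurable
  have hcmp := fun ξ => d2_extn_le (fun x : E 3 => Complex.exp (((fam φ c x : ℝ) : ℂ) * Complex.I))
    _ hgm (d2_meas_cel M T) 1 (K * 2 ^ (A + 1) * L ^ (-(3 * B)))
    (fun x _ => (norm_phase _).le) (fun x hx => (hTd x hx).trans herr) ξ
  obtain ⟨m, hm⟩ : ∃ m : E 3 → ℂ, m = fun x => ∑ κ, d2cel M κ x *
      Complex.exp (((eval (fun i => x i) (T κ) : ℝ) : ℂ) * Complex.I) := ⟨_, rfl⟩
  rw [← hm] at hcmp
  have hmm : Measurable m := by rw [hm]; exact d2_meas_cel M T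
  have hme : Measurable fun ξ => ‖extn m ξ‖ₑ ^ p := by
    have h1 := measurable_extn_param (W := Unit) (fun _ => m) (hmm.comp measurable_snd)
    exact ((h1.comp (f := fun ξ : E 3 => ((), ξ)) (by fun_prop)).enorm).pow_const p
  calc ∫⁻ ξ in Metric.closedBall 0 (L ^ B),
        ‖extn (fun x => Complex.exp (((fam φ c x : ℝ) : ℂ) * Complex.I)) ξ‖ₑ ^ p
      ≤ ∫⁻ ξ in Metric.closedBall 0 (L ^ B), 2 ^ (p - 1) * (‖extn m ξ‖ₑ ^ p +
          ENNReal.ofReal (s * (K * 2 ^ (A + 1) * L ^ (-(3 * B)))) ^ p) := by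
        refine lintegral_mono fun ξ => ?_
        exact (ENNReal.rpow_le_rpow (hcmp ξ) hp0.le).trans
          (ENNReal.rpow_add_le_mul_rpow_add_rpow _ _ (by linarith))
    _ = 2 ^ (p - 1) * ((∫⁻ ξ in Metric.closedBall 0 (L ^ B), ‖extn m ξ‖ₑ ^ p) +
          ENNReal.ofReal (s * (K * 2 ^ (A + 1) * L ^ (-(3 * B)))) ^ p *
            volume (Metric.closedBall (0 : E 3) (L ^ B))) := by
        rw [lintegral_const_mul' _ _ (ENNReal.rpow_ne_top_of_nonneg (by linarith) (by norm_num)),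
          lintegral_add_left hme, lintegral_const, Measure.restrict_apply_univ]
    _ ≤ 2 ^ (p - 1) * (C1 * ENNReal.ofReal ((6 * M) ^ (3 * p)) +
          ENNReal.ofReal ((s * (K * 2 ^ (A + 1))) ^ p * L ^ (-(3 * B))) *
            (ENNReal.ofReal (L ^ (3 * B)) * v)) := by
        gcongr
        · refine (setLIntegral_le_lintegral _ _).trans ?_
          rw [hm]
          exact H1 M hM0 T hT
        · rw [ENNReal.ofReal_rpow_of_nonneg (by positivity) hp0.le]
          refine ENNReal.ofReal_le_ofReal ?_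
          rw [show s * (K * 2 ^ (A + 1) * L ^ (-(3 * B))) =
            (s * (K * 2 ^ (A + 1))) * L ^ (-(3 * B)) by ring,
            Real.mul_rpow (by positivity) (by positivity)]
          gcongr
          rw [← Real.rpow_mul hL0.le]
          refine Real.rpow_le_rpow_of_exponent_le hL1 ?_
          nlinarith
        · rw [Measure.addHaar_closedBall' volume (0 : E 3) (by positivity), finrank_euclideanSpace,
            Fintype.card_fin, ← hv, ← Real.rpow_natCast, ← Real.rpow_mul hL0.le]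
          refine le_of_eq ?_
          congr 3
          push_cast
          ring
    _ ≤ 2 ^ (p - 1) * (C1 * ENNReal.ofReal (12 ^ (3 * p) * L ^ ε) +
          ENNReal.ofReal ((s * (K * 2 ^ (A + 1))) ^ p * L ^ ε) * v) := by
        gcongr 2 ^ (p - 1) * (C1 * ENNReal.ofReal ?_ + ?_)
        · calc (6 * (M:ℝ)) ^ (3 * p) ≤ (12 * L ^ e) ^ (3 * p) := by
                refine Real.rpow_le_rpow (by positivity) ?_ (by positivity)
                linarith
            _ = 12 ^ (3 * p) * L ^ ε := by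
                rw [Real.mul_rpow (by norm_num) (by positivity), ← Real.rpow_mul hL0.le]
                congr 2
                rw [he]
                field_simp
        · rw [← mul_assoc, ← ENNReal.ofReal_mul (by positivity)]
          refine mul_le_mul' (ENNReal.ofReal_le_ofReal ?_) le_rfl
          rw [mul_assoc, ← Real.rpow_add hL0, neg_add_cancel, Real.rpow_zero]
          exact mul_le_mul_of_nonneg_left (Real.one_le_rpow hL1 hε.le) (by positivity)
    _ = _ := by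
        rw [ENNReal.ofReal_mul (by positivity), ENNReal.ofReal_mul (by positivity)]
        ring

end Pool.Agent.VAN
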