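import Mathlib

/-!
Assembly: decay, a local estimate with small loss and a crude global estimate give the global
estimate without loss.
-/

set_option autoImplicit false

namespace Pool.Agent.VAN

open MeasureTheory Set
open scoped ENNReal Real

/-- `L^p1` bound times sup bound. -/
theorem interp_set {X : Type*} [MeasurableSpace X] (μ : Measure X) {p1 p M : ℝ} (hp1 : 0 ≤ p1)
    (hp : p1 ≤ p) (f : X → ℂ) (A : Set X) (hA : MeasurableSet A) (hM : 0 ≤ M)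
    (hf : ∀ x ∈ A, ‖f x‖ ≤ M) :
    ∫⁻ x in A, ‖f x‖ₑ ^ p ∂μ ≤ ENNReal.ofReal (M ^ (p - p1)) * ∫⁻ x in A, ‖f x‖ₑ ^ p1 ∂μ := by
  rw [← lintegral_const_mul' _ _ ENNReal.ofReal_ne_top]
  refine setLIntegral_mono' hA fun x hx => ?_
  have h1 : ‖f x‖ₑ ^ p = ‖f x‖ₑ ^ (p - p1) * ‖f x‖ₑ ^ p1 := by
    rw [← ENNReal.rpow_add_of_nonneg _ _ (by linarith) hp1]
    congr 1
    ring
  rw [h1]
  gcongr
  rw [← ENNReal.ofReal_rpow_of_nonneg hM (by linarith), ← ofReal_norm]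
  exact ENNReal.rpow_le_rpow (ENNReal.ofReal_le_ofReal (hf x hx)) (by linarith)

theorem assemble {X : Type*} [NormedAddCommGroup X] [MeasurableSpace X] [BorelSpace X]
    (μ : Measure X) {ι : Type*} (F : ι → X → ℂ) (L : ι → ℝ) (hL : ∀ i, 1 ≤ L i) (p0 : ℝ)
    (hp0 : 0 ≤ p0)
    (dec : ∃ K κ : ℝ, 0 ≤ K ∧ 0 < κ ∧ ∀ i ξ, ‖F i ξ‖ ≤ K * (L i + ‖ξ‖) ^ (-κ))
    (crude : ∀ p : ℝ, p0 < p → ∃ C : ℝ≥0∞, C ≠ ∞ ∧ ∃ a : ℝ, ∀ i,
      ∫⁻ ξ, ‖F i ξ‖ₑ ^ p ∂μ ≤ C * ENNReal.ofReal (L i ^ a))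
    (loc : ∀ p : ℝ, p0 < p → ∀ ε : ℝ, 0 < ε → ∀ B : ℝ, ∃ C : ℝ≥0∞, C ≠ ∞ ∧ ∀ i,
      ∫⁻ ξ in {ξ : X | ‖ξ‖ ≤ L i ^ B}, ‖F i ξ‖ₑ ^ p ∂μ ≤ C * ENNReal.ofReal (L i ^ ε)) :
    ∀ p : ℝ, p0 < p → ∃ C : ℝ≥0∞, C ≠ ∞ ∧ ∀ i, ∫⁻ ξ, ‖F i ξ‖ₑ ^ p ∂μ ≤ C := by
  intro p hp
  obtain ⟨K, κ, hK, hκ, hdec⟩ := dec
  set p1 : ℝ := (p0 + p) / 2 with hp1
  have h01 : p0 < p1 := by rw [hp1]; linarith
  have h1p : p1 < p := by rw [hp1]; linarith
  obtain ⟨C1, hC1, a, hcr⟩ := crude p1 h01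
  set B : ℝ := a / (κ * (p - p1)) with hB
  have hkp : 0 < κ * (p - p1) := by
    have : 0 < p - p1 := by linarith
    positivity
  obtain ⟨C2, hC2, hloc⟩ := loc p1 h01 (κ * (p - p1)) hkp B
  refine ⟨ENNReal.ofReal (K ^ (p - p1)) * C2 + ENNReal.ofReal (K ^ (p - p1)) * C1,
    ENNReal.add_ne_top.2 ⟨ENNReal.mul_ne_top ENNReal.ofReal_ne_top hC2,
      ENNReal.mul_ne_top ENNReal.ofReal_ne_top hC1⟩, fun i => ?_⟩
  have hLi := hL i
  have hL0 : 0 < L i := by linarith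
  have hA : MeasurableSet {ξ : X | ‖ξ‖ ≤ L i ^ B} :=
    measurableSet_le measurable_norm measurable_const
  rw [← lintegral_add_compl _ hA]
  refine add_le_add ?_ ?_
  · have h1 := interp_set μ (p1 := p1) (p := p) (M := K * L i ^ (-κ)) (by linarith) h1p.le (F i)
      {ξ : X | ‖ξ‖ ≤ L i ^ B} hA (by positivity) (fun ξ _ => (hdec i ξ).trans (by
        gcongr ?_ * ?_
        exact Real.rpow_le_rpow_of_nonpos hL0 (by linarith [norm_nonneg ξ]) (by linarith)))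
    refine h1.trans ?_
    have h2 : (K * L i ^ (-κ)) ^ (p - p1) = K ^ (p - p1) * L i ^ (-(κ * (p - p1))) := by
      rw [Real.mul_rpow hK (by positivity), ← Real.rpow_mul hL0.le]
      congr 2
      ring
    rw [h2, ENNReal.ofReal_mul (by positivity), mul_assoc]
    refine mul_le_mul_right ?_ _
    calc ENNReal.ofReal (L i ^ (-(κ * (p - p1)))) *
          ∫⁻ ξ in {ξ : X | ‖ξ‖ ≤ L i ^ B}, ‖F i ξ‖ₑ ^ p1 ∂μ
        ≤ ENNReal.ofReal (L i ^ (-(κ * (p - p1)))) *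
          (C2 * ENNReal.ofReal (L i ^ (κ * (p - p1)))) := by gcongr; exact hloc i
      _ = C2 * ENNReal.ofReal (L i ^ (-(κ * (p - p1))) * L i ^ (κ * (p - p1))) := by
          rw [ENNReal.ofReal_mul (by positivity)]; ring
      _ = C2 := by
          rw [← Real.rpow_add hL0, neg_add_cancel, Real.rpow_zero, ENNReal.ofReal_one, mul_one]
  · have hB0 : 0 < L i ^ B := by positivity
    have h1 := interp_set μ (p1 := p1) (p := p) (M := K * (L i ^ B) ^ (-κ)) (by linarith) h1p.le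
      (F i) {ξ : X | ‖ξ‖ ≤ L i ^ B}ᶜ hA.compl (by positivity) (fun ξ hξ => (hdec i ξ).trans (by
        have h3 : L i ^ B < ‖ξ‖ := by simpa using hξ
        gcongr ?_ * ?_
        exact Real.rpow_le_rpow_of_nonpos hB0 (by linarith) (by linarith)))
    refine h1.trans ?_
    have h2 : (K * (L i ^ B) ^ (-κ)) ^ (p - p1) = K ^ (p - p1) * L i ^ (-a) := by
      rw [Real.mul_rpow hK (by positivity), ← Real.rpow_mul hL0.le, ← Real.rpow_mul hL0.le]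
      congr 2
      have hne : p - p1 ≠ 0 := by linarith
      rw [hB]
      field_simp
    rw [h2, ENNReal.ofReal_mul (by positivity), mul_assoc]
    refine mul_le_mul_right ?_ _
    calc ENNReal.ofReal (L i ^ (-a)) * ∫⁻ ξ in {ξ : X | ‖ξ‖ ≤ L i ^ B}ᶜ, ‖F i ξ‖ₑ ^ p1 ∂μ
        ≤ ENNReal.ofReal (L i ^ (-a)) * (C1 * ENNReal.ofReal (L i ^ a)) := by
          gcongr
          exact (setLIntegral_le_lintegral _ _).trans (hcr i)
      _ = C1 * ENNReal.ofReal (L i ^ (-a) * L i ^ a) := by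
          rw [ENNReal.ofReal_mul (by positivity)]; ring
      _ = C1 := by
          rw [← Real.rpow_add hL0, neg_add_cancel, Real.rpow_zero, ENNReal.ofReal_one, mul_one]

end Pool.Agent.VAN
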