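import Pool.Agent.MP_6cbfb8_an.LiftF
import Pool.Agent.VAN.Defs

/-!
ROW G. From a class of densities on the sphere of `R^3` to the lifted densities in `R^n`, half space
cuts and superpositions. Abstract in the class.
-/

namespace Pool.Agent.VAN

open MeasureTheory Set Pool.Agent.MP_6cbfb8_an
open scoped ENNReal Real

/-- The uniform restriction estimate for a class of densities, in the range `p > p0`. -/
def UB {n : ℕ} (p0 : ℝ) (cls : (E n → ℂ) → Prop) : Prop :=
  ∀ p : ℝ, p0 < p → ∃ C : ℝ≥0∞, C ≠ ∞ ∧ ∀ g, Measurable g → (∀ x, ‖g x‖ ≤ 1) → cls g →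
    ∫⁻ ξ, ‖extn g ξ‖ₑ ^ p ≤ C

/-- Half space cuts. -/
theorem UB.cut {n : ℕ} (hn : 3 ≤ n) {p0 : ℝ} (hp0 : 1 ≤ p0) {cls : (E n → ℂ) → Prop}
    (H : UB p0 cls) (M : ℕ) : UB p0 fun g => ∃ g0, Measurable g0 ∧ (∀ x, ‖g0 x‖ ≤ 1) ∧ cls g0 ∧
      ∃ (v : Fin M → E n) (c : Fin M → ℝ), g = fun x => g0 x * ∏ i, hsn (c i) (v i) x := by
  intro p hp
  obtain ⟨C, hC, h⟩ := multicut n hn p0 hp0 cls H M p hp
  refine ⟨C, hC, ?_⟩
  rintro g _ _ ⟨g0, hm, hb, hc, v, c, rfl⟩
  exact h g0 hm hb hc v c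

/-- The weighted densities `tpow j g`. -/
theorem UB.tpow {cls : (E 3 → ℂ) → Prop} (H : UB 3 cls) (j : ℕ) (q : ℝ) (hq : 3 < q) :
    ∃ C : ℝ≥0∞, C ≠ ∞ ∧ ∀ G : E (1 + 2) → ℂ, Measurable G → (∀ x, ‖G x‖ ≤ 1) → cls G →
      ∫⁻ ξ, ‖extn (tpow j G) ξ‖ₑ ^ q ≤ C := by
  obtain ⟨C, hC, H1⟩ := multicut 3 le_rfl 3 (by norm_num) cls H 1 q hq
  have H' : ∀ G : E 3 → ℂ, Measurable G → (∀ x, ‖G x‖ ≤ 1) → cls G → ∀ c : ℝ,
      ∫⁻ ξ : E 3, ‖extn (fun x => G x * hsn c (eLast 2) x) ξ‖ₑ ^ q ≤ C := by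
    intro G hG hb hc c
    have h1 := H1 G hG hb hc (fun _ => eLast 2) (fun _ => c)
    simpa only [Fin.prod_univ_one] using h1
  rcases j with _ | j
  · refine ⟨C, hC, fun G hG hb hc => ?_⟩
    refine le_trans (le_of_eq ?_) (H' G hG hb hc 0)
    refine lintegral_congr fun ξ => ?_
    congr 3
    funext x
    unfold MP_6cbfb8_an.tpow hsn
    rw [inner_eLast2]
    split_ifs <;> simp
  · refine ⟨C * powν j univ ^ q, ENNReal.mul_ne_top hC
      (ENNReal.rpow_ne_top_of_nonneg (by linarith) (measure_ne_top _ _)), fun G hG hb hc => ?_⟩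
    have key := lintegral_mix_le (p := q) (C := C) (by linarith)
      (fun g : E 3 → ℂ => ∃ c : ℝ, g = fun x => G x * hsn c (eLast 2) x)
      (by
        rintro g _ _ ⟨c, rfl⟩
        exact H' G hG hb hc c)
      (powν j) (fun _ => LinearIsometryEquiv.refl ℝ (E 3)) (fun _ => 0)
      (fun c x => G x * hsn c (eLast 2) x)
      measurable_snd measurable_const (by
        have h1 : Measurable fun q : ℝ × E 3 => G q.2 := hG.comp measurable_snd
        refine h1.mul ?_
        unfold hsn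
        refine Measurable.ite ?_ measurable_const measurable_const
        exact measurableSet_lt measurable_fst (by fun_prop))
      (fun c x => by
        rw [norm_mul]
        exact mul_le_one₀ (hb _) (norm_nonneg _) (norm_hsn_le _ _ _))
      (fun c => ⟨c, rfl⟩)
    refine le_trans (le_of_eq ?_) key
    have : extn (MP_6cbfb8_an.tpow (j + 1) G : E 3 → ℂ) = extn (mix (powν j)
        (fun _ => LinearIsometryEquiv.refl ℝ (E 3)) (fun _ => 0)
        (fun c x => G x * hsn c (eLast 2) x)) := by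
      refine extn_congr_sphere fun x hx => ?_
      unfold mix
      simp only [inner_zero_right, mul_zero, Complex.ofReal_zero, zero_mul,
        Complex.exp_zero, one_mul, LinearIsometryEquiv.coe_refl, id]
      rw [integral_const_mul]
      have e1 : (fun c : ℝ => hsn c (eLast 2) x) = (Iio (x (Fin.last 2))).indicator fun _ => (1:ℂ) := by
        funext c
        unfold hsn
        rw [inner_eLast2]
        by_cases h : c < x (Fin.last 2)
        · rw [if_pos h, indicator_of_mem (mem_Iio.2 h)]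
        · rw [if_neg h, indicator_of_notMem]
          exact h
      rw [e1, integral_indicator_const _ measurableSet_Iio]
      unfold MP_6cbfb8_an.tpow Measure.real
      split_ifs with h
      · rw [powν_Iio j h ((le_abs_self _).trans ((abs_last_le x).trans hx.le)),
          ENNReal.toReal_ofReal (by positivity)]
        simp
      · rw [powν_Iio_neg j (not_lt.1 h)]
        simp
    rw [← this]

/-- Lifting: from `R^3`, `p > 3`, to `R^n`, `n = 2 + l ≥ 4`, `p > 2n/(n-1)`. -/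
theorem UB.lift {cls : (E 3 → ℂ) → Prop} (H : UB 3 cls) (l : ℕ) (hl : 2 ≤ l) :
    UB (2 * ((l : ℝ) + 2) / (l + 1)) fun g : E (2 + l) → ℂ => ∃ G : E 3 → ℂ, Measurable G ∧
      (∀ x, ‖G x‖ ≤ 1) ∧ cls G ∧ g = lift (k := 2) G := by
  intro p' hp'
  obtain ⟨i, rfl⟩ : ∃ i, l = i + 2 := ⟨l - 2, by omega⟩
  have hi0 : (0:ℝ) ≤ i := Nat.cast_nonneg i
  push_cast at hp'
  have hp2 : 2 < p' := by
    refine lt_trans ?_ hp'
    rw [lt_div_iff₀ (by positivity)]
    linarith
  obtain ⟨C, hC, H1⟩ := lifting 1 i 3 (by norm_num) cls (fun j q hq => H.tpow j q hq) p' hp2 (by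
      have h1 : 2 * ((i : ℝ) + 2 + 2) / (i + 2 + 1) = 2 + 2 / (i + 3) := by field_simp; ring
      have h2 : 2 / ((i:ℝ) + 3) < p' - 2 := by linarith
      have h3 := one_div_lt_one_div_of_lt (by positivity) h2
      rw [one_div_div] at h3
      refine h3.trans_le (le_of_eq ?_)
      norm_num
      ring)
  refine ⟨C, hC, ?_⟩
  rintro g _ _ ⟨G, hG, hb, hc, rfl⟩
  exact H1 G hG hb hc

/-- Lifting with half space cuts. -/
theorem UB.liftcut {cls : (E 3 → ℂ) → Prop} (H : UB 3 cls) (l : ℕ) (hl : 2 ≤ l) (M : ℕ) :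
    UB (2 * ((l : ℝ) + 2) / (l + 1)) fun g : E (2 + l) → ℂ => ∃ G : E 3 → ℂ, Measurable G ∧
      (∀ x, ‖G x‖ ≤ 1) ∧ cls G ∧ ∃ (v : Fin M → E (2 + l)) (c : Fin M → ℝ),
        g = fun x => MP_6cbfb8_an.lift (k := 2) G x * ∏ i, hsn (c i) (v i) x := by
  have hp0 : 1 ≤ 2 * ((l : ℝ) + 2) / (l + 1) := by
    rw [le_div_iff₀ (by positivity)]
    have : (0:ℝ) ≤ l := Nat.cast_nonneg l
    linarith
  intro p hp
  obtain ⟨C, hC, h⟩ := (H.lift l hl).cut (by omega) hp0 M p hp
  refine ⟨C, hC, ?_⟩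
  rintro g hg hb ⟨G, hG, hGb, hGc, v, c, rfl⟩
  exact h _ hg hb ⟨MP_6cbfb8_an.lift (k := 2) G, measurable_lift hG, fun x => hGb _,
    ⟨G, hG, hGb, hGc, rfl⟩, v, c, rfl⟩

/-! ### Families of functions on the sphere -/

/-- The function `f` on the sphere, `0` elsewhere. -/
noncomputable def rS {n : ℕ} (f : E n → ℝ) (x : E n) : ℝ := if ‖x‖ = 1 then f x else 0

lemma G_meas_rS {n : ℕ} {f : E n → ℝ} (hf : ContinuousOn f (S n)) : Measurable (rS f) := by
  classical
  have h := hf.measurable_piecewise (g := fun _ => (0:ℝ)) (continuousOn_const)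
    (Metric.isClosed_sphere (x := (0 : E n)) (ε := 1)).measurableSet
  have e : rS f = (S n).piecewise f fun _ => 0 := by
    funext x
    unfold rS Set.piecewise
    simp
  rw [e]
  exact h

lemma G_fam_rS {n K : ℕ} (f : Fin K → E n → ℝ) (c : Fin K → ℝ) {x : E n} (hx : ‖x‖ = 1) :
    fam (fun i => rS (f i)) c x = fam f c x := by
  unfold fam rS
  simp [hx]

lemma G_famc_rS {n K N : ℕ} (f : Fin K → E n → ℝ) (a : Fin K → ℝ) (b : Fin N → Fin K → ℝ) {x : E n}
    (hx : ‖x‖ = 1) : famc (fun i => rS (f i)) a b x = famc f a b x := by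
  unfold famc
  rw [G_fam_rS f a hx]
  congr 1
  refine Finset.prod_congr rfl fun i _ => ?_
  rw [G_fam_rS f (b i) hx]

lemma G_norm_le {n K N : ℕ} (f : Fin K → E n → ℝ) (a : Fin K → ℝ) (b : Fin N → Fin K → ℝ)
    (x : E n) : ‖famc f a b x‖ ≤ 1 := by
  unfold famc
  rw [norm_mul, Complex.norm_exp_ofReal_mul_I, one_mul, norm_prod]
  refine Finset.prod_le_one (fun _ _ => norm_nonneg _) fun i _ => ?_
  split_ifs <;> simp

lemma G_meas_param {n K N : ℕ} {W : Type*} [MeasurableSpace W] {f : Fin K → E n → ℝ}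
    (hf : ∀ i, Measurable (f i)) {a : W → Fin K → ℝ} (ha : Measurable a)
    {b : W → Fin N → Fin K → ℝ} (hb : Measurable b) :
    Measurable fun q : W × E n => famc f (a q.1) (b q.1) q.2 := by
  have h1 : ∀ (u : W → Fin K → ℝ), Measurable u → Measurable fun q : W × E n => fam f (u q.1) q.2 := by
    intro u hu
    unfold fam
    refine Finset.measurable_sum _ fun i _ => ?_
    exact (((measurable_pi_apply i).comp hu).comp measurable_fst).mul ((hf i).comp measurable_snd)
  unfold famc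
  refine Measurable.mul ?_ (Finset.measurable_prod _ fun i _ => ?_)
  · have := h1 a ha
    fun_prop
  · exact Measurable.ite (measurableSet_lt measurable_const
      (h1 (fun w => b w i) ((measurable_pi_apply i).comp hb))) measurable_const measurable_const

lemma G_meas {n K N : ℕ} {f : Fin K → E n → ℝ}
    (hf : ∀ i, Measurable (f i)) (a : Fin K → ℝ) (b : Fin N → Fin K → ℝ) :
    Measurable (famc f a b) := by
  have h := G_meas_param (W := Unit) hf (a := fun _ => a) measurable_const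
    (b := fun _ => b) measurable_const
  exact h.comp (f := fun x : E n => ((), x)) (by fun_prop)

lemma G_mix_congr {n : ℕ} {W : Type*} [MeasurableSpace W] (ν : Measure W)
    (R : W → (E n ≃ₗᵢ[ℝ] E n)) (η : W → E n) {h h' : W → E n → ℂ}
    (hh : ∀ w x, ‖x‖ = 1 → h w x = h' w x) {x : E n} (hx : ‖x‖ = 1) :
    mix ν R η h x = mix ν R η h' x := by
  unfold mix
  refine integral_congr_ae (Filter.Eventually.of_forall fun w => ?_)
  simp only
  rw [hh w (R w x) (by rw [LinearIsometryEquiv.norm_map, hx])]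

/-- Superpositions in dimension three. -/
theorem mix3_of {K N : ℕ} {f : Fin K → E 3 → ℝ} (hf : ∀ i, ContinuousOn (f i) (S 3)) {p : ℝ}
    (hp : 1 ≤ p) {C : ℝ≥0∞}
    (H : ∀ (a : Fin K → ℝ) (b : Fin N → Fin K → ℝ), ∫⁻ ξ, ‖extn (famc f a b) ξ‖ₑ ^ p ≤ C)
    (W : Type) (_ : MeasurableSpace W) (ν : Measure W) (_ : IsFiniteMeasure ν)
    (R : W → (E 3 ≃ₗᵢ[ℝ] E 3)) (η : W → E 3) (a : W → Fin K → ℝ) (b : W → Fin N → Fin K → ℝ)
    (hR : Measurable fun q : W × E 3 => R q.1 q.2) (hη : Measurable η) (ha : Measurable a)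
    (hb : Measurable b) :
    ∫⁻ ξ, ‖extn (mix ν R η fun w => famc f (a w) (b w)) ξ‖ₑ ^ p ≤ C * ν univ ^ p := by
  have hf' : ∀ i, Measurable (rS (f i)) := fun i => G_meas_rS (hf i)
  have e : extn (mix ν R η fun w => famc f (a w) (b w)) =
      extn (mix ν R η fun w => famc (fun i => rS (f i)) (a w) (b w)) :=
    extn_congr_sphere fun x hx => G_mix_congr ν R η (fun w y hy => (G_famc_rS f _ _ hy).symm) hx
  rw [e]
  refine lintegral_mix_le hp (fun g => ∃ (a : Fin K → ℝ) (b : Fin N → Fin K → ℝ),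
    g = famc (fun i => rS (f i)) a b) ?_ ν R η (fun w => famc (fun i => rS (f i)) (a w) (b w)) hR hη
    (G_meas_param hf' ha hb) (fun w x => G_norm_le _ _ _ _) fun w => ⟨a w, b w, rfl⟩
  rintro g _ _ ⟨a, b, rfl⟩
  refine le_trans (le_of_eq ?_) (H a b)
  have e : extn (famc (fun i => rS (f i)) a b) = extn (famc f a b) :=
    extn_congr_sphere fun x hx => G_famc_rS f a b hx
  rw [e]

lemma G_norm_join {l : ℕ} {x : E (2 + l)} (hx : ‖x‖ = 1) :
    ‖(join (fstE (k := 2) (l := l) x) ‖(sndE x : E l)‖ : E 3)‖ = 1 := by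
  have h1 := norm_join_sq (fstE (k := 2) (l := l) x) ‖(sndE x : E l)‖
  have h2 := liftA_norm_bj_sq (fstE (k := 2) (l := l) x) (sndE x : E l)
  rw [bj_fst_snd, hx] at h2
  have h3 : ‖(join (fstE (k := 2) (l := l) x) ‖(sndE x : E l)‖ : E 3)‖ ^ 2 = 1 := by
    rw [h1, ← h2]; norm_num
  have h4 := norm_nonneg (join (fstE (k := 2) (l := l) x) ‖(sndE x : E l)‖ : E 3)
  nlinarith

/-- Superpositions in higher dimensions. -/
theorem mixhigh_of {K : ℕ} (N : ℕ) {f : Fin K → E 3 → ℝ} (hf : ∀ i, ContinuousOn (f i) (S 3))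
    (H : ∀ p : ℝ, 3 < p → ∃ C : ℝ≥0∞, C ≠ ∞ ∧ ∀ (a : Fin K → ℝ) (b : Fin N → Fin K → ℝ),
      ∫⁻ ξ, ‖extn (famc f a b) ξ‖ₑ ^ p ≤ C) (M l : ℕ) (hl : 2 ≤ l) (p : ℝ)
    (hp : 2 * ((l : ℝ) + 2) / (l + 1) < p) : ∃ C : ℝ≥0∞, C ≠ ∞ ∧
    ∀ (W : Type) (_ : MeasurableSpace W) (ν : Measure W) (_ : IsFiniteMeasure ν)
      (R : W → (E (2 + l) ≃ₗᵢ[ℝ] E (2 + l))) (η : W → E (2 + l))
      (a : W → Fin K → ℝ) (b : W → Fin N → Fin K → ℝ)
      (v : W → Fin M → E (2 + l)) (c : W → Fin M → ℝ),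
      (Measurable fun q : W × E (2 + l) => R q.1 q.2) → Measurable η → Measurable a →
      Measurable b → Measurable v → Measurable c →
      ∫⁻ ξ, ‖extn (mix ν R η fun w x =>
        lift (famc f (a w) (b w)) x * ∏ i, hsn (c w i) (v w i) x) ξ‖ₑ ^ p ≤ C * ν univ ^ p := by
  have hf' : ∀ i, Measurable (rS (f i)) := fun i => G_meas_rS (hf i)
  have hU : UB 3 fun g : E 3 → ℂ => ∃ (a : Fin K → ℝ) (b : Fin N → Fin K → ℝ),
      g = famc (fun i => rS (f i)) a b := by
    intro p hp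
    obtain ⟨C, hC, h⟩ := H p hp
    refine ⟨C, hC, ?_⟩
    rintro g _ _ ⟨a, b, rfl⟩
    refine le_trans (le_of_eq ?_) (h a b)
    have e : extn (famc (fun i => rS (f i)) a b) = extn (famc f a b) :=
      extn_congr_sphere fun x hx => G_famc_rS f a b hx
    rw [e]
  obtain ⟨C, hC, h⟩ := hU.liftcut l hl M p hp
  refine ⟨C, hC, ?_⟩
  intro W _ ν _ R η a b v c hR hη ha hb hv hc
  have hp1 : 1 ≤ p := by
    refine le_trans ?_ hp.le
    rw [le_div_iff₀ (by positivity)]
    have : (0:ℝ) ≤ l := Nat.cast_nonneg l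
    linarith
  have e : extn (mix ν R η fun w x => lift (famc f (a w) (b w)) x * ∏ i, hsn (c w i) (v w i) x) =
      extn (mix ν R η fun w x =>
        lift (famc (fun i => rS (f i)) (a w) (b w)) x * ∏ i, hsn (c w i) (v w i) x) := by
    refine extn_congr_sphere fun x hx => G_mix_congr ν R η (fun w y hy => ?_) hx
    unfold MP_6cbfb8_an.lift
    rw [G_famc_rS f (a w) (b w) (G_norm_join hy)]
  rw [e]
  refine lintegral_mix_le hp1 _ h ν R η (fun w x =>
    lift (famc (fun i => rS (f i)) (a w) (b w)) x * ∏ i, hsn (c w i) (v w i) x) hR hη ?_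
    (fun w x => ?_) (fun w => ⟨famc (fun i => rS (f i)) (a w) (b w), G_meas hf' _ _,
      G_norm_le _ _ _, ⟨a w, b w, rfl⟩, v w, c w, rfl⟩)
  · have h1 : Measurable fun q : W × E (2 + l) =>
        (q.1, (join (fstE (k := 2) (l := l) q.2) ‖(sndE q.2 : E l)‖ : E 3)) := by
      refine measurable_fst.prodMk ?_
      have h2 : Measurable fun q : W × E (2 + l) =>
          ((fstE (k := 2) (l := l) q.2 : E 2), ‖(sndE q.2 : E l)‖) :=
        (continuous_fstE.measurable.comp measurable_snd).prodMk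
          ((continuous_sndE.norm).measurable.comp measurable_snd)
      exact measurable_join.comp h2
    have h3 : Measurable fun q : W × E (2 + l) =>
        (MP_6cbfb8_an.lift (famc (fun i => rS (f i)) (a q.1) (b q.1)) q.2 : ℂ) := by
      have h7 := G_meas_param (W := W) hf' ha hb
      have h8 := h7.comp h1
      simp only [Function.comp_def] at h8
      unfold MP_6cbfb8_an.lift
      exact h8
    have h4 : Measurable fun q : W × E (2 + l) => ∏ i, hsn (c q.1 i) (v q.1 i) q.2 := by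
      refine Finset.measurable_prod _ fun i _ => ?_
      unfold hsn
      refine Measurable.ite ?_ measurable_const measurable_const
      have h5 : Measurable fun q : W × E (2 + l) => c q.1 i :=
        (measurable_pi_iff.1 hc i).comp measurable_fst
      have h6 : Measurable fun q : W × E (2 + l) => v q.1 i :=
        (measurable_pi_iff.1 hv i).comp measurable_fst
      exact measurableSet_lt h5 (measurable_snd.inner h6)
    exact h3.mul h4
  · rw [norm_mul]
    exact mul_le_one₀ (G_norm_le _ _ _ _) (norm_nonneg _) (norm_prod_hsn_le _ _ _)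

end Pool.Agent.VAN
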