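import Pool.Agent.VAN.Defs

/-!
# Reduction to families which are independent modulo affine functions on the sphere
-/

namespace Pool.Agent.VAN

open MeasureTheory Set Pool.Agent.MP_6cbfb8_an
open scoped ENNReal Real

noncomputable section

/-- Restriction to a set. -/
def resS {n : ℕ} : (E n → ℝ) →ₗ[ℝ] (S n → ℝ) where
  toFun f x := f x
  map_add' _ _ := rfl
  map_smul' _ _ := rfl

theorem resS_apply {n : ℕ} (f : E n → ℝ) (x : S n) : resS f x = f x := rfl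

/-- The general reduction modulo a subspace `A` of the functions on the sphere. -/
theorem reduce_mod {n d : ℕ} (v : Fin d → E n → ℝ) (A : Submodule ℝ (S n → ℝ)) :
    ∃ (k : ℕ) (σ : Fin k → Fin d), Function.Injective σ ∧
      (∀ a : Fin k → ℝ, (∑ j, a j • resS (v (σ j))) ∈ A → a = 0) ∧
      ∃ L : (Fin d → ℝ) →ₗ[ℝ] (Fin k → ℝ), ∀ a : Fin d → ℝ,
        (∑ i, a i • resS (v i)) - (∑ j, L a j • resS (v (σ j))) ∈ A := by
  classical
  set w : Fin d → (S n → ℝ) ⧸ A := fun i => A.mkQ (resS (v i)) with hw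
  obtain ⟨κ, a, ha, hspan, hli⟩ := exists_linearIndependent' ℝ w
  have : Finite κ := Finite.of_injective a ha
  let _ : Fintype κ := Fintype.ofFinite κ
  set k := Fintype.card κ with hk
  set e : Fin k ≃ κ := (Fintype.equivFin κ).symm with he
  have hli' : LinearIndependent ℝ (fun j : Fin k => w (a (e j))) := hli.comp e e.injective
  have hspan' : Submodule.span ℝ (range fun j : Fin k => w (a (e j))) = Submodule.span ℝ (range w) := by
    rw [← hspan]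
    congr 1
    ext y
    constructor
    · rintro ⟨j, rfl⟩
      exact ⟨e j, rfl⟩
    · rintro ⟨j, rfl⟩
      exact ⟨e.symm j, by simp⟩
  refine ⟨k, fun j => a (e j), ha.comp e.injective, ?_, ?_⟩
  · intro b hb
    have h1 : ∑ j, b j • w (a (e j)) = 0 := by
      have : A.mkQ (∑ j, b j • resS (v (a (e j)))) = 0 := (Submodule.Quotient.mk_eq_zero A).2 hb
      rw [map_sum] at this
      simpa [hw] using this
    have h2 := Fintype.linearIndependent_iff.1 hli' b h1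
    exact funext h2
  · have hmem : ∀ i : Fin d, ∃ c : Fin k → ℝ, ∑ j, c j • w (a (e j)) = w i := by
      intro i
      have : w i ∈ Submodule.span ℝ (range fun j : Fin k => w (a (e j))) := by
        rw [hspan']
        exact Submodule.subset_span ⟨i, rfl⟩
      rw [Submodule.mem_span_range_iff_exists_fun] at this
      exact this
    choose c hc using hmem
    refine ⟨{ toFun := fun b j => ∑ i, b i * c i j
              map_add' := ?_
              map_smul' := ?_ }, ?_⟩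
    · intro x y
      funext j
      simp [add_mul, Finset.sum_add_distrib]
    · intro r x
      funext j
      simp [Finset.mul_sum, mul_assoc]
    · intro b
      rw [← Submodule.Quotient.mk_eq_zero]
      change A.mkQ _ = 0
      rw [map_sub, map_sum, map_sum, sub_eq_zero]
      simp only [map_smul, LinearMap.coe_mk, AddHom.coe_mk]
      change ∑ i, b i • w i = ∑ j, (∑ i, b i * c i j) • w (a (e j))
      simp_rw [Finset.sum_smul, mul_smul]
      rw [Finset.sum_comm]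
      apply Finset.sum_congr rfl
      intro i _
      rw [← hc i, Finset.smul_sum]

/-- The affine functions on the sphere. -/
def affS (n : ℕ) : Submodule ℝ (S n → ℝ) where
  carrier := {f | ∃ (ζ : E n) (c : ℝ), ∀ x : S n, f x = inner ℝ (x : E n) ζ + c}
  add_mem' := by
    rintro f g ⟨ζ, c, hf⟩ ⟨ζ', c', hg⟩
    refine ⟨ζ + ζ', c + c', fun x => ?_⟩
    rw [Pi.add_apply, hf, hg, inner_add_right]
    ring
  zero_mem' := ⟨0, 0, fun x => by simp⟩
  smul_mem' := by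
    rintro r f ⟨ζ, c, hf⟩
    refine ⟨r • ζ, r * c, fun x => ?_⟩
    rw [Pi.smul_apply, hf, inner_smul_right, smul_eq_mul]
    ring

/-- The constant functions on the sphere. -/
def cstS (n : ℕ) : Submodule ℝ (S n → ℝ) where
  carrier := {f | ∃ (c : ℝ), ∀ x : S n, f x = c}
  add_mem' := by
    rintro f g ⟨c, hf⟩ ⟨c', hg⟩
    refine ⟨c + c', fun x => ?_⟩
    rw [Pi.add_apply, hf, hg]
  zero_mem' := ⟨0, fun x => rfl⟩
  smul_mem' := by
    rintro r f ⟨c, hf⟩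
    refine ⟨r * c, fun x => ?_⟩
    rw [Pi.smul_apply, hf, smul_eq_mul]

theorem sum_resS {n k : ℕ} (a : Fin k → ℝ) (v : Fin k → E n → ℝ) (x : S n) :
    (∑ j, a j • resS (v j)) x = ∑ j, a j * v j x := by
  simp [Finset.sum_apply, resS_apply]

/-- A linear map between the coefficient spaces is bounded. -/
theorem lin_bound {d k : ℕ} (L : (Fin d → ℝ) →ₗ[ℝ] (Fin k → ℝ)) :
    ∃ C : ℝ, 0 ≤ C ∧ ∀ a, ‖L a‖ ≤ C * ‖a‖ := by
  obtain ⟨C, hC0, hC⟩ := L.toContinuousLinearMap.bound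
  exact ⟨C, hC0.le, fun a => hC a⟩

/-- Reduction modulo affine functions. -/
theorem reduce_aff {n d : ℕ} (v : Fin d → E n → ℝ) :
    ∃ (k : ℕ) (σ : Fin k → Fin d), Function.Injective σ ∧
      (∀ (a : Fin k → ℝ) (ζ : E n) (c : ℝ),
        (∀ x ∈ S n, ∑ j, a j * v (σ j) x + inner ℝ x ζ = c) → a = 0) ∧
      ∃ L : (Fin d → ℝ) →ₗ[ℝ] (Fin k → ℝ), ∀ a : Fin d → ℝ, ∃ (ζ : E n) (c : ℝ),
        ∀ x ∈ S n, ∑ i, a i * v i x = ∑ j, L a j * v (σ j) x + inner ℝ x ζ + c := by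
  obtain ⟨k, σ, hσ, h1, L, hL⟩ := reduce_mod v (affS n)
  refine ⟨k, σ, hσ, ?_, L, ?_⟩
  · intro a ζ c h
    apply h1 a
    refine ⟨-ζ, c, fun x => ?_⟩
    rw [sum_resS, inner_neg_right, ← h x x.2]
    ring
  · intro a
    obtain ⟨ζ, c, h⟩ := hL a
    refine ⟨ζ, c, fun x hx => ?_⟩
    have := h ⟨x, hx⟩
    rw [Pi.sub_apply, sum_resS, sum_resS] at this
    linarith

/-- Reduction modulo constants. -/
theorem reduce_cst {n d : ℕ} (v : Fin d → E n → ℝ) :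
    ∃ (k : ℕ) (σ : Fin k → Fin d), Function.Injective σ ∧
      (∀ (a : Fin k → ℝ) (c : ℝ), (∀ x ∈ S n, ∑ j, a j * v (σ j) x = c) → a = 0) ∧
      ∃ L : (Fin d → ℝ) →ₗ[ℝ] (Fin k → ℝ), ∀ a : Fin d → ℝ, ∃ c : ℝ,
        ∀ x ∈ S n, ∑ i, a i * v i x = ∑ j, L a j * v (σ j) x + c := by
  obtain ⟨k, σ, hσ, h1, L, hL⟩ := reduce_mod v (cstS n)
  refine ⟨k, σ, hσ, ?_, L, ?_⟩
  · intro a c h
    apply h1 a
    refine ⟨c, fun x => ?_⟩
    rw [sum_resS, h x x.2]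
  · intro a
    obtain ⟨c, h⟩ := hL a
    refine ⟨c, fun x hx => ?_⟩
    have := h ⟨x, hx⟩
    rw [Pi.sub_apply, sum_resS, sum_resS] at this
    linarith

/-- Reduction to a linearly independent family. -/
theorem reduce_zero {n d : ℕ} (v : Fin d → E n → ℝ) :
    ∃ (k : ℕ) (σ : Fin k → Fin d), Function.Injective σ ∧
      (∀ a : Fin k → ℝ, (∀ x ∈ S n, ∑ j, a j * v (σ j) x = 0) → a = 0) ∧
      ∃ L : (Fin d → ℝ) →ₗ[ℝ] (Fin k → ℝ), ∀ a : Fin d → ℝ,
        ∀ x ∈ S n, ∑ i, a i * v i x = ∑ j, L a j * v (σ j) x := by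
  obtain ⟨k, σ, hσ, h1, L, hL⟩ := reduce_mod v ⊥
  refine ⟨k, σ, hσ, ?_, L, ?_⟩
  · intro a h
    apply h1 a
    rw [Submodule.mem_bot]
    funext x
    rw [sum_resS, h x x.2]
    rfl
  · intro a x hx
    have := hL a
    rw [Submodule.mem_bot] at this
    have := congrFun this ⟨x, hx⟩
    rw [Pi.sub_apply, sum_resS, sum_resS, Pi.zero_apply] at this
    linarith

/-- Modulation by `e^{i (⟨x, ζ⟩ + c)}` is a translation of the Fourier transform. -/
theorem extn_mod {n : ℕ} (g : E n → ℂ) (ζ : E n) (c : ℝ) (ξ : E n) :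
    extn (fun x => Complex.exp (((inner ℝ x ζ + c : ℝ) : ℂ) * Complex.I) * g x) ξ =
      Complex.exp ((c : ℂ) * Complex.I) * extn g (ξ - (2 * π)⁻¹ • ζ) := by
  unfold extn
  rw [← integral_const_mul]
  congr 1
  funext x
  rw [mul_assoc, mul_comm (g x), ← mul_assoc, ← Complex.exp_add, mul_comm (g x), ← mul_assoc,
    ← Complex.exp_add]
  congr 2
  rw [inner_sub_right, inner_smul_right]
  push_cast
  have : (π : ℂ) ≠ 0 := by exact_mod_cast Real.pi_ne_zero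
  field_simp
  ring

/-- Modulations do not change the `L^p` norm of the Fourier transform. -/
theorem lint_mod {n : ℕ} (g : E n → ℂ) (ζ : E n) (c : ℝ) (p : ℝ) :
    ∫⁻ ξ, ‖extn (fun x => Complex.exp (((inner ℝ x ζ + c : ℝ) : ℂ) * Complex.I) * g x) ξ‖ₑ ^ p =
      ∫⁻ ξ, ‖extn g ξ‖ₑ ^ p := by
  simp_rw [extn_mod]
  have h1 : ∀ ξ : E n, ‖Complex.exp ((c : ℂ) * Complex.I) * extn g (ξ - (2 * π)⁻¹ • ζ)‖ₑ ^ p =
      ‖extn g (ξ - (2 * π)⁻¹ • ζ)‖ₑ ^ p := by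
    intro ξ
    rw [enorm_mul]
    have : ‖Complex.exp ((c : ℂ) * Complex.I)‖ₑ = 1 := by
      rw [← ofReal_norm, Complex.norm_exp_ofReal_mul_I]
      simp
    rw [this, one_mul]
  simp_rw [h1]
  exact lintegral_sub_right_eq_self (fun ξ => ‖extn g ξ‖ₑ ^ p) ((2 * π)⁻¹ • ζ)

/-- Only the values on the sphere matter. -/
theorem extn_congr {n : ℕ} {g g' : E n → ℂ} (h : ∀ x ∈ S n, g x = g' x) (ξ : E n) :
    extn g ξ = extn g' ξ := by
  unfold extn
  congr 1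
  funext x
  rw [h x x.2]

/-- The norm of the transform of a phase times a density depends only on the class of the phase
modulo affine functions. -/
theorem lint_phase {n : ℕ} (g : E n → ℂ) {φ φ' : E n → ℝ} {ζ : E n} {c : ℝ}
    (h : ∀ x ∈ S n, φ x = φ' x + inner ℝ x ζ + c) (p : ℝ) :
    ∫⁻ ξ, ‖extn (fun x => Complex.exp (((φ x : ℝ) : ℂ) * Complex.I) * g x) ξ‖ₑ ^ p =
      ∫⁻ ξ, ‖extn (fun x => Complex.exp (((φ' x : ℝ) : ℂ) * Complex.I) * g x) ξ‖ₑ ^ p := by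
  rw [← lint_mod (fun x => Complex.exp (((φ' x : ℝ) : ℂ) * Complex.I) * g x) ζ c p]
  congr 1
  funext ξ
  rw [extn_congr (g' := fun x => Complex.exp (((inner ℝ x ζ + c : ℝ) : ℂ) * Complex.I) *
    (Complex.exp (((φ' x : ℝ) : ℂ) * Complex.I) * g x))]
  intro x hx
  rw [h x hx, ← mul_assoc, ← Complex.exp_add]
  congr 2
  push_cast
  ring

/-! ### The same in terms of `fam` and `famc` -/

theorem mem_S {n : ℕ} {x : E n} : x ∈ S n ↔ ‖x‖ = 1 := mem_sphere_zero_iff_norm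

/-- Reduction modulo affine functions. -/
theorem fam_reduce_aff {n d : ℕ} (φ : Fin d → E n → ℝ) :
    ∃ (k : ℕ) (σ : Fin k → Fin d), Function.Injective σ ∧
      (∀ (a : Fin k → ℝ) (ζ : E n) (c : ℝ),
        (∀ x : E n, ‖x‖ = 1 → fam (fun j => φ (σ j)) a x + inner ℝ x ζ = c) → a = 0) ∧
      ∃ L : (Fin d → ℝ) →ₗ[ℝ] (Fin k → ℝ), ∀ a : Fin d → ℝ, ∃ (ζ : E n) (c : ℝ),
        ∀ x : E n, ‖x‖ = 1 → fam φ a x = fam (fun j => φ (σ j)) (L a) x + inner ℝ x ζ + c := by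
  obtain ⟨k, σ, hσ, h1, L, hL⟩ := reduce_aff φ
  refine ⟨k, σ, hσ, fun a ζ c h => h1 a ζ c fun x hx => h x (mem_S.1 hx), L, fun a => ?_⟩
  obtain ⟨ζ, c, h⟩ := hL a
  exact ⟨ζ, c, fun x hx => h x (mem_S.2 hx)⟩

/-- Reduction modulo constants. -/
theorem fam_reduce_cst {n d : ℕ} (φ : Fin d → E n → ℝ) :
    ∃ (k : ℕ) (σ : Fin k → Fin d), Function.Injective σ ∧
      (∀ (a : Fin k → ℝ) (c : ℝ),
        (∀ x : E n, ‖x‖ = 1 → fam (fun j => φ (σ j)) a x = c) → a = 0) ∧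
      ∃ L : (Fin d → ℝ) →ₗ[ℝ] (Fin k → ℝ), ∀ a : Fin d → ℝ, ∃ c : ℝ,
        ∀ x : E n, ‖x‖ = 1 → fam φ a x = fam (fun j => φ (σ j)) (L a) x + c := by
  obtain ⟨k, σ, hσ, h1, L, hL⟩ := reduce_cst φ
  refine ⟨k, σ, hσ, fun a c h => h1 a c fun x hx => h x (mem_S.1 hx), L, fun a => ?_⟩
  obtain ⟨c, h⟩ := hL a
  exact ⟨c, fun x hx => h x (mem_S.2 hx)⟩

/-- Reduction to an independent subfamily. -/
theorem fam_reduce_zero {n d : ℕ} (φ : Fin d → E n → ℝ) :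
    ∃ (k : ℕ) (σ : Fin k → Fin d), Function.Injective σ ∧
      (∀ a : Fin k → ℝ, (∀ x : E n, ‖x‖ = 1 → fam (fun j => φ (σ j)) a x = 0) → a = 0) ∧
      ∃ L : (Fin d → ℝ) →ₗ[ℝ] (Fin k → ℝ), ∀ a : Fin d → ℝ,
        ∀ x : E n, ‖x‖ = 1 → fam φ a x = fam (fun j => φ (σ j)) (L a) x := by
  obtain ⟨k, σ, hσ, h1, L, hL⟩ := reduce_zero φ
  exact ⟨k, σ, hσ, fun a h => h1 a fun x hx => h x (mem_S.1 hx), L,
    fun a x hx => hL a x (mem_S.2 hx)⟩

/-- `famc` depends only on the values of the combinations on the sphere. -/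
theorem famc_congr {n d d' N : ℕ} {φ : Fin d → E n → ℝ} {φ' : Fin d' → E n → ℝ}
    {c : Fin d → ℝ} {c' : Fin d' → ℝ} {cs : Fin N → Fin d → ℝ} {cs' : Fin N → Fin d' → ℝ} {x : E n}
    (h : fam φ c x = fam φ' c' x) (hs : ∀ i, fam φ (cs i) x = fam φ' (cs' i) x) :
    famc φ c cs x = famc φ' c' cs' x := by
  unfold famc
  rw [h]
  simp only [hs]

theorem extn_famc_congr {n d d' N : ℕ} {φ : Fin d → E n → ℝ} {φ' : Fin d' → E n → ℝ}
    {c : Fin d → ℝ} {c' : Fin d' → ℝ} {cs : Fin N → Fin d → ℝ} {cs' : Fin N → Fin d' → ℝ}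
    (h : ∀ x : E n, ‖x‖ = 1 → fam φ c x = fam φ' c' x)
    (hs : ∀ i, ∀ x : E n, ‖x‖ = 1 → fam φ (cs i) x = fam φ' (cs' i) x) (ξ : E n) :
    extn (famc φ c cs) ξ = extn (famc φ' c' cs') ξ :=
  extn_congr (fun x hx => famc_congr (h x (mem_S.1 hx)) fun i => hs i x (mem_S.1 hx)) ξ

/-- A bound for the uncut class passes from the subfamily of `fam_reduce_aff` to the family. -/
theorem bound_of_aff {n d k : ℕ} {φ : Fin d → E n → ℝ} {φ' : Fin k → E n → ℝ}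
    (L : (Fin d → ℝ) → (Fin k → ℝ))
    (hL : ∀ a : Fin d → ℝ, ∃ (ζ : E n) (c : ℝ),
      ∀ x : E n, ‖x‖ = 1 → fam φ a x = fam φ' (L a) x + inner ℝ x ζ + c) (p : ℝ) (C : ℝ≥0∞)
    (H : ∀ a : Fin k → ℝ,
      ∫⁻ ξ, ‖extn (fun x => Complex.exp (((fam φ' a x : ℝ) : ℂ) * Complex.I)) ξ‖ₑ ^ p ≤ C)
    (a : Fin d → ℝ) :
    ∫⁻ ξ, ‖extn (fun x => Complex.exp (((fam φ a x : ℝ) : ℂ) * Complex.I)) ξ‖ₑ ^ p ≤ C := by
  obtain ⟨ζ, c, h⟩ := hL a
  have h1 := lint_phase (n := n) (fun _ => 1) (φ := fam φ a) (φ' := fam φ' (L a)) (ζ := ζ) (c := c)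
    (fun x hx => h x (mem_S.1 hx)) p
  simp only [mul_one] at h1
  rw [h1]
  exact H (L a)

/-- A bound for the cut class passes from the subfamily of `fam_reduce_zero` to the family. -/
theorem bound_of_zero {n d k N : ℕ} {φ : Fin d → E n → ℝ} {φ' : Fin k → E n → ℝ}
    (L : (Fin d → ℝ) → (Fin k → ℝ))
    (hL : ∀ a : Fin d → ℝ, ∀ x : E n, ‖x‖ = 1 → fam φ a x = fam φ' (L a) x) (p : ℝ) (C : ℝ≥0∞)
    (H : ∀ (a : Fin k → ℝ) (b : Fin N → Fin k → ℝ), ∫⁻ ξ, ‖extn (famc φ' a b) ξ‖ₑ ^ p ≤ C)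
    (a : Fin d → ℝ) (b : Fin N → Fin d → ℝ) : ∫⁻ ξ, ‖extn (famc φ a b) ξ‖ₑ ^ p ≤ C := by
  refine le_trans (le_of_eq ?_) (H (L a) fun i => L (b i))
  congr 1
  funext ξ
  rw [extn_famc_congr (hL a) (fun i => hL (b i))]

end

end Pool.Agent.VAN
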