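import Pool.Agent.VAN.A
import Pool.Agent.VAN.H70B
import Pool.Agent.VAN.Defs

/-!
Decay of the Fourier transform: averaging over rotations and van der Corput's lemma.
-/

namespace Pool.Agent.VAN.H70

open MeasureTheory Set Pool.Agent.MP_6cbfb8_an Filter Topology
open scoped ENNReal Real

/-- a smooth partition of unity on the sphere -/
theorem partition {δ : ℝ} (hδ : 0 < δ) : ∃ (n : ℕ) (x : Fin n → E 3) (χ : Fin n → E 3 → ℝ),
    (∀ i, x i ∈ S 3) ∧ (∀ i, Sm (χ i)) ∧ (∀ i, ∀ y, χ i y ≠ 0 → dist y (x i) < δ) ∧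
    ∀ y ∈ S 3, ∑ i, χ i y = 1 := by
  classical
  obtain ⟨t, htS, ht⟩ := (isCompact_sphere (0 : E 3) 1).elim_nhds_subcover
    (fun x => Metric.ball x δ) (fun x _ => Metric.ball_mem_nhds x hδ)
  let e := t.equivFin
  let x : Fin t.card → E 3 := fun i => (e.symm i : E 3)
  let b : Fin t.card → E 3 → ℝ := fun i y => Real.smoothTransition (δ ^ 2 - ‖y - x i‖ ^ 2)
  let B : E 3 → ℝ := fun y => ∑ i, b i y
  have hb0 : ∀ i y, 0 ≤ b i y := fun i y => Real.smoothTransition.nonneg _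
  have hbc : ∀ i, ContDiff ℝ ((⊤ : ℕ∞) : WithTop ℕ∞) (b i) := by
    intro i
    have h1 : ContDiff ℝ ((⊤ : ℕ∞) : WithTop ℕ∞) fun y : E 3 => δ ^ 2 - ‖y - x i‖ ^ 2 :=
      contDiff_const.sub ((contDiff_id.sub contDiff_const).norm_sq ℝ)
    exact Real.smoothTransition.contDiff.comp h1
  have hBpos : ∀ y ∈ S 3, 0 < B y := by
    intro y hy
    have h1 := ht hy
    simp only [mem_iUnion] at h1
    obtain ⟨z, hz, hyz⟩ := h1
    refine Finset.sum_pos' (fun i _ => hb0 i y) ⟨e ⟨z, hz⟩, Finset.mem_univ _, ?_⟩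
    apply Real.smoothTransition.pos_of_pos
    have h2 : x (e ⟨z, hz⟩) = z := by simp [x]
    rw [h2]
    have h3 : ‖y - z‖ < δ := by rwa [← dist_eq_norm]
    nlinarith [norm_nonneg (y - z)]
  refine ⟨t.card, x, fun i y => b i y / B y, fun i => htS _ (e.symm i).2, ?_, ?_, ?_⟩
  · intro i y hy
    have h1 : ContDiffAt ℝ ((⊤ : ℕ∞) : WithTop ℕ∞) B y :=
      (ContDiff.sum fun i _ => hbc i).contDiffAt
    exact (hbc i).contDiffAt.div h1 (hBpos y hy).ne'
  · intro i y hy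
    by_contra hcon
    apply hy
    have h1 : δ ≤ ‖y - x i‖ := by rw [← dist_eq_norm]; exact not_lt.1 hcon
    have h2 : b i y = 0 := Real.smoothTransition.zero_of_nonpos (by nlinarith)
    show b i y / B y = 0
    rw [h2, zero_div]
  · intro y hy
    show ∑ i, b i y / B y = 1
    rw [← Finset.sum_div]
    exact div_self (hBpos y hy).ne'

/-- a chain of derivatives along the rotation -/
def Chain (q : E 3 × E 3) (H : ℕ → E 3 → ℝ) : Prop :=
  ∀ x ∈ S 3, ∀ j t, HasDerivAt (fun t => H j (rot q t x)) (H (j + 1) (rot q t x)) t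

lemma bdd_on {f : E 3 → ℝ} (hf : ContinuousOn f (S 3)) : ∃ M, 0 ≤ M ∧ ∀ x ∈ S 3, |f x| ≤ M := by
  obtain ⟨M, hM⟩ := (isCompact_sphere (0 : E 3) 1).exists_bound_of_continuousOn hf
  exact ⟨max M 0, le_max_right _ _, fun x hx => (hM x hx).trans (le_max_left _ _)⟩

lemma measurable_of_contOn {f : E 3 → ℝ} (hf : ContinuousOn f (S 3)) :
    Continuous fun x : S 3 => f x :=
  continuousOn_iff_continuous_domRestrict.1 hf

theorem patch {q : E 3 × E 3} (hq : ON q) {k : ℕ} (hk : 1 ≤ k) (x0 : E 3) {δ : ℝ} (hδ : 0 < δ)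
    {χ : E 3 → ℝ} (hχ : Sm χ) (hs : ∀ y, χ y ≠ 0 → dist y x0 < δ / 2) :
    ∃ C : ℝ, 0 ≤ C ∧ ∀ (H : ℕ → E 3 → ℝ) (lam K2 : ℝ), Chain q H → ContinuousOn (H 0) (S 3) →
      0 < lam → 0 ≤ K2 → (∀ y ∈ S 3, dist y x0 < δ → lam ≤ |H k y|) →
      (∀ y ∈ S 3, |H 2 y| ≤ K2 * lam) →
      ‖∫ x : S 3, (χ x : ℂ) * Complex.exp (H 0 x * Complex.I) ∂(sm 3)‖ ≤
        C * (1 + K2) * lam ^ (-(1 / (k:ℝ))) := by
  obtain ⟨K, hK, hv⟩ := vdc k hk
  obtain ⟨M1, hM1, hM1'⟩ := bdd_on hχ.continuousOn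
  obtain ⟨M2, hM2, hM2'⟩ := bdd_on (hχ.dR q).continuousOn
  set T : ℝ := δ / 4 with hT
  have hT0 : 0 < T := by positivity
  refine ⟨K * (1 + T) ^ 2 * (M1 + M2) * (sm 3).real univ / T, by positivity, ?_⟩
  intro H lam K2 hH hH0 hlam hK2 h1 h2
  set F : S 3 → ℂ := fun x => (χ x : ℂ) * Complex.exp (H 0 x * Complex.I) with hF
  have hFc : Continuous F := by
    have h3 := measurable_of_contOn hχ.continuousOn
    have h4 := measurable_of_contOn hH0
    exact (Complex.continuous_ofReal.comp h3).mul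
      (Complex.continuous_exp.comp ((Complex.continuous_ofReal.comp h4).mul continuous_const))
  have hFb : ∀ x, ‖F x‖ ≤ M1 := by
    intro x
    rw [hF]
    simp only
    rw [norm_mul, Complex.norm_exp_ofReal_mul_I, mul_one, Complex.norm_real]
    exact hM1' x x.2
  set D : ℝ := K * (1 + T) ^ 2 * (1 + K2) * (M1 + M2) * lam ^ (-(1 / (k : ℝ))) with hD
  have hD0 : 0 ≤ D := by
    have := Real.rpow_nonneg hlam.le (-(1 / (k : ℝ)))
    positivity
  have key : ∀ x : S 3, ‖∫ t in (0:ℝ)..T, F (rotS hq t x)‖ ≤ D := by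
    intro x
    by_cases hex : ∃ t0 ∈ Icc 0 T, χ (rot q t0 x) ≠ 0
    · obtain ⟨t0, ht0, hne⟩ := hex
      have hclose : ∀ t ∈ Icc 0 T, dist (rot q t x) x0 < δ := by
        intro t ht
        have h3 := dist_rot_le hq x.2 t t0
        have h4 := hs _ hne
        have h5 : |t - t0| ≤ T := by
          rw [abs_le]
          constructor
          · linarith [ht.1, ht0.2]
          · linarith [ht.2, ht0.1]
        calc dist (rot q t x) x0 ≤ dist (rot q t x) (rot q t0 x) + dist (rot q t0 x) x0 :=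
              dist_triangle _ _ _
          _ < 2 * |t - t0| + δ / 2 := by linarith
          _ ≤ δ := by rw [hT] at h5; linarith
      have h6 := hv T hT0.le (fun j t => H j (rot q t x)) (fun j t _ => hH x x.2 j t)
        (fun t => χ (rot q t x)) (fun t => dR q χ (rot q t x))
        (fun t _ => by simpa using hχ.hasDerivAt hq x.2 0 t)
        (by
          have h7 := (hχ.dR q).continuousOn
          refine h7.comp ?_ fun t _ => rot_mem hq t x.2
          exact ((continuous_rot q).comp (continuous_id.prodMk continuous_const)).continuousOn)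
        (M1 + M2) lam K2
        (fun t _ => ⟨(hM1' _ (rot_mem hq t x.2)).trans (by linarith),
          (hM2' _ (rot_mem hq t x.2)).trans (by linarith)⟩)
        hlam hK2 (fun t ht => h1 _ (rot_mem hq t x.2) (hclose t ht))
        (fun _ t _ => h2 _ (rot_mem hq t x.2))
      exact h6
    · push Not at hex
      have h3 : ∫ t in (0:ℝ)..T, F (rotS hq t x) = 0 := by
        rw [← intervalIntegral.integral_zero (μ := volume) (a := (0:ℝ)) (b := T) (E := ℂ)]
        refine intervalIntegral.integral_congr fun t ht => ?_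
        rw [uIcc_of_le hT0.le] at ht
        have h4 := hex t ht
        show F (rotS hq t x) = 0
        rw [hF]
        simp only
        rw [rotS_coe, h4]
        simp
      rw [h3, norm_zero]
      exact hD0
  have havg := integral_avg hq hT0 F hFc.measurable M1 hFb
  have h3 : ‖(T : ℂ) * ∫ x, F x ∂(sm 3)‖ ≤ D * (sm 3).real univ := by
    rw [havg]
    exact norm_integral_le_of_norm_le_const (Eventually.of_forall key)
  rw [norm_mul, Complex.norm_real, Real.norm_eq_abs, abs_of_pos hT0] at h3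
  have h4 : ‖∫ x, F x ∂(sm 3)‖ ≤ D * (sm 3).real univ / T := by
    rw [le_div_iff₀ hT0]
    linarith
  refine h4.trans (le_of_eq ?_)
  rw [hD]
  ring

lemma dR_zero (q : E 3 × E 3) : dR q (fun _ => 0) = fun _ => 0 := by
  funext x
  unfold dR
  simp

lemma dR_smul (q : E 3 × E 3) (l : ℝ) (f : E 3 → ℝ) :
    dR q (fun x => l * f x) = fun x => l * dR q f x := by
  funext x
  unfold dR
  have h1 : (fun x => l * f x) = l • f := rfl
  rw [h1, fderiv_const_smul_field]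
  rfl

lemma iter_zero (q : E 3 × E 3) (j : ℕ) : (dR q)^[j] (fun _ => 0) = fun _ => 0 := by
  induction j with
  | zero => rfl
  | succ j ih => rw [Function.iterate_succ_apply', ih, dR_zero]

lemma iter_smul (q : E 3 × E 3) (l : ℝ) (f : E 3 → ℝ) (j : ℕ) :
    (dR q)^[j] (fun x => l * f x) = fun x => l * (dR q)^[j] f x := by
  induction j with
  | zero => rfl
  | succ j ih => rw [Function.iterate_succ_apply', ih, dR_smul, Function.iterate_succ_apply']

variable {ι : Type} [Fintype ι]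

lemma cmb_le {f : ι → E 3 → ℝ} (hf : ∀ i, Sm (f i)) (q : E 3 × E 3) (j : ℕ) :
    ∃ M : ℝ, 0 ≤ M ∧ ∀ (a : ι → ℝ), ∀ x ∈ S 3, |cmb f q j a x| ≤ M * ‖a‖ := by
  have h1 : ∀ i, ∃ M, 0 ≤ M ∧ ∀ x ∈ S 3, |(dR q)^[j] (f i) x| ≤ M :=
    fun i => bdd_on ((hf i).iter q j).continuousOn
  choose M hM hM' using h1
  refine ⟨∑ i, M i, Finset.sum_nonneg fun i _ => hM i, fun a x hx => ?_⟩
  unfold cmb
  rw [Finset.sum_mul]
  refine (Finset.abs_sum_le_sum_abs _ _).trans (Finset.sum_le_sum fun i _ => ?_)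
  rw [abs_mul, mul_comm]
  have h2 : |a i| ≤ ‖a‖ := by
    have := norm_le_pi_norm a i
    rwa [Real.norm_eq_abs] at this
  exact mul_le_mul (hM' i x hx) h2 (abs_nonneg _) (hM i)

/-- the decay, with a small perturbation -/
theorem decay_core {f : ι → E 3 → ℝ} (hf : ∀ i, AnalyticOnNhd ℝ (f i) (S 3))
    (hind : ∀ (a : ι → ℝ) (c : ℝ), (∀ x ∈ S 3, ∑ i, a i * f i x = c) → a = 0) :
    ∃ (m : ℕ) (Q : Finset ((E 3 × E 3) × ℕ)) (ε C : ℝ), 1 ≤ m ∧ 0 < ε ∧ 0 ≤ C ∧
      (∀ p ∈ Q, ON p.1) ∧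
      ∀ (a : ι → ℝ) (g : E 3 → ℝ), Sm g →
        (∀ p ∈ Q, ∀ y ∈ S 3, |(dR p.1)^[p.2] g y| ≤ ε * ‖a‖) →
        (∀ p ∈ Q, ∀ y ∈ S 3, |(dR p.1)^[2] g y| ≤ ‖a‖) →
        ‖∫ x : S 3, Complex.exp (((∑ i, a i * f i x + g x : ℝ) : ℂ) * Complex.I) ∂(sm 3)‖ ≤
          C * (1 + ‖a‖) ^ (-(1 / (m : ℝ))) := by
  classical
  have hsm : ∀ i, Sm (f i) := fun i => Sm.of_analytic (hf i)
  obtain ⟨Q, c, δ, hQ, hc, hδ, hcomp⟩ := compactness hsm {j | 1 ≤ j} (by
    intro a ha x hx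
    by_contra hcon
    push Not at hcon
    have h1 : ∀ y ∈ S 3, ∑ i, a i * f i y = ∑ i, a i * f i x := fun y hy =>
      nonflat hf a hx (fun q hq j hj => hcon q hq j hj) hy
    have h2 := hind a _ h1
    rw [h2, norm_zero] at ha
    exact zero_ne_one ha)
  obtain ⟨n, x, χ, hx, hχ, hsupp, hsum⟩ := partition (half_pos hδ)
  -- the constants of the patches
  have hpatch : ∀ (i : Fin n) (p : Q), ∃ C : ℝ, 0 ≤ C ∧ ∀ (H : ℕ → E 3 → ℝ) (lam K2 : ℝ),
      Chain p.1.1 H → ContinuousOn (H 0) (S 3) →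
      0 < lam → 0 ≤ K2 → (∀ y ∈ S 3, dist y (x i) < δ → lam ≤ |H p.1.2 y|) →
      (∀ y ∈ S 3, |H 2 y| ≤ K2 * lam) →
      ‖∫ z : S 3, (χ i z : ℂ) * Complex.exp (H 0 z * Complex.I) ∂(sm 3)‖ ≤
        C * (1 + K2) * lam ^ (-(1 / (p.1.2:ℝ))) := fun i p =>
    patch (hQ p.1 p.2).1 (hQ p.1 p.2).2 (x i) hδ (hχ i) (hsupp i)
  choose CP hCP hCP' using hpatch
  have hM : ∀ p : Q, ∃ M : ℝ, 0 ≤ M ∧ ∀ (a : ι → ℝ), ∀ x ∈ S 3, |cmb f p.1.1 2 a x| ≤ M * ‖a‖ :=
    fun p => cmb_le hsm p.1.1 2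
  choose M hM hM' using hM
  set MM : ℝ := ∑ p, M p with hMM
  have hMM0 : 0 ≤ MM := Finset.sum_nonneg fun p _ => hM p
  set K2 : ℝ := (MM + 1) / (c / 2) with hK2
  have hK20 : 0 ≤ K2 := by positivity
  set m : ℕ := Q.sup (fun p => p.2) + 1 with hm
  have hpm : ∀ p : Q, p.1.2 ≤ m := fun p =>
    (Finset.le_sup (f := fun p : (E 3 × E 3) × ℕ => p.2) p.2).trans (Nat.le_succ _)
  set σ : ℝ := (sm 3).real univ with hσ
  have hσ0 : 0 ≤ σ := measureReal_nonneg
  set C1 : ℝ := ∑ i : Fin n, ∑ p : Q, CP i p * (1 + K2) * (c / 2) ^ (-(1 / (p.1.2:ℝ))) with hC1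
  have hterm : ∀ (i : Fin n) (p : Q), 0 ≤ CP i p * (1 + K2) * (c / 2) ^ (-(1 / (p.1.2:ℝ))) := by
    intro i p
    have h1 := hCP i p
    have h2 : 0 ≤ (c / 2) ^ (-(1 / (p.1.2:ℝ))) := Real.rpow_nonneg (by positivity) _
    positivity
  have hC10 : 0 ≤ C1 := Finset.sum_nonneg fun i _ => Finset.sum_nonneg fun p _ => hterm i p
  have hm1 : (1:ℝ) ≤ m := by
    rw [hm]
    push_cast
    have : (0:ℝ) ≤ ((Q.sup (fun p => p.2) : ℕ) : ℝ) := Nat.cast_nonneg _
    linarith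
  refine ⟨m, Q, c / 2, 2 * (σ + C1), by omega, by positivity, by positivity,
    fun p hp => (hQ p hp).1, ?_⟩
  intro a g hg hg1 hg2
  have hwc : ContinuousOn (fun y => ∑ i, a i * f i y + g y) (S 3) := by
    refine ContinuousOn.add ?_ hg.continuousOn
    exact continuousOn_finsetSum _ fun i _ => continuousOn_const.mul (hsm i).continuousOn
  have hwc' := measurable_of_contOn hwc
  have htriv : ‖∫ x : S 3, Complex.exp (((∑ i, a i * f i x + g x : ℝ) : ℂ) * Complex.I) ∂(sm 3)‖ ≤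
      σ := by
    refine (norm_integral_le_of_norm_le_const (C := 1) (Eventually.of_forall fun x => ?_)).trans
      (le_of_eq (one_mul _))
    rw [Complex.norm_exp_ofReal_mul_I]
  have hna := norm_nonneg a
  have hmpos : (0:ℝ) < 1 / (m:ℝ) := by positivity
  have hm1' : 1 / (m:ℝ) ≤ 1 := by
    rw [div_le_one (by linarith)]
    exact hm1
  rcases le_or_gt ‖a‖ 1 with ha | ha
  · refine htriv.trans ?_
    have h1 : (1 / 2 : ℝ) ≤ (1 + ‖a‖) ^ (-(1 / (m : ℝ))) := by
      have h2 : (2:ℝ) ^ (-(1:ℝ)) ≤ (2:ℝ) ^ (-(1 / (m : ℝ))) :=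
        Real.rpow_le_rpow_of_exponent_le (by norm_num) (by linarith)
      have h3 : (2:ℝ) ^ (-(1 / (m : ℝ))) ≤ (1 + ‖a‖) ^ (-(1 / (m : ℝ))) :=
        Real.rpow_le_rpow_of_nonpos (by positivity) (by linarith) (by linarith)
      rw [Real.rpow_neg_one] at h2
      linarith
    nlinarith
  · -- the main case
    have ha0 : a ≠ 0 := by
      rintro rfl
      rw [norm_zero] at ha
      linarith
    set lam : ℝ := c / 2 * ‖a‖ with hlam
    have hlam0 : 0 < lam := by positivity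
    have hpt : ∀ i : Fin n, ‖∫ z : S 3, (χ i z : ℂ) *
        Complex.exp (((∑ i, a i * f i z + g z : ℝ) : ℂ) * Complex.I) ∂(sm 3)‖ ≤
        (∑ p : Q, CP i p * (1 + K2) * (c / 2) ^ (-(1 / (p.1.2:ℝ)))) *
          ‖a‖ ^ (-(1 / (m : ℝ))) := by
      intro i
      obtain ⟨p, hp, hp'⟩ := hcomp a (x i) (hx i) ha0
      set P : Q := ⟨p, hp⟩ with hP
      have hchain : Chain p.1 (fun j y => cmb f p.1 j a y + (dR p.1)^[j] g y) := by
        intro y hy j t
        exact (hasDerivAt_cmb hsm (hQ p hp).1 a hy j t).add (hg.hasDerivAt (hQ p hp).1 hy j t)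
      have h1 := hCP' i P (fun j y => cmb f p.1 j a y + (dR p.1)^[j] g y) lam K2 hchain
        (by exact hwc) hlam0 hK20
        (fun y hy hyx => by
          have h2 := hp' y hy hyx
          have h3 := hg1 p hp y hy
          have h4 : |cmb f p.1 p.2 a y| ≤ |cmb f p.1 p.2 a y + (dR p.1)^[p.2] g y| +
              |(dR p.1)^[p.2] g y| := by
            have := abs_sub (cmb f p.1 p.2 a y + (dR p.1)^[p.2] g y) ((dR p.1)^[p.2] g y)
            rwa [add_sub_cancel_right] at this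
          have h5 : c * ‖a‖ = lam + c / 2 * ‖a‖ := by rw [hlam]; ring
          show lam ≤ |cmb f p.1 p.2 a y + (dR p.1)^[p.2] g y|
          linarith)
        (fun y hy => by
          have h2 := hM' P a y hy
          have h3 := hg2 p hp y hy
          have h4 : M P ≤ MM := Finset.single_le_sum (f := M) (fun p _ => hM p) (Finset.mem_univ P)
          have h5 : K2 * lam = (MM + 1) * ‖a‖ := by
            rw [hK2, hlam]
            field_simp
          rw [h5]
          refine (abs_add_le _ _).trans ?_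
          have h6 : M P * ‖a‖ ≤ MM * ‖a‖ := mul_le_mul_of_nonneg_right h4 hna
          have h7 : |cmb f p.1 2 a y| ≤ M P * ‖a‖ := h2
          linarith)
      refine (le_of_eq ?_).trans (h1.trans ?_)
      · rfl
      · have h2 : lam ^ (-(1 / (p.2 : ℝ))) ≤ (c / 2) ^ (-(1 / (p.2:ℝ))) * ‖a‖ ^ (-(1 / (m : ℝ))) := by
          rw [hlam, Real.mul_rpow (by positivity) hna]
          apply mul_le_mul_of_nonneg_left _ (Real.rpow_nonneg (by positivity) _)
          apply Real.rpow_le_rpow_of_exponent_le ha.le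
          have h3 : (1:ℝ) ≤ p.2 := by exact_mod_cast (hQ p hp).2
          have h4 : (p.2 : ℝ) ≤ m := by exact_mod_cast hpm P
          have h5 : 1 / (m:ℝ) ≤ 1 / (p.2 : ℝ) := one_div_le_one_div_of_le (by linarith) h4
          linarith
        calc CP i P * (1 + K2) * lam ^ (-(1 / ((P.1.2 : ℕ) : ℝ)))
            ≤ CP i P * (1 + K2) * ((c / 2) ^ (-(1 / (p.2:ℝ))) * ‖a‖ ^ (-(1 / (m : ℝ)))) := by
              apply mul_le_mul_of_nonneg_left h2
              have := hCP i P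
              positivity
          _ = (CP i P * (1 + K2) * (c / 2) ^ (-(1 / ((P.1.2 : ℕ):ℝ)))) * ‖a‖ ^ (-(1 / (m : ℝ))) := by
              ring
          _ ≤ _ := by
              apply mul_le_mul_of_nonneg_right _ (Real.rpow_nonneg hna _)
              exact Finset.single_le_sum (f := fun p : Q =>
                CP i p * (1 + K2) * (c / 2) ^ (-(1 / (p.1.2:ℝ)))) (fun p _ => hterm i p)
                (Finset.mem_univ P)
    have hsplit : ∫ z : S 3, Complex.exp (((∑ i, a i * f i z + g z : ℝ) : ℂ) * Complex.I) ∂(sm 3) =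
        ∑ i : Fin n, ∫ z : S 3, (χ i z : ℂ) *
          Complex.exp (((∑ i, a i * f i z + g z : ℝ) : ℂ) * Complex.I) ∂(sm 3) := by
      rw [← integral_finsetSum]
      · refine integral_congr_ae (Eventually.of_forall fun z => ?_)
        simp only
        rw [← Finset.sum_mul, ← Complex.ofReal_sum, hsum z z.2, Complex.ofReal_one, one_mul]
      · intro i _
        obtain ⟨B, hB, hB'⟩ := bdd_on (hχ i).continuousOn
        have h3 := measurable_of_contOn (hχ i).continuousOn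
        refine Integrable.of_bound (Continuous.aestronglyMeasurable ?_) B
          (Eventually.of_forall fun z => ?_)
        · exact (Complex.continuous_ofReal.comp h3).mul
            (Complex.continuous_exp.comp ((Complex.continuous_ofReal.comp hwc').mul
              continuous_const))
        · rw [norm_mul, Complex.norm_exp_ofReal_mul_I, mul_one, Complex.norm_real]
          exact hB' z z.2
    rw [hsplit]
    have h8 : ‖∑ i : Fin n, ∫ z : S 3, (χ i z : ℂ) *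
          Complex.exp (((∑ i, a i * f i z + g z : ℝ) : ℂ) * Complex.I) ∂(sm 3)‖ ≤
        C1 * ‖a‖ ^ (-(1 / (m : ℝ))) := by
      refine (norm_sum_le _ _).trans ?_
      rw [hC1, Finset.sum_mul]
      exact Finset.sum_le_sum fun i _ => hpt i
    refine h8.trans ?_
    have h9 : ‖a‖ ^ (-(1 / (m : ℝ))) ≤ 2 * (1 + ‖a‖) ^ (-(1 / (m : ℝ))) := by
      have h10 : ((1 + ‖a‖) / 2) ^ (1 / (m:ℝ)) ≤ ‖a‖ ^ (1 / (m:ℝ)) :=
        Real.rpow_le_rpow (by positivity) (by linarith) hmpos.le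
      have h11 : (1 + ‖a‖) ^ (1 / (m:ℝ)) ≤ 2 * ((1 + ‖a‖) / 2) ^ (1 / (m:ℝ)) := by
        have h12 : (1 + ‖a‖) = 2 * ((1 + ‖a‖) / 2) := by ring
        have h13 : (1 + ‖a‖) ^ (1 / (m:ℝ)) = 2 ^ (1 / (m:ℝ)) * ((1 + ‖a‖) / 2) ^ (1 / (m:ℝ)) := by
          rw [← Real.mul_rpow (by norm_num) (by positivity), ← h12]
        rw [h13]
        apply mul_le_mul_of_nonneg_right _ (Real.rpow_nonneg (by positivity) _)
        calc (2:ℝ) ^ (1 / (m:ℝ)) ≤ 2 ^ (1:ℝ) :=
              Real.rpow_le_rpow_of_exponent_le (by norm_num) hm1'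
          _ = 2 := Real.rpow_one 2
      have h14 : 0 < (1 + ‖a‖) ^ (1 / (m:ℝ)) := Real.rpow_pos_of_pos (by positivity) _
      have h15 : 0 < ‖a‖ ^ (1 / (m:ℝ)) := Real.rpow_pos_of_pos (by linarith) _
      rw [Real.rpow_neg hna, Real.rpow_neg (by positivity), ← one_div, ← one_div,
        mul_one_div, div_le_div_iff₀ h15 h14]
      linarith
    have h16 : 0 ≤ (1 + ‖a‖) ^ (-(1 / (m : ℝ))) := Real.rpow_nonneg (by positivity) _
    calc C1 * ‖a‖ ^ (-(1 / (m : ℝ))) ≤ C1 * (2 * (1 + ‖a‖) ^ (-(1 / (m : ℝ)))) :=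
          mul_le_mul_of_nonneg_left h9 hC10
      _ ≤ 2 * (σ + C1) * (1 + ‖a‖) ^ (-(1 / (m : ℝ))) := by nlinarith

/-- the decay -/
theorem decay {f : ι → E 3 → ℝ} (hf : ∀ i, AnalyticOnNhd ℝ (f i) (S 3))
    (hind : ∀ (a : ι → ℝ) (c : ℝ), (∀ x ∈ S 3, ∑ i, a i * f i x = c) → a = 0) :
    ∃ (m : ℕ) (C : ℝ), 1 ≤ m ∧ 0 ≤ C ∧ ∀ a : ι → ℝ,
      ‖∫ x : S 3, Complex.exp (((∑ i, a i * f i x : ℝ) : ℂ) * Complex.I) ∂(sm 3)‖ ≤
        C * (1 + ‖a‖) ^ (-(1 / (m : ℝ))) := by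
  obtain ⟨m, Q, ε, C, hm, hε, hC, _, h⟩ := decay_core hf hind
  refine ⟨m, C, hm, hC, fun a => ?_⟩
  have h1 := h a (fun _ => 0) (fun x _ => contDiffAt_const)
    (fun p _ y _ => by
      rw [iter_zero, abs_zero]
      positivity)
    (fun p _ y _ => by
      rw [iter_zero, abs_zero]
      positivity)
  simpa using h1

lemma euclid_norm_le (ξ : E 3) {A : ℝ} (h : ∀ i, |ξ i| ≤ A) : ‖ξ‖ ≤ 3 * A := by
  have hA : 0 ≤ A := (abs_nonneg _).trans (h 0)
  have h1 : ‖ξ‖ ^ 2 ≤ (3 * A) ^ 2 := by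
    rw [EuclideanSpace.norm_sq_eq, Fin.sum_univ_three]
    simp only [Real.norm_eq_abs]
    have h2 : ∀ i, |ξ i| ^ 2 ≤ A ^ 2 := fun i => pow_le_pow_left₀ (abs_nonneg _) (h i) 2
    nlinarith [h2 0, h2 1, h2 2, sq_nonneg A]
  exact le_of_sq_le_sq h1 (by positivity)

end Pool.Agent.VAN.H70

namespace Pool.Agent.VAN

open MeasureTheory Set Pool.Agent.MP_6cbfb8_an Filter Topology Pool.Agent.VAN.H70
open scoped ENNReal Real

/-- the decay of the Fourier transform -/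
theorem decay_extn {d : ℕ} (φ : Fin d → E 3 → ℝ)
    (ha : ∀ j, AnalyticOnNhd ℝ (φ j) (Metric.sphere 0 1))
    (hi : ∀ (a : Fin d → ℝ) (ζ : E 3) (c : ℝ),
      (∀ x : E 3, ‖x‖ = 1 → fam φ a x + inner ℝ x ζ = c) → a = 0) :
    ∃ K κ : ℝ, 0 ≤ K ∧ 0 < κ ∧ ∀ (c : Fin d → ℝ) (ξ : E 3),
      ‖extn (fun x => Complex.exp (((fam φ c x : ℝ) : ℂ) * Complex.I)) ξ‖ ≤
        K * ((1 + ‖c‖) + ‖ξ‖) ^ (-κ) := by
  let f : Fin d ⊕ Fin 3 → E 3 → ℝ := Sum.elim φ (fun i x => x i)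
  have hf : ∀ i, AnalyticOnNhd ℝ (f i) (S 3) := by
    rintro (j | i)
    · exact ha j
    · intro x _
      exact (EuclideanSpace.proj i : E 3 →L[ℝ] ℝ).analyticAt x
  have hin : ∀ (x ζ : E 3), inner ℝ x ζ = ∑ i, ζ i * x i := by
    intro x ζ
    rw [PiLp.inner_apply]
    refine Finset.sum_congr rfl fun i _ => ?_
    simp
  have hind : ∀ (a : Fin d ⊕ Fin 3 → ℝ) (c : ℝ), (∀ x ∈ S 3, ∑ i, a i * f i x = c) → a = 0 := by
    intro a c h
    have h1 : ∀ x ∈ S 3, ∑ j, a (Sum.inl j) * φ j x + ∑ i, a (Sum.inr i) * x i = c := by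
      intro x hx
      have h2 := h x hx
      rw [Fintype.sum_sum_type] at h2
      exact h2
    have h2 : (fun j => a (Sum.inl j)) = 0 := by
      refine hi _ (WithLp.toLp 2 fun i => a (Sum.inr i)) c fun x hx => ?_
      have h3 := h1 x (by simpa using hx)
      rw [hin]
      exact h3
    have h3 : ∀ x ∈ S 3, ∑ i, a (Sum.inr i) * x i = c := by
      intro x hx
      have h4 := h1 x hx
      have h5 : ∀ j, a (Sum.inl j) = 0 := fun j => congrFun h2 j
      simpa [h5] using h4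
    have h4 : ∀ i : Fin 3, a (Sum.inr i) = c := by
      intro i
      have h5 := h3 (EuclideanSpace.single i 1) (by simp)
      simpa [Pi.single_apply] using h5
    have h5 : ∀ i : Fin 3, -a (Sum.inr i) = c := by
      intro i
      have h5 := h3 (EuclideanSpace.single i (-1)) (by simp)
      simpa [Pi.single_apply] using h5
    funext i
    rcases i with j | i
    · exact congrFun h2 j
    · have e1 := h4 i
      have e2 := h5 i
      show a (Sum.inr i) = 0
      linarith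
  obtain ⟨m, C, hm, hC, h⟩ := decay hf hind
  have hm' : (0:ℝ) < m := by exact_mod_cast hm
  have hm1 : (1:ℝ) ≤ m := by exact_mod_cast hm
  refine ⟨2 * C, 1 / (m:ℝ), by positivity, by positivity, fun c ξ => ?_⟩
  set a : Fin d ⊕ Fin 3 → ℝ := Sum.elim c (fun i => -(2 * π * ξ i)) with hadef
  have h1 := h a
  have h2 : extn (fun x => Complex.exp (((fam φ c x : ℝ) : ℂ) * Complex.I)) ξ =
      ∫ x : S 3, Complex.exp (((∑ i, a i * f i x : ℝ) : ℂ) * Complex.I) ∂(sm 3) := by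
    unfold extn
    refine integral_congr_ae (Eventually.of_forall fun x => ?_)
    simp only
    rw [← Complex.exp_add, ← add_mul, ← Complex.ofReal_add]
    congr 3
    rw [Fintype.sum_sum_type, hin]
    simp only [hadef, f, Sum.elim_inl, Sum.elim_inr, fam]
    rw [Finset.mul_sum, ← Finset.sum_neg_distrib]
    congr 1
    refine Finset.sum_congr rfl fun i _ => ?_
    ring
  rw [h2]
  refine h1.trans ?_
  have hna := norm_nonneg a
  have hnc := norm_nonneg c
  have hnx := norm_nonneg ξ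
  have h3 : ‖c‖ ≤ ‖a‖ := by
    rw [pi_norm_le_iff_of_nonneg hna]
    intro j
    exact norm_le_pi_norm a (Sum.inl j)
  have h4 : ‖ξ‖ ≤ ‖a‖ := by
    have h5 : ∀ i, |ξ i| ≤ ‖a‖ / 6 := by
      intro i
      have h6 := norm_le_pi_norm a (Sum.inr i)
      have h7 : ‖a (Sum.inr i)‖ = 2 * π * |ξ i| := by
        rw [hadef, Sum.elim_inr, Real.norm_eq_abs, abs_neg, abs_mul, abs_of_pos (by positivity)]
      rw [h7] at h6
      have h8 : 6 * |ξ i| ≤ 2 * π * |ξ i| :=
        mul_le_mul_of_nonneg_right (by linarith [Real.pi_gt_three]) (abs_nonneg _)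
      linarith
    have h6 := euclid_norm_le ξ h5
    linarith
  have hbase : ((1 + ‖c‖) + ‖ξ‖) / 2 ≤ 1 + ‖a‖ := by linarith
  have hpos : 0 < (1 + ‖c‖) + ‖ξ‖ := by positivity
  have h5 : (1 + ‖a‖) ^ (-(1 / (m:ℝ))) ≤ (((1 + ‖c‖) + ‖ξ‖) / 2) ^ (-(1 / (m:ℝ))) :=
    Real.rpow_le_rpow_of_nonpos (by positivity) hbase (by
      have : 0 < 1 / (m:ℝ) := by positivity
      linarith)
  have h6 : (((1 + ‖c‖) + ‖ξ‖) / 2) ^ (-(1 / (m:ℝ))) ≤ 2 * ((1 + ‖c‖) + ‖ξ‖) ^ (-(1 / (m:ℝ))) := by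
    rw [Real.div_rpow hpos.le (by norm_num), Real.rpow_neg (by norm_num : (0:ℝ) ≤ 2), div_inv_eq_mul,
      mul_comm]
    apply mul_le_mul_of_nonneg_right _ (Real.rpow_nonneg hpos.le _)
    calc (2:ℝ) ^ (1 / (m:ℝ)) ≤ 2 ^ (1:ℝ) :=
          Real.rpow_le_rpow_of_exponent_le (by norm_num) (by
            rw [div_le_one hm']
            exact hm1)
      _ = 2 := Real.rpow_one 2
  calc C * (1 + ‖a‖) ^ (-(1 / (m:ℝ))) ≤ C * (2 * ((1 + ‖c‖) + ‖ξ‖) ^ (-(1 / (m:ℝ)))) :=
        mul_le_mul_of_nonneg_left (h5.trans h6) hC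
    _ = 2 * C * ((1 + ‖c‖) + ‖ξ‖) ^ (-(1 / (m:ℝ))) := by ring

end Pool.Agent.VAN
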