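import Pool.Agent.VAN.Defs

/-!
Almost every smooth phase is nonflat (row K): algebra of the derivations along the rotations in the
coordinate planes.
-/

set_option autoImplicit false

namespace Pool.Agent.VAN.K

open MeasureTheory Set Pool.Agent.MP_6cbfb8_an
open scoped ENNReal Real ContDiff

/-- The derivative of `f` along the rotations in the plane of the coordinates `i` and `l`. -/
noncomputable def rotD (i l : Fin 3) (f : E 3 → ℝ) (x : E 3) : ℝ :=
  fderiv ℝ f x (x l • EuclideanSpace.single i 1 - x i • EuclideanSpace.single l 1)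

variable {i l j : Fin 3}

lemma fderiv_coord (m : Fin 3) (x v : E 3) : fderiv ℝ (fun x : E 3 => x m) x v = v m := by
  have h : HasFDerivAt (fun x : E 3 => x m) (EuclideanSpace.proj m : E 3 →L[ℝ] ℝ) x :=
    (EuclideanSpace.proj m : E 3 →L[ℝ] ℝ).hasFDerivAt
  rw [h.fderiv]
  rfl

lemma rotD_add {f g : E 3 → ℝ} (hf : Differentiable ℝ f) (hg : Differentiable ℝ g) :
    rotD i l (fun x => f x + g x) = fun x => rotD i l f x + rotD i l g x := by
  funext x
  unfold rotD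
  rw [fderiv_fun_add (hf x) (hg x)]
  rfl

lemma rotD_mul {f g : E 3 → ℝ} (hf : Differentiable ℝ f) (hg : Differentiable ℝ g) :
    rotD i l (fun x => f x * g x) = fun x => f x * rotD i l g x + g x * rotD i l f x := by
  funext x
  unfold rotD
  rw [fderiv_fun_mul (hf x) (hg x)]
  simp

lemma rotD_const (c : ℝ) : rotD i l (fun _ : E 3 => c) = fun _ => 0 := by
  funext x
  unfold rotD
  simp

lemma rotD_cmul (c : ℝ) {f : E 3 → ℝ} (hf : Differentiable ℝ f) :
    rotD i l (fun x => c * f x) = fun x => c * rotD i l f x := by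
  rw [rotD_mul (by fun_prop) hf]
  simp [rotD_const]

lemma rotD_pow {f : E 3 → ℝ} (hf : Differentiable ℝ f) (n : ℕ) :
    rotD i l (fun x => f x ^ (n + 1)) = fun x => (n + 1) * f x ^ n * rotD i l f x := by
  funext x
  unfold rotD
  rw [fderiv_fun_pow (n + 1) (hf x)]
  simp

lemma rotD_i (h : i ≠ l) : rotD i l (fun x => x i) = fun x => x l := by
  funext x
  unfold rotD
  rw [fderiv_coord]
  simp [h]

lemma rotD_l (h : i ≠ l) : rotD i l (fun x => x l) = fun x => - x i := by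
  funext x
  unfold rotD
  rw [fderiv_coord]
  simp [h.symm]

lemma rotD_j (h : j ≠ i) (h' : j ≠ l) : rotD i l (fun x => x j) = fun _ => 0 := by
  funext x
  unfold rotD
  rw [fderiv_coord]
  simp [h, h']

lemma contDiff_rotD {f : E 3 → ℝ} (hf : ContDiff ℝ ∞ f) : ContDiff ℝ ∞ (rotD i l f) := by
  unfold rotD
  have h1 : ContDiff ℝ ∞ (fun x => fderiv ℝ f x) := hf.fderiv_right (by simp)
  have h2 : ContDiff ℝ ∞ (fun x : E 3 =>
      x l • (EuclideanSpace.single i (1:ℝ) : E 3) - x i • (EuclideanSpace.single l (1:ℝ) : E 3)) := by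
    fun_prop
  exact h1.clm_apply h2

lemma contDiff_iter {f : E 3 → ℝ} (hf : ContDiff ℝ ∞ f) (k : ℕ) :
    ContDiff ℝ ∞ ((rotD i l)^[k] f) := by
  induction k with
  | zero => simpa using hf
  | succ k ih => rw [Function.iterate_succ_apply']; exact contDiff_rotD ih

lemma iter_add {f g : E 3 → ℝ} (hf : ContDiff ℝ ∞ f) (hg : ContDiff ℝ ∞ g) (k : ℕ) :
    (rotD i l)^[k] (fun x => f x + g x) = fun x => (rotD i l)^[k] f x + (rotD i l)^[k] g x := by
  induction k with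
  | zero => simp
  | succ k ih =>
    rw [Function.iterate_succ_apply', ih, Function.iterate_succ_apply',
      Function.iterate_succ_apply']
    exact rotD_add ((contDiff_iter hf k).differentiable (by simp))
      ((contDiff_iter hg k).differentiable (by simp))

lemma iter_cmul (c : ℝ) {f : E 3 → ℝ} (hf : ContDiff ℝ ∞ f) (k : ℕ) :
    (rotD i l)^[k] (fun x => c * f x) = fun x => c * (rotD i l)^[k] f x := by
  induction k with
  | zero => simp
  | succ k ih =>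
    rw [Function.iterate_succ_apply', ih, Function.iterate_succ_apply']
    exact rotD_cmul c ((contDiff_iter hf k).differentiable (by simp))

/-- The cubic perturbation together with the linear part. -/
noncomputable def qf (b d ξ : Fin 3 → ℝ) (x : E 3) : ℝ :=
  ∑ m, (b m * x m ^ 2 + d m * x m ^ 3 + ξ m * x m)

lemma contDiff_qf (b d ξ : Fin 3 → ℝ) : ContDiff ℝ ∞ (qf b d ξ) := by
  unfold qf
  fun_prop

lemma sum_three (hil : i ≠ l) (hij : i ≠ j) (hjl : j ≠ l) (f : Fin 3 → ℝ) :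
    ∑ m, f m = f i + f l + f j := by
  rw [Fin.sum_univ_three]
  fin_cases i <;> fin_cases l <;> fin_cases j <;> simp_all <;> ring

lemma qf_D1 (hil : i ≠ l) (hij : i ≠ j) (hjl : j ≠ l) (b d ξ : Fin 3 → ℝ) :
    rotD i l (qf b d ξ) = fun x =>
      2 * b i * (x i * x l) + 3 * d i * (x i ^ 2 * x l) + ξ i * x l
        - 2 * b l * (x i * x l) - 3 * d l * (x l ^ 2 * x i) - ξ l * x i := by
  have h0 : qf b d ξ = fun x => (b i * x i ^ 2 + d i * x i ^ 3 + ξ i * x i) +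
      (b l * x l ^ 2 + d l * x l ^ 3 + ξ l * x l) + (b j * x j ^ 2 + d j * x j ^ 3 + ξ j * x j) := by
    funext x
    exact sum_three hil hij hjl _
  rw [h0]
  simp (disch := fun_prop) only [rotD_add, rotD_cmul, rotD_pow, rotD_i hil, rotD_l hil,
    rotD_j hij.symm hjl]
  funext x
  push_cast
  ring

lemma D2_aux (hil : i ≠ l) (A B C D' F G : ℝ) :
    rotD i l (fun x => A * (x i * x l) + B * (x i ^ 2 * x l) + C * x l
        + D' * (x l ^ 2 * x i) + F * x i + G) = fun x =>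
      A * (x l ^ 2 - x i ^ 2) + B * (2 * (x i * x l ^ 2) - x i ^ 3) - C * x i
        + D' * (x l ^ 3 - 2 * (x l * x i ^ 2)) + F * x l := by
  simp (disch := fun_prop) only [rotD_add, rotD_mul, rotD_const, rotD_pow, rotD_i hil, rotD_l hil]
  funext x
  push_cast
  ring

lemma D3_aux (hil : i ≠ l) (A B C D' F : ℝ) :
    rotD i l (fun x => A * (x l ^ 2 + -1 * x i ^ 2) + B * (2 * (x i * x l ^ 2) + -1 * x i ^ 3)
        + C * x i + D' * (x l ^ 3 + -2 * (x l * x i ^ 2)) + F * x l) = fun x =>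
      -4 * A * (x i * x l) + B * (2 * x l ^ 3 - 7 * (x i ^ 2 * x l)) + C * x l
        + D' * (2 * x i ^ 3 - 7 * (x l ^ 2 * x i)) - F * x i := by
  simp (disch := fun_prop) only [rotD_add, rotD_mul, rotD_const, rotD_pow, rotD_i hil, rotD_l hil]
  funext x
  push_cast
  ring

lemma qf_D2 (hil : i ≠ l) (hij : i ≠ j) (hjl : j ≠ l) (b d ξ : Fin 3 → ℝ) :
    (rotD i l)^[2] (qf b d ξ) = fun x =>
      (2 * b i - 2 * b l) * (x l ^ 2 - x i ^ 2) + 3 * d i * (2 * (x i * x l ^ 2) - x i ^ 3)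
        - ξ i * x i - 3 * d l * (x l ^ 3 - 2 * (x l * x i ^ 2)) - ξ l * x l := by
  rw [Function.iterate_succ_apply', Function.iterate_one, qf_D1 hil hij hjl]
  have h := D2_aux hil (2 * b i - 2 * b l) (3 * d i) (ξ i) (-3 * d l) (-ξ l) 0
  have h1 : (fun x : E 3 => 2 * b i * (x i * x l) + 3 * d i * (x i ^ 2 * x l) + ξ i * x l
        - 2 * b l * (x i * x l) - 3 * d l * (x l ^ 2 * x i) - ξ l * x i) =
      fun x => (2 * b i - 2 * b l) * (x i * x l) + 3 * d i * (x i ^ 2 * x l) + ξ i * x l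
        + -3 * d l * (x l ^ 2 * x i) + -ξ l * x i + 0 := by
    funext x; ring
  rw [h1, h]
  funext x; ring

lemma qf_D3 (hil : i ≠ l) (hij : i ≠ j) (hjl : j ≠ l) (b d ξ : Fin 3 → ℝ) :
    (rotD i l)^[3] (qf b d ξ) = fun x =>
      -4 * (2 * b i - 2 * b l) * (x i * x l) + 3 * d i * (2 * x l ^ 3 - 7 * (x i ^ 2 * x l))
        - ξ i * x l - 3 * d l * (2 * x i ^ 3 - 7 * (x l ^ 2 * x i)) + ξ l * x i := by
  rw [Function.iterate_succ_apply', qf_D2 hil hij hjl]
  have h := D3_aux hil (2 * b i - 2 * b l) (3 * d i) (-ξ i) (-3 * d l) (-ξ l)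
  have h1 : (fun x : E 3 =>
      (2 * b i - 2 * b l) * (x l ^ 2 - x i ^ 2) + 3 * d i * (2 * (x i * x l ^ 2) - x i ^ 3)
        - ξ i * x i - 3 * d l * (x l ^ 3 - 2 * (x l * x i ^ 2)) - ξ l * x l) =
      fun x => (2 * b i - 2 * b l) * (x l ^ 2 + -1 * x i ^ 2)
        + 3 * d i * (2 * (x i * x l ^ 2) + -1 * x i ^ 3)
        + -ξ i * x i + -3 * d l * (x l ^ 3 + -2 * (x l * x i ^ 2)) + -ξ l * x l := by
    funext x; ring
  rw [h1, h]
  funext x; ring

/-- The coefficient of `x_i^3` solved from the three equations; `g1, g2, g3` derivatives of the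
given phase, `a = x_i`, `c = x_l`. -/
noncomputable def dS (g1 g2 g3 a c ξ b d : ℝ) : ℝ :=
  -(((g1 - 2 * b * (a * c) - 3 * d * (c ^ 2 * a) - ξ * a) +
      (g3 + 8 * b * (a * c) - 3 * d * (2 * a ^ 3 - 7 * (c ^ 2 * a)) + ξ * a)) / c +
    3 * a * ((a * (g1 - 2 * b * (a * c) - 3 * d * (c ^ 2 * a) - ξ * a) +
      c * (g2 - 2 * b * (c ^ 2 - a ^ 2) - 3 * d * (c ^ 3 - 2 * (c * a ^ 2)) - ξ * c)) / c ^ 3)) /
    (6 * c ^ 2)

/-- The coefficient of `x_i^2` solved from the three equations. -/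
noncomputable def bS (g1 g2 g3 a c ξ b d : ℝ) : ℝ :=
  -((a * (g1 - 2 * b * (a * c) - 3 * d * (c ^ 2 * a) - ξ * a) +
      c * (g2 - 2 * b * (c ^ 2 - a ^ 2) - 3 * d * (c ^ 3 - 2 * (c * a ^ 2)) - ξ * c)) / c ^ 3) / 2
    - 3 * dS g1 g2 g3 a c ξ b d * a

lemma solve {g1 g2 g3 a c ξ b d B D X : ℝ} (hc : c ≠ 0)
    (h1 : g1 + (2 * B * (a * c) + 3 * D * (a ^ 2 * c) + X * c - 2 * b * (a * c)
      - 3 * d * (c ^ 2 * a) - ξ * a) = 0)
    (h2 : g2 + ((2 * B - 2 * b) * (c ^ 2 - a ^ 2) + 3 * D * (2 * (a * c ^ 2) - a ^ 3)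
        - X * a - 3 * d * (c ^ 3 - 2 * (c * a ^ 2)) - ξ * c) = 0)
    (h3 : g3 + (-4 * (2 * B - 2 * b) * (a * c) + 3 * D * (2 * c ^ 3 - 7 * (a ^ 2 * c))
        - X * c - 3 * d * (2 * a ^ 3 - 7 * (c ^ 2 * a)) + ξ * a) = 0) :
    D = dS g1 g2 g3 a c ξ b d ∧ B = bS g1 g2 g3 a c ξ b d := by
  set R1 : ℝ := g1 - 2 * b * (a * c) - 3 * d * (c ^ 2 * a) - ξ * a with hR1
  set R2 : ℝ := g2 - 2 * b * (c ^ 2 - a ^ 2) - 3 * d * (c ^ 3 - 2 * (c * a ^ 2)) - ξ * c with hR2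
  set R3 : ℝ := g3 + 8 * b * (a * c) - 3 * d * (2 * a ^ 3 - 7 * (c ^ 2 * a)) + ξ * a with hR3
  have e1 : R1 + 2 * B * (a * c) + 3 * D * (a ^ 2 * c) + X * c = 0 := by rw [hR1]; linarith
  have e2 : R2 + 2 * B * (c ^ 2 - a ^ 2) + 3 * D * (2 * (a * c ^ 2) - a ^ 3) - X * a = 0 := by
    rw [hR2]; linarith
  have e3 : R3 - 8 * B * (a * c) + 3 * D * (2 * c ^ 3 - 7 * (a ^ 2 * c)) - X * c = 0 := by
    rw [hR3]; linarith
  have f1 : (R1 + R3) / c = 6 * B * a - D * (6 * c ^ 2 - 18 * a ^ 2) := by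
    rw [div_eq_iff hc]; linear_combination e1 + e3
  have f2 : (a * R1 + c * R2) / c ^ 3 = - (2 * B + 6 * D * a) := by
    rw [div_eq_iff (pow_ne_zero 3 hc)]; linear_combination a * e1 + c * e2
  have hD : D = dS g1 g2 g3 a c ξ b d := by
    unfold dS
    rw [← hR1, ← hR2, ← hR3, f1, f2, eq_div_iff (by positivity)]
    ring
  refine ⟨hD, ?_⟩
  unfold bS
  rw [← hD, ← hR1, ← hR2, f2]
  ring

lemma differentiableAt_dS {V : Type*} [NormedAddCommGroup V] [NormedSpace ℝ V] {w : V}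
    {g1 g2 g3 a c ξ b d : V → ℝ} (h1 : DifferentiableAt ℝ g1 w) (h2 : DifferentiableAt ℝ g2 w)
    (h3 : DifferentiableAt ℝ g3 w) (ha : DifferentiableAt ℝ a w) (hc : DifferentiableAt ℝ c w)
    (hξ : DifferentiableAt ℝ ξ w) (hb : DifferentiableAt ℝ b w) (hd : DifferentiableAt ℝ d w)
    (h0 : c w ≠ 0) :
    DifferentiableAt ℝ (fun w => dS (g1 w) (g2 w) (g3 w) (a w) (c w) (ξ w) (b w) (d w)) w := by
  unfold dS
  have hc2 : (6 * c w ^ 2) ≠ 0 := by positivity
  have hc3 : c w ^ 3 ≠ 0 := pow_ne_zero 3 h0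
  fun_prop (disch := assumption)

lemma differentiableAt_bS {V : Type*} [NormedAddCommGroup V] [NormedSpace ℝ V] {w : V}
    {g1 g2 g3 a c ξ b d : V → ℝ} (h1 : DifferentiableAt ℝ g1 w) (h2 : DifferentiableAt ℝ g2 w)
    (h3 : DifferentiableAt ℝ g3 w) (ha : DifferentiableAt ℝ a w) (hc : DifferentiableAt ℝ c w)
    (hξ : DifferentiableAt ℝ ξ w) (hb : DifferentiableAt ℝ b w) (hd : DifferentiableAt ℝ d w)
    (h0 : c w ≠ 0) :
    DifferentiableAt ℝ (fun w => bS (g1 w) (g2 w) (g3 w) (a w) (c w) (ξ w) (b w) (d w)) w := by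
  have h := differentiableAt_dS h1 h2 h3 ha hc hξ hb hd h0
  unfold bS
  have hc3 : c w ^ 3 ≠ 0 := pow_ne_zero 3 h0
  fun_prop (disch := assumption)

end Pool.Agent.VAN.K
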