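import Pool.Agent.VAN.B3
import Pool.Agent.PPH.B1a

/-!
Sublevel sets of analytic families on the sphere.
-/

namespace Pool.Agent.VAN.H70

open MeasureTheory Set Pool.Agent.MP_6cbfb8_an Filter Topology
open scoped ENNReal Real

variable {ι : Type} [Fintype ι]

/-- one patch -/
theorem sub_patch {f : ι → E 3 → ℝ} (hf : ∀ i, Sm (f i)) {q : E 3 × E 3} (hq : ON q) (k : ℕ)
    (x0 : E 3) {δ : ℝ} (hδ : 0 < δ) : ∃ C : ℝ, 0 ≤ C ∧ ∀ (a : ι → ℝ) (lam e : ℝ), 0 < lam → 0 < e →
      (∀ y ∈ S 3, dist y x0 < δ → lam ≤ |cmb f q (k + 1) a y|) →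
      (sm 3) {x : S 3 | dist (x : E 3) x0 < δ / 2 ∧ |cmb f q 0 a x| ≤ e} ≤
        ENNReal.ofReal (C * (e / lam) ^ (1 / ((k + 1 : ℕ):ℝ))) := by
  obtain ⟨K, hK, hsub⟩ := PPH.b1a_pos k
  set T : ℝ := δ / 4 with hT
  have hT0 : 0 < T := by positivity
  set σ : ℝ := (sm 3).real univ with hσ
  have hσ0 : 0 ≤ σ := measureReal_nonneg
  refine ⟨K * σ / T, by positivity, ?_⟩
  intro a lam e hlam he h
  have hcc : Continuous fun x : S 3 => cmb f q 0 a x :=
    (continuous_cmb hf q 0).comp (continuous_const.prodMk continuous_id)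
  set G : Set (S 3) := {x : S 3 | dist (x : E 3) x0 < δ / 2 ∧ |cmb f q 0 a x| ≤ e} with hG
  have hGm : MeasurableSet G := by
    refine MeasurableSet.inter ?_ ?_
    · exact (isOpen_lt (continuous_subtype_val.dist continuous_const) continuous_const).measurableSet
    · exact (isClosed_le hcc.abs continuous_const).measurableSet
  set B : ℝ := K * (e / lam) ^ (1 / ((k + 1 : ℕ):ℝ)) with hB
  have hB0 : 0 ≤ B := by
    have := Real.rpow_nonneg (div_pos he hlam).le (1 / ((k + 1 : ℕ):ℝ))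
    positivity
  have hinner : ∀ x : S 3, ∫⁻ t in Icc 0 T, G.indicator (fun _ => (1:ℝ≥0∞)) (rotS hq t x) ≤
      ENNReal.ofReal B := by
    intro x
    have hcr : Continuous fun t => rotS hq t x :=
      (continuous_rotS hq).comp (continuous_id.prodMk continuous_const)
    have hpre : MeasurableSet ((fun t => rotS hq t x) ⁻¹' G) := hcr.measurable hGm
    have e1 : ∫⁻ t in Icc 0 T, G.indicator (fun _ => (1:ℝ≥0∞)) (rotS hq t x) =
        volume (((fun t => rotS hq t x) ⁻¹' G) ∩ Icc 0 T) := by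
      have : (fun t => G.indicator (fun _ => (1:ℝ≥0∞)) (rotS hq t x)) =
          ((fun t => rotS hq t x) ⁻¹' G).indicator (fun _ => (1:ℝ≥0∞)) := by
        funext t
        rfl
      rw [this, lintegral_indicator hpre, setLIntegral_one, Measure.restrict_apply hpre]
    rw [e1]
    by_cases hex : ∃ t0 ∈ Icc 0 T, rotS hq t0 x ∈ G
    · obtain ⟨t0, ht0, hmem⟩ := hex
      have hclose : ∀ t ∈ Icc 0 T, dist (rot q t x) x0 < δ := by
        intro t ht
        have h3 := dist_rot_le hq x.2 t t0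
        have h4 : dist (rot q t0 x) x0 < δ / 2 := hmem.1
        have h5 : |t - t0| ≤ T := by
          rw [abs_le]
          constructor
          · linarith [ht.1, ht0.2]
          · linarith [ht.2, ht0.1]
        calc dist (rot q t x) x0 ≤ dist (rot q t x) (rot q t0 x) + dist (rot q t0 x) x0 :=
              dist_triangle _ _ _
          _ < 2 * |t - t0| + δ / 2 := by linarith
          _ ≤ δ := by rw [hT] at h5; linarith
      have h6 := hsub (Icc 0 T) ordConnected_Icc (fun j t => cmb f q j a (rot q t x))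
        (fun j _ t _ => hasDerivAt_cmb hf hq a x.2 j t) e lam he hlam
        (fun t ht => h _ (rot_mem hq t x.2) (hclose t ht))
      refine (measure_mono ?_).trans h6
      rintro t ⟨ht, ht'⟩
      exact ⟨ht', ht.2⟩
    · push Not at hex
      have : ((fun t => rotS hq t x) ⁻¹' G) ∩ Icc 0 T = ∅ := by
        ext t
        simp only [mem_inter_iff, mem_preimage, mem_empty_iff_false, iff_false, not_and]
        intro h1 h2
        exact hex t h2 h1
      rw [this, measure_empty]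
      exact zero_le
  have havg := lintegral_avg hq T (G.indicator fun _ => (1:ℝ≥0∞)) (measurable_const.indicator hGm)
  rw [lintegral_indicator hGm, setLIntegral_one] at havg
  have h1 : ENNReal.ofReal T * sm 3 G ≤ ENNReal.ofReal B * sm 3 univ := by
    rw [havg]
    refine (lintegral_mono hinner).trans ?_
    rw [lintegral_const]
  have h2 : T * (sm 3).real G ≤ B * σ := by
    have h3 := ENNReal.toReal_mono (ENNReal.mul_ne_top ENNReal.ofReal_ne_top (measure_ne_top _ _)) h1
    rw [ENNReal.toReal_mul, ENNReal.toReal_mul, ENNReal.toReal_ofReal hT0.le,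
      ENNReal.toReal_ofReal hB0] at h3
    exact h3
  rw [← ofReal_measureReal]
  apply ENNReal.ofReal_le_ofReal
  have h3 : (sm 3).real G ≤ B * σ / T := by
    rw [le_div_iff₀ hT0]
    linarith
  refine h3.trans (le_of_eq ?_)
  rw [hB]
  ring

/-- sublevel sets, positive levels -/
theorem sublevel_pos {f : ι → E 3 → ℝ} (hf : ∀ i, AnalyticOnNhd ℝ (f i) (S 3))
    (hind : ∀ a : ι → ℝ, (∀ x ∈ S 3, ∑ i, a i * f i x = 0) → a = 0) :
    ∃ K κ : ℝ, 0 ≤ K ∧ 0 < κ ∧ ∀ a : ι → ℝ, ‖a‖ = 1 → ∀ e : ℝ, 0 < e →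
      sm 3 {x : S 3 | |∑ i, a i * f i x| ≤ e} ≤ ENNReal.ofReal (K * e ^ κ) := by
  classical
  have hsm : ∀ i, Sm (f i) := fun i => Sm.of_analytic (hf i)
  obtain ⟨Q, c, δ, hQ, hc, hδ, hcomp⟩ := compactness hsm univ (by
    intro a ha x hx
    by_contra hcon
    push Not at hcon
    have h1 : ∀ y ∈ S 3, ∑ i, a i * f i y = ∑ i, a i * f i x := fun y hy =>
      nonflat hf a hx (fun q hq j _ => hcon q hq j (mem_univ _)) hy
    obtain ⟨q, hq, _⟩ := exists_rot hx hx
    have h2 : ∑ i, a i * f i x = 0 := hcon q hq 0 (mem_univ _)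
    have h3 := hind a fun y hy => (h1 y hy).trans h2
    rw [h3, norm_zero] at ha
    exact zero_ne_one ha)
  obtain ⟨n, x, χ, hx, _, hsupp, hsum⟩ := partition (half_pos hδ)
  have hpatch : ∀ (i : Fin n) (p : Q), ∃ C : ℝ, 0 ≤ C ∧ ∀ (a : ι → ℝ) (lam e : ℝ), 0 < lam →
      0 < e → ∀ k, p.1.2 = k + 1 → (∀ y ∈ S 3, dist y (x i) < δ → lam ≤ |cmb f p.1.1 (k + 1) a y|) →
      (sm 3) {z : S 3 | dist (z : E 3) (x i) < δ / 2 ∧ |cmb f p.1.1 0 a z| ≤ e} ≤
        ENNReal.ofReal (C * (e / lam) ^ (1 / ((k + 1 : ℕ):ℝ))) := by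
    intro i p
    obtain ⟨C, hC, h⟩ := sub_patch hsm (hQ p.1 p.2).1 (p.1.2 - 1) (x i) hδ
    refine ⟨C, hC, fun a lam e hl he k hk => ?_⟩
    have h1 := h a lam e hl he
    have h2 : p.1.2 - 1 = k := by omega
    rw [h2] at h1
    exact h1
  choose CP hCP hCP' using hpatch
  set m : ℕ := Q.sup (fun p => p.2) + 1 with hm
  have hpm : ∀ p : Q, p.1.2 ≤ m := fun p =>
    (Finset.le_sup (f := fun p : (E 3 × E 3) × ℕ => p.2) p.2).trans (Nat.le_succ _)
  set σ : ℝ := (sm 3).real univ with hσ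
  have hσ0 : 0 ≤ σ := measureReal_nonneg
  have hm1 : (1:ℝ) ≤ m := by
    rw [hm]
    push_cast
    have : (0:ℝ) ≤ ((Q.sup (fun p => p.2) : ℕ) : ℝ) := Nat.cast_nonneg _
    linarith
  have hm0 : (0:ℝ) < m := by linarith
  set κ : ℝ := 1 / (m:ℝ) with hκ
  have hκ0 : 0 < κ := by positivity
  have hκ1 : κ ≤ 1 := by
    rw [hκ, div_le_one hm0]
    exact hm1
  set c1 : ℝ := min c 1 with hc1
  have hc10 : 0 < c1 := lt_min hc one_pos
  have hterm : ∀ (i : Fin n) (p : Q), 0 ≤ CP i p * (1 / c1) := by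
    intro i p
    have h1 := hCP i p
    positivity
  set C1 : ℝ := ∑ i : Fin n, ∑ p : Q, CP i p * (1 / c1) with hC1
  have hC10 : 0 ≤ C1 := Finset.sum_nonneg fun i _ => Finset.sum_nonneg fun p _ => hterm i p
  refine ⟨σ / c1 + C1, κ, by positivity, hκ0, ?_⟩
  intro a ha e he
  have ha0 : a ≠ 0 := by
    rintro rfl
    rw [norm_zero] at ha
    exact zero_ne_one ha
  have heκ : 0 < e ^ κ := Real.rpow_pos_of_pos he _
  rcases le_or_gt c1 e with hce | hce
  · have h1 : sm 3 {x : S 3 | |∑ i, a i * f i x| ≤ e} ≤ ENNReal.ofReal σ := by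
      rw [hσ, ofReal_measureReal]
      exact measure_mono (subset_univ _)
    refine h1.trans (ENNReal.ofReal_le_ofReal ?_)
    have h2 : c1 ≤ e ^ κ := by
      have h3 : c1 ≤ c1 ^ κ := by
        have h4 := Real.rpow_le_rpow_of_exponent_ge hc10 (min_le_right _ _) hκ1
        rwa [Real.rpow_one] at h4
      exact h3.trans (Real.rpow_le_rpow hc10.le hce hκ0.le)
    have h3 : σ ≤ σ / c1 * e ^ κ := by
      rw [div_mul_eq_mul_div, le_div_iff₀ hc10]
      exact mul_le_mul_of_nonneg_left h2 hσ0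
    have h4 : 0 ≤ C1 * e ^ κ := by positivity
    linarith [add_mul (σ / c1) C1 (e ^ κ)]
  · have he1 : e ≤ 1 := (hce.trans_le (min_le_right _ _)).le
    have hec : e < c := hce.trans_le (min_le_left _ _)
    have hpt : ∀ i : Fin n, sm 3 {z : S 3 | dist (z : E 3) (x i) < δ / 2 ∧
        |∑ j, a j * f j z| ≤ e} ≤ ENNReal.ofReal ((∑ p : Q, CP i p * (1 / c1)) * e ^ κ) := by
      intro i
      obtain ⟨p, hp, hp'⟩ := hcomp a (x i) (hx i) ha0
      rw [ha, mul_one] at hp'
      rcases Nat.eq_zero_or_pos p.2 with h0 | h0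
      · have h1 : {z : S 3 | dist (z : E 3) (x i) < δ / 2 ∧ |∑ j, a j * f j z| ≤ e} = ∅ := by
          ext z
          simp only [mem_ofPred_eq, mem_empty_iff_false, iff_false, not_and, not_le]
          intro hz
          have h2 := hp' z z.2 (by linarith)
          rw [h0] at h2
          exact hec.trans_le h2
        rw [h1, measure_empty]
        exact zero_le
      · obtain ⟨k, hk⟩ : ∃ k, p.2 = k + 1 := ⟨p.2 - 1, by omega⟩
        have h1 := hCP' i ⟨p, hp⟩ a c e hc he k hk (by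
          intro y hy hyx
          have h2 := hp' y hy hyx
          rw [hk] at h2
          exact h2)
        refine h1.trans (ENNReal.ofReal_le_ofReal ?_)
        have hk1 : (1:ℝ) ≤ ((k + 1 : ℕ):ℝ) := by
          push_cast
          have : (0:ℝ) ≤ k := Nat.cast_nonneg k
          linarith
        have hkm : ((k + 1 : ℕ):ℝ) ≤ m := by
          have := hpm ⟨p, hp⟩
          rw [← hk]
          exact_mod_cast this
        have hexp : (0:ℝ) < 1 / ((k + 1 : ℕ):ℝ) := by positivity
        have hexp1 : 1 / ((k + 1 : ℕ):ℝ) ≤ 1 := by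
          rw [div_le_one (by linarith)]
          exact hk1
        have h2 : (e / c) ^ (1 / ((k + 1 : ℕ):ℝ)) ≤ 1 / c1 * e ^ κ := by
          have h3 : (e / c) ≤ (1 / c1) * e := by
            rw [div_eq_mul_one_div, mul_comm]
            apply mul_le_mul_of_nonneg_right _ he.le
            exact one_div_le_one_div_of_le hc10 (min_le_left _ _)
          have h4 : (e / c) ^ (1 / ((k + 1 : ℕ):ℝ)) ≤ ((1 / c1) * e) ^ (1 / ((k + 1 : ℕ):ℝ)) :=
            Real.rpow_le_rpow (by positivity) h3 hexp.le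
          rw [Real.mul_rpow (by positivity) he.le] at h4
          refine h4.trans ?_
          have h5 : (1 / c1) ^ (1 / ((k + 1 : ℕ):ℝ)) ≤ 1 / c1 := by
            have h6 : (1:ℝ) ≤ 1 / c1 := by
              rw [le_div_iff₀ hc10, one_mul]
              exact min_le_right _ _
            have h7 := Real.rpow_le_rpow_of_exponent_le h6 hexp1
            rwa [Real.rpow_one] at h7
          have h6 : e ^ (1 / ((k + 1 : ℕ):ℝ)) ≤ e ^ κ := by
            apply Real.rpow_le_rpow_of_exponent_ge he he1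
            rw [hκ]
            exact one_div_le_one_div_of_le (by linarith) hkm
          exact mul_le_mul h5 h6 (Real.rpow_nonneg he.le _) (by positivity)
        calc CP i ⟨p, hp⟩ * (e / c) ^ (1 / ((k + 1 : ℕ):ℝ)) ≤ CP i ⟨p, hp⟩ * (1 / c1 * e ^ κ) :=
              mul_le_mul_of_nonneg_left h2 (hCP _ _)
          _ = (CP i ⟨p, hp⟩ * (1 / c1)) * e ^ κ := by ring
          _ ≤ _ := by
              apply mul_le_mul_of_nonneg_right _ heκ.le
              exact Finset.single_le_sum (f := fun p : Q => CP i p * (1 / c1))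
                (fun p _ => hterm i p) (Finset.mem_univ _)
    have hcov : {z : S 3 | |∑ j, a j * f j z| ≤ e} ⊆
        ⋃ i : Fin n, {z : S 3 | dist (z : E 3) (x i) < δ / 2 ∧ |∑ j, a j * f j z| ≤ e} := by
      intro z hz
      have h1 := hsum z z.2
      obtain ⟨i, _, hi⟩ := Finset.exists_ne_zero_of_sum_ne_zero (by rw [h1]; exact one_ne_zero)
      rw [mem_iUnion]
      exact ⟨i, hsupp i z hi, hz⟩
    calc sm 3 {z : S 3 | |∑ j, a j * f j z| ≤ e}
        ≤ ∑ i : Fin n, sm 3 {z : S 3 | dist (z : E 3) (x i) < δ / 2 ∧ |∑ j, a j * f j z| ≤ e} :=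
          (measure_mono hcov).trans (measure_iUnion_fintype_le _ _)
      _ ≤ ∑ i : Fin n, ENNReal.ofReal ((∑ p : Q, CP i p * (1 / c1)) * e ^ κ) :=
          Finset.sum_le_sum fun i _ => hpt i
      _ = ENNReal.ofReal (C1 * e ^ κ) := by
          rw [← ENNReal.ofReal_sum_of_nonneg, hC1, Finset.sum_mul]
          intro i _
          have := Finset.sum_nonneg fun (p : Q) (_ : p ∈ Finset.univ) => hterm i p
          positivity
      _ ≤ ENNReal.ofReal ((σ / c1 + C1) * e ^ κ) := by
          apply ENNReal.ofReal_le_ofReal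
          apply mul_le_mul_of_nonneg_right _ heκ.le
          have : 0 ≤ σ / c1 := by positivity
          linarith

end Pool.Agent.VAN.H70

namespace Pool.Agent.VAN

open MeasureTheory Set Pool.Agent.MP_6cbfb8_an Filter Topology Pool.Agent.VAN.H70
open scoped ENNReal Real

/-- sublevel sets of an independent family -/
theorem sublevel {d : ℕ} (φ : Fin d → E 3 → ℝ)
    (ha : ∀ j, AnalyticOnNhd ℝ (φ j) (Metric.sphere 0 1))
    (hi : ∀ a : Fin d → ℝ, (∀ x : E 3, ‖x‖ = 1 → fam φ a x = 0) → a = 0) :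
    ∃ K κ : ℝ, 0 ≤ K ∧ 0 < κ ∧ ∀ c : Fin d → ℝ, ‖c‖ = 1 → ∀ δ : ℝ, 0 ≤ δ →
      sm 3 {x : S 3 | |fam φ c x| ≤ δ} ≤ ENNReal.ofReal (K * δ ^ κ) := by
  obtain ⟨K, κ, hK, hκ, h⟩ := sublevel_pos (f := φ) ha (fun a h => hi a fun x hx =>
    h x (by simpa using hx))
  refine ⟨K, κ, hK, hκ, fun c hc δ hδ => ?_⟩
  have hcont : Continuous (fun e : ℝ => ENNReal.ofReal (K * e ^ κ)) :=
    ENNReal.continuous_ofReal.comp (continuous_const.mul
      (continuous_id.rpow_const fun x => Or.inr hκ.le))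
  have ht : Tendsto (fun e : ℝ => ENNReal.ofReal (K * e ^ κ)) (nhdsWithin δ (Ioi δ))
      (nhds (ENNReal.ofReal (K * δ ^ κ))) := (hcont.tendsto δ).mono_left nhdsWithin_le_nhds
  refine ge_of_tendsto ht ?_
  filter_upwards [self_mem_nhdsWithin] with e he
  refine le_trans (measure_mono ?_) (h c hc e (lt_of_le_of_lt hδ he))
  intro x hx
  have h1 : |fam φ c x| ≤ δ := hx
  show |∑ i, c i * φ i x| ≤ e
  exact h1.trans (le_of_lt he)

end Pool.Agent.VAN
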