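import Pool.Agent.VAN.NDefs
import Pool.Agent.VAN.N1
import Pool.Agent.VAN.N3
import Pool.Agent.VAN.C1
import Pool.Agent.VAN.D1
import Pool.Agent.VAN.D2
import Pool.Agent.VAN.E0
import Pool.Agent.VAN.F
import Pool.Agent.VAN.G
import Pool.Agent.VAN.H2

/-!
The restriction theorem for the unit sphere of `R^3` for the phases and cuts in a finite-dimensional
space of smooth functions without flat points.
-/

namespace Pool.Agent.VAN

open MeasureTheory Set Filter Topology Pool.Agent.MP_6cbfb8_an Pool.Agent.VAN.H70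
open scoped ENNReal Real

/-- A combination of a sub-family is a combination of the family. -/
lemma fam_sub {d k : ℕ} (φ : Fin d → E 3 → ℝ) (σ : Fin k → Fin d)
    (a : Fin k → ℝ) : ∃ b : Fin d → ℝ, ∀ x, fam (fun j => φ (σ j)) a x = fam φ b x := by
  classical
  refine ⟨fun i => ∑ j, if σ j = i then a j else 0, fun x => ?_⟩
  unfold fam
  simp_rw [Finset.sum_mul]
  rw [Finset.sum_comm]
  refine Finset.sum_congr rfl fun j _ => ?_
  rw [Finset.sum_eq_single (σ j)]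
  · simp
  · intro i _ hi
    rw [if_neg (Ne.symm hi), zero_mul]
  · intro hj
    exact absurd (Finset.mem_univ _) hj

/-- Sub-families of nonflat families are nonflat. -/
lemma Nonflat.sub {d k : ℕ} {φ : Fin d → E 3 → ℝ} (hφ : Nonflat φ) (σ : Fin k → Fin d) :
    Nonflat fun j => φ (σ j) := by
  refine ⟨fun j => hφ.1 (σ j), fun a ζ x hx hfl y hy => ?_⟩
  obtain ⟨b, hb⟩ := fam_sub φ σ a
  have h1 : (fun y => fam (fun j => φ (σ j)) a y + inner ℝ y ζ) =
      fun y => fam φ b y + inner ℝ y ζ := by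
    funext y
    rw [hb y]
  rw [h1] at hfl
  rw [hb y, hb x]
  exact hφ.2 b ζ x hx hfl y hy

lemma smooth_fam_aff {d : ℕ} {φ : Fin d → E 3 → ℝ}
    (hs : ∀ j, ∀ x ∈ Metric.sphere (0 : E 3) 1, ContDiffAt ℝ ((⊤ : ℕ∞) : WithTop ℕ∞) (φ j) x)
    (a : Fin d → ℝ) (ζ : E 3) : ∀ x ∈ Metric.sphere (0 : E 3) 1,
      ContDiffAt ℝ ((⊤ : ℕ∞) : WithTop ℕ∞) (fun y => fam φ a y + inner ℝ y ζ) x := by
  intro x hx
  unfold fam
  refine ContDiffAt.add (ContDiffAt.sum fun j _ => contDiffAt_const.mul (hs j x hx)) ?_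
  exact contDiffAt_id.inner ℝ contDiffAt_const

/-- Nonflat families which are independent modulo affine functions, no cuts. -/
theorem main_indep_nf {d : ℕ} (φ : Fin d → E 3 → ℝ) (hφ : Nonflat φ)
    (hi : ∀ (a : Fin d → ℝ) (ζ : E 3) (c : ℝ),
      (∀ x : E 3, ‖x‖ = 1 → fam φ a x + inner ℝ x ζ = c) → a = 0) (p : ℝ) (hp : 3 < p) :
    ∃ C : ℝ≥0∞, C ≠ ∞ ∧ ∀ c : Fin d → ℝ,
      ∫⁻ ξ, ‖extn (fun x => Complex.exp (((fam φ c x : ℝ) : ℂ) * Complex.I)) ξ‖ₑ ^ p ≤ C := by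
  have hext : ∀ j, ∃ F : E 3 → ℝ, ContDiff ℝ ((⊤ : ℕ∞) : WithTop ℕ∞) F ∧ HasCompactSupport F ∧
      ∀ x ∈ S 3, F x = φ j x :=
    fun j => extend (φ j) fun x hx => hφ.1 j x hx
  choose ψ hψ _ hψe using hext
  have hfam : ∀ (c : Fin d → ℝ), ∀ x ∈ S 3, fam φ c x = fam ψ c x := by
    intro c x hx
    unfold fam
    exact Finset.sum_congr rfl fun j _ => by rw [hψe j x hx]
  have hex : ∀ (c : Fin d → ℝ) (ξ : E 3),
      extn (fun x => Complex.exp (((fam φ c x : ℝ) : ℂ) * Complex.I)) ξ =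
        extn (fun x => Complex.exp (((fam ψ c x : ℝ) : ℂ) * Complex.I)) ξ := by
    intro c ξ
    exact extn_congr (fun x hx => by rw [hfam c x hx]) ξ
  have hL : ∀ c : Fin d → ℝ, 1 ≤ 1 + ‖c‖ := fun c => by linarith [norm_nonneg c]
  have hnf : ∀ (a : Fin d → ℝ) (ζ : E 3), (a ≠ 0 ∨ ζ ≠ 0) → ∀ x : E 3, ‖x‖ = 1 →
      ∃ q, ON q ∧ ∃ k, 1 ≤ k ∧ (dR q)^[k] (fun y => fam φ a y + inner ℝ y ζ) x ≠ 0 := by
    intro a ζ hne x hx
    by_contra hcon
    have h1 : ∀ q, ON q → ∀ k, 1 ≤ k → (dR q)^[k] (fun y => fam φ a y + inner ℝ y ζ) x = 0 := by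
      intro q hq k hk
      by_contra h2
      exact hcon ⟨q, hq, k, hk, h2⟩
    have h2 := hφ.2 a ζ x hx (flat_of_dR (smooth_fam_aff hφ.1 a ζ) hx h1)
    have ha : a = 0 := hi a ζ _ h2
    subst ha
    have h3 : ∀ y : E 3, ‖y‖ = 1 → inner ℝ y ζ = inner ℝ x ζ := by
      intro y hy
      have := h2 y hy
      simpa [fam] using this
    have h4 : ∀ y : E 3, ‖y‖ = 1 → inner ℝ y ζ = (0 : ℝ) := by
      intro y hy
      have h5 := h3 y hy
      have h6 := h3 (-y) (by rw [norm_neg, hy])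
      rw [inner_neg_left] at h6
      linarith
    rcases hne with h | h
    · exact h rfl
    · have h5 := h4 (‖ζ‖⁻¹ • ζ)
        (by rw [norm_smul, norm_inv, norm_norm, inv_mul_cancel₀ (norm_ne_zero_iff.2 h)])
      rw [real_inner_smul_left, real_inner_self_eq_norm_sq] at h5
      have h6 : ‖ζ‖ ≠ 0 := norm_ne_zero_iff.2 h
      rcases mul_eq_zero.1 h5 with h7 | h7
      · exact h6 (inv_eq_zero.1 h7)
      · exact h6 (pow_eq_zero_iff two_ne_zero |>.1 h7)
  refine assemble (volume : Measure (E 3))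
    (fun (c : Fin d → ℝ) ξ => extn (fun x => Complex.exp (((fam φ c x : ℝ) : ℂ) * Complex.I)) ξ)
    (fun c => 1 + ‖c‖) hL 3 (by norm_num) ?_ ?_ ?_ p hp
  · exact decay_extn_nf φ hφ.1 hnf
  · intro q hq
    obtain ⟨C, hC, h⟩ := crude ψ hψ q hq
    refine ⟨C, hC, 4 * q, fun c => ?_⟩
    simp_rw [hex c]
    exact h c
  · intro q hq ε hε B
    obtain ⟨C, hC, h⟩ := local_bound ψ hψ q ε (max B 0) hq hε (le_max_right _ _)
    refine ⟨C, hC, fun c => ?_⟩
    simp_rw [hex c]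
    refine (lintegral_mono_set ?_).trans (h c)
    intro ξ hξ
    rw [mem_closedBall_zero_iff]
    exact (show ‖ξ‖ ≤ (1 + ‖c‖) ^ B from hξ).trans
      (Real.rpow_le_rpow_of_exponent_le (hL c) (le_max_left _ _))

/-- Nonflat families, no cuts. -/
theorem main_nocut_nf {d : ℕ} (φ : Fin d → E 3 → ℝ) (hφ : Nonflat φ) (p : ℝ) (hp : 3 < p) :
    ∃ C : ℝ≥0∞, C ≠ ∞ ∧ ∀ c : Fin d → ℝ,
      ∫⁻ ξ, ‖extn (fun x => Complex.exp (((fam φ c x : ℝ) : ℂ) * Complex.I)) ξ‖ₑ ^ p ≤ C := by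
  obtain ⟨k, σ, _, hind, L, hL⟩ := reduce_aff φ
  obtain ⟨C, hC, h⟩ := main_indep_nf (fun j => φ (σ j)) (hφ.sub σ)
    (fun a ζ c hac => hind a ζ c fun x hx => hac x (by simpa using hx)) p hp
  refine ⟨C, hC, fun c => ?_⟩
  obtain ⟨ζ, c0, h1⟩ := hL c
  have h2 := lint_phase (fun _ => 1) (φ := fam φ c) (φ' := fam (fun j => φ (σ j)) (L c))
    (ζ := ζ) (c := c0) (fun x hx => h1 x hx) p
  simp only [mul_one] at h2
  rw [h2]
  exact h (L c)

/-- Every nonflat family, with cuts. -/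
theorem main_nf {d : ℕ} (φ : Fin d → E 3 → ℝ) (hφ : Nonflat φ) (N : ℕ) (p : ℝ) (hp : 3 < p) :
    ∃ C : ℝ≥0∞, C ≠ ∞ ∧ ∀ (c : Fin d → ℝ) (cs : Fin N → Fin d → ℝ),
      ∫⁻ ξ, ‖extn (famc φ c cs) ξ‖ₑ ^ p ≤ C := by
  obtain ⟨k, σ, _, hind, L, hL⟩ := reduce_zero φ
  have hsub' : Nonflat fun j => φ (σ j) := hφ.sub σ
  have hcn : ∀ j, ContinuousOn (φ (σ j)) (Metric.sphere (0 : E 3) 1) := fun j x hx =>
    (hφ.1 (σ j) x hx).continuousAt.continuousWithinAt
  have hr : ∀ (a : Fin k → ℝ) (x : E 3), ‖x‖ = 1 →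
      fam (fun j => rS (φ (σ j))) a x = fam (fun j => φ (σ j)) a x := fun a x hx =>
    G_fam_rS (fun j => φ (σ j)) a hx
  have hb : ∃ K : ℝ, ∀ j : Fin k, ∀ x : E 3, ‖x‖ = 1 → |rS (φ (σ j)) x| ≤ K := by
    have hK : ∀ j : Fin k, ∃ K : ℝ, ∀ x : E 3, ‖x‖ = 1 → |rS (φ (σ j)) x| ≤ K := by
      intro j
      obtain ⟨K, hK⟩ := (isCompact_sphere (0 : E 3) 1).exists_bound_of_continuousOn (hcn j)
      refine ⟨K, fun x hx => ?_⟩
      unfold rS
      rw [if_pos hx]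
      simpa using hK x (by simpa using hx)
    choose K hK using hK
    refine ⟨∑ j, |K j|, fun j x hx => (hK j x hx).trans ((le_abs_self _).trans ?_)⟩
    exact Finset.single_le_sum (f := fun j => |K j|) (fun i _ => abs_nonneg _) (Finset.mem_univ j)
  obtain ⟨K, κ, hK, hκ, hsub⟩ := sublevel_nf (fun j => φ (σ j)) hsub'.1 (by
    intro a ha x hx
    by_contra hcon
    have h1 : ∀ q, ON q → ∀ k, (dR q)^[k] (fam (fun j => φ (σ j)) a) x = 0 := by
      intro q hq k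
      by_contra h2
      exact hcon ⟨q, hq, k, h2⟩
    have h0 : (fun y => fam (fun j => φ (σ j)) a y + inner ℝ y (0 : E 3)) =
        fam (fun j => φ (σ j)) a := by
      funext y
      rw [inner_zero_right, add_zero]
    have hfl : Flat (fun y => fam (fun j => φ (σ j)) a y + inner ℝ y (0 : E 3)) x :=
      flat_of_dR (smooth_fam_aff hsub'.1 a 0) hx (by
        intro q hq k _
        rw [h0]
        exact h1 q hq k)
    have h2 := hsub'.2 a 0 x hx hfl
    refine ha (hind a fun y hy => ?_)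
    have h3 := h2 y (by simpa using hy)
    rw [inner_zero_right, add_zero, inner_zero_right, add_zero] at h3
    obtain ⟨q, hq⟩ : ∃ q : E 3 × E 3, ON q := by
      refine ⟨(EuclideanSpace.single 0 1, EuclideanSpace.single 1 1), ?_, ?_, ?_⟩
      · simp
      · simp
      · simp [EuclideanSpace.inner_single_left]
    have h4 := h1 q hq 0
    rw [Function.iterate_zero, id] at h4
    exact h3.trans h4)
  obtain ⟨C, hC, h⟩ := cuts 3 (by norm_num) (fun j => rS (φ (σ j)))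
    (fun j => G_meas_rS (hcn j)) hb
    ⟨K, κ, hK, hκ, fun c hc δ hδ => by
      have h1 : {x : S 3 | |fam (fun j => rS (φ (σ j))) c x| ≤ δ} =
          {x : S 3 | |fam (fun j => φ (σ j)) c x| ≤ δ} := by
        ext x
        rw [mem_ofPred_eq, mem_ofPred_eq, hr c x (by simp)]
      rw [h1]
      exact hsub c hc δ hδ⟩
    (fun q hq => by
      obtain ⟨C, hC, h⟩ := main_nocut_nf (fun j => φ (σ j)) hsub' q hq
      refine ⟨C, hC, fun c => ?_⟩
      have h1 : extn (fun x => Complex.exp (((fam (fun j => rS (φ (σ j))) c x : ℝ) : ℂ) * Complex.I)) =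
          extn (fun x => Complex.exp (((fam (fun j => φ (σ j)) c x : ℝ) : ℂ) * Complex.I)) :=
        extn_congr_sphere fun x hx => by rw [hr c x hx]
      rw [h1]
      exact h c) N p hp
  refine ⟨C, hC, fun c cs => ?_⟩
  refine le_trans (le_of_eq ?_) (h (L c) fun i => L (cs i))
  congr 1
  funext ξ
  rw [extn_congr]
  intro x hx
  have hx1 : ‖x‖ = 1 := by simpa using hx
  have h3 : ∀ a : Fin d → ℝ, fam φ a x = fam (fun j => rS (φ (σ j))) (L a) x := fun a =>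
    (hL a x hx).trans (hr (L a) x hx1).symm
  unfold famc
  rw [h3 c]
  congr 1
  exact Finset.prod_congr rfl fun i _ => by rw [h3 (cs i)]

end Pool.Agent.VAN
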