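import Pool.Agent.VAN.B3bh63

/-!
Decay for smooth families with a nonflatness hypothesis.
-/

set_option autoImplicit false

namespace Pool.Agent.VAN

open MeasureTheory Set Metric Pool.Agent.MP_6cbfb8_an
open scoped ENNReal Real

theorem XX_smooth {f : E3 → ℝ} (hf : ContDiff ℝ ((⊤ : ℕ∞) : WithTop ℕ∞) f) (a b : E3) :
    ContDiff ℝ ((⊤ : ℕ∞) : WithTop ℕ∞) (XX a b f) := by
  unfold XX
  have h1 : ContDiff ℝ ((⊤ : ℕ∞) : WithTop ℕ∞) (fderiv ℝ f) :=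
    hf.fderiv_right (m := ((⊤ : ℕ∞) : WithTop ℕ∞)) (by simp)
  exact h1.clm_apply (gen a b).contDiff

theorem XX_iter_smooth {f : E3 → ℝ} (hf : ContDiff ℝ ((⊤ : ℕ∞) : WithTop ℕ∞) f) (a b : E3)
    (k : ℕ) : ContDiff ℝ ((⊤ : ℕ∞) : WithTop ℕ∞) ((XX a b)^[k] f) := by
  induction k with
  | zero => exact hf
  | succ k ih =>
    rw [Function.iterate_succ_apply']
    exact XX_smooth ih a b

theorem chain_of_smooth {f : E3 → ℝ} (hf : ContDiff ℝ ((⊤ : ℕ∞) : WithTop ℕ∞) f) : Chain f := by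
  intro a b h k y _ t
  have h2 : HasFDerivAt ((XX a b)^[k] f) (fderiv ℝ ((XX a b)^[k] f) (rot a b t y))
      (rot a b t y) :=
    ((XX_iter_smooth hf a b k).differentiable (by simp) _).hasFDerivAt
  have h1 := h2.comp_hasDerivAt t (hasDerivAt_rot h t y)
  rw [Function.iterate_succ_apply']
  exact h1

theorem lc_smooth {d : ℕ} {f : Fin d → E3 → ℝ}
    (hf : ∀ i, ContDiff ℝ ((⊤ : ℕ∞) : WithTop ℕ∞) (f i)) (c : Fin d → ℝ) :
    ContDiff ℝ ((⊤ : ℕ∞) : WithTop ℕ∞) (lc f c) := by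
  unfold lc
  exact ContDiff.sum fun i _ => contDiff_const.mul (hf i)

theorem XX_lc_smooth {d : ℕ} {f : Fin d → E3 → ℝ}
    (hf : ∀ i, ContDiff ℝ ((⊤ : ℕ∞) : WithTop ℕ∞) (f i)) (c : Fin d → ℝ) (a b : E3) (k : ℕ) :
    (XX a b)^[k] (lc f c) = lc (fun i => (XX a b)^[k] (f i)) c := by
  induction k with
  | zero => rfl
  | succ k ih =>
    rw [Function.iterate_succ_apply', ih]
    funext y
    show fderiv ℝ (lc (fun i => (XX a b)^[k] (f i)) c) y (gen a b y) = _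
    have h2 : HasFDerivAt (lc (fun i => (XX a b)^[k] (f i)) c)
        (∑ i, c i • fderiv ℝ ((XX a b)^[k] (f i)) y) y := by
      unfold lc
      refine HasFDerivAt.fun_sum fun i _ => ?_
      have h3 : HasFDerivAt ((XX a b)^[k] (f i)) (fderiv ℝ ((XX a b)^[k] (f i)) y) y :=
        ((XX_iter_smooth (hf i) a b k).differentiable (by simp) y).hasFDerivAt
      exact h3.const_mul (c i)
    rw [h2.fderiv]
    unfold lc
    rw [sum_apply]
    refine Finset.sum_congr rfl fun i _ => ?_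
    show c i * fderiv ℝ ((XX a b)^[k] (f i)) y (gen a b y) = c i * (XX a b)^[k + 1] (f i) y
    rw [Function.iterate_succ_apply']
    rfl

/-- uniform nonflatness for smooth families -/
theorem uniform_nonflat_smooth {d : ℕ} (k0 : ℕ) (f : Fin d → E3 → ℝ)
    (hf : ∀ i, ContDiff ℝ ((⊤ : ℕ∞) : WithTop ℕ∞) (f i))
    (h : ∀ c : Fin d → ℝ, c ≠ 0 → ∀ x : E3, ‖x‖ = 1 → ∃ a b : E3, OP a b ∧ ∃ k, k0 ≤ k ∧
      (XX a b)^[k] (lc f c) x ≠ 0) :
    ∃ s : Finset (E3 × E3 × ℕ), (∀ p ∈ s, OP p.1 p.2.1 ∧ k0 ≤ p.2.2) ∧ ∃ δ : ℝ, 0 < δ ∧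
      ∃ κ : ℝ, 0 < κ ∧ ∀ c : Fin d → ℝ, c ≠ 0 → ∀ x : E3, ‖x‖ = 1 → ∃ p ∈ s, ∀ y : E3, ‖y‖ = 1 →
        dist y x < δ → κ * ‖c‖ ≤ |(XX p.1 p.2.1)^[p.2.2] (lc f c) y| := by
  classical
  obtain ⟨s, δ, hδ, κ, hκ, H⟩ := compact_nonvanishing
    (K := (sphere (0 : Fin d → ℝ) 1) ×ˢ (sphere (0 : E3) 1))
    ((isCompact_sphere _ _).prod (isCompact_sphere _ _))
    (fun (p : {p : E3 × E3 × ℕ // OP p.1 p.2.1 ∧ k0 ≤ p.2.2}) (z : (Fin d → ℝ) × E3) =>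
      lc (fun i => (XX p.1.1 p.1.2.1)^[p.1.2.2] (f i)) z.1 z.2) (by
      intro p
      unfold lc
      refine continuousOn_finsetSum _ fun i _ => ?_
      refine ContinuousOn.mul (Continuous.continuousOn (by fun_prop)) ?_
      exact ((XX_iter_smooth (hf i) _ _ _).continuous.comp continuous_snd).continuousOn) (by
      rintro ⟨c, x⟩ ⟨hc, hx⟩
      have hx1 : ‖x‖ = 1 := mem_sphere_zero_iff_norm.1 hx
      have hc1 : c ≠ 0 := by
        rintro rfl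
        have := mem_sphere_zero_iff_norm.1 hc
        simp at this
      obtain ⟨a, b, hb, k, hk, h2⟩ := h c hc1 x hx1
      refine ⟨⟨(a, b, k), hb, hk⟩, ?_⟩
      rw [XX_lc_smooth hf c a b k] at h2
      exact h2)
  refine ⟨s.image Subtype.val, ?_, δ, hδ, κ, hκ, ?_⟩
  · intro p hp
    obtain ⟨q, _, rfl⟩ := Finset.mem_image.1 hp
    exact q.2
  · intro c hc x hx
    have hc0 : 0 < ‖c‖ := norm_pos_iff.2 hc
    obtain ⟨q, hq, h3⟩ := H (‖c‖⁻¹ • c, x) ⟨by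
      rw [mem_sphere_zero_iff_norm, norm_smul, norm_inv, norm_norm,
        inv_mul_cancel₀ hc0.ne'], mem_sphere_zero_iff_norm.2 hx⟩
    refine ⟨q.1, Finset.mem_image_of_mem _ hq, fun y hy hd => ?_⟩
    have h4 := h3 (‖c‖⁻¹ • c, y) ⟨by
      rw [mem_sphere_zero_iff_norm, norm_smul, norm_inv, norm_norm,
        inv_mul_cancel₀ hc0.ne'], mem_sphere_zero_iff_norm.2 hy⟩ (by
        rw [Prod.dist_eq]
        simp only [dist_self]
        exact max_lt hδ hd)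
    rw [XX_lc_smooth hf c _ _ _]
    have h5 : lc (fun i => (XX q.1.1 q.1.2.1)^[q.1.2.2] (f i)) (‖c‖⁻¹ • c) y =
        ‖c‖⁻¹ * lc (fun i => (XX q.1.1 q.1.2.1)^[q.1.2.2] (f i)) c y := by
      unfold lc
      rw [Finset.mul_sum]
      refine Finset.sum_congr rfl fun i _ => ?_
      simp only [Pi.smul_apply, smul_eq_mul]
      ring
    simp only at h4
    rw [h5, abs_mul, abs_inv, abs_of_pos hc0, ← div_eq_inv_mul, le_div_iff₀ hc0] at h4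
    exact h4

theorem XX_bound_smooth {d : ℕ} (f : Fin d → E3 → ℝ)
    (hf : ∀ i, ContDiff ℝ ((⊤ : ℕ∞) : WithTop ℕ∞) (f i))
    (a b : E3) (k : ℕ) : ∃ M : ℝ, 0 < M ∧ ∀ c : Fin d → ℝ, ∀ y : E3, ‖y‖ = 1 →
      |(XX a b)^[k] (lc f c) y| ≤ M * ‖c‖ := by
  have h1 : ∀ i, ∃ M : ℝ, ∀ y ∈ sphere (0 : E3) 1, ‖(XX a b)^[k] (f i) y‖ ≤ M := fun i =>
    (isCompact_sphere (0 : E3) 1).exists_bound_of_continuousOn
      (XX_iter_smooth (hf i) a b k).continuous.continuousOn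
  choose M hM using h1
  refine ⟨∑ i, |M i| + 1, by positivity, fun c y hy => ?_⟩
  rw [XX_lc_smooth hf c a b k]
  calc |∑ i, c i * (XX a b)^[k] (f i) y| ≤ ∑ i, |c i * (XX a b)^[k] (f i) y| :=
        Finset.abs_sum_le_sum_abs _ _
    _ ≤ ∑ i, ‖c‖ * |M i| := by
        refine Finset.sum_le_sum fun i _ => ?_
        rw [abs_mul]
        refine mul_le_mul (norm_le_pi_norm c i) ?_ (abs_nonneg _) (norm_nonneg _)
        exact (hM i y (mem_sphere_zero_iff_norm.2 hy)).trans (le_abs_self _)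
    _ = (∑ i, |M i|) * ‖c‖ := by rw [← Finset.mul_sum, mul_comm]
    _ ≤ (∑ i, |M i| + 1) * ‖c‖ := by
        refine mul_le_mul_of_nonneg_right (by linarith) (norm_nonneg _)

/-- **Decay** for smooth nonflat families. -/
theorem decay_lc_nf {d : ℕ} (f : Fin d → E3 → ℝ)
    (hf : ∀ i, ContDiff ℝ ((⊤ : ℕ∞) : WithTop ℕ∞) (f i))
    (h : ∀ c : Fin d → ℝ, c ≠ 0 → ∀ x : E3, ‖x‖ = 1 → ∃ a b : E3, OP a b ∧ ∃ k, 1 ≤ k ∧
      (XX a b)^[k] (lc f c) x ≠ 0) :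
    ∃ (m : ℕ) (K : ℝ), 1 ≤ m ∧ 0 ≤ K ∧ ∀ c : Fin d → ℝ, 1 ≤ ‖c‖ →
      ‖∫ x : S 3, ei (lc f c x) ∂sm 3‖ ≤ K * ‖c‖ ^ (-(1 / (m : ℝ))) := by
  obtain ⟨s, hs, δ, hδ, κ, hκ, hnf⟩ := uniform_nonflat_smooth 1 f hf h
  have hM : ∀ p : E3 × E3 × ℕ, ∃ M : ℝ, 0 < M ∧ ∀ c : Fin d → ℝ, ∀ y : E3, ‖y‖ = 1 →
      |(XX p.1 p.2.1)^[2] (lc f c) y| ≤ M * ‖c‖ := fun p => XX_bound_smooth f hf p.1 p.2.1 2
  choose M hM0 hM1 using hM
  set m : ℕ := max 1 (s.sup fun p => p.2.2) with hm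
  obtain ⟨C, hC, H⟩ := decay_core m s (fun p hp => ⟨(hs p hp).1, (hs p hp).2,
    (Finset.le_sup (f := fun p : E3 × E3 × ℕ => p.2.2) hp).trans (le_max_right _ _)⟩)
    (M := ∑ p ∈ s, M p) hδ hκ
  refine ⟨m, C, le_max_left _ _, hC, fun c hc => ?_⟩
  have hc0 : c ≠ 0 := by
    rintro rfl
    rw [norm_zero] at hc
    linarith
  refine H (lc f c) ‖c‖ hc (chain_of_smooth (lc_smooth hf c))
    (lc_smooth hf c).continuous.continuousOn (hnf c hc0) ?_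
  intro p hp y hy
  refine (hM1 p c y hy).trans ?_
  refine mul_le_mul_of_nonneg_right ?_ (norm_nonneg _)
  exact Finset.single_le_sum (f := M) (fun q _ => (hM0 q).le) hp

theorem crd_smooth (i : Fin 3) : ContDiff ℝ ((⊤ : ℕ∞) : WithTop ℕ∞) (crd i) :=
  (EuclideanSpace.proj i : E3 →L[ℝ] ℝ).contDiff

/-- **Decay of the Fourier transform** for smooth families which are nonflat modulo linear
functions, uniform in the coefficients. -/
theorem decay_extn_nf63 {d : ℕ} (φ : Fin d → E3 → ℝ)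
    (hφ : ∀ i, ContDiff ℝ ((⊤ : ℕ∞) : WithTop ℕ∞) (φ i))
    (hnf : ∀ (a : Fin d → ℝ) (ζ : E3), (a ≠ 0 ∨ ζ ≠ 0) → ∀ x : E3, ‖x‖ = 1 →
      ∃ u v : E3, OP u v ∧ ∃ k, 1 ≤ k ∧
        (XX u v)^[k] (fun y => ∑ j, a j * φ j y + inner ℝ y ζ) x ≠ 0) :
    ∃ K κ : ℝ, 0 ≤ K ∧ 0 < κ ∧ ∀ (c : Fin d → ℝ) (ξ : E3),
      ‖extn (fun x => Complex.exp (((∑ j, c j * φ j x : ℝ) : ℂ) * Complex.I)) ξ‖ ≤
        K * (1 + ‖c‖ + ‖ξ‖) ^ (-κ) := by
  have hΦa : ∀ i, ContDiff ℝ ((⊤ : ℕ∞) : WithTop ℕ∞) (Fin.append φ crd i) := by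
    intro i
    refine Fin.addCases (fun j => ?_) (fun j => ?_) i
    · rw [Fin.append_left]
      exact hφ j
    · rw [Fin.append_right]
      exact crd_smooth j
  obtain ⟨m, K, hm, hK, H⟩ := decay_lc_nf (Fin.append φ crd) hΦa (by
    intro c hc x hx
    obtain ⟨a, ζ, rfl⟩ := append_split c
    have e : lc (Fin.append φ crd) (Fin.append a ζ) =
        fun y => ∑ j, a j * φ j y + inner ℝ y (WithLp.toLp 2 ζ : E3) :=
      funext fun y => lc_append φ a ζ y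
    rw [e]
    refine hnf a (WithLp.toLp 2 ζ) ?_ x hx
    by_contra hcon
    push Not at hcon
    obtain ⟨h1, h2⟩ := hcon
    apply hc
    funext i
    refine Fin.addCases (fun j => ?_) (fun j => ?_) i
    · rw [Fin.append_left, h1]; rfl
    · rw [Fin.append_right]
      have h3 := congrArg (fun z : E3 => z j) h2
      simpa using h3)
  exact extn_of_lc φ m K hm hK H

end Pool.Agent.VAN
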