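import Pool.Agent.VAN.F

/-!
Cuts, uniformly for a class of families.
-/

set_option autoImplicit false

namespace Pool.Agent.VAN.FT

open MeasureTheory Set Pool.Agent.MP_6cbfb8_an Pool.Agent.PPH Pool.Agent.VAN
open scoped ENNReal Real

variable {d n : ℕ}

theorem f_one_cut {cls : (Fin d → E n → ℝ) → Prop}
    (hmu : ∀ phi, cls phi → ∀ j, Measurable (phi j))
    (hb : ∃ K : ℝ, ∀ phi, cls phi → ∀ j, ∀ x : S n, |phi j (x : E n)| ≤ K)
    (hs : ∃ K κ : ℝ, 0 < κ ∧ ∀ phi, cls phi → ∀ c : Fin d → ℝ, ‖c‖ = 1 → ∀ δ : ℝ, 0 ≤ δ →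
      sm n {x : S n | |fam phi c (x : E n)| ≤ δ} ≤ ENNReal.ofReal (K * δ ^ κ))
    (p0 : ℝ) (hp0 : 1 ≤ p0) (N : ℕ)
    (H : ∀ p : ℝ, p0 < p → ∃ C : ℝ≥0∞, C ≠ ∞ ∧ ∀ phi, cls phi →
      ∀ (c : Fin d → ℝ) (cs : Fin N → Fin d → ℝ), ∫⁻ ξ, ‖extn (famc phi c cs) ξ‖ₑ ^ p ≤ C) :
    ∀ p : ℝ, p0 < p → ∃ C : ℝ≥0∞, C ≠ ∞ ∧ ∀ phi, cls phi →
      ∀ (c : Fin d → ℝ) (cs : Fin N → Fin d → ℝ) (c1 : Fin d → ℝ),
      ∫⁻ ξ, ‖extn (fun x => famc phi c cs x * if 0 < fam phi c1 x then 1 else 0) ξ‖ₑ ^ p ≤ C := by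
  intro p hp
  obtain ⟨K1, hK1⟩ := hb
  obtain ⟨K2, κ0, hκ0, hK2⟩ := hs
  obtain ⟨K, hK0, hKK⟩ := f_l1 (sm n) (d * |K1|) |K2| κ0 (by positivity) (abs_nonneg _) hκ0
  set κ : ℝ := min (κ0 / 2) (1 / 2) with hκ
  have hκp : 0 < κ := lt_min (by positivity) (by norm_num)
  set p' : ℝ := (p0 + p) / 2 with hp'
  have hp'3 : p0 < p' := by rw [hp']; linarith
  have hp'p : p' < p := by rw [hp']; linarith
  have hpp : 0 < p := by linarith
  obtain ⟨C', hC', hC'b⟩ := H p' hp'3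
  obtain ⟨C0, hC0, hC0b⟩ := H p hp
  set θ : ℝ := (p - p') / p with hθ
  have hθ0 : 0 < θ := div_pos (by linarith) hpp
  have hν := f_nur_fin hκp hθ0
  set ν := f_nur κ θ with hνd
  set C2 : ℝ≥0∞ := ν univ ^ (p - 1) * (ENNReal.ofReal K ^ (p - p') * C' * ν univ) with hC2
  have hνu : ν univ ≠ ∞ := measure_ne_top ν univ
  have hC2f : C2 ≠ ∞ := by
    rw [hC2]
    refine ENNReal.mul_ne_top (ENNReal.rpow_ne_top_of_nonneg (by linarith) hνu) ?_
    exact ENNReal.mul_ne_top (ENNReal.mul_ne_top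
      (ENNReal.rpow_ne_top_of_nonneg (by linarith) ENNReal.ofReal_ne_top) hC') hνu
  refine ⟨2 ^ (p - 1) * (C0 + C2), ?_, ?_⟩
  · refine ENNReal.mul_ne_top (ENNReal.rpow_ne_top_of_nonneg (by linarith) (by norm_num)) ?_
    exact ENNReal.add_ne_top.2 ⟨hC0, hC2f⟩
  intro phi hphi
  have hm := hmu phi hphi
  have hfamb : ∀ c : Fin d → ℝ, ‖c‖ = 1 → ∀ x : S n, |fam phi c (x : E n)| ≤ d * |K1| := by
    intro c hc x
    unfold fam
    refine (Finset.abs_sum_le_sum_abs _ _).trans ?_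
    have : ∀ j ∈ (Finset.univ : Finset (Fin d)), |c j * phi j (x : E n)| ≤ |K1| := by
      intro j _
      rw [abs_mul]
      have h1 : |c j| ≤ 1 := by
        have := norm_le_pi_norm c j
        rwa [hc, Real.norm_eq_abs] at this
      have h2 : |phi j (x : E n)| ≤ |K1| := (hK1 phi hphi j x).trans (le_abs_self _)
      calc |c j| * |phi j (x : E n)| ≤ 1 * |K1| :=
            mul_le_mul h1 h2 (abs_nonneg _) zero_le_one
        _ = |K1| := one_mul _
    refine (Finset.sum_le_sum this).trans ?_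
    rw [Finset.sum_const, Finset.card_univ, Fintype.card_fin, nsmul_eq_mul]
  have hsub : ∀ c : Fin d → ℝ, ‖c‖ = 1 → ∀ δ : ℝ, 0 ≤ δ →
      sm n {x : S n | |fam phi c (x : E n)| ≤ δ} ≤ ENNReal.ofReal (|K2| * δ ^ κ0) := by
    intro c hc δ hδ
    refine (hK2 phi hphi c hc δ hδ).trans (ENNReal.ofReal_le_ofReal ?_)
    exact mul_le_mul_of_nonneg_right (le_abs_self _) (Real.rpow_nonneg hδ _)
  have hunif : ∀ (c : Fin d → ℝ) (cs : Fin N → Fin d → ℝ) (c1 : Fin d → ℝ), ‖c1‖ = 1 →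
      ∀ r : ℝ, 0 < r → ∀ ξ : E n, ‖extn (f_T phi c cs c1 r) ξ‖ₑ ≤ ENNReal.ofReal (K * f_wr κ r) := by
    intro c cs c1 hc1 r hr ξ
    refine (f_extn_le _ _).trans ?_
    refine le_trans ?_ (hKK (fun x : S n => fam phi c1 (x : E n))
      ((f_measurable_fam phi hm c1).comp measurable_subtype_coe) (hfamb c1 hc1) (hsub c1 hc1) r hr)
    apply lintegral_mono
    intro x
    simp only
    rw [← ofReal_norm]
    apply ENNReal.ofReal_le_ofReal
    unfold f_T
    rw [norm_mul, Complex.norm_real, Real.norm_eq_abs, abs_mul, Real.abs_exp]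
    exact mul_le_of_le_one_left (by positivity) (f_norm_famc_le _ _ _ _)
  -- the normalised case
  have main : ∀ (c : Fin d → ℝ) (cs : Fin N → Fin d → ℝ) (c1 : Fin d → ℝ), ‖c1‖ = 1 →
      ∫⁻ ξ, ‖extn (fun x => famc phi c cs x * if 0 < fam phi c1 x then 1 else 0) ξ‖ₑ ^ p ≤
        2 ^ (p - 1) * (C0 + C2) := by
    intro c cs c1 hc1
    have hnull : sm n {x : S n | fam phi c1 (x : E n) = 0} = 0 := by
      have h1 := hsub c1 hc1 0 le_rfl
      rw [Real.zero_rpow hκ0.ne', mul_zero, ENNReal.ofReal_zero] at h1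
      refine le_antisymm (le_trans (measure_mono ?_) h1) (zero_le)
      intro x hx
      simp only [mem_ofPred_eq] at hx ⊢
      rw [hx, abs_zero]
    set X : ℝ → E n → ℝ≥0∞ := fun r ξ => ‖extn (f_T phi c cs c1 r) ξ‖ₑ with hX
    have hXm : Measurable (Function.uncurry X) := by
      have := measurable_extn_param (fun r x => f_T phi c cs c1 r x) (f_T_meas phi hm c cs c1)
      exact this.enorm
    set F : ℝ → E n → ℝ≥0∞ := fun r ξ => X r ξ * ENNReal.ofReal (f_wr κ r ^ (-θ)) with hF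
    have hFm : Measurable (Function.uncurry F) := by
      refine hXm.mul (ENNReal.measurable_ofReal.comp ?_)
      exact ((f_wr_meas κ).comp measurable_fst).pow_const _
    have hY : ∀ ξ, ∫⁻ r in Ioi (0:ℝ), ENNReal.ofReal (1 / r) * X r ξ = ∫⁻ r, F r ξ ∂ν := by
      intro ξ
      have hFz : Measurable fun r => F r ξ := hFm.of_uncurry_right
      have hd : Measurable fun r : ℝ => ENNReal.ofReal (f_wr κ r ^ θ / r) :=
        ENNReal.measurable_ofReal.comp (((f_wr_meas κ).pow_const _).div measurable_id)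
      rw [hνd, f_nur, lintegral_withDensity_eq_lintegral_mul _ hd hFz]
      apply setLIntegral_congr_fun measurableSet_Ioi
      intro r hr
      have hr0 : 0 < r := hr
      have hw := f_wr_pos κ hr0
      simp only [Pi.mul_apply, hF]
      have e : ENNReal.ofReal (1 / r) = ENNReal.ofReal (f_wr κ r ^ θ / r) *
          ENNReal.ofReal (f_wr κ r ^ (-θ)) := by
        rw [← ENNReal.ofReal_mul (by positivity)]
        congr 1
        rw [Real.rpow_neg hw.le]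
        have : f_wr κ r ^ θ ≠ 0 := (Real.rpow_pos_of_pos hw _).ne'
        field_simp
      rw [e]
      ring
    have hFp : ∀ r, 0 < r → ∫⁻ ξ, F r ξ ^ p ≤ ENNReal.ofReal K ^ (p - p') * C' := by
      intro r hr
      have hw := f_wr_pos κ hr
      have hXp : ∀ ξ, F r ξ ^ p ≤ ENNReal.ofReal K ^ (p - p') * X r ξ ^ p' := by
        intro ξ
        have hXf : X r ξ ≤ ENNReal.ofReal (K * f_wr κ r) := hunif c cs c1 hc1 r hr ξ
        simp only [hF]
        rw [ENNReal.mul_rpow_of_nonneg _ _ hpp.le]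
        have e1 : X r ξ ^ p = X r ξ ^ (p - p') * X r ξ ^ p' := by
          rw [← ENNReal.rpow_add_of_nonneg _ _ (by linarith) (by linarith)]
          congr 1
          ring
        have e2 : X r ξ ^ (p - p') ≤ ENNReal.ofReal K ^ (p - p') *
            ENNReal.ofReal (f_wr κ r) ^ (p - p') := by
          rw [← ENNReal.mul_rpow_of_nonneg _ _ (by linarith), ← ENNReal.ofReal_mul hK0.le]
          exact ENNReal.rpow_le_rpow hXf (by linarith)
        have e3 : ENNReal.ofReal (f_wr κ r) ^ (p - p') *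
            ENNReal.ofReal (f_wr κ r ^ (-θ)) ^ p = 1 := by
          rw [ENNReal.ofReal_rpow_of_pos hw, ENNReal.ofReal_rpow_of_pos (Real.rpow_pos_of_pos hw _),
            ← ENNReal.ofReal_mul (by positivity), ← Real.rpow_mul hw.le, ← Real.rpow_add hw]
          have : p - p' + -θ * p = 0 := by
            rw [hθ]
            field_simp
            ring
          rw [this, Real.rpow_zero, ENNReal.ofReal_one]
        rw [e1]
        calc X r ξ ^ (p - p') * X r ξ ^ p' * ENNReal.ofReal (f_wr κ r ^ (-θ)) ^ p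
            ≤ (ENNReal.ofReal K ^ (p - p') * ENNReal.ofReal (f_wr κ r) ^ (p - p')) * X r ξ ^ p' *
                ENNReal.ofReal (f_wr κ r ^ (-θ)) ^ p := by gcongr
          _ = ENNReal.ofReal K ^ (p - p') * X r ξ ^ p' *
                (ENNReal.ofReal (f_wr κ r) ^ (p - p') * ENNReal.ofReal (f_wr κ r ^ (-θ)) ^ p) := by
              ring
          _ = _ := by rw [e3, mul_one]
      calc ∫⁻ ξ, F r ξ ^ p ≤ ∫⁻ ξ, ENNReal.ofReal K ^ (p - p') * X r ξ ^ p' := lintegral_mono hXp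
        _ = ENNReal.ofReal K ^ (p - p') * ∫⁻ ξ, X r ξ ^ p' := by
            rw [lintegral_const_mul' _ _
              (ENNReal.rpow_ne_top_of_nonneg (by linarith) ENNReal.ofReal_ne_top)]
        _ ≤ _ := mul_le_mul_right
            (f_damped phi hm p' (by linarith) C' (hC'b phi hphi) c cs c1 r) _
    have hYp : ∫⁻ ξ, (∫⁻ r, F r ξ ∂ν) ^ p ≤ C2 := by
      refine (mink ν volume F hFm p (by linarith)).trans ?_
      rw [hC2]
      apply mul_le_mul_right
      have hae : ∀ᵐ r ∂ν, ∫⁻ ξ, F r ξ ^ p ≤ ENNReal.ofReal K ^ (p - p') * C' := by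
        have h1 : ∀ᵐ r ∂(volume.restrict (Ioi (0:ℝ))),
            ∫⁻ ξ, F r ξ ^ p ≤ ENNReal.ofReal K ^ (p - p') * C' :=
          (ae_restrict_iff' measurableSet_Ioi).2 (Filter.Eventually.of_forall fun r hr => hFp r hr)
        exact (withDensity_absolutelyContinuous _ _).ae_le h1
      calc ∫⁻ r, (∫⁻ ξ, F r ξ ^ p) ∂ν ≤ ∫⁻ r, ENNReal.ofReal K ^ (p - p') * C' ∂ν :=
            lintegral_mono_ae hae
        _ = _ := by rw [lintegral_const]
    have hVm : Measurable fun ξ : E n => ‖extn (famc phi c cs) ξ‖ₑ ^ p :=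
      (measurable_extn _ (f_measurable_famc phi hm c cs)).enorm.pow_const _
    calc ∫⁻ ξ, ‖extn (fun x => famc phi c cs x * if 0 < fam phi c1 x then 1 else 0) ξ‖ₑ ^ p
        ≤ ∫⁻ ξ, 2 ^ (p - 1) * (‖extn (famc phi c cs) ξ‖ₑ ^ p + (∫⁻ r, F r ξ ∂ν) ^ p) := by
          apply lintegral_mono
          intro ξ
          have hz : ‖extn (fun x => famc phi c cs x * if 0 < fam phi c1 x then 1 else 0) ξ‖ₑ ≤
              ‖extn (famc phi c cs) ξ‖ₑ + ∫⁻ r, F r ξ ∂ν := by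
            have h1 := f_step phi hm c cs c1 hnull ξ
            have h2 := hY ξ
            simp only [hX] at h2
            rwa [h2] at h1
          have hz2 := ENNReal.rpow_le_rpow hz hpp.le
          exact hz2.trans (ENNReal.rpow_add_le_mul_rpow_add_rpow _ _ (by linarith))
      _ = 2 ^ (p - 1) * ((∫⁻ ξ, ‖extn (famc phi c cs) ξ‖ₑ ^ p) +
            ∫⁻ ξ, (∫⁻ r, F r ξ ∂ν) ^ p) := by
          rw [lintegral_const_mul' _ _ (ENNReal.rpow_ne_top_of_nonneg (by linarith) (by norm_num)),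
            lintegral_add_left hVm]
      _ ≤ _ := mul_le_mul_right (add_le_add (hC0b phi hphi c cs) hYp) _
  intro c cs c1
  by_cases hc1 : c1 = 0
  · subst hc1
    have h0 : ∀ x, fam phi (0 : Fin d → ℝ) x = 0 := by
      intro x
      unfold fam
      simp
    have hV : ∀ ξ, extn (fun x => famc phi c cs x *
        if 0 < fam phi (0 : Fin d → ℝ) x then 1 else 0) ξ = 0 := by
      intro ξ
      unfold extn
      simp [h0]
    simp only [hV]
    simp [ENNReal.zero_rpow_of_pos hpp]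
  · have hn : 0 < ‖c1‖ := norm_pos_iff.2 hc1
    have hcut : ∀ x, (if 0 < fam phi c1 x then (1:ℂ) else 0) =
        if 0 < fam phi (‖c1‖⁻¹ • c1) x then 1 else 0 := by
      intro x
      rw [f_fam_smul]
      have : 0 < ‖c1‖⁻¹ := inv_pos.2 hn
      congr 1
      rw [eq_iff_iff]
      exact (mul_pos_iff_of_pos_left this).symm
    have := main c cs (‖c1‖⁻¹ • c1) (by rw [norm_smul, norm_inv, norm_norm, inv_mul_cancel₀ hn.ne'])
    simpa only [hcut] using this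

/-- **Cuts.** -/
theorem cuts {n d : ℕ} (p0 : ℝ) (hp0 : 1 ≤ p0) {cls : (Fin d → E n → ℝ) → Prop}
    (hm : ∀ phi, cls phi → ∀ j, Measurable (phi j))
    (hb : ∃ K : ℝ, ∀ phi, cls phi → ∀ j, ∀ x : E n, ‖x‖ = 1 → |phi j x| ≤ K)
    (hs : ∃ K κ : ℝ, 0 ≤ K ∧ 0 < κ ∧ ∀ phi, cls phi → ∀ c : Fin d → ℝ, ‖c‖ = 1 → ∀ δ : ℝ, 0 ≤ δ →
      sm n {x : S n | |fam phi c x| ≤ δ} ≤ ENNReal.ofReal (K * δ ^ κ))
    (H : ∀ p : ℝ, p0 < p → ∃ C : ℝ≥0∞, C ≠ ∞ ∧ ∀ phi, cls phi → ∀ c : Fin d → ℝ,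
      ∫⁻ ξ, ‖extn (fun x : E n => Complex.exp (((fam phi c x : ℝ) : ℂ) * Complex.I)) ξ‖ₑ ^ p ≤ C)
    (N : ℕ) : ∀ p : ℝ, p0 < p → ∃ C : ℝ≥0∞, C ≠ ∞ ∧ ∀ phi, cls phi →
      ∀ (c : Fin d → ℝ) (cs : Fin N → Fin d → ℝ), ∫⁻ ξ, ‖extn (famc phi c cs) ξ‖ₑ ^ p ≤ C := by
  have hb' : ∃ K : ℝ, ∀ phi, cls phi → ∀ j, ∀ x : S n, |phi j (x : E n)| ≤ K := by
    obtain ⟨K, hK⟩ := hb
    exact ⟨K, fun phi hphi j x => hK phi hphi j x (norm_eq_of_mem_sphere x)⟩
  have hs' : ∃ K κ : ℝ, 0 < κ ∧ ∀ phi, cls phi → ∀ c : Fin d → ℝ, ‖c‖ = 1 → ∀ δ : ℝ, 0 ≤ δ →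
      sm n {x : S n | |fam phi c (x : E n)| ≤ δ} ≤ ENNReal.ofReal (K * δ ^ κ) := by
    obtain ⟨K, κ, _, h⟩ := hs
    exact ⟨K, κ, h⟩
  induction N with
  | zero =>
    intro p hp
    obtain ⟨C, hC, h⟩ := H p hp
    refine ⟨C, hC, fun phi hphi c cs => ?_⟩
    refine le_trans (le_of_eq ?_) (h phi hphi c)
    refine lintegral_congr fun ξ => ?_
    congr 3
    funext x
    unfold famc
    rw [Fin.prod_univ_zero, mul_one]
  | succ N ih =>
    intro p hp
    obtain ⟨C, hC, h⟩ := f_one_cut hm hb' hs' p0 hp0 N ih p hp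
    refine ⟨C, hC, fun phi hphi c cs => ?_⟩
    have h1 : famc phi c cs = fun x => famc phi c (fun i : Fin N => cs i.castSucc) x *
        if 0 < fam phi (cs (Fin.last N)) x then 1 else 0 := by
      funext x
      unfold famc
      rw [Fin.prod_univ_castSucc, mul_assoc]
    rw [h1]
    exact h phi hphi c (fun i : Fin N => cs i.castSucc) (cs (Fin.last N))

end Pool.Agent.VAN.FT
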