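import Pool.Agent.VAN.FTE
import Pool.Agent.VAN.FTF
import Pool.Agent.VAN.FTG
import Pool.Agent.VAN.G
import Pool.Agent.VAN.H2

/-!
Families of finite type: the uniform restriction estimate, with cuts.
-/

set_option autoImplicit false

namespace Pool.Agent.VAN

open MeasureTheory Set Metric Pool.Agent.MP_6cbfb8_an
open scoped ENNReal Real

/-- The functions `φ j` are smooth, their derivatives of order `k` are at most `B k` in the ball of
radius two, and the linear combinations of them are of type `m` modulo linear functions with the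
constant `c`. -/
def FinType {d : ℕ} (m : ℕ) (c : ℝ) (B : ℕ → ℝ) (φ : Fin d → E 3 → ℝ) : Prop :=
  (∀ j, ContDiff ℝ ((⊤ : ℕ∞) : WithTop ℕ∞) (φ j)) ∧
  (∀ j k (y : E 3), ‖y‖ ≤ 2 → ‖iteratedFDeriv ℝ k (φ j) y‖ ≤ B k) ∧
  ∀ a : Fin d → ℝ, FT.Typ m c ‖a‖ (fam φ a)

/-- The density `e^{iu} ∏ 1_{v_i > 0}`, where `u` is the linear combination of the `φ j` with
coefficients `a`, and `v_i` the one with coefficients `b i`, plus `⟨x, ζ i⟩ + κ i`. -/
noncomputable def famA {n d N : ℕ} (φ : Fin d → E n → ℝ) (a : Fin d → ℝ) (b : Fin N → Fin d → ℝ)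
    (ζ : Fin N → E n) (κ : Fin N → ℝ) (x : E n) : ℂ :=
  Complex.exp (((fam φ a x : ℝ) : ℂ) * Complex.I) *
    ∏ i, if 0 < fam φ (b i) x + inner ℝ x (ζ i) + κ i then 1 else 0

namespace FT

theorem fam_contDiff {d : ℕ} {φ : Fin d → E 3 → ℝ}
    (hφ : ∀ j, ContDiff ℝ ((⊤ : ℕ∞) : WithTop ℕ∞) (φ j)) (a : Fin d → ℝ) (K : ℕ) :
    ContDiff ℝ K (fam φ a) := by
  unfold fam
  refine ContDiff.sum fun j _ => contDiff_const.mul ((hφ j).of_le ?_)
  exact_mod_cast le_top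

theorem fam_iter_le {d : ℕ} {φ : Fin d → E 3 → ℝ}
    (hφ : ∀ j, ContDiff ℝ ((⊤ : ℕ∞) : WithTop ℕ∞) (φ j)) {B : ℕ → ℝ}
    (hB : ∀ j k (y : E 3), ‖y‖ ≤ 2 → ‖iteratedFDeriv ℝ k (φ j) y‖ ≤ B k) (a : Fin d → ℝ) (k : ℕ)
    {y : E 3} (hy : ‖y‖ ≤ 2) : ‖iteratedFDeriv ℝ k (fam φ a) y‖ ≤ d * |B k| * ‖a‖ := by
  have h1 : ∀ j, ContDiff ℝ k (φ j) := fun j => (hφ j).of_le (by exact_mod_cast le_top)
  have e : fam φ a = fun x => ∑ j, a j • φ j x := by
    funext x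
    simp [fam]
  rw [e, iteratedFDeriv_fun_sum_apply fun j _ => ((h1 j).const_smul (a j)).contDiffAt]
  refine (norm_sum_le _ _).trans ?_
  have h2 : ∀ j ∈ (Finset.univ : Finset (Fin d)),
      ‖iteratedFDeriv ℝ k (fun x => a j • φ j x) y‖ ≤ |B k| * ‖a‖ := by
    intro j _
    rw [iteratedFDeriv_const_smul_apply' (h1 j).contDiffAt, norm_smul, mul_comm]
    exact mul_le_mul ((hB j k y hy).trans (le_abs_self _)) (norm_le_pi_norm a j) (norm_nonneg _)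
      (abs_nonneg _)
  refine (Finset.sum_le_sum h2).trans ?_
  rw [Finset.sum_const, Finset.card_univ, Fintype.card_fin, nsmul_eq_mul]
  exact le_of_eq (by ring)

theorem Typ.pos {m : ℕ} {c L : ℝ} {ψ : E 3 → ℝ} (h : Typ m c L ψ) : 1 ≤ m := by
  obtain ⟨x, hx, -⟩ := exists_unit_orth (0 : E3)
  obtain ⟨u, v, -, k, h1, h2, -⟩ := h x 0 hx
  omega

/-- the smoothness needed for the exponent `p` -/
theorem exists_K (m : ℕ) {p : ℝ} (hp : 3 < p) : ∃ K : ℕ, m + 2 ≤ K ∧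
    3 * ((K : ℝ) + 3) * (K + 3 * m) < p * K ^ 2 := by
  obtain ⟨n, hn⟩ := exists_nat_gt (36 * ((m : ℝ) + 1) / (p - 3))
  have hp3 : 0 < p - 3 := by linarith
  rw [div_lt_iff₀ hp3] at hn
  refine ⟨n + m + 2, by omega, ?_⟩
  push_cast
  have hm0 : (0 : ℝ) ≤ m := Nat.cast_nonneg m
  have hn0 : (0 : ℝ) ≤ n := Nat.cast_nonneg n
  set K : ℝ := (n : ℝ) + m + 2 with hK
  have hK1 : (n : ℝ) ≤ K := by linarith
  have hK2 : (m : ℝ) ≤ K := by linarith
  have h1 : 36 * ((m : ℝ) + 1) < K * (p - 3) :=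
    hn.trans_le (mul_le_mul_of_nonneg_right hK1 hp3.le)
  have h2 : 36 * ((m : ℝ) + 1) * K ≤ K * (p - 3) * K :=
    mul_le_mul_of_nonneg_right h1.le (by linarith)
  have h3 : (1 : ℝ) ≤ K := by linarith
  have h4 : (p - 3) * K ^ 2 ≥ 36 * ((m : ℝ) + 1) * K := by nlinarith
  have h5 : 3 * (K + 3) * (K + 3 * m) = 3 * K ^ 2 + 9 * (m + 1) * K + 27 * m := by ring
  rw [h5]
  nlinarith

/-- no cuts -/
theorem fin_nocut {d : ℕ} (m : ℕ) (c : ℝ) (hc : 0 < c) (B : ℕ → ℝ) (p : ℝ) (hp : 3 < p) :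
    ∃ C : ℝ≥0∞, C ≠ ∞ ∧ ∀ φ : Fin d → E 3 → ℝ, FinType m c B φ → ∀ a : Fin d → ℝ,
      ∫⁻ ξ, ‖extn (fun x => Complex.exp (((fam φ a x : ℝ) : ℂ) * Complex.I)) ξ‖ₑ ^ p ≤ C := by
  rcases Nat.eq_zero_or_pos m with rfl | hm
  · exact ⟨0, by simp, fun φ hφ a => absurd (hφ.2.2 a).pos (by norm_num)⟩
  obtain ⟨K, hmK, hK⟩ := exists_K m hp
  obtain ⟨C, hC, H⟩ := typ_bound m K hm hmK p hK c (d * ∑ k ∈ Finset.range (K + 1), |B k|) hc
  refine ⟨C, hC, fun φ hφ a => ?_⟩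
  refine H ‖a‖ (fam φ a) (norm_nonneg _) (fam_contDiff hφ.1 a K) ?_ (hφ.2.2 a)
  intro j _ hj y hy
  refine (fam_iter_le hφ.1 hφ.2.1 a j hy).trans ?_
  refine mul_le_mul_of_nonneg_right ?_ (norm_nonneg _)
  refine mul_le_mul_of_nonneg_left ?_ (Nat.cast_nonneg _)
  exact Finset.single_le_sum (f := fun k => |B k|) (fun i _ => abs_nonneg _)
    (Finset.mem_range.2 (by omega))

/-- the coordinates and the constant `1` -/
noncomputable def aff (i : Fin 4) (x : E 3) : ℝ := if h : (i : ℕ) < 3 then x ⟨i, h⟩ else 1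

theorem fam_aff (C : Fin 4 → ℝ) (x : E 3) : fam aff C x =
    inner ℝ x (WithLp.toLp 2 (fun j : Fin 3 => C (Fin.castSucc j)) : E 3) + C 3 := by
  rw [inner_sum]
  unfold fam aff
  rw [Fin.sum_univ_four]
  simp
  ring

theorem fam_append {d e : ℕ} (φ : Fin d → E 3 → ℝ) (ψ : Fin e → E 3 → ℝ) (a : Fin d → ℝ)
    (b : Fin e → ℝ) (x : E 3) :
    fam (Fin.append φ ψ) (Fin.append a b) x = fam φ a x + fam ψ b x := by
  unfold fam
  rw [Fin.sum_univ_add]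
  simp only [Fin.append_left, Fin.append_right]

theorem append_split' {d e : ℕ} (c : Fin (d + e) → ℝ) : ∃ (a : Fin d → ℝ) (b : Fin e → ℝ),
    c = Fin.append a b :=
  ⟨fun i => c (Fin.castAdd e i), fun i => c (Fin.natAdd d i), by
    funext i
    refine Fin.addCases (fun j => ?_) (fun j => ?_) i
    · rw [Fin.append_left]
    · rw [Fin.append_right]⟩

theorem abs_coord_le {x : E 3} (hx : ‖x‖ = 1) (j : Fin 3) : |x j| ≤ 1 := by
  have h := EuclideanSpace.norm_sq_eq x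
  rw [hx, one_pow] at h
  have h2 : ‖x j‖ ^ 2 ≤ ∑ i, ‖x i‖ ^ 2 :=
    Finset.single_le_sum (f := fun i => ‖x i‖ ^ 2) (fun i _ => by positivity) (Finset.mem_univ j)
  rw [← h, Real.norm_eq_abs, sq_abs] at h2
  rw [← sq_abs] at h2
  nlinarith [abs_nonneg (x j)]

theorem abs_aff_le {x : E 3} (hx : ‖x‖ = 1) (i : Fin 4) : |aff i x| ≤ 1 := by
  unfold aff
  split_ifs with h
  · exact abs_coord_le hx _
  · simp

/-- the class of the families extended by the affine functions -/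
def cls {d : ℕ} (m : ℕ) (c : ℝ) (B : ℕ → ℝ) (Φ : Fin (d + 4) → E 3 → ℝ) : Prop :=
  ∃ φ : Fin d → E 3 → ℝ, FinType m c B φ ∧ Φ = Fin.append φ aff

theorem continuous_aff (i : Fin 4) : Continuous (aff i) := by
  unfold aff
  split_ifs with h
  · fun_prop
  · fun_prop

theorem cls_meas {d m : ℕ} {c : ℝ} {B : ℕ → ℝ} {Φ : Fin (d + 4) → E 3 → ℝ} (h : cls m c B Φ)
    (j : Fin (d + 4)) : Continuous (Φ j) := by
  obtain ⟨φ, hφ, rfl⟩ := h
  refine Fin.addCases (fun i => ?_) (fun i => ?_) j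
  · rw [Fin.append_left]
    exact (hφ.1 i).continuous
  · rw [Fin.append_right]
    exact continuous_aff i

theorem abs_fam_le {d : ℕ} {φ : Fin d → E 3 → ℝ} {M : ℝ} {x : E 3} (h : ∀ j, |φ j x| ≤ M)
    (a : Fin d → ℝ) : |fam φ a x| ≤ d * M * ‖a‖ := by
  unfold fam
  refine (Finset.abs_sum_le_sum_abs _ _).trans ?_
  have h2 : ∀ j ∈ (Finset.univ : Finset (Fin d)), |a j * φ j x| ≤ M * ‖a‖ := by
    intro j _
    rw [abs_mul, mul_comm]
    exact mul_le_mul (h j) (norm_le_pi_norm a j) (abs_nonneg _) ((abs_nonneg _).trans (h j))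
  refine (Finset.sum_le_sum h2).trans ?_
  rw [Finset.sum_const, Finset.card_univ, Fintype.card_fin, nsmul_eq_mul]
  exact le_of_eq (by ring)

end FT

end Pool.Agent.VAN
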