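import Pool.Agent.VAN.FVE
import Pool.Agent.VAN.FTJ

/-!
Families without flat points and amplitudes of bounded variation.
-/

set_option autoImplicit false

namespace Pool.Agent.VAN

open MeasureTheory Set Pool.Agent.MP_6cbfb8_an Pool.Agent.BVA
open scoped ENNReal Real

/-- **Families without flat points**, with cuts and an amplitude of bounded variation. -/
theorem main_nf_amp {d : ℕ} (φ : Fin d → E 3 → ℝ) (hφ : Nonflat φ) (N : ℕ) (V : ℝ) (p : ℝ)
    (hp : 3 < p) : ∃ C : ℝ≥0∞, C ≠ ∞ ∧ ∀ g : E 3 → ℂ, Measurable g → (∀ x, ‖g x‖ ≤ 1) →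
      BVar 1 V g → ∀ (a : Fin d → ℝ) (b : Fin N → Fin d → ℝ),
        ∫⁻ ξ, ‖extn (fun x => g x * famc φ a b x) ξ‖ₑ ^ p ≤ C := by
  obtain ⟨d', m, c, B, ψ, hc, hψ, L, Z, κ, hL⟩ := nonflat_finType φ hφ
  obtain ⟨C, hC, H⟩ := FT.fin_bound_bv FT.bb (V := max V 1) (le_max_right _ _) (d := d') N m c hc
    B p hp
  refine ⟨C, hC, fun g hg hg1 hgV a b => ?_⟩
  have hAV : FT.AV (max V 1) g := ⟨hg, hg1, fun r hr => (hgV r hr).trans
    (ENNReal.ofReal_le_ofReal (mul_le_mul_of_nonneg_right (le_max_left _ _) (by positivity)))⟩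
  have h := H ψ g hψ hAV (L a) (fun i => L (b i)) (fun i => Z (b i)) (fun i => κ (b i))
  refine le_trans (le_of_eq ?_) h
  rw [← lint_mod (fun x => g x * famA ψ (L a) (fun i => L (b i)) (fun i => Z (b i))
    (fun i => κ (b i)) x) (Z a) (κ a) p]
  refine lintegral_congr fun ξ => ?_
  congr 2
  refine extn_congr (fun x hx => ?_) ξ
  have hx1 : ‖x‖ = 1 := by simpa using hx
  have e1 : famc φ a b x = Complex.exp (((inner ℝ x (Z a) + κ a : ℝ) : ℂ) * Complex.I) *
      famA ψ (L a) (fun i => L (b i)) (fun i => Z (b i)) (fun i => κ (b i)) x := by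
    unfold famc famA
    rw [← mul_assoc, ← Complex.exp_add, hL a x hx1]
    congr 1
    · congr 1
      push_cast
      ring
    · exact Finset.prod_congr rfl fun i _ => by rw [hL (b i) x hx1]
  rw [e1]
  ring

end Pool.Agent.VAN
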