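import Mathlib

/-!
# Van der Corput's lemma in one variable (chain form)

`h : ℕ → ℝ → ℝ` is a chain of derivatives on `[a,b]`: `h (i+1)` is the derivative of `h i` there.
-/

open MeasureTheory Set intervalIntegral Complex
open scoped ContDiff Interval

noncomputable section

namespace Pool.Agent.VAN

/-- `e^{ix}`. -/
def ei (x : ℝ) : ℂ := Complex.exp (x * Complex.I)

theorem norm_ei (x : ℝ) : ‖ei x‖ = 1 := Complex.norm_exp_ofReal_mul_I x

theorem continuous_ei : Continuous ei := by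
  unfold ei
  fun_prop

theorem ei_neg (x : ℝ) : ei (-x) = (starRingEnd ℂ) (ei x) := by
  unfold ei
  rw [← Complex.exp_conj]
  congr 1
  simp

theorem hasDerivAt_ei {u : ℝ → ℝ} {u' : ℝ} {t : ℝ} (h : HasDerivAt u u' t) :
    HasDerivAt (fun s => ei (u s)) (Complex.I * u' * ei (u t)) t := by
  unfold ei
  have h1 : HasDerivAt (fun s => (u s : ℂ) * Complex.I) (u' * Complex.I) t :=
    (h.ofReal_comp).mul_const _
  have h2 := h1.cexp
  convert h2 using 1
  ring

/-- The basic estimate: integration by parts. -/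
theorem vdc_base {a b c : ℝ} (hab : a ≤ b) (hc : 0 < c) {u u1 u2 : ℝ → ℝ}
    (hd1 : ∀ t ∈ Icc a b, HasDerivAt u (u1 t) t) (hd2 : ∀ t ∈ Icc a b, HasDerivAt u1 (u2 t) t)
    (hc2 : ContinuousOn u2 (Icc a b)) (h1 : ∀ t ∈ Icc a b, c ≤ |u1 t|) :
    ‖∫ t in a..b, ei (u t)‖ ≤ 2 / c + ∫ t in a..b, |u2 t| / (u1 t) ^ 2 := by
  have hc0 : ContinuousOn u (Icc a b) := fun t ht => (hd1 t ht).continuousAt.continuousWithinAt
  have hc1 : ContinuousOn u1 (Icc a b) := fun t ht => (hd2 t ht).continuousAt.continuousWithinAt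
  have hne : ∀ t ∈ Icc a b, u1 t ≠ 0 := by
    intro t ht h0
    have := h1 t ht
    rw [h0, abs_zero] at this
    linarith
  have hIcc : uIcc a b = Icc a b := uIcc_of_le hab
  -- the functions
  set v : ℝ → ℂ := fun t => (Complex.I * ((u1 t : ℝ) : ℂ))⁻¹ with hv
  set v' : ℝ → ℂ := fun t => -(Complex.I * ((u2 t : ℝ) : ℂ)) / (Complex.I * ((u1 t : ℝ) : ℂ)) ^ 2
    with hv'
  have hneC : ∀ t ∈ Icc a b, Complex.I * ((u1 t : ℝ) : ℂ) ≠ 0 := by
    intro t ht
    exact mul_ne_zero Complex.I_ne_zero (Complex.ofReal_ne_zero.2 (hne t ht))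
  have hdv : ∀ t ∈ uIcc a b, HasDerivAt v (v' t) t := by
    intro t ht
    rw [hIcc] at ht
    have h3 : HasDerivAt (fun s => Complex.I * ((u1 s : ℝ) : ℂ)) (Complex.I * ((u2 t : ℝ) : ℂ)) t :=
      ((hd2 t ht).ofReal_comp).const_mul _
    exact h3.fun_inv (hneC t ht)
  have hde : ∀ t ∈ uIcc a b, HasDerivAt (fun s => ei (u s)) (Complex.I * ((u1 t : ℝ) : ℂ) * ei (u t)) t :=
    fun t ht => hasDerivAt_ei (hd1 t (hIcc ▸ ht))
  have hcI : ∀ {g : ℝ → ℝ}, ContinuousOn g (Icc a b) →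
      ContinuousOn (fun t => Complex.I * ((g t : ℝ) : ℂ)) (Icc a b) := fun hg =>
    continuousOn_const.mul (Complex.continuous_ofReal.comp_continuousOn hg)
  have hcv' : ContinuousOn v' (uIcc a b) := by
    rw [hIcc]
    apply ContinuousOn.div
    · exact (hcI hc2).neg
    · exact (hcI hc1).pow 2
    · intro t ht
      exact pow_ne_zero 2 (hneC t ht)
  have hce : ContinuousOn (fun t => Complex.I * ((u1 t : ℝ) : ℂ) * ei (u t)) (uIcc a b) := by
    rw [hIcc]
    exact (hcI hc1).mul (continuous_ei.comp_continuousOn hc0)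
  have hip := intervalIntegral.integral_mul_deriv_eq_deriv_mul hdv hde
    (hcv'.intervalIntegrable) (hce.intervalIntegrable)
  have hL : ∫ t in a..b, v t * (Complex.I * ((u1 t : ℝ) : ℂ) * ei (u t)) = ∫ t in a..b, ei (u t) := by
    apply intervalIntegral.integral_congr
    intro t ht
    rw [hIcc] at ht
    show v t * (Complex.I * ((u1 t : ℝ) : ℂ) * ei (u t)) = ei (u t)
    rw [hv]
    rw [← mul_assoc, inv_mul_cancel₀ (hneC t ht), one_mul]
  rw [hL] at hip
  rw [hip]
  have hnv : ∀ t ∈ Icc a b, ‖v t‖ ≤ 1 / c := by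
    intro t ht
    rw [hv]
    simp only [norm_inv, norm_mul, Complex.norm_I, one_mul, Complex.norm_real, Real.norm_eq_abs]
    rw [one_div]
    exact inv_anti₀ hc (h1 t ht)
  have hb1 : ‖v b * ei (u b)‖ ≤ 1 / c := by
    rw [norm_mul, norm_ei, mul_one]
    exact hnv b (right_mem_Icc.2 hab)
  have ha1 : ‖v a * ei (u a)‖ ≤ 1 / c := by
    rw [norm_mul, norm_ei, mul_one]
    exact hnv a (left_mem_Icc.2 hab)
  have hI : ‖∫ t in a..b, v' t * ei (u t)‖ ≤ ∫ t in a..b, |u2 t| / (u1 t) ^ 2 := by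
    have h5 : ‖∫ t in a..b, v' t * ei (u t)‖ ≤ ∫ t in a..b, ‖v' t * ei (u t)‖ :=
      intervalIntegral.norm_integral_le_integral_norm hab
    refine h5.trans (le_of_eq ?_)
    apply intervalIntegral.integral_congr
    intro t ht
    show ‖v' t * ei (u t)‖ = |u2 t| / (u1 t) ^ 2
    rw [norm_mul, norm_ei, mul_one, hv']
    simp only [norm_div, norm_neg, norm_mul, Complex.norm_I, one_mul, Complex.norm_real,
      Real.norm_eq_abs, norm_pow, sq_abs]
  calc ‖v b * ei (u b) - v a * ei (u a) - ∫ t in a..b, v' t * ei (u t)‖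
      ≤ ‖v b * ei (u b) - v a * ei (u a)‖ + ‖∫ t in a..b, v' t * ei (u t)‖ := norm_sub_le _ _
    _ ≤ (‖v b * ei (u b)‖ + ‖v a * ei (u a)‖) + ‖∫ t in a..b, v' t * ei (u t)‖ := by
        gcongr
        exact norm_sub_le _ _
    _ ≤ (1 / c + 1 / c) + ∫ t in a..b, |u2 t| / (u1 t) ^ 2 := by gcongr
    _ = 2 / c + ∫ t in a..b, |u2 t| / (u1 t) ^ 2 := by ring

/-- First derivative large, second derivative bounded. -/
theorem vdc_bdd {a b c A : ℝ} (hab : a ≤ b) (hc : 0 < c) (hA : 0 ≤ A) {u u1 u2 : ℝ → ℝ}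
    (hd1 : ∀ t ∈ Icc a b, HasDerivAt u (u1 t) t) (hd2 : ∀ t ∈ Icc a b, HasDerivAt u1 (u2 t) t)
    (hc2 : ContinuousOn u2 (Icc a b)) (h1 : ∀ t ∈ Icc a b, c ≤ |u1 t|)
    (h2 : ∀ t ∈ Icc a b, |u2 t| ≤ A * c) :
    ‖∫ t in a..b, ei (u t)‖ ≤ (2 + A * (b - a)) / c := by
  refine (vdc_base hab hc hd1 hd2 hc2 h1).trans ?_
  have hc1 : ContinuousOn u1 (Icc a b) := fun t ht => (hd2 t ht).continuousAt.continuousWithinAt
  have hne : ∀ t ∈ Icc a b, u1 t ≠ 0 := by
    intro t ht h0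
    have := h1 t ht
    rw [h0, abs_zero] at this
    linarith
  have hcont : ContinuousOn (fun t => |u2 t| / (u1 t) ^ 2) (Icc a b) := by
    apply ContinuousOn.div
    · exact hc2.abs
    · exact hc1.pow 2
    · intro t ht
      exact pow_ne_zero 2 (hne t ht)
  have h3 : ∫ t in a..b, |u2 t| / (u1 t) ^ 2 ≤ ∫ _ in a..b, A / c := by
    apply intervalIntegral.integral_mono_on hab
    · apply ContinuousOn.intervalIntegrable
      rw [uIcc_of_le hab]
      exact hcont
    · exact intervalIntegrable_const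
    · intro t ht
      have h4 : c ^ 2 ≤ (u1 t) ^ 2 := by
        rw [← sq_abs (u1 t)]
        exact pow_le_pow_left₀ hc.le (h1 t ht) 2
      calc |u2 t| / (u1 t) ^ 2 ≤ (A * c) / c ^ 2 := by
            apply div_le_div₀ (by positivity) (h2 t ht) (by positivity) h4
        _ = A / c := by field_simp
  rw [intervalIntegral.integral_const, smul_eq_mul] at h3
  calc 2 / c + ∫ t in a..b, |u2 t| / (u1 t) ^ 2 ≤ 2 / c + (b - a) * (A / c) := by
        gcongr
    _ = (2 + A * (b - a)) / c := by ring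

/-- First derivative large and increasing. -/
theorem vdc_mono {a b c : ℝ} (hab : a ≤ b) (hc : 0 < c) {u u1 u2 : ℝ → ℝ}
    (hd1 : ∀ t ∈ Icc a b, HasDerivAt u (u1 t) t) (hd2 : ∀ t ∈ Icc a b, HasDerivAt u1 (u2 t) t)
    (hc2 : ContinuousOn u2 (Icc a b)) (h1 : ∀ t ∈ Icc a b, c ≤ |u1 t|)
    (h2 : ∀ t ∈ Icc a b, 0 ≤ u2 t) :
    ‖∫ t in a..b, ei (u t)‖ ≤ 3 / c := by
  refine (vdc_base hab hc hd1 hd2 hc2 h1).trans ?_
  have hc1 : ContinuousOn u1 (Icc a b) := fun t ht => (hd2 t ht).continuousAt.continuousWithinAt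
  have hne : ∀ t ∈ Icc a b, u1 t ≠ 0 := by
    intro t ht h0
    have := h1 t ht
    rw [h0, abs_zero] at this
    linarith
  -- 1/u' has derivative - u''/u'^2
  have h3 : ∫ t in a..b, |u2 t| / (u1 t) ^ 2 = (u1 a)⁻¹ - (u1 b)⁻¹ := by
    have h4 : ∫ t in a..b, -(u2 t) / (u1 t) ^ 2 = (u1 b)⁻¹ - (u1 a)⁻¹ := by
      apply intervalIntegral.integral_eq_sub_of_hasDerivAt
      · intro t ht
        rw [uIcc_of_le hab] at ht
        exact (hd2 t ht).fun_inv (hne t ht)
      · apply ContinuousOn.intervalIntegrable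
        rw [uIcc_of_le hab]
        apply ContinuousOn.div
        · exact hc2.neg
        · exact hc1.pow 2
        · intro t ht
          exact pow_ne_zero 2 (hne t ht)
    have h5 : ∫ t in a..b, |u2 t| / (u1 t) ^ 2 = - ∫ t in a..b, -(u2 t) / (u1 t) ^ 2 := by
      rw [← intervalIntegral.integral_neg]
      apply intervalIntegral.integral_congr
      intro t ht
      rw [uIcc_of_le hab] at ht
      show |u2 t| / (u1 t) ^ 2 = -(-(u2 t) / (u1 t) ^ 2)
      rw [abs_of_nonneg (h2 t ht)]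
      ring
    rw [h5, h4]
    ring
  rw [h3]
  -- constant sign
  have hsign : (∀ t ∈ Icc a b, 0 < u1 t) ∨ (∀ t ∈ Icc a b, u1 t < 0) := by
    by_contra hcon
    push Not at hcon
    obtain ⟨⟨s, hs, hs'⟩, ⟨t, ht, ht'⟩⟩ := hcon
    have hpre : IsPreconnected (Icc a b) := isPreconnected_Icc
    obtain ⟨x, hx, hx'⟩ := hpre.intermediate_value hs ht hc1 ⟨hs', ht'⟩
    exact hne x hx hx'
  have ha := left_mem_Icc.2 hab
  have hb := right_mem_Icc.2 hab
  have h6 : (u1 a)⁻¹ - (u1 b)⁻¹ ≤ 1 / c := by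
    rcases hsign with h | h
    · have e1 : (u1 a)⁻¹ ≤ 1 / c := by
        rw [one_div]
        apply inv_anti₀ hc
        have := h1 a ha
        rwa [abs_of_pos (h a ha)] at this
      have e2 : 0 < (u1 b)⁻¹ := inv_pos.2 (h b hb)
      linarith
    · have e1 : -(u1 b)⁻¹ ≤ 1 / c := by
        rw [one_div, ← inv_neg]
        apply inv_anti₀ hc
        have := h1 b hb
        rwa [abs_of_neg (h b hb)] at this
      have e2 : (u1 a)⁻¹ < 0 := inv_lt_zero.2 (h a ha)
      linarith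
  calc 2 / c + ((u1 a)⁻¹ - (u1 b)⁻¹) ≤ 2 / c + 1 / c := by gcongr
    _ = 3 / c := by ring

theorem integral_ei_neg (u : ℝ → ℝ) (a b : ℝ) :
    ‖∫ t in a..b, ei (-(u t))‖ = ‖∫ t in a..b, ei (u t)‖ := by
  have h : (∫ t in a..b, ei (-(u t))) = (starRingEnd ℂ) (∫ t in a..b, ei (u t)) := by
    rw [← intervalIntegral_conj]
    simp only [ei_neg]
  rw [h, RCLike.norm_conj]

theorem triv_ei (u : ℝ → ℝ) {a b : ℝ} (hab : a ≤ b) : ‖∫ t in a..b, ei (u t)‖ ≤ b - a := by
  have := intervalIntegral.norm_integral_le_of_norm_le_const (a := a) (b := b) (C := 1)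
    (f := fun t => ei (u t)) (fun t _ => (norm_ei _).le)
  rwa [one_mul, abs_of_nonneg (by linarith)] at this

/-- constants -/
def VC : ℕ → ℝ
  | 0 => 3
  | k + 1 => 2 * VC k + 2

theorem VC_pos (k : ℕ) : 0 < VC k := by
  induction k with
  | zero => norm_num [VC]
  | succ k ih => simp only [VC]; linarith

theorem VC_mono : Monotone VC := by
  apply monotone_nat_of_le_succ
  intro n
  have := VC_pos n
  simp only [VC]
  linarith

/-- a point from which the derivative grows linearly -/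
theorem vdc_point {a b c : ℝ} (hab : a ≤ b) {g g' : ℝ → ℝ}
    (hg : ∀ t ∈ Icc a b, HasDerivAt g (g' t) t) (h : ∀ t ∈ Icc a b, c ≤ g' t) :
    ∃ t0 ∈ Icc a b, ∀ t ∈ Icc a b, c * |t - t0| ≤ |g t| := by
  have hcont : ContinuousOn g (Icc a b) := fun t ht => (hg t ht).continuousAt.continuousWithinAt
  -- increments
  have hinc : ∀ s ∈ Icc a b, ∀ t ∈ Icc a b, s ≤ t → c * (t - s) ≤ g t - g s := by
    intro s hs t ht hst
    rcases hst.eq_or_lt with rfl | hlt
    · simp
    · obtain ⟨x, hx, hx'⟩ := exists_hasDerivAt_eq_slope g g' hlt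
        (hcont.mono (Icc_subset_Icc hs.1 ht.2))
        (fun y hy => hg y ⟨hs.1.trans hy.1.le, hy.2.le.trans ht.2⟩)
      have h1 : c ≤ g' x := h x ⟨hs.1.trans hx.1.le, hx.2.le.trans ht.2⟩
      rw [hx', le_div_iff₀ (by linarith)] at h1
      exact h1
  have ha := left_mem_Icc.2 hab
  have hb := right_mem_Icc.2 hab
  have key : ∃ t0 ∈ Icc a b, (∀ t ∈ Icc a b, t0 ≤ t → 0 ≤ g t0 ∨ t = t0) ∧
      (∀ t ∈ Icc a b, t ≤ t0 → g t0 ≤ 0 ∨ t = t0) := by
    by_cases h1 : 0 ≤ g a
    · exact ⟨a, ha, fun t _ _ => Or.inl h1, fun t ht hta => Or.inr (le_antisymm hta ht.1)⟩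
    by_cases h2 : g b ≤ 0
    · exact ⟨b, hb, fun t ht hbt => Or.inr (le_antisymm ht.2 hbt), fun t _ _ => Or.inl h2⟩
    push Not at h1 h2
    obtain ⟨x, hx, hx'⟩ := intermediate_value_Icc hab hcont ⟨h1.le, h2.le⟩
    exact ⟨x, hx, fun t _ _ => Or.inl hx'.ge, fun t _ _ => Or.inl hx'.le⟩
  obtain ⟨t0, ht0, hr, hl⟩ := key
  refine ⟨t0, ht0, fun t ht => ?_⟩
  rcases le_total t0 t with h3 | h3
  · rcases hr t ht h3 with h4 | h4
    · rw [abs_of_nonneg (by linarith : 0 ≤ t - t0)]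
      have := hinc t0 ht0 t ht h3
      exact (by linarith : c * (t - t0) ≤ g t).trans (le_abs_self _)
    · rw [h4]; simp
  · rcases hl t ht h3 with h4 | h4
    · rw [abs_of_nonpos (by linarith : t - t0 ≤ 0)]
      have := hinc t ht t0 ht0 h3
      exact (by linarith : c * -(t - t0) ≤ -g t).trans (neg_le_abs _)
    · rw [h4]; simp

/-- Van der Corput's lemma without amplitude: derivative of order `k + 1`. -/
theorem vdc_aux (k : ℕ) : ∀ (a b c : ℝ) (h : ℕ → ℝ → ℝ), a ≤ b → 0 < c →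
    (∀ i, ∀ t ∈ Icc a b, HasDerivAt (h i) (h (i + 1) t) t) →
    (∀ t ∈ Icc a b, c ≤ |h (k + 1) t|) →
    (k = 0 → ∀ t ∈ Icc a b, 0 ≤ h 2 t) →
    ‖∫ t in a..b, ei (h 0 t)‖ ≤ VC k * c ^ (-(1 / ((k : ℝ) + 1))) := by
  induction k with
  | zero =>
    intro a b c h hab hc hd h1 h2
    have h3 := vdc_mono hab hc (hd 0) (hd 1)
      (fun t ht => (hd 2 t ht).continuousAt.continuousWithinAt) h1 (h2 rfl)
    have h4 : c ^ (-(1 / (((0 : ℕ) : ℝ) + 1))) = c⁻¹ := by
      norm_num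
      rw [Real.rpow_neg_one]
    rw [h4]
    simpa [VC, div_eq_mul_inv] using h3
  | succ k ih =>
    -- first with a sign
    have pos : ∀ (a b c : ℝ) (h : ℕ → ℝ → ℝ), a ≤ b → 0 < c →
        (∀ i, ∀ t ∈ Icc a b, HasDerivAt (h i) (h (i + 1) t) t) →
        (∀ t ∈ Icc a b, c ≤ h (k + 1 + 1) t) →
        ‖∫ t in a..b, ei (h 0 t)‖ ≤ VC (k + 1) * c ^ (-(1 / ((k : ℝ) + 1 + 1))) := by
      intro a b c h hab hc hd h1
      obtain ⟨t0, ht0, h2⟩ := vdc_point hab (hd (k + 1)) h1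
      have hk : (0 : ℝ) < (k : ℝ) + 1 := by positivity
      have hk2 : (0 : ℝ) < (k : ℝ) + 1 + 1 := by positivity
      set δ : ℝ := c ^ (-(1 / ((k : ℝ) + 1 + 1))) with hδ
      have hδ0 : 0 < δ := Real.rpow_pos_of_pos hc _
      have hval : (c * δ) ^ (-(1 / ((k : ℝ) + 1))) = δ := by
        rw [hδ]
        have e1 : c * c ^ (-(1 / ((k : ℝ) + 1 + 1))) = c ^ (((k : ℝ) + 1) / ((k : ℝ) + 1 + 1)) := by
          have : c * c ^ (-(1 / ((k : ℝ) + 1 + 1))) = c ^ (1 : ℝ) * c ^ (-(1 / ((k : ℝ) + 1 + 1))) := by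
            rw [Real.rpow_one]
          rw [this, ← Real.rpow_add hc]
          congr 1
          field_simp
          ring
        rw [e1, ← Real.rpow_mul hc.le]
        congr 1
        field_simp
      set p : ℝ := max a (t0 - δ) with hp
      set q : ℝ := min b (t0 + δ) with hq
      have hap : a ≤ p := le_max_left _ _
      have hqb : q ≤ b := min_le_left _ _
      have hpt : p ≤ t0 := max_le ht0.1 (by linarith)
      have htq : t0 ≤ q := le_min ht0.2 (by linarith)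
      have hpq : q - p ≤ 2 * δ := by
        have e1 : q ≤ t0 + δ := min_le_right _ _
        have e2 : t0 - δ ≤ p := le_max_right _ _
        linarith
      have hcc : ContinuousOn (fun t => ei (h 0 t)) (Icc a b) :=
        continuous_ei.comp_continuousOn fun t ht => (hd 0 t ht).continuousAt.continuousWithinAt
      have hL : ‖∫ t in a..p, ei (h 0 t)‖ ≤ VC k * δ := by
        by_cases hcase : t0 - δ ≤ a
        · have : p = a := max_eq_left hcase
          rw [this, intervalIntegral.integral_same, norm_zero]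
          exact mul_nonneg (VC_pos k).le hδ0.le
        · push Not at hcase
          have hpe : p = t0 - δ := max_eq_right hcase.le
          have hsub : ∀ t ∈ Icc a p, t ∈ Icc a b := fun t ht => ⟨ht.1, ht.2.trans (hpt.trans ht0.2)⟩
          have h3 := ih a p (c * δ) h hap (by positivity) (fun i t ht => hd i t (hsub t ht)) (by
            intro t ht
            refine le_trans ?_ (h2 t (hsub t ht))
            apply mul_le_mul_of_nonneg_left _ hc.le
            rw [abs_of_nonpos (by linarith [ht.2])]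
            have := ht.2
            rw [hpe] at this
            linarith) (by
            intro hk0 t ht
            subst hk0
            exact hc.le.trans (h1 t (hsub t ht)))
          rw [hval] at h3
          exact h3
      have hR : ‖∫ t in q..b, ei (h 0 t)‖ ≤ VC k * δ := by
        by_cases hcase : b ≤ t0 + δ
        · have : q = b := min_eq_left hcase
          rw [this, intervalIntegral.integral_same, norm_zero]
          exact mul_nonneg (VC_pos k).le hδ0.le
        · push Not at hcase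
          have hqe : q = t0 + δ := min_eq_right hcase.le
          have hsub : ∀ t ∈ Icc q b, t ∈ Icc a b := fun t ht => ⟨(ht0.1.trans htq).trans ht.1, ht.2⟩
          have h3 := ih q b (c * δ) h hqb (by positivity) (fun i t ht => hd i t (hsub t ht)) (by
            intro t ht
            refine le_trans ?_ (h2 t (hsub t ht))
            apply mul_le_mul_of_nonneg_left _ hc.le
            rw [abs_of_nonneg (by linarith [ht.1])]
            have := ht.1
            rw [hqe] at this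
            linarith) (by
            intro hk0 t ht
            subst hk0
            exact hc.le.trans (h1 t (hsub t ht)))
          rw [hval] at h3
          exact h3
      have hM : ‖∫ t in p..q, ei (h 0 t)‖ ≤ 2 * δ := (triv_ei (h 0) (hpt.trans htq)).trans hpq
      have hii : ∀ x y : ℝ, x ∈ Icc a b → y ∈ Icc a b →
          IntervalIntegrable (fun t => ei (h 0 t)) volume x y := by
        intro x y hx hy
        apply ContinuousOn.intervalIntegrable
        exact hcc.mono (uIcc_subset_Icc hx hy)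
      have ha := left_mem_Icc.2 hab
      have hb := right_mem_Icc.2 hab
      have hp' : p ∈ Icc a b := ⟨hap, hpt.trans ht0.2⟩
      have hq' : q ∈ Icc a b := ⟨ht0.1.trans htq, hqb⟩
      have hsum : ∫ t in a..b, ei (h 0 t) = (∫ t in a..p, ei (h 0 t)) + (∫ t in p..q, ei (h 0 t))
          + ∫ t in q..b, ei (h 0 t) := by
        rw [intervalIntegral.integral_add_adjacent_intervals (hii a p ha hp') (hii p q hp' hq'),
          intervalIntegral.integral_add_adjacent_intervals (hii a q ha hq') (hii q b hq' hb)]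
      rw [hsum]
      calc _ ≤ ‖(∫ t in a..p, ei (h 0 t)) + (∫ t in p..q, ei (h 0 t))‖ + ‖∫ t in q..b, ei (h 0 t)‖ :=
            norm_add_le _ _
        _ ≤ (‖∫ t in a..p, ei (h 0 t)‖ + ‖∫ t in p..q, ei (h 0 t)‖) + ‖∫ t in q..b, ei (h 0 t)‖ := by
            gcongr
            exact norm_add_le _ _
        _ ≤ (VC k * δ + 2 * δ) + VC k * δ := by gcongr
        _ = VC (k + 1) * δ := by simp only [VC]; ring
    intro a b c h hab hc hd h1 _
    have hcast : (((k + 1 : ℕ) : ℝ) + 1) = (k : ℝ) + 1 + 1 := by push_cast; ring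
    rw [hcast]
    have hcont : ContinuousOn (h (k + 1 + 1)) (Icc a b) := fun t ht =>
      (hd (k + 1 + 1) t ht).continuousAt.continuousWithinAt
    have hsign : (∀ t ∈ Icc a b, 0 < h (k + 1 + 1) t) ∨
        (∀ t ∈ Icc a b, h (k + 1 + 1) t < 0) := by
      by_contra hcon
      push Not at hcon
      obtain ⟨⟨s, hs, hs'⟩, ⟨t, ht, ht'⟩⟩ := hcon
      obtain ⟨x, hx, hx'⟩ := (isPreconnected_Icc (a := a) (b := b)).intermediate_value hs ht
        hcont ⟨hs', ht'⟩
      have := h1 x hx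
      rw [hx', abs_zero] at this
      linarith
    rcases hsign with hs | hs
    · exact pos a b c h hab hc hd (fun t ht => by
        have := h1 t ht
        rwa [abs_of_pos (hs t ht)] at this)
    · have h5 := pos a b c (fun i t => -h i t) hab hc (fun i t ht => (hd i t ht).neg) (fun t ht => by
        have := h1 t ht
        rwa [abs_of_neg (hs t ht)] at this)
      rwa [integral_ei_neg] at h5

/-- Van der Corput's lemma without amplitude. -/
theorem vdc_plain {m k : ℕ} (hk : 1 ≤ k) (hkm : k ≤ m) {a b c A : ℝ} (hab : a ≤ b) (hc : 0 < c)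
    (hA : 0 ≤ A) {h : ℕ → ℝ → ℝ} (hd : ∀ i, ∀ t ∈ Icc a b, HasDerivAt (h i) (h (i + 1) t) t)
    (h1 : ∀ t ∈ Icc a b, c ≤ |h k t|)
    (h2 : k = 1 → ∀ t ∈ Icc a b, |h 2 t| ≤ A * c) :
    ‖∫ t in a..b, ei (h 0 t)‖ ≤ (VC m + A * (b - a)) * c ^ (-(1 / (k : ℝ))) := by
  have hAb : 0 ≤ A * (b - a) := mul_nonneg hA (by linarith)
  obtain ⟨j, rfl⟩ : ∃ j, k = j + 1 := ⟨k - 1, by omega⟩
  rcases Nat.eq_zero_or_pos j with rfl | hj
  · have h3 := vdc_bdd hab hc hA (hd 0) (hd 1)
      (fun t ht => (hd 2 t ht).continuousAt.continuousWithinAt) h1 (h2 rfl)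
    have h4 : c ^ (-(1 / (((0 + 1 : ℕ) : ℝ)))) = c⁻¹ := by
      norm_num
      rw [Real.rpow_neg_one]
    rw [h4]
    refine h3.trans ?_
    rw [div_eq_mul_inv]
    apply mul_le_mul_of_nonneg_right _ (inv_nonneg.2 hc.le)
    have : (3 : ℝ) ≤ VC m := VC_mono (Nat.zero_le m)
    linarith
  · have h3 := vdc_aux j a b c h hab hc hd h1 (by omega)
    have hcast : ((j + 1 : ℕ) : ℝ) = (j : ℝ) + 1 := by push_cast; ring
    rw [hcast]
    refine h3.trans ?_
    apply mul_le_mul_of_nonneg_right _ (Real.rpow_nonneg hc.le _)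
    have : VC j ≤ VC m := VC_mono (by omega)
    linarith

/-- Putting in an amplitude. -/
theorem vdc_ampl {a b M : ℝ} (hab : a ≤ b) {u u1 : ℝ → ℝ}
    (hu : ∀ t ∈ Icc a b, HasDerivAt u (u1 t) t)
    (hM : ∀ s ∈ Icc a b, ‖∫ t in a..s, ei (u t)‖ ≤ M) {ψ ψ' : ℝ → ℂ}
    (hψ : ∀ t ∈ Icc a b, HasDerivAt ψ (ψ' t) t) (hψ' : ContinuousOn ψ' (Icc a b)) :
    ‖∫ t in a..b, ψ t * ei (u t)‖ ≤ M * (‖ψ b‖ + ∫ t in a..b, ‖ψ' t‖) := by
  have hIcc : uIcc a b = Icc a b := uIcc_of_le hab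
  have hce : ContinuousOn (fun t => ei (u t)) (Icc a b) :=
    continuous_ei.comp_continuousOn fun t ht => (hu t ht).continuousAt.continuousWithinAt
  set F : ℝ → ℂ := fun s => ∫ t in a..s, ei (u t) with hF
  have hii : IntervalIntegrable (fun t => ei (u t)) volume a b := by
    apply ContinuousOn.intervalIntegrable
    rw [hIcc]; exact hce
  have hcF : ContinuousOn F (Icc a b) := by
    have := intervalIntegral.continuousOn_primitive_interval (μ := volume)
      (f := fun t => ei (u t)) (a := a) (b := b) (by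
        rw [hIcc]
        exact hce.integrableOn_Icc)
    rwa [hIcc] at this
  have hdF : ∀ s ∈ Ioo a b, HasDerivAt F (ei (u s)) s := by
    intro s hs
    have hnhds : Icc a b ∈ nhds s := Icc_mem_nhds hs.1 hs.2
    apply intervalIntegral.integral_hasDerivAt_right
    · apply ContinuousOn.intervalIntegrable
      rw [uIcc_of_le hs.1.le]
      exact hce.mono (Icc_subset_Icc_right hs.2.le)
    · exact hce.stronglyMeasurableAtFilter_nhdsWithin measurableSet_Icc s |>.filter_mono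
        (by rw [nhdsWithin_eq_nhds.2 hnhds])
    · exact hce.continuousAt hnhds
  have hcψ : ContinuousOn ψ (Icc a b) := fun t ht => (hψ t ht).continuousAt.continuousWithinAt
  have hip := intervalIntegral.integral_mul_deriv_eq_deriv_mul_of_hasDerivAt (u := ψ) (u' := ψ')
    (v := F) (v' := fun t => ei (u t)) (a := a) (b := b) (by rw [hIcc]; exact hcψ)
    (by rw [hIcc]; exact hcF)
    (by
      intro t ht
      rw [min_eq_left hab, max_eq_right hab] at ht
      exact hψ t ⟨ht.1.le, ht.2.le⟩)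
    (by
      intro t ht
      rw [min_eq_left hab, max_eq_right hab] at ht
      exact hdF t ht)
    (by
      apply ContinuousOn.intervalIntegrable
      rw [hIcc]; exact hψ') hii
  have hFa : F a = 0 := by simp [hF]
  rw [hip, hFa, mul_zero, sub_zero]
  have h1 : ‖∫ t in a..b, ψ' t * F t‖ ≤ ∫ t in a..b, M * ‖ψ' t‖ := by
    refine (intervalIntegral.norm_integral_le_integral_norm hab).trans ?_
    apply intervalIntegral.integral_mono_on hab
    · apply ContinuousOn.intervalIntegrable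
      rw [hIcc]
      exact (hψ'.mul hcF).norm
    · apply ContinuousOn.intervalIntegrable
      rw [hIcc]
      exact continuousOn_const.mul hψ'.norm
    · intro t ht
      rw [norm_mul, mul_comm]
      exact mul_le_mul_of_nonneg_right (hM t ht) (norm_nonneg _)
  rw [intervalIntegral.integral_const_mul] at h1
  calc ‖ψ b * F b - ∫ t in a..b, ψ' t * F t‖ ≤ ‖ψ b * F b‖ + ‖∫ t in a..b, ψ' t * F t‖ :=
        norm_sub_le _ _
    _ ≤ ‖ψ b‖ * M + M * ∫ t in a..b, ‖ψ' t‖ := by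
        rw [norm_mul]
        gcongr
        exact hM b (right_mem_Icc.2 hab)
    _ = M * (‖ψ b‖ + ∫ t in a..b, ‖ψ' t‖) := by ring

/-- Van der Corput's lemma with an amplitude: a derivative of order `k`, `1 ≤ k ≤ m`, is at least
`c` in absolute value on `[a,b]`; for `k = 1` the second derivative is at most `A c`. -/
theorem vdc_amp {m k : ℕ} (hk : 1 ≤ k) (hkm : k ≤ m) {a b c A : ℝ} (hab : a ≤ b) (hc : 0 < c)
    (hA : 0 ≤ A) {h : ℕ → ℝ → ℝ} (hd : ∀ i, ∀ t ∈ Icc a b, HasDerivAt (h i) (h (i + 1) t) t)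
    (h1 : ∀ t ∈ Icc a b, c ≤ |h k t|)
    (h2 : k = 1 → ∀ t ∈ Icc a b, |h 2 t| ≤ A * c) {ψ ψ' : ℝ → ℂ}
    (hψ : ∀ t ∈ Icc a b, HasDerivAt ψ (ψ' t) t) (hψ' : ContinuousOn ψ' (Icc a b)) :
    ‖∫ t in a..b, ψ t * ei (h 0 t)‖ ≤
      (VC m + A * (b - a)) * c ^ (-(1 / (k : ℝ))) * (‖ψ b‖ + ∫ t in a..b, ‖ψ' t‖) := by
  apply vdc_ampl hab (hd 0) _ hψ hψ'
  intro s hs
  have h3 := vdc_plain hk hkm (A := A) hs.1 hc hA (fun i t ht => hd i t ⟨ht.1, ht.2.trans hs.2⟩)
    (fun t ht => h1 t ⟨ht.1, ht.2.trans hs.2⟩)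
    (fun hk1 t ht => h2 hk1 t ⟨ht.1, ht.2.trans hs.2⟩)
  refine h3.trans ?_
  apply mul_le_mul_of_nonneg_right _ (Real.rpow_nonneg hc.le _)
  have := mul_le_mul_of_nonneg_left (by linarith [hs.2] : s - a ≤ b - a) hA
  linarith

/-- **Van der Corput's lemma**, chain form with real amplitude on `[0,T]`. -/
theorem vdc (k : ℕ) (hk : 1 ≤ k) : ∃ K : ℝ, 0 ≤ K ∧ ∀ (T : ℝ), 0 ≤ T → ∀ (h : ℕ → ℝ → ℝ),
    (∀ i r, r ∈ Icc 0 T → HasDerivAt (h i) (h (i + 1) r) r) → ∀ (ψ ψ' : ℝ → ℝ),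
    (∀ r ∈ Icc 0 T, HasDerivAt ψ (ψ' r) r) → ContinuousOn ψ' (Icc 0 T) → ∀ (M lam K2 : ℝ),
    (∀ r ∈ Icc 0 T, |ψ r| ≤ M ∧ |ψ' r| ≤ M) → 0 < lam → 0 ≤ K2 →
    (∀ r ∈ Icc 0 T, lam ≤ |h k r|) →
    (k = 1 → ∀ r ∈ Icc 0 T, |h 2 r| ≤ K2 * lam) →
    ‖∫ r in (0 : ℝ)..T, (ψ r : ℂ) * Complex.exp (h 0 r * Complex.I)‖ ≤
      K * (1 + T) ^ 2 * (1 + K2) * M * lam ^ (-(1 / (k : ℝ))) := by
  refine ⟨VC k, (VC_pos k).le, fun T hT h hd ψ ψ' hψ hψ' M lam K2 hM hlam hK2 h1 h2 => ?_⟩
  have h3 := vdc_amp (m := k) hk le_rfl (A := K2) hT hlam hK2 hd h1 h2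
    (ψ := fun r => (ψ r : ℂ)) (ψ' := fun r => (ψ' r : ℂ)) (fun r hr => (hψ r hr).ofReal_comp)
    (Complex.continuous_ofReal.comp_continuousOn hψ')
  refine h3.trans ?_
  have hM0 : 0 ≤ M := (abs_nonneg _).trans (hM 0 ⟨le_rfl, hT⟩).1
  have e1 : ‖(ψ T : ℂ)‖ ≤ M := by
    rw [Complex.norm_real]
    exact (hM T ⟨hT, le_rfl⟩).1
  have e2 : ∫ t in (0 : ℝ)..T, ‖(ψ' t : ℂ)‖ ≤ M * T := by
    have : ∫ t in (0 : ℝ)..T, ‖(ψ' t : ℂ)‖ ≤ ∫ _ in (0 : ℝ)..T, M := by
      apply intervalIntegral.integral_mono_on hT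
      · apply ContinuousOn.intervalIntegrable
        rw [uIcc_of_le hT]
        exact (Complex.continuous_ofReal.comp_continuousOn hψ').norm
      · exact intervalIntegrable_const
      · intro t ht
        rw [Complex.norm_real]
        exact (hM t ht).2
    rw [intervalIntegral.integral_const, smul_eq_mul, sub_zero, mul_comm] at this
    exact this
  have hVC := VC_pos k
  have hVC1 : 1 ≤ VC k := by
    have : (3 : ℝ) ≤ VC k := VC_mono (Nat.zero_le k)
    linarith
  have hr : 0 ≤ lam ^ (-(1 / (k : ℝ))) := Real.rpow_nonneg hlam.le _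
  have e3 : VC k + K2 * (T - 0) ≤ VC k * ((1 + T) * (1 + K2)) := by
    have : 0 ≤ K2 * T := mul_nonneg hK2 hT
    nlinarith [mul_nonneg hVC.le hT, mul_nonneg hVC.le hK2,
      mul_nonneg (by linarith : 0 ≤ VC k - 1) this]
  calc (VC k + K2 * (T - 0)) * lam ^ (-(1 / (k : ℝ))) * (‖(ψ T : ℂ)‖ + ∫ t in (0 : ℝ)..T, ‖(ψ' t : ℂ)‖)
      ≤ (VC k * ((1 + T) * (1 + K2))) * lam ^ (-(1 / (k : ℝ))) * (M + M * T) := by
        apply mul_le_mul
        · exact mul_le_mul_of_nonneg_right e3 hr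
        · linarith
        · have : 0 ≤ ∫ t in (0 : ℝ)..T, ‖(ψ' t : ℂ)‖ :=
            intervalIntegral.integral_nonneg hT fun t _ => norm_nonneg _
          positivity
        · positivity
    _ = VC k * (1 + T) ^ 2 * (1 + K2) * M * lam ^ (-(1 / (k : ℝ))) := by ring

end Pool.Agent.VAN
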