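import Pool.Agent.VAN.B3
import Pool.Agent.VAN.B4
import Pool.Agent.VAN.C1
import Pool.Agent.VAN.D1
import Pool.Agent.VAN.D2
import Pool.Agent.VAN.E0
import Pool.Agent.VAN.F
import Pool.Agent.VAN.G
import Pool.Agent.VAN.H2

/-!
The restriction theorem for the unit sphere of `R^3` for the phases and cuts in a finite-dimensional
space of analytic functions.
-/

namespace Pool.Agent.VAN

open MeasureTheory Set Pool.Agent.MP_6cbfb8_an
open scoped ENNReal Real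

/-- Analytic families which are independent modulo affine functions, no cuts. -/
theorem main_indep {d : ℕ} (φ : Fin d → E 3 → ℝ)
    (ha : ∀ j, AnalyticOnNhd ℝ (φ j) (Metric.sphere 0 1))
    (hi : ∀ (a : Fin d → ℝ) (ζ : E 3) (c : ℝ),
      (∀ x : E 3, ‖x‖ = 1 → fam φ a x + inner ℝ x ζ = c) → a = 0) (p : ℝ) (hp : 3 < p) :
    ∃ C : ℝ≥0∞, C ≠ ∞ ∧ ∀ c : Fin d → ℝ,
      ∫⁻ ξ, ‖extn (fun x => Complex.exp (((fam φ c x : ℝ) : ℂ) * Complex.I)) ξ‖ₑ ^ p ≤ C := by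
  have hext : ∀ j, ∃ F : E 3 → ℝ, ContDiff ℝ ((⊤ : ℕ∞) : WithTop ℕ∞) F ∧ HasCompactSupport F ∧ ∀ x ∈ S 3, F x = φ j x :=
    fun j => extend (φ j) fun x hx => (ha j x hx).contDiffAt
  choose ψ hψ _ hψe using hext
  have hfam : ∀ (c : Fin d → ℝ), ∀ x ∈ S 3, fam φ c x = fam ψ c x := by
    intro c x hx
    unfold fam
    exact Finset.sum_congr rfl fun j _ => by rw [hψe j x hx]
  have hex : ∀ (c : Fin d → ℝ) (ξ : E 3),
      extn (fun x => Complex.exp (((fam φ c x : ℝ) : ℂ) * Complex.I)) ξ =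
        extn (fun x => Complex.exp (((fam ψ c x : ℝ) : ℂ) * Complex.I)) ξ := by
    intro c ξ
    exact extn_congr (fun x hx => by rw [hfam c x hx]) ξ
  have hL : ∀ c : Fin d → ℝ, 1 ≤ 1 + ‖c‖ := fun c => by linarith [norm_nonneg c]
  refine assemble (volume : Measure (E 3))
    (fun (c : Fin d → ℝ) ξ => extn (fun x => Complex.exp (((fam φ c x : ℝ) : ℂ) * Complex.I)) ξ)
    (fun c => 1 + ‖c‖) hL 3 (by norm_num) ?_ ?_ ?_ p hp
  · exact decay_extn φ ha hi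
  · intro q hq
    obtain ⟨C, hC, h⟩ := crude ψ hψ q hq
    refine ⟨C, hC, 4 * q, fun c => ?_⟩
    simp_rw [hex c]
    exact h c
  · intro q hq ε hε B
    obtain ⟨C, hC, h⟩ := local_bound ψ hψ q ε (max B 0) hq hε (le_max_right _ _)
    refine ⟨C, hC, fun c => ?_⟩
    simp_rw [hex c]
    refine (lintegral_mono_set ?_).trans (h c)
    intro ξ hξ
    rw [mem_closedBall_zero_iff]
    exact (show ‖ξ‖ ≤ (1 + ‖c‖) ^ B from hξ).trans
      (Real.rpow_le_rpow_of_exponent_le (hL c) (le_max_left _ _))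

/-- Analytic families, no cuts. -/
theorem main_nocut {d : ℕ} (φ : Fin d → E 3 → ℝ)
    (ha : ∀ j, AnalyticOnNhd ℝ (φ j) (Metric.sphere 0 1)) (p : ℝ) (hp : 3 < p) :
    ∃ C : ℝ≥0∞, C ≠ ∞ ∧ ∀ c : Fin d → ℝ,
      ∫⁻ ξ, ‖extn (fun x => Complex.exp (((fam φ c x : ℝ) : ℂ) * Complex.I)) ξ‖ₑ ^ p ≤ C := by
  obtain ⟨k, σ, _, hind, L, hL⟩ := reduce_aff φ
  obtain ⟨C, hC, h⟩ := main_indep (fun j => φ (σ j)) (fun j => ha (σ j))
    (fun a ζ c hac => hind a ζ c fun x hx => hac x (by simpa using hx)) p hp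
  refine ⟨C, hC, fun c => ?_⟩
  obtain ⟨ζ, c0, h1⟩ := hL c
  have h2 := lint_phase (fun _ => 1) (φ := fam φ c) (φ' := fam (fun j => φ (σ j)) (L c))
    (ζ := ζ) (c := c0) (fun x hx => h1 x hx) p
  simp only [mul_one] at h2
  rw [h2]
  exact h (L c)

/-- Every analytic family, with cuts. -/
theorem main {d : ℕ} (φ : Fin d → E 3 → ℝ)
    (ha : ∀ j, AnalyticOnNhd ℝ (φ j) (Metric.sphere 0 1)) (N : ℕ) (p : ℝ) (hp : 3 < p) :
    ∃ C : ℝ≥0∞, C ≠ ∞ ∧ ∀ (c : Fin d → ℝ) (cs : Fin N → Fin d → ℝ),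
      ∫⁻ ξ, ‖extn (famc φ c cs) ξ‖ₑ ^ p ≤ C := by
  obtain ⟨k, σ, _, hind, L, hL⟩ := reduce_zero φ
  have hr : ∀ (a : Fin k → ℝ) (x : E 3), ‖x‖ = 1 →
      fam (fun j => rS (φ (σ j))) a x = fam (fun j => φ (σ j)) a x := fun a x hx =>
    G_fam_rS (fun j => φ (σ j)) a hx
  have hb : ∃ K : ℝ, ∀ j : Fin k, ∀ x : E 3, ‖x‖ = 1 → |rS (φ (σ j)) x| ≤ K := by
    have hK : ∀ j : Fin k, ∃ K : ℝ, ∀ x : E 3, ‖x‖ = 1 → |rS (φ (σ j)) x| ≤ K := by
      intro j
      obtain ⟨K, hK⟩ := (isCompact_sphere (0 : E 3) 1).exists_bound_of_continuousOn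
        (ha (σ j)).continuousOn
      refine ⟨K, fun x hx => ?_⟩
      unfold rS
      rw [if_pos hx]
      simpa using hK x (by simpa using hx)
    choose K hK using hK
    refine ⟨∑ j, |K j|, fun j x hx => (hK j x hx).trans ((le_abs_self _).trans ?_)⟩
    exact Finset.single_le_sum (f := fun j => |K j|) (fun i _ => abs_nonneg _) (Finset.mem_univ j)
  obtain ⟨K, κ, hK, hκ, hsub⟩ := sublevel (fun j => φ (σ j)) (fun j => ha (σ j))
    fun a hac => hind a fun x hx => hac x (by simpa using hx)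
  obtain ⟨C, hC, h⟩ := cuts 3 (by norm_num) (fun j => rS (φ (σ j)))
    (fun j => G_meas_rS (ha (σ j)).continuousOn) hb
    ⟨K, κ, hK, hκ, fun c hc δ hδ => by
      have h1 : {x : S 3 | |fam (fun j => rS (φ (σ j))) c x| ≤ δ} =
          {x : S 3 | |fam (fun j => φ (σ j)) c x| ≤ δ} := by
        ext x
        rw [mem_ofPred_eq, mem_ofPred_eq, hr c x (by simp)]
      rw [h1]
      exact hsub c hc δ hδ⟩
    (fun q hq => by
      obtain ⟨C, hC, h⟩ := main_nocut (fun j => φ (σ j)) (fun j => ha (σ j)) q hq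
      refine ⟨C, hC, fun c => ?_⟩
      have h1 : extn (fun x => Complex.exp (((fam (fun j => rS (φ (σ j))) c x : ℝ) : ℂ) * Complex.I)) =
          extn (fun x => Complex.exp (((fam (fun j => φ (σ j)) c x : ℝ) : ℂ) * Complex.I)) :=
        extn_congr_sphere fun x hx => by rw [hr c x hx]
      rw [h1]
      exact h c) N p hp
  refine ⟨C, hC, fun c cs => ?_⟩
  refine le_trans (le_of_eq ?_) (h (L c) fun i => L (cs i))
  congr 1
  funext ξ
  rw [extn_congr]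
  intro x hx
  have hx1 : ‖x‖ = 1 := by simpa using hx
  have h3 : ∀ a : Fin d → ℝ, fam φ a x = fam (fun j => rS (φ (σ j))) (L a) x := fun a =>
    (hL a x hx).trans (hr (L a) x hx1).symm
  unfold famc
  rw [h3 c]
  congr 1
  exact Finset.prod_congr rfl fun i _ => by rw [h3 (cs i)]

end Pool.Agent.VAN
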