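import Mathlib

/-!
A calculus of absolutely convergent series of monomials on `R^n`, and analyticity of their sums.
-/

set_option autoImplicit false

namespace Pool.Agent.VAN.AN

open Filter Topology Set
open scoped ENNReal NNReal

variable {n : ℕ}

/-- The monomial of a word. -/
def mono (w : List (Fin n)) (v : EuclideanSpace ℝ (Fin n)) : ℝ := (w.map fun i => v i).prod

lemma abs_mono_le (w : List (Fin n)) (v : EuclideanSpace ℝ (Fin n)) {R : ℝ} (hv : ‖v‖ ≤ R) :
    |mono w v| ≤ R ^ w.length := by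
  have hR : 0 ≤ R := (norm_nonneg v).trans hv
  induction w with
  | nil => simp [mono]
  | cons i w ih =>
    have h1 : |v i| ≤ R := by
      have := PiLp.norm_apply_le v i
      rw [Real.norm_eq_abs] at this
      exact this.trans hv
    unfold mono at ih ⊢
    rw [List.map_cons, List.prod_cons, abs_mul, List.length_cons, pow_succ, mul_comm (R ^ _)]
    exact mul_le_mul h1 ih (abs_nonneg _) hR

lemma mono_append (w w' : List (Fin n)) (v : EuclideanSpace ℝ (Fin n)) :
    mono (w ++ w') v = mono w v * mono w' v := by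
  unfold mono
  rw [List.map_append, List.prod_append]

/-- `g` is, on the ball of radius `R`, the sum of a series of monomials of total mass at most `A`. -/
def WS (R A : ℝ) (g : EuclideanSpace ℝ (Fin n) → ℝ) : Prop :=
  ∃ (I : Type) (c : I → ℝ) (w : I → List (Fin n)),
    Summable (fun i => |c i| * R ^ (w i).length) ∧ ∑' i, |c i| * R ^ (w i).length ≤ A ∧
      ∀ v, ‖v‖ < R → HasSum (fun i => c i * mono (w i) v) (g v)

lemma WS.mono_const {R A B : ℝ} {g : EuclideanSpace ℝ (Fin n) → ℝ} (h : WS R A g) (hAB : A ≤ B) :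
    WS R B g := by
  obtain ⟨I, c, w, h1, h2, h3⟩ := h
  exact ⟨I, c, w, h1, h2.trans hAB, h3⟩

lemma WS.congr {R A : ℝ} {g g' : EuclideanSpace ℝ (Fin n) → ℝ} (h : WS R A g)
    (hg : ∀ v, ‖v‖ < R → g' v = g v) : WS R A g' := by
  obtain ⟨I, c, w, h1, h2, h3⟩ := h
  exact ⟨I, c, w, h1, h2, fun v hv => by rw [hg v hv]; exact h3 v hv⟩

lemma WS.nonneg {R A : ℝ} (hR : 0 ≤ R) {g : EuclideanSpace ℝ (Fin n) → ℝ} (h : WS R A g) : 0 ≤ A := by
  obtain ⟨I, c, w, h1, h2, -⟩ := h
  exact (tsum_nonneg fun i => by positivity).trans h2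

lemma WS.abs_le {R A : ℝ} {g : EuclideanSpace ℝ (Fin n) → ℝ} (h : WS R A g)
    {v : EuclideanSpace ℝ (Fin n)} (hv : ‖v‖ < R) : |g v| ≤ A := by
  obtain ⟨I, c, w, h1, h2, h3⟩ := h
  have hb : ∀ i, |c i * mono (w i) v| ≤ |c i| * R ^ (w i).length := fun i => by
    rw [abs_mul]
    exact mul_le_mul_of_nonneg_left (abs_mono_le _ _ hv.le) (abs_nonneg _)
  have h4 : Summable fun i => |c i * mono (w i) v| :=
    Summable.of_nonneg_of_le (fun i => abs_nonneg _) hb h1
  rw [← (h3 v hv).tsum_eq]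
  have h5 : |∑' i, c i * mono (w i) v| ≤ ∑' i, |c i * mono (w i) v| := by
    have := norm_tsum_le_tsum_norm (f := fun i => c i * mono (w i) v) h4
    simpa only [Real.norm_eq_abs] using this
  exact h5.trans ((h4.tsum_le_tsum hb h1).trans h2)

lemma WS.const (R c : ℝ) : WS R |c| (fun _ : EuclideanSpace ℝ (Fin n) => c) := by
  refine ⟨Unit, fun _ => c, fun _ => [], ?_, ?_, fun v _ => ?_⟩
  · exact (hasSum_fintype _).summable
  · simp
  · have := hasSum_fintype (fun _ : Unit => c * mono ([] : List (Fin n)) v)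
    simpa [mono] using this

lemma WS.coord {R : ℝ} (i : Fin n) : WS R R (fun v : EuclideanSpace ℝ (Fin n) => v i) := by
  refine ⟨Unit, fun _ => 1, fun _ => [i], ?_, ?_, fun v _ => ?_⟩
  · exact (hasSum_fintype _).summable
  · simp
  · have := hasSum_fintype (fun _ : Unit => (1:ℝ) * mono [i] v)
    simpa [mono] using this

lemma hasSum_sigma_aux {ι : Type} {I : ι → Type} {F : (Σ j, I j) → ℝ} {f : ι → ℝ}
    (hF : Summable F) (hf : ∀ j, HasSum (fun i => F ⟨j, i⟩) (f j)) : HasSum F (∑' j, f j) := by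
  have h1 := hF.hasSum
  have h2 : ∑' x, F x = ∑' j, f j := by
    rw [hF.tsum_sigma' (fun j => (hf j).summable)]
    exact tsum_congr fun j => (hf j).tsum_eq
  rwa [h2] at h1

lemma summable_sigma_aux {ι : Type} {I : ι → Type} {F : (Σ j, I j) → ℝ} (h0 : ∀ x, 0 ≤ F x)
    (h1 : ∀ j, Summable fun i => F ⟨j, i⟩) (h2 : Summable fun j => ∑' i, F ⟨j, i⟩) :
    Summable F := (summable_sigma_of_nonneg h0).2 ⟨h1, h2⟩

/-- Countable (in fact arbitrary) sums. -/
lemma WS.tsum {R : ℝ} (hR : 0 ≤ R) {ι : Type} (A : ι → ℝ) (f : ι → EuclideanSpace ℝ (Fin n) → ℝ)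
    (h : ∀ j, WS R (A j) (f j)) (hA : Summable A) : WS R (∑' j, A j) (fun v => ∑' j, f j v) := by
  choose I c w h1 h2 h3 using h
  have hs : Summable fun j => ∑' i, |c j i| * R ^ (w j i).length :=
    Summable.of_nonneg_of_le (fun j => tsum_nonneg fun i => by positivity) h2 hA
  let F : (Σ j, I j) → ℝ := fun x => |c x.1 x.2| * R ^ (w x.1 x.2).length
  have hF0 : ∀ x, 0 ≤ F x := fun x => by
    show 0 ≤ |c x.1 x.2| * R ^ (w x.1 x.2).length
    positivity
  have hsig : Summable F := summable_sigma_aux hF0 h1 hs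
  refine ⟨Σ j, I j, fun x => c x.1 x.2, fun x => w x.1 x.2, hsig, ?_, fun v hv => ?_⟩
  · have e1 : ∑' x, F x = ∑' j, ∑' i, F ⟨j, i⟩ := hsig.tsum_sigma' h1
    have e2 : (∑' j, ∑' i, F ⟨j, i⟩) ≤ ∑' j, A j := hs.tsum_le_tsum h2 hA
    exact (le_of_eq e1).trans e2
  · let G : (Σ j, I j) → ℝ := fun x => c x.1 x.2 * mono (w x.1 x.2) v
    have hG : ∀ x, ‖G x‖ ≤ F x := fun x => by
      show ‖c x.1 x.2 * mono (w x.1 x.2) v‖ ≤ |c x.1 x.2| * R ^ (w x.1 x.2).length
      rw [Real.norm_eq_abs, abs_mul]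
      exact mul_le_mul_of_nonneg_left (abs_mono_le _ _ hv.le) (abs_nonneg _)
    have h4 : Summable G := Summable.of_norm_bounded hsig hG
    exact hasSum_sigma_aux h4 fun j => h3 j v hv

/-- Products. -/
lemma WS.mul {R A B : ℝ} (hR : 0 ≤ R) {f g : EuclideanSpace ℝ (Fin n) → ℝ} (hf : WS R A f)
    (hg : WS R B g) : WS R (A * B) (fun v => f v * g v) := by
  have hA0 := hf.nonneg hR
  have hB0 := hg.nonneg hR
  obtain ⟨I, c, w, h1, h2, h3⟩ := hf
  obtain ⟨J, d, u, k1, k2, k3⟩ := hg
  have hprod : Summable (fun x : I × J => (|c x.1| * R ^ (w x.1).length) *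
      (|d x.2| * R ^ (u x.2).length)) :=
    h1.mul_of_nonneg k1 (fun i => by positivity) (fun i => by positivity)
  have heq : ∀ x : I × J, |c x.1 * d x.2| * R ^ (w x.1 ++ u x.2).length =
      (|c x.1| * R ^ (w x.1).length) * (|d x.2| * R ^ (u x.2).length) := fun x => by
    rw [abs_mul, List.length_append, pow_add]
    ring
  refine ⟨I × J, fun x => c x.1 * d x.2, fun x => w x.1 ++ u x.2, ?_, ?_, fun v hv => ?_⟩
  · simp only [heq]
    exact hprod
  · simp only [heq]
    rw [← h1.tsum_mul_tsum k1 hprod]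
    exact mul_le_mul h2 k2 (tsum_nonneg fun i => by positivity) hA0
  · have hb : ∀ x : I × J, ‖(c x.1 * mono (w x.1) v) * (d x.2 * mono (u x.2) v)‖ ≤
        (|c x.1| * R ^ (w x.1).length) * (|d x.2| * R ^ (u x.2).length) := fun x => by
      rw [norm_mul, Real.norm_eq_abs, Real.norm_eq_abs, abs_mul, abs_mul]
      have e1 := mul_le_mul_of_nonneg_left (abs_mono_le (w x.1) v hv.le) (abs_nonneg (c x.1))
      have e2 := mul_le_mul_of_nonneg_left (abs_mono_le (u x.2) v hv.le) (abs_nonneg (d x.2))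
      exact mul_le_mul e1 e2 (by positivity) (by positivity)
    have h4 : Summable (fun x : I × J => (c x.1 * mono (w x.1) v) * (d x.2 * mono (u x.2) v)) :=
      Summable.of_norm_bounded hprod hb
    have h5 := (h3 v hv).mul (k3 v hv) h4
    have h6 : (fun x : I × J => c x.1 * d x.2 * mono (w x.1 ++ u x.2) v) =
        fun x : I × J => (c x.1 * mono (w x.1) v) * (d x.2 * mono (u x.2) v) := by
      funext x
      rw [mono_append]
      ring
    rw [h6]
    exact h5

lemma WS.pow {R A : ℝ} (hR : 0 ≤ R) {f : EuclideanSpace ℝ (Fin n) → ℝ} (hf : WS R A f) (m : ℕ) :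
    WS R (A ^ m) (fun v => f v ^ m) := by
  induction m with
  | zero =>
    have := WS.const (n := n) R 1
    simpa using this
  | succ m ih =>
    simp only [pow_succ]
    exact ih.mul hR hf

lemma WS.fsum {R : ℝ} (hR : 0 ≤ R) {ι : Type} [Fintype ι] (A : ι → ℝ)
    (f : ι → EuclideanSpace ℝ (Fin n) → ℝ) (h : ∀ j, WS R (A j) (f j)) :
    WS R (∑ j, A j) (fun v => ∑ j, f j v) := by
  have := WS.tsum hR A f h (hasSum_fintype A).summable
  simpa only [tsum_fintype] using this

lemma WS.add {R A B : ℝ} (hR : 0 ≤ R) {f g : EuclideanSpace ℝ (Fin n) → ℝ} (hf : WS R A f)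
    (hg : WS R B g) : WS R (A + B) (fun v => f v + g v) := by
  have := WS.fsum hR (ι := Bool) (fun b => if b then A else B) (fun b => if b then f else g)
    (fun b => by cases b <;> simpa)
  simpa using this

lemma WS.smul {R A : ℝ} (hR : 0 ≤ R) (c : ℝ) {f : EuclideanSpace ℝ (Fin n) → ℝ} (hf : WS R A f) :
    WS R (|c| * A) (fun v => c * f v) := (WS.const R c).mul hR hf

lemma WS.finprod {R : ℝ} (hR : 0 ≤ R) {ι : Type} (s : Finset ι) (A : ι → ℝ)
    (f : ι → EuclideanSpace ℝ (Fin n) → ℝ) (h : ∀ j ∈ s, WS R (A j) (f j)) :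
    WS R (∏ j ∈ s, A j) (fun v => ∏ j ∈ s, f j v) := by
  classical
  induction s using Finset.induction_on with
  | empty =>
    have := WS.const (n := n) R 1
    simpa using this
  | insert a s ha ih =>
    simp only [Finset.prod_insert ha]
    exact (h a (Finset.mem_insert_self a s)).mul hR
      (ih fun j hj => h j (Finset.mem_insert_of_mem hj))

/-- Geometric series. -/
lemma WS.geom {R A : ℝ} (hR : 0 ≤ R) (hA1 : A < 1) {f : EuclideanSpace ℝ (Fin n) → ℝ}
    (hf : WS R A f) : WS R (1 - A)⁻¹ (fun v => (1 - f v)⁻¹) := by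
  have hA0 := hf.nonneg hR
  have h1 := WS.tsum hR (fun m : ℕ => A ^ m) (fun (m : ℕ) v => f v ^ m) (fun m => hf.pow hR m)
    (summable_geometric_of_lt_one hA0 hA1)
  rw [tsum_geometric_of_lt_one hA0 hA1] at h1
  refine h1.congr fun v hv => ?_
  have h2 : |f v| < 1 := (hf.abs_le hv).trans_lt hA1
  rw [tsum_geometric_of_abs_lt_one h2]

/-! ### Analyticity -/

variable [NeZero n]

/-- The multilinear map of a word. -/
noncomputable def mm (n : ℕ) [NeZero n] (N : ℕ) (w : List (Fin n)) :
    ContinuousMultilinearMap ℝ (fun _ : Fin N => EuclideanSpace ℝ (Fin n)) ℝ :=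
  (ContinuousMultilinearMap.mkPiAlgebra ℝ (Fin N) ℝ).compContinuousLinearMap
    fun l => EuclideanSpace.proj (w.getD l 0)

lemma mm_apply (N : ℕ) (w : List (Fin n)) (v : Fin N → EuclideanSpace ℝ (Fin n)) :
    mm n N w v = ∏ l, v l (w.getD l 0) := by
  unfold mm
  rw [ContinuousMultilinearMap.compContinuousLinearMap_apply,
    ContinuousMultilinearMap.mkPiAlgebra_apply]
  rfl

lemma norm_mm_le (N : ℕ) (w : List (Fin n)) : ‖mm n N w‖ ≤ 1 := by
  refine ContinuousMultilinearMap.opNorm_le_bound zero_le_one fun v => ?_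
  rw [mm_apply, one_mul, norm_prod]
  exact Finset.prod_le_prod (fun l _ => norm_nonneg _) fun l _ => PiLp.norm_apply_le _ _

lemma mm_mono (w : List (Fin n)) (v : EuclideanSpace ℝ (Fin n)) :
    mm n w.length w (fun _ => v) = mono w v := by
  rw [mm_apply]
  unfold mono
  rw [← List.prod_ofFn]
  congr 1
  apply List.ext_getElem
  · simp
  · intro i h1 h2
    simp at h1 ⊢

/-- **A series of monomials is analytic.** -/
theorem WS.analyticAt {R A : ℝ} (hR : 0 < R) {g : EuclideanSpace ℝ (Fin n) → ℝ}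
    (h : WS R A g) : AnalyticAt ℝ g 0 := by
  classical
  obtain ⟨I, c, w, h1, h2, h3⟩ := h
  -- the formal series
  let q : ∀ N : ℕ, I → ContinuousMultilinearMap ℝ
      (fun _ : Fin N => EuclideanSpace ℝ (Fin n)) ℝ :=
    fun N i => if (w i).length = N then c i • mm n N (w i) else 0
  have hq : ∀ N i, ‖q N i‖ * R ^ N ≤ |c i| * R ^ (w i).length := by
    intro N i
    show ‖if (w i).length = N then c i • mm n N (w i) else 0‖ * R ^ N ≤ _
    by_cases hN : (w i).length = N
    · rw [if_pos hN, norm_smul, Real.norm_eq_abs, ← hN]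
      have := norm_mm_le (w i).length (w i)
      have h4 : |c i| * ‖mm n (w i).length (w i)‖ ≤ |c i| * 1 := by gcongr
      rw [mul_one] at h4
      exact mul_le_mul_of_nonneg_right h4 (by positivity)
    · rw [if_neg hN, norm_zero, zero_mul]
      positivity
  have hRN : ∀ N : ℕ, 0 < R ^ N := fun N => by positivity
  have hqs : ∀ N, Summable fun i => ‖q N i‖ := by
    intro N
    refine Summable.of_nonneg_of_le (fun i => norm_nonneg _) (fun i => ?_) (h1.mul_right (R ^ N)⁻¹)
    rw [← div_eq_mul_inv, le_div_iff₀ (hRN N)]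
    exact hq N i
  let p : FormalMultilinearSeries ℝ (EuclideanSpace ℝ (Fin n)) ℝ := fun N => ∑' i, q N i
  have hpn : ∀ N, ‖p N‖ * R ^ N ≤ A := by
    intro N
    have h4 : ‖p N‖ ≤ ∑' i, ‖q N i‖ := norm_tsum_le_tsum_norm (hqs N)
    calc ‖p N‖ * R ^ N ≤ (∑' i, ‖q N i‖) * R ^ N := by gcongr
      _ = ∑' i, ‖q N i‖ * R ^ N := by rw [tsum_mul_right]
      _ ≤ ∑' i, |c i| * R ^ (w i).length := ((hqs N).mul_right _).tsum_le_tsum (hq N) h1
      _ ≤ A := h2
  have hball : HasFPowerSeriesOnBall g p 0 (ENNReal.ofReal R) := by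
    refine ⟨?_, by simpa using hR, fun {y} hy => ?_⟩
    · have h5 : ((Real.toNNReal R : ℝ≥0) : ℝ≥0∞) ≤ p.radius := by
        refine p.le_radius_of_bound A fun N => ?_
        rw [Real.coe_toNNReal _ hR.le]
        exact hpn N
      exact h5
    · have hy' : ‖y‖ < R := by
        rw [Metric.mem_eball, edist_zero_right] at hy
        rw [← ofReal_norm] at hy
        exact (ENNReal.ofReal_lt_ofReal_iff hR).1 hy
      rw [zero_add]
      have h5 := (h3 y hy').tsum_fiberwise (fun i => (w i).length)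
      have h6 : (fun N : ℕ => p N (fun _ => y)) =
          fun N : ℕ => ∑' b : ((fun i => (w i).length) ⁻¹' {N} : Set I),
            c b * mono (w b) y := by
        funext N
        have hqs' : Summable (q N) := (hqs N).of_norm
        have e1 : p N (fun _ => y) = ∑' i, q N i (fun _ => y) :=
          (ContinuousMultilinearMap.apply ℝ (fun _ : Fin N => EuclideanSpace ℝ (Fin n)) ℝ
            (fun _ => y)).map_tsum hqs'
        rw [e1, tsum_subtype ((fun i => (w i).length) ⁻¹' {N}) (fun i => c i * mono (w i) y)]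
        refine tsum_congr fun i => ?_
        show (if (w i).length = N then c i • mm n N (w i) else 0) (fun _ => y) = _
        by_cases hN : (w i).length = N
        · rw [if_pos hN, Set.indicator_of_mem (show i ∈ (fun i => (w i).length) ⁻¹' {N} from hN)]
          subst hN
          rw [_root_.smul_apply, mm_mono, smul_eq_mul]
        · rw [if_neg hN, Set.indicator_of_notMem (show i ∉ (fun i => (w i).length) ⁻¹' {N} from hN)]
          rfl
      rw [h6]
      exact h5
  exact ⟨p, _, hball⟩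

end Pool.Agent.VAN.AN
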