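import Pool.Agent.VAN.AN1

/-!
Analyticity off a point of a series of polynomials times rational cut-off functions.
-/

set_option autoImplicit false

namespace Pool.Agent.VAN.AN

open Filter Topology Set
open scoped ENNReal NNReal ContDiff

variable {n : ℕ}

/-- The value of a polynomial at a point of `R^n`. -/
noncomputable def ev (P : MvPolynomial (Fin n) ℝ) (x : EuclideanSpace ℝ (Fin n)) : ℝ :=
  MvPolynomial.eval (fun i => x i) P

/-- The value at `(T, …, T)` of the polynomial with the absolute values of the coefficients. -/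
noncomputable def maj (P : MvPolynomial (Fin n) ℝ) (T : ℝ) : ℝ :=
  ∑ d ∈ P.support, |P.coeff d| * ∏ i, T ^ d i

/-- The variable of the cut-off function. -/
noncomputable def XX (e : EuclideanSpace ℝ (Fin n)) (k : ℕ) (x : EuclideanSpace ℝ (Fin n)) : ℝ :=
  2 * (9 ^ k * ‖x - e‖ ^ 2 - 1)

/-- The cut-off function: close to one near the sphere of radius `3^(-k)` about `e`, and very small
far from it. -/
noncomputable def cut (e : EuclideanSpace ℝ (Fin n)) (k M : ℕ) (x : EuclideanSpace ℝ (Fin n)) : ℝ :=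
  (1 + XX e k x ^ (2 * M))⁻¹

lemma WS.finsum {R : ℝ} (hR : 0 ≤ R) {ι : Type} (s : Finset ι) (A : ι → ℝ)
    (f : ι → EuclideanSpace ℝ (Fin n) → ℝ) (h : ∀ j ∈ s, WS R (A j) (f j)) :
    WS R (∑ j ∈ s, A j) (fun v => ∑ j ∈ s, f j v) := by
  classical
  induction s using Finset.induction_on with
  | empty =>
    have := WS.const (n := n) R 0
    simpa using this
  | insert a s ha ih =>
    simp only [Finset.sum_insert ha]
    exact (h a (Finset.mem_insert_self a s)).add hR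
      (ih fun j hj => h j (Finset.mem_insert_of_mem hj))

lemma ws_ev {R T : ℝ} (hR : 0 ≤ R) {y : EuclideanSpace ℝ (Fin n)} (hT : ∀ i, |y i| + R ≤ T)
    (P : MvPolynomial (Fin n) ℝ) : WS R (maj P T) (fun v => ev P (y + v)) := by
  have h1 : ∀ i : Fin n, WS R T (fun v : EuclideanSpace ℝ (Fin n) => (y + v) i) := fun i =>
    (((WS.const R (y i)).add hR (WS.coord i)).mono_const (hT i)).congr fun v _ => by simp
  have h2 : ∀ d : Fin n →₀ ℕ, WS R (|P.coeff d| * ∏ i, T ^ d i)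
      (fun v : EuclideanSpace ℝ (Fin n) => P.coeff d * ∏ i, (y + v) i ^ d i) := by
    intro d
    have h3 := WS.finprod hR Finset.univ (fun i => T ^ d i)
      (fun i (v : EuclideanSpace ℝ (Fin n)) => (y + v) i ^ d i) fun i _ => (h1 i).pow hR (d i)
    exact h3.smul hR (P.coeff d)
  have h4 := WS.finsum hR P.support (fun d => |P.coeff d| * ∏ i, T ^ d i)
    (fun d (v : EuclideanSpace ℝ (Fin n)) => P.coeff d * ∏ i, (y + v) i ^ d i) fun d _ => h2 d
  refine h4.congr fun v _ => ?_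
  unfold ev
  rw [MvPolynomial.eval_eq']

lemma ws_cut {e y : EuclideanSpace ℝ (Fin n)} (hy : y ≠ e) :
    ∃ R : ℝ, 0 < R ∧ R ≤ 1 ∧ ∃ k₀ : ℕ, ∀ k, k₀ ≤ k → ∀ M : ℕ, 1 ≤ M →
      WS R (2 * (1 / 4) ^ M) (fun v => cut e k M (y + v)) := by
  obtain ⟨s, hs⟩ : ∃ s, s = ‖y - e‖ ^ 2 := ⟨_, rfl⟩
  have hs0 : 0 < s := by
    rw [hs]
    have : 0 < ‖y - e‖ := norm_pos_iff.2 (sub_ne_zero.2 hy)
    positivity
  obtain ⟨D, hD⟩ : ∃ D, D = ∑ i, (2 * |y i - e i| + 1) := ⟨_, rfl⟩
  have hD0 : 0 ≤ D := by rw [hD]; positivity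
  obtain ⟨R, hR⟩ : ∃ R, R = min 1 (s / (4 * D + 1)) := ⟨_, rfl⟩
  have hR0 : 0 < R := by rw [hR]; exact lt_min one_pos (by positivity)
  have hR1 : R ≤ 1 := by rw [hR]; exact min_le_left _ _
  have hRs : R * (4 * D + 1) ≤ s := by
    have : R ≤ s / (4 * D + 1) := by rw [hR]; exact min_le_right _ _
    rwa [le_div_iff₀ (by positivity)] at this
  -- the increment of the square of the distance
  obtain ⟨kap, hkap⟩ : ∃ kap : EuclideanSpace ℝ (Fin n) → ℝ,
      kap = fun v => ∑ i, (2 * (y i - e i) * v i + v i * v i) := ⟨_, rfl⟩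
  have hk1 : ∀ v, ‖y + v - e‖ ^ 2 = s + kap v := by
    intro v
    rw [hs, hkap, EuclideanSpace.real_norm_sq_eq, EuclideanSpace.real_norm_sq_eq]
    simp only
    rw [← Finset.sum_add_distrib]
    refine Finset.sum_congr rfl fun i _ => ?_
    simp only [PiLp.sub_apply, PiLp.add_apply]
    ring
  have hk2 : WS R (R * D) kap := by
    have h1 : WS R (∑ i, (2 * |y i - e i| * R + R * R)) kap := by
      rw [hkap]
      refine WS.finsum hR0.le _ (fun i => 2 * |y i - e i| * R + R * R)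
        (fun i v => 2 * (y i - e i) * v i + v i * v i) fun i _ => ?_
      have h2 := WS.smul hR0.le (2 * (y i - e i)) (WS.coord (n := n) (R := R) i)
      have h3 := (WS.coord (n := n) (R := R) i).mul hR0.le (WS.coord i)
      have h4 := h2.add hR0.le h3
      rw [abs_mul, abs_two] at h4
      exact h4
    refine h1.mono_const ?_
    rw [hD, Finset.mul_sum]
    refine Finset.sum_le_sum fun i _ => ?_
    nlinarith [abs_nonneg (y i - e i)]
  obtain ⟨k₀, hk₀⟩ : ∃ k₀ : ℕ, 4 / s < 9 ^ k₀ := pow_unbounded_of_one_lt _ (by norm_num)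
  refine ⟨R, hR0, hR1, k₀, fun k hk M hM => ?_⟩
  have h9 : 4 ≤ 9 ^ k * s := by
    have h1 : (9:ℝ) ^ k₀ ≤ 9 ^ k := pow_le_pow_right₀ (by norm_num) hk
    have h2 : 4 < 9 ^ k₀ * s := by rwa [div_lt_iff₀ hs0] at hk₀
    nlinarith
  obtain ⟨X0, hX0⟩ : ∃ X0, X0 = 2 * (9 ^ k * s - 1) := ⟨_, rfl⟩
  have hX4 : 4 ≤ X0 := by rw [hX0]; linarith
  have hX0' : 9 ^ k * s ≤ X0 := by rw [hX0]; linarith
  obtain ⟨c, hc⟩ : ∃ c : ℝ, c = 2 * 9 ^ k / X0 := ⟨_, rfl⟩
  have hc0 : 0 ≤ c := by rw [hc]; positivity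
  have hcs : c * s ≤ 2 := by
    rw [hc, div_mul_eq_mul_div, div_le_iff₀ (by linarith)]
    nlinarith
  have hcX : c * X0 = 2 * 9 ^ k := by
    rw [hc, div_mul_cancel₀]
    linarith
  -- `κ = - c kap`
  have h1 : WS R (1 / 2) (fun v => -c * kap v) := by
    refine (hk2.smul hR0.le (-c)).mono_const ?_
    rw [abs_neg, abs_of_nonneg hc0]
    have h2 : c * (R * (4 * D + 1)) ≤ c * s := by gcongr
    have h3 : 0 ≤ c * R := by positivity
    nlinarith
  have h2 := h1.geom hR0.le (by norm_num)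
  have hXv : ∀ v, XX e k (y + v) = X0 * (1 - -c * kap v) := by
    intro v
    unfold XX
    rw [hk1, hX0]
    have : X0 * (1 - -c * kap v) = X0 + (c * X0) * kap v := by ring
    rw [← hX0, this, hcX, hX0]
    ring
  have hne : ∀ v, ‖v‖ < R → XX e k (y + v) ≠ 0 := by
    intro v hv
    rw [hXv]
    have h3 := h1.abs_le hv
    rw [abs_le] at h3
    have h4 : 0 < 1 - -c * kap v := by linarith [h3.2]
    have h5 : 0 < X0 := by linarith
    positivity
  -- the inverse of the variable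
  have h3 : WS R (1 / 2) (fun v => (XX e k (y + v))⁻¹) := by
    have h4 := h2.smul hR0.le X0⁻¹
    refine (h4.mono_const ?_).congr fun v _ => ?_
    · rw [abs_inv, abs_of_nonneg (by linarith : 0 ≤ X0)]
      have h5 : X0⁻¹ ≤ 4⁻¹ := inv_anti₀ (by norm_num) hX4
      have h6 : (1 - 1 / 2 : ℝ)⁻¹ = 2 := by norm_num
      rw [h6]
      linarith
    · rw [hXv, mul_inv]
  have h4 := h3.pow hR0.le (2 * M)
  have h5 : ((1:ℝ) / 2) ^ (2 * M) = (1 / 4) ^ M := by
    rw [pow_mul]
    norm_num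
  rw [h5] at h4
  have h6 : ((1:ℝ) / 4) ^ M ≤ 1 / 4 := by
    calc ((1:ℝ) / 4) ^ M ≤ (1 / 4) ^ 1 := pow_le_pow_of_le_one (by norm_num) (by norm_num) hM
      _ = _ := by norm_num
  have h7 := (h4.smul hR0.le (-1)).geom hR0.le (by
    rw [abs_neg, abs_one, one_mul]
    linarith)
  have h8 := h4.mul hR0.le h7
  refine (h8.mono_const ?_).congr fun v hv => ?_
  · rw [abs_neg, abs_one, one_mul]
    have h9 : (1 - (1 / 4 : ℝ) ^ M)⁻¹ ≤ 2 := by
      rw [inv_le_comm₀ (by linarith) (by norm_num)]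
      linarith
    have h10 : (0:ℝ) < (1 / 4) ^ M := by positivity
    nlinarith
  · have hX := hne v hv
    unfold cut
    have h9 : XX e k (y + v) ^ (2 * M) ≠ 0 := pow_ne_zero _ hX
    have h10 : 0 ≤ XX e k (y + v) ^ (2 * M) := by rw [pow_mul]; positivity
    rw [inv_pow]
    generalize XX e k (y + v) ^ (2 * M) = W at h9 h10
    rw [← mul_inv]
    congr 1
    have : W * W⁻¹ = 1 := mul_inv_cancel₀ h9
    linear_combination -this

lemma analyticAt_ev (P : MvPolynomial (Fin n) ℝ) (y : EuclideanSpace ℝ (Fin n)) :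
    AnalyticAt ℝ (ev P) y := by
  have h := AnalyticAt.aeval_mvPolynomial (𝕜 := ℝ) (A := ℝ) (z := y)
    (f := fun (x : EuclideanSpace ℝ (Fin n)) (i : Fin n) => x i)
    (fun i => (EuclideanSpace.proj (𝕜 := ℝ) i).analyticAt y) P
  exact h

lemma one_le_den (e : EuclideanSpace ℝ (Fin n)) (k M : ℕ) (x : EuclideanSpace ℝ (Fin n)) :
    1 ≤ 1 + XX e k x ^ (2 * M) := by
  have : 0 ≤ XX e k x ^ (2 * M) := by rw [pow_mul]; positivity
  linarith

lemma cut_nonneg (e : EuclideanSpace ℝ (Fin n)) (k M : ℕ) (x : EuclideanSpace ℝ (Fin n)) :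
    0 ≤ cut e k M x := by
  have := one_le_den e k M x
  unfold cut
  positivity

lemma cut_le_one (e : EuclideanSpace ℝ (Fin n)) (k M : ℕ) (x : EuclideanSpace ℝ (Fin n)) :
    cut e k M x ≤ 1 := inv_le_one_of_one_le₀ (one_le_den e k M x)

lemma analyticAt_cut (e : EuclideanSpace ℝ (Fin n)) (k M : ℕ) (y : EuclideanSpace ℝ (Fin n)) :
    AnalyticAt ℝ (cut e k M) y := by
  have h1 : AnalyticAt ℝ (fun x : EuclideanSpace ℝ (Fin n) => ‖x - e‖ ^ 2) y := by
    have h2 : ContDiff ℝ ω (fun x : EuclideanSpace ℝ (Fin n) => ‖x - e‖ ^ 2) :=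
      (contDiff_id.sub contDiff_const).norm_sq ℝ
    exact h2.contDiffAt.analyticAt
  unfold cut XX
  refine AnalyticAt.inv ?_ ?_
  · exact analyticAt_const.add ((analyticAt_const.mul ((analyticAt_const.mul h1).sub
      analyticAt_const)).pow _)
  · have := one_le_den e k M y
    unfold XX at this
    linarith

/-- **Analyticity of the series.** -/
theorem analyticAt_series [NeZero n] {e y : EuclideanSpace ℝ (Fin n)} (hy : y ≠ e)
    (P : ℕ → MvPolynomial (Fin n) ℝ) (M : ℕ → ℕ) (hM : ∀ k, 1 ≤ M k)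
    (hPM : ∀ k, maj (P k) k * (2 * (1 / 4) ^ M k) ≤ (1 / 2) ^ k) :
    AnalyticAt ℝ (fun x => ∑' k, ev (P k) x * cut e k (M k) x) y := by
  obtain ⟨R, hR0, hR1, k₀, hcut⟩ := ws_cut hy
  obtain ⟨k₁, hk₁⟩ : ∃ k₁ : ℕ, ∀ i, |y i| + R ≤ k₁ := by
    obtain ⟨k₁, hk₁⟩ := exists_nat_ge (‖y‖ + 1)
    refine ⟨k₁, fun i => ?_⟩
    have h1 : |y i| ≤ ‖y‖ := by
      have := PiLp.norm_apply_le y i
      rwa [Real.norm_eq_abs] at this
    linarith
  obtain ⟨K, hK0, hK1⟩ : ∃ K, k₀ ≤ K ∧ k₁ ≤ K := ⟨max k₀ k₁, le_max_left _ _, le_max_right _ _⟩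
  have hterm : ∀ j : ℕ, WS R ((1 / 2) ^ (j + K))
      (fun v => ev (P (j + K)) (y + v) * cut e (j + K) (M (j + K)) (y + v)) := by
    intro j
    have h1 := ws_ev (T := ((j + K : ℕ) : ℝ)) hR0.le (y := y) (fun i => (hk₁ i).trans
      (Nat.cast_le.2 (by omega))) (P (j + K))
    have h2 := hcut (j + K) (by omega) (M (j + K)) (hM _)
    exact (h1.mul hR0.le h2).mono_const (hPM (j + K))
  have hsum : Summable fun j : ℕ => ((1:ℝ) / 2) ^ (j + K) := by
    simp only [pow_add]
    exact summable_geometric_two.mul_right _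
  have htail := WS.tsum hR0.le (fun j : ℕ => ((1:ℝ) / 2) ^ (j + K)) _ hterm hsum
  have han := htail.analyticAt hR0
  have h0 : AnalyticAt ℝ (fun x => ∑' j, ev (P (j + K)) x * cut e (j + K) (M (j + K)) x) y := by
    have h1 : AnalyticAt ℝ (fun x : EuclideanSpace ℝ (Fin n) => x - y) y :=
      analyticAt_id.sub analyticAt_const
    have h2 : AnalyticAt ℝ (fun v => ∑' j, ev (P (j + K)) (y + v) *
        cut e (j + K) (M (j + K)) (y + v)) (y - y) := by
      rw [sub_self]
      exact han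
    have h3 := h2.comp_of_eq h1 rfl
    refine h3.congr (Eventually.of_forall fun x => ?_)
    simp only [Function.comp]
    congr 1
    funext j
    rw [add_sub_cancel]
  have h1 : AnalyticAt ℝ (fun x => ∑ k ∈ Finset.range K, ev (P k) x * cut e k (M k) x) y := by
    refine Finset.analyticAt_fun_sum _ fun k _ => ?_
    exact (analyticAt_ev _ _).mul (analyticAt_cut _ _ _ _)
  refine (h1.add h0).congr ?_
  filter_upwards [Metric.ball_mem_nhds y hR0] with x hx
  have hs : Summable fun j => ev (P (j + K)) x * cut e (j + K) (M (j + K)) x := by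
    refine Summable.of_norm_bounded hsum fun j => ?_
    have h2 : ‖x - y‖ < R := by rwa [Metric.mem_ball, dist_eq_norm] at hx
    have h3 := (hterm j).abs_le h2
    simp only [add_sub_cancel] at h3
    exact h3
  have hs' : Summable fun k => ev (P k) x * cut e k (M k) x :=
    (summable_nat_add_iff K).1 hs
  exact hs'.sum_add_tsum_nat_add K

end Pool.Agent.VAN.AN
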