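import Pool.Agent.VAN.AN2

/-!
A function, real-analytic off a point `e`, which approximates prescribed continuous functions on a
sequence of balls which tend to `e`.
-/

set_option autoImplicit false

namespace Pool.Agent.VAN.AN

open Filter Topology Set
open scoped ENNReal NNReal ContDiff

variable {n : ℕ}

/-- Polynomials are dense. -/
theorem exists_ev_near {K : Set (EuclideanSpace ℝ (Fin n))} (hK : IsCompact K)
    {f : EuclideanSpace ℝ (Fin n) → ℝ} (hf : Continuous f) {δ : ℝ} (hδ : 0 < δ) :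
    ∃ P : MvPolynomial (Fin n) ℝ, ∀ z ∈ K, |ev P z - f z| ≤ δ := by
  have : CompactSpace K := isCompact_iff_compactSpace.1 hK
  let X : Fin n → C(K, ℝ) := fun i => ⟨fun z => (z : EuclideanSpace ℝ (Fin n)) i, by fun_prop⟩
  let A : Subalgebra ℝ C(K, ℝ) := (MvPolynomial.aeval X).range
  have hev : ∀ (P : MvPolynomial (Fin n) ℝ) (z : K), (MvPolynomial.aeval X P) z = ev P z := by
    intro P z
    induction P using MvPolynomial.induction_on with
    | C a => simp [ev]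
    | add p q hp hq =>
      unfold ev at hp hq ⊢
      rw [map_add, ContinuousMap.add_apply, hp, hq, map_add]
    | mul_X p i hp =>
      unfold ev at hp ⊢
      rw [map_mul, ContinuousMap.mul_apply, hp, map_mul, MvPolynomial.aeval_X,
        MvPolynomial.eval_X]
      rfl
  have hsep : A.SeparatesPoints := by
    intro a b hab
    have h1 : ∃ i, (a : EuclideanSpace ℝ (Fin n)) i ≠ (b : EuclideanSpace ℝ (Fin n)) i := by
      by_contra hcon
      push Not at hcon
      exact hab (Subtype.ext (PiLp.ext hcon))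
    obtain ⟨i, hi⟩ := h1
    refine ⟨X i, ⟨X i, ⟨MvPolynomial.X i, by simp⟩, rfl⟩, hi⟩
  obtain ⟨g, hg⟩ := ContinuousMap.exists_mem_subalgebra_near_continuous_of_separatesPoints A hsep
    (fun z : K => f z) (by fun_prop) δ hδ
  obtain ⟨g, P, rfl⟩ := g
  refine ⟨P, fun z hz => ?_⟩
  have h1 := hg ⟨z, hz⟩
  rw [Real.norm_eq_abs] at h1
  have h2 := hev P ⟨z, hz⟩
  have h3 : |ev P z - f z| < δ := by
    rw [← h2]
    exact h1
  exact h3.le

lemma nine_third (k : ℕ) : (9:ℝ) ^ k * ((1 / 3) ^ k) ^ 2 = 1 := by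
  rw [← pow_mul, mul_comm k 2, pow_mul, ← mul_pow]
  norm_num

lemma cut_near {e x z : EuclideanSpace ℝ (Fin n)} {k : ℕ} (hx : dist x e = (1 / 3 : ℝ) ^ k)
    (hz : z ∈ Metric.closedBall x (2 * ((1 / 3 : ℝ) ^ k / 16))) (M : ℕ) :
    |1 - cut e k M z| ≤ (1 / 3) ^ M := by
  obtain ⟨q, hq⟩ : ∃ q : ℝ, q = (1 / 3) ^ k := ⟨_, rfl⟩
  have hq0 : 0 < q := by rw [hq]; positivity
  have h9 := nine_third k
  rw [← hq] at hx hz h9
  rw [Metric.mem_closedBall] at hz
  have h1 : dist z e ≤ 9 / 8 * q := by linarith [dist_triangle z x e]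
  have h2 : 7 / 8 * q ≤ dist z e := by
    have := dist_triangle x z e
    rw [dist_comm x z] at this
    linarith
  rw [dist_eq_norm] at h1 h2
  have h90 : (0:ℝ) < 9 ^ k := by positivity
  have h3 : 9 ^ k * ‖z - e‖ ^ 2 ≤ 81 / 64 := by
    have h4 : ‖z - e‖ ^ 2 ≤ (9 / 8 * q) ^ 2 := by gcongr
    calc 9 ^ k * ‖z - e‖ ^ 2 ≤ 9 ^ k * (9 / 8 * q) ^ 2 := by gcongr
      _ = 81 / 64 * (9 ^ k * q ^ 2) := by ring
      _ = _ := by rw [h9, mul_one]
  have h5 : 49 / 64 ≤ 9 ^ k * ‖z - e‖ ^ 2 := by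
    have h4 : (7 / 8 * q) ^ 2 ≤ ‖z - e‖ ^ 2 := by gcongr
    calc (49 / 64 : ℝ) = 49 / 64 * (9 ^ k * q ^ 2) := by rw [h9, mul_one]
      _ = 9 ^ k * (7 / 8 * q) ^ 2 := by ring
      _ ≤ _ := by gcongr
  have h6 : XX e k z ^ 2 ≤ 1 / 3 := by
    unfold XX
    nlinarith
  have h7 : XX e k z ^ (2 * M) ≤ (1 / 3) ^ M := by
    rw [pow_mul]
    gcongr
  have h8 : 0 ≤ XX e k z ^ (2 * M) := by rw [pow_mul]; positivity
  unfold cut
  have h10 : 1 - (1 + XX e k z ^ (2 * M))⁻¹ = XX e k z ^ (2 * M) / (1 + XX e k z ^ (2 * M)) := by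
    field_simp
    ring
  rw [h10, abs_of_nonneg (by positivity)]
  refine le_trans ?_ h7
  exact div_le_self h8 (by linarith)

lemma cut_far {e x z : EuclideanSpace ℝ (Fin n)} {j k : ℕ} (hjk : j ≠ k)
    (hx : dist x e = (1 / 3 : ℝ) ^ j)
    (hz : z ∈ Metric.closedBall x (2 * ((1 / 3 : ℝ) ^ j / 16))) (M : ℕ) :
    cut e k M z ≤ (4 / 9) ^ M := by
  obtain ⟨q, hq⟩ : ∃ q : ℝ, q = (1 / 3) ^ k := ⟨_, rfl⟩
  obtain ⟨s, hs⟩ : ∃ s : ℝ, s = (1 / 3) ^ j := ⟨_, rfl⟩
  have hq0 : 0 < q := by rw [hq]; positivity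
  have hs0 : 0 < s := by rw [hs]; positivity
  have h9 := nine_third k
  rw [← hq] at h9
  rw [← hs] at hx hz
  rw [Metric.mem_closedBall] at hz
  have h1 : dist z e ≤ 9 / 8 * s := by linarith [dist_triangle z x e]
  have h2 : 7 / 8 * s ≤ dist z e := by
    have := dist_triangle x z e
    rw [dist_comm x z] at this
    linarith
  rw [dist_eq_norm] at h1 h2
  have h90 : (0:ℝ) < 9 ^ k := by positivity
  have h6 : 9 / 4 ≤ XX e k z ^ 2 := by
    rcases lt_or_gt_of_ne hjk with h | h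
    · -- `z` is farther than the sphere `k`
      have h3 : 3 * q ≤ s := by
        rw [hq, hs]
        have : (1 / 3 : ℝ) ^ k ≤ (1 / 3) ^ (j + 1) :=
          pow_le_pow_of_le_one (by norm_num) (by norm_num) h
        rw [pow_succ] at this
        linarith
      have h5 : 441 / 64 ≤ 9 ^ k * ‖z - e‖ ^ 2 := by
        have h4 : (21 / 8 * q) ^ 2 ≤ ‖z - e‖ ^ 2 := by
          have : 21 / 8 * q ≤ ‖z - e‖ := by linarith
          gcongr
        calc (441 / 64 : ℝ) = 441 / 64 * (9 ^ k * q ^ 2) := by rw [h9, mul_one]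
          _ = 9 ^ k * (21 / 8 * q) ^ 2 := by ring
          _ ≤ _ := by gcongr
      unfold XX
      nlinarith
    · have h3 : s ≤ q / 3 := by
        rw [hq, hs]
        have : (1 / 3 : ℝ) ^ j ≤ (1 / 3) ^ (k + 1) :=
          pow_le_pow_of_le_one (by norm_num) (by norm_num) h
        rw [pow_succ] at this
        linarith
      have h5 : 9 ^ k * ‖z - e‖ ^ 2 ≤ 9 / 64 := by
        have h4 : ‖z - e‖ ^ 2 ≤ (3 / 8 * q) ^ 2 := by
          have : ‖z - e‖ ≤ 3 / 8 * q := by linarith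
          gcongr
        calc 9 ^ k * ‖z - e‖ ^ 2 ≤ 9 ^ k * (3 / 8 * q) ^ 2 := by gcongr
          _ = 9 / 64 * (9 ^ k * q ^ 2) := by ring
          _ = _ := by rw [h9, mul_one]
      have h7 : 0 ≤ 9 ^ k * ‖z - e‖ ^ 2 := by positivity
      unfold XX
      nlinarith
  have h7 : (9 / 4) ^ M ≤ XX e k z ^ (2 * M) := by
    rw [pow_mul]
    gcongr
  unfold cut
  have h8 : (4 / 9 : ℝ) ^ M = ((9 / 4) ^ M)⁻¹ := by
    rw [← inv_pow]
    norm_num
  rw [h8]
  refine inv_anti₀ (by positivity) ?_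
  linarith

/-- One step of the construction. -/
theorem step (e : EuclideanSpace ℝ (Fin n)) (x : ℕ → EuclideanSpace ℝ (Fin n))
    (hx : ∀ k, dist (x k) e = (1 / 3 : ℝ) ^ k) (ε : ℕ → ℝ) (hε : ∀ k, 0 < ε k) (k : ℕ)
    (f : EuclideanSpace ℝ (Fin n) → ℝ) (hf : Continuous f) :
    ∃ (P : MvPolynomial (Fin n) ℝ) (M : ℕ), 1 ≤ M ∧ maj P k * (2 * (1 / 4) ^ M) ≤ (1 / 2) ^ k ∧
      (∀ z ∈ Metric.closedBall (x k) (2 * ((1 / 3 : ℝ) ^ k / 16)), |ev P z - f z| ≤ ε k / 4) ∧
      (∀ z ∈ Metric.closedBall (x k) (2 * ((1 / 3 : ℝ) ^ k / 16)),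
        |ev P z * cut e k M z - ev P z| ≤ ε k / 4) ∧
      ∀ i < k, ∀ z ∈ Metric.closedBall (x i) (2 * ((1 / 3 : ℝ) ^ i / 16)),
        |ev P z * cut e k M z| ≤ ε i / 4 * (1 / 2) ^ k := by
  obtain ⟨P, hP⟩ := exists_ev_near (isCompact_closedBall (x k) (2 * ((1 / 3 : ℝ) ^ k / 16))) hf
    (show 0 < ε k / 4 by linarith [hε k])
  have hPc : Continuous (ev P) :=
    continuous_iff_continuousAt.2 fun z => (analyticAt_ev P z).continuousAt
  obtain ⟨B, hB⟩ := (isCompact_closedBall e 2).exists_bound_of_continuousOn hPc.continuousOn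
  have hball : ∀ i, Metric.closedBall (x i) (2 * ((1 / 3 : ℝ) ^ i / 16)) ⊆
      Metric.closedBall e 2 := by
    intro i z hz
    rw [Metric.mem_closedBall] at hz ⊢
    have h1 := dist_triangle z (x i) e
    have h2 : (1 / 3 : ℝ) ^ i ≤ 1 := pow_le_one₀ (by norm_num) (by norm_num)
    rw [hx] at h1
    linarith
  have hB' : ∀ i, ∀ z ∈ Metric.closedBall (x i) (2 * ((1 / 3 : ℝ) ^ i / 16)), |ev P z| ≤ B :=
    fun i z hz => hB z (hball i hz)
  have hB0 : 0 ≤ B := (norm_nonneg _).trans (hB e (Metric.mem_closedBall_self (by norm_num)))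
  have t1 : Tendsto (fun M : ℕ => maj P k * (2 * (1 / 4 : ℝ) ^ M)) atTop (𝓝 0) := by
    have := ((tendsto_pow_atTop_nhds_zero_of_lt_one (r := (1/4:ℝ)) (by norm_num)
      (by norm_num)).const_mul 2).const_mul (maj P k)
    simpa using this
  have t2 : Tendsto (fun M : ℕ => B * (1 / 3 : ℝ) ^ M) atTop (𝓝 0) := by
    have := (tendsto_pow_atTop_nhds_zero_of_lt_one (r := (1/3:ℝ)) (by norm_num)
      (by norm_num)).const_mul B
    simpa using this
  have t3 : Tendsto (fun M : ℕ => B * (4 / 9 : ℝ) ^ M) atTop (𝓝 0) := by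
    have := (tendsto_pow_atTop_nhds_zero_of_lt_one (r := (4/9:ℝ)) (by norm_num)
      (by norm_num)).const_mul B
    simpa using this
  have e1 := t1.eventually_le_const (show (0:ℝ) < (1 / 2) ^ k by positivity)
  have e2 := t2.eventually_le_const (show 0 < ε k / 4 by linarith [hε k])
  have e3 : ∀ᶠ M : ℕ in atTop, ∀ i ∈ Finset.range k, B * (4 / 9 : ℝ) ^ M ≤ ε i / 4 * (1 / 2) ^ k := by
    rw [Filter.eventually_all_finset]
    intro i _
    exact t3.eventually_le_const (by have := hε i; positivity)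
  obtain ⟨M, ⟨⟨h1, h2⟩, h3⟩, h4⟩ := (((e1.and e2).and e3).and (eventually_ge_atTop 1)).exists
  refine ⟨P, M, h4, h1, hP, fun z hz => ?_, fun i hi z hz => ?_⟩
  · have h5 := cut_near (hx k) hz M
    have h6 := hB' k z hz
    have h7 : ev P z * cut e k M z - ev P z = -(ev P z * (1 - cut e k M z)) := by ring
    rw [h7, abs_neg, abs_mul]
    exact (mul_le_mul h6 h5 (abs_nonneg _) hB0).trans h2
  · have h5 := cut_far (ne_of_lt hi) (hx i) hz M
    have h6 := hB' i z hz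
    rw [abs_mul, abs_of_nonneg (cut_nonneg e k M z)]
    exact (mul_le_mul h6 h5 (cut_nonneg _ _ _ _) hB0).trans (h3 i (Finset.mem_range.2 hi))

lemma continuous_cut (e : EuclideanSpace ℝ (Fin n)) (k M : ℕ) : Continuous (cut e k M) :=
  continuous_iff_continuousAt.2 fun z => (analyticAt_cut e k M z).continuousAt

lemma continuous_ev (P : MvPolynomial (Fin n) ℝ) : Continuous (ev P) :=
  continuous_iff_continuousAt.2 fun z => (analyticAt_ev P z).continuousAt

/-- **Approximation by a function which is analytic off a point.** -/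
theorem exists_analytic_near [NeZero n] (e : EuclideanSpace ℝ (Fin n))
    (x : ℕ → EuclideanSpace ℝ (Fin n)) (hx : ∀ k, dist (x k) e = (1 / 3 : ℝ) ^ k)
    (ε : ℕ → ℝ) (hε : ∀ k, 0 < ε k) (φ : ℕ → EuclideanSpace ℝ (Fin n) → ℝ)
    (hφ : ∀ k, Continuous (φ k)) :
    ∃ ψ : EuclideanSpace ℝ (Fin n) → ℝ, Measurable ψ ∧ AnalyticOnNhd ℝ ψ {e}ᶜ ∧
      ∀ k, ∀ z ∈ Metric.closedBall (x k) (2 * ((1 / 3 : ℝ) ^ k / 16)), |ψ z - φ k z| ≤ ε k := by
  have hstep := fun (k : ℕ) (S : C(EuclideanSpace ℝ (Fin n), ℝ)) =>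
    step e x hx ε hε k (fun z => φ k z - S z) ((hφ k).sub S.continuous)
  choose PP MM h1 h2 h3 h4 h5 using hstep
  -- the partial sums
  let S : ℕ → C(EuclideanSpace ℝ (Fin n), ℝ) := fun k => Nat.rec (motive := fun _ => C(EuclideanSpace ℝ (Fin n), ℝ)) 0
    (fun k S => ⟨fun z => S z + ev (PP k S) z * cut e k (MM k S) z,
      S.continuous.add ((continuous_ev _).mul (continuous_cut _ _ _))⟩) k
  have hS : ∀ k z, S (k + 1) z = S k z + ev (PP k (S k)) z * cut e k (MM k (S k)) z :=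
    fun k z => rfl
  have hS0 : ∀ z, S 0 z = 0 := fun z => rfl
  have hsum : ∀ k z, S k z =
      ∑ j ∈ Finset.range k, ev (PP j (S j)) z * cut e j (MM j (S j)) z := by
    intro k z
    induction k with
    | zero => rw [hS0, Finset.sum_range_zero]
    | succ k ih => rw [hS, ih, Finset.sum_range_succ]
  have han : AnalyticOnNhd ℝ (fun z => ∑' k, ev (PP k (S k)) z * cut e k (MM k (S k)) z) {e}ᶜ :=
    fun y hy => analyticAt_series hy (fun k => PP k (S k)) (fun k => MM k (S k))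
      (fun k => h1 k (S k)) (fun k => h2 k (S k))
  refine ⟨_, ?_, han, fun k z hz => ?_⟩
  · exact measurable_of_continuousOn_compl_singleton e han.continuousOn
  · have hb : ∀ j : ℕ, ‖ev (PP (j + (k + 1)) (S (j + (k + 1)))) z *
        cut e (j + (k + 1)) (MM (j + (k + 1)) (S (j + (k + 1)))) z‖ ≤
          ε k / 4 * (1 / 2) ^ (j + (k + 1)) := fun j =>
      h5 (j + (k + 1)) _ k (by omega) z hz
    have hgs : Summable fun j : ℕ => ε k / 4 * (1 / 2 : ℝ) ^ (j + (k + 1)) := by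
      simp only [pow_add]
      exact (summable_geometric_two.mul_right _).mul_left _
    have hs := Summable.of_norm_bounded hgs hb
    have hs' : Summable fun j => ev (PP j (S j)) z * cut e j (MM j (S j)) z :=
      (summable_nat_add_iff (k + 1)).1 hs
    rw [← hs'.sum_add_tsum_nat_add (k + 1), Finset.sum_range_succ, ← hsum k z]
    have h6 := h3 k (S k) z hz
    have h7 := h4 k (S k) z hz
    have h8 : |∑' j : ℕ, ev (PP (j + (k + 1)) (S (j + (k + 1)))) z *
        cut e (j + (k + 1)) (MM (j + (k + 1)) (S (j + (k + 1)))) z| ≤ ε k / 2 := by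
      refine (norm_tsum_le_tsum_norm hs.norm).trans ((hs.norm.tsum_le_tsum hb hgs).trans ?_)
      rw [tsum_mul_left]
      simp only [pow_add]
      rw [tsum_mul_right, tsum_geometric_two]
      have h9 : (1 / 2 : ℝ) ^ k * (1 / 2) ^ 1 ≤ 1 := by
        have : (1 / 2 : ℝ) ^ k ≤ 1 := pow_le_one₀ (by norm_num) (by norm_num)
        linarith
      have := hε k
      nlinarith
    rw [abs_le] at h6 h7 h8 ⊢
    constructor <;> linarith [h6.1, h6.2, h7.1, h7.2, h8.1, h8.2]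

end Pool.Agent.VAN.AN
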