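import Pool.Agent.VAN.J12

/-!
# The restriction problem is a question on one function

For every `n ≥ 2` there are one smooth function `φ₀` and one function `ψ`, smooth off a single point,
such that for every exponent `p ≥ 1` the transforms of all bounded densities are in `L^p` if and only
if the norms of the transforms of `e^{i m φ₀}`, `m = 0, 1, 2, …`, are bounded, and if and only if the
transform of the single density `e^{iψ}` is in `L^p`.
-/

set_option autoImplicit false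

namespace Pool.Agent.VAN.J

open MeasureTheory Set Filter Topology Pool.Agent.MP_6cbfb8_an
open scoped ENNReal Real ContDiff

variable {n : ℕ}

/-- The uniform estimate with exponent `p`. -/
def UB (n : ℕ) (p : ℝ) : Prop := ∃ C : ℝ≥0∞, C ≠ ⊤ ∧ ∀ g : E n → ℂ, Measurable g →
  (∀ x, ‖g x‖ ≤ 1) → FF p g ≤ C

theorem enorm_extn_le_mass {g : E n → ℂ} (hb : ∀ x, ‖g x‖ ≤ 1) (ξ : E n) :
    ‖extn g ξ‖ₑ ≤ sm n univ := by
  unfold extn
  refine (enorm_integral_le_lintegral_enorm _).trans ?_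
  calc ∫⁻ x : S n, ‖g x * Complex.exp (((-(2 * π * inner ℝ (x : E n) ξ) : ℝ) : ℂ) * Complex.I)‖ₑ ∂(sm n)
      ≤ ∫⁻ _x : S n, 1 ∂(sm n) := by
        refine lintegral_mono fun x => ?_
        rw [← ofReal_norm, norm_mul, Complex.norm_exp_ofReal_mul_I, mul_one]
        exact ENNReal.ofReal_le_one.2 (hb _)
    _ = _ := by simp

theorem FF_mono {p q : ℝ} (hqp : q ≤ p) (hq : 0 ≤ q) {g : E n → ℂ} (hb : ∀ x, ‖g x‖ ≤ 1) :
    FF p g ≤ sm n univ ^ (p - q) * FF q g := by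
  unfold FF
  rw [← lintegral_const_mul' _ _ (ENNReal.rpow_ne_top_of_nonneg (by linarith) (measure_ne_top _ _))]
  refine lintegral_mono fun ξ => ?_
  simp only
  calc ‖extn g ξ‖ₑ ^ p = ‖extn g ξ‖ₑ ^ (p - q) * ‖extn g ξ‖ₑ ^ q := by
        rw [← ENNReal.rpow_add_of_nonneg _ _ (by linarith) hq]
        congr 1
        ring
    _ ≤ _ := by
        gcongr
        exact enorm_extn_le_mass hb ξ

theorem UB_mono {p q : ℝ} (hqp : q ≤ p) (hq : 0 ≤ q) (h : UB n q) : UB n p := by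
  obtain ⟨C, hC, H⟩ := h
  refine ⟨sm n univ ^ (p - q) * C, ENNReal.mul_ne_top
    (ENNReal.rpow_ne_top_of_nonneg (by linarith) (measure_ne_top _ _)) hC, fun g hg hb => ?_⟩
  refine (FF_mono hqp hq hb).trans ?_
  gcongr
  exact H g hg hb

/-- A countable cofinal subset of a set of exponents. -/
theorem exists_cofinal {F : Set ℝ} (hne : F.Nonempty) (h1 : ∀ p ∈ F, (1:ℝ) ≤ p)
    (hdown : ∀ p ∈ F, ∀ q, 1 ≤ q → q ≤ p → q ∈ F) :
    ∃ ex : ℕ → ℝ, (∀ j, ex j ∈ F) ∧ ∀ p ∈ F, ∃ j, p ≤ ex j := by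
  by_cases h : ∃ m, IsGreatest F m
  · obtain ⟨m, hm⟩ := h
    exact ⟨fun _ => m, fun _ => hm.1, fun p hp => ⟨0, hm.2 hp⟩⟩
  · have h2 : ∀ p ∈ F, ∃ r : ℚ, p < r ∧ (r : ℝ) ∈ F := by
      intro p hp
      have h3 : ¬ ∀ q ∈ F, q ≤ p := fun h4 => h ⟨p, hp, h4⟩
      push Not at h3
      obtain ⟨q, hq, hpq⟩ := h3
      obtain ⟨r, hr1, hr2⟩ := exists_rat_btwn hpq
      exact ⟨r, hr1, hdown q hq r (by linarith [h1 p hp]) hr2.le⟩
    obtain ⟨p, hp⟩ := hne
    obtain ⟨r, -, hr⟩ := h2 p hp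
    obtain ⟨f, hf⟩ := (Set.to_countable {r : ℚ | (r : ℝ) ∈ F}).exists_eq_range ⟨r, hr⟩
    refine ⟨fun j => (f j : ℝ), fun j => ?_, fun p hp => ?_⟩
    · have : f j ∈ {r : ℚ | (r : ℝ) ∈ F} := by rw [hf]; exact mem_range_self j
      exact this
    · obtain ⟨r, hr1, hr2⟩ := h2 p hp
      have h5 : r ∈ range f := by rw [← hf]; exact hr2
      obtain ⟨j, rfl⟩ := h5
      exact ⟨j, hr1.le⟩

/-- The `k`-th shell about the point `e`. -/
def shell (e : E n) (k : ℕ) : Set (E n) :=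
  {z | 3 / 4 * (1 / 3 : ℝ) ^ k < dist z e ∧ dist z e < 5 / 4 * (1 / 3 : ℝ) ^ k}

theorem shell_disjoint {e : E n} {j k : ℕ} {z : E n} (hj : z ∈ shell e j) (hk : z ∈ shell e k) :
    j = k := by
  have key : ∀ j k : ℕ, j < k → z ∈ shell e j → z ∈ shell e k → False := by
    intro j k hjk hj hk
    have h1 : (1 / 3 : ℝ) ^ k ≤ (1 / 3) ^ (j + 1) :=
      pow_le_pow_of_le_one (by norm_num) (by norm_num) hjk
    have h2 : (0:ℝ) < (1 / 3) ^ j := by positivity
    rw [pow_succ] at h1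
    have h3 := hj.1
    have h4 := hk.2
    nlinarith
  rcases lt_trichotomy j k with h | h | h
  · exact (key j k h hj hk).elim
  · exact h
  · exact (key k j h hk hj).elim

/-- Points of the sphere which tend to `e`. -/
theorem exists_points (hn : 2 ≤ n) {e : E n} (he : ‖e‖ = 1) :
    ∃ x : ℕ → E n, (∀ k, x k ∈ S n) ∧ ∀ k, dist (x k) e = (1 / 3 : ℝ) ^ k := by
  have hrank : 1 < Module.rank ℝ (E n) := by
    rw [← Module.finrank_eq_rank, finrank_euclideanSpace_fin]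
    exact_mod_cast hn
  have hpre : IsPreconnected (S n) := isPreconnected_sphere hrank 0 1
  have h1 : e ∈ S n := by simpa using he
  have h2 : -e ∈ S n := by simpa using he
  have h3 : ContinuousOn (fun z : E n => dist z e) (S n) := (by fun_prop : Continuous fun z : E n => dist z e).continuousOn
  have h4 := hpre.intermediate_value h1 h2 h3
  have h5 : ∀ k : ℕ, ∃ x : E n, x ∈ S n ∧ dist x e = (1 / 3 : ℝ) ^ k := by
    intro k
    have h6 : (1 / 3 : ℝ) ^ k ∈ Icc (dist e e) (dist (-e) e) := by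
      rw [dist_self, dist_eq_norm]
      have h7 : ‖-e - e‖ = 2 := by
        rw [← neg_add', norm_neg, ← two_smul ℝ e, norm_smul, he]
        norm_num
      rw [h7]
      refine ⟨by positivity, ?_⟩
      have : (1 / 3 : ℝ) ^ k ≤ 1 := pow_le_one₀ (by norm_num) (by norm_num)
      linarith
    obtain ⟨x, hx1, hx2⟩ := h4 h6
    exact ⟨x, hx1, hx2⟩
  choose x hx1 hx2 using h5
  exact ⟨x, hx1, hx2⟩

/-- The gliding hump: phases `f k` on the shells such that every density which agrees with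
`e^{i f k}` on the `k`-th shell, for all `k`, is as bad as possible for every exponent for which the
uniform estimate fails. -/
theorem core (hn : 2 ≤ n) {e : E n} (he : ‖e‖ = 1) :
    ∃ f : ℕ → E n → ℝ, (∀ k, ContDiff ℝ ∞ (f k)) ∧ (∀ k, HasCompactSupport (f k)) ∧
      (∀ k z, z ∉ shell e k → f k z = 0) ∧
      ∀ p : ℝ, 1 ≤ p → ¬ UB n p → ∀ C : ℝ≥0∞, C ≠ ⊤ → ∃ k, ∀ g : E n → ℂ, Measurable g →
        (∀ x, ‖g x‖ ≤ 1) → (∀ z ∈ shell e k, g z = Complex.exp ((f k z : ℂ) * Complex.I)) →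
        C < FF p g := by
  by_cases hF : ∃ p, 1 ≤ p ∧ ¬ UB n p
  swap
  · refine ⟨fun _ _ => 0, fun _ => contDiff_const, fun _ => HasCompactSupport.zero,
      fun _ _ _ => rfl, fun p hp h => (hF ⟨p, hp, h⟩).elim⟩
  obtain ⟨ex, hex, hcof⟩ := exists_cofinal (F := {p | 1 ≤ p ∧ ¬ UB n p}) hF (fun p hp => hp.1)
    (fun p hp q h1 h2 => ⟨h1, fun h => hp.2 (UB_mono h2 (by linarith) h)⟩)
  obtain ⟨x, hx, hxe⟩ := exists_points hn he
  obtain ⟨r, hr⟩ : ∃ r : ℕ → ℝ, ∀ k, r k = (1 / 3 : ℝ) ^ k / 16 := ⟨_, fun _ => rfl⟩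
  have hr0 : ∀ k, 0 < r k := fun k => by rw [hr]; positivity
  have hsh : ∀ k, Metric.ball (x k) (4 * r k) ⊆ shell e k := by
    intro k z hz
    rw [Metric.mem_ball, hr] at hz
    have h1 := dist_triangle_left e (x k) z
    have h2 := dist_triangle z (x k) e
    have h3 := dist_triangle (x k) z e
    rw [hxe] at h2 h3
    rw [dist_comm] at hz
    constructor
    · linarith
    · rw [dist_comm z (x k)] at h2
      linarith
  have hbump : ∀ k, ∃ χ : E n → ℝ, HasCompactSupport χ ∧ ContDiff ℝ ∞ χ ∧ (∀ z, |χ z| ≤ 1) ∧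
      (∀ z ∈ Metric.ball (x k) (r k), χ z = 1) ∧ ∀ z, z ∉ Metric.ball (x k) (2 * r k) → χ z = 0 := by
    intro k
    let f : ContDiffBump (x k) := ⟨r k, 2 * r k, hr0 k, by linarith [hr0 k]⟩
    refine ⟨f, f.hasCompactSupport, f.contDiff, fun z => ?_, fun z hz => ?_, fun z hz => ?_⟩
    · rw [abs_of_nonneg f.nonneg]; exact f.le_one
    · exact f.one_of_mem_closedBall (Metric.ball_subset_closedBall hz)
    · refine f.zero_of_le_dist ?_
      rw [Metric.mem_ball, not_lt] at hz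
      exact hz
  have hbump2 : ∀ k, ∃ χ : E n → ℝ, ContDiff ℝ ∞ χ ∧
      (∀ z ∈ Metric.ball (x k) (2 * r k), χ z = 1) ∧
      ∀ z, z ∉ Metric.ball (x k) (4 * r k) → χ z = 0 := by
    intro k
    let f : ContDiffBump (x k) := ⟨2 * r k, 4 * r k, by linarith [hr0 k], by linarith [hr0 k]⟩
    refine ⟨f, f.contDiff, fun z hz => ?_, fun z hz => ?_⟩
    · exact f.one_of_mem_closedBall (Metric.ball_subset_closedBall hz)
    · refine f.zero_of_le_dist ?_
      rw [Metric.mem_ball, not_lt] at hz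
      exact hz
  choose χ hχ1 hχ2 hχ3 hχ4 hχ5 using hbump
  choose η hη1 hη2 hη3 using hbump2
  have hmult := fun k : ℕ => j_mult (n := n) (hex k.unpair.1).1 (hχ1 k) (hχ2 k)
  choose M hM1 hM2 using hmult
  have hpick : ∀ k : ℕ, ∃ φ : E n → ℝ, HasCompactSupport φ ∧ ContDiff ℝ ∞ φ ∧
      (k : ℝ≥0∞) * M k <
        FF (ex k.unpair.1) (fun z => (χ k z : ℂ) * Complex.exp ((φ z : ℂ) * Complex.I)) := by
    intro k
    have hp := (hex k.unpair.1).1
    have hfin : (2 : ℝ≥0∞) ^ (ex k.unpair.1) * ((k : ℝ≥0∞) * M k) ≠ ⊤ :=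
      ENNReal.mul_ne_top (ENNReal.rpow_ne_top_of_nonneg (by linarith) (by norm_num))
        (ENNReal.mul_ne_top (ENNReal.natCast_ne_top k) (hM1 k))
    obtain ⟨g, hg1, hg2, hg3, hg4⟩ := j_caps hp (hex k.unpair.1).2 (hx k) (hr0 k) hfin
    refine j_pick hp (hχ2 k).continuous.measurable (hχ3 k) hg1 hg2 (fun z => ?_) hg4
    by_cases hz : z ∈ Metric.ball (x k) (r k)
    · rw [hχ4 k z hz, Complex.ofReal_one, one_mul]
    · rw [hg3 z hz, mul_zero]
  choose φ hφ1 hφ2 hφ3 using hpick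
  refine ⟨fun k z => η k z * φ k z, fun k => (hη1 k).mul (hφ2 k), fun k => (hφ1 k).mul_left,
    fun k z hz => ?_, fun p hp hUB C hC => ?_⟩
  · show η k z * φ k z = 0
    rw [hη3 k z fun h => hz (hsh k h), zero_mul]
  obtain ⟨j, hj⟩ := hcof p ⟨hp, hUB⟩
  have hC' : sm n univ ^ (ex j - p) * C ≠ ⊤ := ENNReal.mul_ne_top
    (ENNReal.rpow_ne_top_of_nonneg (by linarith) (measure_ne_top _ _)) hC
  obtain ⟨m, hm⟩ := ENNReal.exists_nat_gt hC'
  obtain ⟨k, hk⟩ : ∃ k, k = Nat.pair j m := ⟨_, rfl⟩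
  have hkj : k.unpair.1 = j := by rw [hk, Nat.unpair_pair]
  have hmk : (m : ℝ≥0∞) ≤ k := by rw [hk]; exact_mod_cast Nat.right_le_pair j m
  refine ⟨k, fun g hg hb hag => ?_⟩
  by_contra hcon
  rw [not_lt] at hcon
  have h1 := hφ3 k
  have heq : (fun z => (χ k z : ℂ) * Complex.exp ((φ k z : ℂ) * Complex.I)) =
      fun z => (χ k z : ℂ) * g z := by
    funext z
    by_cases hz : z ∈ Metric.ball (x k) (2 * r k)
    · rw [hag z (hsh k (Metric.ball_subset_ball (by linarith [hr0 k]) hz))]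
      show _ = (χ k z : ℂ) * Complex.exp (((η k z * φ k z : ℝ) : ℂ) * Complex.I)
      rw [hη2 k z hz, one_mul]
    · rw [hχ5 k z hz, Complex.ofReal_zero, zero_mul, zero_mul]
  rw [heq] at h1
  have h2 := hM2 k g hg hb
  have h3 : FF (ex k.unpair.1) g ≤ sm n univ ^ (ex j - p) * C := by
    rw [hkj]
    refine (FF_mono hj (by linarith) hb).trans ?_
    gcongr
  have h4 : FF (ex k.unpair.1) g ≤ k := (h3.trans hm.le).trans hmk
  have h5 : (k : ℝ≥0∞) * M k < k * M k := by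
    refine lt_of_lt_of_le h1 (h2.trans ?_)
    rw [mul_comm]
    gcongr
  exact lt_irrefl _ h5

/-- Smooth functions with compact support can be summed up with suitable integer weights. -/
theorem exists_weights (f : ℕ → E n → ℝ) (hf : ∀ k, ContDiff ℝ ∞ (f k))
    (hc : ∀ k, HasCompactSupport (f k)) :
    ∃ l : ℕ → ℕ, (∀ k, 0 < l k) ∧ ContDiff ℝ ∞ fun x => ∑' k, f k x / (l k : ℝ) := by
  have h1 : ∀ k j : ℕ, ∃ C : ℝ, ∀ x, ‖iteratedFDeriv ℝ j (f k) x‖ ≤ C := by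
    intro k j
    have h2 : Continuous (iteratedFDeriv ℝ j (f k)) :=
      (hf k).continuous_iteratedFDeriv (by exact_mod_cast le_top)
    exact h2.bounded_above_of_compact_support ((hc k).iteratedFDeriv j)
  choose C hC using h1
  have h3 : ∀ k : ℕ, ∃ l : ℕ, 0 < l ∧ ∀ j ≤ k, ∀ x, ‖iteratedFDeriv ℝ j (f k) x‖ ≤ l * (1 / 2) ^ k := by
    intro k
    obtain ⟨m, hm⟩ := exists_nat_ge (2 ^ k * ∑ j ∈ Finset.range (k + 1), |C k j|)
    refine ⟨m + 1, Nat.succ_pos m, fun j hj x => ?_⟩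
    have h4 : |C k j| ≤ ∑ j ∈ Finset.range (k + 1), |C k j| :=
      Finset.single_le_sum (f := fun j => |C k j|) (fun _ _ => abs_nonneg _)
        (Finset.mem_range.2 (Nat.lt_succ_of_le hj))
    have h5 : (2:ℝ) ^ k * |C k j| ≤ (m + 1 : ℕ) := by
      push_cast
      have : (2:ℝ) ^ k * |C k j| ≤ 2 ^ k * ∑ j ∈ Finset.range (k + 1), |C k j| := by gcongr
      linarith
    calc ‖iteratedFDeriv ℝ j (f k) x‖ ≤ C k j := hC k j x
      _ ≤ |C k j| := le_abs_self _
      _ = (2 ^ k * |C k j|) * (1 / 2) ^ k := by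
          rw [one_div, inv_pow]
          field_simp
      _ ≤ _ := by gcongr
  choose l hl hb using h3
  refine ⟨l, hl, ?_⟩
  refine contDiff_tsum_of_eventually (N := ⊤) (v := fun _ k => (1 / 2 : ℝ) ^ k) (fun k => (hf k).div_const _)
    (fun _ _ => summable_geometric_two) (fun j _ => ?_)
  have h6 : ∀ᶠ k in cofinite, j ≤ k := by
    rw [Nat.cofinite_eq_atTop]
    exact eventually_ge_atTop j
  filter_upwards [h6] with k hk x
  have hlk : (0:ℝ) < l k := by exact_mod_cast hl k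
  have h7 : (fun x => f k x / (l k : ℝ)) = fun x => ((l k : ℝ)⁻¹) • f k x := by
    funext x
    rw [smul_eq_mul]
    ring
  rw [h7, iteratedFDeriv_const_smul_apply' ((hf k).contDiffAt.of_le (by exact_mod_cast le_top)), norm_smul,
    norm_inv, Real.norm_of_nonneg hlk.le]
  calc (l k : ℝ)⁻¹ * ‖iteratedFDeriv ℝ j (f k) x‖ ≤ (l k : ℝ)⁻¹ * (l k * (1 / 2) ^ k) := by
        gcongr
        exact hb k j hk x
    _ = _ := by field_simp

theorem measurable_phase {ψ : E n → ℝ} (hψ : Measurable ψ) :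
    Measurable fun x => Complex.exp ((ψ x : ℂ) * Complex.I) :=
  Complex.measurable_exp.comp ((Complex.measurable_ofReal.comp hψ).mul_const _)

theorem norm_phase_le (ψ : E n → ℝ) (x : E n) : ‖Complex.exp ((ψ x : ℂ) * Complex.I)‖ ≤ 1 := by
  rw [Complex.norm_exp_ofReal_mul_I]

/-- **The restriction problem is a question on one function.** -/
theorem equiv1 (hn : 2 ≤ n) (e : E n) (he : ‖e‖ = 1) :
    ∃ φ₀ ψ₀ : E n → ℝ, ContDiff ℝ ∞ φ₀ ∧ Measurable ψ₀ ∧ ContDiffOn ℝ ∞ ψ₀ {e}ᶜ ∧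
      ∀ p : ℝ, 1 ≤ p → List.TFAE [
        ∀ g : E n → ℂ, Measurable g → (∀ x, ‖g x‖ ≤ 1) → ∫⁻ ξ, ‖extn g ξ‖ₑ ^ p < ⊤,
        ∃ C : ℝ≥0∞, C ≠ ⊤ ∧ ∀ g : E n → ℂ, Measurable g → (∀ x, ‖g x‖ ≤ 1) →
          ∫⁻ ξ, ‖extn g ξ‖ₑ ^ p ≤ C,
        ∀ φ : E n → ℝ, ContDiff ℝ ∞ φ → ∃ C : ℝ≥0∞, C ≠ ⊤ ∧ ∀ l : ℝ,
          ∫⁻ ξ, ‖extn (fun x => Complex.exp (((l * φ x : ℝ) : ℂ) * Complex.I)) ξ‖ₑ ^ p ≤ C,
        ∃ C : ℝ≥0∞, C ≠ ⊤ ∧ ∀ m : ℕ,
          ∫⁻ ξ, ‖extn (fun x => Complex.exp (((m * φ₀ x : ℝ) : ℂ) * Complex.I)) ξ‖ₑ ^ p ≤ C,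
        ∫⁻ ξ, ‖extn (fun x => Complex.exp ((ψ₀ x : ℂ) * Complex.I)) ξ‖ₑ ^ p < ⊤] := by
  obtain ⟨f, hf1, hf2, hf3, hf4⟩ := core hn he
  obtain ⟨l, hl, hsm⟩ := exists_weights f hf1 hf2
  have hzero : ∀ {k j : ℕ} {z : E n}, z ∈ shell e k → j ≠ k → f j z = 0 := by
    intro k j z hz hjk
    exact hf3 j z fun h => hjk (shell_disjoint h hz)
  have hval : ∀ {k : ℕ} {z : E n}, z ∈ shell e k → ∑' j, f j z = f k z := by
    intro k z hz
    exact tsum_eq_single k fun j hj => hzero hz hj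
  have hsum : ∀ z, Summable fun k => f k z := by
    intro z
    by_cases h : ∃ k, z ∈ shell e k
    · obtain ⟨k, hk⟩ := h
      exact (hasSum_single k fun j hj => hzero hk hj).summable
    · have h0 : (fun k => f k z) = fun _ => 0 := by
        funext k
        exact hf3 k z fun h1 => h ⟨k, h1⟩
      rw [h0]
      exact summable_zero
  have hψm : Measurable fun z => ∑' k, f k z := by
    refine measurable_of_tendsto_metrizable
      (f := fun N z => ∑ k ∈ Finset.range N, f k z) (fun N => ?_) ?_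
    · exact Finset.measurable_sum _ fun k _ => (hf1 k).continuous.measurable
    · rw [tendsto_pi_nhds]
      intro z
      exact (hsum z).hasSum.tendsto_sum_nat
  have hψs : ContDiffOn ℝ ∞ (fun z => ∑' k, f k z) {e}ᶜ := by
    intro y hy
    refine ContDiffAt.contDiffWithinAt ?_
    have hd : 0 < dist y e := dist_pos.2 hy
    obtain ⟨N, hN⟩ := exists_pow_lt_of_lt_one (show 0 < dist y e / 4 by positivity)
      (show (1 / 3 : ℝ) < 1 by norm_num)
    have h1 : ContDiffAt ℝ ∞ (fun z => ∑ k ∈ Finset.range N, f k z) y :=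
      (ContDiff.sum fun k _ => hf1 k).contDiffAt
    refine h1.congr_of_eventuallyEq ?_
    filter_upwards [Metric.ball_mem_nhds y (show 0 < dist y e / 2 by positivity)] with z hz
    refine tsum_eq_sum fun k hk => hf3 k z fun h2 => ?_
    rw [Finset.mem_range, not_lt] at hk
    have h3 : (1 / 3 : ℝ) ^ k ≤ (1 / 3) ^ N := pow_le_pow_of_le_one (by norm_num) (by norm_num) hk
    have h4 := h2.2
    have h5 := dist_triangle_left y e z
    rw [Metric.mem_ball] at hz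
    linarith
  refine ⟨fun z => ∑' k, f k z / (l k : ℝ), fun z => ∑' k, f k z, hsm, hψm, hψs,
    fun p hp => ?_⟩
  tfae_have 1 → 5 := fun H => H _ (measurable_phase hψm) (norm_phase_le _)
  tfae_have 5 → 2 := by
    intro H
    by_contra h
    obtain ⟨k, hk⟩ := hf4 p hp h _ H.ne
    refine lt_irrefl _ (hk _ (measurable_phase hψm) (norm_phase_le _) fun z hz => ?_)
    simp only
    rw [hval hz]
  tfae_have 2 → 1 := by
    rintro ⟨C, hC, h⟩ g hg hb
    exact (h g hg hb).trans_lt hC.lt_top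
  tfae_have 2 → 3 := by
    rintro ⟨C, hC, h⟩ φ hφ
    refine ⟨C, hC, fun t => ?_⟩
    exact h _ (measurable_phase (ψ := fun x => t * φ x) (hφ.continuous.measurable.const_mul t))
      (norm_phase_le fun x => t * φ x)
  tfae_have 3 → 4 := by
    intro H
    obtain ⟨C, hC, h⟩ := H _ hsm
    exact ⟨C, hC, fun m => h m⟩
  tfae_have 4 → 2 := by
    rintro ⟨C, hC, H⟩
    by_contra h
    obtain ⟨k, hk⟩ := hf4 p hp h C hC
    refine absurd (H (l k)) (not_le.2 (hk _
      (measurable_phase (ψ := fun x => (l k : ℝ) * ∑' j, f j x / (l j : ℝ))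
        (hsm.continuous.measurable.const_mul _))
      (norm_phase_le fun x => (l k : ℝ) * ∑' j, f j x / (l j : ℝ)) fun z hz => ?_))
    have hlk : (l k : ℝ) ≠ 0 := by exact_mod_cast (hl k).ne'
    have h1 : ∑' j, f j z / (l j : ℝ) = f k z / (l k : ℝ) :=
      tsum_eq_single k fun j hj => by rw [hzero hz hj, zero_div]
    simp only
    rw [h1, mul_div_cancel₀ _ hlk]
  tfae_finish

end Pool.Agent.VAN.J
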