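import Pool.Agent.VAN.AN3
import Pool.Agent.VAN.J6

/-!
# The restriction problem is a question on one phase which is real-analytic off one point

For every `n ≥ 2` and every unit vector `e` there is `ψ₀`, real-analytic on `R^n` without the point
`e`, such that for every exponent `p ≥ 1` the transforms of all bounded densities are in `L^p` if and
only if the transform of `e^{iψ₀}` is in `L^p`.
-/

set_option autoImplicit false

namespace Pool.Agent.VAN.AN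

open MeasureTheory Set Filter Topology Pool.Agent.MP_6cbfb8_an Pool.Agent.VAN.J
open scoped ENNReal Real ContDiff

variable {n : ℕ}

lemma measurable_norm_extn {g : E n → ℂ} (hg : Measurable g) {p : ℝ} :
    Measurable fun ξ : E n => ‖extn g ξ‖ₑ ^ p := by
  have h3 := measurable_extn_param (W := Unit) (fun _ => g) (hg.comp measurable_snd)
  have h4 : Measurable fun ξ : E n => extn g ξ :=
    h3.comp (g := fun q : Unit × E n => extn g q.2) (f := fun ξ : E n => ((), ξ)) (by fun_prop)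
  exact h4.enorm.pow_const p

/-- Lower semicontinuity of the norm of the transform. -/
theorem FF_lsc {p : ℝ} {h₀ : E n → ℂ} {C : ℝ≥0∞} (hC : C < FF p h₀) :
    ∃ ε : ℝ, 0 < ε ∧ ∀ h : E n → ℂ, Measurable h → (∀ x, ‖h x‖ ≤ 1) → (∀ x, ‖h x - h₀ x‖ ≤ ε) →
      C < FF p h := by
  by_contra hcon
  push Not at hcon
  have h1 : ∀ m : ℕ, ∃ h : E n → ℂ, Measurable h ∧ (∀ x, ‖h x‖ ≤ 1) ∧
      (∀ x, ‖h x - h₀ x‖ ≤ 1 / ((m : ℝ) + 1)) ∧ FF p h ≤ C :=
    fun m => hcon _ (by positivity)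
  choose h hm hb ha hF using h1
  have hpt : ∀ x, Tendsto (fun m => h m x) atTop (𝓝 (h₀ x)) := by
    intro x
    rw [tendsto_iff_norm_sub_tendsto_zero]
    exact squeeze_zero (fun m => norm_nonneg _) (fun m => ha m x)
      tendsto_one_div_add_atTop_nhds_zero_nat
  have hlim : ∀ ξ, Tendsto (fun m => extn (h m) ξ) atTop (𝓝 (extn h₀ ξ)) := by
    intro ξ
    unfold extn
    refine tendsto_integral_of_dominated_convergence (fun _ => 1) (fun i => ?_)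
      (integrable_const _) (fun i => Eventually.of_forall fun x => ?_) ?_
    · exact (j_int (B := 1) (hm i) (hb i) ξ).aestronglyMeasurable
    · rw [norm_mul, norm_phase, mul_one]
      exact hb i x
    · exact Eventually.of_forall fun x => (hpt x).mul_const _
  have hpt2 : ∀ ξ, Tendsto (fun m => ‖extn (h m) ξ‖ₑ ^ p) atTop (𝓝 (‖extn h₀ ξ‖ₑ ^ p)) := by
    intro ξ
    exact ((ENNReal.continuous_rpow_const (y := p)).tendsto _).comp (hlim ξ).enorm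
  refine absurd hC (not_lt.2 ?_)
  calc FF p h₀ = ∫⁻ ξ, liminf (fun m => ‖extn (h m) ξ‖ₑ ^ p) atTop := by
        unfold FF
        refine lintegral_congr fun ξ => ?_
        rw [(hpt2 ξ).liminf_eq]
    _ ≤ liminf (fun m => ∫⁻ ξ, ‖extn (h m) ξ‖ₑ ^ p) atTop :=
        lintegral_liminf_le fun m => measurable_norm_extn (hm m)
    _ ≤ C := liminf_le_of_frequently_le' (Frequently.of_forall fun m => hF m)

lemma norm_phase_sub_le (s t : ℝ) :
    ‖Complex.exp ((s : ℂ) * Complex.I) - Complex.exp ((t : ℂ) * Complex.I)‖ ≤ |s - t| := by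
  have h1 : Complex.exp ((s : ℂ) * Complex.I) - Complex.exp ((t : ℂ) * Complex.I) =
      Complex.exp ((t : ℂ) * Complex.I) * (Complex.exp (Complex.I * ((s - t : ℝ) : ℂ)) - 1) := by
    rw [mul_sub, ← Complex.exp_add, mul_one]
    congr 2
    push_cast
    ring
  rw [h1, norm_mul, Complex.norm_exp_ofReal_mul_I, one_mul]
  exact Real.norm_exp_I_mul_ofReal_sub_one_le

/-- The gliding hump, in a form which is stable under small perturbations. -/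
theorem core_robust (hn : 2 ≤ n) {e : E n} (he : ‖e‖ = 1) :
    ∃ (x : ℕ → E n) (f : ℕ → E n → ℝ) (ε : ℕ → ℝ), (∀ k, dist (x k) e = (1 / 3 : ℝ) ^ k) ∧
      (∀ k, Continuous (f k)) ∧ (∀ k, 0 < ε k) ∧
      ∀ p : ℝ, 1 ≤ p → ¬ UB n p → ∀ C : ℝ≥0∞, C ≠ ⊤ → ∃ k, ∀ g : E n → ℂ, Measurable g →
        (∀ x, ‖g x‖ ≤ 1) → (∀ z ∈ Metric.closedBall (x k) (2 * ((1 / 3 : ℝ) ^ k / 16)),
          ‖g z - Complex.exp ((f k z : ℂ) * Complex.I)‖ ≤ ε k) → C < FF p g := by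
  obtain ⟨x, hx, hxe⟩ := exists_points hn he
  by_cases hF : ∃ p, 1 ≤ p ∧ ¬ UB n p
  swap
  · exact ⟨x, fun _ _ => 0, fun _ => 1, hxe, fun _ => continuous_const, fun _ => one_pos,
      fun p hp h => (hF ⟨p, hp, h⟩).elim⟩
  obtain ⟨ex, hex, hcof⟩ := exists_cofinal (F := {p | 1 ≤ p ∧ ¬ UB n p}) hF (fun p hp => hp.1)
    (fun p hp q h1 h2 => ⟨h1, fun h => hp.2 (UB_mono h2 (by linarith) h)⟩)
  obtain ⟨r, hr⟩ : ∃ r : ℕ → ℝ, ∀ k, r k = (1 / 3 : ℝ) ^ k / 16 := ⟨_, fun _ => rfl⟩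
  have hr0 : ∀ k, 0 < r k := fun k => by rw [hr]; positivity
  have hbump : ∀ k, ∃ χ : E n → ℝ, HasCompactSupport χ ∧ ContDiff ℝ ∞ χ ∧ (∀ z, |χ z| ≤ 1) ∧
      (∀ z ∈ Metric.ball (x k) (r k), χ z = 1) ∧ ∀ z, z ∉ Metric.ball (x k) (2 * r k) → χ z = 0 := by
    intro k
    let f : ContDiffBump (x k) := ⟨r k, 2 * r k, hr0 k, by linarith [hr0 k]⟩
    refine ⟨f, f.hasCompactSupport, f.contDiff, fun z => ?_, fun z hz => ?_, fun z hz => ?_⟩
    · rw [abs_of_nonneg f.nonneg]; exact f.le_one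
    · exact f.one_of_mem_closedBall (Metric.ball_subset_closedBall hz)
    · refine f.zero_of_le_dist ?_
      rw [Metric.mem_ball, not_lt] at hz
      exact hz
  choose χ hχ1 hχ2 hχ3 hχ4 hχ5 using hbump
  have hmult := fun k : ℕ => j_mult (n := n) (hex k.unpair.1).1 (hχ1 k) (hχ2 k)
  choose M hM1 hM2 using hmult
  have hpick : ∀ k : ℕ, ∃ φ : E n → ℝ, HasCompactSupport φ ∧ ContDiff ℝ ∞ φ ∧
      (k : ℝ≥0∞) * M k <
        FF (ex k.unpair.1) (fun z => (χ k z : ℂ) * Complex.exp ((φ z : ℂ) * Complex.I)) := by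
    intro k
    have hp := (hex k.unpair.1).1
    have hfin : (2 : ℝ≥0∞) ^ (ex k.unpair.1) * ((k : ℝ≥0∞) * M k) ≠ ⊤ :=
      ENNReal.mul_ne_top (ENNReal.rpow_ne_top_of_nonneg (by linarith) (by norm_num))
        (ENNReal.mul_ne_top (ENNReal.natCast_ne_top k) (hM1 k))
    obtain ⟨g, hg1, hg2, hg3, hg4⟩ := j_caps hp (hex k.unpair.1).2 (hx k) (hr0 k) hfin
    refine j_pick hp (hχ2 k).continuous.measurable (hχ3 k) hg1 hg2 (fun z => ?_) hg4
    by_cases hz : z ∈ Metric.ball (x k) (r k)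
    · rw [hχ4 k z hz, Complex.ofReal_one, one_mul]
    · rw [hg3 z hz, mul_zero]
  choose φ hφ1 hφ2 hφ3 using hpick
  have hlsc := fun k => FF_lsc (hφ3 k)
  choose ε hε0 hε using hlsc
  refine ⟨x, φ, ε, hxe, fun k => (hφ2 k).continuous, hε0, fun p hp hUB C hC => ?_⟩
  obtain ⟨j, hj⟩ := hcof p ⟨hp, hUB⟩
  have hC' : sm n univ ^ (ex j - p) * C ≠ ⊤ := ENNReal.mul_ne_top
    (ENNReal.rpow_ne_top_of_nonneg (by linarith) (measure_ne_top _ _)) hC
  obtain ⟨m, hm⟩ := ENNReal.exists_nat_gt hC'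
  obtain ⟨k, hk⟩ : ∃ k, k = Nat.pair j m := ⟨_, rfl⟩
  have hkj : k.unpair.1 = j := by rw [hk, Nat.unpair_pair]
  have hmk : (m : ℝ≥0∞) ≤ k := by rw [hk]; exact_mod_cast Nat.right_le_pair j m
  refine ⟨k, fun g hg hb hag => ?_⟩
  by_contra hcon
  rw [not_lt] at hcon
  have h1 : (k : ℝ≥0∞) * M k < FF (ex k.unpair.1) (fun z => (χ k z : ℂ) * g z) := by
    refine hε k _ ((Complex.measurable_ofReal.comp (hχ2 k).continuous.measurable).mul hg)
      (fun z => ?_) (fun z => ?_)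
    · rw [norm_mul, Complex.norm_real, Real.norm_eq_abs]
      calc |χ k z| * ‖g z‖ ≤ 1 * 1 :=
            mul_le_mul (hχ3 k z) (hb z) (norm_nonneg _) zero_le_one
        _ = 1 := one_mul 1
    · rw [← mul_sub, norm_mul, Complex.norm_real, Real.norm_eq_abs]
      by_cases hz : z ∈ Metric.ball (x k) (2 * r k)
      · have h2 := hag z (by rw [← hr]; exact Metric.ball_subset_closedBall hz)
        calc |χ k z| * ‖g z - Complex.exp ((φ k z : ℂ) * Complex.I)‖ ≤ 1 * ε k :=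
              mul_le_mul (hχ3 k z) h2 (norm_nonneg _) zero_le_one
          _ = ε k := one_mul _
      · rw [hχ5 k z hz, abs_zero, zero_mul]
        exact (hε0 k).le
  have h2 := hM2 k g hg hb
  have h3 : FF (ex k.unpair.1) g ≤ sm n univ ^ (ex j - p) * C := by
    rw [hkj]
    refine (FF_mono hj (by linarith) hb).trans ?_
    gcongr
  have h4 : FF (ex k.unpair.1) g ≤ k := (h3.trans hm.le).trans hmk
  have h5 : (k : ℝ≥0∞) * M k < k * M k := by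
    refine lt_of_lt_of_le h1 (h2.trans ?_)
    rw [mul_comm]
    gcongr
  exact lt_irrefl _ h5

/-- **One phase, real-analytic off one point, decides the restriction problem.** -/
theorem analytic_one (hn : 2 ≤ n) (e : E n) (he : ‖e‖ = 1) :
    ∃ ψ₀ : E n → ℝ, Measurable ψ₀ ∧ AnalyticOnNhd ℝ ψ₀ {e}ᶜ ∧ ∀ p : ℝ, 1 ≤ p →
      (∫⁻ ξ, ‖extn (fun x => Complex.exp ((ψ₀ x : ℂ) * Complex.I)) ξ‖ₑ ^ p < ⊤ ↔ UB n p) := by
  have : NeZero n := ⟨by omega⟩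
  obtain ⟨x, f, ε, hxe, hf, hε, H⟩ := core_robust hn he
  obtain ⟨ψ, hψm, hψa, hψ⟩ := exists_analytic_near e x hxe ε hε f hf
  refine ⟨ψ, hψm, hψa, fun p hp => ⟨fun hfin => ?_, fun hUB => ?_⟩⟩
  · by_contra h
    obtain ⟨k, hk⟩ := H p hp h _ hfin.ne
    refine lt_irrefl _ (hk _ (measurable_phase hψm) (norm_phase_le _) fun z hz => ?_)
    exact (norm_phase_sub_le _ _).trans (hψ k z hz)
  · obtain ⟨C, hC, h⟩ := hUB
    exact (h _ (measurable_phase hψm) (norm_phase_le _)).trans_lt hC.lt_top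

/-- **The restriction problem is a question on one function**, with a density which is real-analytic
off one point. -/
theorem equiv_an (hn : 2 ≤ n) (e : E n) (he : ‖e‖ = 1) :
    ∃ φ₀ ψ₀ : E n → ℝ, ContDiff ℝ ∞ φ₀ ∧ Measurable ψ₀ ∧ AnalyticOnNhd ℝ ψ₀ {e}ᶜ ∧
      ∀ p : ℝ, 1 ≤ p → List.TFAE [
        ∀ g : E n → ℂ, Measurable g → (∀ x, ‖g x‖ ≤ 1) → ∫⁻ ξ, ‖extn g ξ‖ₑ ^ p < ⊤,
        ∃ C : ℝ≥0∞, C ≠ ⊤ ∧ ∀ g : E n → ℂ, Measurable g → (∀ x, ‖g x‖ ≤ 1) →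
          ∫⁻ ξ, ‖extn g ξ‖ₑ ^ p ≤ C,
        ∀ φ : E n → ℝ, ContDiff ℝ ∞ φ → ∃ C : ℝ≥0∞, C ≠ ⊤ ∧ ∀ l : ℝ,
          ∫⁻ ξ, ‖extn (fun x => Complex.exp (((l * φ x : ℝ) : ℂ) * Complex.I)) ξ‖ₑ ^ p ≤ C,
        ∃ C : ℝ≥0∞, C ≠ ⊤ ∧ ∀ m : ℕ,
          ∫⁻ ξ, ‖extn (fun x => Complex.exp (((m * φ₀ x : ℝ) : ℂ) * Complex.I)) ξ‖ₑ ^ p ≤ C,
        ∫⁻ ξ, ‖extn (fun x => Complex.exp ((ψ₀ x : ℂ) * Complex.I)) ξ‖ₑ ^ p < ⊤] := by
  obtain ⟨φ₀, ψ₁, h1, -, -, h2⟩ := equiv1 hn e he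
  obtain ⟨ψ₀, h3, h4, h5⟩ := analytic_one hn e he
  refine ⟨φ₀, ψ₀, h1, h3, h4, fun p hp => ?_⟩
  have h6 := h2 p hp
  tfae_have 1 ↔ 2 := h6.out 0 1
  tfae_have 2 ↔ 3 := h6.out 1 2
  tfae_have 3 ↔ 4 := h6.out 2 3
  tfae_have 5 ↔ 2 := h5 p hp
  tfae_finish

end Pool.Agent.VAN.AN
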