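import Pool.Agent.VAN.AN3

/-!
Cauchy estimates, and compactly supported functions of all Gevrey classes of order greater than one.
-/

set_option autoImplicit false

namespace Pool.Agent.VAN.AN

open Filter Topology Set
open scoped ENNReal NNReal ContDiff Nat

variable {n : ℕ}

/-- A series of monomials of total mass `A` on the ball of radius `R` is a power series whose `N`-th
term has norm at most `A / R^N`. -/
theorem WS.exists_series [NeZero n] {R A : ℝ} (hR : 0 < R) {g : EuclideanSpace ℝ (Fin n) → ℝ}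
    (h : WS R A g) : ∃ p : FormalMultilinearSeries ℝ (EuclideanSpace ℝ (Fin n)) ℝ,
      HasFPowerSeriesOnBall g p 0 (ENNReal.ofReal R) ∧ ∀ N, ‖p N‖ * R ^ N ≤ A := by
  classical
  obtain ⟨I, c, w, h1, h2, h3⟩ := h
  let q : ∀ N : ℕ, I → ContinuousMultilinearMap ℝ
      (fun _ : Fin N => EuclideanSpace ℝ (Fin n)) ℝ :=
    fun N i => if (w i).length = N then c i • mm n N (w i) else 0
  have hq : ∀ N i, ‖q N i‖ * R ^ N ≤ |c i| * R ^ (w i).length := by
    intro N i
    show ‖if (w i).length = N then c i • mm n N (w i) else 0‖ * R ^ N ≤ _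
    by_cases hN : (w i).length = N
    · rw [if_pos hN, norm_smul, Real.norm_eq_abs, ← hN]
      have := norm_mm_le (w i).length (w i)
      have h4 : |c i| * ‖mm n (w i).length (w i)‖ ≤ |c i| * 1 := by gcongr
      rw [mul_one] at h4
      exact mul_le_mul_of_nonneg_right h4 (by positivity)
    · rw [if_neg hN, norm_zero, zero_mul]
      positivity
  have hRN : ∀ N : ℕ, 0 < R ^ N := fun N => by positivity
  have hqs : ∀ N, Summable fun i => ‖q N i‖ := by
    intro N
    refine Summable.of_nonneg_of_le (fun i => norm_nonneg _) (fun i => ?_) (h1.mul_right (R ^ N)⁻¹)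
    rw [← div_eq_mul_inv, le_div_iff₀ (hRN N)]
    exact hq N i
  let p : FormalMultilinearSeries ℝ (EuclideanSpace ℝ (Fin n)) ℝ := fun N => ∑' i, q N i
  have hpn : ∀ N, ‖p N‖ * R ^ N ≤ A := by
    intro N
    have h4 : ‖p N‖ ≤ ∑' i, ‖q N i‖ := norm_tsum_le_tsum_norm (hqs N)
    calc ‖p N‖ * R ^ N ≤ (∑' i, ‖q N i‖) * R ^ N := by gcongr
      _ = ∑' i, ‖q N i‖ * R ^ N := by rw [tsum_mul_right]
      _ ≤ ∑' i, |c i| * R ^ (w i).length := ((hqs N).mul_right _).tsum_le_tsum (hq N) h1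
      _ ≤ A := h2
  refine ⟨p, ⟨?_, by simpa using hR, fun {y} hy => ?_⟩, hpn⟩
  · have h5 : ((Real.toNNReal R : ℝ≥0) : ℝ≥0∞) ≤ p.radius := by
      refine p.le_radius_of_bound A fun N => ?_
      rw [Real.coe_toNNReal _ hR.le]
      exact hpn N
    exact h5
  · have hy' : ‖y‖ < R := by
      rw [Metric.mem_eball, edist_zero_right] at hy
      rw [← ofReal_norm] at hy
      exact (ENNReal.ofReal_lt_ofReal_iff hR).1 hy
    rw [zero_add]
    have h5 := (h3 y hy').tsum_fiberwise (fun i => (w i).length)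
    have h6 : (fun N : ℕ => p N (fun _ => y)) =
        fun N : ℕ => ∑' b : ((fun i => (w i).length) ⁻¹' {N} : Set I),
          c b * mono (w b) y := by
      funext N
      have hqs' : Summable (q N) := (hqs N).of_norm
      have e1 : p N (fun _ => y) = ∑' i, q N i (fun _ => y) :=
        (ContinuousMultilinearMap.apply ℝ (fun _ : Fin N => EuclideanSpace ℝ (Fin n)) ℝ
          (fun _ => y)).map_tsum hqs'
      rw [e1, tsum_subtype ((fun i => (w i).length) ⁻¹' {N}) (fun i => c i * mono (w i) y)]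
      refine tsum_congr fun i => ?_
      show (if (w i).length = N then c i • mm n N (w i) else 0) (fun _ => y) = _
      by_cases hN : (w i).length = N
      · rw [if_pos hN, Set.indicator_of_mem (show i ∈ (fun i => (w i).length) ⁻¹' {N} from hN)]
        subst hN
        rw [_root_.smul_apply, mm_mono, smul_eq_mul]
      · rw [if_neg hN, Set.indicator_of_notMem (show i ∉ (fun i => (w i).length) ⁻¹' {N} from hN)]
        rfl
    rw [h6]
    exact h5

/-- **Cauchy's estimate.** -/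
theorem WS.cauchy [NeZero n] {R A : ℝ} (hR : 0 < R) {h : EuclideanSpace ℝ (Fin n) → ℝ}
    {y : EuclideanSpace ℝ (Fin n)} (H : WS R A (fun v => h (y + v))) (m : ℕ) :
    ‖iteratedFDeriv ℝ m h y‖ ≤ (m ! : ℝ) * (A / R ^ m) := by
  obtain ⟨p, hp, hpn⟩ := H.exists_series hR
  have h1 := hp.comp_sub y
  simp only [add_sub_cancel, zero_add] at h1
  have hA : ‖p m‖ ≤ A / R ^ m := by
    rw [le_div_iff₀ (by positivity)]
    exact hpn m
  refine ContinuousMultilinearMap.opNorm_le_bound
    (mul_nonneg (by positivity) ((norm_nonneg _).trans hA)) fun v => ?_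
  rw [h1.iteratedFDeriv_eq_sum_of_completeSpace]
  calc ‖∑ σ : Equiv.Perm (Fin m), p m fun i => v (σ i)‖
      ≤ ∑ σ : Equiv.Perm (Fin m), ‖p m fun i => v (σ i)‖ := norm_sum_le _ _
    _ ≤ ∑ _σ : Equiv.Perm (Fin m), A / R ^ m * ∏ i, ‖v i‖ := by
        refine Finset.sum_le_sum fun σ _ => ?_
        refine ((p m).le_opNorm _).trans ?_
        rw [Equiv.prod_comp σ (fun i => ‖v i‖)]
        gcongr
    _ = (m ! : ℝ) * (A / R ^ m) * ∏ i, ‖v i‖ := by
        rw [Finset.sum_const, Finset.card_univ, Fintype.card_perm, Fintype.card_fin, nsmul_eq_mul]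
        ring

lemma hasSum_exp_real (x : ℝ) : HasSum (fun m : ℕ => x ^ m / (m ! : ℝ)) (Real.exp x) := by
  rw [Real.exp_eq_exp_ℝ]
  exact NormedSpace.expSeries_div_hasSum_exp x

lemma WS.exp {R A : ℝ} (hR : 0 ≤ R) {f : EuclideanSpace ℝ (Fin n) → ℝ} (hf : WS R A f) :
    WS R (Real.exp A) (fun v => Real.exp (f v)) := by
  have h1 := WS.tsum hR (fun m : ℕ => A ^ m / (m ! : ℝ)) (fun (m : ℕ) v => f v ^ m / (m ! : ℝ))
    (fun m => by
      have h2 := (hf.pow hR m).smul hR ((m ! : ℝ)⁻¹)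
      rw [abs_of_nonneg (by positivity)] at h2
      refine (h2.mono_const (le_of_eq ?_)).congr fun v _ => ?_
      · rw [div_eq_mul_inv, mul_comm]
      · rw [div_eq_mul_inv, mul_comm]) (hasSum_exp_real A).summable
  rw [(hasSum_exp_real A).tsum_eq] at h1
  exact h1.congr fun v _ => (hasSum_exp_real (f v)).tsum_eq.symm

lemma WS.exp_sub_one {R A : ℝ} (hR : 0 ≤ R) {f : EuclideanSpace ℝ (Fin n) → ℝ} (hf : WS R A f) :
    WS R (Real.exp A - 1) (fun v => Real.exp (f v) - 1) := by
  have hs : ∀ x : ℝ, HasSum (fun m : ℕ => x ^ (m + 1) / ((m + 1)! : ℝ)) (Real.exp x - 1) := by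
    intro x
    have h := (hasSum_nat_add_iff' 1).2 (hasSum_exp_real x)
    simpa using h
  have h1 := WS.tsum hR (fun m : ℕ => A ^ (m + 1) / ((m + 1)! : ℝ))
    (fun (m : ℕ) v => f v ^ (m + 1) / ((m + 1)! : ℝ))
    (fun m => by
      have h2 := (hf.pow hR (m + 1)).smul hR (((m + 1)! : ℝ)⁻¹)
      rw [abs_of_nonneg (by positivity)] at h2
      refine (h2.mono_const (le_of_eq ?_)).congr fun v _ => ?_
      · rw [div_eq_mul_inv, mul_comm]
      · rw [div_eq_mul_inv, mul_comm]) (hs A).summable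
  rw [(hs A).tsum_eq] at h1
  exact h1.congr fun v _ => (hs (f v)).tsum_eq.symm

/-- The flat function `exp (-exp (1/t))`. -/
noncomputable def flat (t : ℝ) : ℝ := expNegInvGlue (expNegInvGlue t)

lemma flat_contDiff : ContDiff ℝ ∞ flat := expNegInvGlue.contDiff.comp expNegInvGlue.contDiff

lemma flat_of_nonpos {t : ℝ} (ht : t ≤ 0) : flat t = 0 := by
  unfold flat
  rw [expNegInvGlue.zero_of_nonpos ht, expNegInvGlue.zero]

lemma flat_pos {t : ℝ} (ht : 0 < t) : 0 < flat t :=
  expNegInvGlue.pos_of_pos (expNegInvGlue.pos_of_pos ht)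

lemma flat_of_pos {t : ℝ} (ht : 0 < t) : flat t = Real.exp (-Real.exp t⁻¹) := by
  unfold flat expNegInvGlue
  rw [if_neg (not_le.2 ht), if_neg (not_le.2 (Real.exp_pos _)), ← Real.exp_neg, neg_neg]

lemma flat_nonneg (t : ℝ) : 0 ≤ flat t := by
  rcases le_or_gt t 0 with h | h
  · rw [flat_of_nonpos h]
  · exact (flat_pos h).le

lemma flat_le_one (t : ℝ) : flat t ≤ 1 := by
  rcases le_or_gt t 0 with h | h
  · rw [flat_of_nonpos h]
    exact zero_le_one
  · rw [flat_of_pos h]
    exact Real.exp_le_one_iff.2 (by linarith [Real.exp_pos t⁻¹])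

/-- The bump of radius `ρ` about `x`. -/
noncomputable def bump (x : EuclideanSpace ℝ (Fin n)) (ρ : ℝ) (z : EuclideanSpace ℝ (Fin n)) : ℝ :=
  flat (ρ ^ 2 - ‖z - x‖ ^ 2)

lemma bump_contDiff (x : EuclideanSpace ℝ (Fin n)) (ρ : ℝ) : ContDiff ℝ ∞ (bump x ρ) := by
  unfold bump
  exact flat_contDiff.comp (contDiff_const.sub ((contDiff_id.sub contDiff_const).norm_sq ℝ))

/-- The series of the bump near a point of the ball. -/
theorem ws_bump {x y : EuclideanSpace ℝ (Fin n)} {ρ : ℝ} (hρ0 : 0 < ρ) (hρ : ρ ≤ 1)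
    (hy : 0 < ρ ^ 2 - ‖y - x‖ ^ 2) :
    WS ((ρ ^ 2 - ‖y - x‖ ^ 2) ^ 2 / (8 * (3 * n + 1)))
      (Real.exp (-(Real.exp (ρ ^ 2 - ‖y - x‖ ^ 2)⁻¹ / 2))) (fun v => bump x ρ (y + v)) := by
  obtain ⟨t, ht⟩ : ∃ t, t = ρ ^ 2 - ‖y - x‖ ^ 2 := ⟨_, rfl⟩
  rw [← ht] at hy ⊢
  have ht1 : t ≤ 1 := by
    rw [ht]
    nlinarith [norm_nonneg (y - x)]
  obtain ⟨D, hD⟩ : ∃ D : ℝ, D = 3 * n + 1 := ⟨_, rfl⟩
  have hD1 : 1 ≤ D := by
    rw [hD]
    have : (0:ℝ) ≤ n := Nat.cast_nonneg n
    linarith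
  rw [← hD]
  obtain ⟨R, hR⟩ : ∃ R, R = t ^ 2 / (8 * D) := ⟨_, rfl⟩
  rw [← hR]
  have hR0 : 0 < R := by rw [hR]; positivity
  have hRD : D * R = t ^ 2 / 8 := by
    rw [hR]
    field_simp
  have hR1 : R ≤ 1 := by
    have h1 : t ^ 2 ≤ 1 := by nlinarith
    have h2 : R ≤ D * R := by nlinarith
    linarith
  have hyx : ∀ i, |y i - x i| ≤ 1 := by
    intro i
    have h1 := PiLp.norm_apply_le (y - x) i
    rw [Real.norm_eq_abs, PiLp.sub_apply] at h1
    have h2 : ‖y - x‖ ^ 2 < 1 := by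
      have : ρ ^ 2 ≤ 1 := by nlinarith
      linarith
    have h3 : ‖y - x‖ ≤ 1 := by nlinarith [norm_nonneg (y - x)]
    exact h1.trans h3
  -- the increment
  obtain ⟨kap, hkap⟩ : ∃ kap : EuclideanSpace ℝ (Fin n) → ℝ,
      kap = fun v => ∑ i, (2 * (y i - x i) * v i + v i * v i) := ⟨_, rfl⟩
  have hk1 : ∀ v, ρ ^ 2 - ‖y + v - x‖ ^ 2 = t - kap v := by
    intro v
    have h1 : ‖y + v - x‖ ^ 2 = ‖y - x‖ ^ 2 + kap v := by
      rw [hkap, EuclideanSpace.real_norm_sq_eq, EuclideanSpace.real_norm_sq_eq]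
      simp only
      rw [← Finset.sum_add_distrib]
      refine Finset.sum_congr rfl fun i _ => ?_
      simp only [PiLp.sub_apply, PiLp.add_apply]
      ring
    rw [h1, ht]
    ring
  have hk2 : WS R (D * R) kap := by
    have h1 : WS R (∑ i : Fin n, (2 * |y i - x i| * R + R * R)) kap := by
      rw [hkap]
      refine WS.finsum hR0.le _ (fun i => 2 * |y i - x i| * R + R * R)
        (fun i v => 2 * (y i - x i) * v i + v i * v i) fun i _ => ?_
      have h2 := WS.smul hR0.le (2 * (y i - x i)) (WS.coord (n := n) (R := R) i)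
      have h3 := (WS.coord (n := n) (R := R) i).mul hR0.le (WS.coord i)
      have h4 := h2.add hR0.le h3
      rw [abs_mul, abs_two] at h4
      exact h4
    refine h1.mono_const ?_
    calc ∑ i : Fin n, (2 * |y i - x i| * R + R * R) ≤ ∑ _i : Fin n, 3 * R := by
          refine Finset.sum_le_sum fun i _ => ?_
          have := hyx i
          nlinarith
      _ = 3 * n * R := by
          rw [Finset.sum_const, Finset.card_univ, Fintype.card_fin, nsmul_eq_mul]
          ring
      _ ≤ D * R := by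
          rw [hD]
          nlinarith
  rw [hRD] at hk2
  have hkv : ∀ v, ‖v‖ < R → |kap v| ≤ t / 8 := fun v hv => by
    have h1 := hk2.abs_le hv
    nlinarith
  -- `1/(t - kap) - 1/t`
  have h1 : WS R (1 / 4) (fun v => (t - kap v)⁻¹ - t⁻¹) := by
    have e1 : WS R (1 / 8) (fun v => t⁻¹ * kap v) := by
      refine (hk2.smul hR0.le t⁻¹).mono_const ?_
      rw [abs_of_pos (inv_pos.2 hy)]
      have : t⁻¹ * (t ^ 2 / 8) = t / 8 := by field_simp
      rw [this]
      linarith
    have e2 := e1.geom hR0.le (by norm_num)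
    have e3 := ((hk2.smul hR0.le (t⁻¹ ^ 2)).mul hR0.le e2)
    refine (e3.mono_const ?_).congr fun v hv => ?_
    · rw [abs_of_pos (by positivity)]
      have : t⁻¹ ^ 2 * (t ^ 2 / 8) = 1 / 8 := by field_simp
      rw [this]
      norm_num
    · have h2 := hkv v hv
      rw [abs_le] at h2
      have h3 : t - kap v ≠ 0 := by
        have : 0 < t - kap v := by linarith [h2.2]
        exact this.ne'
      have h4 : 1 - t⁻¹ * kap v ≠ 0 := by
        intro h5
        apply h3
        have : t * (1 - t⁻¹ * kap v) = t - kap v := by field_simp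
        rw [← this, h5, mul_zero]
      have h5 : t - kap v = t * (1 - t⁻¹ * kap v) := by field_simp
      rw [h5, mul_inv]
      field_simp
      ring
  have h2 := (h1.exp_sub_one hR0.le)
  have h3 : Real.exp (1 / 4) - 1 ≤ 1 / 2 := by
    have := Real.exp_bound_div_one_sub_of_interval (x := 1 / 4) (by norm_num) (by norm_num)
    norm_num at this ⊢
    linarith
  have h4 := h2.mono_const h3
  have h5 := ((h4.smul hR0.le (-Real.exp t⁻¹)).exp hR0.le).smul hR0.le (Real.exp (-Real.exp t⁻¹))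
  refine (h5.mono_const ?_).congr fun v hv => ?_
  · rw [abs_neg, abs_of_pos (Real.exp_pos _), abs_of_pos (Real.exp_pos _), ← Real.exp_add]
    apply le_of_eq
    congr 1
    ring
  · have h6 := hkv v hv
    rw [abs_le] at h6
    unfold bump
    rw [hk1, flat_of_pos (by linarith [h6.2]), ← Real.exp_add]
    congr 1
    have h7 : Real.exp (t - kap v)⁻¹ = Real.exp t⁻¹ * Real.exp ((t - kap v)⁻¹ - t⁻¹) := by
      rw [← Real.exp_add]
      congr 1
      ring
    rw [h7]
    ring

end Pool.Agent.VAN.AN
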