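import Pool.Agent.VAN.AN4
import Pool.Agent.VAN.AN5

/-!
# The restriction problem is a question on one phase of all Gevrey classes of order greater than one

For every `n ≥ 2` there are a function `φ₀` with `‖D^m φ₀‖ ≤ C_s (m!)^s` for all `m` and every
`s > 1`, and a function `ψ₀` which is real-analytic off one point, such that for every exponent
`p ≥ 1` the transforms of all bounded densities are in `L^p` if and only if the norms of the
transforms of `e^{i m φ₀}`, `m = 0, 1, 2, …`, are bounded, and if and only if the transform of the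
single density `e^{iψ₀}` is in `L^p`.
-/

set_option autoImplicit false

namespace Pool.Agent.VAN.AN

open MeasureTheory Set Filter Topology Pool.Agent.MP_6cbfb8_an Pool.Agent.VAN.J
open scoped ENNReal Real ContDiff

variable {n : ℕ}

section Num

open scoped Nat

/-- Of Gevrey class `s` for every `s > 1`. -/
def Gev (h : E n → ℝ) : Prop :=
  ∀ s : ℝ, 1 < s → ∃ C : ℝ, ∀ m x, ‖iteratedFDeriv ℝ m h x‖ ≤ C * (m ! : ℝ) ^ s

lemma one_le_fact (m : ℕ) : (1:ℝ) ≤ (m ! : ℝ) := by exact_mod_cast Nat.factorial_pos m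

/-- The numerical estimate. -/
lemma gev_num {N : ℕ} (hN : 1 ≤ N) {D B : ℝ} (hD : 0 < D) (hB : 0 ≤ B) (m : ℕ) {t : ℝ} (ht : 0 < t) :
    ((m ! : ℝ) * (B * Real.exp (-(Real.exp t⁻¹ / 2)) / (t ^ 2 / (8 * D)) ^ m)) ^ N ≤
      B ^ N * Real.exp ((8 * D) ^ N / (N / (2 * (2 * N)!))) * (m ! : ℝ) ^ (N + 2) := by
  obtain ⟨u, hu⟩ : ∃ u, u = t⁻¹ := ⟨_, rfl⟩
  have hu0 : 0 < u := by rw [hu]; positivity
  obtain ⟨c, hc⟩ : ∃ c : ℝ, c = 1 / (2 * (2 * N)!) := ⟨_, rfl⟩
  have hc0 : 0 < c := by rw [hc]; positivity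
  have hN0 : (0:ℝ) < N := by exact_mod_cast hN
  obtain ⟨w, hw⟩ : ∃ w, w = u ^ (2 * N) := ⟨_, rfl⟩
  have hw0 : 0 < w := by rw [hw]; positivity
  obtain ⟨G, hG⟩ : ∃ G : ℝ, G = (8 * D) ^ N / (c * N) := ⟨_, rfl⟩
  have hG0 : 0 < G := by rw [hG]; positivity
  have hGe : (8 * D) ^ N / (N / (2 * (2 * N)!)) = G := by
    rw [hG, hc]
    congr 1
    ring
  rw [hGe, ← hu]
  have e1 : Real.exp (-(Real.exp u / 2)) ≤ Real.exp (-(c * w)) := by
    apply Real.exp_le_exp.2
    have := Real.pow_div_factorial_le_exp u hu0.le (2 * N)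
    have h2 : c * w = u ^ (2 * N) / (2 * N)! / 2 := by
      rw [hc, hw]
      field_simp
    rw [h2]
    linarith
  have e2 : (t ^ 2 / (8 * D)) ^ m = ((8 * D) ^ m * u ^ (2 * m))⁻¹ := by
    rw [hu, pow_mul, ← mul_pow, ← inv_pow]
    congr 1
    field_simp
  have e3 : w ^ m * Real.exp (-(c * w)) ^ N ≤ (m ! : ℝ) / (c * N) ^ m := by
    have h1 := Real.pow_div_factorial_le_exp (c * N * w) (by positivity) m
    rw [div_le_iff₀ (by positivity)] at h1
    rw [← Real.exp_nat_mul, le_div_iff₀ (by positivity)]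
    have h2 : (N : ℝ) * -(c * w) = -(c * N * w) := by ring
    rw [h2, Real.exp_neg]
    calc w ^ m * (Real.exp (c * N * w))⁻¹ * (c * N) ^ m = (c * N * w) ^ m * (Real.exp (c * N * w))⁻¹ := by
          rw [mul_pow (c * N) w]
          ring
      _ ≤ (Real.exp (c * N * w) * (m ! : ℝ)) * (Real.exp (c * N * w))⁻¹ := by gcongr
      _ = (m ! : ℝ) := by
          field_simp
  have e4 : G ^ m ≤ Real.exp G * (m ! : ℝ) := by
    have h1 := Real.pow_div_factorial_le_exp G hG0.le m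
    rwa [div_le_iff₀ (by positivity)] at h1
  rw [e2, div_inv_eq_mul]
  calc ((m ! : ℝ) * (B * Real.exp (-(Real.exp u / 2)) * ((8 * D) ^ m * u ^ (2 * m)))) ^ N
      ≤ ((m ! : ℝ) * (B * Real.exp (-(c * w)) * ((8 * D) ^ m * u ^ (2 * m)))) ^ N := by
        gcongr
    _ = (m ! : ℝ) ^ N * B ^ N * ((8 * D) ^ N) ^ m * (w ^ m * Real.exp (-(c * w)) ^ N) := by
        rw [hw]
        simp only [mul_pow]
        ring
    _ ≤ (m ! : ℝ) ^ N * B ^ N * ((8 * D) ^ N) ^ m * ((m ! : ℝ) / (c * N) ^ m) := by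
        gcongr
    _ = (m ! : ℝ) ^ N * B ^ N * (m ! : ℝ) * G ^ m := by
        rw [hG, div_pow]
        ring
    _ ≤ (m ! : ℝ) ^ N * B ^ N * (m ! : ℝ) * (Real.exp G * (m ! : ℝ)) := by gcongr
    _ = _ := by ring

/-- The derivatives of a bump times a polynomial. -/
theorem gev_bump_mul [NeZero n] (x : E n) {ρ : ℝ} (hρ0 : 0 < ρ) (hρ : ρ ≤ 1)
    (P : MvPolynomial (Fin n) ℝ) : Gev (fun z => bump x ρ z * ev P z) := by
  intro s hs
  obtain ⟨N, hN1, hN2⟩ : ∃ N : ℕ, 1 ≤ N ∧ (N : ℝ) + 2 ≤ s * N := by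
    obtain ⟨N, hN⟩ := exists_nat_ge (2 / (s - 1))
    refine ⟨N + 1, by omega, ?_⟩
    rw [div_le_iff₀ (by linarith)] at hN
    push_cast
    nlinarith
  obtain ⟨D, hD⟩ : ∃ D : ℝ, D = 3 * n + 1 := ⟨_, rfl⟩
  have hD1 : 1 ≤ D := by
    rw [hD]
    have : (0:ℝ) ≤ n := Nat.cast_nonneg n
    linarith
  obtain ⟨B, hB⟩ : ∃ B : ℝ, B = |maj P (‖x‖ + 2)| := ⟨_, rfl⟩
  have hB0 : 0 ≤ B := by rw [hB]; positivity
  obtain ⟨K, hK⟩ : ∃ K : ℝ, K = max 1 (B ^ N * Real.exp ((8 * D) ^ N / (N / (2 * (2 * N)!)))) :=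
    ⟨_, rfl⟩
  have hK1 : 1 ≤ K := by rw [hK]; exact le_max_left _ _
  have hcd : ContDiff ℝ ∞ (fun z => bump x ρ z * ev P z) := by
    refine (bump_contDiff x ρ).mul ?_
    have : ContDiff ℝ ω (ev P) := by
      rw [contDiff_omega_iff_analyticOnNhd]
      exact fun z _ => analyticAt_ev P z
    exact this.of_le le_top
  refine ⟨K, fun m => ?_⟩
  have hcl : IsClosed {y : E n | ‖iteratedFDeriv ℝ m (fun z => bump x ρ z * ev P z) y‖ ≤
      K * (m ! : ℝ) ^ s} :=
    isClosed_le (hcd.continuous_iteratedFDeriv (by exact_mod_cast le_top)).norm continuous_const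
  have hdense : Dense (Metric.sphere x ρ)ᶜ := by
    rw [← interior_eq_empty_iff_dense_compl]
    exact interior_sphere x hρ0.ne'
  have hsub : (Metric.sphere x ρ)ᶜ ⊆ {y : E n |
      ‖iteratedFDeriv ℝ m (fun z => bump x ρ z * ev P z) y‖ ≤ K * (m ! : ℝ) ^ s} := by
    intro y hy
    rw [mem_compl_iff, mem_sphere_iff_norm] at hy
    rw [mem_ofPred_eq]
    rcases lt_or_gt_of_ne hy with h | h
    · -- inside
      have ht : 0 < ρ ^ 2 - ‖y - x‖ ^ 2 := by nlinarith [norm_nonneg (y - x)]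
      obtain ⟨t, ht'⟩ : ∃ t, t = ρ ^ 2 - ‖y - x‖ ^ 2 := ⟨_, rfl⟩
      have h1 := ws_bump hρ0 hρ ht
      rw [← ht', ← hD] at h1
      rw [← ht'] at ht
      have ht1 : t ≤ 1 := by
        rw [ht']
        nlinarith [norm_nonneg (y - x)]
      obtain ⟨R, hR⟩ : ∃ R, R = t ^ 2 / (8 * D) := ⟨_, rfl⟩
      have hR0 : 0 < R := by rw [hR]; positivity
      have hR1 : R ≤ 1 := by
        rw [hR, div_le_one (by positivity)]
        nlinarith
      rw [← hR] at h1
      have h2 := ws_ev (T := ‖x‖ + 2) hR0.le (y := y) (fun i => by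
        have h3 : |y i| ≤ ‖y‖ := by
          have := PiLp.norm_apply_le y i
          rwa [Real.norm_eq_abs] at this
        have h4 : ‖y‖ ≤ ‖y - x‖ + ‖x‖ := by
          have := norm_add_le (y - x) x
          rwa [sub_add_cancel] at this
        linarith) P
      have h3 := h1.mul hR0.le (h2.mono_const (le_abs_self _))
      rw [← hB] at h3
      have h4 := WS.cauchy (h := fun z => bump x ρ z * ev P z) hR0 h3 m
      refine h4.trans ?_
      have h5 := gev_num hN1 (show 0 < D by linarith) hB0 m ht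
      rw [← hR] at h5
      have h6 : (0:ℝ) ≤ K * (m ! : ℝ) ^ s := by positivity
      rw [mul_comm (Real.exp _) B]
      refine le_of_pow_le_pow_left₀ (by omega : N ≠ 0) h6 (h5.trans ?_)
      rw [mul_pow K]
      have h7 : B ^ N * Real.exp ((8 * D) ^ N / (N / (2 * (2 * N)!))) ≤ K ^ N := by
        calc B ^ N * Real.exp ((8 * D) ^ N / (N / (2 * (2 * N)!))) ≤ K := by
              rw [hK]; exact le_max_right _ _
          _ ≤ K ^ N := le_self_pow₀ hK1 (by omega)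
      have h8 : (m ! : ℝ) ^ (N + 2) ≤ ((m ! : ℝ) ^ s) ^ N := by
        rw [← Real.rpow_natCast, ← Real.rpow_natCast, ← Real.rpow_mul (by positivity)]
        refine Real.rpow_le_rpow_of_exponent_le (one_le_fact m) ?_
        push_cast
        exact hN2
      exact mul_le_mul h7 h8 (by positivity) (by positivity)
    · -- outside
      have h1 : (fun z => bump x ρ z * ev P z) =ᶠ[𝓝 y] fun _ => 0 := by
        have h2 : ∀ᶠ z in 𝓝 y, ρ < ‖z - x‖ :=
          (continuous_id.sub continuous_const).norm.continuousAt.eventually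
            (eventually_gt_nhds h)
        filter_upwards [h2] with z hz
        unfold bump
        rw [flat_of_nonpos (by nlinarith), zero_mul]
      rw [(h1.iteratedFDeriv ℝ m).eq_of_nhds]
      have h2 : iteratedFDeriv ℝ m (fun _ : E n => (0:ℝ)) y = 0 := by
        rw [iteratedFDeriv_fun_zero]
        rfl
      rw [h2, norm_zero]
      positivity
  have h1 : closure (Metric.sphere x ρ)ᶜ ⊆ {y : E n |
      ‖iteratedFDeriv ℝ m (fun z => bump x ρ z * ev P z) y‖ ≤ K * (m ! : ℝ) ^ s} :=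
    closure_minimal hsub hcl
  intro y
  exact h1 (by rw [hdense.closure_eq]; exact mem_univ y)

/-- Functions of all Gevrey classes can be summed up with suitable integer weights. -/
theorem gev_weights (h : ℕ → E n → ℝ) (h1 : ∀ k, ContDiff ℝ ∞ (h k)) (h2 : ∀ k, Gev (h k)) :
    ∃ l : ℕ → ℕ, (∀ k, 0 < l k) ∧ ContDiff ℝ ∞ (fun x => ∑' k, h k x / (l k : ℝ)) ∧
      Gev (fun x => ∑' k, h k x / (l k : ℝ)) := by
  unfold Gev at h2
  choose C hC using h2
  have hs : ∀ j : ℕ, (1:ℝ) < 1 + 1 / ((j : ℝ) + 1) := fun j => by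
    have : (0:ℝ) < 1 / ((j : ℝ) + 1) := by positivity
    linarith
  have h3 : ∀ k : ℕ, ∃ l : ℕ, 0 < l ∧ ∀ j ≤ k, |C k _ (hs j)| ≤ l * (1 / 2) ^ k := by
    intro k
    obtain ⟨m, hm⟩ := exists_nat_ge (2 ^ k * ∑ j ∈ Finset.range (k + 1), |C k _ (hs j)|)
    refine ⟨m + 1, Nat.succ_pos m, fun j hj => ?_⟩
    have h4 : |C k _ (hs j)| ≤ ∑ j ∈ Finset.range (k + 1), |C k _ (hs j)| :=
      Finset.single_le_sum (f := fun j => |C k _ (hs j)|) (fun _ _ => abs_nonneg _)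
        (Finset.mem_range.2 (Nat.lt_succ_of_le hj))
    have h5 : (2:ℝ) ^ k * |C k _ (hs j)| ≤ (m + 1 : ℕ) := by
      push_cast
      have : (2:ℝ) ^ k * |C k _ (hs j)| ≤ 2 ^ k * ∑ j ∈ Finset.range (k + 1), |C k _ (hs j)| := by
        gcongr
      linarith
    have h6 : ∀ a : ℝ, a = (2 ^ k * a) * (1 / 2) ^ k := fun a => by
      rw [one_div, inv_pow]
      field_simp
    calc |C k _ (hs j)| = (2 ^ k * |C k _ (hs j)|) * (1 / 2) ^ k := h6 _
      _ ≤ _ := by gcongr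
  choose l hl hb using h3
  have hlk : ∀ k, (1:ℝ) ≤ l k := fun k => by exact_mod_cast hl k
  have hder : ∀ k m x, ‖iteratedFDeriv ℝ m (fun x => h k x / (l k : ℝ)) x‖ =
      ‖iteratedFDeriv ℝ m (h k) x‖ / l k := by
    intro k m x
    have h7 : (fun x => h k x / (l k : ℝ)) = fun x => ((l k : ℝ)⁻¹) • h k x := by
      funext x
      rw [smul_eq_mul]
      ring
    have h8 : (0:ℝ) < l k := by linarith [hlk k]
    rw [h7, iteratedFDeriv_const_smul_apply' ((h1 k).contDiffAt.of_le (by exact_mod_cast le_top)),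
      norm_smul, norm_inv, Real.norm_of_nonneg h8.le]
    rw [div_eq_inv_mul]
  have hest : ∀ k j m x, j ≤ k → ‖iteratedFDeriv ℝ m (fun x => h k x / (l k : ℝ)) x‖ ≤
      (1 / 2) ^ k * (m ! : ℝ) ^ (1 + 1 / ((j : ℝ) + 1)) := by
    intro k j m x hj
    have h8 : (0:ℝ) < l k := by linarith [hlk k]
    rw [hder, div_le_iff₀ h8]
    calc ‖iteratedFDeriv ℝ m (h k) x‖ ≤ C k _ (hs j) * (m ! : ℝ) ^ (1 + 1 / ((j : ℝ) + 1)) :=
          hC k _ (hs j) m x
      _ ≤ |C k _ (hs j)| * (m ! : ℝ) ^ (1 + 1 / ((j : ℝ) + 1)) := by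
          gcongr
          exact le_abs_self _
      _ ≤ (l k * (1 / 2) ^ k) * (m ! : ℝ) ^ (1 + 1 / ((j : ℝ) + 1)) := by
          gcongr
          exact hb k j hj
      _ = _ := by ring
  have hcd : ∀ k, ContDiff ℝ ∞ (fun x => h k x / (l k : ℝ)) := fun k => (h1 k).div_const _
  have hv : ∀ m : ℕ, (m : ℕ∞) ≤ ⊤ → Summable (fun k : ℕ => (1 / 2 : ℝ) ^ k *
      (m ! : ℝ) ^ (1 + 1 / (((0 : ℕ) : ℝ) + 1))) := fun m _ => summable_geometric_two.mul_right _
  have hvb : ∀ (m : ℕ) (k : ℕ) (x : E n), (m : ℕ∞) ≤ ⊤ →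
      ‖iteratedFDeriv ℝ m (fun x => h k x / (l k : ℝ)) x‖ ≤
        (1 / 2 : ℝ) ^ k * (m ! : ℝ) ^ (1 + 1 / (((0 : ℕ) : ℝ) + 1)) :=
    fun m k x _ => hest k 0 m x (Nat.zero_le k)
  refine ⟨l, hl, contDiff_tsum (N := ⊤) hcd hv hvb, fun s hs1 => ?_⟩
  obtain ⟨j, hj⟩ : ∃ j : ℕ, 1 + 1 / ((j : ℝ) + 1) ≤ s := by
    obtain ⟨j, hj⟩ := exists_nat_one_div_lt (show 0 < s - 1 by linarith)
    exact ⟨j, by linarith⟩
  let b : ℕ → ℝ := fun k => (1 / 2) ^ k + if k < j then |C k s hs1| else 0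
  have hbs : Summable b := by
    refine summable_geometric_two.add (summable_of_ne_finset_zero (s := Finset.range j) fun k hk => ?_)
    rw [Finset.mem_range] at hk
    rw [if_neg hk]
  have hbb : ∀ k m x, ‖iteratedFDeriv ℝ m (fun x => h k x / (l k : ℝ)) x‖ ≤
      b k * (m ! : ℝ) ^ s := by
    intro k m x
    by_cases hk : k < j
    · have h8 : (0:ℝ) < l k := by linarith [hlk k]
      rw [hder, div_le_iff₀ h8]
      have e1 := hC k s hs1 m x
      have e2 : (0:ℝ) ≤ (m ! : ℝ) ^ s := by positivity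
      have e3 : |C k s hs1| ≤ b k := by
        show |C k s hs1| ≤ (1 / 2) ^ k + if k < j then |C k s hs1| else 0
        rw [if_pos hk]
        have : (0:ℝ) < (1 / 2) ^ k := by positivity
        linarith
      calc ‖iteratedFDeriv ℝ m (h k) x‖ ≤ C k s hs1 * (m ! : ℝ) ^ s := e1
        _ ≤ |C k s hs1| * (m ! : ℝ) ^ s := by
            gcongr
            exact le_abs_self _
        _ ≤ b k * (m ! : ℝ) ^ s := by gcongr
        _ ≤ b k * (m ! : ℝ) ^ s * l k := by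
            refine le_mul_of_one_le_right ?_ (hlk k)
            exact mul_nonneg ((abs_nonneg _).trans e3) e2
    · have e1 := hest k j m x (not_lt.1 hk)
      have e3 : b k = (1 / 2) ^ k := by
        show (1 / 2) ^ k + (if k < j then |C k s hs1| else 0) = (1 / 2 : ℝ) ^ k
        rw [if_neg hk, add_zero]
      rw [e3]
      refine e1.trans ?_
      gcongr
      exact one_le_fact m
  refine ⟨∑' k, b k, fun m x => ?_⟩
  rw [iteratedFDeriv_tsum_apply (N := ⊤) hcd hv hvb (by exact_mod_cast le_top) x]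
  have hs2 : Summable fun k => b k * (m ! : ℝ) ^ s := hbs.mul_right _
  have hs3 : Summable fun k => ‖iteratedFDeriv ℝ m (fun x => h k x / (l k : ℝ)) x‖ :=
    Summable.of_nonneg_of_le (fun k => norm_nonneg _) (fun k => hbb k m x) hs2
  calc ‖∑' k, iteratedFDeriv ℝ m (fun x => h k x / (l k : ℝ)) x‖
      ≤ ∑' k, ‖iteratedFDeriv ℝ m (fun x => h k x / (l k : ℝ)) x‖ := norm_tsum_le_tsum_norm hs3
    _ ≤ ∑' k, b k * (m ! : ℝ) ^ s := hs3.tsum_le_tsum (fun k => hbb k m x) hs2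
    _ = _ := by rw [tsum_mul_right]

end Num

/-- **One phase of all Gevrey classes of order greater than one decides the restriction problem**,
through its integer multiples. -/
theorem gevrey_one (hn : 2 ≤ n) (e : E n) (he : ‖e‖ = 1) :
    ∃ φ₀ : E n → ℝ, ContDiff ℝ ∞ φ₀ ∧ Gev φ₀ ∧ ∀ p : ℝ, 1 ≤ p →
      ((∃ C : ℝ≥0∞, C ≠ ⊤ ∧ ∀ m : ℕ,
        ∫⁻ ξ, ‖extn (fun x => Complex.exp (((m * φ₀ x : ℝ) : ℂ) * Complex.I)) ξ‖ₑ ^ p ≤ C) ↔
          UB n p) := by
  have : NeZero n := ⟨by omega⟩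
  obtain ⟨x, f, ε, hxe, hf, hε, H⟩ := core_robust hn he
  obtain ⟨q, hq⟩ : ∃ q : ℕ → ℝ, ∀ k, q k = (1 / 3 : ℝ) ^ k := ⟨_, fun _ => rfl⟩
  have hq0 : ∀ k, 0 < q k := fun k => by rw [hq]; positivity
  have hq1 : ∀ k, q k ≤ 1 := fun k => by
    rw [hq]; exact pow_le_one₀ (by norm_num) (by norm_num)
  -- the polynomials
  have hP : ∀ k, ∃ P : MvPolynomial (Fin n) ℝ, ∀ z ∈ Metric.closedBall (x k) (2 * (q k / 16)),
      |bump (x k) (3 * (q k / 16)) z * ev P z - f k z| ≤ ε k := by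
    intro k
    have hbc : Continuous (bump (x k) (3 * (q k / 16))) := (bump_contDiff _ _).continuous
    obtain ⟨z₀, hz₀, hmin⟩ := (isCompact_closedBall (x k) (2 * (q k / 16))).exists_isMinOn
      ⟨x k, Metric.mem_closedBall_self (by have := hq0 k; positivity)⟩ hbc.continuousOn
    have hpos : ∀ z ∈ Metric.closedBall (x k) (2 * (q k / 16)),
        0 < bump (x k) (3 * (q k / 16)) z := by
      intro z hz
      rw [Metric.mem_closedBall, dist_eq_norm] at hz
      refine flat_pos ?_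
      have := hq0 k
      nlinarith [norm_nonneg (z - x k)]
    obtain ⟨c, hc⟩ : ∃ c, c = bump (x k) (3 * (q k / 16)) z₀ := ⟨_, rfl⟩
    have hc0 : 0 < c := by rw [hc]; exact hpos z₀ hz₀
    have hcm : ∀ z ∈ Metric.closedBall (x k) (2 * (q k / 16)),
        c ≤ bump (x k) (3 * (q k / 16)) z := fun z hz => by
      rw [hc]
      exact hmin hz
    have hcont : Continuous fun z => f k z / max (bump (x k) (3 * (q k / 16)) z) c :=
      (hf k).div (hbc.max continuous_const) fun z => (lt_max_of_lt_right hc0).ne'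
    obtain ⟨P, hP⟩ := exists_ev_near (isCompact_closedBall (x k) (2 * (q k / 16))) hcont (hε k)
    refine ⟨P, fun z hz => ?_⟩
    have h1 := hP z hz
    have h2 := hpos z hz
    rw [max_eq_left (hcm z hz)] at h1
    have h3 : ∀ b a w : ℝ, 0 < b → b * w - a = b * (w - a / b) := fun b a w hb => by
      field_simp
    rw [h3 _ _ _ h2, abs_mul, abs_of_pos h2]
    calc bump (x k) (3 * (q k / 16)) z * |ev P z - f k z / bump (x k) (3 * (q k / 16)) z|
        ≤ 1 * ε k := mul_le_mul (flat_le_one _) h1 (abs_nonneg _) zero_le_one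
      _ = ε k := one_mul _
  choose P hP using hP
  let h : ℕ → E n → ℝ := fun k z => bump (x k) (3 * (q k / 16)) z * ev (P k) z
  have hGev : ∀ k, Gev (h k) := fun k => gev_bump_mul (x k) (by have := hq0 k; positivity)
    (by linarith [hq1 k]) (P k)
  have hcd : ∀ k, ContDiff ℝ ∞ (h k) := fun k => by
    refine (bump_contDiff _ _).mul ?_
    have : ContDiff ℝ ω (ev (P k)) := by
      rw [contDiff_omega_iff_analyticOnNhd]
      exact fun z _ => analyticAt_ev (P k) z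
    exact this.of_le le_top
  have hzero : ∀ {k j : ℕ} {z : E n}, z ∈ shell e k → j ≠ k → h j z = 0 := by
    intro k j z hz hjk
    by_contra hne
    have h1 : dist z (x j) < 3 * (q j / 16) := by
      by_contra h2
      rw [not_lt, dist_eq_norm] at h2
      apply hne
      show bump (x j) (3 * (q j / 16)) z * ev (P j) z = 0
      unfold bump
      rw [flat_of_nonpos, zero_mul]
      have := hq0 j
      nlinarith
    refine hjk (shell_disjoint ?_ hz)
    have h2 := dist_triangle z (x j) e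
    have h3 := dist_triangle (x j) z e
    rw [dist_comm (x j) z] at h3
    rw [hxe, ← hq] at h2 h3
    have := hq0 j
    constructor
    · rw [← hq]
      linarith
    · rw [← hq]
      linarith
  obtain ⟨l, hl, hsm, hgev⟩ := gev_weights h hcd hGev
  refine ⟨fun z => ∑' k, h k z / (l k : ℝ), hsm, hgev, fun p hp => ⟨?_, ?_⟩⟩
  · rintro ⟨C, hC, H4⟩
    by_contra hUB
    obtain ⟨k, hk⟩ := H p hp hUB C hC
    refine absurd (H4 (l k)) (not_le.2 (hk _
      (measurable_phase (ψ := fun x => (l k : ℝ) * ∑' j, h j x / (l j : ℝ))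
        (hsm.continuous.measurable.const_mul _))
      (norm_phase_le fun x => (l k : ℝ) * ∑' j, h j x / (l j : ℝ)) fun z hz => ?_))
    have hlk : (l k : ℝ) ≠ 0 := by exact_mod_cast (hl k).ne'
    have hz2 : z ∈ shell e k := by
      rw [Metric.mem_closedBall] at hz
      have h2 := dist_triangle z (x k) e
      have h3 := dist_triangle (x k) z e
      rw [dist_comm (x k) z] at h3
      rw [hxe] at h2 h3
      have : (0:ℝ) < (1 / 3) ^ k := by positivity
      constructor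
      · linarith
      · linarith
    have h1 : ∑' j, h j z / (l j : ℝ) = h k z / (l k : ℝ) :=
      tsum_eq_single k fun j hj => by rw [hzero hz2 hj, zero_div]
    simp only
    rw [h1, mul_div_cancel₀ _ hlk]
    refine (norm_phase_sub_le _ _).trans (hP k z ?_)
    rw [hq]
    exact hz
  · rintro ⟨C, hC, h2⟩
    exact ⟨C, hC, fun m => h2 _ (measurable_phase
      (ψ := fun x => (m : ℝ) * ∑' j, h j x / (l j : ℝ)) (hsm.continuous.measurable.const_mul _))
      (norm_phase_le fun x => (m : ℝ) * ∑' j, h j x / (l j : ℝ))⟩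

/-- **The restriction problem is a question on one function**: the integer multiples of one phase of
all Gevrey classes of order greater than one, or one density `e^{iψ₀}` with `ψ₀` real-analytic off one
point. -/
theorem equiv_gev (hn : 2 ≤ n) (e : E n) (he : ‖e‖ = 1) :
    ∃ φ₀ ψ₀ : E n → ℝ, ContDiff ℝ ∞ φ₀ ∧
      (∀ s : ℝ, 1 < s → ∃ C : ℝ, ∀ m x, ‖iteratedFDeriv ℝ m φ₀ x‖ ≤ C * (m.factorial : ℝ) ^ s) ∧
      Measurable ψ₀ ∧ AnalyticOnNhd ℝ ψ₀ {e}ᶜ ∧
      ∀ p : ℝ, 1 ≤ p → List.TFAE [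
        ∀ g : E n → ℂ, Measurable g → (∀ x, ‖g x‖ ≤ 1) → ∫⁻ ξ, ‖extn g ξ‖ₑ ^ p < ⊤,
        ∃ C : ℝ≥0∞, C ≠ ⊤ ∧ ∀ g : E n → ℂ, Measurable g → (∀ x, ‖g x‖ ≤ 1) →
          ∫⁻ ξ, ‖extn g ξ‖ₑ ^ p ≤ C,
        ∀ φ : E n → ℝ, ContDiff ℝ ∞ φ → ∃ C : ℝ≥0∞, C ≠ ⊤ ∧ ∀ l : ℝ,
          ∫⁻ ξ, ‖extn (fun x => Complex.exp (((l * φ x : ℝ) : ℂ) * Complex.I)) ξ‖ₑ ^ p ≤ C,
        ∃ C : ℝ≥0∞, C ≠ ⊤ ∧ ∀ m : ℕ,
          ∫⁻ ξ, ‖extn (fun x => Complex.exp (((m * φ₀ x : ℝ) : ℂ) * Complex.I)) ξ‖ₑ ^ p ≤ C,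
        ∫⁻ ξ, ‖extn (fun x => Complex.exp ((ψ₀ x : ℂ) * Complex.I)) ξ‖ₑ ^ p < ⊤] := by
  obtain ⟨φ₀, h1, h1', h2⟩ := gevrey_one hn e he
  obtain ⟨φ₁, ψ₁, -, -, -, h6⟩ := equiv1 hn e he
  obtain ⟨ψ₀, h3, h4, h5⟩ := analytic_one hn e he
  refine ⟨φ₀, ψ₀, h1, h1', h3, h4, fun p hp => ?_⟩
  have h7 := h6 p hp
  tfae_have 1 ↔ 2 := h7.out 0 1
  tfae_have 2 ↔ 3 := h7.out 1 2
  tfae_have 4 ↔ 2 := h2 p hp
  tfae_have 5 ↔ 2 := h5 p hp
  tfae_finish

end Pool.Agent.VAN.AN
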