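import Pool.Agent.VAN.AN6

/-!
# The restriction problem is a question on one open set

The indicator densities `1_{ψ₀ > 0}`: for every `n ≥ 2` there is one `ψ₀`, real-analytic off one
point, such that for every `p ≥ 1` the uniform estimate with exponent `p` holds if and only if the
transform of `1_{ψ₀ > 0}` is in `L^p`, and if and only if the transform of `e^{iψ₀}` is in `L^p`.
-/

set_option autoImplicit false

namespace Pool.Agent.VAN.AN

open MeasureTheory Set Filter Topology Pool.Agent.MP_6cbfb8_an Pool.Agent.VAN.J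
open scoped ENNReal Real ContDiff

variable {n : ℕ}

/-- The indicator function of `{u > 0}`. -/
noncomputable def ind (u : E n → ℝ) : E n → ℂ := Set.indicator {x | 0 < u x} fun _ => (1 : ℂ)

lemma ind_pos {u : E n → ℝ} {x : E n} (h : 0 < u x) : ind u x = 1 :=
  Set.indicator_of_mem (s := {x | 0 < u x}) h _

lemma ind_nonpos {u : E n → ℝ} {x : E n} (h : u x ≤ 0) : ind u x = 0 :=
  Set.indicator_of_notMem (s := {x | 0 < u x}) (not_lt.2 h) _

lemma norm_ind_le (u : E n → ℝ) (x : E n) : ‖ind u x‖ ≤ 1 := by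
  rcases lt_or_ge 0 (u x) with h | h
  · rw [ind_pos h, norm_one]
  · rw [ind_nonpos h, norm_zero]
    exact zero_le_one

lemma measurable_ind {u : E n → ℝ} (hu : Measurable u) : Measurable (ind u) :=
  measurable_const.indicator (measurableSet_lt measurable_const hu)

/-- Fatou's lemma for the norms of the transforms. -/
theorem FF_fatou {p : ℝ} {g : ℕ → E n → ℂ} {g₀ : E n → ℂ} {B : ℝ} (hm : ∀ i, Measurable (g i))
    (hb : ∀ i x, ‖g i x‖ ≤ B)
    (hlim : ∀ᵐ x : S n ∂(sm n), Tendsto (fun i => g i (x : E n)) atTop (𝓝 (g₀ x)))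
    {C : ℝ≥0∞} (hC : ∀ i, FF p (g i) ≤ C) : FF p g₀ ≤ C := by
  have h1 : ∀ ξ, Tendsto (fun i => extn (g i) ξ) atTop (𝓝 (extn g₀ ξ)) := by
    intro ξ
    unfold extn
    refine tendsto_integral_of_dominated_convergence (fun _ => B) (fun i => ?_)
      (integrable_const _) (fun i => Eventually.of_forall fun x => ?_) ?_
    · exact (j_int (B := B) (hm i) (hb i) ξ).aestronglyMeasurable
    · rw [norm_mul, norm_phase, mul_one]
      exact hb i x
    · filter_upwards [hlim] with x hx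
      exact hx.mul_const _
  have h2 : ∀ ξ, Tendsto (fun i => ‖extn (g i) ξ‖ₑ ^ p) atTop (𝓝 (‖extn g₀ ξ‖ₑ ^ p)) := by
    intro ξ
    exact ((ENNReal.continuous_rpow_const (y := p)).tendsto _).comp (h1 ξ).enorm
  calc FF p g₀ = ∫⁻ ξ, liminf (fun i => ‖extn (g i) ξ‖ₑ ^ p) atTop := by
        unfold FF
        refine lintegral_congr fun ξ => ?_
        rw [(h2 ξ).liminf_eq]
    _ ≤ liminf (fun i => ∫⁻ ξ, ‖extn (g i) ξ‖ₑ ^ p) atTop :=
        lintegral_liminf_le fun i => measurable_norm_extn (hm i)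
    _ ≤ C := liminf_le_of_frequently_le' (Frequently.of_forall fun i => hC i)

/-- Indicator functions of measurable sets are limits of those of `{f > 0}`, `f` smooth. -/
theorem s_sets {p : ℝ} {χ : E n → ℝ} (hχ : Measurable χ) (hB : ∀ x, |χ x| ≤ 1)
    {A : Set (E n)} (hA : MeasurableSet A) {C : ℝ≥0∞}
    (H : ∀ f : E n → ℝ, ContDiff ℝ ∞ f → (∀ᵐ x : S n ∂(sm n), f x ≠ 0) →
      FF p (fun x => (χ x : ℂ) * ind f x) ≤ C) :
    FF p (fun x => (χ x : ℂ) * A.indicator (fun _ => (1 : ℂ)) x) ≤ C := by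
  classical
  obtain ⟨θ, hθ⟩ : ∃ θ : E n → ℝ, θ = A.indicator fun _ => (1 : ℝ) := ⟨_, rfl⟩
  have hθm : Measurable θ := by
    rw [hθ]
    exact measurable_const.indicator hA
  set μ : Measure (E n) := (sm n).map (fun x : S n => (x : E n)) with hμ
  have : IsFiniteMeasure μ := by
    rw [hμ]
    exact Measure.isFiniteMeasure_map _ _
  have hL : MemLp θ 1 μ := by
    refine MemLp.of_bound hθm.aestronglyMeasurable 1 (Eventually.of_forall fun x => ?_)
    rw [hθ, Real.norm_eq_abs]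
    by_cases hx : x ∈ A
    · rw [Set.indicator_of_mem hx, abs_one]
    · rw [Set.indicator_of_notMem hx, abs_zero]
      exact zero_le_one
  have happ : ∀ j : ℕ, ∃ φ : E n → ℝ, HasCompactSupport φ ∧ ContDiff ℝ ∞ φ ∧
      eLpNorm (θ - φ) 1 μ ≤ ENNReal.ofReal (1 / ((j : ℝ) + 1)) := fun j =>
    hL.exist_eLpNorm_sub_le (by norm_num) le_rfl (by positivity)
  choose φ hφ1 hφ2 hφ3 using happ
  have htm : TendstoInMeasure μ φ atTop θ := by
    refine tendstoInMeasure_of_tendsto_eLpNorm (p := 1) one_ne_zero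
      (fun j => (hφ2 j).continuous.aestronglyMeasurable) hθm.aestronglyMeasurable ?_
    have h2 : Tendsto (fun j : ℕ => ENNReal.ofReal (1 / ((j : ℝ) + 1))) atTop (𝓝 0) := by
      rw [← ENNReal.ofReal_zero]
      exact ENNReal.tendsto_ofReal tendsto_one_div_add_atTop_nhds_zero_nat
    refine tendsto_of_tendsto_of_tendsto_of_le_of_le tendsto_const_nhds h2
      (fun j => zero_le) fun j => ?_
    rw [eLpNorm_sub_comm]
    exact hφ3 j
  obtain ⟨ns, -, hns⟩ := htm.exists_seq_tendsto_ae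
  have hae : ∀ᵐ x : S n ∂(sm n), Tendsto (fun i => φ (ns i) x) atTop (𝓝 (θ x)) :=
    ae_of_ae_map measurable_subtype_coe.aemeasurable hns
  -- good levels
  have hlev : ∀ i : ℕ, ∃ t : ℝ, 1 / 4 < t ∧ t < 3 / 4 ∧ ∀ᵐ x : S n ∂(sm n), φ (ns i) x - t ≠ 0 := by
    intro i
    have h1 : Set.Countable {t : ℝ | 0 < sm n {x : S n | φ (ns i) x = t}} :=
      Measure.countable_meas_level_set_pos (μ := sm n) (g := fun x : S n => φ (ns i) x)
        ((hφ2 (ns i)).continuous.measurable.comp measurable_subtype_coe)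
    have h2 : Dense {t : ℝ | 0 < sm n {x : S n | φ (ns i) x = t}}ᶜ := h1.dense_compl ℝ
    obtain ⟨t, ht1, ht2⟩ := h2.exists_between (show (1 / 4 : ℝ) < 3 / 4 by norm_num)
    refine ⟨t, ht2.1, ht2.2, ?_⟩
    have h3 : sm n {x : S n | φ (ns i) x = t} = 0 := by
      by_contra hne
      exact ht1 (pos_iff_ne_zero.2 hne)
    rw [ae_iff]
    refine measure_mono_null (fun x hx => ?_) h3
    have hx' : ¬ (φ (ns i) x - t ≠ 0) := hx
    rw [not_not, sub_eq_zero] at hx'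
    exact hx'
  choose t ht1 ht2 ht3 using hlev
  refine FF_fatou (g := fun i x => (χ x : ℂ) * ind (fun z => φ (ns i) z - t i) x) (B := 1)
    (fun i => ?_) (fun i x => ?_) ?_ fun i => H _ ((hφ2 (ns i)).sub contDiff_const) (ht3 i)
  · exact (Complex.measurable_ofReal.comp hχ).mul
      (measurable_ind ((hφ2 (ns i)).continuous.measurable.sub_const _))
  · rw [norm_mul, Complex.norm_real, Real.norm_eq_abs]
    calc |χ x| * ‖ind (fun z => φ (ns i) z - t i) x‖ ≤ 1 * 1 :=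
          mul_le_mul (hB x) (norm_ind_le _ _) (norm_nonneg _) zero_le_one
      _ = 1 := one_mul 1
  · filter_upwards [hae] with x hx
    refine Tendsto.const_mul _ ?_
    by_cases hxA : (x : E n) ∈ A
    · rw [Set.indicator_of_mem hxA]
      have h4 : θ x = 1 := by rw [hθ, Set.indicator_of_mem hxA]
      rw [h4] at hx
      refine tendsto_const_nhds.congr' ?_
      filter_upwards [hx.eventually (lt_mem_nhds (show (3 / 4 : ℝ) < 1 by norm_num))] with i hi
      rw [ind_pos]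
      have := ht2 i
      linarith
    · rw [Set.indicator_of_notMem hxA]
      have h4 : θ x = 0 := by rw [hθ, Set.indicator_of_notMem hxA]
      rw [h4] at hx
      refine tendsto_const_nhds.congr' ?_
      filter_upwards [hx.eventually (gt_mem_nhds (show (0 : ℝ) < 1 / 4 by norm_num))] with i hi
      rw [ind_nonpos]
      have := ht1 i
      linarith

/-- A convexity estimate for averages. -/
theorem FF_average {p : ℝ} (hp : 1 ≤ p) {N : ℕ} (hN : 0 < N) {g : Fin N → E n → ℂ} {B : ℝ}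
    (hm : ∀ i, Measurable (g i)) (hb : ∀ i x, ‖g i x‖ ≤ B) {C : ℝ≥0∞} (hC : ∀ i, FF p (g i) ≤ C) :
    FF p (fun x => (N : ℂ)⁻¹ * ∑ i, g i x) ≤ C := by
  have h1 : ∀ ξ, extn (fun x => (N : ℂ)⁻¹ * ∑ i, g i x) ξ = (N : ℂ)⁻¹ * ∑ i, extn (g i) ξ := by
    intro ξ
    rw [j_smul]
    congr 1
    unfold extn
    simp only [Finset.sum_mul]
    exact integral_finsetSum _ fun i _ => j_int (hm i) (hb i) ξ
  have hN0 : (N : ℝ≥0∞) ≠ 0 := by exact_mod_cast hN.ne'
  have hNt : (N : ℝ≥0∞) ≠ ⊤ := ENNReal.natCast_ne_top N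
  have hw : ∑ _i : Fin N, (N : ℝ≥0∞)⁻¹ = 1 := by
    rw [Finset.sum_const, Finset.card_univ, Fintype.card_fin, nsmul_eq_mul,
      ENNReal.mul_inv_cancel hN0 hNt]
  unfold FF
  calc ∫⁻ ξ, ‖extn (fun x => (N : ℂ)⁻¹ * ∑ i, g i x) ξ‖ₑ ^ p
      ≤ ∫⁻ ξ, ∑ i, (N : ℝ≥0∞)⁻¹ * ‖extn (g i) ξ‖ₑ ^ p := by
        refine lintegral_mono fun ξ => ?_
        simp only
        rw [h1]
        have h2 : ‖(N : ℂ)⁻¹ * ∑ i, extn (g i) ξ‖ₑ ≤ ∑ i, (N : ℝ≥0∞)⁻¹ * ‖extn (g i) ξ‖ₑ := by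
          rw [enorm_mul, ← Finset.mul_sum]
          have h3 : ‖(N : ℂ)⁻¹‖ₑ = (N : ℝ≥0∞)⁻¹ := by
            rw [enorm_inv (by exact_mod_cast hN.ne')]
            congr 1
            rw [← ofReal_norm, Complex.norm_natCast, ENNReal.ofReal_natCast]
          rw [h3]
          gcongr
          exact enorm_sum_le _ _
        refine (ENNReal.rpow_le_rpow h2 (by linarith)).trans ?_
        exact ENNReal.rpow_arith_mean_le_arith_mean_rpow _ _ _ hw hp
    _ = ∑ i, (N : ℝ≥0∞)⁻¹ * ∫⁻ ξ, ‖extn (g i) ξ‖ₑ ^ p := by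
        rw [lintegral_finsetSum _ fun i _ => (measurable_norm_extn (hm i)).const_mul _]
        refine Finset.sum_congr rfl fun i _ => ?_
        rw [lintegral_const_mul _ (measurable_norm_extn (hm i))]
    _ ≤ ∑ _i : Fin N, (N : ℝ≥0∞)⁻¹ * C := by
        refine Finset.sum_le_sum fun i _ => ?_
        gcongr
        exact hC i
    _ = C := by rw [← Finset.sum_mul, hw, one_mul]

/-- Densities with values in `[0, 1]` are averages of indicator functions. -/
theorem s_unit {p : ℝ} (hp : 1 ≤ p) {χ : E n → ℝ} (hχ : Measurable χ) (hB : ∀ x, |χ x| ≤ 1)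
    {C : ℝ≥0∞} (H : ∀ A : Set (E n), MeasurableSet A →
      FF p (fun x => (χ x : ℂ) * A.indicator (fun _ => (1 : ℂ)) x) ≤ C)
    {g : E n → ℝ} (hg : Measurable g) (h0 : ∀ x, 0 ≤ g x) (h1 : ∀ x, g x ≤ 1) :
    FF p (fun x => (χ x : ℂ) * (g x : ℂ)) ≤ C := by
  classical
  have hA : ∀ (N : ℕ) (i : Fin N), MeasurableSet {x : E n | ((i : ℕ) : ℝ) + 1 ≤ N * g x} :=
    fun N i => measurableSet_le measurable_const (hg.const_mul _)
  have hcount : ∀ (N : ℕ) (x : E n),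
      (∑ i : Fin N, ({x : E n | ((i : ℕ) : ℝ) + 1 ≤ N * g x}.indicator (fun _ => (1 : ℂ)) x)) =
        ((⌊(N : ℝ) * g x⌋₊ : ℕ) : ℂ) := by
    intro N x
    have h2 : ∀ i : Fin N, ({x : E n | ((i : ℕ) : ℝ) + 1 ≤ N * g x}.indicator
        (fun _ => (1 : ℂ)) x) = if (i : ℕ) < ⌊(N : ℝ) * g x⌋₊ then 1 else 0 := by
      intro i
      have h3 : (x ∈ {x : E n | ((i : ℕ) : ℝ) + 1 ≤ N * g x}) ↔ (i : ℕ) < ⌊(N : ℝ) * g x⌋₊ := by
        have h4 : (i : ℕ) < ⌊(N : ℝ) * g x⌋₊ ↔ (((i : ℕ) + 1 : ℕ) : ℝ) ≤ (N : ℝ) * g x := by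
          rw [← Nat.le_floor_iff (mul_nonneg (Nat.cast_nonneg N) (h0 x))]
          exact Nat.lt_iff_add_one_le
        rw [h4]
        push_cast
        exact Iff.rfl
      by_cases h4 : (i : ℕ) < ⌊(N : ℝ) * g x⌋₊
      · rw [if_pos h4, Set.indicator_of_mem (h3.2 h4)]
      · rw [if_neg h4, Set.indicator_of_notMem fun h5 => h4 (h3.1 h5)]
    rw [Finset.sum_congr rfl fun i _ => h2 i]
    have hle : ⌊(N : ℝ) * g x⌋₊ ≤ N := by
      refine Nat.floor_le_of_le ?_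
      exact mul_le_of_le_one_right (Nat.cast_nonneg N) (h1 x)
    rw [Fin.sum_univ_eq_sum_range (fun i : ℕ => if i < ⌊(N : ℝ) * g x⌋₊ then (1 : ℂ) else 0) N,
      Finset.sum_ite, Finset.sum_const_zero, add_zero, Finset.sum_const, nsmul_eq_mul, mul_one]
    congr 1
    have h5 : Finset.filter (fun i => i < ⌊(N : ℝ) * g x⌋₊) (Finset.range N) =
        Finset.range ⌊(N : ℝ) * g x⌋₊ := by
      ext i
      rw [Finset.mem_filter, Finset.mem_range, Finset.mem_range]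
      omega
    rw [h5, Finset.card_range]
  refine FF_fatou (g := fun N x => ((N + 1 : ℕ) : ℂ)⁻¹ * ∑ i : Fin (N + 1), (χ x : ℂ) *
      ({x : E n | ((i : ℕ) : ℝ) + 1 ≤ ((N + 1 : ℕ) : ℝ) * g x}.indicator (fun _ => (1 : ℂ)) x))
    (B := 1) (fun N => ?_) (fun N x => ?_) (Eventually.of_forall fun x => ?_) fun N => ?_
  · refine Measurable.const_mul (Finset.measurable_sum _ fun i _ => ?_) _
    exact (Complex.measurable_ofReal.comp hχ).mul (measurable_const.indicator (hA _ i))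
  · rw [← Finset.mul_sum, hcount (N + 1) x]
    have h2 : ((⌊((N + 1 : ℕ) : ℝ) * g x⌋₊ : ℕ) : ℝ) ≤ ((N + 1 : ℕ) : ℝ) :=
      (Nat.floor_le (mul_nonneg (Nat.cast_nonneg _) (h0 x))).trans
        (mul_le_of_le_one_right (Nat.cast_nonneg _) (h1 x))
    rw [norm_mul, norm_mul, norm_inv, Complex.norm_natCast, Complex.norm_natCast,
      Complex.norm_real, Real.norm_eq_abs]
    have h3 : (0:ℝ) < ((N + 1 : ℕ) : ℝ) := by positivity
    calc (((N + 1 : ℕ) : ℝ))⁻¹ * (|χ x| * ((⌊((N + 1 : ℕ) : ℝ) * g x⌋₊ : ℕ) : ℝ))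
        ≤ (((N + 1 : ℕ) : ℝ))⁻¹ * (1 * ((N + 1 : ℕ) : ℝ)) := by
          have := hB x
          gcongr
      _ = 1 := by field_simp
  · have h2 : Tendsto (fun N : ℕ => (((⌊((N + 1 : ℕ) : ℝ) * g x⌋₊ : ℕ) : ℝ)) / ((N + 1 : ℕ) : ℝ))
        atTop (𝓝 (g x)) := by
      have h3 := (tendsto_nat_floor_mul_div_atTop (h0 (x : E n))).comp
        (tendsto_natCast_atTop_atTop (R := ℝ))
      have h4 := h3.comp (tendsto_add_atTop_nat 1)
      refine h4.congr fun N => ?_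
      simp only [Function.comp]
      rw [mul_comm]
    have h5 : Tendsto (fun N : ℕ => (χ x : ℂ) *
        ((((⌊((N + 1 : ℕ) : ℝ) * g x⌋₊ : ℕ) : ℝ) / ((N + 1 : ℕ) : ℝ) : ℝ) : ℂ)) atTop
        (𝓝 ((χ x : ℂ) * (g x : ℂ))) :=
      ((Complex.continuous_ofReal.tendsto _).comp h2).const_mul _
    refine h5.congr fun N => ?_
    rw [← Finset.mul_sum, hcount (N + 1) x]
    push_cast
    ring
  · refine FF_average hp (Nat.succ_pos N) (B := 1) (fun i => ?_) (fun i x => ?_) fun i => ?_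
    · exact (Complex.measurable_ofReal.comp hχ).mul (measurable_const.indicator (hA _ i))
    · rw [norm_mul, Complex.norm_real, Real.norm_eq_abs]
      have h2 : ‖({x : E n | ((i : ℕ) : ℝ) + 1 ≤ ((N + 1 : ℕ) : ℝ) * g x}.indicator
          (fun _ => (1 : ℂ)) x)‖ ≤ 1 := by
        refine (norm_indicator_le_norm_self _ _).trans ?_
        rw [norm_one]
      calc _ ≤ (1:ℝ) * 1 := mul_le_mul (hB x) h2 (norm_nonneg _) zero_le_one
        _ = 1 := one_mul 1
    · exact H _ (hA _ i)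

/-- Complex densities. -/
theorem s_complex {p : ℝ} (hp : 1 ≤ p) {χ : E n → ℝ} (hχ : Measurable χ) (hB : ∀ x, |χ x| ≤ 1)
    {C : ℝ≥0∞} (H : ∀ g : E n → ℝ, Measurable g → (∀ x, 0 ≤ g x) → (∀ x, g x ≤ 1) →
      FF p (fun x => (χ x : ℂ) * (g x : ℂ)) ≤ C)
    {g : E n → ℂ} (hg : Measurable g) (hb : ∀ x, ‖g x‖ ≤ 1) :
    FF p (fun x => (χ x : ℂ) * g x) ≤ 4 ^ p * C := by
  have hre : Measurable fun x => (g x).re := Complex.measurable_re.comp hg
  have him : Measurable fun x => (g x).im := Complex.measurable_im.comp hg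
  have hχc : Measurable fun x => (χ x : ℂ) := Complex.measurable_ofReal.comp hχ
  have key : ∀ (u : E n → ℝ) (c : ℂ), Measurable u → (∀ x, |u x| ≤ 1) → ‖c‖ = 1 →
      FF p (fun x => c * ((χ x : ℂ) * (u x : ℂ))) ≤ 2 ^ p * C ∧
      (Measurable fun x => c * ((χ x : ℂ) * (u x : ℂ))) ∧
      ∀ x, ‖c * ((χ x : ℂ) * (u x : ℂ))‖ ≤ 1 := by
    intro u c hu hub hc
    refine ⟨?_, (hχc.mul (Complex.measurable_ofReal.comp hu)).const_mul c, fun x => ?_⟩
    · refine (j_FF_smul (by linarith) _ hc.le).trans ?_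
      have e1 : (fun x => (χ x : ℂ) * (u x : ℂ)) = fun x =>
          (χ x : ℂ) * ((max (u x) 0 : ℝ) : ℂ) + (-1) * ((χ x : ℂ) * ((max (-u x) 0 : ℝ) : ℂ)) := by
        funext x
        have h1 : (u x : ℂ) = ((max (u x) 0 : ℝ) : ℂ) - ((max (-u x) 0 : ℝ) : ℂ) := by
          rw [← Complex.ofReal_sub]
          congr 1
          rcases le_total (u x) 0 with h | h
          · rw [max_eq_right h, max_eq_left (by linarith)]
            ring
          · rw [max_eq_left h, max_eq_right (by linarith)]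
            ring
        rw [h1]
        ring
      rw [e1]
      have hm1 : Measurable fun x => max (u x) 0 := hu.max measurable_const
      have hm2 : Measurable fun x => max (-u x) 0 := hu.neg.max measurable_const
      have hb1 : ∀ x, 0 ≤ max (u x) 0 := fun x => le_max_right _ _
      have hb2 : ∀ x, 0 ≤ max (-u x) 0 := fun x => le_max_right _ _
      have hb3 : ∀ x, max (u x) 0 ≤ 1 := fun x =>
        max_le ((le_abs_self _).trans (hub x)) zero_le_one
      have hb4 : ∀ x, max (-u x) 0 ≤ 1 := fun x =>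
        max_le ((neg_le_abs _).trans (hub x)) zero_le_one
      have hn1 : ∀ (v : E n → ℝ), (∀ x, 0 ≤ v x) → (∀ x, v x ≤ 1) →
          ∀ x, ‖(χ x : ℂ) * (v x : ℂ)‖ ≤ 1 := by
        intro v h0 h1 x
        rw [norm_mul, Complex.norm_real, Complex.norm_real, Real.norm_eq_abs, Real.norm_eq_abs,
          abs_of_nonneg (h0 x)]
        calc |χ x| * v x ≤ 1 * 1 := mul_le_mul (hB x) (h1 x) (h0 x) zero_le_one
          _ = 1 := one_mul 1
      refine (j_FF_add hp (hχc.mul (Complex.measurable_ofReal.comp hm1))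
        ((hχc.mul (Complex.measurable_ofReal.comp hm2)).const_mul _) (B := 1) (B' := 1)
        (hn1 _ hb1 hb3) (fun x => ?_)).trans ?_
      · rw [norm_mul, norm_neg, norm_one, one_mul]
        exact hn1 _ hb2 hb4 x
      · have k1 := H _ hm1 hb1 hb3
        have k2 := (j_FF_smul (p := p) (by linarith)
          (fun x => (χ x : ℂ) * ((max (-u x) 0 : ℝ) : ℂ)) (c := -1) (by simp)).trans
          (H _ hm2 hb2 hb4)
        calc 2 ^ (p - 1) * (FF p (fun x => (χ x : ℂ) * ((max (u x) 0 : ℝ) : ℂ)) +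
              FF p (fun x => (-1) * ((χ x : ℂ) * ((max (-u x) 0 : ℝ) : ℂ))))
            ≤ 2 ^ (p - 1) * (C + C) := by gcongr
          _ = 2 ^ p * C := by
              rw [← two_mul, ← mul_assoc]
              congr 1
              nth_rewrite 2 [← ENNReal.rpow_one 2]
              rw [← ENNReal.rpow_add _ _ (by norm_num) (by norm_num)]
              ring_nf
    · rw [norm_mul, hc, one_mul, norm_mul, Complex.norm_real, Complex.norm_real,
        Real.norm_eq_abs, Real.norm_eq_abs]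
      calc |χ x| * |u x| ≤ 1 * 1 := mul_le_mul (hB x) (hub x) (abs_nonneg _) zero_le_one
        _ = 1 := one_mul 1
  obtain ⟨a1, a2, a3⟩ := key (fun x => (g x).re) 1 hre
    (fun x => (Complex.abs_re_le_norm _).trans (hb x)) norm_one
  obtain ⟨b1, b2, b3⟩ := key (fun x => (g x).im) Complex.I him
    (fun x => (Complex.abs_im_le_norm _).trans (hb x)) Complex.norm_I
  have e2 : (fun x => (χ x : ℂ) * g x) = fun x => 1 * ((χ x : ℂ) * ((g x).re : ℂ)) +
      Complex.I * ((χ x : ℂ) * ((g x).im : ℂ)) := by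
    funext x
    nth_rewrite 1 [← Complex.re_add_im (g x)]
    ring
  rw [e2]
  refine (j_FF_add hp a2 b2 a3 b3).trans ?_
  calc 2 ^ (p - 1) * (FF p (fun x => 1 * ((χ x : ℂ) * ((g x).re : ℂ))) +
        FF p (fun x => Complex.I * ((χ x : ℂ) * ((g x).im : ℂ))))
      ≤ 2 ^ (p - 1) * (2 ^ p * C + 2 ^ p * C) := by gcongr
    _ = (2 ^ (p - 1) * 2 * 2 ^ p) * C := by ring
    _ = 4 ^ p * C := by
        congr 1
        have h1 : (2 : ℝ≥0∞) ^ (p - 1) * 2 = 2 ^ p := by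
          nth_rewrite 2 [← ENNReal.rpow_one 2]
          rw [← ENNReal.rpow_add _ _ (by norm_num) (by norm_num)]
          ring_nf
        rw [h1, ← ENNReal.mul_rpow_of_nonneg _ _ (by linarith)]
        norm_num

/-- Some open set is at least as bad as a given density. -/
theorem s_pick {p : ℝ} (hp : 1 ≤ p) {χ : E n → ℝ} (hχ : Measurable χ)
    (hB : ∀ x, |χ x| ≤ 1) {g : E n → ℂ} (hg : Measurable g) (hb : ∀ x, ‖g x‖ ≤ 1)
    (hχg : ∀ x, (χ x : ℂ) * g x = g x) {C : ℝ≥0∞} (hC : 4 ^ p * C < FF p g) :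
    ∃ f : E n → ℝ, ContDiff ℝ ∞ f ∧ (∀ᵐ x : S n ∂(sm n), f x ≠ 0) ∧
      C < FF p (fun x => (χ x : ℂ) * ind f x) := by
  by_contra hcon
  push Not at hcon
  refine absurd hC (not_lt.2 ?_)
  have h1 : g = fun x => (χ x : ℂ) * g x := funext fun x => (hχg x).symm
  rw [h1]
  exact s_complex hp hχ hB (fun u hu h0 hu1 => s_unit hp hχ hB
    (fun A hA => s_sets hχ hB hA hcon) hu h0 hu1) hg hb

/-- A bump. -/
lemma exists_bump (x : E n) {r : ℝ} (hr : 0 < r) : ∃ χ : E n → ℝ, HasCompactSupport χ ∧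
    ContDiff ℝ ∞ χ ∧ (∀ z, |χ z| ≤ 1) ∧ (∀ z ∈ Metric.ball x r, χ z = 1) ∧
      ∀ z, z ∉ Metric.ball x (2 * r) → χ z = 0 := by
  let f : ContDiffBump x := ⟨r, 2 * r, hr, by linarith⟩
  refine ⟨f, f.hasCompactSupport, f.contDiff, fun z => ?_, fun z hz => ?_, fun z hz => ?_⟩
  · rw [abs_of_nonneg f.nonneg]; exact f.le_one
  · exact f.one_of_mem_closedBall (Metric.ball_subset_closedBall hz)
  · refine f.zero_of_le_dist ?_
    rw [Metric.mem_ball, not_lt] at hz
    exact hz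

/-- If the estimate fails then in every ball about a point of the sphere there are arbitrarily bad
phases, stable under small perturbations. -/
theorem local_phase {p : ℝ} (hp : 1 ≤ p) (hUB : ¬ UB n p) {x : E n} (hx : x ∈ S n) {r : ℝ}
    (hr : 0 < r) {A : ℝ≥0∞} (hA : A ≠ ⊤) : ∃ (f : E n → ℝ) (ε : ℝ), Continuous f ∧ 0 < ε ∧
      ∀ u : E n → ℝ, Measurable u → (∀ z ∈ Metric.closedBall x (2 * r), |u z - f z| ≤ ε) →
        A < FF p (fun z => Complex.exp ((u z : ℂ) * Complex.I)) := by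
  obtain ⟨χ, hχ1, hχ2, hχ3, hχ4, hχ5⟩ := exists_bump x hr
  obtain ⟨M, hM1, hM2⟩ := j_mult hp hχ1 hχ2
  obtain ⟨g, hg1, hg2, hg3, hg4⟩ := j_caps hp hUB hx hr (C := 2 ^ p * (A * M))
    (ENNReal.mul_ne_top (ENNReal.rpow_ne_top_of_nonneg (by linarith) (by norm_num))
      (ENNReal.mul_ne_top hA hM1))
  obtain ⟨f, -, hf2, hf3⟩ := j_pick hp hχ2.continuous.measurable hχ3 hg1 hg2 (fun z => by
    by_cases hz : z ∈ Metric.ball x r
    · rw [hχ4 z hz, Complex.ofReal_one, one_mul]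
    · rw [hg3 z hz, mul_zero]) hg4
  obtain ⟨ε, hε0, hε⟩ := FF_lsc hf3
  refine ⟨f, ε, hf2.continuous, hε0, fun u hu hclose => ?_⟩
  by_contra hcon
  rw [not_lt] at hcon
  have h1 := hε (fun z => (χ z : ℂ) * Complex.exp ((u z : ℂ) * Complex.I))
    ((Complex.measurable_ofReal.comp hχ2.continuous.measurable).mul (measurable_phase hu))
    (fun z => by
      rw [norm_mul, Complex.norm_exp_ofReal_mul_I, mul_one, Complex.norm_real]
      exact hχ3 z) (fun z => by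
      rw [← mul_sub, norm_mul, Complex.norm_real, Real.norm_eq_abs]
      by_cases hz : z ∈ Metric.ball x (2 * r)
      · have h2 := (norm_phase_sub_le (u z) (f z)).trans
          (hclose z (Metric.ball_subset_closedBall hz))
        calc |χ z| * ‖Complex.exp ((u z : ℂ) * Complex.I) - Complex.exp ((f z : ℂ) * Complex.I)‖
            ≤ 1 * ε := mul_le_mul (hχ3 z) h2 (norm_nonneg _) zero_le_one
          _ = ε := one_mul _
      · rw [hχ5 z hz, abs_zero, zero_mul]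
        exact hε0.le)
  have h2 := hM2 _ (measurable_phase hu) (norm_phase_le u)
  have h3 : A * M < A * M := lt_of_lt_of_le h1 (h2.trans (by rw [mul_comm A M]; gcongr))
  exact lt_irrefl _ h3

/-- If the estimate fails then in every ball about a point of the sphere there are arbitrarily bad
open sets, stable under small perturbations of the function which defines them. -/
theorem local_set {p : ℝ} (hp : 1 ≤ p) (hUB : ¬ UB n p) {x : E n} (hx : x ∈ S n) {r : ℝ}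
    (hr : 0 < r) {A : ℝ≥0∞} (hA : A ≠ ⊤) : ∃ (f : E n → ℝ) (ε : ℝ), Continuous f ∧ 0 < ε ∧
      ∀ u : E n → ℝ, Measurable u → (∀ z ∈ Metric.closedBall x (2 * r), |u z - f z| ≤ ε) →
        A < FF p (ind u) := by
  obtain ⟨χ, hχ1, hχ2, hχ3, hχ4, hχ5⟩ := exists_bump x hr
  obtain ⟨M, hM1, hM2⟩ := j_mult hp hχ1 hχ2
  obtain ⟨g, hg1, hg2, hg3, hg4⟩ := j_caps hp hUB hx hr (C := 4 ^ p * (A * M))
    (ENNReal.mul_ne_top (ENNReal.rpow_ne_top_of_nonneg (by linarith) (by norm_num))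
      (ENNReal.mul_ne_top hA hM1))
  obtain ⟨f, hf1, hf2, hf3⟩ := s_pick hp hχ2.continuous.measurable hχ3 hg1 hg2 (fun z => by
    by_cases hz : z ∈ Metric.ball x r
    · rw [hχ4 z hz, Complex.ofReal_one, one_mul]
    · rw [hg3 z hz, mul_zero]) hg4
  by_contra hcon
  push Not at hcon
  have h1 : ∀ m : ℕ, ∃ u : E n → ℝ, Measurable u ∧
      (∀ z ∈ Metric.closedBall x (2 * r), |u z - f z| ≤ 1 / ((m : ℝ) + 1)) ∧
      FF p (ind u) ≤ A := fun m => hcon f _ hf1.continuous (by positivity)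
  choose u hu1 hu2 hu3 using h1
  refine absurd hf3 (not_lt.2 ?_)
  refine FF_fatou (g := fun m z => (χ z : ℂ) * ind (u m) z) (B := 1) (fun m => ?_) (fun m z => ?_)
    ?_ fun m => ?_
  · exact (Complex.measurable_ofReal.comp hχ2.continuous.measurable).mul (measurable_ind (hu1 m))
  · rw [norm_mul, Complex.norm_real, Real.norm_eq_abs]
    calc |χ z| * ‖ind (u m) z‖ ≤ 1 * 1 :=
          mul_le_mul (hχ3 z) (norm_ind_le _ _) (norm_nonneg _) zero_le_one
      _ = 1 := one_mul 1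
  · filter_upwards [hf2] with z hz
    by_cases hzb : (z : E n) ∈ Metric.ball x (2 * r)
    · refine Tendsto.const_mul _ ?_
      have h2 : Tendsto (fun m => u m z) atTop (𝓝 (f z)) := by
        rw [tendsto_iff_norm_sub_tendsto_zero]
        exact squeeze_zero (fun m => norm_nonneg _)
          (fun m => hu2 m z (Metric.ball_subset_closedBall hzb))
          tendsto_one_div_add_atTop_nhds_zero_nat
      refine tendsto_const_nhds.congr' ?_
      rcases lt_or_gt_of_ne hz with h | h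
      · filter_upwards [h2.eventually (gt_mem_nhds h)] with m hm
        rw [ind_nonpos h.le, ind_nonpos hm.le]
      · filter_upwards [h2.eventually (lt_mem_nhds h)] with m hm
        rw [ind_pos h, ind_pos hm]
    · rw [hχ5 z hzb]
      simp only [Complex.ofReal_zero, zero_mul]
      exact tendsto_const_nhds
  · refine (hM2 _ (measurable_ind (hu1 m)) (norm_ind_le _)).trans ?_
    rw [mul_comm A M]
    gcongr
    exact hu3 m

/-- **One function, real-analytic off one point, decides the restriction problem**, both as a phase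
and as the defining function of an open set. -/
theorem analytic_two (hn : 2 ≤ n) (e : E n) (he : ‖e‖ = 1) :
    ∃ ψ₀ : E n → ℝ, Measurable ψ₀ ∧ AnalyticOnNhd ℝ ψ₀ {e}ᶜ ∧ ∀ p : ℝ, 1 ≤ p →
      (∫⁻ ξ, ‖extn (fun x => Complex.exp ((ψ₀ x : ℂ) * Complex.I)) ξ‖ₑ ^ p < ⊤ ↔ UB n p) ∧
      (∫⁻ ξ, ‖extn (Set.indicator {x | 0 < ψ₀ x} fun _ => (1 : ℂ)) ξ‖ₑ ^ p < ⊤ ↔ UB n p) := by
  have : NeZero n := ⟨by omega⟩
  by_cases hF : ∃ p, 1 ≤ p ∧ ¬ UB n p
  swap
  · refine ⟨fun _ => 0, measurable_const, fun _ _ => analyticAt_const, fun p hp => ?_⟩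
    have hUB : UB n p := by
      by_contra h
      exact hF ⟨p, hp, h⟩
    obtain ⟨C, hC, h⟩ := hUB
    refine ⟨⟨fun _ => ⟨C, hC, h⟩, fun _ => ?_⟩, ⟨fun _ => ⟨C, hC, h⟩, fun _ => ?_⟩⟩
    · exact (h _ (measurable_phase measurable_const) (norm_phase_le _)).trans_lt hC.lt_top
    · exact (h _ (measurable_ind measurable_const) (norm_ind_le _)).trans_lt hC.lt_top
  obtain ⟨ex, hex, hcof⟩ := exists_cofinal (F := {p | 1 ≤ p ∧ ¬ UB n p}) hF (fun p hp => hp.1)
    (fun p hp q h1 h2 => ⟨h1, fun h => hp.2 (UB_mono h2 (by linarith) h)⟩)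
  obtain ⟨x, hx, hxe⟩ := exists_points hn he
  have hloc : ∀ k : ℕ, ∃ (f : E n → ℝ) (ε : ℝ), Continuous f ∧ 0 < ε ∧
      ∀ u : E n → ℝ, Measurable u →
        (∀ z ∈ Metric.closedBall (x k) (2 * ((1 / 3 : ℝ) ^ k / 16)), |u z - f z| ≤ ε) →
        (k % 2 = 0 → ((k / 2 : ℕ) : ℝ≥0∞) <
          FF (ex (k / 2).unpair.1) (fun z => Complex.exp ((u z : ℂ) * Complex.I))) ∧
        (k % 2 = 1 → ((k / 2 : ℕ) : ℝ≥0∞) < FF (ex (k / 2).unpair.1) (ind u)) := by
    intro k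
    have hp := hex (k / 2).unpair.1
    have hr : (0:ℝ) < (1 / 3 : ℝ) ^ k / 16 := by positivity
    rcases Nat.mod_two_eq_zero_or_one k with h | h
    · obtain ⟨f, ε, h1, h2, h3⟩ := local_phase hp.1 hp.2 (hx k) hr
        (ENNReal.natCast_ne_top (k / 2))
      exact ⟨f, ε, h1, h2, fun u hu hc => ⟨fun _ => h3 u hu hc, fun h' => by omega⟩⟩
    · obtain ⟨f, ε, h1, h2, h3⟩ := local_set hp.1 hp.2 (hx k) hr
        (ENNReal.natCast_ne_top (k / 2))
      exact ⟨f, ε, h1, h2, fun u hu hc => ⟨fun h' => by omega, fun _ => h3 u hu hc⟩⟩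
  choose f ε hf hε H using hloc
  obtain ⟨ψ, hψm, hψa, hψ⟩ := exists_analytic_near e x hxe ε hε f hf
  have HH := fun k => H k ψ hψm (hψ k)
  have key : ∀ (g : E n → ℂ), (∀ z, ‖g z‖ ≤ 1) →
      (∀ i : ℕ, (i : ℝ≥0∞) < FF (ex i.unpair.1) g) → ∀ p : ℝ, 1 ≤ p →
      FF p g < ⊤ → UB n p := by
    intro g hb hg p hp hfin
    by_contra hUB
    obtain ⟨j, hj⟩ := hcof p ⟨hp, hUB⟩
    have hC' : sm n univ ^ (ex j - p) * FF p g ≠ ⊤ := ENNReal.mul_ne_top
      (ENNReal.rpow_ne_top_of_nonneg (by linarith) (measure_ne_top _ _)) hfin.ne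
    obtain ⟨m, hm⟩ := ENNReal.exists_nat_gt hC'
    obtain ⟨i, hi⟩ : ∃ i, i = Nat.pair j m := ⟨_, rfl⟩
    have hij : i.unpair.1 = j := by rw [hi, Nat.unpair_pair]
    have hmi : (m : ℝ≥0∞) ≤ i := by rw [hi]; exact_mod_cast Nat.right_le_pair j m
    have h1 := hg i
    rw [hij] at h1
    have h2 : FF (ex j) g ≤ sm n univ ^ (ex j - p) * FF p g := FF_mono hj (by linarith) hb
    exact lt_irrefl _ (h1.trans_le ((h2.trans hm.le).trans hmi))
  refine ⟨ψ, hψm, hψa, fun p hp => ⟨⟨fun hfin => ?_, fun hUB => ?_⟩,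
    ⟨fun hfin => ?_, fun hUB => ?_⟩⟩⟩
  · refine key _ (norm_phase_le ψ) (fun i => ?_) p hp hfin
    have h1 := (HH (2 * i)).1 (by omega)
    have h2 : 2 * i / 2 = i := by omega
    rw [h2] at h1
    exact h1
  · obtain ⟨C, hC, h⟩ := hUB
    exact (h _ (measurable_phase hψm) (norm_phase_le _)).trans_lt hC.lt_top
  · refine key _ (norm_ind_le ψ) (fun i => ?_) p hp hfin
    have h1 := (HH (2 * i + 1)).2 (by omega)
    have h2 : (2 * i + 1) / 2 = i := by omega
    rw [h2] at h1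
    exact h1
  · obtain ⟨C, hC, h⟩ := hUB
    exact (h _ (measurable_ind hψm) (norm_ind_le _)).trans_lt hC.lt_top

/-- **The restriction problem is a question on one function**: the integer multiples of one phase of
all Gevrey classes of order greater than one, or one density `e^{iψ₀}`, or one open set `ψ₀ > 0`, with
one and the same `ψ₀`, real-analytic off one point. -/
theorem equiv_final (hn : 2 ≤ n) (e : E n) (he : ‖e‖ = 1) :
    ∃ φ₀ ψ₀ : E n → ℝ, ContDiff ℝ ∞ φ₀ ∧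
      (∀ s : ℝ, 1 < s → ∃ C : ℝ, ∀ m x, ‖iteratedFDeriv ℝ m φ₀ x‖ ≤ C * (m.factorial : ℝ) ^ s) ∧
      Measurable ψ₀ ∧ AnalyticOnNhd ℝ ψ₀ {e}ᶜ ∧
      ∀ p : ℝ, 1 ≤ p → List.TFAE [
        ∀ g : E n → ℂ, Measurable g → (∀ x, ‖g x‖ ≤ 1) → ∫⁻ ξ, ‖extn g ξ‖ₑ ^ p < ⊤,
        ∃ C : ℝ≥0∞, C ≠ ⊤ ∧ ∀ g : E n → ℂ, Measurable g → (∀ x, ‖g x‖ ≤ 1) →
          ∫⁻ ξ, ‖extn g ξ‖ₑ ^ p ≤ C,
        ∀ φ : E n → ℝ, ContDiff ℝ ∞ φ → ∃ C : ℝ≥0∞, C ≠ ⊤ ∧ ∀ l : ℝ,
          ∫⁻ ξ, ‖extn (fun x => Complex.exp (((l * φ x : ℝ) : ℂ) * Complex.I)) ξ‖ₑ ^ p ≤ C,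
        ∃ C : ℝ≥0∞, C ≠ ⊤ ∧ ∀ m : ℕ,
          ∫⁻ ξ, ‖extn (fun x => Complex.exp (((m * φ₀ x : ℝ) : ℂ) * Complex.I)) ξ‖ₑ ^ p ≤ C,
        ∫⁻ ξ, ‖extn (fun x => Complex.exp ((ψ₀ x : ℂ) * Complex.I)) ξ‖ₑ ^ p < ⊤,
        ∫⁻ ξ, ‖extn (Set.indicator {x | 0 < ψ₀ x} fun _ => (1 : ℂ)) ξ‖ₑ ^ p < ⊤] := by
  obtain ⟨φ₀, h1, h1', h2⟩ := gevrey_one hn e he
  obtain ⟨φ₁, ψ₁, -, -, -, h6⟩ := equiv1 hn e he
  obtain ⟨ψ₀, h3, h4, h5⟩ := analytic_two hn e he
  refine ⟨φ₀, ψ₀, h1, h1', h3, h4, fun p hp => ?_⟩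
  have h7 := h6 p hp
  tfae_have 1 ↔ 2 := h7.out 0 1
  tfae_have 2 ↔ 3 := h7.out 1 2
  tfae_have 4 ↔ 2 := h2 p hp
  tfae_have 5 ↔ 2 := (h5 p hp).1
  tfae_have 6 ↔ 2 := (h5 p hp).2
  tfae_finish

end Pool.Agent.VAN.AN
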