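import Mathlib

set_option autoImplicit false

namespace Pool.Agent.VAN

open Set Metric

abbrev E3 : Type := EuclideanSpace ℝ (Fin 3)

/-- The rotation by the angle `θ` in the plane of the orthonormal pair `a, b`. -/
noncomputable def rot (a b : E3) (θ : ℝ) (y : E3) : E3 :=
  y + (Real.cos θ - 1) • (inner ℝ a y • a + inner ℝ b y • b) +
    Real.sin θ • (inner ℝ a y • b - inner ℝ b y • a)

/-- Its generator. -/
noncomputable def gen (a b : E3) : E3 →L[ℝ] E3 :=
  (innerSL ℝ a).smulRight b - (innerSL ℝ b).smulRight a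

theorem gen_apply (a b y : E3) : gen a b y = inner ℝ a y • b - inner ℝ b y • a := by
  simp [gen]

/-- orthonormal pairs -/
def OP (a b : E3) : Prop := ‖a‖ = 1 ∧ ‖b‖ = 1 ∧ inner ℝ a b = 0

theorem OP.aa {a b : E3} (h : OP a b) : inner ℝ a a = (1 : ℝ) := by
  rw [real_inner_self_eq_norm_sq, h.1]; norm_num

theorem OP.bb {a b : E3} (h : OP a b) : inner ℝ b b = (1 : ℝ) := by
  rw [real_inner_self_eq_norm_sq, h.2.1]; norm_num

theorem OP.ba {a b : E3} (h : OP a b) : inner ℝ b a = (0 : ℝ) := by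
  rw [real_inner_comm]; exact h.2.2

theorem inner_a_rot {a b : E3} (h : OP a b) (θ : ℝ) (y : E3) :
    inner ℝ a (rot a b θ y) = Real.cos θ * inner ℝ a y - Real.sin θ * inner ℝ b y := by
  unfold rot
  simp only [inner_add_right, inner_smul_right, inner_sub_right, h.aa, h.2.2]
  ring

theorem inner_b_rot {a b : E3} (h : OP a b) (θ : ℝ) (y : E3) :
    inner ℝ b (rot a b θ y) = Real.sin θ * inner ℝ a y + Real.cos θ * inner ℝ b y := by
  unfold rot
  simp only [inner_add_right, inner_smul_right, inner_sub_right, h.bb, h.ba]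
  ring

theorem rot_zero (a b y : E3) : rot a b 0 y = y := by
  simp [rot]

theorem norm_rot {a b : E3} (h : OP a b) (θ : ℝ) (y : E3) : ‖rot a b θ y‖ = ‖y‖ := by
  have h1 : ‖rot a b θ y‖ ^ 2 = ‖y‖ ^ 2 := by
    rw [← real_inner_self_eq_norm_sq, ← real_inner_self_eq_norm_sq]
    have h2 : inner ℝ (rot a b θ y) (rot a b θ y) =
        inner ℝ y (rot a b θ y) + (Real.cos θ - 1) * (inner ℝ a y * inner ℝ a (rot a b θ y) +
          inner ℝ b y * inner ℝ b (rot a b θ y)) +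
          Real.sin θ * (inner ℝ a y * inner ℝ b (rot a b θ y) -
            inner ℝ b y * inner ℝ a (rot a b θ y)) := by
      conv_lhs => arg 2; unfold rot
      simp only [inner_add_left, inner_smul_left, inner_sub_left, RCLike.conj_to_real]
    have h3 : inner ℝ y (rot a b θ y) = inner ℝ y y + (Real.cos θ - 1) *
        (inner ℝ a y ^ 2 + inner ℝ b y ^ 2) := by
      unfold rot
      simp only [inner_add_right, inner_smul_right, inner_sub_right]
      rw [real_inner_comm a y, real_inner_comm b y]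
      ring
    rw [h2, h3, inner_a_rot h, inner_b_rot h]
    have h4 := Real.sin_sq_add_cos_sq θ
    have h5 : Real.sin θ ^ 2 = 1 - Real.cos θ ^ 2 := by linarith
    ring_nf
    rw [h5]
    ring
  exact (sq_eq_sq₀ (norm_nonneg _) (norm_nonneg _)).1 h1

theorem hasDerivAt_rot {a b : E3} (h : OP a b) (θ : ℝ) (y : E3) :
    HasDerivAt (fun t => rot a b t y) (gen a b (rot a b θ y)) θ := by
  have h1 : HasDerivAt (fun t : ℝ => y + (Real.cos t - 1) • (inner ℝ a y • a + inner ℝ b y • b) +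
      Real.sin t • (inner ℝ a y • b - inner ℝ b y • a))
      ((-Real.sin θ) • (inner ℝ a y • a + inner ℝ b y • b) +
        Real.cos θ • (inner ℝ a y • b - inner ℝ b y • a)) θ := by
    have h2 := ((Real.hasDerivAt_cos θ).sub_const 1).smul_const (inner ℝ a y • a + inner ℝ b y • b)
    have h3 := (Real.hasDerivAt_sin θ).smul_const (inner ℝ a y • b - inner ℝ b y • a)
    exact (h2.const_add y).add h3
  refine h1.congr_deriv ?_
  rw [gen_apply, inner_a_rot h, inner_b_rot h]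
  module

/-- the derivative along the rotations -/
noncomputable def XX (a b : E3) (f : E3 → ℝ) (y : E3) : ℝ := fderiv ℝ f y (gen a b y)

theorem XX_analytic {f : E3 → ℝ} {s : Set E3} (hf : AnalyticOnNhd ℝ f s) (a b : E3) :
    AnalyticOnNhd ℝ (XX a b f) s := by
  intro x hx
  have h1 : AnalyticAt ℝ (fderiv ℝ f) x := (hf x hx).fderiv
  have h2 : AnalyticAt ℝ (fun y => gen a b y) x := (gen a b).analyticAt x
  have h3 := (ContinuousLinearMap.id ℝ (E3 →L[ℝ] ℝ)).analyticAt_bilinear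
    (fderiv ℝ f x, gen a b x)
  exact AnalyticAt.comp₂ (h := fun p : (E3 →L[ℝ] ℝ) × E3 => p.1 p.2) h3 h1 h2

theorem XX_iter_analytic {f : E3 → ℝ} {s : Set E3} (hf : AnalyticOnNhd ℝ f s) (a b : E3) (k : ℕ) :
    AnalyticOnNhd ℝ ((XX a b)^[k] f) s := by
  induction k with
  | zero => exact hf
  | succ k ih =>
    rw [Function.iterate_succ_apply']
    exact XX_analytic ih a b

theorem hasDerivAt_comp_rot {f : E3 → ℝ} (hf : AnalyticOnNhd ℝ f (sphere 0 1)) {a b : E3}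
    (h : OP a b) {y : E3} (hy : y ∈ sphere (0 : E3) 1) (θ : ℝ) :
    HasDerivAt (fun t => f (rot a b t y)) (XX a b f (rot a b θ y)) θ := by
  have h1 : rot a b θ y ∈ sphere (0 : E3) 1 := by
    rw [mem_sphere_zero_iff_norm, norm_rot h]
    exact mem_sphere_zero_iff_norm.1 hy
  have h2 : HasFDerivAt f (fderiv ℝ f (rot a b θ y)) (rot a b θ y) :=
    (hf _ h1).differentiableAt.hasFDerivAt
  exact h2.comp_hasDerivAt θ (hasDerivAt_rot h θ y)

theorem iteratedDeriv_comp_rot {f : E3 → ℝ} (hf : AnalyticOnNhd ℝ f (sphere 0 1)) {a b : E3}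
    (h : OP a b) {y : E3} (hy : y ∈ sphere (0 : E3) 1) (k : ℕ) (θ : ℝ) :
    iteratedDeriv k (fun t => f (rot a b t y)) θ = (XX a b)^[k] f (rot a b θ y) := by
  induction k generalizing θ with
  | zero => simp
  | succ k ih =>
    rw [iteratedDeriv_succ, Function.iterate_succ_apply']
    have h1 : iteratedDeriv k (fun t => f (rot a b t y)) =
        fun t => (XX a b)^[k] f (rot a b t y) := funext ih
    rw [h1]
    exact (hasDerivAt_comp_rot (XX_iter_analytic hf a b k) h hy θ).deriv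

theorem analyticAt_rot (a b y : E3) (θ : ℝ) : AnalyticAt ℝ (fun t => rot a b t y) θ := by
  unfold rot
  have h1 : AnalyticAt ℝ (fun t : ℝ => Real.cos t - 1) θ :=
    Real.analyticAt_cos.sub analyticAt_const
  have h2 : AnalyticAt ℝ (fun t : ℝ => Real.sin t) θ := Real.analyticAt_sin
  exact ((analyticAt_const.add (h1.smul analyticAt_const)).add (h2.smul analyticAt_const))

theorem analyticAt_comp_rot {f : E3 → ℝ} (hf : AnalyticOnNhd ℝ f (sphere 0 1)) {a b : E3}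
    (h : OP a b) {y : E3} (hy : y ∈ sphere (0 : E3) 1) (θ : ℝ) :
    AnalyticAt ℝ (fun t => f (rot a b t y)) θ := by
  have h1 : rot a b θ y ∈ sphere (0 : E3) 1 := by
    rw [mem_sphere_zero_iff_norm, norm_rot h]
    exact mem_sphere_zero_iff_norm.1 hy
  exact AnalyticAt.fun_comp (g := f) (f := fun t => rot a b t y) (hf _ h1) (analyticAt_rot a b y θ)

/-- An analytic function on the line all of whose derivatives of positive order vanish at `0` is
constant. -/
theorem const_of_iteratedDeriv {g : ℝ → ℝ} (hg : ∀ t, AnalyticAt ℝ g t)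
    (h : ∀ k : ℕ, 1 ≤ k → iteratedDeriv k g 0 = 0) (t : ℝ) : g t = g 0 := by
  have h1 : HasFPowerSeriesAt g (FormalMultilinearSeries.ofScalars ℝ
      (fun n => iteratedDeriv n g 0 / n.factorial)) 0 := (hg 0).hasFPowerSeriesAt
  have h2 : g =ᶠ[nhds 0] fun _ => g 0 := by
    obtain ⟨r, hr⟩ := h1
    have h3 : ∀ᶠ y in nhds (0:ℝ), y ∈ Metric.eball (0:ℝ) r := by
      exact Metric.isOpen_eball.mem_nhds (Metric.mem_eball_self hr.r_pos)
    filter_upwards [h3] with y hy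
    have h4 := hr.hasSum (y := y) (by simpa using hy)
    have h5 : HasSum (fun n : ℕ => if n = 0 then g 0 else 0) (g 0) := by
      exact hasSum_ite_eq 0 (g 0)
    have h6 : (fun n : ℕ => (FormalMultilinearSeries.ofScalars ℝ
        (fun n => iteratedDeriv n g 0 / n.factorial) n) fun _ => y) =
        fun n : ℕ => if n = 0 then g 0 else 0 := by
      funext n
      rw [FormalMultilinearSeries.ofScalars_apply_eq]
      rcases Nat.eq_zero_or_pos n with rfl | hn
      · simp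
      · rw [h n hn, if_neg (by omega)]
        simp
    rw [h6, zero_add] at h4
    exact h4.unique h5
  have h3 : AnalyticOnNhd ℝ g univ := fun t _ => hg t
  have h4 : AnalyticOnNhd ℝ (fun _ : ℝ => g 0) univ := fun t _ => analyticAt_const
  exact congrFun (h3.eq_of_eventuallyEq h4 h2) t

theorem exists_unit_orth (x : E3) : ∃ b : E3, ‖b‖ = 1 ∧ inner ℝ x b = (0 : ℝ) := by
  have h1 : (ℝ ∙ x)ᗮ ≠ ⊥ := by
    intro h
    have h2 := Submodule.finrank_add_finrank_orthogonal (ℝ ∙ x)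
    rw [h, finrank_bot] at h2
    have h3 : Module.finrank ℝ E3 = 3 := by simp
    have h4 : Module.finrank ℝ (ℝ ∙ x) ≤ 1 := by
      have := finrank_span_le_card (R := ℝ) ({x} : Set E3)
      simpa using this
    omega
  obtain ⟨z, hz, hz0⟩ := Submodule.exists_mem_ne_zero_of_ne_bot h1
  have h2 : inner ℝ x z = (0 : ℝ) := Submodule.mem_orthogonal_singleton_iff_inner_right.1 hz
  have h3 : ‖z‖ ≠ 0 := norm_ne_zero_iff.2 hz0
  refine ⟨‖z‖⁻¹ • z, ?_, ?_⟩
  · rw [norm_smul, norm_inv, norm_norm, inv_mul_cancel₀ h3]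
  · rw [inner_smul_right, h2, mul_zero]

/-- every point of the sphere lies on a great circle through `x` -/
theorem exists_great_circle {x y : E3} (hx : ‖x‖ = 1) (hy : ‖y‖ = 1) :
    ∃ b : E3, OP x b ∧ ∃ θ : ℝ, rot x b θ x = y := by
  have key : ∀ b : E3, OP x b → ∀ θ : ℝ, rot x b θ x = Real.cos θ • x + Real.sin θ • b := by
    intro b hb θ
    unfold rot
    rw [hb.aa, hb.ba]
    module
  set z : E3 := y - inner ℝ x y • x with hz
  have hxx : inner ℝ x x = (1 : ℝ) := by rw [real_inner_self_eq_norm_sq, hx]; norm_num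
  have hyy : inner ℝ y y = (1 : ℝ) := by rw [real_inner_self_eq_norm_sq, hy]; norm_num
  have hxz : inner ℝ x z = (0 : ℝ) := by
    rw [hz, inner_sub_right, inner_smul_right, hxx]; ring
  have hzz : ‖z‖ ^ 2 = 1 - (inner ℝ x y : ℝ) ^ 2 := by
    rw [← real_inner_self_eq_norm_sq]
    conv_lhs => arg 2; rw [hz]
    rw [inner_sub_left, inner_smul_left, hxz, hz, inner_sub_right, inner_smul_right, hyy,
      real_inner_comm x y]
    simp
    ring
  have hθ : Real.cos (Real.arccos (inner ℝ x y)) = inner ℝ x y := by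
    have h1 := abs_real_inner_le_norm x y
    rw [hx, hy, one_mul, abs_le] at h1
    exact Real.cos_arccos h1.1 h1.2
  have hsθ : Real.sin (Real.arccos (inner ℝ x y)) = ‖z‖ := by
    rw [Real.sin_arccos, ← hzz, Real.sqrt_sq (norm_nonneg _)]
  have hy2 : y = inner ℝ x y • x + z := by rw [hz]; abel
  by_cases hz0 : z = 0
  · obtain ⟨b, hb1, hb2⟩ := exists_unit_orth x
    refine ⟨b, ⟨hx, hb1, hb2⟩, Real.arccos (inner ℝ x y), ?_⟩
    rw [key b ⟨hx, hb1, hb2⟩, hθ, hsθ, hz0, norm_zero, zero_smul, add_zero]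
    conv_rhs => rw [hy2, hz0, add_zero]
  · have hz1 : ‖z‖ ≠ 0 := norm_ne_zero_iff.2 hz0
    have hb : OP x (‖z‖⁻¹ • z) := by
      refine ⟨hx, ?_, ?_⟩
      · rw [norm_smul, norm_inv, norm_norm, inv_mul_cancel₀ hz1]
      · rw [inner_smul_right, hxz, mul_zero]
    refine ⟨_, hb, Real.arccos (inner ℝ x y), ?_⟩
    rw [key _ hb, hθ, hsθ, smul_smul, mul_inv_cancel₀ hz1, one_smul]
    exact hy2.symm

/-- **Nonflatness.** -/
theorem const_of_flat {f : E3 → ℝ} (hf : AnalyticOnNhd ℝ f (sphere 0 1)) {x : E3}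
    (hx : ‖x‖ = 1) (h : ∀ b : E3, OP x b → ∀ k : ℕ, 1 ≤ k → (XX x b)^[k] f x = 0) {y : E3}
    (hy : ‖y‖ = 1) : f y = f x := by
  obtain ⟨b, hb, θ, rfl⟩ := exists_great_circle hx hy
  have hxs : x ∈ sphere (0 : E3) 1 := mem_sphere_zero_iff_norm.2 hx
  have h1 := const_of_iteratedDeriv (fun t => analyticAt_comp_rot hf hb hxs t) (by
    intro k hk
    rw [iteratedDeriv_comp_rot hf hb hxs, rot_zero]
    exact h b hb k hk) θ
  rw [rot_zero] at h1
  exact h1

/-- Uniform nonvanishing: if `K` is compact and for every `z ∈ K` some `g i` is not zero at `z`, then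
finitely many indices, one radius and one lower bound suffice. -/
theorem compact_nonvanishing {ι Z : Type*} [PseudoMetricSpace Z] {K : Set Z} (hK : IsCompact K)
    (g : ι → Z → ℝ) (hg : ∀ i, ContinuousOn (g i) K) (h : ∀ z ∈ K, ∃ i, g i z ≠ 0) :
    ∃ s : Finset ι, ∃ δ : ℝ, 0 < δ ∧ ∃ c : ℝ, 0 < c ∧
      ∀ z ∈ K, ∃ i ∈ s, ∀ z' ∈ K, dist z' z < δ → c ≤ |g i z'| := by
  classical
  rcases K.eq_empty_or_nonempty with hK0 | ⟨z0, hz0⟩
  · exact ⟨∅, 1, one_pos, 1, one_pos, fun z hz => by simp [hK0] at hz⟩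
  obtain ⟨i0, -⟩ := h z0 hz0
  have : Nonempty ι := ⟨i0⟩
  choose! i hi using h
  -- neighbourhoods
  have h1 : ∀ z ∈ K, ∃ r : ℝ, 0 < r ∧ ∀ z' ∈ K, dist z' z < r → |g (i z) z| / 2 ≤ |g (i z) z'| := by
    intro z hz
    have h2 : 0 < |g (i z) z| := abs_pos.2 (hi z hz)
    have h3 := Metric.continuousOn_iff.1 (hg (i z)) z hz (|g (i z) z| / 2) (by positivity)
    obtain ⟨r, hr, h4⟩ := h3
    refine ⟨r, hr, fun z' hz' hd => ?_⟩
    have h5 := h4 z' hz' hd
    rw [Real.dist_eq] at h5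
    have h6 := abs_sub_abs_le_abs_sub (g (i z) z) (g (i z) z')
    rw [abs_sub_comm] at h6
    linarith
  choose! r hr hr2 using h1
  obtain ⟨t, htK, htc⟩ := hK.elim_nhds_subcover (fun z => ball z (r z / 2))
    (fun z hz => ball_mem_nhds z (by have := hr z hz; positivity))
  rcases t.eq_empty_or_nonempty with ht | ht
  · subst ht
    refine ⟨∅, 1, one_pos, 1, one_pos, fun z hz => ?_⟩
    have := htc hz
    simp at this
  · refine ⟨t.image i, t.inf' ht (fun z => r z / 2), ?_, t.inf' ht (fun z => |g (i z) z| / 2), ?_, ?_⟩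
    · rw [Finset.lt_inf'_iff]
      intro z hz
      have := hr z (htK z hz)
      positivity
    · rw [Finset.lt_inf'_iff]
      intro z hz
      have := abs_pos.2 (hi z (htK z hz))
      positivity
    · intro z hz
      obtain ⟨w, hw, hzw⟩ := mem_iUnion₂.1 (htc hz)
      refine ⟨i w, Finset.mem_image_of_mem i hw, fun z' hz' hd => ?_⟩
      have h1 : t.inf' ht (fun z => |g (i z) z| / 2) ≤ |g (i w) w| / 2 := Finset.inf'_le _ hw
      have h2 : t.inf' ht (fun z => r z / 2) ≤ r w / 2 := Finset.inf'_le _ hw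
      refine h1.trans (hr2 w (htK w hw) z' hz' ?_)
      have h3 : dist z w < r w / 2 := mem_ball.1 hzw
      calc dist z' w ≤ dist z' z + dist z w := dist_triangle _ _ _
        _ < r w := by linarith


/-! ### linear combinations -/

/-- linear combination -/
noncomputable def lc {d : ℕ} (f : Fin d → E3 → ℝ) (c : Fin d → ℝ) (y : E3) : ℝ := ∑ i, c i * f i y

theorem lc_analytic {d : ℕ} {f : Fin d → E3 → ℝ} {s : Set E3} (hf : ∀ i, AnalyticOnNhd ℝ (f i) s)
    (c : Fin d → ℝ) : AnalyticOnNhd ℝ (lc f c) s := by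
  intro x hx
  unfold lc
  exact Finset.analyticAt_fun_sum _ fun i _ => analyticAt_const.mul (hf i x hx)

theorem lc_XX {d : ℕ} {f : Fin d → E3 → ℝ} {U : Set E3} (hU : IsOpen U)
    (hf : ∀ i, AnalyticOnNhd ℝ (f i) U) (c : Fin d → ℝ) (a b : E3) (k : ℕ) :
    ∀ y ∈ U, (XX a b)^[k] (lc f c) y = lc (fun i => (XX a b)^[k] (f i)) c y := by
  induction k with
  | zero => intro y _; rfl
  | succ k ih =>
    intro y hy
    rw [Function.iterate_succ_apply']
    have h1 : (XX a b)^[k] (lc f c) =ᶠ[nhds y] lc (fun i => (XX a b)^[k] (f i)) c := by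
      filter_upwards [hU.mem_nhds hy] with z hz using ih z hz
    have h0 : XX a b ((XX a b)^[k] (lc f c)) y =
        XX a b (lc (fun i => (XX a b)^[k] (f i)) c) y := by
      show fderiv ℝ ((XX a b)^[k] (lc f c)) y (gen a b y) = _
      rw [h1.fderiv_eq]
      rfl
    rw [h0]
    show fderiv ℝ (lc (fun i => (XX a b)^[k] (f i)) c) y (gen a b y) = _
    have h2 : HasFDerivAt (lc (fun i => (XX a b)^[k] (f i)) c)
        (∑ i, c i • fderiv ℝ ((XX a b)^[k] (f i)) y) y := by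
      unfold lc
      refine HasFDerivAt.fun_sum fun i _ => ?_
      have h3 : HasFDerivAt ((XX a b)^[k] (f i)) (fderiv ℝ ((XX a b)^[k] (f i)) y) y :=
        (XX_iter_analytic (hf i) a b k y hy).differentiableAt.hasFDerivAt
      exact h3.const_mul (c i)
    rw [h2.fderiv]
    unfold lc
    rw [ContinuousLinearMap.sum_apply]
    refine Finset.sum_congr rfl fun i _ => ?_
    show c i * fderiv ℝ ((XX a b)^[k] (f i)) y (gen a b y) = c i * (XX a b)^[k + 1] (f i) y
    rw [Function.iterate_succ_apply']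
    rfl

/-- the open set where all functions are analytic -/
def UA {d : ℕ} (f : Fin d → E3 → ℝ) : Set E3 := {x | ∀ i, AnalyticAt ℝ (f i) x}

theorem isOpen_UA {d : ℕ} (f : Fin d → E3 → ℝ) : IsOpen (UA f) := by
  have : UA f = ⋂ i, {x | AnalyticAt ℝ (f i) x} := by ext x; simp [UA]
  rw [this]
  exact isOpen_iInter_of_finite fun i => isOpen_analyticAt ℝ (f i)

theorem XX_lc_sphere {d : ℕ} {f : Fin d → E3 → ℝ} (hf : ∀ i, AnalyticOnNhd ℝ (f i) (sphere 0 1))
    (c : Fin d → ℝ) (a b : E3) (k : ℕ) {y : E3} (hy : ‖y‖ = 1) :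
    (XX a b)^[k] (lc f c) y = ∑ i, c i * (XX a b)^[k] (f i) y := by
  have h1 : y ∈ UA f := fun i => hf i y (mem_sphere_zero_iff_norm.2 hy)
  exact lc_XX (isOpen_UA f) (fun i x hx => hx i) c a b k y h1

/-- **Uniform nonflatness.** -/
theorem uniform_nonflat {d : ℕ} (k0 : ℕ) (f : Fin d → E3 → ℝ)
    (hf : ∀ i, AnalyticOnNhd ℝ (f i) (sphere 0 1))
    (h : ∀ c : Fin d → ℝ, c ≠ 0 → ∀ x : E3, ‖x‖ = 1 → ∃ b : E3, OP x b ∧ ∃ k, k0 ≤ k ∧
      (XX x b)^[k] (lc f c) x ≠ 0) :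
    ∃ s : Finset (E3 × E3 × ℕ), (∀ p ∈ s, OP p.1 p.2.1 ∧ k0 ≤ p.2.2) ∧ ∃ δ : ℝ, 0 < δ ∧
      ∃ κ : ℝ, 0 < κ ∧ ∀ c : Fin d → ℝ, c ≠ 0 → ∀ x : E3, ‖x‖ = 1 → ∃ p ∈ s, ∀ y : E3, ‖y‖ = 1 →
        dist y x < δ → κ * ‖c‖ ≤ |(XX p.1 p.2.1)^[p.2.2] (lc f c) y| := by
  classical
  obtain ⟨s, δ, hδ, κ, hκ, H⟩ := compact_nonvanishing
    (K := (sphere (0 : Fin d → ℝ) 1) ×ˢ (sphere (0 : E3) 1))
    ((isCompact_sphere _ _).prod (isCompact_sphere _ _))
    (fun (p : {p : E3 × E3 × ℕ // OP p.1 p.2.1 ∧ k0 ≤ p.2.2}) (z : (Fin d → ℝ) × E3) =>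
      ∑ i, z.1 i * (XX p.1.1 p.1.2.1)^[p.1.2.2] (f i) z.2) (by
      intro p
      refine continuousOn_finsetSum _ fun i _ => ?_
      refine ContinuousOn.mul (Continuous.continuousOn (by fun_prop)) ?_
      have h1 : ContinuousOn ((XX p.1.1 p.1.2.1)^[p.1.2.2] (f i)) (sphere 0 1) :=
        (XX_iter_analytic (hf i) _ _ _).continuousOn
      exact h1.comp continuousOn_snd fun z hz => hz.2) (by
      rintro ⟨c, x⟩ ⟨hc, hx⟩
      have hx1 : ‖x‖ = 1 := mem_sphere_zero_iff_norm.1 hx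
      have hc1 : c ≠ 0 := by
        rintro rfl
        have := mem_sphere_zero_iff_norm.1 hc
        simp at this
      obtain ⟨b, hb, k, hk, h2⟩ := h c hc1 x hx1
      refine ⟨⟨(x, b, k), hb, hk⟩, ?_⟩
      simp only
      rw [XX_lc_sphere hf c x b k hx1] at h2
      exact h2)
  refine ⟨s.image Subtype.val, ?_, δ, hδ, κ, hκ, ?_⟩
  · intro p hp
    obtain ⟨q, _, rfl⟩ := Finset.mem_image.1 hp
    exact q.2
  · intro c hc x hx
    · have hc0 : 0 < ‖c‖ := norm_pos_iff.2 hc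
      obtain ⟨q, hq, h3⟩ := H (‖c‖⁻¹ • c, x) ⟨by
        rw [mem_sphere_zero_iff_norm, norm_smul, norm_inv, norm_norm,
          inv_mul_cancel₀ hc0.ne'], mem_sphere_zero_iff_norm.2 hx⟩
      refine ⟨q.1, Finset.mem_image_of_mem _ hq, fun y hy hd => ?_⟩
      have h4 := h3 (‖c‖⁻¹ • c, y) ⟨by
        rw [mem_sphere_zero_iff_norm, norm_smul, norm_inv, norm_norm,
          inv_mul_cancel₀ hc0.ne'], mem_sphere_zero_iff_norm.2 hy⟩ (by
          rw [Prod.dist_eq]
          simp only [dist_self]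
          exact max_lt hδ hd)
      rw [XX_lc_sphere hf c _ _ _ hy]
      have h5 : ∑ i, (‖c‖⁻¹ • c) i * (XX q.1.1 q.1.2.1)^[q.1.2.2] (f i) y =
          ‖c‖⁻¹ * ∑ i, c i * (XX q.1.1 q.1.2.1)^[q.1.2.2] (f i) y := by
        rw [Finset.mul_sum]
        refine Finset.sum_congr rfl fun i _ => ?_
        simp only [Pi.smul_apply, smul_eq_mul]
        ring
      simp only at h4
      rw [h5, abs_mul, abs_inv, abs_of_pos hc0, ← div_eq_inv_mul, le_div_iff₀ hc0] at h4
      exact h4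

/-- phases: no nontrivial combination is constant on the sphere -/
theorem uniform_nonflat_phase {d : ℕ} (f : Fin d → E3 → ℝ)
    (hf : ∀ i, AnalyticOnNhd ℝ (f i) (sphere 0 1))
    (h : ∀ c : Fin d → ℝ, c ≠ 0 → ¬ ∃ r : ℝ, ∀ y : E3, ‖y‖ = 1 → lc f c y = r) :
    ∃ s : Finset (E3 × E3 × ℕ), (∀ p ∈ s, OP p.1 p.2.1 ∧ 1 ≤ p.2.2) ∧ ∃ δ : ℝ, 0 < δ ∧
      ∃ κ : ℝ, 0 < κ ∧ ∀ c : Fin d → ℝ, c ≠ 0 → ∀ x : E3, ‖x‖ = 1 → ∃ p ∈ s, ∀ y : E3, ‖y‖ = 1 →
        dist y x < δ → κ * ‖c‖ ≤ |(XX p.1 p.2.1)^[p.2.2] (lc f c) y| := by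
  refine uniform_nonflat 1 f hf ?_
  intro c hc x hx
  by_contra hcon
  push Not at hcon
  refine h c hc ⟨lc f c x, fun y hy => ?_⟩
  exact const_of_flat (lc_analytic hf c) hx (fun b hb k hk => hcon b hb k hk) hy

/-- cuts: no nontrivial combination vanishes on the sphere -/
theorem uniform_nonflat_cut {d : ℕ} (f : Fin d → E3 → ℝ)
    (hf : ∀ i, AnalyticOnNhd ℝ (f i) (sphere 0 1))
    (h : ∀ c : Fin d → ℝ, c ≠ 0 → ∃ y : E3, ‖y‖ = 1 ∧ lc f c y ≠ 0) :
    ∃ s : Finset (E3 × E3 × ℕ), (∀ p ∈ s, OP p.1 p.2.1 ∧ 0 ≤ p.2.2) ∧ ∃ δ : ℝ, 0 < δ ∧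
      ∃ κ : ℝ, 0 < κ ∧ ∀ c : Fin d → ℝ, c ≠ 0 → ∀ x : E3, ‖x‖ = 1 → ∃ p ∈ s, ∀ y : E3, ‖y‖ = 1 →
        dist y x < δ → κ * ‖c‖ ≤ |(XX p.1 p.2.1)^[p.2.2] (lc f c) y| := by
  refine uniform_nonflat 0 f hf ?_
  intro c hc x hx
  by_contra hcon
  push Not at hcon
  obtain ⟨y, hy, hy0⟩ := h c hc
  apply hy0
  rw [const_of_flat (lc_analytic hf c) hx (fun b hb k _ => hcon b hb k (Nat.zero_le k)) hy]
  obtain ⟨b, hb1, hb2⟩ := exists_unit_orth x
  exact hcon b ⟨hx, hb1, hb2⟩ 0 le_rfl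

/-- all derivatives along the rotations of the list are bounded by a multiple of the coefficients -/
theorem XX_bound {d : ℕ} (f : Fin d → E3 → ℝ) (hf : ∀ i, AnalyticOnNhd ℝ (f i) (sphere 0 1))
    (a b : E3) (k : ℕ) : ∃ M : ℝ, 0 < M ∧ ∀ c : Fin d → ℝ, ∀ y : E3, ‖y‖ = 1 →
      |(XX a b)^[k] (lc f c) y| ≤ M * ‖c‖ := by
  have h1 : ∀ i, ∃ M : ℝ, ∀ y ∈ sphere (0 : E3) 1, ‖(XX a b)^[k] (f i) y‖ ≤ M := fun i =>
    (isCompact_sphere (0 : E3) 1).exists_bound_of_continuousOn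
      (XX_iter_analytic (hf i) a b k).continuousOn
  choose M hM using h1
  refine ⟨∑ i, |M i| + 1, by positivity, fun c y hy => ?_⟩
  rw [XX_lc_sphere hf c a b k hy]
  calc |∑ i, c i * (XX a b)^[k] (f i) y| ≤ ∑ i, |c i * (XX a b)^[k] (f i) y| :=
        Finset.abs_sum_le_sum_abs _ _
    _ ≤ ∑ i, ‖c‖ * |M i| := by
        refine Finset.sum_le_sum fun i _ => ?_
        rw [abs_mul]
        refine mul_le_mul (norm_le_pi_norm c i) ?_ (abs_nonneg _) (norm_nonneg _)
        exact (hM i y (mem_sphere_zero_iff_norm.2 hy)).trans (le_abs_self _)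
    _ = (∑ i, |M i|) * ‖c‖ := by rw [← Finset.mul_sum, mul_comm]
    _ ≤ (∑ i, |M i| + 1) * ‖c‖ := by
        refine mul_le_mul_of_nonneg_right (by linarith) (norm_nonneg _)

end Pool.Agent.VAN
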