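import Pool.Agent.VAN.B3h63

/-!
Decay for analytic families.
-/

set_option autoImplicit false

namespace Pool.Agent.VAN

open MeasureTheory Set Metric Pool.Agent.MP_6cbfb8_an
open scoped ENNReal Real

theorem chain_of_analytic {f : E3 → ℝ} (hf : AnalyticOnNhd ℝ f (sphere 0 1)) : Chain f := by
  intro a b h k y hy t
  have h1 := hasDerivAt_comp_rot (XX_iter_analytic hf a b k) h
    (mem_sphere_zero_iff_norm.2 hy) t
  rw [Function.iterate_succ_apply']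
  exact h1

/-- Decay for the phases of an analytic family with no combination constant on the sphere. -/
theorem decay_lc {d : ℕ} (f : Fin d → E3 → ℝ) (hf : ∀ i, AnalyticOnNhd ℝ (f i) (sphere 0 1))
    (h : ∀ c : Fin d → ℝ, c ≠ 0 → ¬ ∃ r : ℝ, ∀ y : E3, ‖y‖ = 1 → lc f c y = r) :
    ∃ (m : ℕ) (K : ℝ), 1 ≤ m ∧ 0 ≤ K ∧ ∀ c : Fin d → ℝ, 1 ≤ ‖c‖ →
      ‖∫ x : S 3, ei (lc f c x) ∂sm 3‖ ≤ K * ‖c‖ ^ (-(1 / (m : ℝ))) := by
  obtain ⟨s, hs, δ, hδ, κ, hκ, hnf⟩ := uniform_nonflat_phase f hf h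
  have hM : ∀ p : E3 × E3 × ℕ, ∃ M : ℝ, 0 < M ∧ ∀ c : Fin d → ℝ, ∀ y : E3, ‖y‖ = 1 →
      |(XX p.1 p.2.1)^[2] (lc f c) y| ≤ M * ‖c‖ := fun p => XX_bound f hf p.1 p.2.1 2
  choose M hM0 hM1 using hM
  set m : ℕ := max 1 (s.sup fun p => p.2.2) with hm
  obtain ⟨C, hC, H⟩ := decay_core m s (fun p hp => ⟨(hs p hp).1, (hs p hp).2,
    (Finset.le_sup (f := fun p : E3 × E3 × ℕ => p.2.2) hp).trans (le_max_right _ _)⟩)
    (M := ∑ p ∈ s, M p) hδ hκ
  refine ⟨m, C, le_max_left _ _, hC, fun c hc => ?_⟩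
  have hc0 : c ≠ 0 := by
    rintro rfl
    rw [norm_zero] at hc
    linarith
  refine H (lc f c) ‖c‖ hc (chain_of_analytic (lc_analytic hf c))
    (lc_analytic hf c).continuousOn (hnf c hc0) ?_
  intro p hp y hy
  refine (hM1 p c y hy).trans ?_
  refine mul_le_mul_of_nonneg_right ?_ (norm_nonneg _)
  exact Finset.single_le_sum (f := M) (fun q _ => (hM0 q).le) hp

theorem analytic_coord (i : Fin 3) : AnalyticOnNhd ℝ (fun x : E3 => x i) (sphere 0 1) := by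
  intro x _
  exact (EuclideanSpace.proj i : E3 →L[ℝ] ℝ).analyticAt x

theorem inner_sum (x ξ : E3) : inner ℝ x ξ = x 0 * ξ 0 + x 1 * ξ 1 + x 2 * ξ 2 := by
  rw [PiLp.inner_apply, Fin.sum_univ_three]
  simp only [RCLike.inner_apply, conj_trivial]
  ring

theorem norm_le_three (ξ : E3) : ‖ξ‖ ≤ |ξ 0| + |ξ 1| + |ξ 2| := by
  rw [EuclideanSpace.norm_eq, Fin.sum_univ_three]
  simp only [Real.norm_eq_abs, sq_abs]
  rw [Real.sqrt_le_left (by positivity)]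
  nlinarith [abs_nonneg (ξ 0), abs_nonneg (ξ 1), abs_nonneg (ξ 2), sq_abs (ξ 0), sq_abs (ξ 1),
    sq_abs (ξ 2), mul_nonneg (abs_nonneg (ξ 0)) (abs_nonneg (ξ 1)),
    mul_nonneg (abs_nonneg (ξ 0)) (abs_nonneg (ξ 2)),
    mul_nonneg (abs_nonneg (ξ 1)) (abs_nonneg (ξ 2))]

/-- the coordinate functions -/
noncomputable def crd (i : Fin 3) (x : E3) : ℝ := x i

theorem lc_append {d : ℕ} (φ : Fin d → E3 → ℝ) (a : Fin d → ℝ) (ζ : Fin 3 → ℝ) (x : E3) :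
    lc (Fin.append φ crd) (Fin.append a ζ) x =
      ∑ j, a j * φ j x + inner ℝ x (WithLp.toLp 2 ζ : E3) := by
  unfold lc
  rw [Fin.sum_univ_add]
  simp only [Fin.append_left, Fin.append_right]
  rw [inner_sum, Fin.sum_univ_three]
  unfold crd
  simp only []
  ring

theorem append_split {d : ℕ} (c : Fin (d + 3) → ℝ) : ∃ (a : Fin d → ℝ) (ζ : Fin 3 → ℝ),
    c = Fin.append a ζ :=
  ⟨fun i => c (Fin.castAdd 3 i), fun j => c (Fin.natAdd d j), (Fin.append_castAdd_natAdd).symm⟩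

/-- from the decay of oscillatory integrals to the decay of the Fourier transform -/
theorem extn_of_lc {d : ℕ} (φ : Fin d → E3 → ℝ) (m : ℕ) (K : ℝ) (hm : 1 ≤ m) (hK : 0 ≤ K)
    (H : ∀ c : Fin (d + 3) → ℝ, 1 ≤ ‖c‖ →
      ‖∫ x : S 3, ei (lc (Fin.append φ crd) c x) ∂sm 3‖ ≤ K * ‖c‖ ^ (-(1 / (m : ℝ)))) :
    ∃ K κ : ℝ, 0 ≤ K ∧ 0 < κ ∧ ∀ (c : Fin d → ℝ) (ξ : E3),
      ‖extn (fun x => Complex.exp (((∑ j, c j * φ j x : ℝ) : ℂ) * Complex.I)) ξ‖ ≤
        K * (1 + ‖c‖ + ‖ξ‖) ^ (-κ) := by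
  have hm0 : (0 : ℝ) < m := by exact_mod_cast hm
  set κ : ℝ := 1 / (m : ℝ) with hκ
  have hκ0 : 0 < κ := by positivity
  have hκ1 : κ ≤ 1 := by
    rw [hκ, div_le_one hm0]
    exact_mod_cast hm
  set σ : ℝ := (sm 3).real univ with hσ
  refine ⟨K * 4 + σ * 4, κ, by positivity, hκ0, fun c ξ => ?_⟩
  have hex : extn (fun x => Complex.exp (((∑ j, c j * φ j x : ℝ) : ℂ) * Complex.I)) ξ =
      ∫ x : S 3, ei (lc (Fin.append φ crd) (Fin.append c (fun j => -(2 * π) * ξ j)) x) ∂sm 3 := by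
    unfold extn
    refine integral_congr_ae (Filter.Eventually.of_forall fun x => ?_)
    simp only
    rw [lc_append, ← Complex.exp_add]
    unfold ei
    congr 1
    have h1 : inner ℝ (x : E3) (WithLp.toLp 2 (fun j => -(2 * π) * ξ j) : E3) =
        -(2 * π * inner ℝ (x : E3) ξ) := by
      rw [inner_sum, inner_sum]
      simp only []
      ring
    rw [h1]
    push_cast
    ring
  have hbase : 0 < 1 + ‖c‖ + ‖ξ‖ := by positivity
  have hpow : 0 < (1 + ‖c‖ + ‖ξ‖) ^ (-κ) := Real.rpow_pos_of_pos hbase _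
  rcases le_or_gt 2 (‖c‖ + ‖ξ‖) with hbig | hsmall
  · set cc : Fin (d + 3) → ℝ := Fin.append c (fun j => -(2 * π) * ξ j) with hcc
    have hc1 : ‖c‖ ≤ ‖cc‖ := by
      refine (pi_norm_le_iff_of_nonneg (norm_nonneg _)).2 fun j => ?_
      have h1 := norm_le_pi_norm cc (Fin.castAdd 3 j)
      rw [hcc, Fin.append_left] at h1
      exact h1
    have hξ1 : ∀ j : Fin 3, 2 * π * |ξ j| ≤ ‖cc‖ := by
      intro j
      have h1 := norm_le_pi_norm cc (Fin.natAdd d j)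
      rw [hcc, Fin.append_right, Real.norm_eq_abs, abs_mul, abs_neg,
        abs_of_pos (by positivity)] at h1
      exact h1
    have hξ2 : ‖ξ‖ ≤ ‖cc‖ := by
      have h1 := norm_le_three ξ
      have h2 := hξ1 0
      have h3 := hξ1 1
      have h4 := hξ1 2
      have h5 := Real.pi_gt_three
      have h6 : (6 : ℝ) * |ξ 0| ≤ 2 * π * |ξ 0| :=
        mul_le_mul_of_nonneg_right (by linarith) (abs_nonneg _)
      have h7 : (6 : ℝ) * |ξ 1| ≤ 2 * π * |ξ 1| :=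
        mul_le_mul_of_nonneg_right (by linarith) (abs_nonneg _)
      have h8 : (6 : ℝ) * |ξ 2| ≤ 2 * π * |ξ 2| :=
        mul_le_mul_of_nonneg_right (by linarith) (abs_nonneg _)
      linarith [norm_nonneg cc]
    have hcc1 : 1 ≤ ‖cc‖ := by linarith
    have h1 := H cc hcc1
    rw [hex]
    refine h1.trans ?_
    have h2 : (1 + ‖c‖ + ‖ξ‖) / 4 ≤ ‖cc‖ := by linarith
    have h3 : ‖cc‖ ^ (-κ) ≤ ((1 + ‖c‖ + ‖ξ‖) / 4) ^ (-κ) :=
      Real.rpow_le_rpow_of_nonpos (by positivity) h2 (by linarith)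
    have h4 : ((1 + ‖c‖ + ‖ξ‖) / 4) ^ (-κ) ≤ 4 * (1 + ‖c‖ + ‖ξ‖) ^ (-κ) := by
      rw [Real.div_rpow hbase.le (by norm_num), div_eq_mul_inv, mul_comm]
      refine mul_le_mul_of_nonneg_right ?_ hpow.le
      rw [Real.rpow_neg (by norm_num), inv_inv]
      calc (4 : ℝ) ^ κ ≤ 4 ^ (1 : ℝ) := Real.rpow_le_rpow_of_exponent_le (by norm_num) hκ1
        _ = 4 := Real.rpow_one 4
    calc K * ‖cc‖ ^ (-κ) ≤ K * (4 * (1 + ‖c‖ + ‖ξ‖) ^ (-κ)) :=
          mul_le_mul_of_nonneg_left (h3.trans h4) hK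
      _ ≤ (K * 4 + σ * 4) * (1 + ‖c‖ + ‖ξ‖) ^ (-κ) := by
          have : 0 ≤ σ * 4 * (1 + ‖c‖ + ‖ξ‖) ^ (-κ) := by positivity
          linarith
  · rw [hex]
    have h1 : ‖∫ x : S 3, ei (lc (Fin.append φ crd) (Fin.append c (fun j => -(2 * π) * ξ j)) x) ∂sm 3‖ ≤ 1 * σ :=
      norm_integral_le_of_norm_le_const (Filter.Eventually.of_forall fun x => (norm_ei _).le)
    refine h1.trans ?_
    have h2 : (1 : ℝ) ≤ 4 * (1 + ‖c‖ + ‖ξ‖) ^ (-κ) := by
      have h3 : (4 : ℝ) ^ (-κ) ≤ (1 + ‖c‖ + ‖ξ‖) ^ (-κ) :=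
        Real.rpow_le_rpow_of_nonpos hbase (by linarith) (by linarith)
      have h4 : (4 : ℝ)⁻¹ ≤ 4 ^ (-κ) := by
        rw [← Real.rpow_neg_one 4]
        exact Real.rpow_le_rpow_of_exponent_le (by norm_num) (by linarith)
      have h5 := h4.trans h3
      linarith
    have h6 : 0 ≤ σ := by positivity
    calc 1 * σ ≤ (4 * (1 + ‖c‖ + ‖ξ‖) ^ (-κ)) * σ := mul_le_mul_of_nonneg_right h2 h6
      _ ≤ (K * 4 + σ * 4) * (1 + ‖c‖ + ‖ξ‖) ^ (-κ) := by
          have : 0 ≤ K * 4 * (1 + ‖c‖ + ‖ξ‖) ^ (-κ) := by positivity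
          linarith

/-- **Decay of the Fourier transform** for analytic families, uniform in the coefficients. -/
theorem decay_extn_an {d : ℕ} (φ : Fin d → E3 → ℝ)
    (hφ : ∀ i, AnalyticOnNhd ℝ (φ i) (sphere 0 1))
    (hind : ∀ (a : Fin d → ℝ) (ζ : E3) (r : ℝ),
      (∀ x : E3, ‖x‖ = 1 → ∑ j, a j * φ j x + inner ℝ x ζ = r) → a = 0) :
    ∃ K κ : ℝ, 0 ≤ K ∧ 0 < κ ∧ ∀ (c : Fin d → ℝ) (ξ : E3),
      ‖extn (fun x => Complex.exp (((∑ j, c j * φ j x : ℝ) : ℂ) * Complex.I)) ξ‖ ≤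
        K * (1 + ‖c‖ + ‖ξ‖) ^ (-κ) := by
  have hΦa : ∀ i, AnalyticOnNhd ℝ (Fin.append φ crd i) (sphere 0 1) := by
    intro i
    refine Fin.addCases (fun j => ?_) (fun j => ?_) i
    · rw [Fin.append_left]
      exact hφ j
    · rw [Fin.append_right]
      exact analytic_coord j
  obtain ⟨m, K, hm, hK, H⟩ := decay_lc (Fin.append φ crd) hΦa (by
    intro c hc
    rintro ⟨r, hr⟩
    obtain ⟨a, ζ, rfl⟩ := append_split c
    apply hc
    have h1 : a = 0 := hind a (WithLp.toLp 2 ζ) r (fun x hx => by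
      rw [← lc_append]
      exact hr x hx)
    subst h1
    have h2 : ∀ x : E3, ‖x‖ = 1 → inner ℝ x (WithLp.toLp 2 ζ : E3) = (0 : ℝ) := by
      intro x hx
      have h3 := hr x hx
      have h4 := hr (-x) (by rw [norm_neg, hx])
      rw [lc_append] at h3 h4
      simp only [Pi.zero_apply, zero_mul, Finset.sum_const_zero, zero_add, inner_neg_left] at h3 h4
      linarith
    have h5 : ∀ j : Fin 3, ζ j = 0 := by
      intro j
      have h6 := h2 (EuclideanSpace.single j 1) (by simp)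
      rw [EuclideanSpace.inner_single_left] at h6
      simpa using h6
    funext i
    refine Fin.addCases (fun j => ?_) (fun j => ?_) i
    · rw [Fin.append_left]; rfl
    · rw [Fin.append_right]; exact h5 j)
  exact extn_of_lc φ m K hm hK H

end Pool.Agent.VAN
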