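import Pool.Agent.VAN.A
import Pool.Agent.VAN.B12h1
import Pool.Agent.MP_6cbfb8_an.Sphere

/-!
Averaging over rotations and the decay of oscillatory integrals on the sphere.
-/

set_option autoImplicit false

namespace Pool.Agent.VAN

open MeasureTheory Set Metric Pool.Agent.MP_6cbfb8_an
open scoped ENNReal Real

theorem rot_add (a b : E3) (t : ℝ) (x y : E3) :
    rot a b t (x + y) = rot a b t x + rot a b t y := by
  simp only [rot, inner_add_right]
  module

theorem rot_smul (a b : E3) (t r : ℝ) (x : E3) : rot a b t (r • x) = r • rot a b t x := by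
  simp only [rot, inner_smul_right]
  module

/-- the rotation as a linear isometry -/
noncomputable def rotI {a b : E3} (h : OP a b) (t : ℝ) : E3 →ₗᵢ[ℝ] E3 where
  toFun := rot a b t
  map_add' := rot_add a b t
  map_smul' := rot_smul a b t
  norm_map' := norm_rot h t

/-- the rotation as a linear isometry equivalence -/
noncomputable def rotE {a b : E3} (h : OP a b) (t : ℝ) : E3 ≃ₗᵢ[ℝ] E3 :=
  (rotI h t).toLinearIsometryEquiv rfl

theorem rotE_apply {a b : E3} (h : OP a b) (t : ℝ) (x : E3) : rotE h t x = rot a b t x := rfl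

theorem int_isometry (R : E3 ≃ₗᵢ[ℝ] E3) (F : E3 → ℂ) :
    ∫ x : S 3, F (R x) ∂sm 3 = ∫ x : S 3, F x ∂sm 3 := by
  have hme : MeasurableEmbedding (fun x : S 3 => (⟨R x, by simp⟩ : S 3)) := by
    have h1 : Continuous (fun x : S 3 => (⟨R x, by simp⟩ : S 3)) :=
      (R.continuous.comp continuous_subtype_val).subtype_mk _
    refine h1.measurableEmbedding ?_
    intro a b hab
    have : R (a : E 3) = R (b : E 3) := congrArg Subtype.val hab
    exact Subtype.ext (R.injective this)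
  exact (measurePreserving_isometry R).integral_comp hme (fun x : S 3 => F x)

theorem norm_gen_le {a b : E3} (h : OP a b) (y : E3) : ‖gen a b y‖ ≤ ‖y‖ := by
  rw [gen_apply]
  have h1 : ‖inner ℝ a y • b - inner ℝ b y • a‖ ^ 2 = inner ℝ a y ^ 2 + inner ℝ b y ^ 2 := by
    rw [← real_inner_self_eq_norm_sq]
    simp only [inner_sub_left, inner_sub_right, inner_smul_left, inner_smul_right,
      RCLike.conj_to_real, h.aa, h.bb, h.ba, h.2.2]
    ring
  have h2 : 0 ≤ ‖y - inner ℝ a y • a - inner ℝ b y • b‖ ^ 2 := by positivity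
  have h3 : ‖y - inner ℝ a y • a - inner ℝ b y • b‖ ^ 2 =
      ‖y‖ ^ 2 - inner ℝ a y ^ 2 - inner ℝ b y ^ 2 := by
    rw [← real_inner_self_eq_norm_sq, ← real_inner_self_eq_norm_sq]
    simp only [inner_sub_left, inner_sub_right, inner_smul_left, inner_smul_right,
      RCLike.conj_to_real, h.aa, h.bb, h.ba, h.2.2]
    rw [real_inner_comm a y, real_inner_comm b y]
    ring
  have h4 : ‖inner ℝ a y • b - inner ℝ b y • a‖ ^ 2 ≤ ‖y‖ ^ 2 := by
    rw [h1]
    rw [h3] at h2
    linarith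
  exact (sq_le_sq₀ (norm_nonneg _) (norm_nonneg _)).1 h4

theorem norm_rot_sub_le {a b : E3} (h : OP a b) (t : ℝ) (y : E3) :
    ‖rot a b t y - y‖ ≤ |t| * ‖y‖ := by
  have h1 := (convex_univ (𝕜 := ℝ) (E := ℝ)).norm_image_sub_le_of_norm_hasDerivWithin_le
    (f := fun t => rot a b t y) (f' := fun t => gen a b (rot a b t y)) (C := ‖y‖) (x := 0) (y := t)
    (fun s _ => (hasDerivAt_rot h s y).hasDerivWithinAt)
    (fun s _ => (norm_gen_le h _).trans (norm_rot h s y).le) (mem_univ _) (mem_univ _)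
  simp only [rot_zero, sub_zero, Real.norm_eq_abs] at h1
  rw [mul_comm]
  exact h1

theorem continuous_rot (a b : E3) : Continuous fun q : ℝ × E3 => rot a b q.1 q.2 := by
  unfold rot
  fun_prop

theorem inner_unit {x z : E3} (hx : ‖x‖ = 1) (hz : ‖z‖ = 1) :
    dist x z ^ 2 = 2 - 2 * inner ℝ x z := by
  rw [dist_eq_norm, ← real_inner_self_eq_norm_sq]
  simp only [inner_sub_left, inner_sub_right, real_inner_self_eq_norm_sq, hx, hz]
  rw [real_inner_comm x z]
  ring

/-- averaging over the rotations by angles in `[0,T]` -/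
theorem int_avg {a b : E3} (h : OP a b) {T : ℝ} (hT : 0 ≤ T) (F : E3 → ℂ)
    (hF : ContinuousOn F (sphere (0 : E3) 1)) (hb : ∀ x ∈ sphere (0 : E3) 1, ‖F x‖ ≤ 1) :
    (T : ℂ) * ∫ x : S 3, F x ∂sm 3 =
      ∫ x : S 3, (∫ t in (0 : ℝ)..T, F (rot a b t x)) ∂sm 3 := by
  have hcont : Continuous fun q : ℝ × S 3 => F (rot a b q.1 (q.2 : E3)) := by
    have h1 : Continuous fun q : ℝ × S 3 => (⟨rot a b q.1 (q.2 : E3), by
        rw [mem_sphere_zero_iff_norm, norm_rot h]; exact mem_sphere_zero_iff_norm.1 q.2.2⟩ :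
          S 3) := by
      refine Continuous.subtype_mk ?_ _
      exact (continuous_rot a b).comp (continuous_fst.prodMk
        (continuous_subtype_val.comp continuous_snd))
    have h2 : Continuous fun x : S 3 => F x := continuousOn_iff_continuous_domRestrict.1 hF
    exact h2.comp h1
  have hint : Integrable (Function.uncurry fun (t : ℝ) (x : S 3) => F (rot a b t (x : E3)))
      ((volume.restrict (Ioc 0 T)).prod (sm 3)) := by
    refine Integrable.of_bound (C := 1) hcont.aestronglyMeasurable ?_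
    refine Filter.Eventually.of_forall fun q => hb _ ?_
    rw [mem_sphere_zero_iff_norm, norm_rot h]
    exact mem_sphere_zero_iff_norm.1 q.2.2
  have hswap := integral_integral_swap hint
  have e1 : ∀ x : S 3, (∫ t in (0 : ℝ)..T, F (rot a b t x)) =
      ∫ t in Ioc 0 T, F (rot a b t (x : E3)) := fun x => intervalIntegral.integral_of_le hT
  simp_rw [e1]
  rw [← hswap]
  have e2 : ∀ t : ℝ, ∫ x : S 3, F (rot a b t (x : E3)) ∂sm 3 = ∫ x : S 3, F x ∂sm 3 := fun t =>
    int_isometry (rotE h t) F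
  simp_rw [e2]
  rw [setIntegral_const, Measure.real, Real.volume_Ioc, sub_zero, ENNReal.toReal_ofReal hT]
  simp

/-- the bump around `z` -/
noncomputable def bk (s0 : ℝ) (z x : E3) : ℝ := Real.smoothTransition (inner ℝ x z - s0)

theorem bk_nonneg (s0 : ℝ) (z x : E3) : 0 ≤ bk s0 z x := Real.smoothTransition.nonneg _

theorem bk_le_one (s0 : ℝ) (z x : E3) : bk s0 z x ≤ 1 := Real.smoothTransition.le_one _

theorem continuous_bk (s0 : ℝ) : Continuous fun q : E3 × E3 => bk s0 q.1 q.2 := by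
  unfold bk
  exact Real.smoothTransition.continuous.comp (by fun_prop)

theorem deriv_st_bound : ∃ M1 : ℝ, 0 ≤ M1 ∧ ∀ s ∈ Icc (-3 : ℝ) 3,
    |deriv Real.smoothTransition s| ≤ M1 := by
  have hc : Continuous (deriv Real.smoothTransition) :=
    (Real.smoothTransition.contDiff (n := 1)).continuous_deriv le_rfl
  obtain ⟨M, hM⟩ := isCompact_Icc.exists_bound_of_continuousOn (s := Icc (-3 : ℝ) 3)
    hc.continuousOn
  exact ⟨|M|, abs_nonneg _, fun s hs => (hM s hs).trans (le_abs_self _)⟩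

/-- the data needed from one rotation: `f` has the chain of derivatives along all rotations -/
def Chain (f : E3 → ℝ) : Prop := ∀ a b : E3, OP a b → ∀ k : ℕ, ∀ y : E3, ‖y‖ = 1 → ∀ t : ℝ,
  HasDerivAt (fun t => (XX a b)^[k] f (rot a b t y)) ((XX a b)^[k + 1] f (rot a b t y)) t

theorem hasDerivAt_bk_rot {a b : E3} (h : OP a b) (s0 : ℝ) (z y : E3) (t : ℝ) :
    HasDerivAt (fun t => bk s0 z (rot a b t y))
      (deriv Real.smoothTransition (inner ℝ (rot a b t y) z - s0) *
        inner ℝ (gen a b (rot a b t y)) z) t := by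
  unfold bk
  have h1 : HasDerivAt (fun t => inner ℝ (rot a b t y) z - s0)
      (inner ℝ (gen a b (rot a b t y)) z) t := by
    have h2 := (hasDerivAt_rot h t y).inner ℝ (hasDerivAt_const t z)
    simp only [inner_zero_right, zero_add] at h2
    exact h2.sub_const s0
  have h3 : HasDerivAt Real.smoothTransition
      (deriv Real.smoothTransition (inner ℝ (rot a b t y) z - s0))
      (inner ℝ (rot a b t y) z - s0) :=
    ((Real.smoothTransition.contDiff (n := 1)).differentiable one_ne_zero _).hasDerivAt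
  exact h3.comp t h1

/-- the estimate on one orbit -/
theorem orbit_bound {a b : E3} (h : OP a b) {m k : ℕ} (hk : 1 ≤ k) (hkm : k ≤ m) {κ M M1 ρ : ℝ}
    (hκ : 0 < κ) (hκ1 : κ ≤ 1) (hM : 0 ≤ M) (hM1 : 0 ≤ M1) (hρ : 0 < ρ) (hρ1 : ρ ≤ 1)
    (hst : ∀ s ∈ Icc (-3 : ℝ) 3, |deriv Real.smoothTransition s| ≤ M1)
    {f : E3 → ℝ} {L : ℝ} (hL : 1 ≤ L) (hf : Chain f) {z x : E3} (hz : ‖z‖ = 1) (hx : ‖x‖ = 1)
    (hlow : ∀ y : E3, ‖y‖ = 1 → dist y z < ρ → κ * L ≤ |(XX a b)^[k] f y|)
    (hup : ∀ y : E3, ‖y‖ = 1 → |(XX a b)^[2] f y| ≤ M * L) :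
    ‖∫ t in (0 : ℝ)..(ρ / 4), ((bk (1 - ρ ^ 2 / 8) z (rot a b t x) : ℝ) : ℂ) *
      ei (f (rot a b t x))‖ ≤
      ((VC m + M / κ) * κ⁻¹ * (1 + M1)) * L ^ (-(1 / (m : ℝ))) := by
  have hm : 1 ≤ m := hk.trans hkm
  have hC0 : 0 ≤ ((VC m + M / κ) * κ⁻¹ * (1 + M1)) * L ^ (-(1 / (m : ℝ))) := by
    have := VC_pos m
    positivity
  have hdist : ∀ t ∈ Icc (0 : ℝ) (ρ / 4), dist (rot a b t x) x ≤ ρ / 4 := fun t ht => by
    rw [dist_eq_norm]
    refine (norm_rot_sub_le h t x).trans ?_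
    rw [hx, mul_one, abs_of_nonneg ht.1]
    exact ht.2
  rcases le_or_gt (3 * ρ / 4) (dist x z) with hfar | hnear
  · have hzero : ∀ t ∈ Icc (0 : ℝ) (ρ / 4), bk (1 - ρ ^ 2 / 8) z (rot a b t x) = 0 := by
      intro t ht
      have h1 : ρ / 2 ≤ dist (rot a b t x) z := by
        have h2 := dist_triangle x (rot a b t x) z
        have h3 := hdist t ht
        rw [dist_comm] at h3
        linarith
      have h4 := inner_unit ((norm_rot h t x).trans hx) hz
      have h5 : (ρ / 2) ^ 2 ≤ dist (rot a b t x) z ^ 2 :=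
        pow_le_pow_left₀ (by positivity) h1 2
      unfold bk
      apply Real.smoothTransition.zero_of_nonpos
      rw [h4] at h5
      nlinarith
    have e : ∫ t in (0 : ℝ)..(ρ / 4), ((bk (1 - ρ ^ 2 / 8) z (rot a b t x) : ℝ) : ℂ) *
        ei (f (rot a b t x)) = 0 := by
      rw [intervalIntegral.integral_congr (g := fun _ => (0 : ℂ))]
      · simp
      · intro t ht
        rw [uIcc_of_le (by positivity)] at ht
        simp only [hzero t ht, Complex.ofReal_zero, zero_mul]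
    rw [e, norm_zero]
    exact hC0
  · have hin : ∀ t ∈ Icc (0 : ℝ) (ρ / 4), dist (rot a b t x) z < ρ := fun t ht => by
      have h2 := dist_triangle (rot a b t x) x z
      have h3 := hdist t ht
      linarith
    have hcL : 0 < κ * L := by positivity
    have h1 := vdc_amp (m := m) hk hkm (a := 0) (b := ρ / 4) (c := κ * L) (A := M / κ)
      (by positivity) hcL (by positivity)
      (h := fun i t => (XX a b)^[i] f (rot a b t x))
      (fun i t _ => hf a b h i x hx t)
      (fun t ht => hlow _ ((norm_rot h t x).trans hx) (hin t ht))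
      (fun _ t ht => by
        have h3 := hup (rot a b t x) ((norm_rot h t x).trans hx)
        have h4 : M / κ * (κ * L) = M * L := by field_simp
        rw [h4]
        exact h3)
      (ψ := fun t => ((bk (1 - ρ ^ 2 / 8) z (rot a b t x) : ℝ) : ℂ))
      (ψ' := fun t => ((deriv Real.smoothTransition
        (inner ℝ (rot a b t x) z - (1 - ρ ^ 2 / 8)) *
          inner ℝ (gen a b (rot a b t x)) z : ℝ) : ℂ))
      (fun t _ => (hasDerivAt_bk_rot h _ z x t).ofReal_comp)
      (by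
        refine Continuous.continuousOn ?_
        refine Complex.continuous_ofReal.comp ?_
        have hc : Continuous (deriv Real.smoothTransition) :=
          (Real.smoothTransition.contDiff (n := 1)).continuous_deriv le_rfl
        have hr : Continuous fun t : ℝ => rot a b t x :=
          (continuous_rot a b).comp (continuous_id.prodMk continuous_const)
        exact (hc.comp ((hr.inner continuous_const).sub continuous_const)).mul
          (((gen a b).continuous.comp hr).inner continuous_const))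
    refine h1.trans ?_
    have e1 : (VC m + M / κ * (ρ / 4 - 0)) ≤ VC m + M / κ := by
      have : M / κ * (ρ / 4 - 0) ≤ M / κ * 1 :=
        mul_le_mul_of_nonneg_left (by linarith) (by positivity)
      linarith
    have e2 : (κ * L) ^ (-(1 / (k : ℝ))) ≤ κ⁻¹ * L ^ (-(1 / (m : ℝ))) := by
      have hk0 : (0 : ℝ) < k := by exact_mod_cast hk
      have hk1 : (1 : ℝ) ≤ k := by exact_mod_cast hk
      have hkm' : (k : ℝ) ≤ m := by exact_mod_cast hkm
      rw [Real.mul_rpow hκ.le (by linarith)]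
      have h3 : κ ^ (-(1 / (k : ℝ))) ≤ κ⁻¹ := by
        rw [← Real.rpow_neg_one κ]
        refine Real.rpow_le_rpow_of_exponent_ge hκ hκ1 ?_
        have : 1 / (k : ℝ) ≤ 1 := by rw [div_le_one hk0]; exact hk1
        linarith
      have h4 : L ^ (-(1 / (k : ℝ))) ≤ L ^ (-(1 / (m : ℝ))) := by
        refine Real.rpow_le_rpow_of_exponent_le hL ?_
        have : 1 / (m : ℝ) ≤ 1 / (k : ℝ) := one_div_le_one_div_of_le hk0 hkm'
        linarith
      exact mul_le_mul h3 h4 (by positivity) (by positivity)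
    have e3 : ‖(((bk (1 - ρ ^ 2 / 8) z (rot a b (ρ / 4) x) : ℝ)) : ℂ)‖ +
        ∫ t in (0 : ℝ)..(ρ / 4), ‖((deriv Real.smoothTransition
        (inner ℝ (rot a b t x) z - (1 - ρ ^ 2 / 8)) *
          inner ℝ (gen a b (rot a b t x)) z : ℝ) : ℂ)‖ ≤ 1 + M1 := by
      refine add_le_add ?_ ?_
      · rw [Complex.norm_real, Real.norm_eq_abs, abs_of_nonneg (bk_nonneg _ _ _)]
        exact bk_le_one _ _ _
      · have h5 : ‖∫ t in (0 : ℝ)..(ρ / 4), ‖((deriv Real.smoothTransition
            (inner ℝ (rot a b t x) z - (1 - ρ ^ 2 / 8)) *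
            inner ℝ (gen a b (rot a b t x)) z : ℝ) : ℂ)‖‖ ≤ M1 * |ρ / 4 - 0| := by
          apply intervalIntegral.norm_integral_le_of_norm_le_const
          intro t _
          rw [norm_norm, Complex.norm_real, norm_mul, Real.norm_eq_abs, Real.norm_eq_abs]
          have hin1 : |inner ℝ (rot a b t x) z| ≤ 1 := by
            refine (abs_real_inner_le_norm _ _).trans ?_
            rw [norm_rot h, hx, hz, one_mul]
          have hin2 : |inner ℝ (gen a b (rot a b t x)) z| ≤ 1 := by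
            refine (abs_real_inner_le_norm _ _).trans ?_
            rw [hz, mul_one]
            exact (norm_gen_le h _).trans (by rw [norm_rot h, hx])
          have h6 := hst (inner ℝ (rot a b t x) z - (1 - ρ ^ 2 / 8)) (by
            have := abs_le.1 hin1
            constructor <;> nlinarith)
          calc _ ≤ M1 * 1 := mul_le_mul h6 hin2 (abs_nonneg _) hM1
            _ = M1 := mul_one _
        refine (le_abs_self _).trans (h5.trans ?_)
        rw [sub_zero, abs_of_pos (by positivity)]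
        have : ρ / 4 ≤ 1 := by linarith
        nlinarith
    have h0 : 0 ≤ VC m + M / κ := by
      have := VC_pos m
      positivity
    calc _ ≤ (VC m + M / κ) * (κ⁻¹ * L ^ (-(1 / (m : ℝ)))) * (1 + M1) := by
          refine mul_le_mul (mul_le_mul e1 e2 (by positivity) h0) e3 ?_ (by positivity)
          have : 0 ≤ ∫ t in (0 : ℝ)..(ρ / 4), ‖((deriv Real.smoothTransition
            (inner ℝ (rot a b t x) z - (1 - ρ ^ 2 / 8)) *
            inner ℝ (gen a b (rot a b t x)) z : ℝ) : ℂ)‖ :=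
            intervalIntegral.integral_nonneg (by positivity) fun t _ => norm_nonneg _
          positivity
      _ = _ := by ring

theorem continuousOn_of_chain_ei {f : E3 → ℝ} (hf : ContinuousOn f (sphere (0 : E3) 1)) (s0 : ℝ)
    (z : E3) : ContinuousOn (fun x : E3 => ((bk s0 z x : ℝ) : ℂ) * ei (f x))
      (sphere (0 : E3) 1) := by
  refine ContinuousOn.mul ?_ (continuous_ei.comp_continuousOn hf)
  refine (Complex.continuous_ofReal.comp ?_).continuousOn
  exact (continuous_bk s0).comp (continuous_const.prodMk continuous_id)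

theorem norm_bk_ei (s0 : ℝ) (z x : E3) (r : ℝ) : ‖((bk s0 z x : ℝ) : ℂ) * ei r‖ ≤ 1 := by
  rw [norm_mul, norm_ei, mul_one, Complex.norm_real, Real.norm_eq_abs,
    abs_of_nonneg (bk_nonneg _ _ _)]
  exact bk_le_one _ _ _

/-- the estimate on one patch -/
theorem patch_bound {a b : E3} (h : OP a b) {m k : ℕ} (hk : 1 ≤ k) (hkm : k ≤ m) {κ M M1 ρ : ℝ}
    (hκ : 0 < κ) (hκ1 : κ ≤ 1) (hM : 0 ≤ M) (hM1 : 0 ≤ M1) (hρ : 0 < ρ) (hρ1 : ρ ≤ 1)
    (hst : ∀ s ∈ Icc (-3 : ℝ) 3, |deriv Real.smoothTransition s| ≤ M1)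
    {f : E3 → ℝ} {L : ℝ} (hL : 1 ≤ L) (hf : Chain f) (hfc : ContinuousOn f (sphere (0 : E3) 1))
    {z : E3} (hz : ‖z‖ = 1)
    (hlow : ∀ y : E3, ‖y‖ = 1 → dist y z < ρ → κ * L ≤ |(XX a b)^[k] f y|)
    (hup : ∀ y : E3, ‖y‖ = 1 → |(XX a b)^[2] f y| ≤ M * L) :
    ‖∫ x : S 3, ((bk (1 - ρ ^ 2 / 8) z x : ℝ) : ℂ) * ei (f x) ∂sm 3‖ ≤
      4 / ρ * ((((VC m + M / κ) * κ⁻¹ * (1 + M1)) * (sm 3).real univ)) *
        L ^ (-(1 / (m : ℝ))) := by
  have h1 := int_avg h (T := ρ / 4) (by positivity)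
    (fun x => ((bk (1 - ρ ^ 2 / 8) z x : ℝ) : ℂ) * ei (f x))
    (continuousOn_of_chain_ei hfc _ z) (fun x _ => norm_bk_ei _ _ _ _)
  have h2 : ‖∫ x : S 3, (∫ t in (0 : ℝ)..(ρ / 4), ((bk (1 - ρ ^ 2 / 8) z (rot a b t x) : ℝ) : ℂ) *
      ei (f (rot a b t x))) ∂sm 3‖ ≤
      (((VC m + M / κ) * κ⁻¹ * (1 + M1)) * L ^ (-(1 / (m : ℝ)))) * (sm 3).real univ :=
    norm_integral_le_of_norm_le_const (Filter.Eventually.of_forall fun x =>
      orbit_bound h hk hkm hκ hκ1 hM hM1 hρ hρ1 hst hL hf hz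
        (mem_sphere_zero_iff_norm.1 x.2) hlow hup)
  rw [← h1, norm_mul, Complex.norm_real, Real.norm_eq_abs, abs_of_pos (by positivity)] at h2
  have h3 : ‖∫ x : S 3, ((bk (1 - ρ ^ 2 / 8) z x : ℝ) : ℂ) * ei (f x) ∂sm 3‖ =
      4 / ρ * (ρ / 4 * ‖∫ x : S 3, ((bk (1 - ρ ^ 2 / 8) z x : ℝ) : ℂ) * ei (f x) ∂sm 3‖) := by
    field_simp
  rw [h3]
  calc _ ≤ 4 / ρ * ((((VC m + M / κ) * κ⁻¹ * (1 + M1)) * L ^ (-(1 / (m : ℝ)))) *
        (sm 3).real univ) := mul_le_mul_of_nonneg_left h2 (by positivity)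
    _ = _ := by ring

theorem exists_isometry_map {x x' : E3} (hx : ‖x‖ = 1) (hx' : ‖x'‖ = 1) :
    ∃ R : E3 ≃ₗᵢ[ℝ] E3, R x = x' := by
  obtain ⟨b, hb, θ, hθ⟩ := exists_great_circle hx hx'
  exact ⟨rotE hb θ, by rw [rotE_apply, hθ]⟩

theorem bump_mass (s0 : ℝ) (hs0 : s0 < 1) : ∃ B0 : ℝ, 0 < B0 ∧ ∀ x : E3, ‖x‖ = 1 →
    ∫ z : S 3, bk s0 z x ∂sm 3 = B0 := by
  have hinv : ∀ x x' : E3, ‖x‖ = 1 → ‖x'‖ = 1 →
      ∫ z : S 3, bk s0 z x' ∂sm 3 = ∫ z : S 3, bk s0 z x ∂sm 3 := by
    intro x x' hx hx'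
    obtain ⟨R, hR⟩ := exists_isometry_map hx hx'
    have h1 := int_isometry R (fun z => ((bk s0 z x' : ℝ) : ℂ))
    have h2 : ∀ z : S 3, bk s0 (R z) x' = bk s0 z x := fun z => by
      unfold bk
      rw [← hR, R.inner_map_map]
    simp_rw [h2] at h1
    rw [integral_complex_ofReal, integral_complex_ofReal] at h1
    exact_mod_cast h1.symm
  have hint : ∀ x : E3, Integrable (fun z : S 3 => bk s0 z x) (sm 3) := fun x => by
    refine Integrable.of_bound (C := 1) ?_ ?_
    · exact ((continuous_bk s0).comp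
        (continuous_subtype_val.prodMk continuous_const)).aestronglyMeasurable
    · refine Filter.Eventually.of_forall fun z => ?_
      rw [Real.norm_eq_abs, abs_of_nonneg (bk_nonneg _ _ _)]
      exact bk_le_one _ _ _
  obtain ⟨x0, hx0, -⟩ := exists_unit_orth (0 : E3)
  refine ⟨∫ z : S 3, bk s0 z x0 ∂sm 3, ?_, fun x hx => hinv x0 x hx0 hx⟩
  have hc : Continuous fun z : S 3 => bk s0 z x0 :=
    (continuous_bk s0).comp (continuous_subtype_val.prodMk continuous_const)
  refine hc.integral_pos_of_hasCompactSupport_nonneg_nonzero ?_ ?_ (x := ⟨x0, by simpa using hx0⟩) ?_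
  · exact HasCompactSupport.of_compactSpace _
  · exact fun z => bk_nonneg _ _ _
  · unfold bk
    simp only
    apply ne_of_gt
    apply Real.smoothTransition.pos_of_pos
    rw [real_inner_self_eq_norm_sq, hx0]
    linarith

/-- **Decay**, core form: `f` has, near every point, a derivative of order between `1` and `m` along
one of finitely many rotations which is at least `κ L`; the second derivatives are at most
`M L`. -/
theorem decay_core (m : ℕ) (s : Finset (E3 × E3 × ℕ))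
    (hs : ∀ p ∈ s, OP p.1 p.2.1 ∧ 1 ≤ p.2.2 ∧ p.2.2 ≤ m) {δ κ M : ℝ} (hδ : 0 < δ) (hκ : 0 < κ) :
    ∃ C : ℝ, 0 ≤ C ∧ ∀ (f : E3 → ℝ) (L : ℝ), 1 ≤ L → Chain f →
      ContinuousOn f (sphere (0 : E3) 1) →
      (∀ x : E3, ‖x‖ = 1 → ∃ p ∈ s, ∀ y : E3, ‖y‖ = 1 → dist y x < δ →
        κ * L ≤ |(XX p.1 p.2.1)^[p.2.2] f y|) →
      (∀ p ∈ s, ∀ y : E3, ‖y‖ = 1 → |(XX p.1 p.2.1)^[2] f y| ≤ M * L) →
      ‖∫ x : S 3, ei (f x) ∂sm 3‖ ≤ C * L ^ (-(1 / (m : ℝ))) := by
  obtain ⟨M1, hM1, hst⟩ := deriv_st_bound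
  set ρ : ℝ := min δ 1 with hρdef
  have hρ : 0 < ρ := lt_min hδ one_pos
  have hρ1 : ρ ≤ 1 := min_le_right _ _
  have hρδ : ρ ≤ δ := min_le_left _ _
  set κ' : ℝ := min κ 1 with hκdef
  have hκ' : 0 < κ' := lt_min hκ one_pos
  have hκ1 : κ' ≤ 1 := min_le_right _ _
  have hκκ : κ' ≤ κ := min_le_left _ _
  obtain ⟨B0, hB0, hB⟩ := bump_mass (1 - ρ ^ 2 / 8) (by nlinarith [sq_nonneg ρ, hρ])
  set D : ℝ := 4 / ρ * ((((VC m + |M| / κ') * κ'⁻¹ * (1 + M1)) * (sm 3).real univ)) with hD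
  have hD0 : 0 ≤ D := by
    have := VC_pos m
    positivity
  refine ⟨B0⁻¹ * (D * (sm 3).real univ), by positivity, ?_⟩
  intro f L hL hf hfc hlow hup
  have hpatch : ∀ z : S 3, ‖∫ x : S 3, ((bk (1 - ρ ^ 2 / 8) z x : ℝ) : ℂ) * ei (f x) ∂sm 3‖ ≤
      D * L ^ (-(1 / (m : ℝ))) := by
    intro z
    have hz : ‖(z : E3)‖ = 1 := mem_sphere_zero_iff_norm.1 z.2
    obtain ⟨p, hp, hpl⟩ := hlow z hz
    obtain ⟨h1, h2, h3⟩ := hs p hp
    refine patch_bound h1 h2 h3 hκ' hκ1 (abs_nonneg M) hM1 hρ hρ1 hst hL hf hfc hz ?_ ?_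
    · intro y hy hyz
      exact (mul_le_mul_of_nonneg_right hκκ (by linarith)).trans (hpl y hy (hyz.trans_le hρδ))
    · intro y hy
      exact (hup p hp y hy).trans (mul_le_mul_of_nonneg_right (le_abs_self M) (by linarith))
  have hcf : Continuous fun x : S 3 => ei (f x) :=
    continuous_ei.comp (continuousOn_iff_continuous_domRestrict.1 hfc)
  have hint : Integrable (Function.uncurry fun (x z : S 3) =>
      ((bk (1 - ρ ^ 2 / 8) z x : ℝ) : ℂ) * ei (f x)) ((sm 3).prod (sm 3)) := by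
    refine Integrable.of_bound (C := 1) ?_ ?_
    · refine Continuous.aestronglyMeasurable ?_
      refine Continuous.mul ?_ (hcf.comp continuous_fst)
      refine Complex.continuous_ofReal.comp ?_
      exact (continuous_bk _).comp ((continuous_subtype_val.comp continuous_snd).prodMk
        (continuous_subtype_val.comp continuous_fst))
    · exact Filter.Eventually.of_forall fun q => norm_bk_ei _ _ _ _
  have hswap := integral_integral_swap hint
  have e1 : ∀ x : S 3, ∫ z : S 3, ((bk (1 - ρ ^ 2 / 8) z x : ℝ) : ℂ) * ei (f x) ∂sm 3 =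
      (B0 : ℂ) * ei (f x) := fun x => by
    rw [integral_mul_const, integral_complex_ofReal, hB x (mem_sphere_zero_iff_norm.1 x.2)]
  simp_rw [e1] at hswap
  rw [integral_const_mul] at hswap
  have h2 : ‖(B0 : ℂ) * ∫ x : S 3, ei (f x) ∂sm 3‖ ≤
      D * L ^ (-(1 / (m : ℝ))) * (sm 3).real univ := by
    rw [hswap]
    exact norm_integral_le_of_norm_le_const (Filter.Eventually.of_forall hpatch)
  rw [norm_mul, Complex.norm_real, Real.norm_eq_abs, abs_of_pos hB0] at h2
  have h3 : ‖∫ x : S 3, ei (f x) ∂sm 3‖ = B0⁻¹ * (B0 * ‖∫ x : S 3, ei (f x) ∂sm 3‖) := by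
    field_simp
  rw [h3]
  calc _ ≤ B0⁻¹ * (D * L ^ (-(1 / (m : ℝ))) * (sm 3).real univ) :=
        mul_le_mul_of_nonneg_left h2 (by positivity)
    _ = _ := by ring

end Pool.Agent.VAN
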