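import Pool.Agent.MP_6cbfb8_an.Moll
import Pool.Agent.MP_6cbfb8_an.Super
import Pool.Agent.BVA.Defs

/-!
Transfer of pointwise decay to densities with an amplitude of bounded variation.
-/

namespace Pool.Agent.VAN

open MeasureTheory Set Pool.Agent.MP_6cbfb8_an Pool.Agent.BVA
open scoped ENNReal Real RealInnerProductSpace

/-! ### The Gaussian measure on frequency space -/

/-- The density of the Gaussian measure whose Fourier transform is the kernel `ker r`. -/
noncomputable def bvK (n : ℕ) (r : ℝ) (w : E n) : ℝ :=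
  (2 * π / r) ^ ((n : ℝ) / 2) * Real.exp (-(2 * π ^ 2 / r * ‖w‖ ^ 2))

lemma bvK_nonneg {n : ℕ} {r : ℝ} (hr : 0 < r) (w : E n) : 0 ≤ bvK n r w := by
  unfold bvK; positivity

lemma bvK_continuous (n : ℕ) (r : ℝ) : Continuous (bvK n r) := by
  unfold bvK; fun_prop

/-- The Gaussian measure whose Fourier transform is the kernel `ker r`. -/
noncomputable def bvν (n : ℕ) (r : ℝ) : Measure (E n) :=
  (volume : Measure (E n)).withDensity fun w => ENNReal.ofReal (bvK n r w)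

lemma bv_lintegral (n : ℕ) {r : ℝ} (f : E n → ℝ≥0∞) (hf : Measurable f) :
    ∫⁻ w, f w ∂(bvν n r) = ∫⁻ w, ENNReal.ofReal (bvK n r w) * f w := by
  unfold bvν
  rw [lintegral_withDensity_eq_lintegral_mul _ (bvK_continuous n r).measurable.ennreal_ofReal hf]
  rfl

/-- Exponential moments. -/
lemma bv_moment (n : ℕ) {r : ℝ} (hr : 0 < r) :
    ∫⁻ w, ENNReal.ofReal (Real.exp (π ^ 2 / r * ‖w‖ ^ 2)) ∂(bvν n r) =
      ENNReal.ofReal (2 ^ ((n : ℝ) / 2)) := by
  rw [bv_lintegral n _ (by fun_prop)]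
  have h1 : ∀ w : E n, ENNReal.ofReal (bvK n r w) *
      ENNReal.ofReal (Real.exp (π ^ 2 / r * ‖w‖ ^ 2)) =
      ENNReal.ofReal ((2 * π / r) ^ ((n : ℝ) / 2)) *
        ENNReal.ofReal (Real.exp (-(π ^ 2 / r * ‖(0 : E n) - w‖ ^ 2))) := by
    intro w
    unfold bvK
    rw [← ENNReal.ofReal_mul (by positivity), ← ENNReal.ofReal_mul (by positivity), mul_assoc,
      ← Real.exp_add, zero_sub, norm_neg]
    congr 3
    ring
  simp only [h1]
  rw [lintegral_const_mul' _ _ ENNReal.ofReal_ne_top,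
    lintegral_gauss_space n (π ^ 2 / r) (by positivity) 0, ← ENNReal.ofReal_mul (by positivity),
    ← Real.mul_rpow (by positivity) (by positivity)]
  congr 2
  field_simp

lemma bv_finite (n : ℕ) {r : ℝ} (hr : 0 < r) : IsFiniteMeasure (bvν n r) := by
  refine ⟨?_⟩
  have h1 : bvν n r univ ≤ ∫⁻ w, ENNReal.ofReal (Real.exp (π ^ 2 / r * ‖w‖ ^ 2)) ∂(bvν n r) := by
    rw [← lintegral_one]
    refine lintegral_mono fun w => ?_
    rw [← ENNReal.ofReal_one]
    refine ENNReal.ofReal_le_ofReal ?_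
    rw [Real.one_le_exp_iff]
    positivity
  rw [bv_moment n hr] at h1
  exact h1.trans_lt ENNReal.ofReal_lt_top

/-- The Fourier transform of the Gaussian measure. -/
lemma bv_fourier (n : ℕ) {r : ℝ} (hr : 0 < r) (z : E n) :
    ∫ w, Complex.exp (((2 * π * inner ℝ z w : ℝ) : ℂ) * Complex.I) ∂(bvν n r) =
      ((Real.exp (-(r / 2 * ‖z‖ ^ 2)) : ℝ) : ℂ) := by
  unfold bvν
  rw [integral_withDensity_eq_integral_toReal_smul (bvK_continuous n r).measurable.ennreal_ofReal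
    (Filter.Eventually.of_forall fun w => ENNReal.ofReal_lt_top)]
  have hb : 0 < ((2 * π ^ 2 / r : ℝ) : ℂ).re := by
    rw [Complex.ofReal_re]; positivity
  have h := GaussianFourier.integral_cexp_neg_mul_sq_norm_add (V := E n) hb
    (2 * π * Complex.I) z
  have h1 : ∀ w : E n, (ENNReal.ofReal (bvK n r w)).toReal •
      Complex.exp (((2 * π * inner ℝ z w : ℝ) : ℂ) * Complex.I) =
      (((2 * π / r) ^ ((n : ℝ) / 2) : ℝ) : ℂ) *
        Complex.exp (-((2 * π ^ 2 / r : ℝ) : ℂ) * ‖w‖ ^ 2 + 2 * π * Complex.I * inner ℝ z w) := by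
    intro w
    rw [ENNReal.toReal_ofReal (bvK_nonneg hr w)]
    unfold bvK
    rw [Complex.real_smul]
    push_cast
    rw [mul_assoc, ← Complex.exp_add]
    congr 2
    ring
  simp only [h1]
  rw [integral_const_mul, h]
  have h2 : ((π : ℂ) / ((2 * π ^ 2 / r : ℝ) : ℂ)) ^ ((Module.finrank ℝ (E n) : ℂ) / 2) =
      (((r / (2 * π)) ^ ((n : ℝ) / 2) : ℝ) : ℂ) := by
    rw [finrank_euclideanSpace_fin, Complex.ofReal_cpow (by positivity)]
    congr 1
    · push_cast
      have : (π : ℂ) ≠ 0 := by exact_mod_cast Real.pi_ne_zero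
      have hr' : (r : ℂ) ≠ 0 := by exact_mod_cast hr.ne'
      field_simp
    · push_cast
      ring
  rw [h2, ← mul_assoc, ← Complex.ofReal_mul, ← Real.mul_rpow (by positivity) (by positivity)]
  have h3 : 2 * π / r * (r / (2 * π)) = 1 := by field_simp
  rw [h3, Real.one_rpow, Complex.ofReal_one, one_mul]
  push_cast
  congr 1
  have : (π : ℂ) ≠ 0 := by exact_mod_cast Real.pi_ne_zero
  have hr' : (r : ℂ) ≠ 0 := by exact_mod_cast hr.ne'
  have hI : Complex.I ^ 2 = -1 := Complex.I_sq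
  field_simp
  rw [hI]
  ring

/-- `1 + |w|` is dominated by the exponential moment. -/
lemma bv_one_add_le {r : ℝ} (hr : 1 ≤ r) (t : ℝ) :
    1 + t ≤ 2 * Real.sqrt r * Real.exp (π ^ 2 / r * t ^ 2) := by
  have hr0 : 0 < r := by linarith
  have hs1 : 1 ≤ Real.sqrt r := Real.one_le_sqrt.2 hr
  have hs0 : 0 < Real.sqrt r := by linarith
  have h1 : t ^ 2 / r ≤ π ^ 2 / r * t ^ 2 := by
    have hpi : 1 ≤ π ^ 2 := by nlinarith [Real.pi_gt_three]
    rw [div_mul_eq_mul_div, div_le_div_iff_of_pos_right hr0]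
    nlinarith [sq_nonneg t]
  have h2 : 1 + t ^ 2 / r ≤ Real.exp (π ^ 2 / r * t ^ 2) := by
    have := Real.add_one_le_exp (π ^ 2 / r * t ^ 2)
    linarith
  have h3 : t / Real.sqrt r ≤ 1 + t ^ 2 / r := by
    have h4 : t ^ 2 / r = (t / Real.sqrt r) ^ 2 := by
      rw [div_pow, Real.sq_sqrt hr0.le]
    rw [h4]
    nlinarith [sq_nonneg (t / Real.sqrt r - 1), sq_nonneg (t / Real.sqrt r)]
  have h5 : t ≤ Real.sqrt r * (1 + t ^ 2 / r) := by
    calc t = Real.sqrt r * (t / Real.sqrt r) := by field_simp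
      _ ≤ _ := by gcongr
  have h6 : (1:ℝ) ≤ Real.sqrt r * (1 + t ^ 2 / r) := by
    have : 0 ≤ t ^ 2 / r := by positivity
    nlinarith
  calc 1 + t ≤ 2 * Real.sqrt r * (1 + t ^ 2 / r) := by linarith
    _ ≤ _ := by gcongr

/-- Decay is stable under multiplication by a Gaussian bump. -/
lemma bv_ker_decay {n : ℕ} (h : E n → ℂ) (hm : Measurable h) (hb : ∀ x, ‖h x‖ ≤ 1) {A δ Λ : ℝ}
    (hA : 0 ≤ A) (hδ : 0 ≤ δ) (hδ1 : δ ≤ 1) (hΛ : 1 ≤ Λ)
    (hd : ∀ ξ, ‖extn h ξ‖ ≤ A * (Λ + ‖ξ‖) ^ (-δ)) {r : ℝ} (hr : 1 ≤ r) (y ξ : E n) :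
    ‖extn (fun x => ((ker r x y : ℝ) : ℂ) * h x) ξ‖ ≤
      2 ^ ((n : ℝ) / 2 + 1) * A * Real.sqrt r * (Λ + ‖ξ‖) ^ (-δ) := by
  have hr0 : 0 < r := by linarith
  have := bv_finite n hr0
  set hh : E n → E n → ℂ := fun w x =>
    Complex.exp (((-(2 * π * inner ℝ y w) : ℝ) : ℂ) * Complex.I) * h x with hhdef
  have e1 : (fun x => ((ker r x y : ℝ) : ℂ) * h x) =
      mix (bvν n r) (fun _ => LinearIsometryEquiv.refl ℝ (E n)) (fun w => w) hh := by
    funext x
    unfold mix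
    have h1 : ∀ w : E n, Complex.exp (((2 * π * inner ℝ x w : ℝ) : ℂ) * Complex.I) *
        hh w ((LinearIsometryEquiv.refl ℝ (E n)) x) =
        Complex.exp (((2 * π * inner ℝ (x - y) w : ℝ) : ℂ) * Complex.I) * h x := by
      intro w
      rw [hhdef]
      simp only [LinearIsometryEquiv.coe_refl, id]
      rw [← mul_assoc, ← Complex.exp_add]
      congr 2
      rw [inner_sub_left]
      push_cast
      ring
    simp only [h1]
    rw [integral_mul_const, bv_fourier n hr0]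
    rfl
  have hmh : Measurable (Function.uncurry hh) := by
    rw [hhdef]
    refine Measurable.mul ?_ (hm.comp measurable_snd)
    fun_prop
  have hbh : ∀ w x, ‖hh w x‖ ≤ 1 := by
    intro w x
    rw [hhdef]
    simp only
    rw [norm_mul, norm_phase, one_mul]
    exact hb x
  rw [e1, extn_mix (bvν n r) (fun _ => LinearIsometryEquiv.refl ℝ (E n)) (fun w => w) hh
    (by simpa using measurable_snd) measurable_id hmh hbh ξ]
  have h2 : ∀ w, ‖extn (hh w) ((LinearIsometryEquiv.refl ℝ (E n)) (ξ - w))‖ =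
      ‖extn h (ξ - w)‖ := by
    intro w
    have : extn (hh w) (ξ - w) =
        Complex.exp (((-(2 * π * inner ℝ y w) : ℝ) : ℂ) * Complex.I) * extn h (ξ - w) := by
      unfold extn
      rw [← integral_const_mul]
      congr 1
      funext x
      rw [hhdef]
      ring
    simp only [LinearIsometryEquiv.coe_refl, id]
    rw [this, norm_mul, norm_phase, one_mul]
  have hξ : 0 < Λ + ‖ξ‖ := by positivity
  have h3 : ∀ w : E n, ‖extn h (ξ - w)‖ ≤
      A * (Λ + ‖ξ‖) ^ (-δ) * (2 * Real.sqrt r * Real.exp (π ^ 2 / r * ‖w‖ ^ 2)) := by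
    intro w
    refine (hd _).trans ?_
    rw [mul_assoc]
    refine mul_le_mul_of_nonneg_left ?_ hA
    refine le_trans ?_ (mul_le_mul_of_nonneg_left (bv_one_add_le hr ‖w‖)
      (by positivity))
    have h4 : Λ + ‖ξ‖ ≤ (Λ + ‖ξ - w‖) * (1 + ‖w‖) := by
      have h5 : ‖ξ‖ ≤ ‖ξ - w‖ + ‖w‖ := by
        simpa using norm_add_le (ξ - w) w
      have h6 := norm_nonneg w
      have h7 := norm_nonneg (ξ - w)
      nlinarith [mul_nonneg (by linarith : (0:ℝ) ≤ Λ - 1) h6, mul_nonneg h7 h6]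
    have h8 : 0 < Λ + ‖ξ - w‖ := by positivity
    have h9 : (Λ + ‖ξ‖) ^ δ ≤ (Λ + ‖ξ - w‖) ^ δ * (1 + ‖w‖) := by
      calc (Λ + ‖ξ‖) ^ δ ≤ ((Λ + ‖ξ - w‖) * (1 + ‖w‖)) ^ δ :=
            Real.rpow_le_rpow hξ.le h4 hδ
        _ = (Λ + ‖ξ - w‖) ^ δ * (1 + ‖w‖) ^ δ := Real.mul_rpow h8.le (by positivity)
        _ ≤ (Λ + ‖ξ - w‖) ^ δ * (1 + ‖w‖) ^ (1:ℝ) := by
            gcongr
            · linarith [norm_nonneg w]
        _ = _ := by rw [Real.rpow_one]
    have h10 : 0 < (Λ + ‖ξ‖) ^ δ := Real.rpow_pos_of_pos hξ _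
    have h11 : 0 < (Λ + ‖ξ - w‖) ^ δ := Real.rpow_pos_of_pos h8 _
    rw [Real.rpow_neg h8.le, Real.rpow_neg hξ.le, inv_mul_eq_div, inv_eq_one_div,
      div_le_div_iff₀ h11 h10, one_mul, mul_comm]
    exact h9
  have h12 : ‖∫ w, extn (hh w) ((LinearIsometryEquiv.refl ℝ (E n)) (ξ - w)) ∂(bvν n r)‖ₑ ≤
      ENNReal.ofReal (2 ^ ((n : ℝ) / 2 + 1) * A * Real.sqrt r * (Λ + ‖ξ‖) ^ (-δ)) := by
    refine (enorm_integral_le_lintegral_enorm _).trans ?_
    calc ∫⁻ w, ‖extn (hh w) ((LinearIsometryEquiv.refl ℝ (E n)) (ξ - w))‖ₑ ∂(bvν n r)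
        ≤ ∫⁻ w, ENNReal.ofReal (A * (Λ + ‖ξ‖) ^ (-δ) * (2 * Real.sqrt r)) *
            ENNReal.ofReal (Real.exp (π ^ 2 / r * ‖w‖ ^ 2)) ∂(bvν n r) := by
          refine lintegral_mono fun w => ?_
          rw [← ofReal_norm, h2 w, ← ENNReal.ofReal_mul (by positivity)]
          refine ENNReal.ofReal_le_ofReal ((h3 w).trans (le_of_eq ?_))
          ring
      _ = ENNReal.ofReal (A * (Λ + ‖ξ‖) ^ (-δ) * (2 * Real.sqrt r)) *
            ENNReal.ofReal (2 ^ ((n : ℝ) / 2)) := by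
          rw [lintegral_const_mul' _ _ ENNReal.ofReal_ne_top, bv_moment n hr0]
      _ = _ := by
          rw [← ENNReal.ofReal_mul (by positivity)]
          congr 1
          rw [Real.rpow_add (by norm_num), Real.rpow_one]
          ring
  rw [← ofReal_norm] at h12
  exact (ENNReal.ofReal_le_ofReal_iff (by positivity)).1 h12


/-! ### Approximation in the mean -/

lemma bv_dyadic (t : ℝ) : ∃ k : ℕ, t ≤ 2 ^ k ∧
    Real.exp (-(t ^ 2 / 2)) ≤ 128 * (1 / 16) ^ k := by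
  classical
  have hex : ∃ k : ℕ, t ≤ 2 ^ k := by
    obtain ⟨k, hk⟩ := pow_unbounded_of_one_lt t (one_lt_two : (1:ℝ) < 2)
    exact ⟨k, hk.le⟩
  refine ⟨Nat.find hex, Nat.find_spec hex, ?_⟩
  rcases Nat.eq_zero_or_pos (Nat.find hex) with h0 | h0
  · rw [h0, pow_zero]
    have : Real.exp (-(t ^ 2 / 2)) ≤ 1 := by
      rw [Real.exp_le_one_iff]
      nlinarith [sq_nonneg t]
    linarith
  · obtain ⟨k, hk⟩ : ∃ k, Nat.find hex = k + 1 := ⟨Nat.find hex - 1, by omega⟩
    have h1 : 2 ^ k < t := by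
      have := Nat.find_min hex (m := k) (by omega)
      exact not_le.1 this
    rw [hk]
    have h2 : (0:ℝ) < 2 ^ k := by positivity
    have ht0 : 0 < t := h2.trans h1
    have h3 : t ^ 4 / 8 ≤ Real.exp (t ^ 2 / 2) := by
      have := Real.quadratic_le_exp_of_nonneg (x := t ^ 2 / 2) (by positivity)
      nlinarith [sq_nonneg t]
    have h4 : (2 ^ k : ℝ) ^ 4 ≤ t ^ 4 := by gcongr
    have h5 : (16 : ℝ) ^ k = (2 ^ k) ^ 4 := by
      rw [← pow_mul, mul_comm, pow_mul]; norm_num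
    rw [Real.exp_neg, pow_succ, one_div_pow]
    have h6 : 0 < t ^ 4 / 8 := by positivity
    calc (Real.exp (t ^ 2 / 2))⁻¹ ≤ (t ^ 4 / 8)⁻¹ := by gcongr
      _ ≤ ((2 ^ k : ℝ) ^ 4 / 8)⁻¹ := by gcongr
      _ = _ := by
        rw [← h5]
        field_simp
        ring

lemma bv_double {s V : ℝ} (hs1 : s ≤ 1) (hV : 0 ≤ V) {a : E 3 → ℂ}
    (ha : Measurable a) (hB : BVar s V a) {r : ℝ} (hr : 1 ≤ r) :
    ∫⁻ x : S 3, (∫⁻ y : S 3, ENNReal.ofReal (ker r (x : E 3) (y : E 3)) * ‖a x - a y‖ₑ ∂(sm 3))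
      ∂(sm 3) ≤ ENNReal.ofReal (256 * V * r ^ (-((2 + s) / 2))) := by
  have hr0 : 0 < r := by linarith
  have hsr : 0 < Real.sqrt r := Real.sqrt_pos.2 hr0
  set ρ : ℕ → ℝ := fun k => 2 ^ k / Real.sqrt r with hρ
  set c : ℕ → ℝ := fun k => 128 * (1 / 16) ^ k with hc
  set I : ℕ → S 3 × S 3 → ℝ≥0∞ := fun k q =>
    ({q : S 3 × S 3 | dist q.2 q.1 ≤ ρ k}).indicator (fun q => ‖a q.1 - a q.2‖ₑ) q with hI
  have hIm : ∀ k, Measurable (I k) := by
    intro k
    have h1 : Measurable fun q : S 3 × S 3 => ‖a (q.1 : E 3) - a (q.2 : E 3)‖ₑ :=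
      ((ha.comp (measurable_subtype_coe.comp measurable_fst)).sub
        (ha.comp (measurable_subtype_coe.comp measurable_snd))).enorm
    refine h1.indicator ?_
    exact measurableSet_le (by fun_prop) measurable_const
  have hpt : ∀ x y : S 3, ENNReal.ofReal (ker r (x : E 3) (y : E 3)) * ‖a x - a y‖ₑ ≤
      ∑' k, ENNReal.ofReal (c k) * I k (x, y) := by
    intro x y
    obtain ⟨k, hk, hk2⟩ := bv_dyadic (Real.sqrt r * ‖(x : E 3) - y‖)
    refine le_trans ?_ (ENNReal.le_tsum k)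
    have h1 : dist y x ≤ ρ k := by
      rw [hρ]
      simp only
      rw [le_div_iff₀ hsr, mul_comm, dist_comm, Subtype.dist_eq, dist_eq_norm]
      exact hk
    have h2 : I k (x, y) = ‖a x - a y‖ₑ := by
      rw [hI]
      simp only
      rw [indicator_of_mem]
      exact h1
    rw [h2]
    gcongr
    refine le_trans (le_of_eq ?_) hk2
    unfold ker
    congr 1
    rw [mul_pow, Real.sq_sqrt hr0.le]
    ring
  calc ∫⁻ x : S 3, (∫⁻ y : S 3, ENNReal.ofReal (ker r (x : E 3) (y : E 3)) * ‖a x - a y‖ₑ ∂(sm 3))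
        ∂(sm 3)
      ≤ ∫⁻ x : S 3, (∫⁻ y : S 3, ∑' k, ENNReal.ofReal (c k) * I k (x, y) ∂(sm 3)) ∂(sm 3) :=
        lintegral_mono fun x => lintegral_mono fun y => hpt x y
    _ = ∫⁻ x : S 3, ∑' k, ENNReal.ofReal (c k) * ∫⁻ y : S 3, I k (x, y) ∂(sm 3) ∂(sm 3) := by
        refine lintegral_congr fun x => ?_
        rw [lintegral_tsum]
        · refine tsum_congr fun k => ?_
          rw [lintegral_const_mul' _ _ ENNReal.ofReal_ne_top]
        · intro k
          exact (((hIm k).comp (measurable_const.prodMk measurable_id)).const_mul _).aemeasurable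
    _ = ∑' k, ENNReal.ofReal (c k) * ∫⁻ x : S 3, ∫⁻ y : S 3, I k (x, y) ∂(sm 3) ∂(sm 3) := by
        rw [lintegral_tsum]
        · refine tsum_congr fun k => ?_
          rw [lintegral_const_mul' _ _ ENNReal.ofReal_ne_top]
        · intro k
          exact (((hIm k).lintegral_prod_right').const_mul _).aemeasurable
    _ ≤ ∑' k : ℕ, ENNReal.ofReal (128 * V * r ^ (-((2 + s) / 2)) * (1 / 2) ^ k) := by
        refine ENNReal.tsum_le_tsum fun k => ?_
        have h1 : ∫⁻ x : S 3, ∫⁻ y : S 3, I k (x, y) ∂(sm 3) ∂(sm 3) ≤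
            ENNReal.ofReal (V * ρ k ^ (2 + s)) := by
          refine le_trans (le_of_eq ?_) (hB (ρ k) (by rw [hρ]; positivity))
          refine lintegral_congr fun x => ?_
          rw [← lintegral_indicator Metric.isClosed_closedBall.measurableSet]
          refine lintegral_congr fun y => ?_
          rw [hI]
          simp only [indicator, mem_ofPred_eq, Metric.mem_closedBall]
        refine (mul_le_mul_right h1 _).trans ?_
        rw [← ENNReal.ofReal_mul (by rw [hc]; positivity)]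
        refine ENNReal.ofReal_le_ofReal ?_
        rw [hρ, hc]
        simp only
        have h2 : (2 ^ k / Real.sqrt r) ^ (2 + s) ≤ 8 ^ k * r ^ (-((2 + s) / 2)) := by
          rw [Real.div_rpow (by positivity) hsr.le, Real.sqrt_eq_rpow, ← Real.rpow_mul hr0.le,
            div_eq_mul_inv, ← Real.rpow_neg hr0.le]
          have e1 : -(1 / 2 * (2 + s)) = -((2 + s) / 2) := by ring
          rw [e1]
          refine mul_le_mul_of_nonneg_right ?_ (by positivity)
          calc ((2:ℝ) ^ k) ^ (2 + s) ≤ ((2:ℝ) ^ k) ^ (3:ℝ) := by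
                refine Real.rpow_le_rpow_of_exponent_le (one_le_pow₀ (by norm_num)) (by linarith)
            _ = 8 ^ k := by
                rw [← Real.rpow_natCast 2 k, ← Real.rpow_mul (by norm_num), mul_comm,
                  Real.rpow_mul (by norm_num), Real.rpow_natCast]
                norm_num
        calc 128 * (1 / 16) ^ k * (V * (2 ^ k / Real.sqrt r) ^ (2 + s))
            ≤ 128 * (1 / 16) ^ k * (V * (8 ^ k * r ^ (-((2 + s) / 2)))) := by gcongr
          _ = 128 * V * r ^ (-((2 + s) / 2)) * ((1 / 16) ^ k * 8 ^ k) := by ring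
          _ = _ := by
              rw [← mul_pow]
              norm_num
    _ = ENNReal.ofReal (256 * V * r ^ (-((2 + s) / 2))) := by
        have hr2 : 0 ≤ r ^ (-((2 + s) / 2)) := by positivity
        rw [← ENNReal.ofReal_tsum_of_nonneg (fun k => by positivity)
          ((summable_geometric_two).mul_left _), tsum_mul_left, tsum_geometric_two]
        congr 1
        ring


lemma bv_sub_moll_le {r : ℝ} (a : E 3 → ℂ) (ha : Measurable a) (hb : ∀ x, ‖a x‖ ≤ 1) (x : E 3) :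
    ‖a x - moll r a x‖ₑ ≤
      (ENNReal.ofReal (kerMass r x))⁻¹ *
        ∫⁻ y : S 3, ENNReal.ofReal (ker r x (y : E 3)) * ‖a x - a y‖ₑ ∂(sm 3) := by
  have hpos : 0 < kerMass r x := kerMass_pos (j := 1) r x
  have haS : Measurable (fun y : S 3 => a (y : E 3)) := ha.comp measurable_subtype_coe
  have hkS : Measurable (fun y : S 3 => ker r x (y : E 3)) := (ker_continuous r x).measurable
  have hint : Integrable (fun y : S 3 => ((ker r x (y : E 3) : ℝ) : ℂ) * a y) (sm 3) := by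
    refine (ker_integrable r x).mono' ((Complex.measurable_ofReal.comp hkS).mul haS).aestronglyMeasurable ?_
    refine Filter.Eventually.of_forall fun y => ?_
    rw [norm_mul, Complex.norm_real, Real.norm_of_nonneg (ker_pos r x y).le]
    exact mul_le_of_le_one_right (ker_pos r x y).le (hb _)
  have hint2 : Integrable (fun y : S 3 => ((ker r x (y : E 3) : ℝ) : ℂ) * a x) (sm 3) :=
    (ker_integrable r x).ofReal.mul_const (a x)
  have h1 : a x - moll r a x =
      (∫ y : S 3, ((ker r x (y : E 3) : ℝ) : ℂ) * (a x - a y) ∂(sm 3)) /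
        ((kerMass r x : ℝ) : ℂ) := by
    unfold moll
    have hne : ((kerMass r x : ℝ) : ℂ) ≠ 0 := by exact_mod_cast hpos.ne'
    rw [eq_div_iff hne, sub_mul, div_mul_cancel₀ _ hne]
    simp only [mul_sub]
    rw [integral_sub hint2 hint, integral_mul_const]
    congr 1
    rw [mul_comm]
    congr 1
    unfold kerMass
    exact integral_ofReal.symm
  have h2 : ‖a x - moll r a x‖ₑ = ‖∫ y : S 3, ((ker r x (y : E 3) : ℝ) : ℂ) * (a x - a y) ∂(sm 3)‖ₑ
      / ENNReal.ofReal (kerMass r x) := by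
    rw [h1, ← ofReal_norm, ← ofReal_norm, norm_div, Complex.norm_real, Real.norm_of_nonneg hpos.le,
      ENNReal.ofReal_div_of_pos hpos]
  have h3 : ‖∫ y : S 3, ((ker r x (y : E 3) : ℝ) : ℂ) * (a x - a y) ∂(sm 3)‖ₑ ≤
      ∫⁻ y : S 3, ENNReal.ofReal (ker r x (y : E 3)) * ‖a x - a y‖ₑ ∂(sm 3) := by
    refine (enorm_integral_le_lintegral_enorm _).trans (le_of_eq ?_)
    refine lintegral_congr fun y => ?_
    rw [enorm_mul]
    congr 1
    rw [← ofReal_norm, Complex.norm_real, Real.norm_of_nonneg (ker_pos r x y).le]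
  rw [h2, ENNReal.div_eq_inv_mul]
  gcongr

/-- Mean distance of `a` to its mollification. -/
theorem bv_L1 : ∃ C : ℝ, 0 < C ∧ ∀ (s V : ℝ), s ≤ 1 → 0 ≤ V → ∀ a : E 3 → ℂ, Measurable a →
    (∀ x, ‖a x‖ ≤ 1) → BVar s V a → ∀ r : ℝ, 1 ≤ r →
    ∫⁻ x : S 3, ‖a x - moll r a x‖ₑ ∂(sm 3) ≤ ENNReal.ofReal (C * V * r ^ (-(s / 2))) := by
  obtain ⟨c, hc, hmass⟩ := kerMass_ge 1
  refine ⟨256 / c, by positivity, fun s V hs hV a ha hb hB r hr => ?_⟩
  have hr0 : 0 < r := by linarith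
  have hm : ∀ x : S 3, (ENNReal.ofReal (kerMass r (x : E 3)))⁻¹ ≤ ENNReal.ofReal (r / c) := by
    intro x
    have h1 : c * r ^ (-(((1:ℕ):ℝ) + 1) / 2) ≤ kerMass r (x : E 3) := by
      have := hmass r hr x
      rwa [neg_div]
    have e1 : -(((1:ℕ):ℝ) + 1) / 2 = (-1:ℝ) := by norm_num
    rw [e1, Real.rpow_neg_one] at h1
    have h2 : (kerMass r (x : E 3))⁻¹ ≤ r / c := by
      calc (kerMass r (x : E 3))⁻¹ ≤ (c * r⁻¹)⁻¹ := by gcongr
        _ = _ := by field_simp
    rw [← ENNReal.ofReal_inv_of_pos (kerMass_pos (j := 1) r (x : E 3))]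
    exact ENNReal.ofReal_le_ofReal h2
  calc ∫⁻ x : S 3, ‖a x - moll r a x‖ₑ ∂(sm 3)
      ≤ ∫⁻ x : S 3, ENNReal.ofReal (r / c) * (∫⁻ y : S 3,
          ENNReal.ofReal (ker r (x : E 3) (y : E 3)) * ‖a x - a y‖ₑ ∂(sm 3)) ∂(sm 3) := by
        refine lintegral_mono fun x => (bv_sub_moll_le a ha hb (x : E 3)).trans ?_
        gcongr
        exact hm x
    _ = ENNReal.ofReal (r / c) * ∫⁻ x : S 3, (∫⁻ y : S 3,
          ENNReal.ofReal (ker r (x : E 3) (y : E 3)) * ‖a x - a y‖ₑ ∂(sm 3)) ∂(sm 3) :=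
        lintegral_const_mul' _ _ ENNReal.ofReal_ne_top
    _ ≤ ENNReal.ofReal (r / c) * ENNReal.ofReal (256 * V * r ^ (-((2 + s) / 2))) := by
        gcongr
        exact bv_double hs hV ha hB hr
    _ = _ := by
        rw [← ENNReal.ofReal_mul (by positivity)]
        congr 1
        have e2 : r ^ (-(s / 2)) = r * r ^ (-((2 + s) / 2)) := by
          nth_rewrite 2 [← Real.rpow_one r]
          rw [← Real.rpow_add hr0]
          congr 1
          ring
        rw [e2]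
        ring

/-- The mollified amplitude preserves decay. -/
theorem bv_moll_decay : ∃ C : ℝ, 0 < C ∧ ∀ (a h : E 3 → ℂ), Measurable a → Measurable h →
    (∀ x, ‖a x‖ ≤ 1) → (∀ x, ‖h x‖ ≤ 1) → ∀ A δ Λ : ℝ, 0 ≤ A → 0 ≤ δ → δ ≤ 1 → 1 ≤ Λ →
    (∀ ξ, ‖extn h ξ‖ ≤ A * (Λ + ‖ξ‖) ^ (-δ)) → ∀ r : ℝ, 1 ≤ r → ∀ ξ,
    ‖extn (fun x => moll r a x * h x) ξ‖ ≤ C * A * r ^ ((3:ℝ) / 2) * (Λ + ‖ξ‖) ^ (-δ) := by
  obtain ⟨c, hc, hmass⟩ := kerMass_ge 1
  set σ : ℝ := (sm 3).real univ with hσ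
  refine ⟨(1 / c) * (σ + 1) * 2 ^ (((3:ℕ) : ℝ) / 2 + 1), by positivity, ?_⟩
  intro a h ha hm hab hb A δ Λ hA hδ hδ1 hΛ hd r hr ξ
  have hr0 : 0 < r := by linarith
  have hξ : 0 < Λ + ‖ξ‖ := by positivity
  -- the mass is the same everywhere
  obtain ⟨x0⟩ : Nonempty (S 3) := by
    refine ⟨⟨EuclideanSpace.single 0 1, ?_⟩⟩
    simp
  set m : ℝ := kerMass r (x0 : E 3) with hmdef
  have hm0 : 0 < m := kerMass_pos (j := 1) r (x0 : E 3)
  have hmr : m⁻¹ ≤ r / c := by
    have h1 : c * r ^ (-(((1:ℕ):ℝ) + 1) / 2) ≤ kerMass r (x0 : E 3) := by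
      have := hmass r hr x0
      rwa [neg_div]
    have e1 : -(((1:ℕ):ℝ) + 1) / 2 = (-1:ℝ) := by norm_num
    rw [e1, Real.rpow_neg_one] at h1
    calc m⁻¹ ≤ (c * r⁻¹)⁻¹ := by gcongr
      _ = _ := by field_simp
  set hh : S 3 → E 3 → ℂ := fun y x => ((ker r x (y : E 3) : ℝ) : ℂ) * (a y * h x) with hhdef
  have hker1 : ∀ x y : E 3, ‖((ker r x y : ℝ) : ℂ)‖ ≤ 1 := by
    intro x y
    rw [Complex.norm_real, Real.norm_of_nonneg (ker_pos r x y).le]
    unfold ker
    rw [Real.exp_le_one_iff]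
    have : 0 ≤ r / 2 * ‖x - y‖ ^ 2 := by positivity
    linarith
  have e1 : extn (fun x => moll r a x * h x) ξ =
      ((m⁻¹ : ℝ) : ℂ) * extn (mix (sm 3) (fun _ => LinearIsometryEquiv.refl ℝ (E 3))
        (fun _ => 0) hh) ξ := by
    unfold extn
    rw [← integral_const_mul]
    refine integral_congr_ae (Filter.Eventually.of_forall fun x => ?_)
    simp only
    rw [← mul_assoc]
    congr 1
    unfold moll mix
    have e2 : kerMass r (x : E 3) = m := kerMass_eq r x x0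
    rw [e2]
    simp only [inner_zero_right, mul_zero, Complex.ofReal_zero, zero_mul, Complex.exp_zero,
      one_mul, LinearIsometryEquiv.coe_refl, id, hhdef]
    have e3 : ∀ y : S 3, ((ker r (x : E 3) (y : E 3) : ℝ) : ℂ) * (a y * h x) =
        ((ker r (x : E 3) (y : E 3) : ℝ) : ℂ) * a y * h x := fun y => by ring
    simp only [e3]
    rw [integral_mul_const]
    push_cast
    ring
  have hmh : Measurable (Function.uncurry hh) := by
    rw [hhdef]
    refine Measurable.mul ?_ (Measurable.mul ?_ (hm.comp measurable_snd))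
    · have h1 : Continuous fun q : S 3 × E 3 => ker r q.2 (q.1 : E 3) := by
        unfold ker
        fun_prop
      exact Complex.measurable_ofReal.comp h1.measurable
    · exact ha.comp (measurable_subtype_coe.comp measurable_fst)
  have hbh : ∀ w x, ‖hh w x‖ ≤ 1 := by
    intro w x
    rw [hhdef]
    simp only
    rw [norm_mul, norm_mul]
    exact mul_le_one₀ (hker1 _ _) (by positivity) (mul_le_one₀ (hab _) (norm_nonneg _) (hb _))
  have e4 : ∀ y : S 3, extn (hh y) ξ = a y * extn (fun x => ((ker r x (y : E 3) : ℝ) : ℂ) * h x) ξ := by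
    intro y
    unfold extn
    rw [← integral_const_mul]
    refine integral_congr_ae (Filter.Eventually.of_forall fun x => ?_)
    simp only [hhdef]
    ring
  rw [e1, extn_mix (sm 3) (fun _ => LinearIsometryEquiv.refl ℝ (E 3)) (fun _ => 0) hh
    (by simpa using measurable_snd) measurable_const hmh hbh ξ]
  simp only [sub_zero, LinearIsometryEquiv.coe_refl, id]
  rw [norm_mul, Complex.norm_real, Real.norm_of_nonneg (inv_nonneg.2 hm0.le)]
  have h5 : ‖∫ y : S 3, extn (hh y) ξ ∂(sm 3)‖ ≤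
      (2 ^ (((3:ℕ) : ℝ) / 2 + 1) * A * Real.sqrt r * (Λ + ‖ξ‖) ^ (-δ)) * (sm 3).real univ := by
    refine norm_integral_le_of_norm_le_const (Filter.Eventually.of_forall fun y => ?_)
    rw [e4 y, norm_mul]
    calc ‖a y‖ * ‖extn (fun x => ((ker r x (y : E 3) : ℝ) : ℂ) * h x) ξ‖
        ≤ 1 * ‖extn (fun x => ((ker r x (y : E 3) : ℝ) : ℂ) * h x) ξ‖ := by
          gcongr
          exact hab _
      _ ≤ _ := by
          rw [one_mul]
          exact bv_ker_decay h hm hb hA hδ hδ1 hΛ hd hr (y : E 3) ξ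
  have e5 : r ^ ((3:ℝ) / 2) = r * Real.sqrt r := by
    rw [Real.sqrt_eq_rpow]
    nth_rewrite 2 [← Real.rpow_one r]
    rw [← Real.rpow_add hr0]
    congr 1
    norm_num
  have hs0 : 0 ≤ σ := by positivity
  calc m⁻¹ * ‖∫ y : S 3, extn (hh y) ξ ∂(sm 3)‖
      ≤ (r / c) * ((2 ^ (((3:ℕ) : ℝ) / 2 + 1) * A * Real.sqrt r * (Λ + ‖ξ‖) ^ (-δ)) * (σ + 1)) := by
        refine mul_le_mul hmr (h5.trans ?_) (norm_nonneg _) (by positivity)
        gcongr
        linarith
    _ = _ := by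
        rw [e5]
        ring

/-- TRANSFER OF DECAY. A density with decay, multiplied by an amplitude of bounded variation (of
order `s ≤ 1`), has decay. -/
theorem bv_decay : ∃ C : ℝ, 0 < C ∧ ∀ (a h : E 3 → ℂ), Measurable a → Measurable h →
    (∀ x, ‖a x‖ ≤ 1) → (∀ x, ‖h x‖ ≤ 1) → ∀ s V A δ Λ : ℝ, 0 ≤ s → s ≤ 1 → 1 ≤ V →
    BVar s V a → 1 ≤ A → 0 ≤ δ → δ ≤ 1 → 1 ≤ Λ →
    (∀ ξ, ‖extn h ξ‖ ≤ A * (Λ + ‖ξ‖) ^ (-δ)) → ∀ ξ,
    ‖extn (fun x => a x * h x) ξ‖ ≤ C * A * V * (Λ + ‖ξ‖) ^ (-(δ * s / 4)) := by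
  obtain ⟨C1, hC1, H1⟩ := bv_L1
  obtain ⟨C2, hC2, H2⟩ := bv_moll_decay
  refine ⟨C1 + C2, by positivity, ?_⟩
  intro a h ha hm hab hb s V A δ Λ hs hs1 hV hB hA hδ hδ1 hΛ hd ξ
  have hX : 1 ≤ Λ + ‖ξ‖ := by linarith [norm_nonneg ξ]
  have hX0 : 0 < Λ + ‖ξ‖ := by linarith
  set X : ℝ := Λ + ‖ξ‖ with hXdef
  set r : ℝ := X ^ (δ / 2) with hrdef
  have hr : 1 ≤ r := Real.one_le_rpow hX (by positivity)
  have hr0 : 0 < r := by linarith
  have hmm : Measurable (moll r a) := by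
    have h1 := measurable_moll (j := 1) r (fun _ => a) (ha.comp measurable_snd)
    exact h1.comp (f := fun x : E 3 => ((0:ℝ), x)) (by fun_prop)
  have hmb : ∀ x, ‖moll r a x‖ ≤ 1 := norm_moll_le (j := 1) r a ha hab
  have hexp : Measurable fun x : S 3 =>
      Complex.exp (((-(2 * π * inner ℝ (x : E 3) ξ) : ℝ) : ℂ) * Complex.I) := by fun_prop
  have i1 : Integrable (fun x : S 3 => ((a x - moll r a x) * h x) *
      Complex.exp (((-(2 * π * inner ℝ (x : E 3) ξ) : ℝ) : ℂ) * Complex.I)) (sm 3) := by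
    refine Integrable.of_bound (((((ha.sub hmm).mul hm).comp measurable_subtype_coe).mul
      hexp).aestronglyMeasurable) 2 (Filter.Eventually.of_forall fun x => ?_)
    rw [norm_mul, norm_phase, mul_one, norm_mul]
    calc ‖a x - moll r a x‖ * ‖h x‖ ≤ (1 + 1) * 1 := by
          gcongr
          · exact (norm_sub_le _ _).trans (add_le_add (hab _) (hmb _))
          · exact hb _
      _ = 2 := by norm_num
  have i2 : Integrable (fun x : S 3 => (moll r a x * h x) *
      Complex.exp (((-(2 * π * inner ℝ (x : E 3) ξ) : ℝ) : ℂ) * Complex.I)) (sm 3) := by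
    refine Integrable.of_bound ((((hmm.mul hm).comp measurable_subtype_coe).mul
      hexp).aestronglyMeasurable) 1 (Filter.Eventually.of_forall fun x => ?_)
    rw [norm_mul, norm_phase, mul_one, norm_mul]
    exact mul_le_one₀ (hmb _) (norm_nonneg _) (hb _)
  have e1 : extn (fun x => a x * h x) ξ = extn (fun x => (a x - moll r a x) * h x) ξ +
      extn (fun x => moll r a x * h x) ξ := by
    unfold extn
    rw [← integral_add i1 i2]
    refine integral_congr_ae (Filter.Eventually.of_forall fun x => ?_)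
    simp only
    ring
  have h1 : ‖extn (fun x => (a x - moll r a x) * h x) ξ‖ ≤ C1 * V * r ^ (-(s / 2)) := by
    have h2 : ‖extn (fun x => (a x - moll r a x) * h x) ξ‖ₑ ≤
        ENNReal.ofReal (C1 * V * r ^ (-(s / 2))) := by
      unfold extn
      refine (enorm_integral_le_lintegral_enorm _).trans ?_
      refine le_trans (lintegral_mono fun x => ?_) (H1 s V hs1 (by linarith) a ha hab hB r hr)
      rw [enorm_mul, enorm_phase, mul_one, enorm_mul]
      calc ‖a x - moll r a x‖ₑ * ‖h x‖ₑ ≤ ‖a x - moll r a x‖ₑ * 1 := by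
            gcongr
            rw [← ofReal_norm, ← ENNReal.ofReal_one]
            exact ENNReal.ofReal_le_ofReal (hb _)
        _ = _ := mul_one _
    rw [← ofReal_norm] at h2
    exact (ENNReal.ofReal_le_ofReal_iff (by positivity)).1 h2
  have h3 := H2 a h ha hm hab hb A δ Λ (by linarith) hδ hδ1 hΛ hd r hr ξ
  have e2 : r ^ (-(s / 2)) = X ^ (-(δ * s / 4)) := by
    rw [hrdef, ← Real.rpow_mul hX0.le]
    congr 1
    ring
  have e3 : r ^ ((3:ℝ) / 2) * X ^ (-δ) = X ^ (-(δ / 4)) := by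
    rw [hrdef, ← Real.rpow_mul hX0.le, ← Real.rpow_add hX0]
    congr 1
    ring
  have h4 : X ^ (-(δ / 4)) ≤ X ^ (-(δ * s / 4)) := by
    refine Real.rpow_le_rpow_of_exponent_le hX ?_
    have : δ * s ≤ δ * 1 := by gcongr
    linarith
  rw [e1]
  refine (norm_add_le _ _).trans ?_
  have hXp : 0 < X ^ (-(δ * s / 4)) := Real.rpow_pos_of_pos hX0 _
  calc ‖extn (fun x => (a x - moll r a x) * h x) ξ‖ + ‖extn (fun x => moll r a x * h x) ξ‖
      ≤ C1 * V * X ^ (-(δ * s / 4)) + C2 * A * X ^ (-(δ * s / 4)) := by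
        refine add_le_add (h1.trans (le_of_eq (by rw [e2]))) (h3.trans ?_)
        rw [mul_assoc, e3]
        gcongr
    _ ≤ C1 * A * V * X ^ (-(δ * s / 4)) + C2 * A * V * X ^ (-(δ * s / 4)) := by
        have g1 : C1 * V ≤ C1 * A * V := by
          have : C1 * V * 1 ≤ C1 * V * A := by gcongr
          linarith
        have g2 : C2 * A ≤ C2 * A * V := by
          have : C2 * A * 1 ≤ C2 * A * V := by gcongr
          linarith
        gcongr
    _ = _ := by ring

end Pool.Agent.VAN
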