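import Pool.Agent.VAN.CU

/-!
Phases of class `C^K`: the estimate with the loss `(1 + sup |D^K φ|)^(3/K)`.
-/

set_option autoImplicit false

namespace Pool.Agent.VAN

open MeasureTheory Set MvPolynomial Pool.Agent.MP_6cbfb8_an Filter Topology
open scoped ENNReal Real

/-- Taylor's formula for functions of class `C^(A+1)`, with an explicit error -/
theorem taylorK (F : E 3 → ℝ) (A : ℕ) (hF : ContDiff ℝ (A + 1 : ℕ) F) (L : ℝ)
    (hL : ∀ x : E 3, ‖x‖ ≤ 2 → ‖iteratedFDeriv ℝ (A + 1) F x‖ ≤ L) :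
    ∀ x0 ∈ Metric.closedBall (0 : E 3) 2, ∃ T : MvPolynomial (Fin 3) ℝ,
      T.totalDegree ≤ A ∧ ∀ x ∈ Metric.closedBall (0 : E 3) 2,
        |F x - eval (fun i => x i) T| ≤ L * ‖x - x0‖ ^ (A + 1) := by
  have hL0 : 0 ≤ L := (norm_nonneg _).trans (hL 0 (by simp))
  refine fun x0 hx0 => ⟨∑ k ∈ Finset.range (A + 1),
    C ((k.factorial : ℝ)⁻¹) * mpoly k (iteratedFDeriv ℝ k F x0) x0, ?_, fun x hx => ?_⟩
  · refine totalDegree_finsetSum_le fun k hk => ?_
    refine (totalDegree_mul _ _).trans ?_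
    rw [totalDegree_C, zero_add]
    exact (mpoly_deg _ _ _).trans (Nat.lt_succ_iff.1 (Finset.mem_range.1 hk))
  · have h1 := map_add_eq_sum_add_integral_iteratedFDeriv (f := F) (x := x0) (y := x - x0) (n := A)
      (fun t _ => hF.contDiffAt.of_le (by norm_cast))
    rw [add_sub_cancel] at h1
    have h2 : eval (fun i => x i) (∑ k ∈ Finset.range (A + 1),
        C ((k.factorial : ℝ)⁻¹) * mpoly k (iteratedFDeriv ℝ k F x0) x0) =
        ∑ k ∈ Finset.range (A + 1), (k.factorial : ℝ)⁻¹ •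
          (iteratedFDeriv ℝ k F x0 fun _ => x - x0) := by
      rw [map_sum]
      refine Finset.sum_congr rfl fun k _ => ?_
      rw [map_mul, eval_C, eval_mpoly, smul_eq_mul]
    rw [h2, h1, add_sub_cancel_left]
    have h3 : ‖∫ t in (0:ℝ)..1, (1 - t) ^ A • iteratedFDeriv ℝ (A + 1) F (x0 + t • (x - x0))
        (fun _ => x - x0)‖ ≤ L * ‖x - x0‖ ^ (A + 1) * |1 - 0| := by
      refine intervalIntegral.norm_integral_le_of_norm_le_const fun t ht => ?_
      rw [uIoc_of_le zero_le_one] at ht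
      have ht' : x0 + t • (x - x0) ∈ Metric.closedBall (0 : E 3) 2 := by
        have := (convex_closedBall (0 : E 3) 2).add_smul_sub_mem hx0 hx ⟨ht.1.le, ht.2⟩
        exact this
      rw [norm_smul]
      have e1 : ‖(1 - t) ^ A‖ ≤ 1 := by
        rw [norm_pow, Real.norm_eq_abs, abs_of_nonneg (by linarith [ht.2])]
        exact pow_le_one₀ (by linarith [ht.2]) (by linarith [ht.1])
      have e2 := (iteratedFDeriv ℝ (A + 1) F (x0 + t • (x - x0))).le_opNorm (fun _ => x - x0)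
      rw [Finset.prod_const, Finset.card_univ, Fintype.card_fin] at e2
      have e3 : ‖iteratedFDeriv ℝ (A + 1) F (x0 + t • (x - x0))‖ ≤ L :=
        hL _ (mem_closedBall_zero_iff.1 ht')
      calc _ ≤ 1 * (L * ‖x - x0‖ ^ (A + 1)) := by
            refine mul_le_mul e1 (e2.trans ?_) (norm_nonneg _) zero_le_one
            exact mul_le_mul_of_nonneg_right e3 (by positivity)
        _ = _ := one_mul _
    rw [smul_eq_mul, abs_mul]
    have h4 : |((A.factorial : ℝ))⁻¹| ≤ 1 := by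
      rw [abs_of_nonneg (by positivity)]
      exact inv_le_one_of_one_le₀ (by exact_mod_cast Nat.succ_le_of_lt (Nat.factorial_pos A))
    rw [Real.norm_eq_abs] at h3
    calc _ ≤ 1 * (L * ‖x - x0‖ ^ (A + 1) * |1 - 0|) :=
          mul_le_mul h4 h3 (abs_nonneg _) zero_le_one
      _ = _ := by simp

/-- **The estimate with loss for phases of class `C^K`**, for a general class of factors. -/
theorem ck_loss_cls (cls : (E 3 → ℂ) → Prop)
    (hcls : ∀ w, cls w → Measurable w ∧ ∀ x, ‖w x‖ ≤ 1)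
    (H : ∀ (A : ℕ) (p : ℝ), 3 < p → ∃ C : ℝ≥0∞, C ≠ ∞ ∧ ∀ (w : E 3 → ℂ)
      (T : MvPolynomial (Fin 3) ℝ) (s : Fin 3 → ℝ), cls w → T.totalDegree ≤ A →
        ∫⁻ ξ, ‖extn (fun x => w x * pex T x * oct s x) ξ‖ₑ ^ p ≤ C)
    (K : ℕ) (p : ℝ) (hKp : 9 < K * (p - 3)) :
    ∃ C : ℝ≥0∞, C ≠ ∞ ∧ ∀ (φ : E 3 → ℝ) (L : ℝ) (w : E 3 → ℂ), cls w → ContDiff ℝ K φ →
      (∀ x : E 3, ‖x‖ ≤ 2 → ‖iteratedFDeriv ℝ K φ x‖ ≤ L) →
      ∫⁻ ξ, ‖extn (fun x => w x * Complex.exp (((φ x : ℝ) : ℂ) * Complex.I)) ξ‖ₑ ^ p ≤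
        C * ENNReal.ofReal ((1 + L) ^ (3 * p / K)) := by
  have hK : 1 ≤ K := by
    rcases Nat.eq_zero_or_pos K with h | h
    · subst h; norm_num at hKp
    · exact h
  have hK0 : (0:ℝ) < K := by exact_mod_cast hK
  have hp : 3 < p := by
    by_contra hcon
    have : (K:ℝ) * (p - 3) ≤ 0 := mul_nonpos_of_nonneg_of_nonpos hK0.le (by linarith)
    linarith
  obtain ⟨A, rfl⟩ : ∃ A, K = A + 1 := ⟨K - 1, by omega⟩
  -- the exponent `p1`
  set q0 : ℝ := ((A + 1 : ℕ) : ℝ) * p / ((A + 1 : ℕ) + 3) with hq0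
  have hq3 : 3 < q0 := by
    rw [hq0, lt_div_iff₀ (by positivity)]
    linarith
  set p1 : ℝ := (3 + q0) / 2 with hp1
  have h31 : 3 < p1 := by rw [hp1]; linarith
  have h1q : p1 < q0 := by rw [hp1]; linarith
  have hcond : 3 * p1 < ((A + 1 : ℕ) : ℝ) * (p - p1) := by
    rw [hq0, lt_div_iff₀ (by positivity)] at h1q
    linarith
  have h1p : p1 < p := by
    by_contra hcon
    have : ((A + 1 : ℕ) : ℝ) * (p - p1) ≤ 0 := mul_nonpos_of_nonneg_of_nonpos hK0.le (by linarith)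
    linarith
  obtain ⟨Ca, hCa, Ha⟩ := H A p1 h31
  obtain ⟨Cb, hCb, Hb⟩ := H A p hp
  obtain ⟨C, hC, key⟩ := tele_fix (μ := (volume : Measure (E 3))) (p1 := p1) (p := p) (A + 1) hK
    (by linarith) h1p hcond (2 ^ (A + 1) * (sm 3).real univ) (216 * (Ca ^ (1 / p1)).toReal)
    (216 * (Cb ^ (1 / p)).toReal) (by positivity) (by positivity) (by positivity)
  refine ⟨C, hC, fun φ L w hw hφ hL => ?_⟩
  have hL0 : 0 ≤ L := (norm_nonneg _).trans (hL 0 (by simp))
  obtain ⟨hwm, hw1⟩ := hcls w hw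
  have hT := taylorK φ A hφ L hL
  choose! T hTd hTe using hT
  set TT : (k : ℕ) → CI k → MvPolynomial (Fin 3) ℝ := fun k q => T (crp k q) with hTT
  have hdeg : ∀ k q, (TT k q).totalDegree ≤ A := fun k q => hTd _ (crp_norm k q)
  have herr : ∀ k q (x : E 3), ‖x‖ = 1 → (∀ i, crn k q i - (2 ^ k)⁻¹ < x i ∧ x i ≤ crn k q i) →
      |φ x - eval (fun i => x i) (TT k q)| ≤
        (1 + L) * (2 ^ (A + 1) * ((2:ℝ) ^ (k * (A + 1)))⁻¹) := by
    intro k q x hx hq
    have hd := dist_crp k q x hq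
    have hx2 : x ∈ Metric.closedBall (0 : E 3) 2 := by
      rw [mem_closedBall_zero_iff, hx]; norm_num
    have h2 : ‖x - crp k q‖ ^ (A + 1) ≤ 2 ^ (A + 1) * ((2:ℝ) ^ (k * (A + 1)))⁻¹ := by
      calc ‖x - crp k q‖ ^ (A + 1) ≤ (2 * (2 ^ k)⁻¹) ^ (A + 1) :=
            pow_le_pow_left₀ (norm_nonneg _) hd _
        _ = _ := by rw [mul_pow, inv_pow, ← pow_mul]
    refine (hTe (crp k q) (crp_norm k q) x hx2).trans ?_
    exact mul_le_mul (by linarith) h2 (by positivity) (by linarith)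
  have hφm : Measurable φ := hφ.continuous.measurable
  have hnorm : ∀ (q : ℝ) (hq : 3 < q) (C0 : ℝ≥0∞), C0 ≠ ∞ → (∀ (w : E 3 → ℂ)
      (T : MvPolynomial (Fin 3) ℝ) (s : Fin 3 → ℝ), cls w → T.totalDegree ≤ A →
        ∫⁻ ξ, ‖extn (fun x => w x * pex T x * oct s x) ξ‖ₑ ^ q ≤ C0) → ∀ k,
      eLpNorm' (extn (gk w k (TT k))) q volume ≤
        ENNReal.ofReal (216 * (C0 ^ (1 / q)).toReal * 8 ^ k) := by
    intro q hq C0 hC0 h0 k
    have h1 := eLp_gk hwm hw1 k (TT k) (p := q) (by linarith) (C := C0)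
      (fun q' s => h0 w _ s hw (hdeg k q'))
    refine h1.trans (le_of_eq ?_)
    have h2 : C0 ^ (1 / q) ≠ ∞ := ENNReal.rpow_ne_top_of_nonneg (by positivity) hC0
    rw [mul_right_comm, ENNReal.ofReal_mul (by positivity), ENNReal.ofReal_toReal h2]
    congr 1
    rw [← ENNReal.ofReal_natCast]
    congr 1
    push_cast
    ring
  refine key _ (fun k => extn (gk w k (TT k))) (1 + L) (by linarith)
    (fun k => measurable_extn' (measurable_gk hwm k _)) (fun k ξ => ?_)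
    (hnorm p1 h31 Ca hCa Ha) (hnorm p hp Cb hCb Hb)
  have h216 : (1:ℝ) ≤ (216 * 8 ^ k : ℕ) := by
    have : 1 ≤ 216 * 8 ^ k := Nat.mul_pos (by norm_num) (pow_pos (by norm_num) k)
    exact_mod_cast this
  have h5 := norm_extn_sub_le (n := 3) (g := gk w k (TT k))
    (h := fun x => w x * Complex.exp (((φ x : ℝ) : ℂ) * Complex.I))
    (measurable_gk hwm k _) (hwm.mul (by fun_prop)) (K := (216 * 8 ^ k : ℕ))
    (fun x => norm_gk_le hw1 k _ x) (fun x => by
      rw [norm_mul, Complex.norm_exp_ofReal_mul_I, mul_one]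
      exact (hw1 x).trans h216)
    (M := (1 + L) * (2 ^ (A + 1) * ((2:ℝ) ^ (k * (A + 1)))⁻¹)) (fun x hx => by
      obtain ⟨q, hq, hgq⟩ := gk_eq w k (TT k) x hx
      rw [hgq, ← mul_sub, norm_mul]
      unfold pex
      have h6 := norm_exp_sub_le (eval (fun i => x i) (TT k q)) (φ x)
      rw [abs_sub_comm] at h6
      calc ‖w x‖ * ‖_‖ ≤ 1 * |φ x - eval (fun i => x i) (TT k q)| :=
            mul_le_mul (hw1 x) h6 (norm_nonneg _) zero_le_one
        _ ≤ _ := by rw [one_mul]; exact herr k q x hx hq) ξ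
  refine h5.trans (le_of_eq ?_)
  ring

end Pool.Agent.VAN
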