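import Pool.Agent.VAN.CK
import Pool.Agent.PPH.S5e

/-!
Phases of class `C^K` and of smooth families: the estimates with loss, with a polynomial phase and
polynomial cuts as a further factor.
-/

set_option autoImplicit false

namespace Pool.Agent.VAN

open MeasureTheory Set MvPolynomial Pool.Agent.MP_6cbfb8_an Pool.Agent.PPH Filter Topology
open scoped ENNReal Real

/-- the cuts `x_i > s_i` as polynomial cuts -/
noncomputable def octQ (s : Fin 3 → ℝ) (i : Fin 3) : MvPolynomial (Fin 3) ℝ := X i - C (s i)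

lemma octQ_deg (s : Fin 3 → ℝ) (i : Fin 3) : (octQ s i).totalDegree ≤ 1 := by
  unfold octQ
  refine (totalDegree_sub _ _).trans (max_le ?_ ?_)
  · rw [totalDegree_X]
  · rw [totalDegree_C]
    exact Nat.zero_le _

lemma pol_mul_oct {N : ℕ} (P T : MvPolynomial (Fin 3) ℝ) (Q : Fin N → MvPolynomial (Fin 3) ℝ)
    (s : Fin 3 → ℝ) (x : E 3) :
    pol P Q x * pex T x * oct s x = pol (P + T) (Fin.append Q (octQ s)) x := by
  unfold pol pex oct
  rw [Fin.prod_univ_add]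
  simp only [Fin.append_left, Fin.append_right]
  have h1 : ∏ i, (if 0 < eval (fun j => x j) (octQ s i) then (1:ℂ) else 0) =
      ∏ i, (if s i < x i then (1:ℂ) else 0) := by
    refine Finset.prod_congr rfl fun i _ => ?_
    have h2 : eval (fun j => x j) (octQ s i) = x i - s i := by
      unfold octQ
      simp
    rw [h2]
    by_cases h : s i < x i
    · rw [if_pos h, if_pos (sub_pos.2 h)]
    · rw [if_neg h, if_neg (fun h' => h (sub_pos.1 h'))]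
  rw [h1, map_add]
  have h3 : Complex.exp (((eval (fun i => x i) P + eval (fun i => x i) T : ℝ) : ℂ) * Complex.I) =
      Complex.exp (((eval (fun i => x i) P : ℝ) : ℂ) * Complex.I) *
        Complex.exp (((eval (fun i => x i) T : ℝ) : ℂ) * Complex.I) := by
    rw [← Complex.exp_add]
    congr 1
    push_cast
    ring
  rw [h3]
  ring

/-- The class of polynomial phases with polynomial cuts. -/
def PC (D N : ℕ) (w : E 3 → ℂ) : Prop := ∃ (P : MvPolynomial (Fin 3) ℝ)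
  (Q : Fin N → MvPolynomial (Fin 3) ℝ), P.totalDegree ≤ D ∧ (∀ i, (Q i).totalDegree ≤ D) ∧
    w = pol P Q

lemma PC_meas (D N : ℕ) (w : E 3 → ℂ) (hw : PC D N w) : Measurable w ∧ ∀ x, ‖w x‖ ≤ 1 := by
  obtain ⟨P, Q, -, -, rfl⟩ := hw
  exact ⟨measurable_pol P Q, norm_pol_le P Q⟩

lemma PC_bound (D N : ℕ) (A : ℕ) (p : ℝ) (hp : 3 < p) : ∃ C : ℝ≥0∞, C ≠ ∞ ∧ ∀ (w : E 3 → ℂ)
    (T : MvPolynomial (Fin 3) ℝ) (s : Fin 3 → ℝ), PC D N w → T.totalDegree ≤ A →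
      ∫⁻ ξ, ‖extn (fun x => w x * pex T x * oct s x) ξ‖ₑ ^ p ≤ C := by
  obtain ⟨C, hC, h⟩ := main3 (max (max D A) 1) (N + 3) p hp
  refine ⟨C, hC, ?_⟩
  rintro w T s ⟨P, Q, hP, hQ, rfl⟩ hT
  refine le_trans (le_of_eq ?_) (h (P + T) (Fin.append Q (octQ s)) ?_ ?_)
  · refine lintegral_congr fun ξ => ?_
    congr 3
    funext x
    exact pol_mul_oct P T Q s x
  · refine (totalDegree_add _ _).trans (max_le ?_ ?_)
    · exact hP.trans ((le_max_left _ _).trans (le_max_left _ _))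
    · exact hT.trans ((le_max_right _ _).trans (le_max_left _ _))
  · intro i
    refine Fin.addCases (fun j => ?_) (fun j => ?_) i
    · rw [Fin.append_left]
      exact (hQ j).trans ((le_max_left _ _).trans (le_max_left _ _))
    · rw [Fin.append_right]
      exact (octQ_deg s j).trans (le_max_right _ _)

/-- **Phases of class `C^K`.** -/
theorem ck_loss (D N K : ℕ) (p : ℝ) (hKp : 9 < K * (p - 3)) :
    ∃ C : ℝ≥0∞, C ≠ ∞ ∧ ∀ (φ : E 3 → ℝ) (L : ℝ) (P : MvPolynomial (Fin 3) ℝ)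
      (Q : Fin N → MvPolynomial (Fin 3) ℝ), ContDiff ℝ K φ →
      (∀ x : E 3, ‖x‖ ≤ 2 → ‖iteratedFDeriv ℝ K φ x‖ ≤ L) →
      P.totalDegree ≤ D → (∀ i, (Q i).totalDegree ≤ D) →
      ∫⁻ ξ, ‖extn (fun x => pol P Q x * Complex.exp (((φ x : ℝ) : ℂ) * Complex.I)) ξ‖ₑ ^ p ≤
        C * ENNReal.ofReal ((1 + L) ^ (3 * p / K)) := by
  obtain ⟨C, hC, h⟩ := ck_loss_cls (PC D N) (PC_meas D N) (PC_bound D N) K p hKp
  exact ⟨C, hC, fun φ L P Q hφ hL hP hQ => h φ L (pol P Q) ⟨P, Q, hP, hQ, rfl⟩ hφ hL⟩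

/-- **Smooth families.** -/
theorem smooth_loss {d : ℕ} (φ : Fin d → E 3 → ℝ)
    (hs : ∀ j, ContDiff ℝ ((⊤ : ℕ∞) : WithTop ℕ∞) (φ j)) (D N : ℕ) (p ε : ℝ) (hp : 3 < p)
    (hε : 0 < ε) :
    ∃ C : ℝ≥0∞, C ≠ ∞ ∧ ∀ (c : Fin d → ℝ) (P : MvPolynomial (Fin 3) ℝ)
      (Q : Fin N → MvPolynomial (Fin 3) ℝ), P.totalDegree ≤ D → (∀ i, (Q i).totalDegree ≤ D) →
      ∫⁻ ξ, ‖extn (fun x => pol P Q x * Complex.exp (((fam φ c x : ℝ) : ℂ) * Complex.I)) ξ‖ₑ ^ p ≤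
        C * ENNReal.ofReal ((1 + ‖c‖) ^ ε) := by
  obtain ⟨C, hC, h⟩ := smooth_loss_cls (PC D N) (PC_meas D N) (PC_bound D N) φ hs p ε hp hε
  exact ⟨C, hC, fun c P Q hP hQ => h c (pol P Q) ⟨P, Q, hP, hQ, rfl⟩⟩

/-- Smooth families, without polynomial factor. -/
theorem smooth_loss0 {d : ℕ} (φ : Fin d → E 3 → ℝ)
    (hs : ∀ j, ContDiff ℝ ((⊤ : ℕ∞) : WithTop ℕ∞) (φ j)) (p ε : ℝ) (hp : 3 < p) (hε : 0 < ε) :
    ∃ C : ℝ≥0∞, C ≠ ∞ ∧ ∀ c : Fin d → ℝ,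
      ∫⁻ ξ, ‖extn (fun x => Complex.exp (((fam φ c x : ℝ) : ℂ) * Complex.I)) ξ‖ₑ ^ p ≤
        C * ENNReal.ofReal ((1 + ‖c‖) ^ ε) := by
  obtain ⟨C, hC, h⟩ := smooth_loss φ hs 0 0 p ε hp hε
  refine ⟨C, hC, fun c => le_trans (le_of_eq ?_) (h c 0 (fun i => i.elim0) (by simp)
    (fun i => i.elim0))⟩
  refine lintegral_congr fun ξ => ?_
  congr 3
  funext x
  unfold pol
  simp

end Pool.Agent.VAN
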