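import Mathlib

/-!
Telescoping over dyadic scales: approximations with a good sup norm error and with norms which grow
only polynomially in the scale give a bound with arbitrarily small loss.
-/

set_option autoImplicit false

namespace Pool.Agent.VAN

open MeasureTheory Set Filter Topology
open scoped ENNReal Real

section tele

variable {X : Type*} [MeasurableSpace X] {μ : Measure X}

/-- `L^p` norm from the sup norm and the `L^p1` norm. -/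
theorem tele_interp {p1 p a : ℝ} (hp1 : 1 ≤ p1) (hp : p1 ≤ p) (ha : 0 ≤ a) (f : X → ℂ)
    (hf : ∀ x, ‖f x‖ ≤ a) {B : ℝ≥0∞} (hB : eLpNorm' f p1 μ ≤ B) :
    eLpNorm' f p μ ≤ ENNReal.ofReal (a ^ ((p - p1) / p)) * B ^ (p1 / p) := by
  have hp0 : 0 < p := by linarith
  have h1 : ∫⁻ x, ‖f x‖ₑ ^ p ∂μ ≤ ENNReal.ofReal (a ^ (p - p1)) * ∫⁻ x, ‖f x‖ₑ ^ p1 ∂μ := by
    rw [← lintegral_const_mul' _ _ ENNReal.ofReal_ne_top]
    refine lintegral_mono fun x => ?_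
    have h1 : ‖f x‖ₑ ^ p = ‖f x‖ₑ ^ (p - p1) * ‖f x‖ₑ ^ p1 := by
      rw [← ENNReal.rpow_add_of_nonneg _ _ (by linarith) (by linarith)]
      congr 1
      ring
    rw [h1]
    gcongr
    rw [← ENNReal.ofReal_rpow_of_nonneg ha (by linarith), ← ofReal_norm]
    exact ENNReal.rpow_le_rpow (ENNReal.ofReal_le_ofReal (hf x)) (by linarith)
  have h2 : ∫⁻ x, ‖f x‖ₑ ^ p1 ∂μ ≤ B ^ p1 := by
    have := ENNReal.rpow_le_rpow hB (by linarith : 0 ≤ p1)
    unfold eLpNorm' at this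
    rwa [← ENNReal.rpow_mul, one_div, inv_mul_cancel₀ (by linarith), ENNReal.rpow_one] at this
  unfold eLpNorm'
  calc (∫⁻ x, ‖f x‖ₑ ^ p ∂μ) ^ (1 / p) ≤ (ENNReal.ofReal (a ^ (p - p1)) * B ^ p1) ^ (1 / p) := by
        apply ENNReal.rpow_le_rpow _ (by positivity)
        exact h1.trans (by gcongr)
    _ = ENNReal.ofReal (a ^ ((p - p1) / p)) * B ^ (p1 / p) := by
        rw [ENNReal.mul_rpow_of_nonneg _ _ (by positivity), ← ENNReal.rpow_mul,
          ENNReal.ofReal_rpow_of_nonneg (Real.rpow_nonneg ha _) (by positivity),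
          ← Real.rpow_mul ha]
        congr 2
        · ring_nf
        · ring_nf

/-- **Telescoping.** -/
theorem tele {p1 p : ℝ} (hp1 : 1 ≤ p1) (hp : p1 ≤ p) (G : ℕ → X → ℂ) (F : X → ℂ)
    (hG : ∀ k, Measurable (G k)) (hlim : ∀ x, Tendsto (fun k => G k x) atTop (𝓝 (F x)))
    (a : ℕ → ℝ) (b : ℕ → ℝ≥0∞) (ha : ∀ k, 0 ≤ a k) (k0 : ℕ)
    (hd : ∀ k, k0 ≤ k → ∀ x, ‖G (k + 1) x - G k x‖ ≤ a k)
    (hn : ∀ k, k0 ≤ k → eLpNorm' (G k) p1 μ ≤ b k) :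
    eLpNorm' F p μ ≤ eLpNorm' (G k0) p μ + ∑' j : ℕ,
      ENNReal.ofReal ((a (k0 + j)) ^ ((p - p1) / p)) * (b (k0 + j + 1) + b (k0 + j)) ^ (p1 / p) := by
  have hp0 : 0 < p := by linarith
  set t : ℕ → ℝ≥0∞ := fun j =>
    ENNReal.ofReal ((a (k0 + j)) ^ ((p - p1) / p)) * (b (k0 + j + 1) + b (k0 + j)) ^ (p1 / p) with ht
  have hstep : ∀ n : ℕ, eLpNorm' (G (k0 + n)) p μ ≤ eLpNorm' (G k0) p μ +
      ∑ j ∈ Finset.range n, t j := by
    intro n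
    induction n with
    | zero => simp
    | succ n ih =>
      have e1 : G (k0 + (n + 1)) = G (k0 + n) + (G (k0 + n + 1) - G (k0 + n)) := by
        rw [← add_assoc]; abel
      have h1 : eLpNorm' (G (k0 + n + 1) - G (k0 + n)) p1 μ ≤ b (k0 + n + 1) + b (k0 + n) := by
        have h2 : G (k0 + n + 1) - G (k0 + n) = G (k0 + n + 1) + -G (k0 + n) := sub_eq_add_neg _ _
        rw [h2]
        refine (eLpNorm'_add_le (hG _).aestronglyMeasurable (hG _).neg.aestronglyMeasurable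
          hp1).trans ?_
        have h3 : eLpNorm' (-G (k0 + n)) p1 μ = eLpNorm' (G (k0 + n)) p1 μ := by
          unfold eLpNorm'
          simp
        rw [h3]
        exact add_le_add (hn _ (by omega)) (hn _ (by omega))
      have h4 : eLpNorm' (G (k0 + n + 1) - G (k0 + n)) p μ ≤ t n :=
        tele_interp hp1 hp (ha _) _ (fun x => hd (k0 + n) (by omega) x) h1
      rw [e1, Finset.sum_range_succ, ← add_assoc]
      refine (eLpNorm'_add_le (hG _).aestronglyMeasurable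
        ((hG _).sub (hG _)).aestronglyMeasurable (hp1.trans hp)).trans ?_
      exact add_le_add ih h4
  set Mt : ℝ≥0∞ := eLpNorm' (G k0) p μ + ∑' j : ℕ, t j with hMt
  have hall : ∀ n : ℕ, eLpNorm' (G (k0 + n)) p μ ≤ Mt := fun n =>
    (hstep n).trans (by rw [hMt]; gcongr; exact ENNReal.sum_le_tsum _)
  have hint : ∀ n : ℕ, ∫⁻ x, ‖G (k0 + n) x‖ₑ ^ p ∂μ ≤ Mt ^ p := by
    intro n
    have := ENNReal.rpow_le_rpow (hall n) hp0.le
    unfold eLpNorm' at this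
    rwa [← ENNReal.rpow_mul, one_div, inv_mul_cancel₀ hp0.ne', ENNReal.rpow_one] at this
  have hF : ∫⁻ x, ‖F x‖ₑ ^ p ∂μ ≤ Mt ^ p := by
    have hlim' : ∀ x, Tendsto (fun n => ‖G (k0 + n) x‖ₑ ^ p) atTop (𝓝 (‖F x‖ₑ ^ p)) := by
      intro x
      have h1 : Tendsto (fun n : ℕ => G (k0 + n) x) atTop (𝓝 (F x)) :=
        (hlim x).comp (tendsto_atTop_mono (fun n => Nat.le_add_left n k0) tendsto_id)
      exact ((ENNReal.continuous_rpow_const).tendsto _).comp (h1.enorm)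
    calc ∫⁻ x, ‖F x‖ₑ ^ p ∂μ = ∫⁻ x, liminf (fun n => ‖G (k0 + n) x‖ₑ ^ p) atTop ∂μ := by
          congr 1; ext x; exact (hlim' x).liminf_eq.symm
      _ ≤ liminf (fun n => ∫⁻ x, ‖G (k0 + n) x‖ₑ ^ p ∂μ) atTop :=
          lintegral_liminf_le (fun n => ((hG _).enorm.pow_const p))
      _ ≤ Mt ^ p := by
          refine liminf_le_of_le (by isBoundedDefault) ?_
          intro c hc
          obtain ⟨n, hn⟩ := hc.exists
          exact hn.trans (hint n)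
  unfold eLpNorm' at *
  calc (∫⁻ x, ‖F x‖ₑ ^ p ∂μ) ^ (1 / p) ≤ (Mt ^ p) ^ (1 / p) :=
        ENNReal.rpow_le_rpow hF (by positivity)
    _ = Mt := by rw [← ENNReal.rpow_mul, mul_one_div_cancel hp0.ne', ENNReal.rpow_one]

/-- real arithmetic of one term of the series -/
theorem tele_term {p1 p δ γ e M L C1 : ℝ} (A k0 j : ℕ) (hp : 0 < p) (hM : 0 ≤ M)
    (hL : 1 ≤ L) (hC1 : 0 ≤ C1)
    (hγ : γ = ((A + 1) * δ - 3 * p1) / p) (hγ1 : 1 ≤ γ) (hγe : δ / p ≤ e * γ)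
    (hk : L ^ e ≤ 2 ^ k0) :
    (2 * M * L * ((2:ℝ) ^ ((k0 + j) * (A + 1)))⁻¹) ^ (δ / p) * (9 * C1 * 8 ^ (k0 + j)) ^ (p1 / p) ≤
      ((2 * M) ^ (δ / p) * (9 * C1) ^ (p1 / p)) * (1 / 2) ^ j := by
  have hL0 : 0 < L := by linarith
  have h2 : (0:ℝ) < 2 := by norm_num
  set k : ℝ := (k0 : ℝ) + j with hkdef
  have e1 : ((2:ℝ) ^ ((k0 + j) * (A + 1)))⁻¹ = 2 ^ (-(k * (A + 1))) := by
    rw [Real.rpow_neg h2.le, ← Real.rpow_natCast]
    congr 2
    push_cast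
    rw [hkdef]
  have e2 : (8:ℝ) ^ (k0 + j) = 2 ^ (3 * k) := by
    have : (8:ℝ) = 2 ^ (3:ℝ) := by norm_num
    rw [this, ← Real.rpow_natCast, ← Real.rpow_mul h2.le]
    congr 1
    push_cast
    rw [hkdef]
  rw [e1, e2]
  have e3 : (2 * M * L * (2:ℝ) ^ (-(k * (A + 1)))) ^ (δ / p) =
      (2 * M) ^ (δ / p) * L ^ (δ / p) * 2 ^ (-(k * (A + 1)) * (δ / p)) := by
    rw [Real.mul_rpow (by positivity) (by positivity), Real.mul_rpow (by positivity) hL0.le,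
      ← Real.rpow_mul h2.le]
  have e4 : (9 * C1 * (2:ℝ) ^ (3 * k)) ^ (p1 / p) =
      (9 * C1) ^ (p1 / p) * 2 ^ (3 * k * (p1 / p)) := by
    rw [Real.mul_rpow (by positivity) (by positivity), ← Real.rpow_mul h2.le]
  rw [e3, e4]
  have e5 : (2:ℝ) ^ (-(k * (A + 1)) * (δ / p)) * 2 ^ (3 * k * (p1 / p)) = 2 ^ (-(γ * k)) := by
    rw [← Real.rpow_add h2]
    congr 1
    rw [hγ]
    field_simp
    ring
  have e6 : (2:ℝ) ^ (-(γ * k)) = 2 ^ (-(γ * k0)) * 2 ^ (-(γ * j)) := by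
    rw [← Real.rpow_add h2]
    congr 1
    rw [hkdef]; ring
  have e7 : (2:ℝ) ^ (-(γ * j)) ≤ (1 / 2) ^ j := by
    have : ((1:ℝ) / 2) ^ j = 2 ^ (-(j:ℝ)) := by
      rw [Real.rpow_neg h2.le, Real.rpow_natCast, one_div, inv_pow]
    rw [this]
    apply Real.rpow_le_rpow_of_exponent_le (by norm_num)
    have hj : (0:ℝ) ≤ j := Nat.cast_nonneg j
    nlinarith
  have e8 : L ^ (δ / p) * 2 ^ (-(γ * k0)) ≤ 1 := by
    have h1 : (2:ℝ) ^ (-(γ * k0)) ≤ (L ^ e) ^ (-γ) := by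
      have : (2:ℝ) ^ (-(γ * k0)) = (2 ^ k0) ^ (-γ) := by
        rw [← Real.rpow_natCast, ← Real.rpow_mul h2.le]
        congr 1; ring
      rw [this]
      exact Real.rpow_le_rpow_of_nonpos (by positivity) hk (by linarith)
    calc L ^ (δ / p) * 2 ^ (-(γ * k0)) ≤ L ^ (δ / p) * (L ^ e) ^ (-γ) := by gcongr
      _ = L ^ (δ / p - e * γ) := by
          rw [← Real.rpow_mul hL0.le, ← Real.rpow_add hL0]
          congr 1; ring
      _ ≤ 1 := Real.rpow_le_one_of_one_le_of_nonpos hL (by linarith)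
  calc (2 * M) ^ (δ / p) * L ^ (δ / p) * 2 ^ (-(k * (A + 1)) * (δ / p)) *
        ((9 * C1) ^ (p1 / p) * 2 ^ (3 * k * (p1 / p)))
      = ((2 * M) ^ (δ / p) * (9 * C1) ^ (p1 / p)) * (L ^ (δ / p) *
          (2 ^ (-(k * (A + 1)) * (δ / p)) * 2 ^ (3 * k * (p1 / p)))) := by ring
    _ = ((2 * M) ^ (δ / p) * (9 * C1) ^ (p1 / p)) * ((L ^ (δ / p) * 2 ^ (-(γ * k0))) *
          2 ^ (-(γ * j))) := by rw [e5, e6]; ring
    _ ≤ ((2 * M) ^ (δ / p) * (9 * C1) ^ (p1 / p)) * (1 * (1 / 2) ^ j) := by gcongr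
    _ = _ := by ring

/-- **Telescoping, geometric form.** -/
theorem tele_geo {ι : Type*} (F : ι → X → ℂ) (L : ι → ℝ) (hL : ∀ i, 1 ≤ L i) (p0 : ℝ)
    (hp0 : 1 ≤ p0)
    (happ : ∀ A : ℕ, ∃ G : ι → ℕ → X → ℂ, (∀ i k, Measurable (G i k)) ∧
      (∃ M : ℝ, 0 ≤ M ∧ ∀ i k x, ‖G i k x - F i x‖ ≤ M * L i * ((2:ℝ) ^ (k * (A + 1)))⁻¹) ∧
      ∀ p : ℝ, p0 < p → ∃ C : ℝ, 0 ≤ C ∧ ∀ i k,
        eLpNorm' (G i k) p μ ≤ ENNReal.ofReal (C * 8 ^ k)) :
    ∀ p : ℝ, p0 < p → ∀ ε : ℝ, 0 < ε → ∃ C : ℝ≥0∞, C ≠ ∞ ∧ ∀ i,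
      ∫⁻ x, ‖F i x‖ₑ ^ p ∂μ ≤ C * ENNReal.ofReal (L i ^ ε) := by
  intro p hp ε hε
  have hp' : 0 < p := by linarith
  set p1 : ℝ := (p0 + p) / 2 with hp1
  have h01 : p0 < p1 := by rw [hp1]; linarith
  have h1p : p1 < p := by rw [hp1]; linarith
  have hp1' : 0 < p1 := by linarith
  set δ : ℝ := p - p1 with hδdef
  have hδ : 0 < δ := by rw [hδdef]; linarith
  set e : ℝ := ε / (3 * p) with hedef
  have he : 0 < e := by positivity
  obtain ⟨A, hA⟩ := exists_nat_ge ((3 * p1 + p * max 1 (δ / (p * e))) / δ)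
  set γ : ℝ := ((A + 1) * δ - 3 * p1) / p with hγ
  have hγge : max 1 (δ / (p * e)) ≤ γ := by
    rw [hγ, le_div_iff₀ hp']
    rw [div_le_iff₀ hδ] at hA
    nlinarith
  have hγ1 : 1 ≤ γ := (le_max_left _ _).trans hγge
  have hγe : δ / p ≤ e * γ := by
    have h1 : δ / (p * e) ≤ γ := (le_max_right _ _).trans hγge
    rw [div_le_iff₀ (by positivity)] at h1
    rw [div_le_iff₀ hp']
    linarith
  obtain ⟨G, hG, ⟨M, hM, happr⟩, hnorm⟩ := happ A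
  obtain ⟨C1, hC1, hn1⟩ := hnorm p1 h01
  obtain ⟨C2, hC2, hn2⟩ := hnorm p hp
  set D : ℝ := (2 * M) ^ (δ / p) * (9 * C1) ^ (p1 / p) with hD
  have hD0 : 0 ≤ D := by positivity
  refine ⟨ENNReal.ofReal ((8 * C2 + 2 * D) ^ p), ENNReal.ofReal_ne_top, fun i => ?_⟩
  have hLi := hL i
  have hL0 : 0 < L i := by linarith
  -- the scale
  set k0 : ℕ := ⌈Real.logb 2 (L i ^ e)⌉₊ with hk0
  have hlog0 : 0 ≤ Real.logb 2 (L i ^ e) :=
    Real.logb_nonneg (by norm_num) (Real.one_le_rpow hLi he.le)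
  have hk1 : L i ^ e ≤ 2 ^ k0 := by
    have h1 : Real.logb 2 (L i ^ e) ≤ k0 := Nat.le_ceil _
    rw [Real.logb_le_iff_le_rpow (by norm_num) (by positivity), Real.rpow_natCast] at h1
    exact h1
  have hk2 : (2:ℝ) ^ k0 ≤ 2 * L i ^ e := by
    have h1 : (k0 : ℝ) < Real.logb 2 (L i ^ e) + 1 := Nat.ceil_lt_add_one hlog0
    have h2 : (2:ℝ) ^ ((k0:ℝ) - 1) ≤ L i ^ e := by
      rw [← Real.le_logb_iff_rpow_le (by norm_num) (by positivity)]
      linarith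
    rw [Real.rpow_sub (by norm_num), Real.rpow_natCast, Real.rpow_one, div_le_iff₀ (by norm_num)] at h2
    linarith
  have hlim : ∀ x, Tendsto (fun k => G i k x) atTop (𝓝 (F i x)) := by
    intro x
    rw [tendsto_iff_norm_sub_tendsto_zero]
    have h1 : Tendsto (fun k : ℕ => M * L i * ((2:ℝ) ^ (k * (A + 1)))⁻¹) atTop (𝓝 (M * L i * 0)) := by
      apply Tendsto.const_mul
      have h2 : ∀ k : ℕ, ((2:ℝ) ^ (k * (A + 1)))⁻¹ = (((2:ℝ) ^ (A + 1))⁻¹) ^ k := by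
        intro k
        rw [inv_pow, ← pow_mul, mul_comm (A + 1) k]
      simp only [h2]
      apply tendsto_pow_atTop_nhds_zero_of_lt_one (by positivity)
      rw [inv_lt_one_iff₀]
      right
      exact one_lt_pow₀ (by norm_num) (by omega)
    rw [mul_zero] at h1
    exact squeeze_zero (fun k => norm_nonneg _) (fun k => happr i k x) h1
  have hmain := tele (μ := μ) (p1 := p1) (p := p) (by linarith) h1p.le (G i) (F i) (hG i) hlim
    (fun k => 2 * M * L i * ((2:ℝ) ^ (k * (A + 1)))⁻¹) (fun k => ENNReal.ofReal (C1 * 8 ^ k))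
    (fun k => by positivity) k0 (by
      intro k _ x
      have h1 : G i (k + 1) x - G i k x = (G i (k + 1) x - F i x) - (G i k x - F i x) := by ring
      have h2 : ((2:ℝ) ^ ((k + 1) * (A + 1)))⁻¹ ≤ ((2:ℝ) ^ (k * (A + 1)))⁻¹ := by
        apply inv_anti₀ (by positivity)
        exact pow_le_pow_right₀ (by norm_num) (Nat.mul_le_mul_right _ (by omega))
      rw [h1]
      calc _ ≤ ‖G i (k + 1) x - F i x‖ + ‖G i k x - F i x‖ := norm_sub_le _ _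
        _ ≤ M * L i * ((2:ℝ) ^ ((k + 1) * (A + 1)))⁻¹ + M * L i * ((2:ℝ) ^ (k * (A + 1)))⁻¹ :=
            add_le_add (happr i (k + 1) x) (happr i k x)
        _ ≤ M * L i * ((2:ℝ) ^ (k * (A + 1)))⁻¹ + M * L i * ((2:ℝ) ^ (k * (A + 1)))⁻¹ := by gcongr
        _ = _ := by ring) (fun k _ => hn1 i k)
  have hterm : ∀ j : ℕ, ENNReal.ofReal ((2 * M * L i * ((2:ℝ) ^ ((k0 + j) * (A + 1)))⁻¹) ^ ((p - p1) / p)) *
      (ENNReal.ofReal (C1 * 8 ^ (k0 + j + 1)) + ENNReal.ofReal (C1 * 8 ^ (k0 + j))) ^ (p1 / p) ≤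
      ENNReal.ofReal (D * (1 / 2) ^ j) := by
    intro j
    have h1 : ENNReal.ofReal (C1 * 8 ^ (k0 + j + 1)) + ENNReal.ofReal (C1 * 8 ^ (k0 + j)) =
        ENNReal.ofReal (9 * C1 * 8 ^ (k0 + j)) := by
      rw [← ENNReal.ofReal_add (by positivity) (by positivity)]
      congr 1; ring
    rw [h1, ENNReal.ofReal_rpow_of_nonneg (by positivity) (by positivity),
      ← ENNReal.ofReal_mul (by positivity)]
    apply ENNReal.ofReal_le_ofReal
    exact tele_term A k0 j hp' hM hLi hC1 hγ hγ1 hγe hk1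
  have hsum : ∑' j : ℕ, ENNReal.ofReal ((2 * M * L i * ((2:ℝ) ^ ((k0 + j) * (A + 1)))⁻¹) ^ ((p - p1) / p)) *
      (ENNReal.ofReal (C1 * 8 ^ (k0 + j + 1)) + ENNReal.ofReal (C1 * 8 ^ (k0 + j))) ^ (p1 / p) ≤
      ENNReal.ofReal (2 * D) := by
    refine (ENNReal.tsum_le_tsum hterm).trans ?_
    rw [← ENNReal.ofReal_tsum_of_nonneg (fun j => by positivity)
      ((summable_geometric_two).mul_left D), tsum_mul_left, tsum_geometric_two]
    exact ENNReal.ofReal_le_ofReal (by linarith)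
  have hfirst : eLpNorm' (G i k0) p μ ≤ ENNReal.ofReal (8 * C2 * L i ^ (ε / p)) := by
    refine (hn2 i k0).trans (ENNReal.ofReal_le_ofReal ?_)
    have h1 : (8:ℝ) ^ k0 = (2 ^ k0) ^ 3 := by
      rw [← pow_mul, mul_comm k0 3, pow_mul]; norm_num
    have h2 : (8:ℝ) ^ k0 ≤ 8 * L i ^ (ε / p) := by
      rw [h1]
      calc ((2:ℝ) ^ k0) ^ 3 ≤ (2 * L i ^ e) ^ 3 := pow_le_pow_left₀ (by positivity) hk2 3
        _ = 8 * L i ^ (ε / p) := by
            rw [mul_pow, ← Real.rpow_natCast (L i ^ e), ← Real.rpow_mul hL0.le]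
            congr 1
            · norm_num
            · congr 1
              rw [hedef]
              push_cast
              field_simp
    calc C2 * 8 ^ k0 ≤ C2 * (8 * L i ^ (ε / p)) := by gcongr
      _ = _ := by ring
  have htot : eLpNorm' (F i) p μ ≤ ENNReal.ofReal ((8 * C2 + 2 * D) * L i ^ (ε / p)) := by
    refine hmain.trans ((add_le_add hfirst hsum).trans ?_)
    rw [← ENNReal.ofReal_add (by positivity) (by positivity)]
    apply ENNReal.ofReal_le_ofReal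
    have h1 : 1 ≤ L i ^ (ε / p) := Real.one_le_rpow hLi (by positivity)
    nlinarith
  have h1 := ENNReal.rpow_le_rpow htot hp'.le
  unfold eLpNorm' at h1
  rw [← ENNReal.rpow_mul, one_div, inv_mul_cancel₀ hp'.ne', ENNReal.rpow_one] at h1
  refine h1.trans (le_of_eq ?_)
  rw [ENNReal.ofReal_rpow_of_nonneg (by positivity) hp'.le, Real.mul_rpow (by positivity)
    (by positivity), ENNReal.ofReal_mul (by positivity), ← Real.rpow_mul hL0.le,
    div_mul_cancel₀ _ hp'.ne']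

/-- real arithmetic of one term of the series, explicit exponent -/
theorem tele_term_fix {p1 p γ M L C1 : ℝ} (K k0 j : ℕ) (hK : 1 ≤ K) (hp1 : 0 < p1) (hp : p1 < p)
    (hM : 0 ≤ M) (hL : 1 ≤ L) (hC1 : 0 ≤ C1) (hγ : γ = (K * (p - p1) - 3 * p1) / p) (hγ0 : 0 < γ)
    (hk : L ^ (1 / (K:ℝ)) ≤ 2 ^ k0) :
    (2 * M * L * ((2:ℝ) ^ ((k0 + j) * K))⁻¹) ^ ((p - p1) / p) *
      (9 * C1 * 8 ^ (k0 + j)) ^ (p1 / p) ≤
      ((2 * M) ^ ((p - p1) / p) * (9 * C1) ^ (p1 / p)) * L ^ (3 / (K:ℝ)) * ((2:ℝ) ^ (-γ)) ^ j := by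
  have hL0 : 0 < L := by linarith
  have hp0 : 0 < p := by linarith
  have h2 : (0:ℝ) < 2 := by norm_num
  have hK0 : (0:ℝ) < K := by exact_mod_cast hK
  set δ : ℝ := p - p1 with hδ
  set k : ℝ := (k0 : ℝ) + j with hkdef
  have e1 : ((2:ℝ) ^ ((k0 + j) * K))⁻¹ = 2 ^ (-(k * K)) := by
    rw [Real.rpow_neg h2.le, ← Real.rpow_natCast]
    congr 2
    push_cast
    rw [hkdef]
  have e2 : (8:ℝ) ^ (k0 + j) = 2 ^ (3 * k) := by
    have : (8:ℝ) = 2 ^ (3:ℝ) := by norm_num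
    rw [this, ← Real.rpow_natCast, ← Real.rpow_mul h2.le]
    congr 1
    push_cast
    rw [hkdef]
  rw [e1, e2]
  have e3 : (2 * M * L * (2:ℝ) ^ (-(k * K))) ^ (δ / p) =
      (2 * M) ^ (δ / p) * L ^ (δ / p) * 2 ^ (-(k * K) * (δ / p)) := by
    rw [Real.mul_rpow (by positivity) (by positivity), Real.mul_rpow (by positivity) hL0.le,
      ← Real.rpow_mul h2.le]
  have e4 : (9 * C1 * (2:ℝ) ^ (3 * k)) ^ (p1 / p) =
      (9 * C1) ^ (p1 / p) * 2 ^ (3 * k * (p1 / p)) := by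
    rw [Real.mul_rpow (by positivity) (by positivity), ← Real.rpow_mul h2.le]
  rw [e3, e4]
  have e5 : (2:ℝ) ^ (-(k * K) * (δ / p)) * 2 ^ (3 * k * (p1 / p)) = 2 ^ (-(γ * k)) := by
    rw [← Real.rpow_add h2]
    congr 1
    rw [hγ]
    field_simp
    ring
  have e6 : (2:ℝ) ^ (-(γ * k)) = 2 ^ (-(γ * k0)) * ((2:ℝ) ^ (-γ)) ^ j := by
    rw [← Real.rpow_natCast (2 ^ (-γ)), ← Real.rpow_mul h2.le, ← Real.rpow_add h2]
    congr 1
    rw [hkdef]; ring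
  have e8 : L ^ (δ / p) * 2 ^ (-(γ * k0)) ≤ L ^ (3 / (K:ℝ)) := by
    have h1 : (2:ℝ) ^ (-(γ * k0)) ≤ (L ^ (1 / (K:ℝ))) ^ (-γ) := by
      have : (2:ℝ) ^ (-(γ * k0)) = (2 ^ k0) ^ (-γ) := by
        rw [← Real.rpow_natCast, ← Real.rpow_mul h2.le]
        congr 1; ring
      rw [this]
      exact Real.rpow_le_rpow_of_nonpos (by positivity) hk (by linarith)
    calc L ^ (δ / p) * 2 ^ (-(γ * k0)) ≤ L ^ (δ / p) * (L ^ (1 / (K:ℝ))) ^ (-γ) := by gcongr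
      _ = L ^ (3 / (K:ℝ) * (p1 / p)) := by
          rw [← Real.rpow_mul hL0.le, ← Real.rpow_add hL0]
          congr 1
          rw [hγ]
          field_simp
          ring
      _ ≤ L ^ (3 / (K:ℝ)) := by
          apply Real.rpow_le_rpow_of_exponent_le hL
          have h3 : p1 / p ≤ 1 := by rw [div_le_one hp0]; exact hp.le
          have h4 : 0 < 3 / (K:ℝ) := by positivity
          nlinarith
  have e9 : 0 ≤ ((2:ℝ) ^ (-γ)) ^ j := by positivity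
  calc (2 * M) ^ (δ / p) * L ^ (δ / p) * 2 ^ (-(k * K) * (δ / p)) *
        ((9 * C1) ^ (p1 / p) * 2 ^ (3 * k * (p1 / p)))
      = ((2 * M) ^ (δ / p) * (9 * C1) ^ (p1 / p)) * (L ^ (δ / p) *
          (2 ^ (-(k * K) * (δ / p)) * 2 ^ (3 * k * (p1 / p)))) := by ring
    _ = ((2 * M) ^ (δ / p) * (9 * C1) ^ (p1 / p)) * (L ^ (δ / p) * 2 ^ (-(γ * k0))) *
          ((2:ℝ) ^ (-γ)) ^ j := by rw [e5, e6]; ring
    _ ≤ ((2 * M) ^ (δ / p) * (9 * C1) ^ (p1 / p)) * L ^ (3 / (K:ℝ)) * ((2:ℝ) ^ (-γ)) ^ j := by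
        gcongr

/-- **Telescoping, explicit exponent.** -/
theorem tele_fix {p1 p : ℝ} (K : ℕ) (hK : 1 ≤ K) (hp1 : 1 ≤ p1) (hp : p1 < p)
    (hKp : 3 * p1 < K * (p - p1)) (M C1 C2 : ℝ) (hM : 0 ≤ M) (hC1 : 0 ≤ C1) (hC2 : 0 ≤ C2) :
    ∃ C : ℝ≥0∞, C ≠ ∞ ∧ ∀ (F : X → ℂ) (G : ℕ → X → ℂ) (L : ℝ), 1 ≤ L → (∀ k, Measurable (G k)) →
      (∀ k x, ‖G k x - F x‖ ≤ M * L * ((2:ℝ) ^ (k * K))⁻¹) →
      (∀ k, eLpNorm' (G k) p1 μ ≤ ENNReal.ofReal (C1 * 8 ^ k)) →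
      (∀ k, eLpNorm' (G k) p μ ≤ ENNReal.ofReal (C2 * 8 ^ k)) →
      ∫⁻ x, ‖F x‖ₑ ^ p ∂μ ≤ C * ENNReal.ofReal (L ^ (3 * p / K)) := by
  have hp' : 0 < p := by linarith
  have hp1' : 0 < p1 := by linarith
  have hK0 : (0:ℝ) < K := by exact_mod_cast hK
  set γ : ℝ := (K * (p - p1) - 3 * p1) / p with hγ
  have hγ0 : 0 < γ := by
    rw [hγ]
    apply div_pos _ hp'
    linarith
  set r : ℝ := (2:ℝ) ^ (-γ) with hr
  have hr0 : 0 ≤ r := by positivity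
  have hr1 : r < 1 := Real.rpow_lt_one_of_one_lt_of_neg (by norm_num) (by linarith)
  set D : ℝ := (2 * M) ^ ((p - p1) / p) * (9 * C1) ^ (p1 / p) with hD
  have hD0 : 0 ≤ D := by positivity
  have hr1' : 0 ≤ (1 - r)⁻¹ := inv_nonneg.2 (by linarith)
  refine ⟨ENNReal.ofReal ((8 * C2 + D * (1 - r)⁻¹) ^ p), ENNReal.ofReal_ne_top, ?_⟩
  intro F G L hL hG happr hn1 hn2
  have hL0 : 0 < L := by linarith
  -- the scale
  set k0 : ℕ := ⌈Real.logb 2 (L ^ (1 / (K:ℝ)))⌉₊ with hk0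
  have hlog0 : 0 ≤ Real.logb 2 (L ^ (1 / (K:ℝ))) :=
    Real.logb_nonneg (by norm_num) (Real.one_le_rpow hL (by positivity))
  have hk1 : L ^ (1 / (K:ℝ)) ≤ 2 ^ k0 := by
    have h1 : Real.logb 2 (L ^ (1 / (K:ℝ))) ≤ k0 := Nat.le_ceil _
    rw [Real.logb_le_iff_le_rpow (by norm_num) (by positivity), Real.rpow_natCast] at h1
    exact h1
  have hk2 : (2:ℝ) ^ k0 ≤ 2 * L ^ (1 / (K:ℝ)) := by
    have h1 : (k0 : ℝ) < Real.logb 2 (L ^ (1 / (K:ℝ))) + 1 := Nat.ceil_lt_add_one hlog0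
    have h2 : (2:ℝ) ^ ((k0:ℝ) - 1) ≤ L ^ (1 / (K:ℝ)) := by
      rw [← Real.le_logb_iff_rpow_le (by norm_num) (by positivity)]
      linarith
    rw [Real.rpow_sub (by norm_num), Real.rpow_natCast, Real.rpow_one, div_le_iff₀ (by norm_num)] at h2
    linarith
  have hlim : ∀ x, Tendsto (fun k => G k x) atTop (𝓝 (F x)) := by
    intro x
    rw [tendsto_iff_norm_sub_tendsto_zero]
    have h1 : Tendsto (fun k : ℕ => M * L * ((2:ℝ) ^ (k * K))⁻¹) atTop (𝓝 (M * L * 0)) := by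
      apply Tendsto.const_mul
      have h2 : ∀ k : ℕ, ((2:ℝ) ^ (k * K))⁻¹ = (((2:ℝ) ^ K)⁻¹) ^ k := by
        intro k
        rw [inv_pow, ← pow_mul, mul_comm K k]
      simp only [h2]
      apply tendsto_pow_atTop_nhds_zero_of_lt_one (by positivity)
      rw [inv_lt_one_iff₀]
      right
      exact one_lt_pow₀ (by norm_num) (by omega)
    rw [mul_zero] at h1
    exact squeeze_zero (fun k => norm_nonneg _) (fun k => happr k x) h1
  have hmain := tele (μ := μ) (p1 := p1) (p := p) hp1 hp.le G F hG hlim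
    (fun k => 2 * M * L * ((2:ℝ) ^ (k * K))⁻¹) (fun k => ENNReal.ofReal (C1 * 8 ^ k))
    (fun k => by positivity) k0 (by
      intro k _ x
      have h1 : G (k + 1) x - G k x = (G (k + 1) x - F x) - (G k x - F x) := by ring
      have h2 : ((2:ℝ) ^ ((k + 1) * K))⁻¹ ≤ ((2:ℝ) ^ (k * K))⁻¹ := by
        apply inv_anti₀ (by positivity)
        exact pow_le_pow_right₀ (by norm_num) (Nat.mul_le_mul_right _ (by omega))
      rw [h1]
      calc _ ≤ ‖G (k + 1) x - F x‖ + ‖G k x - F x‖ := norm_sub_le _ _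
        _ ≤ M * L * ((2:ℝ) ^ ((k + 1) * K))⁻¹ + M * L * ((2:ℝ) ^ (k * K))⁻¹ :=
            add_le_add (happr (k + 1) x) (happr k x)
        _ ≤ M * L * ((2:ℝ) ^ (k * K))⁻¹ + M * L * ((2:ℝ) ^ (k * K))⁻¹ := by gcongr
        _ = _ := by ring) (fun k _ => hn1 k)
  have hterm : ∀ j : ℕ, ENNReal.ofReal ((2 * M * L * ((2:ℝ) ^ ((k0 + j) * K))⁻¹) ^ ((p - p1) / p)) *
      (ENNReal.ofReal (C1 * 8 ^ (k0 + j + 1)) + ENNReal.ofReal (C1 * 8 ^ (k0 + j))) ^ (p1 / p) ≤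
      ENNReal.ofReal (D * L ^ (3 / (K:ℝ)) * r ^ j) := by
    intro j
    have h1 : ENNReal.ofReal (C1 * 8 ^ (k0 + j + 1)) + ENNReal.ofReal (C1 * 8 ^ (k0 + j)) =
        ENNReal.ofReal (9 * C1 * 8 ^ (k0 + j)) := by
      rw [← ENNReal.ofReal_add (by positivity) (by positivity)]
      congr 1; ring
    rw [h1, ENNReal.ofReal_rpow_of_nonneg (by positivity) (by positivity),
      ← ENNReal.ofReal_mul (by positivity)]
    apply ENNReal.ofReal_le_ofReal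
    exact tele_term_fix K k0 j hK hp1' hp hM hL hC1 hγ hγ0 hk1
  have hsum : ∑' j : ℕ, ENNReal.ofReal ((2 * M * L * ((2:ℝ) ^ ((k0 + j) * K))⁻¹) ^ ((p - p1) / p)) *
      (ENNReal.ofReal (C1 * 8 ^ (k0 + j + 1)) + ENNReal.ofReal (C1 * 8 ^ (k0 + j))) ^ (p1 / p) ≤
      ENNReal.ofReal (D * L ^ (3 / (K:ℝ)) * (1 - r)⁻¹) := by
    refine (ENNReal.tsum_le_tsum hterm).trans ?_
    rw [← ENNReal.ofReal_tsum_of_nonneg (fun j => by positivity)
      ((summable_geometric_of_lt_one hr0 hr1).mul_left _), tsum_mul_left,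
      tsum_geometric_of_lt_one hr0 hr1]
  have hfirst : eLpNorm' (G k0) p μ ≤ ENNReal.ofReal (8 * C2 * L ^ (3 / (K:ℝ))) := by
    refine (hn2 k0).trans (ENNReal.ofReal_le_ofReal ?_)
    have h1 : (8:ℝ) ^ k0 = (2 ^ k0) ^ 3 := by
      rw [← pow_mul, mul_comm k0 3, pow_mul]; norm_num
    have h2 : (8:ℝ) ^ k0 ≤ 8 * L ^ (3 / (K:ℝ)) := by
      rw [h1]
      calc ((2:ℝ) ^ k0) ^ 3 ≤ (2 * L ^ (1 / (K:ℝ))) ^ 3 := pow_le_pow_left₀ (by positivity) hk2 3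
        _ = 8 * L ^ (3 / (K:ℝ)) := by
            rw [mul_pow, ← Real.rpow_natCast (L ^ (1 / (K:ℝ))), ← Real.rpow_mul hL0.le]
            congr 1
            · norm_num
            · congr 1
              push_cast
              field_simp
    calc C2 * 8 ^ k0 ≤ C2 * (8 * L ^ (3 / (K:ℝ))) := by gcongr
      _ = _ := by ring
  have htot : eLpNorm' F p μ ≤ ENNReal.ofReal ((8 * C2 + D * (1 - r)⁻¹) * L ^ (3 / (K:ℝ))) := by
    refine hmain.trans ((add_le_add hfirst hsum).trans ?_)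
    rw [← ENNReal.ofReal_add (by positivity) (by positivity)]
    apply ENNReal.ofReal_le_ofReal
    apply le_of_eq
    ring
  have h1 := ENNReal.rpow_le_rpow htot hp'.le
  unfold eLpNorm' at h1
  rw [← ENNReal.rpow_mul, one_div, inv_mul_cancel₀ hp'.ne', ENNReal.rpow_one] at h1
  refine h1.trans (le_of_eq ?_)
  rw [ENNReal.ofReal_rpow_of_nonneg (by positivity) hp'.le, Real.mul_rpow (by positivity)
    (by positivity), ENNReal.ofReal_mul (by positivity), ← Real.rpow_mul hL0.le]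
  congr 3
  ring

end tele

end Pool.Agent.VAN
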