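import Pool.Agent.VAN.Defs
import Pool.Agent.VAN.D1
import Pool.Agent.VAN.T0

/-!
Smooth phases with arbitrarily small loss: dyadic cubes, Taylor polynomials and telescoping over
the scales.
-/

set_option autoImplicit false

namespace Pool.Agent.VAN

open MeasureTheory Set MvPolynomial Pool.Agent.MP_6cbfb8_an Filter Topology
open scoped ENNReal Real

/-- The indicator of `x_i > s_i` for all `i`. -/
noncomputable def oct (s : Fin 3 → ℝ) (x : E 3) : ℂ := ∏ i, if s i < x i then 1 else 0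

/-- The exponential of a polynomial phase. -/
noncomputable def pex (T : MvPolynomial (Fin 3) ℝ) (x : E 3) : ℂ :=
  Complex.exp (((eval (fun i => x i) T : ℝ) : ℂ) * Complex.I)

/-- The indices of the cubes of level `k`. -/
abbrev CI (k : ℕ) : Type := Fin 3 → Fin (2 ^ (k + 1) + 1)

/-- The upper corner of the cube. -/
noncomputable def crn (k : ℕ) (q : CI k) (i : Fin 3) : ℝ := ((q i : ℕ) : ℝ) / 2 ^ k - 1

/-- The upper corner as a point. -/
noncomputable def crp (k : ℕ) (q : CI k) : E 3 := WithLp.toLp 2 (crn k q)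

/-- The lower bounds for a subset of the coordinates. -/
noncomputable def shf (k : ℕ) (q : CI k) (t : Finset (Fin 3)) (i : Fin 3) : ℝ :=
  if i ∈ t then crn k q i - (2 ^ k)⁻¹ else crn k q i

/-- The sign. -/
def sg (t : Finset (Fin 3)) : ℂ := (-1) ^ (Finset.univ \ t).card

/-- The piecewise defined phase, as a combination of octants. -/
noncomputable def gk (w : E 3 → ℂ) (k : ℕ) (T : CI k → MvPolynomial (Fin 3) ℝ) (x : E 3) : ℂ :=
  ∑ q : CI k, ∑ t : Finset (Fin 3), sg t * (w x * pex (T q) x * oct (shf k q t) x)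

lemma sum_oct (k : ℕ) (q : CI k) (x : E 3) :
    ∑ t : Finset (Fin 3), sg t * oct (shf k q t) x =
      ∏ i, (if crn k q i - (2 ^ k)⁻¹ < x i ∧ x i ≤ crn k q i then (1 : ℂ) else 0) := by
  have h1 : ∀ i : Fin 3, (if crn k q i - (2 ^ k)⁻¹ < x i ∧ x i ≤ crn k q i then (1 : ℂ) else 0) =
      (if crn k q i - (2 ^ k)⁻¹ < x i then (1 : ℂ) else 0) + -(if crn k q i < x i then 1 else 0) := by
    intro i
    have h2 : (0:ℝ) < (2 ^ k)⁻¹ := by positivity
    by_cases ha : crn k q i - (2 ^ k)⁻¹ < x i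
    · by_cases hb : x i ≤ crn k q i
      · rw [if_pos ⟨ha, hb⟩, if_pos ha, if_neg (not_lt.2 hb)]; simp
      · rw [if_neg (fun h => hb h.2), if_pos ha, if_pos (not_le.1 hb)]; simp
    · rw [if_neg (fun h => ha h.1), if_neg ha, if_neg (fun h => ha (by linarith))]; simp
  simp only [h1]
  rw [Finset.prod_add, ← Finset.powerset_univ]
  refine Finset.sum_congr rfl fun t _ => ?_
  have h3 : ∏ i ∈ Finset.univ \ t, -(if crn k q i < x i then (1 : ℂ) else 0) =
      (-1) ^ (Finset.univ \ t).card * ∏ i ∈ Finset.univ \ t, (if crn k q i < x i then (1 : ℂ) else 0) := by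
    rw [← Finset.prod_const, ← Finset.prod_mul_distrib]
    refine Finset.prod_congr rfl fun i _ => ?_
    ring
  rw [h3]
  unfold sg oct
  have h4 : ∏ i, (if shf k q t i < x i then (1 : ℂ) else 0) =
      (∏ i ∈ t, (if crn k q i - (2 ^ k)⁻¹ < x i then (1 : ℂ) else 0)) *
        ∏ i ∈ Finset.univ \ t, (if crn k q i < x i then (1 : ℂ) else 0) := by
    rw [← Finset.prod_sdiff (Finset.subset_univ t), mul_comm]
    congr 1
    · refine Finset.prod_congr rfl fun i hi => ?_
      unfold shf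
      rw [if_pos hi]
    · refine Finset.prod_congr rfl fun i hi => ?_
      unfold shf
      rw [if_neg (Finset.mem_sdiff.1 hi).2]
  rw [h4]
  ring

/-- The cube containing `x`. -/
lemma exists_cube (k : ℕ) (x : E 3) (hx : ‖x‖ = 1) : ∃ q : CI k,
    (∀ i, crn k q i - (2 ^ k)⁻¹ < x i ∧ x i ≤ crn k q i) ∧
    ∀ q' : CI k, (∀ i, crn k q' i - (2 ^ k)⁻¹ < x i ∧ x i ≤ crn k q' i) → q' = q := by
  have hxi : ∀ i, |x i| ≤ 1 := fun i => by
    rw [← hx, ← Real.norm_eq_abs]
    exact PiLp.norm_apply_le x i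
  have h2k : (0:ℝ) < 2 ^ k := by positivity
  have hval : ∀ i, (⌈2 ^ k * (x i + 1)⌉₊) < 2 ^ (k + 1) + 1 := by
    intro i
    have h1 := abs_le.1 (hxi i)
    rw [Nat.lt_add_one_iff, Nat.ceil_le]
    push_cast
    rw [pow_succ]
    nlinarith [h1.2]
  have hiff : ∀ (m : ℕ) (i : Fin 3), ((m : ℝ) / 2 ^ k - 1 - (2 ^ k)⁻¹ < x i ∧ x i ≤ (m : ℝ) / 2 ^ k - 1) ↔
      ((m : ℝ) - 1 < 2 ^ k * (x i + 1) ∧ 2 ^ k * (x i + 1) ≤ m) := by
    intro m i
    have e1 : (m : ℝ) / 2 ^ k - 1 - (2 ^ k)⁻¹ = (m - 1) / 2 ^ k - 1 := by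
      field_simp; ring
    rw [e1, sub_lt_iff_lt_add, div_lt_iff₀ h2k, le_sub_iff_add_le, le_div_iff₀ h2k, mul_comm (x i + 1)]
  refine ⟨fun i => ⟨⌈2 ^ k * (x i + 1)⌉₊, hval i⟩, fun i => ?_, fun q' hq' => ?_⟩
  · unfold crn
    rw [hiff]
    have h0 : 0 ≤ 2 ^ k * (x i + 1) := by
      have h1 := abs_le.1 (hxi i)
      have : 0 ≤ x i + 1 := by linarith [h1.1]
      positivity
    have h1 := Nat.ceil_lt_add_one h0
    exact ⟨by linarith, Nat.le_ceil _⟩
  · funext i
    have h1 := hq' i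
    unfold crn at h1
    rw [hiff] at h1
    apply Fin.ext
    show (q' i : ℕ) = ⌈2 ^ k * (x i + 1)⌉₊
    have h0 : 0 ≤ 2 ^ k * (x i + 1) := by
      have h1 := abs_le.1 (hxi i)
      have : 0 ≤ x i + 1 := by linarith [h1.1]
      positivity
    apply le_antisymm
    · have h3 : ((q' i : ℕ) : ℝ) < (⌈2 ^ k * (x i + 1)⌉₊ : ℝ) + 1 := by
        have := Nat.le_ceil (2 ^ k * (x i + 1))
        linarith [h1.1]
      exact_mod_cast Nat.lt_add_one_iff.1 (by exact_mod_cast h3)
    · exact Nat.ceil_le.2 h1.2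

lemma gk_eq (w : E 3 → ℂ) (k : ℕ) (T : CI k → MvPolynomial (Fin 3) ℝ) (x : E 3) (hx : ‖x‖ = 1) :
    ∃ q : CI k, (∀ i, crn k q i - (2 ^ k)⁻¹ < x i ∧ x i ≤ crn k q i) ∧
      gk w k T x = w x * pex (T q) x := by
  obtain ⟨q, hq, huniq⟩ := exists_cube k x hx
  refine ⟨q, hq, ?_⟩
  have h1 : gk w k T x = ∑ q : CI k, (w x * pex (T q) x) *
      ∏ i, (if crn k q i - (2 ^ k)⁻¹ < x i ∧ x i ≤ crn k q i then (1 : ℂ) else 0) := by
    unfold gk
    refine Finset.sum_congr rfl fun q _ => ?_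
    rw [← sum_oct, Finset.mul_sum]
    refine Finset.sum_congr rfl fun t _ => ?_
    ring
  rw [h1, Finset.sum_eq_single q]
  · rw [Finset.prod_eq_one, mul_one]
    intro i _
    rw [if_pos (hq i)]
  · intro q' _ hne
    have h2 : ∃ i, ¬ (crn k q' i - (2 ^ k)⁻¹ < x i ∧ x i ≤ crn k q' i) := by
      by_contra hcon
      push Not at hcon
      exact hne (huniq q' fun i => hcon i)
    obtain ⟨i, hi⟩ := h2
    rw [Finset.prod_eq_zero (Finset.mem_univ i) (if_neg hi), mul_zero]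
  · intro h
    exact absurd (Finset.mem_univ q) h

lemma crp_norm (k : ℕ) (q : CI k) : crp k q ∈ Metric.closedBall (0 : E 3) 2 := by
  rw [mem_closedBall_zero_iff]
  have h1 : ∀ i, |crn k q i| ≤ 1 := by
    intro i
    unfold crn
    have h2 : ((q i : ℕ) : ℝ) ≤ 2 ^ (k + 1) := by
      exact_mod_cast Nat.lt_add_one_iff.1 (q i).2
    have h3 : (0:ℝ) ≤ ((q i : ℕ) : ℝ) / 2 ^ k := by positivity
    have h4 : ((q i : ℕ) : ℝ) / 2 ^ k ≤ 2 := by
      rw [div_le_iff₀ (by positivity)]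
      have h5 : (2:ℝ) ^ (k + 1) = 2 * 2 ^ k := by ring
      linarith
    rw [abs_le]
    constructor <;> linarith
  have h5 : ‖crp k q‖ ^ 2 ≤ 3 := by
    rw [EuclideanSpace.norm_sq_eq, Fin.sum_univ_three]
    have h6 : ∀ i, ‖crp k q i‖ ^ 2 ≤ 1 := by
      intro i
      have : crp k q i = crn k q i := rfl
      rw [this, Real.norm_eq_abs]
      exact pow_le_one₀ (abs_nonneg _) (h1 i)
    linarith [h6 0, h6 1, h6 2]
  nlinarith [norm_nonneg (crp k q)]

lemma dist_crp (k : ℕ) (q : CI k) (x : E 3)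
    (h : ∀ i, crn k q i - (2 ^ k)⁻¹ < x i ∧ x i ≤ crn k q i) : ‖x - crp k q‖ ≤ 2 * (2 ^ k)⁻¹ := by
  have h2 : (0:ℝ) < (2 ^ k)⁻¹ := by positivity
  have h5 : ‖x - crp k q‖ ^ 2 ≤ 3 * ((2 ^ k)⁻¹) ^ 2 := by
    rw [EuclideanSpace.norm_sq_eq, Fin.sum_univ_three]
    have h6 : ∀ i, ‖(x - crp k q) i‖ ^ 2 ≤ ((2 ^ k)⁻¹) ^ 2 := by
      intro i
      have h7 : (x - crp k q) i = x i - crn k q i := rfl
      rw [h7, Real.norm_eq_abs]
      apply pow_le_pow_left₀ (abs_nonneg _)
      rw [abs_le]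
      have := h i
      constructor <;> linarith
    linarith [h6 0, h6 1, h6 2]
  nlinarith [norm_nonneg (x - crp k q)]

lemma norm_exp_sub_le (a b : ℝ) :
    ‖Complex.exp ((a : ℂ) * Complex.I) - Complex.exp ((b : ℂ) * Complex.I)‖ ≤ |a - b| := by
  have h1 : Complex.exp ((a : ℂ) * Complex.I) - Complex.exp ((b : ℂ) * Complex.I) =
      Complex.exp ((b : ℂ) * Complex.I) * (Complex.exp (((a - b : ℝ) : ℂ) * Complex.I) - 1) := by
    rw [mul_sub, mul_one, ← Complex.exp_add]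
    congr 2
    push_cast
    ring
  rw [h1, norm_mul, Complex.norm_exp_ofReal_mul_I, one_mul, mul_comm]
  exact Real.norm_exp_I_mul_ofReal_sub_one_le

/-! ### Measurability and linearity -/

lemma measurable_ev3 (T : MvPolynomial (Fin 3) ℝ) : Measurable fun x : E 3 => eval (fun i => x i) T := by
  have h1 : Continuous fun x : E 3 => eval (fun i => x i) T := by
    apply MvPolynomial.continuous_eval T |>.comp
    exact continuous_pi fun i => by fun_prop
  exact h1.measurable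

lemma measurable_pex (T : MvPolynomial (Fin 3) ℝ) : Measurable (pex T) := by
  unfold pex
  have := measurable_ev3 T
  fun_prop

lemma norm_pex (T : MvPolynomial (Fin 3) ℝ) (x : E 3) : ‖pex T x‖ = 1 := by
  unfold pex
  exact Complex.norm_exp_ofReal_mul_I _

lemma measurable_oct (s : Fin 3 → ℝ) : Measurable (oct s) := by
  unfold oct
  refine Finset.measurable_prod _ fun i _ => ?_
  refine Measurable.ite ?_ measurable_const measurable_const
  exact measurableSet_lt measurable_const (by fun_prop)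

lemma norm_oct_le (s : Fin 3 → ℝ) (x : E 3) : ‖oct s x‖ ≤ 1 := by
  unfold oct
  rw [norm_prod]
  refine Finset.prod_le_one (fun i _ => norm_nonneg _) fun i _ => ?_
  split_ifs <;> simp

lemma norm_sg (t : Finset (Fin 3)) : ‖sg t‖ = 1 := by
  unfold sg
  simp

lemma measurable_extn' {n : ℕ} {g : E n → ℂ} (hg : Measurable g) : Measurable (extn g) := by
  unfold extn
  have h1 : Measurable fun x : E n × S n => g (x.2 : E n) *
      Complex.exp (((-(2 * π * inner ℝ (x.2 : E n) x.1) : ℝ) : ℂ) * Complex.I) := by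
    have h2 : Measurable fun x : E n × S n => g (x.2 : E n) :=
      hg.comp (f := fun x : E n × S n => (x.2 : E n)) (by fun_prop)
    have h3 : Measurable fun x : E n × S n => (inner ℝ (x.2 : E n) x.1 : ℝ) := by
      have h4 : Measurable fun x : E n × S n => (x.2 : E n) := by fun_prop
      have h5 : Measurable fun x : E n × S n => x.1 := by fun_prop
      exact h4.inner h5
    exact h2.mul (by fun_prop)
  exact (h1.stronglyMeasurable.integral_prod_right' (ν := sm n)).measurable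

lemma integrable_extn {n : ℕ} {g : E n → ℂ} (hg : Measurable g) {K : ℝ} (hK : ∀ x, ‖g x‖ ≤ K)
    (ξ : E n) : Integrable (fun x : S n => g x *
      Complex.exp (((-(2 * π * inner ℝ (x : E n) ξ) : ℝ) : ℂ) * Complex.I)) (sm n) := by
  refine Integrable.of_bound ?_ K (Filter.Eventually.of_forall fun x => ?_)
  · apply Measurable.aestronglyMeasurable
    have h2 : Measurable fun x : S n => g (x : E n) := hg.comp measurable_subtype_coe
    exact h2.mul (by fun_prop)
  · rw [norm_mul, Complex.norm_exp_ofReal_mul_I, mul_one]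
    exact hK _

lemma extn_fsum {n : ℕ} {α : Type*} (s : Finset α) (g : α → E n → ℂ) (hg : ∀ a, Measurable (g a))
    (K : ℝ) (hK : ∀ a x, ‖g a x‖ ≤ K) (ξ : E n) :
    extn (fun x => ∑ a ∈ s, g a x) ξ = ∑ a ∈ s, extn (g a) ξ := by
  unfold extn
  rw [← integral_finsetSum s fun a _ => integrable_extn (hg a) (hK a) ξ]
  congr 1
  ext x
  rw [Finset.sum_mul]

lemma norm_extn_sub_le {n : ℕ} {g h : E n → ℂ} (hg : Measurable g) (hh : Measurable h) {K : ℝ}
    (hgK : ∀ x, ‖g x‖ ≤ K) (hhK : ∀ x, ‖h x‖ ≤ K) {M : ℝ}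
    (hM : ∀ x, ‖x‖ = 1 → ‖g x - h x‖ ≤ M) (ξ : E n) :
    ‖extn g ξ - extn h ξ‖ ≤ M * (sm n).real univ := by
  unfold extn
  rw [← integral_sub (integrable_extn hg hgK ξ) (integrable_extn hh hhK ξ)]
  refine norm_integral_le_of_norm_le_const (Filter.Eventually.of_forall fun x => ?_)
  rw [← sub_mul, norm_mul, Complex.norm_exp_ofReal_mul_I, mul_one]
  exact hM _ (mem_sphere_zero_iff_norm.1 x.2)

lemma measurable_gk {w : E 3 → ℂ} (hw : Measurable w) (k : ℕ) (T : CI k → MvPolynomial (Fin 3) ℝ) :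
    Measurable (gk w k T) := by
  unfold gk
  refine Finset.measurable_sum _ fun q _ => Finset.measurable_sum _ fun t _ => ?_
  exact ((hw.mul (measurable_pex _)).mul (measurable_oct _)).const_mul _

lemma norm_gk_term {w : E 3 → ℂ} (hw1 : ∀ x, ‖w x‖ ≤ 1) (T : MvPolynomial (Fin 3) ℝ)
    (s : Fin 3 → ℝ) (t : Finset (Fin 3)) (x : E 3) :
    ‖sg t * (w x * pex T x * oct s x)‖ ≤ 1 := by
  rw [norm_mul, norm_mul, norm_mul, norm_sg, norm_pex, one_mul, mul_one]
  exact mul_le_one₀ (hw1 x) (norm_nonneg _) (norm_oct_le _ _)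

/-- the number of terms is at most `216 · 8^k` -/
lemma card_bound (k : ℕ) : (Finset.univ : Finset (CI k × Finset (Fin 3))).card ≤ 216 * 8 ^ k := by
  have h1 : (Finset.univ : Finset (CI k × Finset (Fin 3))).card = (2 ^ (k + 1) + 1) ^ 3 * 8 := by
    simp [CI]
  rw [h1]
  have h2 : 2 ^ (k + 1) + 1 ≤ 3 * 2 ^ k := by
    have : 1 ≤ 2 ^ k := Nat.one_le_two_pow
    rw [pow_succ]
    omega
  calc (2 ^ (k + 1) + 1) ^ 3 * 8 ≤ (3 * 2 ^ k) ^ 3 * 8 := by gcongr
    _ = 216 * 8 ^ k := by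
        have : (8:ℕ) ^ k = (2 ^ k) ^ 3 := by
          rw [← pow_mul, mul_comm k 3, pow_mul]; norm_num
        rw [this]; ring

/-- The norms of the approximations. -/
lemma eLp_gk {w : E 3 → ℂ} (hw : Measurable w) (hw1 : ∀ x, ‖w x‖ ≤ 1) (k : ℕ)
    (T : CI k → MvPolynomial (Fin 3) ℝ) {p : ℝ} (hp : 1 ≤ p) {C : ℝ≥0∞}
    (H : ∀ (q : CI k) (s : Fin 3 → ℝ),
      ∫⁻ ξ, ‖extn (fun x => w x * pex (T q) x * oct s x) ξ‖ₑ ^ p ≤ C) :
    eLpNorm' (extn (gk w k T)) p volume ≤ (216 * 8 ^ k : ℕ) * C ^ (1 / p) := by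
  have h1 : extn (gk w k T) = fun ξ => ∑ a : CI k × Finset (Fin 3),
      extn (fun x => sg a.2 * (w x * pex (T a.1) x * oct (shf k a.1 a.2) x)) ξ := by
    funext ξ
    rw [← extn_fsum (Finset.univ : Finset (CI k × Finset (Fin 3)))
      (fun a x => sg a.2 * (w x * pex (T a.1) x * oct (shf k a.1 a.2) x))
      (fun a => ((hw.mul (measurable_pex _)).mul (measurable_oct _)).const_mul _) 1
      (fun a x => norm_gk_term hw1 _ _ _ _)]
    congr 1
    funext x
    unfold gk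
    rw [Fintype.sum_prod_type]
  have h2 : ∀ a : CI k × Finset (Fin 3),
      eLpNorm' (extn (fun x => sg a.2 * (w x * pex (T a.1) x * oct (shf k a.1 a.2) x))) p volume ≤
        C ^ (1 / p) := by
    intro a
    unfold eLpNorm'
    apply ENNReal.rpow_le_rpow _ (by positivity)
    refine le_trans (le_of_eq ?_) (H a.1 (shf k a.1 a.2))
    refine lintegral_congr fun ξ => ?_
    have h3 : extn (fun x => sg a.2 * (w x * pex (T a.1) x * oct (shf k a.1 a.2) x)) ξ =
        sg a.2 * extn (fun x => w x * pex (T a.1) x * oct (shf k a.1 a.2) x) ξ := by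
      unfold extn
      rw [← integral_const_mul]
      congr 1
      ext x
      ring
    rw [h3, enorm_mul]
    have h4 : ‖sg a.2‖ₑ = 1 := by
      rw [← ofReal_norm, norm_sg, ENNReal.ofReal_one]
    rw [h4, one_mul]
  have h5 : ∀ s : Finset (CI k × Finset (Fin 3)),
      eLpNorm' (fun ξ => ∑ a ∈ s,
        extn (fun x => sg a.2 * (w x * pex (T a.1) x * oct (shf k a.1 a.2) x)) ξ) p volume ≤
        (s.card : ℝ≥0∞) * C ^ (1 / p) := by
    classical
    intro s
    induction s using Finset.induction_on with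
    | empty =>
      simp only [Finset.sum_empty, Finset.card_empty, Nat.cast_zero, zero_mul]
      unfold eLpNorm'
      simp [ENNReal.zero_rpow_of_pos (show 0 < p by linarith),
        ENNReal.zero_rpow_of_pos (show 0 < p⁻¹ by positivity)]
    | insert a s ha ih =>
      have h6 : (fun ξ => ∑ a ∈ insert a s,
          extn (fun x => sg a.2 * (w x * pex (T a.1) x * oct (shf k a.1 a.2) x)) ξ) =
          extn (fun x => sg a.2 * (w x * pex (T a.1) x * oct (shf k a.1 a.2) x)) +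
          fun ξ => ∑ a ∈ s,
            extn (fun x => sg a.2 * (w x * pex (T a.1) x * oct (shf k a.1 a.2) x)) ξ := by
        funext ξ
        rw [Finset.sum_insert ha]
        rfl
      have hme : ∀ a : CI k × Finset (Fin 3), Measurable
          (extn (fun x => sg a.2 * (w x * pex (T a.1) x * oct (shf k a.1 a.2) x))) := fun a =>
        measurable_extn' (((hw.mul (measurable_pex _)).mul (measurable_oct _)).const_mul _)
      rw [h6]
      refine (eLpNorm'_add_le (hme a).aestronglyMeasurable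
        (Finset.measurable_sum _ fun b _ => hme b).aestronglyMeasurable hp).trans ?_
      rw [Finset.card_insert_of_notMem ha]
      push_cast
      rw [add_mul, one_mul, add_comm]
      exact add_le_add ih (h2 a)
  rw [h1]
  refine (h5 Finset.univ).trans ?_
  gcongr
  exact_mod_cast card_bound k

lemma norm_gk_le {w : E 3 → ℂ} (hw1 : ∀ x, ‖w x‖ ≤ 1) (k : ℕ) (T : CI k → MvPolynomial (Fin 3) ℝ)
    (x : E 3) : ‖gk w k T x‖ ≤ (216 * 8 ^ k : ℕ) := by
  have h1 : gk w k T x = ∑ a : CI k × Finset (Fin 3),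
      sg a.2 * (w x * pex (T a.1) x * oct (shf k a.1 a.2) x) := by
    unfold gk
    rw [Fintype.sum_prod_type]
  rw [h1]
  calc ‖∑ a : CI k × Finset (Fin 3), sg a.2 * (w x * pex (T a.1) x * oct (shf k a.1 a.2) x)‖
      ≤ ∑ _a : CI k × Finset (Fin 3), (1:ℝ) := norm_sum_le_of_le _ fun a _ => norm_gk_term hw1 _ _ _ _
    _ = ((Finset.univ : Finset (CI k × Finset (Fin 3))).card : ℝ) := by simp
    _ ≤ _ := by exact_mod_cast card_bound k

lemma measurable_fam {d : ℕ} (φ : Fin d → E 3 → ℝ) (hs : ∀ j, ContDiff ℝ ((⊤ : ℕ∞) : WithTop ℕ∞) (φ j))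
    (c : Fin d → ℝ) : Measurable (fam φ c) := by
  unfold fam
  exact Finset.measurable_sum _ fun j _ => ((hs j).continuous.measurable).const_mul _

/-- **Smooth phases with arbitrarily small loss**, for a general class of factors. -/
theorem smooth_loss_cls (cls : (E 3 → ℂ) → Prop)
    (hcls : ∀ w, cls w → Measurable w ∧ ∀ x, ‖w x‖ ≤ 1)
    (H : ∀ (A : ℕ) (p : ℝ), 3 < p → ∃ C : ℝ≥0∞, C ≠ ∞ ∧ ∀ (w : E 3 → ℂ)
      (T : MvPolynomial (Fin 3) ℝ) (s : Fin 3 → ℝ), cls w → T.totalDegree ≤ A →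
        ∫⁻ ξ, ‖extn (fun x => w x * pex T x * oct s x) ξ‖ₑ ^ p ≤ C)
    {d : ℕ} (φ : Fin d → E 3 → ℝ) (hs : ∀ j, ContDiff ℝ ((⊤ : ℕ∞) : WithTop ℕ∞) (φ j))
    (p ε : ℝ) (hp : 3 < p) (hε : 0 < ε) :
    ∃ C : ℝ≥0∞, C ≠ ∞ ∧ ∀ (c : Fin d → ℝ) (w : E 3 → ℂ), cls w →
      ∫⁻ ξ, ‖extn (fun x => w x * Complex.exp (((fam φ c x : ℝ) : ℂ) * Complex.I)) ξ‖ₑ ^ p ≤
        C * ENNReal.ofReal ((1 + ‖c‖) ^ ε) := by
  have key := tele_geo (μ := (volume : Measure (E 3))) (ι := (Fin d → ℝ) × {w : E 3 → ℂ // cls w})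
    (fun i => extn (fun x => i.2.1 x * Complex.exp (((fam φ i.1 x : ℝ) : ℂ) * Complex.I)))
    (fun i => 1 + ‖i.1‖) (fun i => by linarith [norm_nonneg i.1]) 3 (by norm_num) ?_ p hp ε hε
  · obtain ⟨C, hC, h⟩ := key
    exact ⟨C, hC, fun c w hw => h (c, ⟨w, hw⟩)⟩
  intro A
  have hT0 := fun j => taylor3 (φ j) (hs j) A
  choose K hK hT using hT0
  choose! T hTd hTe using hT
  set TT : (Fin d → ℝ) → (k : ℕ) → CI k → MvPolynomial (Fin 3) ℝ := fun c k q =>
    ∑ j, C (c j) * T j (crp k q) with hTT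
  have hdeg : ∀ c k q, (TT c k q).totalDegree ≤ A := by
    intro c k q
    refine totalDegree_finsetSum_le fun j _ => ?_
    refine (totalDegree_mul _ _).trans ?_
    rw [totalDegree_C, zero_add]
    exact hTd j _ (crp_norm k q)
  set KK : ℝ := ∑ j, K j with hKK
  have hKK0 : 0 ≤ KK := Finset.sum_nonneg fun j _ => hK j
  have herr : ∀ c k q (x : E 3), ‖x‖ = 1 → (∀ i, crn k q i - (2 ^ k)⁻¹ < x i ∧ x i ≤ crn k q i) →
      |fam φ c x - eval (fun i => x i) (TT c k q)| ≤
        (1 + ‖c‖) * KK * (2 ^ (A + 1) * ((2:ℝ) ^ (k * (A + 1)))⁻¹) := by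
    intro c k q x hx hq
    have hd := dist_crp k q x hq
    have hx2 : x ∈ Metric.closedBall (0 : E 3) 2 := by
      rw [mem_closedBall_zero_iff, hx]; norm_num
    have h1 : fam φ c x - eval (fun i => x i) (TT c k q) =
        ∑ j, c j * (φ j x - eval (fun i => x i) (T j (crp k q))) := by
      rw [hTT, map_sum]
      unfold fam
      rw [← Finset.sum_sub_distrib]
      refine Finset.sum_congr rfl fun j _ => ?_
      rw [map_mul, eval_C]
      ring
    have h2 : ‖x - crp k q‖ ^ (A + 1) ≤ 2 ^ (A + 1) * ((2:ℝ) ^ (k * (A + 1)))⁻¹ := by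
      calc ‖x - crp k q‖ ^ (A + 1) ≤ (2 * (2 ^ k)⁻¹) ^ (A + 1) :=
            pow_le_pow_left₀ (norm_nonneg _) hd _
        _ = _ := by rw [mul_pow, inv_pow, ← pow_mul]
    rw [h1]
    calc |∑ j, c j * (φ j x - eval (fun i => x i) (T j (crp k q)))|
        ≤ ∑ j, |c j * (φ j x - eval (fun i => x i) (T j (crp k q)))| :=
          Finset.abs_sum_le_sum_abs _ _
      _ ≤ ∑ j, (1 + ‖c‖) * (K j * (2 ^ (A + 1) * ((2:ℝ) ^ (k * (A + 1)))⁻¹)) := by
          refine Finset.sum_le_sum fun j _ => ?_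
          rw [abs_mul]
          have h3 : |c j| ≤ 1 + ‖c‖ := by
            have := norm_le_pi_norm c j
            rw [Real.norm_eq_abs] at this
            linarith
          have h4 := hTe j (crp k q) (crp_norm k q) x hx2
          refine mul_le_mul h3 (h4.trans ?_) (abs_nonneg _) (by positivity)
          exact mul_le_mul_of_nonneg_left h2 (hK j)
      _ = _ := by
          rw [hKK, ← Finset.mul_sum, ← Finset.sum_mul]
          ring
  refine ⟨fun i k => extn (gk i.2.1 k (TT i.1 k)), fun i k =>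
    measurable_extn' (measurable_gk (hcls _ i.2.2).1 k _), ?_, ?_⟩
  · refine ⟨KK * 2 ^ (A + 1) * (sm 3).real univ, by positivity, ?_⟩
    rintro ⟨c, w, hw⟩ k ξ
    obtain ⟨hwm, hw1⟩ := hcls w hw
    have h216 : (1:ℝ) ≤ (216 * 8 ^ k : ℕ) := by
      have : 1 ≤ 216 * 8 ^ k := Nat.mul_pos (by norm_num) (pow_pos (by norm_num) k)
      exact_mod_cast this
    have hfm := measurable_fam φ hs c
    have h5 := norm_extn_sub_le (n := 3) (g := gk w k (TT c k))
      (h := fun x => w x * Complex.exp (((fam φ c x : ℝ) : ℂ) * Complex.I))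
      (measurable_gk hwm k _) (hwm.mul (by fun_prop)) (K := (216 * 8 ^ k : ℕ))
      (fun x => norm_gk_le hw1 k _ x) (fun x => by
        rw [norm_mul, Complex.norm_exp_ofReal_mul_I, mul_one]
        exact (hw1 x).trans h216)
      (M := (1 + ‖c‖) * KK * (2 ^ (A + 1) * ((2:ℝ) ^ (k * (A + 1)))⁻¹)) (fun x hx => by
        obtain ⟨q, hq, hgq⟩ := gk_eq w k (TT c k) x hx
        rw [hgq, ← mul_sub, norm_mul]
        unfold pex
        have h6 := norm_exp_sub_le (eval (fun i => x i) (TT c k q)) (fam φ c x)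
        rw [abs_sub_comm] at h6
        calc ‖w x‖ * ‖_‖ ≤ 1 * |fam φ c x - eval (fun i => x i) (TT c k q)| :=
              mul_le_mul (hw1 x) h6 (norm_nonneg _) zero_le_one
          _ ≤ _ := by rw [one_mul]; exact herr c k q x hx hq) ξ
    refine h5.trans (le_of_eq ?_)
    ring
  · intro q hq
    obtain ⟨C0, hC0, h0⟩ := H A q hq
    refine ⟨216 * (C0 ^ (1 / q)).toReal, by positivity, ?_⟩
    rintro ⟨c, w, hw⟩ k
    obtain ⟨hwm, hw1⟩ := hcls w hw
    have h1 := eLp_gk hwm hw1 k (TT c k) (p := q) (by linarith) (C := C0)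
      (fun q' s => h0 w _ s hw (hdeg c k q'))
    refine h1.trans (le_of_eq ?_)
    have h2 : C0 ^ (1 / q) ≠ ∞ := ENNReal.rpow_ne_top_of_nonneg (by positivity) hC0
    rw [mul_right_comm, ENNReal.ofReal_mul (by positivity), ENNReal.ofReal_toReal h2]
    congr 1
    rw [← ENNReal.ofReal_natCast]
    congr 1
    push_cast
    ring

end Pool.Agent.VAN
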