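import Mathlib

/-!
Covering of a finite set by few sparse families of balls.
-/

namespace Pool.Agent.VAN

open Finset

section

/-- Greedy colouring: if every point has fewer than `q` neighbours then `q` colours are enough. -/
theorem greedy_color {X : Type*} [DecidableEq X] (adj : X → X → Prop) [DecidableRel adj]
    (hs : ∀ x y, adj x y → adj y x) (q : ℕ) (F : Finset X)
    (hF : ∀ x ∈ F, (F.filter fun y => y ≠ x ∧ adj x y).card < q) :
    ∃ c : X → ℕ, ∀ x ∈ F, c x < q ∧ ∀ y ∈ F, y ≠ x → adj x y → c x ≠ c y := by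
  induction F using Finset.induction_on with
  | empty => exact ⟨fun _ => 0, by simp⟩
  | insert a F ha ih =>
    obtain ⟨c, hc⟩ := ih fun x hx => by
      refine lt_of_le_of_lt (Finset.card_le_card fun y hy => ?_)
        (hF x (Finset.mem_insert_of_mem hx))
      rw [Finset.mem_filter] at hy ⊢
      exact ⟨Finset.mem_insert_of_mem hy.1, hy.2⟩
    set S : Finset X := (insert a F).filter fun y => y ≠ a ∧ adj a y with hS
    have h1 : (S.image c).card < (Finset.range q).card := by
      rw [Finset.card_range]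
      exact lt_of_le_of_lt Finset.card_image_le (hF a (Finset.mem_insert_self a F))
    obtain ⟨t, ht, ht'⟩ := Finset.exists_mem_notMem_of_card_lt_card h1
    rw [Finset.mem_range] at ht
    refine ⟨fun x => if x = a then t else c x, fun x hx => ?_⟩
    have hSc : ∀ y ∈ F, y ≠ a → adj a y → c y ≠ t := fun y hy hya hay h => by
      refine ht' (Finset.mem_image.2 ⟨y, ?_, h⟩)
      rw [hS, Finset.mem_filter]
      exact ⟨Finset.mem_insert_of_mem hy, hya, hay⟩
    rcases Finset.mem_insert.1 hx with rfl | hx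
    · refine ⟨by simpa using ht, fun y hy hyx hxy => ?_⟩
      simp only [if_true, if_neg hyx]
      rcases Finset.mem_insert.1 hy with h | hy
      · exact absurd h hyx
      · exact (hSc y hy hyx hxy).symm
    · have hxa : x ≠ a := fun h => ha (h ▸ hx)
      refine ⟨by simpa [hxa] using (hc x hx).1, fun y hy hyx hxy => ?_⟩
      simp only [if_neg hxa]
      by_cases hya : y = a
      · simp only [hya, if_true]
        exact hSc x hx hxa (hs x a (hya ▸ hxy))
      · simp only [if_neg hya]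
        rcases Finset.mem_insert.1 hy with h | hy
        · exact absurd h hya
        · exact (hc x hx).2 y hy hyx hxy

/-- Maximal separated subsets. -/
theorem exists_net {X : Type*} [PseudoMetricSpace X] (E : Finset X) (r : ℝ) (hr : 0 ≤ r) :
    ∃ F ⊆ E, (∀ x ∈ F, ∀ y ∈ F, x ≠ y → r < dist x y) ∧ ∀ x ∈ E, ∃ y ∈ F, dist x y ≤ r := by
  classical
  induction E using Finset.induction_on with
  | empty => exact ⟨∅, by simp⟩
  | insert a E ha ih =>
    obtain ⟨F, hFE, hsep, hcov⟩ := ih
    by_cases h : ∃ y ∈ F, dist a y ≤ r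
    · refine ⟨F, hFE.trans (Finset.subset_insert _ _), hsep, fun x hx => ?_⟩
      rcases Finset.mem_insert.1 hx with rfl | hx
      · exact h
      · exact hcov x hx
    · push Not at h
      refine ⟨insert a F, Finset.insert_subset_insert _ hFE, fun x hx y hy hxy => ?_, fun x hx => ?_⟩
      · rcases Finset.mem_insert.1 hx with rfl | hx'
        · rcases Finset.mem_insert.1 hy with rfl | hy'
          · exact absurd rfl hxy
          · exact h y hy'
        · rcases Finset.mem_insert.1 hy with rfl | hy'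
          · rw [dist_comm]
            exact h x hx'
          · exact hsep x hx' y hy' hxy
      · rcases Finset.mem_insert.1 hx with rfl | hx
        · exact ⟨x, Finset.mem_insert_self _ _, by rw [dist_self]; exact hr⟩
        · obtain ⟨y, hy, hxy⟩ := hcov x hx
          exact ⟨y, Finset.mem_insert_of_mem hy, hxy⟩

/-- The radii: `n` is the number of points. -/
noncomputable def rad (n C : ℕ) : ℕ → ℝ
  | 0 => 1
  | i + 1 => 4 * (2 * rad n C i * n) ^ C

theorem rad_ge {n : ℕ} (hn : 1 ≤ n) (C i : ℕ) : 1 ≤ rad n C i := by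
  have hn' : (1 : ℝ) ≤ n := by exact_mod_cast hn
  induction i with
  | zero => simp [rad]
  | succ i ih =>
    rw [rad]
    have h1 : (1 : ℝ) ≤ 2 * rad n C i * n := by nlinarith
    have h2 : (1 : ℝ) ≤ (2 * rad n C i * n) ^ C := one_le_pow₀ h1
    linarith

theorem rad_sep {n C : ℕ} (hn : 1 ≤ n) (hC : 1 ≤ C) (i : ℕ) :
    rad n C i ≤ (2 * rad n C i * n) ^ C := by
  have hn' : (1 : ℝ) ≤ n := by exact_mod_cast hn
  have h0 := rad_ge hn C i
  have h1 : (1 : ℝ) ≤ 2 * rad n C i * n := by nlinarith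
  calc rad n C i ≤ 2 * rad n C i * n := by nlinarith
    _ = (2 * rad n C i * n) ^ 1 := (pow_one _).symm
    _ ≤ _ := pow_le_pow_right₀ h1 hC

theorem rad_le {n C : ℕ} (hn : 1 ≤ n) (hC : 1 ≤ C) (i : ℕ) :
    rad n C i ≤ (8 * (n : ℝ)) ^ ((2 * C) ^ i) := by
  have hn' : (1 : ℝ) ≤ n := by exact_mod_cast hn
  induction i with
  | zero =>
    rw [rad, pow_zero, pow_one]
    linarith
  | succ i ih =>
    have h0 := rad_ge hn C i
    have h1 : (4 : ℝ) ≤ 4 ^ C := by
      calc (4 : ℝ) = 4 ^ 1 := (pow_one _).symm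
        _ ≤ 4 ^ C := pow_le_pow_right₀ (by norm_num) hC
    have h8 : (1 : ℝ) ≤ 8 * n := by linarith
    have h2 : (1 : ℕ) ≤ (2 * C) ^ i := Nat.one_le_pow _ _ (by omega)
    calc rad n C (i + 1) = 4 * (2 * rad n C i * n) ^ C := rfl
      _ ≤ 4 ^ C * (2 * rad n C i * n) ^ C := by
        refine mul_le_mul_of_nonneg_right h1 (by positivity)
      _ = (8 * n * rad n C i) ^ C := by
        rw [← mul_pow]
        ring_nf
      _ ≤ (8 * n * (8 * (n : ℝ)) ^ ((2 * C) ^ i)) ^ C := by gcongr
      _ = (8 * (n : ℝ)) ^ ((1 + (2 * C) ^ i) * C) := by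
        rw [pow_mul, pow_add, pow_one]
      _ ≤ (8 * (n : ℝ)) ^ ((2 * C) ^ (i + 1)) := by
        refine pow_le_pow_right₀ h8 ?_
        rw [pow_succ]
        nlinarith

/-- The number of points of `E` within `r` of `x`. -/
noncomputable def cnt {X : Type*} [PseudoMetricSpace X] (E : Finset X) (x : X) (r : ℝ) : ℕ :=
  by classical exact (E.filter fun y => dist y x ≤ r).card

theorem cnt_le {X : Type*} [PseudoMetricSpace X] (E : Finset X) (x : X) (r : ℝ) :
    cnt E x r ≤ E.card := by
  classical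
  unfold cnt
  convert Finset.card_filter_le E fun y => dist y x ≤ r

theorem cnt_pos {X : Type*} [PseudoMetricSpace X] {E : Finset X} {x : X} (hx : x ∈ E) {r : ℝ}
    (hr : 0 ≤ r) : 1 ≤ cnt E x r := by
  classical
  unfold cnt
  refine Finset.card_pos.2 ⟨x, ?_⟩
  rw [Finset.mem_filter]
  exact ⟨hx, by rw [dist_self]; exact hr⟩

/-- Every point has a level at which the number of points does not grow much. -/
theorem exists_level {X : Type*} [PseudoMetricSpace X] (E : Finset X) (N : ℕ) (hN : 1 ≤ N)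
    (R : ℕ → ℝ) (hR : 0 ≤ R 0) {x : X} (hx : x ∈ E) :
    ∃ i < N, (cnt E x (R (i + 1)) : ℝ) ≤ (E.card : ℝ) ^ ((1 : ℝ) / N) * cnt E x (R i) := by
  by_contra hne
  push Not at hne
  set q : ℝ := (E.card : ℝ) ^ ((1 : ℝ) / N) with hq
  have hq0 : 0 ≤ q := by positivity
  have key : ∀ i, i < N → q ^ (i + 1) < cnt E x (R (i + 1)) := by
    intro i
    induction i with
    | zero =>
      intro h
      refine lt_of_le_of_lt ?_ (hne 0 h)
      have h1 : (1 : ℝ) ≤ cnt E x (R 0) := by exact_mod_cast cnt_pos hx hR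
      rw [zero_add, pow_one]
      nlinarith
    | succ i ih =>
      intro h
      refine lt_of_le_of_lt ?_ (hne (i + 1) h)
      have h1 := (ih (by omega)).le
      rw [pow_succ, mul_comm]
      exact mul_le_mul_of_nonneg_left h1 hq0
  have h1 := key (N - 1) (by omega)
  rw [Nat.sub_add_cancel hN] at h1
  have h2 : q ^ N = E.card := by
    rw [hq, ← Real.rpow_natCast, ← Real.rpow_mul (by positivity)]
    have h3 : (N : ℝ) ≠ 0 := by exact_mod_cast (by omega : N ≠ 0)
    rw [one_div, inv_mul_cancel₀ h3, Real.rpow_one]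
  rw [h2] at h1
  have h3 : (cnt E x (R N) : ℝ) ≤ E.card := by exact_mod_cast cnt_le E x _
  linarith

/-- The degree bound. -/
theorem degree_bound {X : Type*} [PseudoMetricSpace X] (E F : Finset X) (hFE : F ⊆ E) (q r S R : ℝ)
    (hr : 0 ≤ r) (hS : r ≤ S) (hR : 3 * S ≤ R)
    (hF : ∀ x ∈ F, (cnt E x R : ℝ) ≤ q * cnt E x r)
    (hsep : ∀ x ∈ F, ∀ y ∈ F, x ≠ y → 2 * r < dist x y) {x : X} (hx : x ∈ F) (T : Finset X)
    (hT : T ⊆ F) (hTx : ∀ y ∈ T, dist x y ≤ S) : (T.card : ℝ) ≤ q := by
  classical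
  set m : ℕ := cnt E x (S + r) with hm
  have hm1 : 1 ≤ m := cnt_pos (hFE hx) (by linarith)
  have hm0 : (0 : ℝ) < m := by exact_mod_cast hm1
  have h1 : ∀ y ∈ T, (m : ℝ) ≤ q * cnt E y r := by
    intro y hy
    refine le_trans ?_ (hF y (hT hy))
    have : m ≤ cnt E y R := by
      rw [hm]
      unfold cnt
      refine Finset.card_le_card fun z hz => ?_
      rw [Finset.mem_filter] at hz ⊢
      refine ⟨hz.1, ?_⟩
      have := dist_triangle z x y
      have := hTx y hy
      linarith [hz.2]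
    exact_mod_cast this
  have h2 : ∑ y ∈ T, cnt E y r ≤ m := by
    have h3 : ∑ y ∈ T, cnt E y r = (T.biUnion fun y => E.filter fun z => dist z y ≤ r).card := by
      rw [Finset.card_biUnion]
      · rfl
      · intro y hy y' hy' hne
        refine Finset.disjoint_left.2 fun z hz hz' => ?_
        rw [Finset.mem_filter] at hz hz'
        have h4 := hsep y (hT hy) y' (hT hy') hne
        have h5 := dist_triangle y z y'
        rw [dist_comm y z] at h5
        linarith [hz.2, hz'.2]
    rw [h3, hm]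
    unfold cnt
    refine Finset.card_le_card fun z hz => ?_
    rw [Finset.mem_biUnion] at hz
    obtain ⟨y, hy, hz⟩ := hz
    rw [Finset.mem_filter] at hz ⊢
    refine ⟨hz.1, ?_⟩
    have h5 := dist_triangle z y x
    have h6 := hTx y hy
    rw [dist_comm] at h6
    linarith [hz.2]
  have hq : 0 ≤ q := by
    by_contra hq
    push Not at hq
    have h3 := hF x hx
    have h4 : (1 : ℝ) ≤ cnt E x r := by exact_mod_cast cnt_pos (hFE hx) hr
    have h5 : (0 : ℝ) ≤ cnt E x R := by positivity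
    nlinarith
  have h4 : (T.card : ℝ) * m ≤ q * m := by
    calc (T.card : ℝ) * m = ∑ _y ∈ T, (m : ℝ) := by rw [Finset.sum_const, nsmul_eq_mul]
      _ ≤ ∑ y ∈ T, q * cnt E y r := Finset.sum_le_sum h1
      _ = q * ((∑ y ∈ T, cnt E y r : ℕ) : ℝ) := by
        rw [← Finset.mul_sum]
        push_cast
        rfl
      _ ≤ q * m := mul_le_mul_of_nonneg_left (by exact_mod_cast h2) hq
  exact le_of_mul_le_mul_right h4 hm0

/-- ROW S1. Sparse covering: a finite set `E` with `n` points is the union of at most `N n^(1/N)`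
families, each of which lies within `ρ` of centres which are `(ρ n)^C`-separated. -/
theorem sparse_cover {X : Type*} [PseudoMetricSpace X] (E : Finset X) (N C : ℕ) (hN : 1 ≤ N)
    (hC : 1 ≤ C) : ∃ (ρ : ℕ → ℝ) (k c : X → ℕ) (z : X → X), (∀ i, 2 ≤ ρ i) ∧
      (∀ i, ρ i ≤ 2 * (8 * (E.card : ℝ)) ^ ((2 * C) ^ i) ∨ E = ∅) ∧
      (∀ x ∈ E, k x < N ∧ c x < ⌊(E.card : ℝ) ^ ((1 : ℝ) / N)⌋₊ ∧ z x ∈ E ∧
        dist x (z x) ≤ ρ (k x)) ∧
      ∀ x ∈ E, ∀ y ∈ E, k x = k y → c x = c y → z x = z y ∨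
        (ρ (k x) * E.card) ^ C < dist (z x) (z y) := by
  classical
  rcases E.eq_empty_or_nonempty with rfl | hE
  · exact ⟨fun _ => 2, fun _ => 0, fun _ => 0, id, fun _ => le_rfl, fun _ => Or.inr rfl,
      by simp, by simp⟩
  have hn : 1 ≤ E.card := Finset.card_pos.2 hE
  set n := E.card with hnE
  set R : ℕ → ℝ := rad n C with hR
  set q : ℝ := (n : ℝ) ^ ((1 : ℝ) / N) with hq
  have hR1 : ∀ i, 1 ≤ R i := rad_ge hn C
  have hlev := fun x (hx : x ∈ E) => exists_level E N hN R (by linarith [hR1 0]) hx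
  -- the nets and the colourings
  have hnet : ∀ i, ∃ F ⊆ (E.filter fun x => (cnt E x (R (i + 1)) : ℝ) ≤ q * cnt E x (R i)),
      (∀ x ∈ F, ∀ y ∈ F, x ≠ y → 2 * R i < dist x y) ∧
        ∀ x ∈ (E.filter fun x => (cnt E x (R (i + 1)) : ℝ) ≤ q * cnt E x (R i)),
          ∃ y ∈ F, dist x y ≤ 2 * R i := fun i => exists_net _ _ (by linarith [hR1 i])
  choose F hFE hsep hcov using hnet
  have hcol : ∀ i, ∃ c : X → ℕ, ∀ x ∈ F i, c x < ⌊q⌋₊ ∧ ∀ y ∈ F i, y ≠ x →
      dist x y ≤ (2 * R i * n) ^ C → c x ≠ c y := by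
    intro i
    refine greedy_color (fun x y => dist x y ≤ (2 * R i * n) ^ C)
      (fun x y h => by rw [dist_comm]; exact h) ⌊q⌋₊ (F i) fun x hx => ?_
    have hS : R i ≤ (2 * R i * n) ^ C := rad_sep hn hC i
    have hFi : F i ⊆ E := (hFE i).trans (Finset.filter_subset _ _)
    have hb := degree_bound E (F i) hFi q (R i) ((2 * R i * n) ^ C) (R (i + 1))
      (by linarith [hR1 i]) hS (by
        have h1 : R (i + 1) = 4 * (2 * R i * n) ^ C := rfl
        have h2 : 0 ≤ (2 * R i * n) ^ C := by linarith [hR1 i]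
        rw [h1]
        linarith) (fun y hy => (Finset.mem_filter.1 (hFE i hy)).2) (hsep i) hx
      (insert x ((F i).filter fun y => y ≠ x ∧ dist x y ≤ (2 * R i * n) ^ C))
      (Finset.insert_subset hx (Finset.filter_subset _ _)) (fun y hy => by
        rcases Finset.mem_insert.1 hy with rfl | hy
        · rw [dist_self]
          linarith [hR1 i]
        · exact (Finset.mem_filter.1 hy).2.2)
    rw [Finset.card_insert_of_notMem (by simp)] at hb
    have h3 := Nat.le_floor hb
    omega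
  choose col hcol using hcol
  -- the level and the centre
  have hch : ∀ x, ∃ (i : ℕ) (z : X), x ∈ E → i < N ∧ z ∈ F i ∧ dist x z ≤ 2 * R i := by
    intro x
    by_cases hx : x ∈ E
    · obtain ⟨i, hi, h⟩ := hlev x hx
      obtain ⟨z, hz, hxz⟩ := hcov i x (Finset.mem_filter.2 ⟨hx, h⟩)
      exact ⟨i, z, fun _ => ⟨hi, hz, hxz⟩⟩
    · exact ⟨0, x, fun h => absurd h hx⟩
  choose k z hkz using hch
  refine ⟨fun i => 2 * R i, k, fun x => col (k x) (z x), z, fun i => by linarith [hR1 i],
    fun i => Or.inl (mul_le_mul_of_nonneg_left (rad_le hn hC i) (by norm_num)), fun x hx => ?_,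
    fun x hx y hy hk hc => ?_⟩
  · obtain ⟨h1, h2, h3⟩ := hkz x hx
    exact ⟨h1, (hcol (k x) (z x) h2).1, (Finset.mem_filter.1 (hFE _ h2)).1, h3⟩
  · obtain ⟨h1, h2, h3⟩ := hkz x hx
    obtain ⟨h1', h2', h3'⟩ := hkz y hy
    by_cases hz : z x = z y
    · exact Or.inl hz
    · right
      by_contra hle
      push Not at hle
      rw [← hk] at h2'
      refine (hcol (k x) (z x) h2).2 (z y) h2' (Ne.symm hz) hle ?_
      have hc' : col (k x) (z x) = col (k y) (z y) := hc
      rw [hc', hk]

end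

end Pool.Agent.VAN
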