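import Mathlib

/-!
DIM row S2: Khinchine's inequality (both sides, elementary) and the square-function transfer.
-/

set_option autoImplicit false
open scoped BigOperators
open MeasureTheory Finset

namespace Pool.Agent.VAN.DIMS2

/-- sign of `i` for the set `T` of plus signs -/
noncomputable def sg {ι : Type*} (T : Finset ι) (i : ι) : ℝ := by
  classical exact if i ∈ T then 1 else -1

lemma sg_of_mem {ι : Type*} {T : Finset ι} {i : ι} (h : i ∈ T) : sg T i = 1 := by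
  simp [sg, h]

lemma sg_of_not_mem {ι : Type*} {T : Finset ι} {i : ι} (h : i ∉ T) : sg T i = -1 := by
  simp [sg, h]

/-- the signed sum -/
noncomputable def X {ι : Type*} (s : Finset ι) (a : ι → ℂ) (T : Finset ι) : ℂ :=
  ∑ i ∈ s, ((sg T i : ℝ) : ℂ) * a i

/-- average over all signs -/
noncomputable def av {ι : Type*} (s : Finset ι) (F : Finset ι → ℝ) : ℝ :=
  ((2:ℝ) ^ s.card)⁻¹ * ∑ T ∈ s.powerset, F T

lemma av_insert {ι : Type*} [DecidableEq ι] {s : Finset ι} {a : ι} (ha : a ∉ s) (F : Finset ι → ℝ) :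
    av (insert a s) F = av s (fun T => (F T + F (insert a T)) / 2) := by
  unfold av
  rw [Finset.sum_powerset_insert ha, Finset.card_insert_of_notMem ha, pow_succ, ← Finset.sum_add_distrib,
    ← Finset.sum_div]
  field_simp

lemma av_congr {ι : Type*} {s : Finset ι} {F G : Finset ι → ℝ} (h : ∀ T ⊆ s, F T = G T) :
    av s F = av s G := by
  unfold av
  congr 1
  exact Finset.sum_congr rfl fun T hT => h T (Finset.mem_powerset.mp hT)

lemma av_mono {ι : Type*} {s : Finset ι} {F G : Finset ι → ℝ} (h : ∀ T ⊆ s, F T ≤ G T) :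
    av s F ≤ av s G := by
  unfold av
  apply mul_le_mul_of_nonneg_left _ (by positivity)
  exact Finset.sum_le_sum fun T hT => h T (Finset.mem_powerset.mp hT)

lemma av_nonneg {ι : Type*} {s : Finset ι} {F : Finset ι → ℝ} (h : ∀ T ⊆ s, 0 ≤ F T) :
    0 ≤ av s F := by
  unfold av
  apply mul_nonneg (by positivity)
  exact Finset.sum_nonneg fun T hT => h T (Finset.mem_powerset.mp hT)

lemma av_const {ι : Type*} (s : Finset ι) (c : ℝ) : av s (fun _ => c) = c := by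
  unfold av
  rw [Finset.sum_const, Finset.card_powerset]
  simp

lemma av_add {ι : Type*} (s : Finset ι) (F G : Finset ι → ℝ) :
    av s (fun T => F T + G T) = av s F + av s G := by
  unfold av
  rw [Finset.sum_add_distrib, mul_add]

lemma av_mul {ι : Type*} (s : Finset ι) (c : ℝ) (F : Finset ι → ℝ) :
    av s (fun T => c * F T) = c * av s F := by
  unfold av
  rw [← Finset.mul_sum]; ring

lemma X_insert_out {ι : Type*} [DecidableEq ι] {s : Finset ι} {b : ι} (hb : b ∉ s) (a : ι → ℂ)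
    {T : Finset ι} (hT : T ⊆ s) : X (insert b s) a T = X s a T - a b := by
  unfold X
  rw [Finset.sum_insert hb, sg_of_not_mem (fun h => hb (hT h))]
  push_cast; ring

lemma X_insert_in {ι : Type*} [DecidableEq ι] {s : Finset ι} {b : ι} (hb : b ∉ s) (a : ι → ℂ)
    {T : Finset ι} (_hT : T ⊆ s) : X (insert b s) a (insert b T) = X s a T + a b := by
  unfold X
  rw [Finset.sum_insert hb, sg_of_mem (Finset.mem_insert_self _ _)]
  have : ∑ i ∈ s, ((sg (insert b T) i : ℝ) : ℂ) * a i = ∑ i ∈ s, ((sg T i : ℝ) : ℂ) * a i := by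
    apply Finset.sum_congr rfl
    intro i hi
    have hib : i ≠ b := fun h => hb (h ▸ hi)
    by_cases h : i ∈ T
    · rw [sg_of_mem h, sg_of_mem (Finset.mem_insert_of_mem h)]
    · rw [sg_of_not_mem h, sg_of_not_mem (by simp [h, hib])]
  rw [this]
  push_cast; ring

lemma normsq_add (z w : ℂ) : ‖z + w‖ ^ 2 = ‖z‖ ^ 2 + ‖w‖ ^ 2 + 2 * (z.re * w.re + z.im * w.im) := by
  simp only [← Complex.normSq_eq_norm_sq, Complex.normSq_apply, Complex.add_re, Complex.add_im]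
  ring

lemma normsq_sub (z w : ℂ) : ‖z - w‖ ^ 2 = ‖z‖ ^ 2 + ‖w‖ ^ 2 - 2 * (z.re * w.re + z.im * w.im) := by
  simp only [← Complex.normSq_eq_norm_sq, Complex.normSq_apply, Complex.sub_re, Complex.sub_im]
  ring

lemma inner_sq_le (z w : ℂ) : (z.re * w.re + z.im * w.im) ^ 2 ≤ ‖z‖ ^ 2 * ‖w‖ ^ 2 := by
  simp only [← Complex.normSq_eq_norm_sq, Complex.normSq_apply]
  nlinarith [sq_nonneg (z.re * w.im - z.im * w.re)]

/-- second moment -/
lemma second {ι : Type*} (s : Finset ι) (a : ι → ℂ) :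
    av s (fun T => ‖X s a T‖ ^ 2) = ∑ i ∈ s, ‖a i‖ ^ 2 := by
  classical
  induction s using Finset.induction_on with
  | empty => simp [av, X]
  | insert b s hb ih =>
    rw [av_insert hb, Finset.sum_insert hb, ← ih]
    have h1 : av s (fun T => (‖X (insert b s) a T‖ ^ 2 + ‖X (insert b s) a (insert b T)‖ ^ 2) / 2)
        = av s (fun T => ‖a b‖ ^ 2 + ‖X s a T‖ ^ 2) := by
      apply av_congr
      intro T hT
      rw [X_insert_out hb a hT, X_insert_in hb a hT, normsq_add, normsq_sub]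
      ring
    rw [h1, av_add, av_const]

/-- fourth moment -/
lemma fourth {ι : Type*} (s : Finset ι) (a : ι → ℂ) :
    av s (fun T => ‖X s a T‖ ^ 4) ≤ 3 * (∑ i ∈ s, ‖a i‖ ^ 2) ^ 2 := by
  classical
  induction s using Finset.induction_on with
  | empty => simp [av, X]
  | insert b s hb ih =>
    rw [av_insert hb, Finset.sum_insert hb]
    have h1 : av s (fun T => (‖X (insert b s) a T‖ ^ 4 + ‖X (insert b s) a (insert b T)‖ ^ 4) / 2)
        ≤ av s (fun T => ‖X s a T‖ ^ 4 + (6 * ‖a b‖ ^ 2) * ‖X s a T‖ ^ 2 + ‖a b‖ ^ 4) := by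
      apply av_mono
      intro T hT
      rw [X_insert_out hb a hT, X_insert_in hb a hT]
      have e1 : ‖X s a T - a b‖ ^ 4 = (‖X s a T - a b‖ ^ 2) ^ 2 := by ring
      have e2 : ‖X s a T + a b‖ ^ 4 = (‖X s a T + a b‖ ^ 2) ^ 2 := by ring
      rw [e1, e2, normsq_add, normsq_sub]
      have := inner_sq_le (X s a T) (a b)
      nlinarith [this]
    refine h1.trans ?_
    have h2 : av s (fun T => ‖X s a T‖ ^ 4 + (6 * ‖a b‖ ^ 2) * ‖X s a T‖ ^ 2 + ‖a b‖ ^ 4)
        = av s (fun T => ‖X s a T‖ ^ 4) + (6 * ‖a b‖ ^ 2) * av s (fun T => ‖X s a T‖ ^ 2) + ‖a b‖ ^ 4 := by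
      rw [av_add s (fun T => ‖X s a T‖ ^ 4 + (6 * ‖a b‖ ^ 2) * ‖X s a T‖ ^ 2) (fun _ => ‖a b‖ ^ 4),
        av_add, av_mul, av_const]
    rw [h2, second]
    have h0 : 0 ≤ ‖a b‖ ^ 2 := by positivity
    nlinarith [ih, sq_nonneg (‖a b‖ ^ 2)]

/-- pointwise interpolation: for every `t > 0`, `x ^ 2 ≤ ...` in terms of `x` and `x ^ 4` -/
lemma interp {x t : ℝ} (hx : 0 ≤ x) (ht : 0 < t) : 3 * t ^ 2 * x ^ 2 ≤ 2 * t ^ 3 * x + x ^ 4 := by
  -- x * (x^3 - 3 t^2 x + 2 t^3) = x (x - t)^2 (x + 2 t)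
  have : 2 * t ^ 3 * x + x ^ 4 - 3 * t ^ 2 * x ^ 2 = x * (x - t) ^ 2 * (x + 2 * t) := by ring
  have h : 0 ≤ x * (x - t) ^ 2 * (x + 2 * t) := by positivity
  linarith

/-- Khinchine, lower side in `L^1`, constant `√3`. -/
theorem khin_lower {ι : Type*} (s : Finset ι) (a : ι → ℂ) :
    √(∑ i ∈ s, ‖a i‖ ^ 2) ≤ √3 * av s (fun T => ‖X s a T‖) := by
  set S : ℝ := ∑ i ∈ s, ‖a i‖ ^ 2 with hS
  set A : ℝ := av s (fun T => ‖X s a T‖) with hA
  have hS0 : 0 ≤ S := Finset.sum_nonneg fun i _ => by positivity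
  rcases eq_or_lt_of_le hS0 with h0 | hpos
  · rw [← h0, Real.sqrt_zero]
    have : 0 ≤ A := av_nonneg fun T _ => norm_nonneg _
    positivity
  -- with t = √(3 S): 3 t² S ≤ 2 t³ A + 3 S²
  set r : ℝ := √S with hr
  have hr0 : 0 < r := Real.sqrt_pos.mpr hpos
  have hrS : r ^ 2 = S := Real.sq_sqrt hS0
  set q : ℝ := √3 with hq
  have hq0 : 0 < q := Real.sqrt_pos.mpr (by norm_num)
  have hq2 : q ^ 2 = 3 := Real.sq_sqrt (by norm_num)
  set t : ℝ := q * r with ht
  have ht0 : 0 < t := mul_pos hq0 hr0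
  have key : 3 * t ^ 2 * S ≤ 2 * t ^ 3 * A + 3 * S ^ 2 := by
    have h1 : av s (fun T => 3 * t ^ 2 * ‖X s a T‖ ^ 2) ≤
        av s (fun T => 2 * t ^ 3 * ‖X s a T‖ + ‖X s a T‖ ^ 4) :=
      av_mono fun T _ => interp (norm_nonneg _) ht0
    rw [av_mul, av_add, av_mul, second] at h1
    have h4 := fourth s a
    linarith
  -- t² = 3 S = 3 r²;  9 r⁴ ≤ 2 (3 q r³) A + 3 r⁴, so r ≤ q A
  have ht2 : t ^ 2 = 3 * r ^ 2 := by rw [ht, mul_pow, hq2]
  have ht3 : t ^ 3 = 3 * r ^ 2 * (q * r) := by rw [pow_succ, ht2]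
  rw [ht2, ht3, ← hrS] at key
  have h3 : 6 * r ^ 3 * r ≤ 6 * r ^ 3 * (q * A) := by nlinarith [key]
  exact le_of_mul_le_mul_left h3 (by positivity)

/-- subadditivity of `t ↦ t^p`, `0 < p ≤ 1`, over a finite sum -/
lemma rpow_sum_le {ι : Type*} (s : Finset ι) (f : ι → ℝ) (hf : ∀ i, 0 ≤ f i) {p : ℝ} (hp : 0 < p)
    (hp1 : p ≤ 1) : (∑ i ∈ s, f i) ^ p ≤ ∑ i ∈ s, (f i) ^ p := by
  classical
  induction s using Finset.induction_on with
  | empty => simp [Real.zero_rpow hp.ne']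
  | insert b s hb ih =>
    rw [Finset.sum_insert hb, Finset.sum_insert hb]
    exact (Real.rpow_add_le_add_rpow (hf b) (Finset.sum_nonneg fun i _ => hf i) hp.le hp1).trans
      (add_le_add le_rfl ih)

/-- Khinchine, upper side: `L^q` norm for `q ≤ 2` by the second moment and `ℓ^q ⊂ ℓ^2`. -/
theorem khin_upper {ι : Type*} (s : Finset ι) (a : ι → ℂ) {q : ℝ} (hq1 : 1 ≤ q) (hq2 : q ≤ 2) :
    av s (fun T => ‖X s a T‖ ^ q) ≤ ∑ i ∈ s, ‖a i‖ ^ q := by
  have hq0 : 0 < q := by linarith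
  have hq' : 0 ≤ q / 2 := by linarith
  have hq'' : q / 2 ≤ 1 := by linarith
  have h1 : av s (fun T => ‖X s a T‖ ^ q) ≤ (av s (fun T => ‖X s a T‖ ^ 2)) ^ (q / 2) := by
    have hc := (Real.concaveOn_rpow hq' hq'').le_map_sum (t := s.powerset)
      (w := fun _ => ((2:ℝ) ^ s.card)⁻¹) (p := fun T => ‖X s a T‖ ^ 2)
      (fun _ _ => by positivity)
      (by rw [Finset.sum_const, Finset.card_powerset]; simp)
      (fun _ _ => by simp only [Set.mem_Ici]; positivity)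
    simp only [smul_eq_mul, ← Finset.mul_sum] at hc
    unfold av
    refine le_trans (le_of_eq ?_) hc
    congr 1
    apply Finset.sum_congr rfl
    intro T _
    rw [← Real.rpow_natCast (‖X s a T‖) 2, ← Real.rpow_mul (norm_nonneg _),
      show ((2:ℕ):ℝ) * (q / 2) = q by push_cast; ring]
  refine h1.trans ?_
  rw [second]
  refine (rpow_sum_le s (fun i => ‖a i‖ ^ 2) (fun i => by positivity) (by linarith) hq'').trans
    (le_of_eq ?_)
  apply Finset.sum_congr rfl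
  intro i _
  rw [← Real.rpow_natCast (‖a i‖) 2, ← Real.rpow_mul (norm_nonneg _),
    show ((2:ℕ):ℝ) * (q / 2) = q by push_cast; ring]

/-- average of `F^(1/q)` is at most the `1/q`-th power of the average -/
lemma av_rpow_le {ι : Type*} (s : Finset ι) (F : Finset ι → ℝ) (hF : ∀ T, 0 ≤ F T) {p : ℝ}
    (hp : 0 ≤ p) (hp1 : p ≤ 1) : av s (fun T => (F T) ^ p) ≤ (av s F) ^ p := by
  have hc := (Real.concaveOn_rpow hp hp1).le_map_sum (t := s.powerset)
      (w := fun _ => ((2:ℝ) ^ s.card)⁻¹) (p := F)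
      (fun _ _ => by positivity)
      (by rw [Finset.sum_const, Finset.card_powerset]; simp)
      (fun T _ => by simp only [Set.mem_Ici]; exact hF T)
  simpa only [smul_eq_mul, ← Finset.mul_sum, av] using hc

/-- interchange of the average with a finite sum -/
lemma av_sum {ι κ : Type*} (s : Finset ι) (Y : Finset κ) (F : κ → Finset ι → ℝ) :
    av s (fun T => ∑ y ∈ Y, F y T) = ∑ y ∈ Y, av s (F y) := by
  unfold av
  rw [Finset.sum_comm, Finset.mul_sum]

/-- **DIM row S2.** A bound `L^1 <- ℓ^q` (`1 ≤ q ≤ 2`) for the synthesis operator of a finite family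
`e_y` passes to square functions, with the constant `√3`. -/
theorem khinchine_both {α ι κ : Type*} [MeasurableSpace α] (μ : Measure α) (I : Finset ι)
    (Y : Finset κ) (e : κ → α → ℂ) (he : ∀ y ∈ Y, Integrable (e y) μ) {q M : ℝ}
    (hq1 : 1 ≤ q) (hq2 : q ≤ 2) (hM : 0 ≤ M)
    (H : ∀ c : κ → ℂ, ∫ w, ‖∑ y ∈ Y, c y * e y w‖ ∂μ ≤ M * (∑ y ∈ Y, ‖c y‖ ^ q) ^ (1 / q))
    (c : ι → κ → ℂ) :
    ∫ w, √(∑ i ∈ I, ‖∑ y ∈ Y, c i y * e y w‖ ^ 2) ∂μ ≤
      √3 * M * (∑ i ∈ I, ∑ y ∈ Y, ‖c i y‖ ^ q) ^ (1 / q) := by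
  have hq0 : 0 < q := by linarith
  -- the signed combination
  have hX : ∀ T w, X I (fun i => ∑ y ∈ Y, c i y * e y w) T =
      ∑ y ∈ Y, X I (fun i => c i y) T * e y w := by
    intro T w
    unfold X
    simp only [Finset.mul_sum, Finset.sum_mul]
    rw [Finset.sum_comm]
    refine Finset.sum_congr rfl fun y _ => Finset.sum_congr rfl fun i _ => ?_
    ring
  have hint : ∀ T, Integrable (fun w => ‖X I (fun i => ∑ y ∈ Y, c i y * e y w) T‖) μ := by
    intro T
    have : (fun w => X I (fun i => ∑ y ∈ Y, c i y * e y w) T) =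
        fun w => ∑ y ∈ Y, X I (fun i => c i y) T * e y w := by
      funext w; exact hX T w
    have h2 : Integrable (fun w => X I (fun i => ∑ y ∈ Y, c i y * e y w) T) μ := by
      rw [this]
      exact integrable_finsetSum _ fun y hy => (he y hy).const_mul _
    exact h2.norm
  have hint2 : Integrable (fun w => √3 * av I (fun T => ‖X I (fun i => ∑ y ∈ Y, c i y * e y w) T‖)) μ := by
    unfold av
    exact ((integrable_finsetSum _ fun T _ => hint T).const_mul _).const_mul _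
  have s1 : ∫ w, √(∑ i ∈ I, ‖∑ y ∈ Y, c i y * e y w‖ ^ 2) ∂μ ≤
      ∫ w, √3 * av I (fun T => ‖X I (fun i => ∑ y ∈ Y, c i y * e y w) T‖) ∂μ := by
    apply integral_mono_of_nonneg
    · exact Filter.Eventually.of_forall fun w => Real.sqrt_nonneg _
    · exact hint2
    · exact Filter.Eventually.of_forall fun w => khin_lower I (fun i => ∑ y ∈ Y, c i y * e y w)
  have s2 : ∫ w, √3 * av I (fun T => ‖X I (fun i => ∑ y ∈ Y, c i y * e y w) T‖) ∂μ =
      √3 * av I (fun T => ∫ w, ‖X I (fun i => ∑ y ∈ Y, c i y * e y w) T‖ ∂μ) := by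
    unfold av
    rw [integral_const_mul, integral_const_mul, integral_finsetSum _ fun T _ => hint T]
  have s3 : av I (fun T => ∫ w, ‖X I (fun i => ∑ y ∈ Y, c i y * e y w) T‖ ∂μ) ≤
      av I (fun T => M * (∑ y ∈ Y, ‖X I (fun i => c i y) T‖ ^ q) ^ (1 / q)) := by
    apply av_mono
    intro T _
    simp only [hX]
    exact H fun y => X I (fun i => c i y) T
  have s4 : av I (fun T => (∑ y ∈ Y, ‖X I (fun i => c i y) T‖ ^ q) ^ (1 / q)) ≤
      (∑ i ∈ I, ∑ y ∈ Y, ‖c i y‖ ^ q) ^ (1 / q) := by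
    refine (av_rpow_le I (fun T => ∑ y ∈ Y, ‖X I (fun i => c i y) T‖ ^ q)
      (fun T => Finset.sum_nonneg fun y _ => by positivity) (by positivity)
      (by rw [div_le_one hq0]; exact hq1)).trans ?_
    rw [av_sum]
    apply Real.rpow_le_rpow
    · exact Finset.sum_nonneg fun y _ => av_nonneg fun T _ => by positivity
    · rw [Finset.sum_comm]
      exact Finset.sum_le_sum fun y _ => khin_upper I (fun i => c i y) hq1 hq2
    · positivity
  have h3 : (0:ℝ) ≤ √3 := Real.sqrt_nonneg _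
  calc ∫ w, √(∑ i ∈ I, ‖∑ y ∈ Y, c i y * e y w‖ ^ 2) ∂μ
      ≤ √3 * av I (fun T => ∫ w, ‖X I (fun i => ∑ y ∈ Y, c i y * e y w) T‖ ∂μ) := by rw [← s2]; exact s1
    _ ≤ √3 * av I (fun T => M * (∑ y ∈ Y, ‖X I (fun i => c i y) T‖ ^ q) ^ (1 / q)) :=
        mul_le_mul_of_nonneg_left s3 h3
    _ = √3 * (M * av I (fun T => (∑ y ∈ Y, ‖X I (fun i => c i y) T‖ ^ q) ^ (1 / q))) := by rw [av_mul]
    _ ≤ √3 * (M * (∑ i ∈ I, ∑ y ∈ Y, ‖c i y‖ ^ q) ^ (1 / q)) :=
        mul_le_mul_of_nonneg_left (mul_le_mul_of_nonneg_left s4 hM) h3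
    _ = √3 * M * (∑ i ∈ I, ∑ y ∈ Y, ‖c i y‖ ^ q) ^ (1 / q) := by ring

end Pool.Agent.VAN.DIMS2

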