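import Pool.Agent.MP_6cbfb8_an.Super

/-!
Sampling and the dual form of the extension estimate.
-/

namespace Pool.Agent.VAN.DIM

open MeasureTheory Set Pool.Agent.MP_6cbfb8_an
open scoped ENNReal Real

/-- The Fourier transform of the ball of radius `r`. -/
noncomputable def bhat {n : ℕ} (r : ℝ) (x : E n) : ℂ :=
  ∫ u in Metric.ball (0 : E n) r, Complex.exp (((-(2 * π * inner ℝ x u) : ℝ) : ℂ) * Complex.I)

theorem bhat_integrable {n : ℕ} (r : ℝ) (x : E n) :
    IntegrableOn (fun u : E n => Complex.exp (((-(2 * π * inner ℝ x u) : ℝ) : ℂ) * Complex.I))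
      (Metric.ball (0 : E n) r) := by
  refine Measure.integrableOn_of_bounded (M := 1) measure_ball_lt_top.ne ?_
    (Filter.Eventually.of_forall fun u => (Complex.norm_exp_ofReal_mul_I _).le)
  exact (by fun_prop : Continuous fun u : E n =>
    Complex.exp (((-(2 * π * inner ℝ x u) : ℝ) : ℂ) * Complex.I)).aestronglyMeasurable

theorem bhat_lower {n : ℕ} {r : ℝ} (hr1 : 2 * π * r ≤ 1) {x : E n} (hx : ‖x‖ ≤ 1) :
    (volume : Measure (E n)).real (Metric.ball 0 r) / 2 ≤ ‖bhat r x‖ := by
  refine le_trans ?_ (Complex.re_le_norm _)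
  unfold bhat
  have h1 := integral_re (𝕜 := ℂ) (bhat_integrable (n := n) r x)
  simp only [RCLike.re_eq_complex_re] at h1
  rw [← h1]
  have h2 : ∀ u ∈ Metric.ball (0 : E n) r, (1 / 2 : ℝ) ≤
      (Complex.exp (((-(2 * π * inner ℝ x u) : ℝ) : ℂ) * Complex.I)).re := by
    intro u hu
    rw [Complex.exp_ofReal_mul_I_re]
    rw [mem_ball_zero_iff] at hu
    have h3 : |inner ℝ x u| ≤ r := by
      calc |inner ℝ x u| ≤ ‖x‖ * ‖u‖ := abs_real_inner_le_norm _ _
        _ ≤ 1 * r := by gcongr
        _ = r := one_mul r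
    have h4 : |-(2 * π * inner ℝ x u)| ≤ 1 := by
      rw [abs_neg, abs_mul, abs_of_pos (by positivity : (0 : ℝ) < 2 * π)]
      exact (mul_le_mul_of_nonneg_left h3 (by positivity)).trans hr1
    have h5 := Real.one_sub_sq_div_two_le_cos (x := -(2 * π * inner ℝ x u))
    have h6 : (-(2 * π * inner ℝ x u)) ^ 2 ≤ 1 := by
      rw [← sq_abs]
      have := abs_nonneg (-(2 * π * inner ℝ x u))
      nlinarith
    linarith
  calc (volume : Measure (E n)).real (Metric.ball 0 r) / 2
      = ∫ _u in Metric.ball (0 : E n) r, (1 / 2 : ℝ) := by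
        rw [setIntegral_const, smul_eq_mul]
        ring
    _ ≤ _ := setIntegral_mono_on (integrableOn_const measure_ball_lt_top.ne)
        (bhat_integrable r x).re measurableSet_ball h2

theorem bhat_pos {n : ℕ} {r : ℝ} (hr : 0 < r) :
    0 < (volume : Measure (E n)).real (Metric.ball 0 r) :=
  ENNReal.toReal_pos (Metric.measure_ball_pos volume 0 hr).ne' measure_ball_lt_top.ne

theorem measurable_bhat {n : ℕ} (r : ℝ) : Measurable (bhat r : E n → ℂ) := by
  unfold bhat
  have h : StronglyMeasurable fun q : E n × E n =>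
      Complex.exp (((-(2 * π * inner ℝ q.1 q.2) : ℝ) : ℂ) * Complex.I) :=
    (by fun_prop : Continuous fun q : E n × E n =>
      Complex.exp (((-(2 * π * inner ℝ q.1 q.2) : ℝ) : ℂ) * Complex.I)).stronglyMeasurable
  exact h.integral_prod_right'.measurable

/-- The value at `y` as a mean of the values near `y`, for another density. -/
theorem extn_mean {n : ℕ} {r : ℝ} (hr : 0 < r) (hr1 : 2 * π * r ≤ 1) {g : E n → ℂ}
    (hg : Measurable g) (hb : ∀ x, ‖g x‖ ≤ 1) (y : E n) :
    extn g y = ∫ u in Metric.ball (0 : E n) r, extn (fun x => g x / bhat r x) (y + u) := by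
  have hV := bhat_pos (n := n) hr
  set V := (volume : Measure (E n)).real (Metric.ball 0 r) with hVdef
  have hfin : IsFiniteMeasure ((volume : Measure (E n)).restrict (Metric.ball 0 r)) :=
    ⟨by rw [Measure.restrict_apply MeasurableSet.univ, univ_inter]; exact measure_ball_lt_top⟩
  have hint : Integrable (Function.uncurry fun (u : E n) (x : S n) =>
      g x / bhat r (x : E n) * Complex.exp (((-(2 * π * inner ℝ (x : E n) (y + u)) : ℝ) : ℂ) *
        Complex.I)) (((volume : Measure (E n)).restrict (Metric.ball 0 r)).prod (sm n)) := by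
    refine Integrable.of_bound (C := 2 / V) ?_ (Filter.Eventually.of_forall fun q => ?_)
    · refine Measurable.aestronglyMeasurable ?_
      unfold Function.uncurry
      refine Measurable.mul ?_ ?_
      · exact (hg.comp (measurable_subtype_coe.comp measurable_snd)).div
          ((measurable_bhat r).comp (measurable_subtype_coe.comp measurable_snd))
      · exact (by fun_prop : Continuous fun q : E n × S n =>
          Complex.exp (((-(2 * π * inner ℝ (q.2 : E n) (y + q.1)) : ℝ) : ℂ) *
            Complex.I)).measurable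
    · unfold Function.uncurry
      rw [norm_mul, Complex.norm_exp_ofReal_mul_I, mul_one, norm_div]
      have h1 := bhat_lower (n := n) hr1 (x := (q.2 : E n)) (by simp)
      have h2 : 0 < ‖bhat r (q.2 : E n)‖ := lt_of_lt_of_le (by positivity) h1
      rw [div_le_div_iff₀ h2 hV]
      have := hb (q.2 : E n)
      have h3 := norm_nonneg (g (q.2 : E n))
      nlinarith
  unfold extn
  rw [integral_integral_swap hint]
  refine integral_congr_ae (Filter.Eventually.of_forall fun x => ?_)
  simp only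
  have h1 := bhat_lower (n := n) hr1 (x := (x : E n)) (by simp)
  have h2 : bhat r (x : E n) ≠ 0 := by
    intro h0
    rw [h0, norm_zero] at h1
    linarith
  rw [integral_const_mul]
  have h3 : ∀ u : E n, Complex.exp (((-(2 * π * inner ℝ (x : E n) (y + u)) : ℝ) : ℂ) * Complex.I) =
      Complex.exp (((-(2 * π * inner ℝ (x : E n) y) : ℝ) : ℂ) * Complex.I) *
      Complex.exp (((-(2 * π * inner ℝ (x : E n) u) : ℝ) : ℂ) * Complex.I) := by
    intro u
    rw [← Complex.exp_add, inner_add_right]
    congr 1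
    push_cast
    ring
  simp only [h3]
  rw [integral_const_mul]
  change _ = g x / bhat r (x : E n) * (_ * bhat r (x : E n))
  field_simp

/-- Sampling on a separated set. -/
theorem sample_le (n : ℕ) (p r : ℝ) (hp : 1 ≤ p) (hr : 0 < r) (hr1 : 2 * π * r ≤ 1) :
    ∃ C : ℝ≥0∞, C ≠ ⊤ ∧ ∀ (Y : Finset (E n)) (Ω : Set (E n)) (M : ℝ≥0∞),
      (∀ y ∈ Y, ∀ y' ∈ Y, y ≠ y' → 2 * r ≤ dist y y') → (∀ y ∈ Y, Metric.ball y r ⊆ Ω) →
      (∀ g : E n → ℂ, Measurable g → (∀ x, ‖g x‖ ≤ 1) → ∫⁻ ξ in Ω, ‖extn g ξ‖ₑ ^ p ≤ M) →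
      ∀ g : E n → ℂ, Measurable g → (∀ x, ‖g x‖ ≤ 1) →
        ∑ y ∈ Y, ‖extn g y‖ₑ ^ p ≤ C * M := by
  have hV := bhat_pos (n := n) hr
  set V := (volume : Measure (E n)).real (Metric.ball 0 r) with hVdef
  have hp0 : 0 < p := by linarith
  refine ⟨ENNReal.ofReal (V ^ (p - 1)) * ENNReal.ofReal (2 / V) ^ p, ?_, ?_⟩
  · exact ENNReal.mul_ne_top ENNReal.ofReal_ne_top
      (ENNReal.rpow_ne_top_of_nonneg hp0.le ENNReal.ofReal_ne_top)
  intro Y Ω M hsep hsub H g hg hb
  -- the bounded density
  set g1 : E n → ℂ := fun x => if ‖x‖ = 1 then g x / bhat r x * ((V / 2 : ℝ) : ℂ) else 0 with hg1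
  have hg1m : Measurable g1 := by
    refine Measurable.ite ?_ ?_ measurable_const
    · exact measurableSet_eq_fun measurable_norm measurable_const
    · exact (hg.div (measurable_bhat r)).mul_const _
  have hg1b : ∀ x, ‖g1 x‖ ≤ 1 := by
    intro x
    simp only [hg1]
    split_ifs with hx
    · have h1 := bhat_lower (n := n) hr1 (x := x) hx.le
      have h2 : 0 < ‖bhat r x‖ := lt_of_lt_of_le (by positivity) h1
      rw [norm_mul, norm_div, Complex.norm_real, Real.norm_eq_abs, abs_of_pos (by positivity),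
        div_mul_eq_mul_div, div_le_one h2]
      have := hb x
      calc ‖g x‖ * (V / 2) ≤ 1 * (V / 2) := by gcongr
        _ ≤ _ := by rw [one_mul]; exact h1
    · simp
  have hscale : ∀ ξ, extn (fun x => g x / bhat r x) ξ = ((2 / V : ℝ) : ℂ) * extn g1 ξ := by
    intro ξ
    unfold extn
    rw [← integral_const_mul]
    refine integral_congr_ae (Filter.Eventually.of_forall fun x => ?_)
    have hx : ‖(x : E n)‖ = 1 := by simp
    simp only [hg1, if_pos hx]
    have hV0 : (V : ℂ) ≠ 0 := by exact_mod_cast hV.ne'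
    push_cast
    field_simp
  have hm : Measurable (extn (fun x => g x / bhat r x)) := by
    have : (extn (fun x => g x / bhat r x)) = fun ξ => ((2 / V : ℝ) : ℂ) * extn g1 ξ :=
      funext hscale
    rw [this]
    exact (measurable_extn _ hg1m).const_mul _
  have hpt : ∀ y, ‖extn g y‖ₑ ^ p ≤ ENNReal.ofReal (V ^ (p - 1)) *
      ∫⁻ ξ in Metric.ball y r, ‖extn (fun x => g x / bhat r x) ξ‖ₑ ^ p := by
    intro y
    rw [extn_mean hr hr1 hg hb y]
    calc ‖∫ u in Metric.ball (0 : E n) r, extn (fun x => g x / bhat r x) (y + u)‖ₑ ^ p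
        ≤ (∫⁻ u in Metric.ball (0 : E n) r, 1 * ‖extn (fun x => g x / bhat r x) (y + u)‖ₑ) ^ p := by
          refine ENNReal.rpow_le_rpow ?_ hp0.le
          simp only [one_mul]
          exact enorm_integral_le_lintegral_enorm _
      _ ≤ (∫⁻ _u in Metric.ball (0 : E n) r, 1) ^ (p - 1) *
          ∫⁻ u in Metric.ball (0 : E n) r, 1 * ‖extn (fun x => g x / bhat r x) (y + u)‖ₑ ^ p :=
          holder_weight _ (fun _ => 1) _ measurable_const
            (hm.comp (measurable_const_add y)).enorm hp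
      _ = ENNReal.ofReal (V ^ (p - 1)) *
          ∫⁻ u in Metric.ball (0 : E n) r, ‖extn (fun x => g x / bhat r x) (y + u)‖ₑ ^ p := by
          simp only [one_mul, lintegral_const, Measure.restrict_apply MeasurableSet.univ,
            univ_inter]
          congr 1
          rw [← ENNReal.ofReal_rpow_of_pos hV, hVdef, measureReal_def,
            ENNReal.ofReal_toReal measure_ball_lt_top.ne]
      _ = _ := by
          congr 1
          have h1 := (measurePreserving_add_left (volume : Measure (E n)) y).setLIntegral_comp_preimage_emb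
            (measurableEmbedding_addLeft y)
            (fun ξ => ‖extn (fun x => g x / bhat r x) ξ‖ₑ ^ p) (Metric.ball y r)
          rw [← h1]
          congr 2
          ext u
          simp [dist_eq_norm]
  have hdisj : (Y : Set (E n)).PairwiseDisjoint fun y => Metric.ball y r := by
    intro y hy y' hy' hne
    refine Metric.ball_disjoint_ball ?_
    have := hsep y hy y' hy' hne
    linarith
  calc ∑ y ∈ Y, ‖extn g y‖ₑ ^ p
      ≤ ∑ y ∈ Y, ENNReal.ofReal (V ^ (p - 1)) *
        ∫⁻ ξ in Metric.ball y r, ‖extn (fun x => g x / bhat r x) ξ‖ₑ ^ p :=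
        Finset.sum_le_sum fun y _ => hpt y
    _ = ENNReal.ofReal (V ^ (p - 1)) *
        ∫⁻ ξ in ⋃ y ∈ Y, Metric.ball y r, ‖extn (fun x => g x / bhat r x) ξ‖ₑ ^ p := by
        rw [← Finset.mul_sum, lintegral_biUnion_finset hdisj fun y _ => measurableSet_ball]
    _ ≤ ENNReal.ofReal (V ^ (p - 1)) *
        ∫⁻ ξ in Ω, ‖extn (fun x => g x / bhat r x) ξ‖ₑ ^ p := by
        gcongr
        exact iUnion₂_subset hsub
    _ = ENNReal.ofReal (V ^ (p - 1)) *
        (ENNReal.ofReal (2 / V) ^ p * ∫⁻ ξ in Ω, ‖extn g1 ξ‖ₑ ^ p) := by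
        congr 1
        rw [← lintegral_const_mul' _ _ (ENNReal.rpow_ne_top_of_nonneg hp0.le
          ENNReal.ofReal_ne_top)]
        refine lintegral_congr fun ξ => ?_
        rw [hscale ξ, enorm_mul, ENNReal.mul_rpow_of_nonneg _ _ hp0.le]
        congr 2
        rw [← ofReal_norm, Complex.norm_real, Real.norm_eq_abs, abs_of_pos (by positivity)]
    _ ≤ ENNReal.ofReal (V ^ (p - 1)) * (ENNReal.ofReal (2 / V) ^ p * M) := by
        gcongr
        exact H g1 hg1m hg1b
    _ = _ := by rw [mul_assoc]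

/-- The character of frequency `y`. -/
noncomputable def ex {n : ℕ} (y x : E n) : ℂ :=
  Complex.exp (((-(2 * π * inner ℝ x y) : ℝ) : ℂ) * Complex.I)

/-- Duality: sums of characters on the sphere. -/
theorem dual_le {n : ℕ} {p q : ℝ} (hpq : p.HolderConjugate q) (Y : Finset (E n)) (M : ℝ≥0∞)
    (H : ∀ g : E n → ℂ, Measurable g → (∀ x, ‖g x‖ ≤ 1) → ∑ y ∈ Y, ‖extn g y‖ₑ ^ p ≤ M)
    (c : E n → ℂ) :
    ∫⁻ x : S n, ‖∑ y ∈ Y, c y * ex y (x : E n)‖ₑ ∂(sm n) ≤
      M ^ (1 / p) * (∑ y ∈ Y, ‖c y‖ₑ ^ q) ^ (1 / q) := by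
  set P : E n → ℂ := fun x => ∑ y ∈ Y, c y * ex y x with hP
  have hPc : Continuous P := by
    simp only [hP]
    unfold ex
    fun_prop
  set g : E n → ℂ := fun x => (starRingEnd ℂ) (P x) / (‖P x‖ : ℂ) with hg
  have hgm : Measurable g :=
    ((continuous_star (R := ℂ)).measurable.comp hPc.measurable).div
      (Complex.measurable_ofReal.comp hPc.norm.measurable)
  have hgb : ∀ x, ‖g x‖ ≤ 1 := by
    intro x
    simp only [hg, norm_div, RCLike.norm_conj, Complex.norm_real, norm_norm]
    exact div_self_le_one _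
  have hgP : ∀ x, g x * P x = (‖P x‖ : ℂ) := by
    intro x
    simp only [hg]
    by_cases h0 : P x = 0
    · simp [h0]
    · have h1 : (‖P x‖ : ℂ) ≠ 0 := by exact_mod_cast norm_ne_zero_iff.2 h0
      rw [div_mul_eq_mul_div, div_eq_iff h1, Complex.conj_mul']
      ring
  have hint : ∀ y ∈ Y, Integrable (fun x : S n => g x * (c y * ex y (x : E n))) (sm n) := by
    intro y _
    refine Integrable.of_bound (C := ‖c y‖) ?_ (Filter.Eventually.of_forall fun x => ?_)
    · refine Measurable.aestronglyMeasurable ?_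
      refine (hgm.comp measurable_subtype_coe).mul (Measurable.const_mul ?_ _)
      unfold ex
      exact (by fun_prop : Continuous fun x : S n =>
        Complex.exp (((-(2 * π * inner ℝ (x : E n) y) : ℝ) : ℂ) * Complex.I)).measurable
    · rw [norm_mul, norm_mul, ex, Complex.norm_exp_ofReal_mul_I, mul_one]
      have := hgb x
      have h2 := norm_nonneg (c y)
      nlinarith
  have h1 : ∫ x : S n, (‖P x‖ : ℂ) ∂(sm n) = ∑ y ∈ Y, c y * extn g y := by
    calc ∫ x : S n, (‖P x‖ : ℂ) ∂(sm n)
        = ∫ x : S n, ∑ y ∈ Y, g x * (c y * ex y (x : E n)) ∂(sm n) := by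
          refine integral_congr_ae (Filter.Eventually.of_forall fun x => ?_)
          simp only
          rw [← hgP x, hP, Finset.mul_sum]
      _ = ∑ y ∈ Y, ∫ x : S n, g x * (c y * ex y (x : E n)) ∂(sm n) :=
          integral_finsetSum _ hint
      _ = _ := by
          refine Finset.sum_congr rfl fun y _ => ?_
          unfold extn
          rw [← integral_const_mul]
          refine integral_congr_ae (Filter.Eventually.of_forall fun x => ?_)
          simp only [ex]
          ring
  have h2 : ∫⁻ x : S n, ‖P x‖ₑ ∂(sm n) = ‖∑ y ∈ Y, c y * extn g y‖ₑ := by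
    rw [← h1]
    have hPi : Integrable (fun x : S n => ‖P x‖) (sm n) := by
      have hcpt : Continuous fun x : S n => ‖P x‖ := hPc.norm.comp continuous_subtype_val
      exact hcpt.integrable_of_hasCompactSupport (HasCompactSupport.of_compactSpace _)
    have h3 : ∫ x : S n, (‖P x‖ : ℂ) ∂(sm n) = ((∫ x : S n, ‖P x‖ ∂(sm n) : ℝ) : ℂ) :=
      integral_ofReal
    rw [h3, ← ofReal_norm, Complex.norm_real, Real.norm_eq_abs,
      abs_of_nonneg (integral_nonneg fun _ => norm_nonneg _),
      ofReal_integral_eq_lintegral_ofReal hPi (Filter.Eventually.of_forall fun _ => norm_nonneg _)]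
    refine lintegral_congr fun x => ?_
    rw [ofReal_norm]
  rw [h2]
  calc ‖∑ y ∈ Y, c y * extn g y‖ₑ ≤ ∑ y ∈ Y, ‖extn g y‖ₑ * ‖c y‖ₑ := by
        refine (enorm_sum_le _ _).trans (le_of_eq ?_)
        refine Finset.sum_congr rfl fun y _ => ?_
        rw [enorm_mul, mul_comm]
    _ ≤ (∑ y ∈ Y, ‖extn g y‖ₑ ^ p) ^ (1 / p) * (∑ y ∈ Y, ‖c y‖ₑ ^ q) ^ (1 / q) :=
        ENNReal.inner_le_Lp_mul_Lq _ _ _ hpq
    _ ≤ _ := by
        gcongr
        · exact one_div_nonneg.2 hpq.nonneg
        · exact H g hgm hgb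

/-- Translation is modulation of the density. -/
theorem extn_add_freq {n : ℕ} (g : E n → ℂ) (y u : E n) :
    extn g (y + u) = extn (fun x => g x * ex u x) y := by
  unfold extn ex
  refine integral_congr_ae (Filter.Eventually.of_forall fun x => ?_)
  simp only
  rw [mul_assoc (g x), ← Complex.exp_add, inner_add_right]
  congr 2
  push_cast
  ring

end Pool.Agent.VAN.DIM
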