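import Pool.Agent.VAN.A

/-!
Van der Corput's lemma for functions with finitely many derivatives.
-/

open MeasureTheory Set intervalIntegral Complex
open scoped ContDiff Interval

namespace Pool.Agent.VAN.FT

/-- Van der Corput's lemma without amplitude: derivative of order `k + 1`. -/
theorem vdc_aux (k : ℕ) : ∀ (a b c : ℝ) (h : ℕ → ℝ → ℝ), a ≤ b → 0 < c →
    (∀ i ≤ k + 2, ∀ t ∈ Icc a b, HasDerivAt (h i) (h (i + 1) t) t) →
    (∀ t ∈ Icc a b, c ≤ |h (k + 1) t|) →
    (k = 0 → ∀ t ∈ Icc a b, 0 ≤ h 2 t) →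
    ‖∫ t in a..b, ei (h 0 t)‖ ≤ VC k * c ^ (-(1 / ((k : ℝ) + 1))) := by
  induction k with
  | zero =>
    intro a b c h hab hc hd h1 h2
    have h3 := vdc_mono hab hc (hd 0 (by omega)) (hd 1 (by omega))
      (fun t ht => (hd 2 (by omega) t ht).continuousAt.continuousWithinAt) h1 (h2 rfl)
    have h4 : c ^ (-(1 / (((0 : ℕ) : ℝ) + 1))) = c⁻¹ := by
      norm_num
      rw [Real.rpow_neg_one]
    rw [h4]
    simpa [VC, div_eq_mul_inv] using h3
  | succ k ih =>
    -- first with a sign
    have pos : ∀ (a b c : ℝ) (h : ℕ → ℝ → ℝ), a ≤ b → 0 < c →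
        (∀ i ≤ k + 1 + 2, ∀ t ∈ Icc a b, HasDerivAt (h i) (h (i + 1) t) t) →
        (∀ t ∈ Icc a b, c ≤ h (k + 1 + 1) t) →
        ‖∫ t in a..b, ei (h 0 t)‖ ≤ VC (k + 1) * c ^ (-(1 / ((k : ℝ) + 1 + 1))) := by
      intro a b c h hab hc hd h1
      obtain ⟨t0, ht0, h2⟩ := vdc_point hab (hd (k + 1) (by omega)) h1
      have hk : (0 : ℝ) < (k : ℝ) + 1 := by positivity
      have hk2 : (0 : ℝ) < (k : ℝ) + 1 + 1 := by positivity
      set δ : ℝ := c ^ (-(1 / ((k : ℝ) + 1 + 1))) with hδ
      have hδ0 : 0 < δ := Real.rpow_pos_of_pos hc _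
      have hval : (c * δ) ^ (-(1 / ((k : ℝ) + 1))) = δ := by
        rw [hδ]
        have e1 : c * c ^ (-(1 / ((k : ℝ) + 1 + 1))) = c ^ (((k : ℝ) + 1) / ((k : ℝ) + 1 + 1)) := by
          have : c * c ^ (-(1 / ((k : ℝ) + 1 + 1))) = c ^ (1 : ℝ) * c ^ (-(1 / ((k : ℝ) + 1 + 1))) := by
            rw [Real.rpow_one]
          rw [this, ← Real.rpow_add hc]
          congr 1
          field_simp
          ring
        rw [e1, ← Real.rpow_mul hc.le]
        congr 1
        field_simp
      set p : ℝ := max a (t0 - δ) with hp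
      set q : ℝ := min b (t0 + δ) with hq
      have hap : a ≤ p := le_max_left _ _
      have hqb : q ≤ b := min_le_left _ _
      have hpt : p ≤ t0 := max_le ht0.1 (by linarith)
      have htq : t0 ≤ q := le_min ht0.2 (by linarith)
      have hpq : q - p ≤ 2 * δ := by
        have e1 : q ≤ t0 + δ := min_le_right _ _
        have e2 : t0 - δ ≤ p := le_max_right _ _
        linarith
      have hcc : ContinuousOn (fun t => ei (h 0 t)) (Icc a b) :=
        continuous_ei.comp_continuousOn fun t ht => (hd 0 (by omega) t ht).continuousAt.continuousWithinAt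
      have hL : ‖∫ t in a..p, ei (h 0 t)‖ ≤ VC k * δ := by
        by_cases hcase : t0 - δ ≤ a
        · have : p = a := max_eq_left hcase
          rw [this, intervalIntegral.integral_same, norm_zero]
          exact mul_nonneg (VC_pos k).le hδ0.le
        · push Not at hcase
          have hpe : p = t0 - δ := max_eq_right hcase.le
          have hsub : ∀ t ∈ Icc a p, t ∈ Icc a b := fun t ht => ⟨ht.1, ht.2.trans (hpt.trans ht0.2)⟩
          have h3 := ih a p (c * δ) h hap (by positivity) (fun i hi t ht => hd i (by omega) t (hsub t ht)) (by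
            intro t ht
            refine le_trans ?_ (h2 t (hsub t ht))
            apply mul_le_mul_of_nonneg_left _ hc.le
            rw [abs_of_nonpos (by linarith [ht.2])]
            have := ht.2
            rw [hpe] at this
            linarith) (by
            intro hk0 t ht
            subst hk0
            exact hc.le.trans (h1 t (hsub t ht)))
          rw [hval] at h3
          exact h3
      have hR : ‖∫ t in q..b, ei (h 0 t)‖ ≤ VC k * δ := by
        by_cases hcase : b ≤ t0 + δ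
        · have : q = b := min_eq_left hcase
          rw [this, intervalIntegral.integral_same, norm_zero]
          exact mul_nonneg (VC_pos k).le hδ0.le
        · push Not at hcase
          have hqe : q = t0 + δ := min_eq_right hcase.le
          have hsub : ∀ t ∈ Icc q b, t ∈ Icc a b := fun t ht => ⟨(ht0.1.trans htq).trans ht.1, ht.2⟩
          have h3 := ih q b (c * δ) h hqb (by positivity) (fun i hi t ht => hd i (by omega) t (hsub t ht)) (by
            intro t ht
            refine le_trans ?_ (h2 t (hsub t ht))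
            apply mul_le_mul_of_nonneg_left _ hc.le
            rw [abs_of_nonneg (by linarith [ht.1])]
            have := ht.1
            rw [hqe] at this
            linarith) (by
            intro hk0 t ht
            subst hk0
            exact hc.le.trans (h1 t (hsub t ht)))
          rw [hval] at h3
          exact h3
      have hM : ‖∫ t in p..q, ei (h 0 t)‖ ≤ 2 * δ := (triv_ei (h 0) (hpt.trans htq)).trans hpq
      have hii : ∀ x y : ℝ, x ∈ Icc a b → y ∈ Icc a b →
          IntervalIntegrable (fun t => ei (h 0 t)) volume x y := by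
        intro x y hx hy
        apply ContinuousOn.intervalIntegrable
        exact hcc.mono (uIcc_subset_Icc hx hy)
      have ha := left_mem_Icc.2 hab
      have hb := right_mem_Icc.2 hab
      have hp' : p ∈ Icc a b := ⟨hap, hpt.trans ht0.2⟩
      have hq' : q ∈ Icc a b := ⟨ht0.1.trans htq, hqb⟩
      have hsum : ∫ t in a..b, ei (h 0 t) = (∫ t in a..p, ei (h 0 t)) + (∫ t in p..q, ei (h 0 t))
          + ∫ t in q..b, ei (h 0 t) := by
        rw [intervalIntegral.integral_add_adjacent_intervals (hii a p ha hp') (hii p q hp' hq'),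
          intervalIntegral.integral_add_adjacent_intervals (hii a q ha hq') (hii q b hq' hb)]
      rw [hsum]
      calc _ ≤ ‖(∫ t in a..p, ei (h 0 t)) + (∫ t in p..q, ei (h 0 t))‖ + ‖∫ t in q..b, ei (h 0 t)‖ :=
            norm_add_le _ _
        _ ≤ (‖∫ t in a..p, ei (h 0 t)‖ + ‖∫ t in p..q, ei (h 0 t)‖) + ‖∫ t in q..b, ei (h 0 t)‖ := by
            gcongr
            exact norm_add_le _ _
        _ ≤ (VC k * δ + 2 * δ) + VC k * δ := by gcongr
        _ = VC (k + 1) * δ := by simp only [VC]; ring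
    intro a b c h hab hc hd h1 _
    have hcast : (((k + 1 : ℕ) : ℝ) + 1) = (k : ℝ) + 1 + 1 := by push_cast; ring
    rw [hcast]
    have hcont : ContinuousOn (h (k + 1 + 1)) (Icc a b) := fun t ht =>
      (hd (k + 1 + 1) (by omega) t ht).continuousAt.continuousWithinAt
    have hsign : (∀ t ∈ Icc a b, 0 < h (k + 1 + 1) t) ∨
        (∀ t ∈ Icc a b, h (k + 1 + 1) t < 0) := by
      by_contra hcon
      push Not at hcon
      obtain ⟨⟨s, hs, hs'⟩, ⟨t, ht, ht'⟩⟩ := hcon
      obtain ⟨x, hx, hx'⟩ := (isPreconnected_Icc (a := a) (b := b)).intermediate_value hs ht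
        hcont ⟨hs', ht'⟩
      have := h1 x hx
      rw [hx', abs_zero] at this
      linarith
    rcases hsign with hs | hs
    · exact pos a b c h hab hc hd (fun t ht => by
        have := h1 t ht
        rwa [abs_of_pos (hs t ht)] at this)
    · have h5 := pos a b c (fun i t => -h i t) hab hc (fun i hi t ht => (hd i hi t ht).neg) (fun t ht => by
        have := h1 t ht
        rwa [abs_of_neg (hs t ht)] at this)
      rwa [integral_ei_neg] at h5

/-- Van der Corput's lemma without amplitude. -/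
theorem vdc_plain {m k : ℕ} (hk : 1 ≤ k) (hkm : k ≤ m) {a b c A : ℝ} (hab : a ≤ b) (hc : 0 < c)
    (hA : 0 ≤ A) {h : ℕ → ℝ → ℝ} (hd : ∀ i ≤ m + 1, ∀ t ∈ Icc a b, HasDerivAt (h i) (h (i + 1) t) t)
    (h1 : ∀ t ∈ Icc a b, c ≤ |h k t|)
    (h2 : k = 1 → ∀ t ∈ Icc a b, |h 2 t| ≤ A * c) :
    ‖∫ t in a..b, ei (h 0 t)‖ ≤ (VC m + A * (b - a)) * c ^ (-(1 / (k : ℝ))) := by
  have hAb : 0 ≤ A * (b - a) := mul_nonneg hA (by linarith)
  obtain ⟨j, rfl⟩ : ∃ j, k = j + 1 := ⟨k - 1, by omega⟩
  rcases Nat.eq_zero_or_pos j with rfl | hj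
  · have h3 := vdc_bdd hab hc hA (hd 0 (by omega)) (hd 1 (by omega))
      (fun t ht => (hd 2 (by omega) t ht).continuousAt.continuousWithinAt) h1 (h2 rfl)
    have h4 : c ^ (-(1 / (((0 + 1 : ℕ) : ℝ)))) = c⁻¹ := by
      norm_num
      rw [Real.rpow_neg_one]
    rw [h4]
    refine h3.trans ?_
    rw [div_eq_mul_inv]
    apply mul_le_mul_of_nonneg_right _ (inv_nonneg.2 hc.le)
    have : (3 : ℝ) ≤ VC m := VC_mono (Nat.zero_le m)
    linarith
  · have h3 := vdc_aux j a b c h hab hc (fun i hi => hd i (by omega)) h1 (by omega)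
    have hcast : ((j + 1 : ℕ) : ℝ) = (j : ℝ) + 1 := by push_cast; ring
    rw [hcast]
    refine h3.trans ?_
    apply mul_le_mul_of_nonneg_right _ (Real.rpow_nonneg hc.le _)
    have : VC j ≤ VC m := VC_mono (by omega)
    linarith

/-- Van der Corput's lemma with an amplitude: a derivative of order `k`, `1 ≤ k ≤ m`, is at least
`c` in absolute value on `[a,b]`; for `k = 1` the second derivative is at most `A c`. -/
theorem vdc_amp {m k : ℕ} (hk : 1 ≤ k) (hkm : k ≤ m) {a b c A : ℝ} (hab : a ≤ b) (hc : 0 < c)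
    (hA : 0 ≤ A) {h : ℕ → ℝ → ℝ} (hd : ∀ i ≤ m + 1, ∀ t ∈ Icc a b, HasDerivAt (h i) (h (i + 1) t) t)
    (h1 : ∀ t ∈ Icc a b, c ≤ |h k t|)
    (h2 : k = 1 → ∀ t ∈ Icc a b, |h 2 t| ≤ A * c) {ψ ψ' : ℝ → ℂ}
    (hψ : ∀ t ∈ Icc a b, HasDerivAt ψ (ψ' t) t) (hψ' : ContinuousOn ψ' (Icc a b)) :
    ‖∫ t in a..b, ψ t * ei (h 0 t)‖ ≤
      (VC m + A * (b - a)) * c ^ (-(1 / (k : ℝ))) * (‖ψ b‖ + ∫ t in a..b, ‖ψ' t‖) := by
  apply vdc_ampl hab (hd 0 (by omega)) _ hψ hψ'
  intro s hs
  have h3 := vdc_plain hk hkm (A := A) hs.1 hc hA (fun i hi t ht => hd i hi t ⟨ht.1, ht.2.trans hs.2⟩)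
    (fun t ht => h1 t ⟨ht.1, ht.2.trans hs.2⟩)
    (fun hk1 t ht => h2 hk1 t ⟨ht.1, ht.2.trans hs.2⟩)
  refine h3.trans ?_
  apply mul_le_mul_of_nonneg_right _ (Real.rpow_nonneg hc.le _)
  have := mul_le_mul_of_nonneg_left (by linarith [hs.2] : s - a ≤ b - a) hA
  linarith

end Pool.Agent.VAN.FT
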