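import Pool.Agent.VAN.FTB

/-!
Iterated derivatives along linear vector fields, uniformly in the field and the function.
-/

set_option autoImplicit false

namespace Pool.Agent.VAN.FT

open MeasureTheory Set Metric Pool.Agent.MP_6cbfb8_an
open scoped ENNReal Real

/-- the derivative of `f` along the linear vector field `A` -/
noncomputable def XA (A : E3 →L[ℝ] E3) (f : E3 → ℝ) (y : E3) : ℝ := fderiv ℝ f y (A y)

theorem XX_eq (a b : E3) : XX a b = XA (gen a b) := rfl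

/-- the sum of the norms of the derivatives of orders `1, …, j` -/
noncomputable def J (j : ℕ) (f : E3 → ℝ) (y : E3) : ℝ :=
  ∑ i ∈ Finset.range j, ‖iteratedFDeriv ℝ (i + 1) f y‖

theorem J_nonneg (j : ℕ) (f : E3 → ℝ) (y : E3) : 0 ≤ J j f y :=
  Finset.sum_nonneg fun _ _ => norm_nonneg _

theorem J_mono {i j : ℕ} (h : i ≤ j) (f : E3 → ℝ) (y : E3) : J i f y ≤ J j f y :=
  Finset.sum_le_sum_of_subset_of_nonneg (Finset.range_mono h) fun _ _ _ => norm_nonneg _

theorem J_add (j : ℕ) {f g : E3 → ℝ} (hf : ContDiff ℝ j f) (hg : ContDiff ℝ j g) (y : E3) :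
    J j (f + g) y ≤ J j f y + J j g y := by
  unfold J
  rw [← Finset.sum_add_distrib]
  refine Finset.sum_le_sum fun i hi => ?_
  have hi' : ((i + 1 : ℕ) : WithTop ℕ∞) ≤ (j : ℕ) := by
    exact_mod_cast Finset.mem_range.1 hi
  rw [iteratedFDeriv_add_apply (hf.of_le hi').contDiffAt (hg.of_le hi').contDiffAt]
  exact norm_add_le _ _

theorem fderiv_le_J {f : E3 → ℝ} (y : E3) : ‖fderiv ℝ f y‖ ≤ J 1 f y := by
  unfold J
  rw [Finset.sum_range_one, ← norm_iteratedFDeriv_one (𝕜 := ℝ)]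

theorem norm_iter_clm (A : E3 →L[ℝ] E3) (l : ℕ) {y : E3} (hy : ‖y‖ ≤ 1) :
    ‖iteratedFDeriv ℝ l (fun y => A y) y‖ ≤ ‖A‖ := by
  rcases l with _ | l
  · rw [norm_iteratedFDeriv_zero]
    exact (A.le_opNorm y).trans (mul_le_of_le_one_right (norm_nonneg _) hy)
  · rw [← norm_iteratedFDeriv_fderiv]
    have h1 : fderiv ℝ (fun y => A y) = fun _ => A := funext fun y => A.fderiv
    rw [h1]
    rcases l with _ | l
    · rw [norm_iteratedFDeriv_zero]
    · rw [iteratedFDeriv_succ_const]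
      simp

theorem contDiff_XA (A : E3 →L[ℝ] E3) {f : E3 → ℝ} {n : ℕ} (hf : ContDiff ℝ (n + 1 : ℕ) f) :
    ContDiff ℝ n (XA A f) := by
  unfold XA
  have h1 : ContDiff ℝ n (fderiv ℝ f) := hf.fderiv_right (m := (n : WithTop ℕ∞)) (by norm_cast)
  exact h1.clm_apply A.contDiff

theorem contDiff_XA_iter (A : E3 →L[ℝ] E3) (k : ℕ) : ∀ {f : E3 → ℝ} {n : ℕ},
    ContDiff ℝ (n + k : ℕ) f → ContDiff ℝ n ((XA A)^[k] f) := by
  induction k with
  | zero => exact fun h => h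
  | succ k ih =>
    intro f n hf
    rw [Function.iterate_succ_apply]
    exact ih (contDiff_XA A hf)

theorem norm_iter_XA (n : ℕ) (A : E3 →L[ℝ] E3) {f : E3 → ℝ} (hf : ContDiff ℝ (n + 1 : ℕ) f)
    {y : E3} (hy : ‖y‖ ≤ 1) : ‖iteratedFDeriv ℝ n (XA A f) y‖ ≤ 2 ^ n * ‖A‖ * J (n + 1) f y := by
  have h1 : ContDiff ℝ n (fderiv ℝ f) := hf.fderiv_right (m := (n : WithTop ℕ∞)) (by norm_cast)
  have h2 := norm_iteratedFDeriv_clm_apply (n := n) h1 (A.contDiff (n := n)) y le_rfl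
  refine h2.trans ?_
  unfold J
  rw [Finset.mul_sum]
  refine Finset.sum_le_sum fun i hi => ?_
  rw [norm_iteratedFDeriv_fderiv]
  have h3 : ((n.choose i : ℕ) : ℝ) ≤ 2 ^ n := by
    have : n.choose i ≤ 2 ^ n := Nat.choose_le_two_pow n i
    exact_mod_cast this
  calc _ ≤ 2 ^ n * ‖iteratedFDeriv ℝ (i + 1) f y‖ * ‖A‖ := by
        refine mul_le_mul (mul_le_mul_of_nonneg_right h3 (norm_nonneg _)) (norm_iter_clm A _ hy)
          (norm_nonneg _) (by positivity)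
    _ = _ := by ring

theorem J_XA (n : ℕ) (A : E3 →L[ℝ] E3) {f : E3 → ℝ} (hf : ContDiff ℝ (n + 1 : ℕ) f)
    {y : E3} (hy : ‖y‖ ≤ 1) : J n (XA A f) y ≤ (n * 2 ^ n : ℝ) * ‖A‖ * J (n + 1) f y := by
  have h1 : ∀ i ∈ Finset.range n, ‖iteratedFDeriv ℝ (i + 1) (XA A f) y‖ ≤
      2 ^ n * ‖A‖ * J (n + 1) f y := by
    intro i hi
    have hi' := Finset.mem_range.1 hi
    have h2 := norm_iter_XA (i + 1) A (f := f) (hf.of_le (by exact_mod_cast (by omega))) hy
    refine h2.trans ?_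
    refine mul_le_mul ?_ (J_mono (by omega) f y) (J_nonneg _ _ _) (by positivity)
    refine mul_le_mul_of_nonneg_right ?_ (norm_nonneg _)
    exact pow_le_pow_right₀ (by norm_num) (by omega)
  unfold J at h1 ⊢
  refine (Finset.sum_le_sum h1).trans ?_
  rw [Finset.sum_const, Finset.card_range, nsmul_eq_mul]
  ring_nf
  exact le_rfl

theorem J_iter (k : ℕ) : ∀ n : ℕ, ∃ C : ℝ, 0 ≤ C ∧ ∀ (A : E3 →L[ℝ] E3) (f : E3 → ℝ) (y : E3),
    ‖A‖ ≤ 1 → ContDiff ℝ (n + k : ℕ) f → ‖y‖ ≤ 1 → J n ((XA A)^[k] f) y ≤ C * J (n + k) f y := by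
  induction k with
  | zero => exact fun n => ⟨1, zero_le_one, fun A f y _ _ _ => by simp⟩
  | succ k ih =>
    intro n
    obtain ⟨C, hC, H⟩ := ih n
    refine ⟨C * ((n + k : ℕ) * 2 ^ (n + k)), by positivity, ?_⟩
    intro A f y hA hf hy
    rw [Function.iterate_succ_apply]
    refine (H A (XA A f) y hA (contDiff_XA A hf) hy).trans ?_
    have h1 := J_XA (n + k) A (f := f) hf hy
    rw [mul_assoc]
    refine mul_le_mul_of_nonneg_left (h1.trans ?_) hC
    refine mul_le_mul_of_nonneg_right ?_ (J_nonneg _ _ _)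
    exact mul_le_of_le_one_right (by positivity) hA

theorem XA_sub_field (A A' : E3 →L[ℝ] E3) (f : E3 → ℝ) : XA A f - XA A' f = XA (A - A') f := by
  funext y
  simp [XA]

theorem XA_add (A : E3 →L[ℝ] E3) {f g : E3 → ℝ} (hf : ContDiff ℝ 1 f) (hg : ContDiff ℝ 1 g) :
    XA A (f + g) = XA A f + XA A g := by
  funext y
  unfold XA
  rw [Pi.add_apply, fderiv_add (hf.differentiable (by norm_num) y)
    (hg.differentiable (by norm_num) y)]
  rfl

theorem XA_sub (A : E3 →L[ℝ] E3) {f g : E3 → ℝ} (hf : ContDiff ℝ 1 f) (hg : ContDiff ℝ 1 g) :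
    XA A (f - g) = XA A f - XA A g := by
  funext y
  unfold XA
  rw [Pi.sub_apply, fderiv_sub (hf.differentiable (by norm_num) y)
    (hg.differentiable (by norm_num) y)]
  rfl

theorem XA_iter_sub (A : E3 →L[ℝ] E3) (k : ℕ) : ∀ {f g : E3 → ℝ}, ContDiff ℝ k f →
    ContDiff ℝ k g → (XA A)^[k] (f - g) = (XA A)^[k] f - (XA A)^[k] g := by
  induction k with
  | zero => exact fun _ _ => rfl
  | succ k ih =>
    intro f g hf hg
    rw [Function.iterate_succ_apply, Function.iterate_succ_apply, Function.iterate_succ_apply,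
      XA_sub A (hf.of_le (by exact_mod_cast (by omega : 1 ≤ k + 1)))
        (hg.of_le (by exact_mod_cast (by omega : 1 ≤ k + 1)))]
    exact ih (contDiff_XA A hf) (contDiff_XA A hg)

/-- the difference of two fields, for the derivatives -/
theorem J_diff (k : ℕ) : ∀ n : ℕ, ∃ C : ℝ, 0 ≤ C ∧ ∀ (A A' : E3 →L[ℝ] E3) (f : E3 → ℝ) (y : E3),
    ‖A‖ ≤ 1 → ‖A'‖ ≤ 1 → ContDiff ℝ (n + k : ℕ) f → ‖y‖ ≤ 1 →
    J n ((XA A)^[k] f - (XA A')^[k] f) y ≤ C * ‖A - A'‖ * J (n + k) f y := by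
  induction k with
  | zero =>
    refine fun n => ⟨0, le_rfl, fun A A' f y _ _ hf _ => ?_⟩
    have h1 : J n ((XA A)^[0] f - (XA A')^[0] f) y = 0 := by
      have : (XA A)^[0] f - (XA A')^[0] f = fun _ => (0 : ℝ) := by
        funext z
        simp
      rw [this]
      unfold J
      refine Finset.sum_eq_zero fun i _ => ?_
      rw [iteratedFDeriv_succ_const]
      simp
    rw [h1]
    simp
  | succ k ih =>
    intro n
    obtain ⟨C, hC, H⟩ := ih n
    obtain ⟨C', hC', H'⟩ := J_iter k n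
    refine ⟨(C + C') * ((n + k : ℕ) * 2 ^ (n + k)), by positivity, ?_⟩
    intro A A' f y hA hA' hf hy
    have hXf : ContDiff ℝ (n + k : ℕ) (XA A f) := contDiff_XA A hf
    have hXf' : ContDiff ℝ (n + k : ℕ) (XA A' f) := contDiff_XA A' hf
    have hk : ((k : ℕ) : WithTop ℕ∞) ≤ (n + k : ℕ) := by exact_mod_cast (by omega : k ≤ n + k)
    have e : (XA A)^[k + 1] f - (XA A')^[k + 1] f =
        ((XA A)^[k] (XA A f) - (XA A')^[k] (XA A f)) + (XA A')^[k] (XA (A - A') f) := by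
      rw [Function.iterate_succ_apply, Function.iterate_succ_apply, ← XA_sub_field,
        XA_iter_sub A' k (hXf.of_le hk) (hXf'.of_le hk)]
      abel
    rw [e]
    have hd1 : ContDiff ℝ n ((XA A)^[k] (XA A f) - (XA A')^[k] (XA A f)) :=
      (contDiff_XA_iter A k hXf).sub (contDiff_XA_iter A' k hXf)
    have hXd : ContDiff ℝ (n + k : ℕ) (XA (A - A') f) := contDiff_XA _ hf
    refine (J_add n hd1 (contDiff_XA_iter A' k hXd) y).trans ?_
    have h1 := H A A' (XA A f) y hA hA' hXf hy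
    have h2 := H' A' (XA (A - A') f) y hA' hXd hy
    have h3 := J_XA (n + k) A (f := f) hf hy
    have h4 := J_XA (n + k) (A - A') (f := f) hf hy
    have hJ := J_nonneg (n + k + 1) f y
    have h5 : J (n + k) (XA A f) y ≤ ((n + k : ℕ) * 2 ^ (n + k)) * J (n + k + 1) f y := by
      refine h3.trans ?_
      refine mul_le_mul_of_nonneg_right ?_ hJ
      exact mul_le_of_le_one_right (by positivity) hA
    calc _ ≤ C * ‖A - A'‖ * (((n + k : ℕ) * 2 ^ (n + k)) * J (n + k + 1) f y) +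
          C' * (((n + k : ℕ) * 2 ^ (n + k)) * ‖A - A'‖ * J (n + k + 1) f y) := by
          refine add_le_add (h1.trans ?_) (h2.trans ?_)
          · exact mul_le_mul_of_nonneg_left h5 (by positivity)
          · exact mul_le_mul_of_nonneg_left h4 hC'
      _ = _ := by push_cast; ring

/-- the difference of two fields, for the values -/
theorem val_diff (k : ℕ) : ∃ C : ℝ, 0 ≤ C ∧ ∀ (A A' : E3 →L[ℝ] E3) (f : E3 → ℝ) (y : E3),
    ‖A‖ ≤ 1 → ‖A'‖ ≤ 1 → ContDiff ℝ k f → ‖y‖ ≤ 1 →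
    |(XA A)^[k] f y - (XA A')^[k] f y| ≤ C * ‖A - A'‖ * J k f y := by
  rcases k with _ | k
  · refine ⟨0, le_rfl, fun A A' f y _ _ _ _ => ?_⟩
    simp
  · obtain ⟨C, hC, H⟩ := J_diff k 1
    obtain ⟨C', hC', H'⟩ := J_iter k 1
    refine ⟨C + C', by positivity, fun A A' f y hA hA' hf hy => ?_⟩
    have hf' : ContDiff ℝ (1 + k : ℕ) f := by rwa [add_comm 1 k]
    have hg : ContDiff ℝ (1 : ℕ) ((XA A)^[k] f) := contDiff_XA_iter A k hf'
    have hg' : ContDiff ℝ (1 : ℕ) ((XA A')^[k] f) := contDiff_XA_iter A' k hf'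
    have e : (XA A)^[k + 1] f y - (XA A')^[k + 1] f y =
        XA A ((XA A)^[k] f - (XA A')^[k] f) y + XA (A - A') ((XA A')^[k] f) y := by
      rw [Function.iterate_succ_apply', Function.iterate_succ_apply', ← XA_sub_field,
        XA_sub A (by exact_mod_cast hg) (by exact_mod_cast hg')]
      simp
    rw [e]
    refine (abs_add_le _ _).trans ?_
    have b1 : |XA A ((XA A)^[k] f - (XA A')^[k] f) y| ≤
        J 1 ((XA A)^[k] f - (XA A')^[k] f) y := by
      unfold XA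
      rw [← Real.norm_eq_abs]
      refine (ContinuousLinearMap.le_opNorm _ _).trans ?_
      have : ‖A y‖ ≤ 1 := (A.le_opNorm y).trans (mul_le_one₀ hA (norm_nonneg _) hy)
      exact (mul_le_of_le_one_right (norm_nonneg _) this).trans (fderiv_le_J y)
    have b2 : |XA (A - A') ((XA A')^[k] f) y| ≤ ‖A - A'‖ * J 1 ((XA A')^[k] f) y := by
      unfold XA
      rw [← Real.norm_eq_abs]
      refine (ContinuousLinearMap.le_opNorm _ _).trans ?_
      have : ‖(A - A') y‖ ≤ ‖A - A'‖ :=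
        ((A - A').le_opNorm y).trans (mul_le_of_le_one_right (norm_nonneg _) hy)
      rw [mul_comm]
      exact mul_le_mul this (fderiv_le_J y) (norm_nonneg _) (norm_nonneg _)
    have h1 := H A A' f y hA hA' hf' hy
    have h2 := H' A' f y hA' hf' hy
    rw [add_comm 1 k] at h1 h2
    calc _ ≤ C * ‖A - A'‖ * J (k + 1) f y + ‖A - A'‖ * (C' * J (k + 1) f y) := by
          refine add_le_add (b1.trans h1) (b2.trans ?_)
          exact mul_le_mul_of_nonneg_left h2 (norm_nonneg _)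
      _ = _ := by ring

theorem XA_zero_iter (k : ℕ) (f : E3 → ℝ) : (XA (0 : E3 →L[ℝ] E3))^[k + 1] f = 0 := by
  rw [Function.iterate_succ_apply']
  funext y
  simp [XA]

theorem val_le (k : ℕ) (hk : 1 ≤ k) : ∃ C : ℝ, 0 ≤ C ∧ ∀ (A : E3 →L[ℝ] E3) (f : E3 → ℝ) (y : E3),
    ‖A‖ ≤ 1 → ContDiff ℝ k f → ‖y‖ ≤ 1 → |(XA A)^[k] f y| ≤ C * J k f y := by
  obtain ⟨C, hC, H⟩ := val_diff k
  refine ⟨C, hC, fun A f y hA hf hy => ?_⟩
  obtain ⟨j, rfl⟩ : ∃ j, k = j + 1 := ⟨k - 1, by omega⟩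
  have h := H A 0 f y hA (by simp) hf hy
  rw [XA_zero_iter] at h
  simp only [Pi.zero_apply, sub_zero] at h
  refine h.trans ?_
  refine mul_le_mul_of_nonneg_right ?_ (J_nonneg _ _ _)
  exact mul_le_of_le_one_right hC hA

/-- both the field and the point vary -/
theorem lip (k : ℕ) : ∃ C : ℝ, 0 ≤ C ∧ ∀ (A A' : E3 →L[ℝ] E3) (f : E3 → ℝ) (x y : E3) (Q : ℝ),
    ‖A‖ ≤ 1 → ‖A'‖ ≤ 1 → ContDiff ℝ (k + 1 : ℕ) f → ‖x‖ ≤ 1 → ‖y‖ ≤ 1 →
    (∀ z : E3, ‖z‖ ≤ 1 → J (k + 1) f z ≤ Q) →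
    |(XA A)^[k] f x - (XA A')^[k] f y| ≤ C * (‖A - A'‖ + dist x y) * Q := by
  obtain ⟨C, hC, H⟩ := val_diff k
  obtain ⟨C', hC', H'⟩ := J_iter k 1
  refine ⟨C + C', by positivity, fun A A' f x y Q hA hA' hf hx hy hQ => ?_⟩
  have hQ0 : 0 ≤ Q := (J_nonneg _ _ _).trans (hQ x hx)
  have hf' : ContDiff ℝ (1 + k : ℕ) f := by rwa [add_comm 1 k]
  have hk : ((k : ℕ) : WithTop ℕ∞) ≤ (k + 1 : ℕ) := by exact_mod_cast (by omega : k ≤ k + 1)
  have h1 := H A A' f x hA hA' (hf.of_le hk) hx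
  have hg' : ContDiff ℝ (1 : ℕ) ((XA A')^[k] f) := contDiff_XA_iter A' k hf'
  have h2 : ‖(XA A')^[k] f x - (XA A')^[k] f y‖ ≤ C' * Q * ‖x - y‖ := by
    refine Convex.norm_image_sub_le_of_norm_fderiv_le (𝕜 := ℝ) (s := closedBall (0 : E3) 1)
      (fun z _ => (hg'.differentiable (by norm_num)) z) ?_ (convex_closedBall _ _)
      (mem_closedBall_zero_iff.2 hy) (mem_closedBall_zero_iff.2 hx)
    intro z hz
    have hz' := mem_closedBall_zero_iff.1 hz
    refine (fderiv_le_J z).trans ((H' A' f z hA' hf' hz').trans ?_)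
    refine mul_le_mul_of_nonneg_left ?_ hC'
    rw [add_comm 1 k]
    exact hQ z hz'
  have h3 : |(XA A)^[k] f x - (XA A')^[k] f y| ≤
      |(XA A)^[k] f x - (XA A')^[k] f x| + |(XA A')^[k] f x - (XA A')^[k] f y| := abs_sub_le _ _ _
  rw [Real.norm_eq_abs] at h2
  have h4 : J k f x ≤ Q := (J_mono (by omega) f x).trans (hQ x hx)
  rw [dist_eq_norm]
  calc _ ≤ C * ‖A - A'‖ * Q + C' * Q * ‖x - y‖ := by
        refine h3.trans (add_le_add (h1.trans ?_) h2)
        exact mul_le_mul_of_nonneg_left h4 (by positivity)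
    _ ≤ (C + C') * (‖A - A'‖ + ‖x - y‖) * Q := by
        have : 0 ≤ C * ‖x - y‖ * Q + C' * ‖A - A'‖ * Q := by positivity
        nlinarith

end Pool.Agent.VAN.FT
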