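import Pool.Agent.VAN.FTD
import Pool.Agent.VAN.CKL

/-!
The restriction estimate for phases of finite type.
-/

set_option autoImplicit false

namespace Pool.Agent.VAN.FT

open MeasureTheory Set Metric Pool.Agent.MP_6cbfb8_an Pool.Agent.PPH
open scoped ENNReal Real

theorem measurable_ph {ψ : E3 → ℝ} (hψ : Continuous ψ) :
    Measurable (extn (fun x : E3 => Complex.exp (((ψ x : ℝ) : ℂ) * Complex.I))) := by
  refine measurable_extn' ?_
  exact (Complex.continuous_exp.comp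
    ((Complex.continuous_ofReal.comp hψ).mul continuous_const)).measurable

/-- **The restriction estimate for `C^K` phases of type `m`.** -/
theorem typ_bound (m K : ℕ) (hm : 1 ≤ m) (hmK : m + 2 ≤ K) (p : ℝ)
    (hp : 3 * ((K : ℝ) + 3) * (K + 3 * m) < p * K ^ 2) (c B : ℝ) (hc : 0 < c) :
    ∃ C : ℝ≥0∞, C ≠ ∞ ∧ ∀ (L : ℝ) (ψ : E 3 → ℝ), 0 ≤ L → ContDiff ℝ K ψ →
      (∀ j : ℕ, 1 ≤ j → j ≤ K → ∀ y : E 3, ‖y‖ ≤ 2 → ‖iteratedFDeriv ℝ j ψ y‖ ≤ B * L) →
      Typ m c L ψ →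
      ∫⁻ ξ, ‖extn (fun x => Complex.exp (((ψ x : ℝ) : ℂ) * Complex.I)) ξ‖ₑ ^ p ≤ C := by
  have hm0 : (0 : ℝ) < m := by exact_mod_cast hm
  have hK0 : (0 : ℝ) < K := by
    have : (0 : ℕ) < K := by omega
    exact_mod_cast this
  have hKm : (0 : ℝ) < K + 3 * m := by positivity
  set p1 : ℝ := p * K / (K + 3 * m) with hp1
  have hp1e : p1 * (K + 3 * m) = p * K := by rw [hp1]; field_simp
  have h31 : 9 < K * (p1 - 3) := by
    have h1 : 3 * ((K : ℝ) + 3) * (K + 3 * m) < (p1 * K) * (K + 3 * m) := by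
      calc _ < p * K ^ 2 := hp
        _ = (p1 * K) * (K + 3 * m) := by
          have : p1 * K * (K + 3 * m) = p1 * (K + 3 * m) * K := by ring
          rw [this, hp1e]
          ring
    have h2 := lt_of_mul_lt_mul_right h1 hKm.le
    linarith
  have hp13 : 3 < p1 := by
    by_contra hcon
    push Not at hcon
    have : K * (p1 - 3) ≤ 0 := mul_nonpos_of_nonneg_of_nonpos hK0.le (by linarith)
    linarith
  have hpp : p - p1 = 3 * m * p1 / K := by
    field_simp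
    linarith
  have hpp0 : 0 < p - p1 := by
    rw [hpp]
    positivity
  obtain ⟨C1, hC1, H1⟩ := ck_loss 0 0 K p1 h31
  obtain ⟨C2, hC2, H2⟩ := decay_typ m hm hc (B := (m + 2 : ℕ) * |B|) (by positivity)
  set e : ℝ := 3 * p1 / K with he
  have he0 : 0 ≤ e := by positivity
  refine ⟨ENNReal.ofReal (C2 ^ (p - p1) * (1 + |B|) ^ e) * C1,
    ENNReal.mul_ne_top ENNReal.ofReal_ne_top hC1, fun L ψ hL hψ hB hT => ?_⟩
  have hdec := H2 ψ L hL (hψ.of_le (by exact_mod_cast hmK)) (by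
    intro z hz
    unfold J
    have h1 : ∀ i ∈ Finset.range (m + 2), ‖iteratedFDeriv ℝ (i + 1) ψ z‖ ≤ |B| * L := by
      intro i hi
      have hi' := Finset.mem_range.1 hi
      refine (hB (i + 1) (by omega) (by omega) z (by linarith)).trans ?_
      exact mul_le_mul_of_nonneg_right (le_abs_self _) hL
    refine (Finset.sum_le_sum h1).trans ?_
    rw [Finset.sum_const, Finset.card_range, nsmul_eq_mul]
    exact le_of_eq (by ring)) hT
  have hloss := H1 ψ (|B| * L) 0 (fun i => i.elim0) hψ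
    (fun x hx => (hB K (by omega) le_rfl x hx).trans
      (mul_le_mul_of_nonneg_right (le_abs_self _) hL)) (by simp) (fun i => i.elim0)
  have hpol : (fun x : E 3 => pol (0 : MvPolynomial (Fin 3) ℝ)
      (fun i : Fin 0 => (i.elim0 : MvPolynomial (Fin 3) ℝ)) x *
        Complex.exp (((ψ x : ℝ) : ℂ) * Complex.I)) =
      fun x => Complex.exp (((ψ x : ℝ) : ℂ) * Complex.I) := by
    funext x
    unfold pol
    simp
  rw [hpol] at hloss
  set F : E 3 → ℂ := extn (fun x => Complex.exp (((ψ x : ℝ) : ℂ) * Complex.I)) with hF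
  have hFm : Measurable F := measurable_ph hψ.continuous
  have hb0 : 0 ≤ C2 * (1 + L) ^ (-(1 / (m : ℝ))) := by positivity
  have hpt : ∀ ξ, ‖F ξ‖ₑ ^ p ≤
      ENNReal.ofReal ((C2 * (1 + L) ^ (-(1 / (m : ℝ)))) ^ (p - p1)) * ‖F ξ‖ₑ ^ p1 := by
    intro ξ
    have h1 : ‖F ξ‖ₑ ≤ ENNReal.ofReal (C2 * (1 + L) ^ (-(1 / (m : ℝ)))) := by
      rw [← ofReal_norm]
      exact ENNReal.ofReal_le_ofReal (hdec ξ)
    have h2 : ‖F ξ‖ₑ ^ p = ‖F ξ‖ₑ ^ (p - p1) * ‖F ξ‖ₑ ^ p1 := by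
      rw [← ENNReal.rpow_add_of_nonneg _ _ hpp0.le (by linarith)]
      congr 1
      ring
    rw [h2, ← ENNReal.ofReal_rpow_of_nonneg hb0 hpp0.le]
    gcongr
  calc ∫⁻ ξ, ‖F ξ‖ₑ ^ p
      ≤ ∫⁻ ξ, ENNReal.ofReal ((C2 * (1 + L) ^ (-(1 / (m : ℝ)))) ^ (p - p1)) * ‖F ξ‖ₑ ^ p1 :=
        lintegral_mono hpt
    _ = ENNReal.ofReal ((C2 * (1 + L) ^ (-(1 / (m : ℝ)))) ^ (p - p1)) * ∫⁻ ξ, ‖F ξ‖ₑ ^ p1 :=
        lintegral_const_mul _ (hFm.enorm.pow_const _)
    _ ≤ ENNReal.ofReal ((C2 * (1 + L) ^ (-(1 / (m : ℝ)))) ^ (p - p1)) *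
        (C1 * ENNReal.ofReal ((1 + |B| * L) ^ (3 * p1 / K))) := by gcongr
    _ = ENNReal.ofReal ((C2 * (1 + L) ^ (-(1 / (m : ℝ)))) ^ (p - p1) *
        (1 + |B| * L) ^ e) * C1 := by
        rw [ENNReal.ofReal_mul (by positivity)]
        ring
    _ ≤ ENNReal.ofReal (C2 ^ (p - p1) * (1 + |B|) ^ e) * C1 := by
        refine mul_le_mul' (ENNReal.ofReal_le_ofReal ?_) le_rfl
        have h1L : (0 : ℝ) < 1 + L := by linarith
        have e1 : (C2 * (1 + L) ^ (-(1 / (m : ℝ)))) ^ (p - p1) =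
            C2 ^ (p - p1) * (1 + L) ^ (-e) := by
          rw [Real.mul_rpow hC2 (by positivity), ← Real.rpow_mul h1L.le]
          congr 2
          rw [hpp, he]
          field_simp
        have e2 : (1 + |B| * L) ^ e ≤ (1 + |B|) ^ e * (1 + L) ^ e := by
          rw [← Real.mul_rpow (by positivity) (by positivity)]
          refine Real.rpow_le_rpow (by positivity) ?_ he0
          nlinarith [abs_nonneg B]
        have e3 : (1 + L) ^ (-e) * (1 + L) ^ e = 1 := by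
          rw [← Real.rpow_add h1L]
          simp
        rw [e1]
        calc C2 ^ (p - p1) * (1 + L) ^ (-e) * (1 + |B| * L) ^ e
            ≤ C2 ^ (p - p1) * (1 + L) ^ (-e) * ((1 + |B|) ^ e * (1 + L) ^ e) :=
              mul_le_mul_of_nonneg_left e2 (by positivity)
          _ = C2 ^ (p - p1) * (1 + |B|) ^ e * ((1 + L) ^ (-e) * (1 + L) ^ e) := by ring
          _ = C2 ^ (p - p1) * (1 + |B|) ^ e := by rw [e3, mul_one]

end Pool.Agent.VAN.FT
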