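import Pool.Agent.VAN.FTE
import Pool.Agent.VAN.BVdecay

/-!
The restriction estimate for phases of finite type with an amplitude of bounded variation.
-/

set_option autoImplicit false

namespace Pool.Agent.VAN.FT

open MeasureTheory Set Metric MvPolynomial Pool.Agent.MP_6cbfb8_an Pool.Agent.PPH Pool.Agent.BVA
open scoped ENNReal Real

/-- **Decay of the Fourier transform**, uniform in the phase, in all variables. -/
theorem decay_typ2 (m : ℕ) (hm : 1 ≤ m) {c B : ℝ} (hc : 0 < c) (hB : 0 ≤ B) :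
    ∃ C : ℝ, 0 ≤ C ∧ ∀ (ψ : E3 → ℝ) (L : ℝ), 0 ≤ L → ContDiff ℝ (m + 2 : ℕ) ψ →
      (∀ z : E3, ‖z‖ ≤ 1 → J (m + 2) ψ z ≤ B * L) → Typ m c L ψ →
      ∀ ξ : E3, ‖extn (fun x => Complex.exp (((ψ x : ℝ) : ℂ) * Complex.I)) ξ‖ ≤
        C * (1 + L + ‖ξ‖) ^ (-(1 / (m : ℝ))) := by
  have hm0 : (0 : ℝ) < m := by exact_mod_cast hm
  set κ : ℝ := 1 / (m : ℝ) with hκ
  have hκ0 : 0 < κ := by positivity
  have hκ1 : κ ≤ 1 := by
    rw [hκ, div_le_one hm0]
    exact_mod_cast hm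
  set σ : ℝ := (sm 3).real univ with hσ
  have hσ0 : 0 ≤ σ := by positivity
  obtain ⟨C, hC, H⟩ := decay_unif m hc (B := B + 1) (by linarith)
  refine ⟨2 * (C + σ), by positivity, fun ψ L hL hψ hJ hT ξ => ?_⟩
  set ζ : E3 := (-(2 * π)) • ξ with hζ
  have hnζ : ‖ξ‖ ≤ ‖ζ‖ := by
    rw [hζ, norm_smul, Real.norm_eq_abs, abs_neg, abs_of_pos (by positivity)]
    have : 1 ≤ 2 * π := by linarith [Real.pi_gt_three]
    exact le_mul_of_one_le_left (norm_nonneg _) this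
  have hex : extn (fun x => Complex.exp (((ψ x : ℝ) : ℂ) * Complex.I)) ξ =
      ∫ x : S 3, ei ((fun y : E3 => ψ y + inner ℝ y ζ) x) ∂sm 3 := by
    unfold extn
    refine integral_congr_ae (Filter.Eventually.of_forall fun x => ?_)
    simp only
    rw [← Complex.exp_add]
    unfold ei
    congr 1
    rw [hζ, inner_smul_right]
    push_cast
    ring
  have hinner : ContDiff ℝ (m + 2 : ℕ) (fun y : E3 => inner ℝ y ζ) :=
    contDiff_id.inner ℝ contDiff_const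
  set X : ℝ := 1 + L + ‖ξ‖ with hX
  have hX0 : 0 < X := by positivity
  have htwo : ∀ M : ℝ, 1 ≤ M → X ≤ 2 * M → M ^ (-κ) ≤ 2 * X ^ (-κ) := by
    intro M hM hLM
    have h1 : M ^ (-κ) ≤ (X / 2) ^ (-κ) :=
      Real.rpow_le_rpow_of_nonpos (by positivity) (by linarith) (by linarith)
    refine h1.trans ?_
    rw [Real.div_rpow (by linarith) (by norm_num), div_eq_mul_inv, mul_comm]
    refine mul_le_mul_of_nonneg_right ?_ (by positivity)
    rw [Real.rpow_neg (by norm_num), inv_inv]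
    calc (2 : ℝ) ^ κ ≤ 2 ^ (1 : ℝ) := Real.rpow_le_rpow_of_exponent_le (by norm_num) hκ1
      _ = 2 := Real.rpow_one 2
  have h3 : 0 ≤ X ^ (-κ) := by positivity
  rcases le_or_gt 1 (L + ‖ζ‖) with hbig | hsmall
  · have h1 := H (fun y => ψ y + inner ℝ y ζ) (L + ‖ζ‖) hbig (hψ.add hinner) (by
      intro z hz
      have h2 := J_add (m + 2) hψ hinner z
      have h3 := J_inner (m + 2) ζ z
      have h4 := hJ z hz
      have h5 : (ψ + fun y : E3 => inner ℝ y ζ) = fun y => ψ y + inner ℝ y ζ := rfl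
      rw [h5] at h2
      have h6 : 0 ≤ B * ‖ζ‖ := by positivity
      nlinarith [norm_nonneg ζ]) (by
      intro x hx
      exact hT x ζ hx)
    rw [hex]
    refine h1.trans ?_
    have h2 := htwo _ hbig (by rw [hX]; linarith)
    calc C * (L + ‖ζ‖) ^ (-κ) ≤ C * (2 * X ^ (-κ)) := mul_le_mul_of_nonneg_left h2 hC
      _ ≤ 2 * (C + σ) * X ^ (-κ) := by nlinarith [mul_nonneg hσ0 h3]
  · rw [hex]
    have h1 : ‖∫ x : S 3, ei ((fun y : E3 => ψ y + inner ℝ y ζ) x) ∂sm 3‖ ≤ 1 * σ :=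
      norm_integral_le_of_norm_le_const (Filter.Eventually.of_forall fun x => (norm_ei _).le)
    refine h1.trans ?_
    have h4 := htwo 1 le_rfl (by rw [hX]; linarith)
    rw [Real.one_rpow] at h4
    calc 1 * σ ≤ (2 * X ^ (-κ)) * σ := mul_le_mul_of_nonneg_right h4 hσ0
      _ ≤ 2 * (C + σ) * X ^ (-κ) := by nlinarith [mul_nonneg hC h3]

/-- The estimate for polynomial phases and cuts with an amplitude of bounded variation. -/
def BB : Prop := ∀ (D N : ℕ) (p : ℝ), 3 < p → ∃ C : ℝ≥0∞, C ≠ ∞ ∧ ∀ (V : ℝ) (a : E 3 → ℂ), 1 ≤ V →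
  Measurable a → (∀ x, ‖a x‖ ≤ 1) → BVar 1 V a →
  ∀ (P : MvPolynomial (Fin 3) ℝ) (Q : Fin N → MvPolynomial (Fin 3) ℝ), P.totalDegree ≤ D →
  (∀ i, (Q i).totalDegree ≤ D) →
  ∫⁻ ξ : E 3, ‖extn (fun x => a x * pol P Q x) ξ‖ₑ ^ p ≤ C * ENNReal.ofReal V ^ (p - 1)

/-- The amplitudes of variation at most `V`. -/
def AV (V : ℝ) (a : E 3 → ℂ) : Prop := Measurable a ∧ (∀ x, ‖a x‖ ≤ 1) ∧ BVar 1 V a

theorem AV_bound (hBB : BB) {V : ℝ} (hV : 1 ≤ V) (A : ℕ) (p : ℝ) (hp : 3 < p) :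
    ∃ C : ℝ≥0∞, C ≠ ∞ ∧ ∀ (w : E 3 → ℂ) (T : MvPolynomial (Fin 3) ℝ) (s : Fin 3 → ℝ), AV V w →
      T.totalDegree ≤ A → ∫⁻ ξ, ‖extn (fun x => w x * pex T x * oct s x) ξ‖ₑ ^ p ≤ C := by
  obtain ⟨C, hC, h⟩ := hBB (max A 1) 3 p hp
  refine ⟨C * ENNReal.ofReal V ^ (p - 1), ENNReal.mul_ne_top hC
    (ENNReal.rpow_ne_top_of_nonneg (by linarith) ENNReal.ofReal_ne_top), ?_⟩
  rintro w T s ⟨hw, hw1, hwV⟩ hT
  refine le_trans (le_of_eq ?_) (h V w hV hw hw1 hwV T (octQ s) (hT.trans (le_max_left _ _))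
    (fun i => (octQ_deg s i).trans (le_max_right _ _)))
  refine lintegral_congr fun ξ => ?_
  congr 3
  funext x
  have h1 := pol_mul_oct (N := 0) 0 T (fun i => i.elim0) s x
  rw [zero_add] at h1
  have h2 : pol (0 : MvPolynomial (Fin 3) ℝ)
      (fun i : Fin 0 => (i.elim0 : MvPolynomial (Fin 3) ℝ)) x = 1 := by
    unfold pol
    simp
  rw [h2, one_mul] at h1
  rw [mul_assoc, h1]
  congr 1

/-- **The restriction estimate for `C^K` phases of type `m` with an amplitude of bounded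
variation.** -/
theorem typ_bound_bv (hBB : BB) {V : ℝ} (hV : 1 ≤ V) (m K : ℕ) (hm : 1 ≤ m) (hmK : m + 2 ≤ K)
    (p : ℝ) (hp : 3 * ((K : ℝ) + 3) * (K + 12 * m) < p * K ^ 2) (c B : ℝ) (hc : 0 < c) :
    ∃ C : ℝ≥0∞, C ≠ ∞ ∧ ∀ (L : ℝ) (ψ : E 3 → ℝ) (a : E 3 → ℂ), 0 ≤ L → ContDiff ℝ K ψ →
      (∀ j : ℕ, 1 ≤ j → j ≤ K → ∀ y : E 3, ‖y‖ ≤ 2 → ‖iteratedFDeriv ℝ j ψ y‖ ≤ B * L) →
      Typ m c L ψ → AV V a →
      ∫⁻ ξ, ‖extn (fun x => a x * Complex.exp (((ψ x : ℝ) : ℂ) * Complex.I)) ξ‖ₑ ^ p ≤ C := by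
  have hm0 : (0 : ℝ) < m := by exact_mod_cast hm
  have hK0 : (0 : ℝ) < K := by
    have : (0 : ℕ) < K := by omega
    exact_mod_cast this
  have hKm : (0 : ℝ) < K + 12 * m := by positivity
  set p1 : ℝ := p * K / (K + 12 * m) with hp1
  have hp1e : p1 * (K + 12 * m) = p * K := by rw [hp1]; field_simp
  have h31 : 9 < K * (p1 - 3) := by
    have h1 : 3 * ((K : ℝ) + 3) * (K + 12 * m) < (p1 * K) * (K + 12 * m) := by
      calc _ < p * K ^ 2 := hp
        _ = (p1 * K) * (K + 12 * m) := by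
          have : p1 * K * (K + 12 * m) = p1 * (K + 12 * m) * K := by ring
          rw [this, hp1e]
          ring
    have h2 := lt_of_mul_lt_mul_right h1 hKm.le
    linarith
  have hp13 : 3 < p1 := by
    by_contra hcon
    push Not at hcon
    have : K * (p1 - 3) ≤ 0 := mul_nonpos_of_nonneg_of_nonpos hK0.le (by linarith)
    linarith
  have hpp : p - p1 = 12 * m * p1 / K := by
    field_simp
    linarith
  have hpp0 : 0 < p - p1 := by
    rw [hpp]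
    positivity
  obtain ⟨C1, hC1, H1⟩ := ck_loss_cls (AV V) (fun w hw => ⟨hw.1, hw.2.1⟩) (AV_bound hBB hV) K p1 h31
  obtain ⟨C2, hC2, H2⟩ := decay_typ2 m hm hc (B := (m + 2 : ℕ) * |B|) (by positivity)
  obtain ⟨C3, hC3, H3⟩ := bv_decay
  set e : ℝ := 3 * p1 / K with he
  have he0 : 0 ≤ e := by positivity
  set C4 : ℝ := C3 * (C2 + 1) * V with hC4
  have hC40 : 0 ≤ C4 := by positivity
  refine ⟨ENNReal.ofReal (C4 ^ (p - p1) * (1 + |B|) ^ e) * C1,
    ENNReal.mul_ne_top ENNReal.ofReal_ne_top hC1, fun L ψ a hL hψ hB hT ha => ?_⟩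
  have hdec := H2 ψ L hL (hψ.of_le (by exact_mod_cast hmK)) (by
    intro z hz
    unfold J
    have h1 : ∀ i ∈ Finset.range (m + 2), ‖iteratedFDeriv ℝ (i + 1) ψ z‖ ≤ |B| * L := by
      intro i hi
      have hi' := Finset.mem_range.1 hi
      refine (hB (i + 1) (by omega) (by omega) z (by linarith)).trans ?_
      exact mul_le_mul_of_nonneg_right (le_abs_self _) hL
    refine (Finset.sum_le_sum h1).trans ?_
    rw [Finset.sum_const, Finset.card_range, nsmul_eq_mul]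
    exact le_of_eq (by ring)) hT
  have hem : Measurable fun x : E 3 => Complex.exp (((ψ x : ℝ) : ℂ) * Complex.I) :=
    (Complex.continuous_exp.comp
      ((Complex.continuous_ofReal.comp hψ.continuous).mul continuous_const)).measurable
  have hdec2 : ∀ ξ, ‖extn (fun x => a x * Complex.exp (((ψ x : ℝ) : ℂ) * Complex.I)) ξ‖ ≤
      C4 * (1 + L) ^ (-(1 / (4 * (m : ℝ)))) := by
    intro ξ
    have h1 := H3 a (fun x => Complex.exp (((ψ x : ℝ) : ℂ) * Complex.I)) ha.1 hem ha.2.1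
      (fun x => (Complex.norm_exp_ofReal_mul_I _).le) 1 V (C2 + 1) (1 / (m : ℝ)) (1 + L)
      zero_le_one le_rfl hV ha.2.2 (by linarith) (by positivity) (by
        rw [div_le_one hm0]
        exact_mod_cast hm) (by linarith) (fun ξ => (hdec ξ).trans (by
          refine mul_le_mul_of_nonneg_right (by linarith) ?_
          exact Real.rpow_nonneg (by linarith [norm_nonneg ξ]) _)) ξ
    refine h1.trans ?_
    refine mul_le_mul_of_nonneg_left ?_ hC40
    have e1 : -(1 / (m : ℝ) * 1 / 4) = -(1 / (4 * (m : ℝ))) := by field_simp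
    rw [e1]
    exact Real.rpow_le_rpow_of_nonpos (by linarith) (by linarith [norm_nonneg ξ]) (by
      have : 0 < 1 / (4 * (m : ℝ)) := by positivity
      linarith)
  have hloss := H1 ψ (|B| * L) a ha hψ
    (fun x hx => (hB K (by omega) le_rfl x hx).trans
      (mul_le_mul_of_nonneg_right (le_abs_self _) hL))
  set F : E 3 → ℂ := extn (fun x => a x * Complex.exp (((ψ x : ℝ) : ℂ) * Complex.I)) with hF
  have hFm : Measurable F := measurable_extn' (ha.1.mul hem)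
  have hb0 : 0 ≤ C4 * (1 + L) ^ (-(1 / (4 * (m : ℝ)))) := by positivity
  have hpt : ∀ ξ, ‖F ξ‖ₑ ^ p ≤
      ENNReal.ofReal ((C4 * (1 + L) ^ (-(1 / (4 * (m : ℝ))))) ^ (p - p1)) * ‖F ξ‖ₑ ^ p1 := by
    intro ξ
    have h1 : ‖F ξ‖ₑ ≤ ENNReal.ofReal (C4 * (1 + L) ^ (-(1 / (4 * (m : ℝ))))) := by
      rw [← ofReal_norm]
      exact ENNReal.ofReal_le_ofReal (hdec2 ξ)
    have h2 : ‖F ξ‖ₑ ^ p = ‖F ξ‖ₑ ^ (p - p1) * ‖F ξ‖ₑ ^ p1 := by
      rw [← ENNReal.rpow_add_of_nonneg _ _ hpp0.le (by linarith)]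
      congr 1
      ring
    rw [h2, ← ENNReal.ofReal_rpow_of_nonneg hb0 hpp0.le]
    gcongr
  calc ∫⁻ ξ, ‖F ξ‖ₑ ^ p
      ≤ ∫⁻ ξ, ENNReal.ofReal ((C4 * (1 + L) ^ (-(1 / (4 * (m : ℝ))))) ^ (p - p1)) *
          ‖F ξ‖ₑ ^ p1 := lintegral_mono hpt
    _ = ENNReal.ofReal ((C4 * (1 + L) ^ (-(1 / (4 * (m : ℝ))))) ^ (p - p1)) *
          ∫⁻ ξ, ‖F ξ‖ₑ ^ p1 := lintegral_const_mul _ (hFm.enorm.pow_const _)
    _ ≤ ENNReal.ofReal ((C4 * (1 + L) ^ (-(1 / (4 * (m : ℝ))))) ^ (p - p1)) *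
        (C1 * ENNReal.ofReal ((1 + |B| * L) ^ (3 * p1 / K))) := by gcongr
    _ = ENNReal.ofReal ((C4 * (1 + L) ^ (-(1 / (4 * (m : ℝ))))) ^ (p - p1) *
        (1 + |B| * L) ^ e) * C1 := by
        rw [ENNReal.ofReal_mul (by positivity)]
        ring
    _ ≤ ENNReal.ofReal (C4 ^ (p - p1) * (1 + |B|) ^ e) * C1 := by
        refine mul_le_mul' (ENNReal.ofReal_le_ofReal ?_) le_rfl
        have h1L : (0 : ℝ) < 1 + L := by linarith
        have e1 : (C4 * (1 + L) ^ (-(1 / (4 * (m : ℝ))))) ^ (p - p1) =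
            C4 ^ (p - p1) * (1 + L) ^ (-e) := by
          rw [Real.mul_rpow hC40 (by positivity), ← Real.rpow_mul h1L.le]
          congr 2
          rw [hpp, he]
          field_simp
          norm_num
        have e2 : (1 + |B| * L) ^ e ≤ (1 + |B|) ^ e * (1 + L) ^ e := by
          rw [← Real.mul_rpow (by positivity) (by positivity)]
          refine Real.rpow_le_rpow (by positivity) ?_ he0
          nlinarith [abs_nonneg B]
        have e3 : (1 + L) ^ (-e) * (1 + L) ^ e = 1 := by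
          rw [← Real.rpow_add h1L]
          simp
        rw [e1]
        calc C4 ^ (p - p1) * (1 + L) ^ (-e) * (1 + |B| * L) ^ e
            ≤ C4 ^ (p - p1) * (1 + L) ^ (-e) * ((1 + |B|) ^ e * (1 + L) ^ e) :=
              mul_le_mul_of_nonneg_left e2 (by positivity)
          _ = C4 ^ (p - p1) * (1 + |B|) ^ e * ((1 + L) ^ (-e) * (1 + L) ^ e) := by ring
          _ = C4 ^ (p - p1) * (1 + |B|) ^ e := by rw [e3, mul_one]

end Pool.Agent.VAN.FT
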