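import Pool.Agent.VAN.FTI
import Pool.Agent.VAN.FVB
import Pool.Agent.VAN.FVC

/-!
Families of finite type with an amplitude of bounded variation: the uniform restriction estimate,
with cuts.
-/

set_option autoImplicit false

namespace Pool.Agent.VAN.FT

open MeasureTheory Set Metric Pool.Agent.MP_6cbfb8_an Pool.Agent.BVA
open scoped ENNReal Real

/-- the smoothness needed for the exponent `p`, with an amplitude -/
theorem exists_K4 (m : ℕ) {p : ℝ} (hp : 3 < p) : ∃ K : ℕ, m + 2 ≤ K ∧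
    3 * ((K : ℝ) + 3) * (K + 12 * m) < p * K ^ 2 := by
  obtain ⟨K, hK, h⟩ := exists_K (4 * m) hp
  refine ⟨K, by omega, ?_⟩
  push_cast at h
  have e : (3 : ℝ) * (4 * m) = 12 * m := by ring
  rwa [e] at h

/-- no cuts -/
theorem fin_nocut_bv (hBB : BB) {V : ℝ} (hV : 1 ≤ V) {d : ℕ} (m : ℕ) (c : ℝ) (hc : 0 < c)
    (B : ℕ → ℝ) (p : ℝ) (hp : 3 < p) :
    ∃ C : ℝ≥0∞, C ≠ ∞ ∧ ∀ (φ : Fin d → E 3 → ℝ) (w : E 3 → ℂ), FinType m c B φ → AV V w →
      ∀ a : Fin d → ℝ,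
        ∫⁻ ξ, ‖extn (fun x => w x * Complex.exp (((fam φ a x : ℝ) : ℂ) * Complex.I)) ξ‖ₑ ^ p
          ≤ C := by
  rcases Nat.eq_zero_or_pos m with rfl | hm
  · exact ⟨0, by simp, fun φ w hφ _ a => absurd (hφ.2.2 a).pos (by norm_num)⟩
  obtain ⟨K, hmK, hK⟩ := exists_K4 m hp
  obtain ⟨C, hC, H⟩ := typ_bound_bv hBB hV m K hm hmK p hK c
    (d * ∑ k ∈ Finset.range (K + 1), |B k|) hc
  refine ⟨C, hC, fun φ w hφ hw a => ?_⟩
  refine H ‖a‖ (fam φ a) w (norm_nonneg _) (fam_contDiff hφ.1 a K) ?_ (hφ.2.2 a) hw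
  intro j _ hj y hy
  refine (fam_iter_le hφ.1 hφ.2.1 a j hy).trans ?_
  refine mul_le_mul_of_nonneg_right ?_ (norm_nonneg _)
  refine mul_le_mul_of_nonneg_left ?_ (Nat.cast_nonneg _)
  exact Finset.single_le_sum (f := fun k => |B k|) (fun i _ => abs_nonneg _)
    (Finset.mem_range.2 (by omega))

/-- extended families, with cuts and an amplitude -/
theorem cls_cuts_bv (hBB : BB) {V : ℝ} (hV : 1 ≤ V) {d : ℕ} (m : ℕ) (c : ℝ) (hc : 0 < c)
    (B : ℕ → ℝ) (N : ℕ) (p : ℝ) (hp : 3 < p) :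
    ∃ C : ℝ≥0∞, C ≠ ∞ ∧ ∀ (Φ : Fin (d + 4) → E 3 → ℝ) (w : E 3 → ℂ), (cls m c B Φ ∧ AV V w) →
      ∀ (a : Fin (d + 4) → ℝ) (b : Fin N → Fin (d + 4) → ℝ),
        ∫⁻ ξ, ‖extn (fun x => famc Φ a b x * w x) ξ‖ₑ ^ p ≤ C := by
  refine cuts_amp 3 (by norm_num) (P := fun Φ w => cls m c B Φ ∧ AV V w)
    (fun Φ w h => ⟨fun j => (cls_meas h.1 j).measurable, h.2.1, h.2.2.1⟩) ?_ ?_ ?_ N p hp
  · refine ⟨|B 0| + 1, ?_⟩
    rintro Φ w ⟨⟨φ, hφ, rfl⟩, -⟩ j x hx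
    refine Fin.addCases (fun i => ?_) (fun i => ?_) j
    · rw [Fin.append_left]
      have h2 := hφ.2.1 i 0 x (by rw [hx]; norm_num)
      rw [norm_iteratedFDeriv_zero] at h2
      rw [Real.norm_eq_abs] at h2
      linarith [le_abs_self (B 0)]
    · rw [Fin.append_right]
      linarith [abs_aff_le hx i, abs_nonneg (B 0)]
  · obtain ⟨K, κ, hK, hκ, H⟩ := cls_sub (d := d) m c hc B
    exact ⟨K, κ, hK, hκ, fun Φ w h => H Φ h.1⟩
  · intro q hq
    obtain ⟨C, hC, H⟩ := fin_nocut_bv hBB hV (d := d) m c hc B q hq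
    refine ⟨C, hC, ?_⟩
    rintro Φ w ⟨⟨φ, hφ, rfl⟩, hw⟩ C'
    obtain ⟨a, b, rfl⟩ := append_split' C'
    have h2 := lint_phase w (φ := fam (Fin.append φ aff) (Fin.append a b))
      (φ' := fam φ a) (ζ := WithLp.toLp 2 (fun j : Fin 3 => b (Fin.castSucc j))) (c := b 3)
      (fun x _ => by
        rw [fam_append, fam_aff]
        ring) q
    rw [h2]
    refine le_trans (le_of_eq ?_) (H φ w hφ hw a)
    refine lintegral_congr fun ξ => ?_
    congr 3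
    funext x
    rw [mul_comm]

/-- **The uniform estimate for families of finite type, with cuts and an amplitude of bounded
variation.** -/
theorem fin_bound_bv (hBB : BB) {V : ℝ} (hV : 1 ≤ V) {d : ℕ} (N m : ℕ) (c : ℝ) (hc : 0 < c)
    (B : ℕ → ℝ) (p : ℝ) (hp : 3 < p) :
    ∃ C : ℝ≥0∞, C ≠ ∞ ∧ ∀ (φ : Fin d → E 3 → ℝ) (w : E 3 → ℂ), FinType m c B φ → AV V w →
      ∀ (a : Fin d → ℝ) (b : Fin N → Fin d → ℝ) (ζ : Fin N → E 3) (κ : Fin N → ℝ),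
        ∫⁻ ξ, ‖extn (fun x => w x * famA φ a b ζ κ x) ξ‖ₑ ^ p ≤ C := by
  obtain ⟨C, hC, H⟩ := cls_cuts_bv hBB hV (d := d) m c hc B N p hp
  refine ⟨C, hC, fun φ w hφ hw a b ζ κ => ?_⟩
  have h := H (Fin.append φ aff) w ⟨⟨φ, hφ, rfl⟩, hw⟩ (Fin.append a 0)
    (fun i => Fin.append (b i) (Fin.snoc (fun j : Fin 3 => ζ i j) (κ i)))
  refine le_trans (le_of_eq ?_) h
  refine lintegral_congr fun ξ => ?_
  congr 3
  funext x
  rw [mul_comm]
  congr 1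
  unfold famA famc
  have h0 : fam (Fin.append φ aff) (Fin.append a 0) x = fam φ a x := by
    rw [fam_append]
    have : fam aff (0 : Fin 4 → ℝ) x = 0 := by
      unfold fam
      simp
    rw [this, add_zero]
  rw [h0]
  congr 1
  refine Finset.prod_congr rfl fun i _ => ?_
  have h1 : fam (Fin.append φ aff) (Fin.append (b i) (Fin.snoc (fun j : Fin 3 => ζ i j) (κ i))) x =
      fam φ (b i) x + inner ℝ x (ζ i) + κ i := by
    rw [fam_append, fam_aff]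
    have e1 : (WithLp.toLp 2 (fun j : Fin 3 =>
        (Fin.snoc (fun j : Fin 3 => ζ i j) (κ i) : Fin 4 → ℝ) (Fin.castSucc j)) : E 3) = ζ i := by
      ext j
      simp
    have e2 : (Fin.snoc (fun j : Fin 3 => ζ i j) (κ i) : Fin 4 → ℝ) 3 = κ i :=
      Fin.snoc_last (α := fun _ => ℝ) (κ i) (fun j : Fin 3 => ζ i j)
    rw [e1, e2]
    ring
  rw [h1]

end Pool.Agent.VAN.FT
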