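import Pool.Agent.BVA.R3
import Pool.Agent.VAN.FVD

/-!
The polynomial estimate with an amplitude of bounded variation, in the form used here.
-/

set_option autoImplicit false

namespace Pool.Agent.VAN.FT

open MeasureTheory Set Pool.Agent.MP_6cbfb8_an Pool.Agent.BVA
open scoped ENNReal Real

theorem bb : BB := by
  intro D N p hp
  exact main3_bv D N 1 p one_pos hp (by linarith)

end Pool.Agent.VAN.FT
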