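import Pool.Agent.VAN.G

/-!
Superpositions and higher dimensions for densities with an amplitude from an arbitrary class.
-/

namespace Pool.Agent.VAN

open MeasureTheory Set Pool.Agent.MP_6cbfb8_an
open scoped ENNReal Real

/-- Superpositions in dimension three, with amplitudes. -/
theorem mix3_amp {K N : ℕ} {f : Fin K → E 3 → ℝ} (hf : ∀ i, ContinuousOn (f i) (S 3)) {p : ℝ}
    (hp : 1 ≤ p) {C : ℝ≥0∞} (A : (E 3 → ℂ) → Prop)
    (H : ∀ g : E 3 → ℂ, Measurable g → (∀ x, ‖g x‖ ≤ 1) → A g →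
      ∀ (a : Fin K → ℝ) (b : Fin N → Fin K → ℝ),
        ∫⁻ ξ, ‖extn (fun x => g x * famc f a b x) ξ‖ₑ ^ p ≤ C)
    (W : Type) (_ : MeasurableSpace W) (ν : Measure W) (_ : IsFiniteMeasure ν)
    (R : W → (E 3 ≃ₗᵢ[ℝ] E 3)) (η : W → E 3) (g : W → E 3 → ℂ) (a : W → Fin K → ℝ)
    (b : W → Fin N → Fin K → ℝ)
    (hR : Measurable fun q : W × E 3 => R q.1 q.2) (hη : Measurable η)
    (hg : Measurable fun q : W × E 3 => g q.1 q.2) (hg1 : ∀ w x, ‖g w x‖ ≤ 1)
    (hA : ∀ w, A (g w)) (ha : Measurable a) (hb : Measurable b) :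
    ∫⁻ ξ, ‖extn (mix ν R η fun w x => g w x * famc f (a w) (b w) x) ξ‖ₑ ^ p ≤
      C * ν univ ^ p := by
  have hf' : ∀ i, Measurable (rS (f i)) := fun i => G_meas_rS (hf i)
  have e : extn (mix ν R η fun w x => g w x * famc f (a w) (b w) x) =
      extn (mix ν R η fun w x => g w x * famc (fun i => rS (f i)) (a w) (b w) x) :=
    extn_congr_sphere fun x hx => G_mix_congr ν R η (fun w y hy => by
      rw [G_famc_rS f (a w) (b w) hy]) hx
  rw [e]
  refine lintegral_mix_le hp (fun h => ∃ g : E 3 → ℂ, Measurable g ∧ (∀ x, ‖g x‖ ≤ 1) ∧ A g ∧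
      ∃ (a : Fin K → ℝ) (b : Fin N → Fin K → ℝ),
    h = fun x => g x * famc (fun i => rS (f i)) a b x) ?_ ν R η
    (fun w x => g w x * famc (fun i => rS (f i)) (a w) (b w) x) hR hη
    (hg.mul (G_meas_param hf' ha hb)) (fun w x => ?_) fun w => ⟨g w, ?_, hg1 w, hA w, a w, b w, rfl⟩
  · rintro h _ _ ⟨g, hgm, hgb, hgA, a, b, rfl⟩
    refine le_trans (le_of_eq ?_) (H g hgm hgb hgA a b)
    have e : extn (fun x => g x * famc (fun i => rS (f i)) a b x) =
        extn (fun x => g x * famc f a b x) :=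
      extn_congr_sphere fun x hx => by rw [G_famc_rS f a b hx]
    rw [e]
  · rw [norm_mul]
    exact mul_le_one₀ (hg1 _ _) (norm_nonneg _) (G_norm_le _ _ _ _)
  · exact hg.comp (f := fun x : E 3 => (w, x)) (by fun_prop)

/-- Superpositions in higher dimensions, with amplitudes. -/
theorem mixhigh_amp {K : ℕ} (N : ℕ) {f : Fin K → E 3 → ℝ} (hf : ∀ i, ContinuousOn (f i) (S 3))
    (A : (E 3 → ℂ) → Prop)
    (H : ∀ p : ℝ, 3 < p → ∃ C : ℝ≥0∞, C ≠ ∞ ∧ ∀ g : E 3 → ℂ, Measurable g → (∀ x, ‖g x‖ ≤ 1) →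
      A g → ∀ (a : Fin K → ℝ) (b : Fin N → Fin K → ℝ),
        ∫⁻ ξ, ‖extn (fun x => g x * famc f a b x) ξ‖ₑ ^ p ≤ C) (M l : ℕ) (hl : 2 ≤ l) (p : ℝ)
    (hp : 2 * ((l : ℝ) + 2) / (l + 1) < p) : ∃ C : ℝ≥0∞, C ≠ ∞ ∧
    ∀ (W : Type) (_ : MeasurableSpace W) (ν : Measure W) (_ : IsFiniteMeasure ν)
      (R : W → (E (2 + l) ≃ₗᵢ[ℝ] E (2 + l))) (η : W → E (2 + l)) (g : W → E 3 → ℂ)
      (a : W → Fin K → ℝ) (b : W → Fin N → Fin K → ℝ)
      (v : W → Fin M → E (2 + l)) (c : W → Fin M → ℝ),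
      (Measurable fun q : W × E (2 + l) => R q.1 q.2) → Measurable η →
      (Measurable fun q : W × E 3 => g q.1 q.2) → (∀ w x, ‖g w x‖ ≤ 1) → (∀ w, A (g w)) →
      Measurable a → Measurable b → Measurable v → Measurable c →
      ∫⁻ ξ, ‖extn (mix ν R η fun w x =>
        lift (fun y => g w y * famc f (a w) (b w) y) x * ∏ i, hsn (c w i) (v w i) x) ξ‖ₑ ^ p ≤
          C * ν univ ^ p := by
  have hf' : ∀ i, Measurable (rS (f i)) := fun i => G_meas_rS (hf i)
  have hU : UB 3 fun h : E 3 → ℂ => ∃ g : E 3 → ℂ, Measurable g ∧ (∀ x, ‖g x‖ ≤ 1) ∧ A g ∧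
      ∃ (a : Fin K → ℝ) (b : Fin N → Fin K → ℝ),
      h = fun x => g x * famc (fun i => rS (f i)) a b x := by
    intro p hp
    obtain ⟨C, hC, h⟩ := H p hp
    refine ⟨C, hC, ?_⟩
    rintro _ _ _ ⟨g, hgm, hgb, hgA, a, b, rfl⟩
    refine le_trans (le_of_eq ?_) (h g hgm hgb hgA a b)
    have e : extn (fun x => g x * famc (fun i => rS (f i)) a b x) =
        extn (fun x => g x * famc f a b x) :=
      extn_congr_sphere fun x hx => by rw [G_famc_rS f a b hx]
    rw [e]
  obtain ⟨C, hC, h⟩ := hU.liftcut l hl M p hp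
  refine ⟨C, hC, ?_⟩
  intro W _ ν _ R η g a b v c hR hη hg hg1 hA ha hb hv hc
  have hp1 : 1 ≤ p := by
    refine le_trans ?_ hp.le
    rw [le_div_iff₀ (by positivity)]
    have : (0:ℝ) ≤ l := Nat.cast_nonneg l
    linarith
  have e : extn (mix ν R η fun w x => lift (fun y => g w y * famc f (a w) (b w) y) x *
        ∏ i, hsn (c w i) (v w i) x) =
      extn (mix ν R η fun w x =>
        lift (fun y => g w y * famc (fun i => rS (f i)) (a w) (b w) y) x *
          ∏ i, hsn (c w i) (v w i) x) := by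
    refine extn_congr_sphere fun x hx => G_mix_congr ν R η (fun w y hy => ?_) hx
    unfold MP_6cbfb8_an.lift
    simp only
    rw [G_famc_rS f (a w) (b w) (G_norm_join hy)]
  rw [e]
  have hgw : ∀ w, Measurable (g w) := fun w => hg.comp (f := fun x : E 3 => (w, x)) (by fun_prop)
  refine lintegral_mix_le hp1 _ h ν R η (fun w x =>
    lift (fun y => g w y * famc (fun i => rS (f i)) (a w) (b w) y) x *
      ∏ i, hsn (c w i) (v w i) x) hR hη ?_
    (fun w x => ?_) (fun w => ⟨fun y => g w y * famc (fun i => rS (f i)) (a w) (b w) y,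
      (hgw w).mul (G_meas hf' _ _), fun x => ?_,
      ⟨g w, hgw w, hg1 w, hA w, a w, b w, rfl⟩, v w, c w, rfl⟩)
  · have h1 : Measurable fun q : W × E (2 + l) =>
        (q.1, (join (fstE (k := 2) (l := l) q.2) ‖(sndE q.2 : E l)‖ : E 3)) := by
      refine measurable_fst.prodMk ?_
      have h2 : Measurable fun q : W × E (2 + l) =>
          ((fstE (k := 2) (l := l) q.2 : E 2), ‖(sndE q.2 : E l)‖) :=
        (continuous_fstE.measurable.comp measurable_snd).prodMk
          ((continuous_sndE.norm).measurable.comp measurable_snd)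
      exact measurable_join.comp h2
    have h3 : Measurable fun q : W × E (2 + l) =>
        (MP_6cbfb8_an.lift (fun y => g q.1 y * famc (fun i => rS (f i)) (a q.1) (b q.1) y) q.2 :
          ℂ) := by
      have h7 : Measurable fun q : W × E 3 =>
          g q.1 q.2 * famc (fun i => rS (f i)) (a q.1) (b q.1) q.2 :=
        hg.mul (G_meas_param (W := W) hf' ha hb)
      have h8 := h7.comp h1
      simp only [Function.comp_def] at h8
      unfold MP_6cbfb8_an.lift
      exact h8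
    have h4 : Measurable fun q : W × E (2 + l) => ∏ i, hsn (c q.1 i) (v q.1 i) q.2 := by
      refine Finset.measurable_prod _ fun i _ => ?_
      unfold hsn
      refine Measurable.ite ?_ measurable_const measurable_const
      have h5 : Measurable fun q : W × E (2 + l) => c q.1 i :=
        (measurable_pi_iff.1 hc i).comp measurable_fst
      have h6 : Measurable fun q : W × E (2 + l) => v q.1 i :=
        (measurable_pi_iff.1 hv i).comp measurable_fst
      exact measurableSet_lt h5 (measurable_snd.inner h6)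
    exact h3.mul h4
  · rw [norm_mul]
    refine mul_le_one₀ ?_ (norm_nonneg _) (norm_prod_hsn_le _ _ _)
    unfold MP_6cbfb8_an.lift
    rw [norm_mul]
    exact mul_le_one₀ (hg1 _ _) (norm_nonneg _) (G_norm_le _ _ _ _)
  · rw [norm_mul]
    exact mul_le_one₀ (hg1 _ _) (norm_nonneg _) (G_norm_le _ _ _ _)

end Pool.Agent.VAN
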