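import Pool.Agent.MP_6cbfb8_an.Super

/-!
Row J (helper12): the restriction estimate with exponent `p` is equivalent to its case of the densities
`e^{i lam phi}`, `lam` real, for every smooth `phi` (with a bound which may depend on `phi`), for all
`n ≥ 2` and all `p ≥ 1`.
-/

namespace Pool.Agent.VAN

open MeasureTheory Set Filter Topology Pool.Agent.MP_6cbfb8_an
open scoped NNReal Real ContDiff FourierTransform

variable {n : ℕ}

/-- The integral of `|extn g|^p`. -/
noncomputable def FF (p : ℝ) (g : E n → ℂ) : ENNReal := ∫⁻ ξ, ‖extn g ξ‖ₑ ^ p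

/-- There is a uniform bound for the densities which vanish outside a set containing `U`. -/
def jGood (p : ℝ) (U : Set (E n)) : Prop :=
  ∃ V : Set (E n), MeasurableSet V ∧ U ⊆ V ∧ ∃ C : ENNReal, C ≠ ⊤ ∧ ∀ g : E n → ℂ, Measurable g →
    (∀ x, ‖g x‖ ≤ 1) → (∀ x, x ∉ V → g x = 0) → FF p g ≤ C

lemma j_int {g : E n → ℂ} (hg : Measurable g) {B : ℝ} (hb : ∀ x, ‖g x‖ ≤ B) (ξ : E n) :
    Integrable (fun x : S n => g x *
      Complex.exp (((-(2 * π * inner ℝ (x : E n) ξ) : ℝ) : ℂ) * Complex.I)) (sm n) := by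
  have h1 : Measurable fun x : S n => g x *
      Complex.exp (((-(2 * π * inner ℝ (x : E n) ξ) : ℝ) : ℂ) * Complex.I) := by
    have h2 : Measurable fun x : S n => g x := hg.comp measurable_subtype_coe
    have h3 : Measurable fun x : S n => (inner ℝ (x : E n) ξ : ℝ) :=
      measurable_subtype_coe.inner measurable_const
    exact h2.mul (by fun_prop)
  refine Integrable.of_bound h1.aestronglyMeasurable B (Eventually.of_forall fun x => ?_)
  rw [norm_mul, norm_phase, mul_one]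
  exact hb _

lemma j_add {g h : E n → ℂ} (hg : Measurable g) (hh : Measurable h) {B B' : ℝ}
    (hb : ∀ x, ‖g x‖ ≤ B) (hb' : ∀ x, ‖h x‖ ≤ B') (ξ : E n) :
    extn (fun x => g x + h x) ξ = extn g ξ + extn h ξ := by
  unfold extn
  rw [← integral_add (j_int hg hb ξ) (j_int hh hb' ξ)]
  simp only [add_mul]

lemma j_smul (g : E n → ℂ) (c : ℂ) (ξ : E n) :
    extn (fun x => c * g x) ξ = c * extn g ξ := by
  unfold extn
  rw [← integral_const_mul]
  simp only [mul_assoc]

lemma j_congr {g h : E n → ℂ} (H : ∀ x ∈ S n, g x = h x) : extn g = extn h := by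
  funext ξ
  unfold extn
  refine integral_congr_ae (Eventually.of_forall fun x => ?_)
  simp only
  rw [H x x.2]

lemma j_FF_add {p : ℝ} (hp : 1 ≤ p) {g h : E n → ℂ} (hg : Measurable g) (hh : Measurable h)
    {B B' : ℝ} (hb : ∀ x, ‖g x‖ ≤ B) (hb' : ∀ x, ‖h x‖ ≤ B') :
    FF p (fun x => g x + h x) ≤ 2 ^ (p - 1) * (FF p g + FF p h) := by
  unfold FF
  have hm : Measurable fun ξ : E n => ‖extn g ξ‖ₑ ^ p := by
    have := measurable_extn_param (W := Unit) (fun _ => g) (hg.comp measurable_snd)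
    have h2 : Measurable fun ξ : E n => extn g ξ :=
      this.comp (g := fun q : Unit × E n => extn g q.2) (f := fun ξ : E n => ((), ξ)) (by fun_prop)
    exact h2.enorm.pow_const p
  calc ∫⁻ ξ, ‖extn (fun x => g x + h x) ξ‖ₑ ^ p
      ≤ ∫⁻ ξ, 2 ^ (p - 1) * (‖extn g ξ‖ₑ ^ p + ‖extn h ξ‖ₑ ^ p) := by
        refine lintegral_mono fun ξ => ?_
        simp only
        rw [j_add hg hh hb hb' ξ]
        exact (ENNReal.rpow_le_rpow (enorm_add_le _ _) (by linarith)).trans
          (ENNReal.rpow_add_le_mul_rpow_add_rpow _ _ hp)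
    _ = _ := by
        rw [lintegral_const_mul' _ _ (ENNReal.rpow_ne_top_of_nonneg (by linarith) (by norm_num)),
          lintegral_add_left hm]

lemma j_FF_smul {p : ℝ} (hp : 0 ≤ p) (g : E n → ℂ) {c : ℂ} (hc : ‖c‖ ≤ 1) :
    FF p (fun x => c * g x) ≤ FF p g := by
  unfold FF
  refine lintegral_mono fun ξ => ?_
  simp only
  rw [j_smul]
  refine ENNReal.rpow_le_rpow ?_ hp
  rw [enorm_mul]
  have h1 : ‖c‖ₑ ≤ 1 := by
    rw [← ofReal_norm]
    exact ENNReal.ofReal_le_one.2 hc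
  calc ‖c‖ₑ * ‖extn g ξ‖ₑ ≤ 1 * ‖extn g ξ‖ₑ := mul_le_mul_left h1 _
    _ = _ := one_mul _

lemma j_good_mono {p : ℝ} {U V : Set (E n)} (h : U ⊆ V) (hV : jGood p V) : jGood p U := by
  obtain ⟨W, h1, h2, h3⟩ := hV
  exact ⟨W, h1, h.trans h2, h3⟩

lemma j_good_empty {p : ℝ} (hp : 1 ≤ p) : jGood p (∅ : Set (E n)) := by
  refine ⟨∅, MeasurableSet.empty, Subset.rfl, 0, ENNReal.zero_ne_top, fun g _ _ h => ?_⟩
  have hg : g = fun _ => 0 := funext fun x => h x (notMem_empty x)
  unfold FF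
  rw [hg]
  have : ∀ ξ : E n, extn (fun _ => (0 : ℂ)) ξ = 0 := fun ξ => by
    unfold extn; simp
  simp only [this, enorm_zero]
  rw [ENNReal.zero_rpow_of_pos (by linarith)]
  simp

lemma j_good_union {p : ℝ} (hp : 1 ≤ p) {U V : Set (E n)} (hU : jGood p U) (hV : jGood p V) :
    jGood p (U ∪ V) := by
  obtain ⟨U', hU1, hU2, C, hC, HU⟩ := hU
  obtain ⟨V', hV1, hV2, C', hC', HV⟩ := hV
  refine ⟨U' ∪ V', hU1.union hV1, union_subset_union hU2 hV2, 2 ^ (p - 1) * (C + C'),
    ENNReal.mul_ne_top (ENNReal.rpow_ne_top_of_nonneg (by linarith) (by norm_num))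
      (ENNReal.add_ne_top.2 ⟨hC, hC'⟩), fun g hg hb h0 => ?_⟩
  have e : g = fun x => U'.indicator g x + (V' \ U').indicator g x := by
    funext x
    by_cases h1 : x ∈ U'
    · rw [indicator_of_mem h1, indicator_of_notMem (fun h => h.2 h1), add_zero]
    · rw [indicator_of_notMem h1, zero_add]
      by_cases h2 : x ∈ V'
      · rw [indicator_of_mem (show x ∈ V' \ U' from ⟨h2, h1⟩)]
      · rw [indicator_of_notMem (fun h => h2 h.1)]
        exact h0 x (fun h => h.elim h1 h2)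
  have hb1 : ∀ (A : Set (E n)) x, ‖A.indicator g x‖ ≤ 1 := fun A x =>
    (norm_indicator_le_norm_self g x).trans (hb x)
  have hm1 : Measurable (U'.indicator g) := hg.indicator hU1
  have hm2 : Measurable ((V' \ U').indicator g) := hg.indicator (hV1.diff hU1)
  rw [e]
  refine (j_FF_add hp hm1 hm2 (hb1 _) (hb1 _)).trans (mul_le_mul_right (add_le_add ?_ ?_) _)
  · exact HU _ hm1 (hb1 _) fun x hx => indicator_of_notMem hx _
  · exact HV _ hm2 (hb1 _) fun x hx => indicator_of_notMem (fun h => hx h.1) _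

lemma j_good_sphere {p : ℝ} (h : jGood p (S n)) : ∃ C : ENNReal, C ≠ ⊤ ∧ ∀ g : E n → ℂ, Measurable g →
    (∀ x, ‖g x‖ ≤ 1) → FF p g ≤ C := by
  obtain ⟨V, hV1, hV2, C, hC, H⟩ := h
  refine ⟨C, hC, fun g hg hb => ?_⟩
  have e : extn g = extn (V.indicator g) := j_congr fun x hx => by
    rw [indicator_of_mem (hV2 hx)]
  unfold FF
  rw [e]
  exact H _ (hg.indicator hV1) (fun x => (norm_indicator_le_norm_self g x).trans (hb x))
    fun x hx => indicator_of_notMem hx _

lemma j_FF_rot (p : ℝ) (g : E n → ℂ) (R : E n ≃ₗᵢ[ℝ] E n) : FF p (fun x => g (R x)) = FF p g := by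
  unfold FF
  have h1 : ∀ ζ, extn (fun x => g (R x)) ζ = extn g (R ζ) := fun ζ => extn_isometry g R ζ
  simp only [h1]
  exact (R.measurePreserving).lintegral_comp_emb R.toHomeomorph.measurableEmbedding
    (fun ξ => ‖extn g ξ‖ₑ ^ p)

lemma j_good_rot {p : ℝ} {x y : E n} (hx : x ∈ S n) (hy : y ∈ S n) {r : ℝ}
    (h : jGood p (Metric.ball x r)) : jGood p (Metric.ball y r) := by
  obtain ⟨V, hV1, hV2, C, hC, H⟩ := h
  have hn : ‖x‖ = ‖y‖ := by
    rw [mem_sphere_zero_iff_norm.1 hx, mem_sphere_zero_iff_norm.1 hy]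
  obtain ⟨R, hR⟩ : ∃ R : E n ≃ₗᵢ[ℝ] E n, R x = y := ⟨_, Submodule.reflection_sub hn⟩
  refine ⟨R.symm ⁻¹' V, R.symm.continuous.measurable hV1, ?_, C, hC, fun g hg hb h0 => ?_⟩
  · intro z hz
    refine hV2 ?_
    rw [Metric.mem_ball] at hz ⊢
    have : dist (R.symm z) x = dist z y := by
      rw [← hR, ← R.dist_map, R.apply_symm_apply]
    rwa [this]
  · rw [← j_FF_rot p g R]
    refine H _ (hg.comp R.continuous.measurable) (fun z => hb _) fun z hz => h0 _ ?_
    simpa using hz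

/-- Either the estimate holds, or it fails on every cap. -/
theorem j_caps {p : ℝ} (hp : 1 ≤ p) (hA : ¬ ∃ C : ENNReal, C ≠ ⊤ ∧ ∀ g : E n → ℂ, Measurable g →
    (∀ x, ‖g x‖ ≤ 1) → FF p g ≤ C) {x : E n} (hx : x ∈ S n) {r : ℝ} (hr : 0 < r) {C : ENNReal}
    (hC : C ≠ ⊤) : ∃ g : E n → ℂ, Measurable g ∧ (∀ z, ‖g z‖ ≤ 1) ∧
      (∀ z, z ∉ Metric.ball x r → g z = 0) ∧ C < FF p g := by
  by_contra hcon
  push Not at hcon
  have hgood : jGood p (Metric.ball x r) :=
    ⟨_, measurableSet_ball, Subset.rfl, C, hC, fun g hg hb h0 => hcon g hg hb h0⟩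
  refine hA (j_good_sphere ?_)
  refine (isCompact_sphere (0 : E n) 1).induction_on (p := fun U => jGood p U) (j_good_empty hp)
    (fun U V h hV => j_good_mono h hV) (fun U V hU hV => j_good_union hp hU hV) fun y hy => ?_
  exact ⟨Metric.ball y r, mem_nhdsWithin_of_mem_nhds (Metric.ball_mem_nhds y hr),
    j_good_rot hx hy hgood⟩

/-- Smooth multipliers. -/
theorem j_mult {p : ℝ} (hp : 1 ≤ p) {χ : E n → ℝ} (h1 : HasCompactSupport χ) (h2 : ContDiff ℝ ∞ χ) :
    ∃ M : ENNReal, M ≠ ⊤ ∧ ∀ g : E n → ℂ, Measurable g → (∀ x, ‖g x‖ ≤ 1) →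
      FF p (fun x => (χ x : ℂ) * g x) ≤ M * FF p g := by
  have h1' : HasCompactSupport (fun x => (χ x : ℂ)) := h1.comp_left (g := fun t : ℝ => (t : ℂ)) rfl
  have h2' : ContDiff ℝ ∞ (fun x => (χ x : ℂ)) := Complex.ofRealCLM.contDiff.comp h2
  obtain ⟨f, hf⟩ : ∃ f : SchwartzMap (E n) ℂ, ∀ x, f x = (χ x : ℂ) :=
    ⟨h1'.toSchwartzMap h2', fun x => rfl⟩
  obtain ⟨F, hF⟩ : ∃ F : SchwartzMap (E n) ℂ, F = 𝓕 f := ⟨_, rfl⟩
  have hFi : Integrable (F : E n → ℂ) := F.integrable
  have hinv : ∀ x, ∫ w, Complex.exp (((2 * π * inner ℝ x w : ℝ) : ℂ) * Complex.I) * F w = (χ x : ℂ) := by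
    intro x
    have e1 : (F : E n → ℂ) = 𝓕 (f : E n → ℂ) := by
      rw [hF]; exact SchwartzMap.fourier_coe f
    have e2 : 𝓕⁻ (𝓕 (f : E n → ℂ)) x = f x := by
      refine f.integrable.fourierInv_fourier_eq ?_ f.continuous.continuousAt
      rw [← e1]; exact hFi
    rw [← hf, ← e2, Real.fourierInv_eq', ← e1]
    refine integral_congr_ae (Eventually.of_forall fun w => ?_)
    simp only [smul_eq_mul]
    rw [real_inner_comm]
  set d : E n → ℝ≥0 := fun w => ‖F w‖₊ with hd
  have hdm : Measurable d := F.continuous.measurable.nnnorm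
  set ν : Measure (E n) := volume.withDensity (fun w => (d w : ENNReal)) with hν
  have hνfin : IsFiniteMeasure ν := by
    refine isFiniteMeasure_withDensity ?_
    exact hFi.2.ne
  refine ⟨ν univ ^ p, ENNReal.rpow_ne_top_of_nonneg (by linarith) (measure_ne_top _ _),
    fun g hg hb => ?_⟩
  set u : E n → ℂ := fun w => F w / (‖F w‖ : ℂ) with hu
  have hum : Measurable u := by
    have := F.continuous.measurable
    exact this.div (Complex.measurable_ofReal.comp this.norm)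
  have hu1 : ∀ w, ‖u w‖ ≤ 1 := by
    intro w
    rw [hu]
    simp only [norm_div, Complex.norm_real, norm_norm]
    exact div_self_le_one _
  have key := lintegral_mix_le (n := n) (W := E n) hp (C := FF p g) (fun h => FF p h ≤ FF p g)
    (fun h _ _ hh => hh) ν (fun _ => LinearIsometryEquiv.refl ℝ (E n)) (fun w => w)
    (fun w x => u w * g x) (by fun_prop) measurable_id
    ((hum.comp measurable_fst).mul (hg.comp measurable_snd)) (fun w x => by
      rw [norm_mul]; exact mul_le_one₀ (hu1 w) (norm_nonneg _) (hb x))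
    (fun w => j_FF_smul (by linarith) g (hu1 w))
  rw [mul_comm]
  refine le_trans (le_of_eq ?_) key
  unfold FF
  congr 1
  funext ξ
  congr 3
  funext x
  unfold mix
  rw [hν, integral_withDensity_eq_integral_smul hdm, ← hinv x, ← integral_mul_const]
  refine integral_congr_ae (Eventually.of_forall fun w => ?_)
  simp only [LinearIsometryEquiv.coe_refl, id]
  have e3 : (d w : ℝ≥0) • (Complex.exp (((2 * π * inner ℝ x w : ℝ) : ℂ) * Complex.I) * (u w * g x)) =
      Complex.exp (((2 * π * inner ℝ x w : ℝ) : ℂ) * Complex.I) * (((‖F w‖ : ℝ) : ℂ) * u w) * g x := by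
    rw [NNReal.smul_def, Complex.real_smul]
    simp only [hd, coe_nnnorm]
    ring
  rw [e3]
  congr 2
  simp only [hu]
  by_cases h0 : F w = 0
  · simp [h0]
  · have : (‖F w‖ : ℂ) ≠ 0 := by exact_mod_cast (norm_ne_zero_iff.2 h0)
    field_simp

/-- Disjoint balls with centres on the sphere. -/
theorem j_balls (hn : 2 ≤ n) : ∃ (x : ℕ → E n) (r : ℕ → ℝ), (∀ k, x k ∈ S n) ∧ (∀ k, 0 < r k) ∧
    ∀ j k, j ≠ k → Disjoint (Metric.ball (x j) (4 * r j)) (Metric.ball (x k) (4 * r k)) := by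
  have hrank : 1 < Module.rank ℝ (E n) := by
    rw [← Module.finrank_eq_rank, finrank_euclideanSpace_fin]
    exact_mod_cast hn
  have hpre : IsPreconnected (S n) := isPreconnected_sphere hrank 0 1
  have hnt : (S n).Nontrivial := by
    obtain ⟨e, he⟩ : ∃ e : E n, ‖e‖ = 1 :=
      ⟨EuclideanSpace.single (⟨0, by omega⟩ : Fin n) (1 : ℝ), by simp⟩
    refine ⟨e, by simpa using he, -e, by simpa using he, fun h => ?_⟩
    have h2 : e = 0 := by
      have h3 : (2 : ℝ) • e = 0 := by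
        rw [two_smul]
        nth_rewrite 2 [h]
        exact add_neg_cancel e
      exact (smul_eq_zero.1 h3).resolve_left (by norm_num)
    rw [h2, norm_zero] at he
    exact zero_ne_one he
  have hinf : (S n).Infinite := hpre.infinite_of_nontrivial hnt
  have : Infinite (S n) := hinf.to_subtype
  obtain ⟨U, hU1, hU2, hU3⟩ := exists_seq_infinite_isOpen_pairwise_disjoint (S n)
  have h1 : ∀ k, ∃ x : S n, x ∈ U k := fun k => (hU1 k).nonempty
  choose x hx using h1
  have h2 : ∀ k, ∃ r : ℝ, 0 < r ∧ Metric.ball (x k) (8 * r) ⊆ U k := by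
    intro k
    obtain ⟨ε, hε, h⟩ := Metric.isOpen_iff.1 (hU2 k) (x k) (hx k)
    exact ⟨ε / 8, by positivity, by rwa [mul_div_cancel₀ _ (by norm_num : (8 : ℝ) ≠ 0)]⟩
  choose r hr hrU using h2
  have h3 : ∀ j k, j ≠ k → r j ≤ r k →
      Disjoint (Metric.ball (x j : E n) (4 * r j)) (Metric.ball (x k : E n) (4 * r k)) := by
    intro j k hjk hle
    rw [Set.disjoint_left]
    intro z hz1 hz2
    have h4 : dist (x j) (x k) < 8 * r k := by
      rw [Subtype.dist_eq]
      rw [Metric.mem_ball] at hz1 hz2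
      have := dist_triangle_left (x j : E n) (x k : E n) z
      linarith
    exact (Set.disjoint_left.1 (hU3 hjk)) (hx j) (hrU k (Metric.mem_ball.2 h4))
  refine ⟨fun k => x k, r, fun k => (x k).2, hr, fun j k hjk => ?_⟩
  rcases le_total (r j) (r k) with h | h
  · exact h3 j k hjk h
  · exact (h3 k j (Ne.symm hjk) h).symm

/-- A function bounded by one is the mean of two unimodular ones. -/
lemma j_half {g : E n → ℂ} (hg : Measurable g) (hb : ∀ x, ‖g x‖ ≤ 1) :
    ∃ h1 h2 : E n → ℂ, Measurable h1 ∧ Measurable h2 ∧ (∀ x, ‖h1 x‖ = 1) ∧ (∀ x, ‖h2 x‖ = 1) ∧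
      ∀ x, g x = (1 / 2 : ℂ) * h1 x + (1 / 2 : ℂ) * h2 x := by
  classical
  obtain ⟨u, hu⟩ : ∃ u : E n → ℂ, ∀ x, u x = if g x = 0 then 1 else g x / (‖g x‖ : ℂ) :=
    ⟨_, fun x => rfl⟩
  have hum : Measurable u := by
    have : u = fun x => if g x = 0 then 1 else g x / (‖g x‖ : ℂ) := funext hu
    rw [this]
    refine Measurable.ite (hg (measurableSet_singleton 0)) measurable_const ?_
    exact hg.div (Complex.measurable_ofReal.comp hg.norm)
  have hu1 : ∀ x, ‖u x‖ = 1 := by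
    intro x
    rw [hu]
    split_ifs with h
    · simp
    · rw [norm_div, Complex.norm_real, norm_norm, div_self (norm_ne_zero_iff.2 h)]
  have hgu : ∀ x, g x = u x * (‖g x‖ : ℂ) := by
    intro x
    rw [hu]
    split_ifs with h
    · simp [h]
    · have : (‖g x‖ : ℂ) ≠ 0 := by exact_mod_cast (norm_ne_zero_iff.2 h)
      field_simp
  obtain ⟨s, hs⟩ : ∃ s : E n → ℝ, ∀ x, s x = √(1 - ‖g x‖ ^ 2) := ⟨_, fun x => rfl⟩
  have hsm : Measurable s := by
    have : s = fun x => √(1 - ‖g x‖ ^ 2) := funext hs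
    rw [this]
    exact (measurable_const.sub (hg.norm.pow_const 2)).sqrt
  have hs2 : ∀ x, s x ^ 2 = 1 - ‖g x‖ ^ 2 := by
    intro x
    rw [hs, Real.sq_sqrt]
    have := hb x
    nlinarith [norm_nonneg (g x)]
  have hnorm : ∀ x (t : ℝ), t ^ 2 = s x ^ 2 → ‖(‖g x‖ : ℂ) + (t : ℂ) * Complex.I‖ = 1 := by
    intro x t ht
    rw [Complex.norm_add_mul_I, ht, hs2]
    rw [add_sub_cancel, Real.sqrt_one]
  refine ⟨fun x => u x * ((‖g x‖ : ℂ) + (s x : ℂ) * Complex.I),
    fun x => u x * ((‖g x‖ : ℂ) + ((-s x : ℝ) : ℂ) * Complex.I), ?_, ?_, ?_, ?_, ?_⟩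
  · exact hum.mul ((Complex.measurable_ofReal.comp hg.norm).add
      ((Complex.measurable_ofReal.comp hsm).mul_const _))
  · exact hum.mul ((Complex.measurable_ofReal.comp hg.norm).add
      ((Complex.measurable_ofReal.comp hsm.neg).mul_const _))
  · intro x; rw [norm_mul, hu1, one_mul]; exact hnorm x (s x) rfl
  · intro x; rw [norm_mul, hu1, one_mul]; exact hnorm x (-s x) (by ring)
  · intro x
    rw [hgu x]
    simp only [norm_mul, hu1, Complex.norm_real, norm_norm, one_mul]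
    push_cast
    ring

/-- Unimodular functions are limits of `e^{i phi}`, `phi` smooth. -/
theorem j_smooth {p : ℝ} (hp : 1 ≤ p) {χ : E n → ℝ} (hχ : Measurable χ) {B : ℝ}
    (hB : ∀ x, |χ x| ≤ B) {h : E n → ℂ} (hh : Measurable h) (h1 : ∀ x, ‖h x‖ = 1) {C : ENNReal}
    (H : ∀ φ : E n → ℝ, HasCompactSupport φ → ContDiff ℝ ∞ φ →
      FF p (fun x => (χ x : ℂ) * Complex.exp ((φ x : ℂ) * Complex.I)) ≤ C) :
    FF p (fun x => (χ x : ℂ) * h x) ≤ C := by
  obtain ⟨θ, hθ⟩ : ∃ θ : E n → ℝ, ∀ x, θ x = Complex.arg (h x) := ⟨_, fun x => rfl⟩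
  have hθm : Measurable θ := by
    have : θ = fun x => Complex.arg (h x) := funext hθ
    rw [this]
    exact Complex.measurable_arg.comp hh
  have hθe : ∀ x, h x = Complex.exp ((θ x : ℂ) * Complex.I) := by
    intro x
    have h2 := Complex.norm_mul_exp_arg_mul_I (h x)
    rw [h1 x, Complex.ofReal_one, one_mul] at h2
    rw [hθ, h2]
  set μ : Measure (E n) := (sm n).map (fun x : S n => (x : E n)) with hμ
  have : IsFiniteMeasure μ := by
    rw [hμ]
    exact Measure.isFiniteMeasure_map _ _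
  have hL : MemLp θ 1 μ := by
    refine MemLp.of_bound hθm.aestronglyMeasurable π (Eventually.of_forall fun x => ?_)
    rw [hθ, Real.norm_eq_abs]
    exact Complex.abs_arg_le_pi _
  have happ : ∀ j : ℕ, ∃ φ : E n → ℝ, HasCompactSupport φ ∧ ContDiff ℝ ∞ φ ∧
      eLpNorm (θ - φ) 1 μ ≤ ENNReal.ofReal (1 / ((j : ℝ) + 1)) := fun j =>
    hL.exist_eLpNorm_sub_le (by norm_num) le_rfl (by positivity)
  choose φ hφ1 hφ2 hφ3 using happ
  have htm : TendstoInMeasure μ φ atTop θ := by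
    refine tendstoInMeasure_of_tendsto_eLpNorm (p := 1) one_ne_zero
      (fun j => (hφ2 j).continuous.aestronglyMeasurable) hθm.aestronglyMeasurable ?_
    have h2 : Tendsto (fun j : ℕ => ENNReal.ofReal (1 / ((j : ℝ) + 1))) atTop (𝓝 0) := by
      rw [← ENNReal.ofReal_zero]
      exact ENNReal.tendsto_ofReal tendsto_one_div_add_atTop_nhds_zero_nat
    refine tendsto_of_tendsto_of_tendsto_of_le_of_le tendsto_const_nhds h2
      (fun j => zero_le) fun j => ?_
    rw [eLpNorm_sub_comm]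
    exact hφ3 j
  obtain ⟨ns, -, hns⟩ := htm.exists_seq_tendsto_ae
  have hae : ∀ᵐ x : S n ∂(sm n), Tendsto (fun i => φ (ns i) x) atTop (𝓝 (θ x)) :=
    ae_of_ae_map measurable_subtype_coe.aemeasurable hns
  have hmeas : ∀ f : E n → ℝ, Measurable f →
      Measurable fun x => (χ x : ℂ) * Complex.exp ((f x : ℂ) * Complex.I) := fun f hf => by
    fun_prop
  have hlim : ∀ ξ, Tendsto (fun i => extn (fun x => (χ x : ℂ) *
      Complex.exp ((φ (ns i) x : ℂ) * Complex.I)) ξ) atTop (𝓝 (extn (fun x => (χ x : ℂ) * h x) ξ)) := by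
    intro ξ
    unfold extn
    refine tendsto_integral_of_dominated_convergence (fun _ => B) (fun i => ?_)
      (integrable_const _) (fun i => Eventually.of_forall fun x => ?_) ?_
    · exact (j_int (B := B) (hmeas _ (hφ2 (ns i)).continuous.measurable) (fun x => by
        rw [norm_mul, Complex.norm_exp_ofReal_mul_I, mul_one, Complex.norm_real]
        exact hB x) ξ).aestronglyMeasurable
    · rw [norm_mul, norm_phase, mul_one, norm_mul, Complex.norm_exp_ofReal_mul_I, mul_one,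
        Complex.norm_real]
      exact hB x
    · filter_upwards [hae] with x hx
      rw [hθe x]
      refine Tendsto.mul_const _ (Tendsto.const_mul _ ?_)
      exact (Complex.continuous_exp.tendsto _).comp
        (((Complex.continuous_ofReal.tendsto _).comp hx).mul_const _)
  have hmF : ∀ i, Measurable fun ξ : E n => ‖extn (fun x => (χ x : ℂ) *
      Complex.exp ((φ (ns i) x : ℂ) * Complex.I)) ξ‖ₑ ^ p := by
    intro i
    have h3 := measurable_extn_param (W := Unit) (fun _ => fun x : E n => (χ x : ℂ) *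
      Complex.exp ((φ (ns i) x : ℂ) * Complex.I))
      ((hmeas _ (hφ2 (ns i)).continuous.measurable).comp measurable_snd)
    have h4 : Measurable fun ξ : E n => extn (fun x => (χ x : ℂ) *
      Complex.exp ((φ (ns i) x : ℂ) * Complex.I)) ξ :=
      h3.comp (g := fun q : Unit × E n => extn (fun x => (χ x : ℂ) *
        Complex.exp ((φ (ns i) x : ℂ) * Complex.I)) q.2) (f := fun ξ : E n => ((), ξ)) (by fun_prop)
    exact h4.enorm.pow_const p
  have hpt : ∀ ξ, Tendsto (fun i => ‖extn (fun x => (χ x : ℂ) *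
      Complex.exp ((φ (ns i) x : ℂ) * Complex.I)) ξ‖ₑ ^ p) atTop
      (𝓝 (‖extn (fun x => (χ x : ℂ) * h x) ξ‖ₑ ^ p)) := by
    intro ξ
    exact ((ENNReal.continuous_rpow_const (y := p)).tendsto _).comp (hlim ξ).enorm
  unfold FF
  calc ∫⁻ ξ, ‖extn (fun x => (χ x : ℂ) * h x) ξ‖ₑ ^ p
      = ∫⁻ ξ, liminf (fun i => ‖extn (fun x => (χ x : ℂ) *
      Complex.exp ((φ (ns i) x : ℂ) * Complex.I)) ξ‖ₑ ^ p) atTop := by
        refine lintegral_congr fun ξ => ?_
        rw [(hpt ξ).liminf_eq]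
    _ ≤ liminf (fun i => ∫⁻ ξ, ‖extn (fun x => (χ x : ℂ) *
      Complex.exp ((φ (ns i) x : ℂ) * Complex.I)) ξ‖ₑ ^ p) atTop := lintegral_liminf_le hmF
    _ ≤ C := by
        refine liminf_le_of_frequently_le' (Frequently.of_forall fun i => ?_)
        exact H (φ (ns i)) (hφ1 _) (hφ2 _)

/-- Some smooth phase is at least as bad as a given density. -/
theorem j_pick {p : ℝ} (hp : 1 ≤ p) {χ : E n → ℝ} (hχ : Measurable χ)
    (hB : ∀ x, |χ x| ≤ 1) {g : E n → ℂ} (hg : Measurable g) (hb : ∀ x, ‖g x‖ ≤ 1)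
    (hχg : ∀ x, (χ x : ℂ) * g x = g x) {C : ENNReal} (hC : 2 ^ p * C < FF p g) :
    ∃ φ : E n → ℝ, HasCompactSupport φ ∧ ContDiff ℝ ∞ φ ∧
      C < FF p (fun x => (χ x : ℂ) * Complex.exp ((φ x : ℂ) * Complex.I)) := by
  by_contra hcon
  push Not at hcon
  refine absurd hC (not_lt.2 ?_)
  obtain ⟨h1, h2, hm1, hm2, hn1, hn2, he⟩ := j_half hg hb
  have k1 := j_smooth hp hχ hB hm1 hn1 hcon
  have k2 := j_smooth hp hχ hB hm2 hn2 hcon
  have e : g = fun x => (1 / 2 : ℂ) * ((χ x : ℂ) * h1 x) + (1 / 2 : ℂ) * ((χ x : ℂ) * h2 x) := by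
    funext x
    rw [← hχg x, he x]
    ring
  have hbd : ∀ (f : E n → ℂ), (∀ x, ‖f x‖ = 1) → ∀ x, ‖(1 / 2 : ℂ) * ((χ x : ℂ) * f x)‖ ≤ 1 := by
    intro f hf x
    rw [norm_mul, norm_mul, hf, Complex.norm_real, mul_one]
    have := hB x
    rw [Real.norm_eq_abs]
    have h5 : ‖(1 / 2 : ℂ)‖ = 1 / 2 := by norm_num
    rw [h5]
    linarith
  have hχc : Measurable fun x => (χ x : ℂ) := Complex.measurable_ofReal.comp hχ
  rw [e]
  refine (j_FF_add hp ((hχc.mul hm1).const_mul _) ((hχc.mul hm2).const_mul _)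
    (hbd h1 hn1) (hbd h2 hn2)).trans ?_
  have hhalf : ‖(1 / 2 : ℂ)‖ ≤ 1 := by norm_num
  have k3 := (j_FF_smul (p := p) (by linarith) (fun x => (χ x : ℂ) * h1 x) hhalf).trans k1
  have k4 := (j_FF_smul (p := p) (by linarith) (fun x => (χ x : ℂ) * h2 x) hhalf).trans k2
  calc 2 ^ (p - 1) * (FF p (fun x => (1 / 2 : ℂ) * ((χ x : ℂ) * h1 x)) +
        FF p (fun x => (1 / 2 : ℂ) * ((χ x : ℂ) * h2 x)))
      ≤ 2 ^ (p - 1) * (C + C) := mul_le_mul_right (add_le_add k3 k4) _
    _ = 2 ^ p * C := by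
        rw [← two_mul, ← mul_assoc]
        congr 1
        nth_rewrite 2 [← ENNReal.rpow_one 2]
        rw [← ENNReal.rpow_add _ _ (by norm_num) (by norm_num)]
        ring_nf

/-- A sum of small multiples of smooth functions with compact support. -/
theorem j_series {g : ℕ → E n → ℝ} (h1 : ∀ k, HasCompactSupport (g k))
    (h2 : ∀ k, ContDiff ℝ ∞ (g k)) :
    ∃ r : ℕ → ℝ, (∀ k, 0 < r k) ∧ ContDiff ℝ ∞ (fun x => ∑' k, r k * g k x) := by
  obtain ⟨δ, δpos, c, δc, c_lt⟩ :
      ∃ δ : ℕ → ℝ≥0, (∀ i : ℕ, 0 < δ i) ∧ ∃ c : NNReal, HasSum δ c ∧ c < 1 :=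
    NNReal.exists_pos_sum_of_countable one_ne_zero ℕ
  have : ∀ n' : ℕ, ∃ r : ℝ, 0 < r ∧ ∀ i ≤ n', ∀ x, ‖iteratedFDeriv ℝ i (r • g n') x‖ ≤ δ n' := by
    intro n'
    have : ∀ i, ∃ R, ∀ x, ‖iteratedFDeriv ℝ i (fun x => g n' x) x‖ ≤ R := by
      intro i
      have : BddAbove (range fun x => ‖iteratedFDeriv ℝ i (fun x : E n => g n' x) x‖) := by
        apply ((h2 n').continuous_iteratedFDeriv
          (mod_cast le_top)).norm.bddAbove_range_of_hasCompactSupport
        apply HasCompactSupport.comp_left _ norm_zero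
        apply (h1 n').iteratedFDeriv
      rcases this with ⟨R, hR⟩
      exact ⟨R, fun x => hR (mem_range_self _)⟩
    choose R hR using this
    let M := max (((Finset.range (n' + 1)).image R).max' (by simp)) 1
    have δnpos : 0 < δ n' := δpos n'
    have IR : ∀ i ≤ n', R i ≤ M := by
      intro i hi
      refine le_trans ?_ (le_max_left _ _)
      apply Finset.le_max'
      apply Finset.mem_image_of_mem
      simp only [Finset.mem_range]
      lia
    refine ⟨M⁻¹ * δ n', by positivity, fun i hi x => ?_⟩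
    calc
      ‖iteratedFDeriv ℝ i ((M⁻¹ * δ n') • g n') x‖ = ‖(M⁻¹ * δ n') • iteratedFDeriv ℝ i (g n') x‖ := by
        rw [iteratedFDeriv_const_smul_apply]
        exact (h2 n').contDiffAt.of_le (mod_cast le_top)
      _ = M⁻¹ * δ n' * ‖iteratedFDeriv ℝ i (g n') x‖ := by
        rw [norm_smul _ (iteratedFDeriv ℝ i (g n') x), Real.norm_of_nonneg]; positivity
      _ ≤ M⁻¹ * δ n' * M := by gcongr; exact (hR i x).trans (IR i hi)
      _ = δ n' := by simp [field]
  choose r rpos hr using this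
  refine ⟨r, rpos, ?_⟩
  refine contDiff_tsum_of_eventually (f := fun k x => r k * g k x)
      (v := fun _ k => (δ k : ℝ)) (fun k => (h2 k).const_smul (r k))
      (fun k _ => (NNReal.hasSum_coe.2 δc).summable) ?_
  intro i _
  simp only [Nat.cofinite_eq_atTop, Filter.eventually_atTop]
  exact ⟨i, fun k hk x => hr _ _ hk _⟩

/-- THE EQUIVALENCE. For every `n ≥ 2` and every `p ≥ 1`, the restriction estimate for all bounded
densities is equivalent to the estimates, uniform in `lam`, for `e^{i lam phi}`, for every smooth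
function `phi`. -/
theorem j_equiv (hn : 2 ≤ n) {p : ℝ} (hp : 1 ≤ p) :
    (∃ C : ENNReal, C ≠ ⊤ ∧ ∀ g : E n → ℂ, Measurable g → (∀ x, ‖g x‖ ≤ 1) →
      ∫⁻ ξ, ‖extn g ξ‖ₑ ^ p ≤ C) ↔
    ∀ φ : E n → ℝ, ContDiff ℝ ∞ φ → ∃ C : ENNReal, C ≠ ⊤ ∧ ∀ l : ℝ,
      ∫⁻ ξ, ‖extn (fun x => Complex.exp (((l * φ x : ℝ) : ℂ) * Complex.I)) ξ‖ₑ ^ p ≤ C := by
  constructor
  · rintro ⟨C, hC, H⟩ φ hφ
    refine ⟨C, hC, fun l => H _ ?_ fun x => ?_⟩
    · have := hφ.continuous.measurable
      fun_prop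
    · rw [Complex.norm_exp_ofReal_mul_I]
  · intro H
    by_contra hA
    obtain ⟨x, r, hx, hr, hdisj⟩ := j_balls hn
    -- the small and the large bumps
    have hbump : ∀ k, ∃ χ : E n → ℝ, HasCompactSupport χ ∧ ContDiff ℝ ∞ χ ∧ (∀ z, |χ z| ≤ 1) ∧
        (∀ z ∈ Metric.ball (x k) (r k), χ z = 1) ∧ ∀ z, z ∉ Metric.ball (x k) (2 * r k) → χ z = 0 := by
      intro k
      let f : ContDiffBump (x k) := ⟨r k, 2 * r k, hr k, by linarith [hr k]⟩
      refine ⟨f, f.hasCompactSupport, f.contDiff, fun z => ?_, fun z hz => ?_, fun z hz => ?_⟩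
      · rw [abs_of_nonneg f.nonneg]; exact f.le_one
      · exact f.one_of_mem_closedBall (Metric.ball_subset_closedBall hz)
      · refine f.zero_of_le_dist ?_
        rw [Metric.mem_ball, not_lt] at hz
        exact hz
    have hbump2 : ∀ k, ∃ χ : E n → ℝ, ContDiff ℝ ∞ χ ∧
        (∀ z ∈ Metric.ball (x k) (2 * r k), χ z = 1) ∧
        ∀ z, z ∉ Metric.ball (x k) (4 * r k) → χ z = 0 := by
      intro k
      let f : ContDiffBump (x k) := ⟨2 * r k, 4 * r k, by linarith [hr k], by linarith [hr k]⟩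
      refine ⟨f, f.contDiff, fun z hz => ?_, fun z hz => ?_⟩
      · exact f.one_of_mem_closedBall (Metric.ball_subset_closedBall hz)
      · refine f.zero_of_le_dist ?_
        rw [Metric.mem_ball, not_lt] at hz
        exact hz
    choose χ hχ1 hχ2 hχ3 hχ4 hχ5 using hbump
    choose η hη1 hη2 hη3 using hbump2
    have hmult := fun k => j_mult (n := n) hp (hχ1 k) (hχ2 k)
    choose M hM1 hM2 using hmult
    have hpick : ∀ k : ℕ, ∃ φ : E n → ℝ, HasCompactSupport φ ∧ ContDiff ℝ ∞ φ ∧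
        (k : ENNReal) * M k < FF p (fun z => (χ k z : ℂ) * Complex.exp ((φ z : ℂ) * Complex.I)) := by
      intro k
      have hfin : (2 : ENNReal) ^ p * ((k : ENNReal) * M k) ≠ ⊤ :=
        ENNReal.mul_ne_top (ENNReal.rpow_ne_top_of_nonneg (by linarith) (by norm_num))
          (ENNReal.mul_ne_top (ENNReal.natCast_ne_top k) (hM1 k))
      obtain ⟨g, hg1, hg2, hg3, hg4⟩ := j_caps hp hA (hx k) (hr k) hfin
      refine j_pick hp (hχ2 k).continuous.measurable (hχ3 k) hg1 hg2 (fun z => ?_) hg4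
      by_cases hz : z ∈ Metric.ball (x k) (r k)
      · rw [hχ4 k z hz, Complex.ofReal_one, one_mul]
      · rw [hg3 z hz, mul_zero]
    choose φ hφ1 hφ2 hφ3 using hpick
    obtain ⟨e, he, hsm⟩ := j_series (g := fun k z => η k z * φ k z)
      (fun k => (hφ1 k).mul_left) (fun k => (hη1 k).mul (hφ2 k))
    obtain ⟨C, hC, HC⟩ := H _ hsm
    obtain ⟨k, hk⟩ := ENNReal.exists_nat_gt hC
    -- the value of the series on the ball `k`
    have hval : ∀ z ∈ Metric.ball (x k) (2 * r k), ∑' j, e j * (η j z * φ j z) = e k * φ k z := by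
      intro z hz
      have hz4 : z ∈ Metric.ball (x k) (4 * r k) :=
        Metric.ball_subset_ball (by linarith [hr k]) hz
      rw [tsum_eq_single k]
      · rw [hη2 k z hz, one_mul]
      · intro j hj
        have : z ∉ Metric.ball (x j) (4 * r j) := fun h =>
          Set.disjoint_left.1 (hdisj j k hj) h hz4
        rw [hη3 j z this, zero_mul, mul_zero]
    have heq : (fun z => (χ k z : ℂ) * Complex.exp ((φ k z : ℂ) * Complex.I)) =
        fun z => (χ k z : ℂ) * Complex.exp ((((e k)⁻¹ * ∑' j, e j * (η j z * φ j z) : ℝ) : ℂ) *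
          Complex.I) := by
      funext z
      by_cases hz : z ∈ Metric.ball (x k) (2 * r k)
      · rw [hval z hz, ← mul_assoc, inv_mul_cancel₀ (he k).ne', one_mul]
      · rw [hχ5 k z hz, Complex.ofReal_zero, zero_mul, zero_mul]
    have h1 := hφ3 k
    rw [heq] at h1
    have h2 := hM2 k (fun z => Complex.exp ((((e k)⁻¹ * ∑' j, e j * (η j z * φ j z) : ℝ) : ℂ) *
          Complex.I)) (by
        have := hsm.continuous.measurable
        fun_prop) (fun z => by rw [Complex.norm_exp_ofReal_mul_I])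
    have h3 : FF p (fun z => Complex.exp ((((e k)⁻¹ * ∑' j, e j * (η j z * φ j z) : ℝ) : ℂ) *
          Complex.I)) ≤ C := HC _
    have h4 : (k : ENNReal) * M k < C * M k := by
      refine lt_of_lt_of_le h1 (h2.trans ?_)
      rw [mul_comm]
      exact mul_le_mul_left h3 _
    have h5 : C * M k ≤ k * M k := mul_le_mul_left hk.le _
    exact absurd h4 (not_lt.2 h5)

end Pool.Agent.VAN
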