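import Pool.Agent.VAN.K1

/-!
Almost every smooth phase is nonflat (row K): the exceptional set has measure zero.
-/

set_option autoImplicit false

namespace Pool.Agent.VAN.K

open MeasureTheory Set Pool.Agent.MP_6cbfb8_an
open scoped ENNReal Real ContDiff

/-- The coefficients of the squares and of the cubes of the three coordinates. -/
abbrev V6 : Type := (Fin 3 → ℝ) × (Fin 3 → ℝ)

/-- The point of the sphere with coordinates `u i`, `u j` and with a given sign of the
coordinate `l`. -/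
noncomputable def XP (σ : ℝ) (i l j : Fin 3) (u : Fin 3 → ℝ) : E 3 :=
  WithLp.toLp 2 (fun m => if m = l then σ * √(1 - u i ^ 2 - u j ^ 2) else u m)

variable {i l j : Fin 3}

lemma XP_l (σ : ℝ) (u : Fin 3 → ℝ) : XP σ i l j u l = σ * √(1 - u i ^ 2 - u j ^ 2) := by
  simp [XP]

lemma XP_of_ne (σ : ℝ) (u : Fin 3 → ℝ) {m : Fin 3} (h : m ≠ l) : XP σ i l j u m = u m := by
  simp [XP, h]

lemma differentiableAt_XP (σ : ℝ) {w : V6} (h : w.1 i ^ 2 + w.1 j ^ 2 < 1) :
    DifferentiableAt ℝ (fun w : V6 => XP σ i l j w.1) w := by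
  rw [differentiableAt_euclidean]
  intro m
  by_cases hm : m = l
  · subst hm
    simp only [XP_l]
    have h1 : (1 - w.1 i ^ 2 - w.1 j ^ 2) ≠ 0 := by
      have : 0 < 1 - w.1 i ^ 2 - w.1 j ^ 2 := by linarith
      exact this.ne'
    have h2 : DifferentiableAt ℝ (fun w : V6 => 1 - w.1 i ^ 2 - w.1 j ^ 2) w := by fun_prop
    exact (h2.sqrt h1).const_mul σ
  · simp only [XP_of_ne σ _ hm]
    fun_prop

/-- The map whose image of a hyperplane contains the exceptional coefficients. -/
noncomputable def FF (φ : E 3 → ℝ) (σ : ℝ) (i l j : Fin 3) (w : V6) : V6 :=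
  (fun m => if m = i then
      bS ((rotD i l)^[1] φ (XP σ i l j w.1)) ((rotD i l)^[2] φ (XP σ i l j w.1))
        ((rotD i l)^[3] φ (XP σ i l j w.1)) (XP σ i l j w.1 i) (XP σ i l j w.1 l)
        (w.1 l) (w.2 l) (w.2 i)
    else if m = j then
      bS ((rotD j l)^[1] φ (XP σ i l j w.1)) ((rotD j l)^[2] φ (XP σ i l j w.1))
        ((rotD j l)^[3] φ (XP σ i l j w.1)) (XP σ i l j w.1 j) (XP σ i l j w.1 l)
        (w.1 l) (w.2 l) (w.2 i)
    else w.2 l,
   fun m => if m = i then
      dS ((rotD i l)^[1] φ (XP σ i l j w.1)) ((rotD i l)^[2] φ (XP σ i l j w.1))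
        ((rotD i l)^[3] φ (XP σ i l j w.1)) (XP σ i l j w.1 i) (XP σ i l j w.1 l)
        (w.1 l) (w.2 l) (w.2 i)
    else if m = j then
      dS ((rotD j l)^[1] φ (XP σ i l j w.1)) ((rotD j l)^[2] φ (XP σ i l j w.1))
        ((rotD j l)^[3] φ (XP σ i l j w.1)) (XP σ i l j w.1 j) (XP σ i l j w.1 l)
        (w.1 l) (w.2 l) (w.2 i)
    else w.2 i)

lemma differentiableAt_coordXP (σ : ℝ) {w : V6} (h : w.1 i ^ 2 + w.1 j ^ 2 < 1) (m : Fin 3) :
    DifferentiableAt ℝ (fun w : V6 => XP σ i l j w.1 m) w :=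
  (differentiableAt_euclidean.1 (differentiableAt_XP σ h)) m

lemma differentiableAt_iterXP {φ : E 3 → ℝ} (hφ : ContDiff ℝ ∞ φ) (σ : ℝ) {w : V6}
    (h : w.1 i ^ 2 + w.1 j ^ 2 < 1) (m n : Fin 3) (k : ℕ) :
    DifferentiableAt ℝ (fun w : V6 => (rotD m n)^[k] φ (XP σ i l j w.1)) w := by
  have h1 : Differentiable ℝ ((rotD m n)^[k] φ) := (contDiff_iter hφ k).differentiable (by simp)
  exact (h1 _).comp w (differentiableAt_XP σ h)

lemma XP_l_ne {σ : ℝ} (hσ : σ ≠ 0) {u : Fin 3 → ℝ} (h : u i ^ 2 + u j ^ 2 < 1) :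
    XP σ i l j u l ≠ 0 := by
  rw [XP_l]
  have : 0 < √(1 - u i ^ 2 - u j ^ 2) := Real.sqrt_pos.2 (by linarith)
  exact mul_ne_zero hσ this.ne'

lemma differentiableAt_FF {φ : E 3 → ℝ} (hφ : ContDiff ℝ ∞ φ) {σ : ℝ} (hσ : σ ≠ 0) {w : V6}
    (h : w.1 i ^ 2 + w.1 j ^ 2 < 1) : DifferentiableAt ℝ (FF φ σ i l j) w := by
  unfold FF
  have hx := differentiableAt_coordXP (i := i) (l := l) (j := j) σ h
  have hg := differentiableAt_iterXP (i := i) (l := l) (j := j) hφ σ h
  have h0 := XP_l_ne (i := i) (l := l) (j := j) hσ h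
  refine DifferentiableAt.prodMk ?_ ?_
  · rw [differentiableAt_pi]
    intro m
    by_cases hi : m = i
    · simp only [hi, if_true]
      exact differentiableAt_bS (hg _ _ _) (hg _ _ _) (hg _ _ _) (hx _) (hx _) (by fun_prop)
        (by fun_prop) (by fun_prop) h0
    · by_cases hj : m = j
      · simp only [hj, if_true]
        split_ifs with hji
        · exact differentiableAt_bS (hg _ _ _) (hg _ _ _) (hg _ _ _) (hx _) (hx _) (by fun_prop)
            (by fun_prop) (by fun_prop) h0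
        · exact differentiableAt_bS (hg _ _ _) (hg _ _ _) (hg _ _ _) (hx _) (hx _) (by fun_prop)
            (by fun_prop) (by fun_prop) h0
      · simp only [hi, hj, if_false]
        fun_prop
  · rw [differentiableAt_pi]
    intro m
    by_cases hi : m = i
    · simp only [hi, if_true]
      exact differentiableAt_dS (hg _ _ _) (hg _ _ _) (hg _ _ _) (hx _) (hx _) (by fun_prop)
        (by fun_prop) (by fun_prop) h0
    · by_cases hj : m = j
      · simp only [hj, if_true]
        split_ifs with hji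
        · exact differentiableAt_dS (hg _ _ _) (hg _ _ _) (hg _ _ _) (hx _) (hx _) (by fun_prop)
            (by fun_prop) (by fun_prop) h0
        · exact differentiableAt_dS (hg _ _ _) (hg _ _ _) (hg _ _ _) (hx _) (hx _) (by fun_prop)
            (by fun_prop) (by fun_prop) h0
      · simp only [hi, hj, if_false]
        fun_prop

/-- The hyperplane. -/
def HH (i j : Fin 3) : Set V6 := {w | w.2 j = 0 ∧ w.1 i ^ 2 + w.1 j ^ 2 < 1}

lemma haarV6 : (volume : Measure V6).IsAddHaarMeasure :=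
  Measure.prod.instIsAddHaarMeasure (volume : Measure (Fin 3 → ℝ)) (volume : Measure (Fin 3 → ℝ))

lemma measure_HH (i j : Fin 3) : (volume : Measure V6) (HH i j) = 0 := by
  have hle : HH i j ⊆ (LinearMap.ker ((LinearMap.proj j : (Fin 3 → ℝ) →ₗ[ℝ] ℝ) ∘ₗ
      (LinearMap.snd ℝ (Fin 3 → ℝ) (Fin 3 → ℝ))) : Submodule ℝ V6) := by
    intro w hw
    simpa using hw.1
  have := haarV6
  refine measure_mono_null hle (Measure.addHaar_submodule _ _ ?_)
  intro htop
  have h1 : ((0 : Fin 3 → ℝ), (fun _ => (1:ℝ))) ∈ (⊤ : Submodule ℝ V6) := Submodule.mem_top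
  rw [← htop] at h1
  simp at h1

lemma measure_FF {φ : E 3 → ℝ} (hφ : ContDiff ℝ ∞ φ) {σ : ℝ} (hσ : σ ≠ 0) (i l j : Fin 3) :
    (volume : Measure V6) (FF φ σ i l j '' HH i j) = 0 := by
  have := haarV6
  exact addHaar_image_eq_zero_of_differentiableOn_of_addHaar_eq_zero _
    (fun _ hw => (differentiableAt_FF hφ hσ hw.2).differentiableWithinAt) (measure_HH i j)

/-- The phase perturbed by squares and cubes of the coordinates. -/
noncomputable def pert (φ : E 3 → ℝ) (p : V6) (x : E 3) : ℝ :=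
  φ x + ∑ m, (p.1 m * x m ^ 2 + p.2 m * x m ^ 3)

lemma pert_add_inner (φ : E 3 → ℝ) (p : V6) (ξ : E 3) :
    (fun x => pert φ p x + inner ℝ ξ x) = fun x => φ x + qf p.1 p.2 (fun m => ξ m) x := by
  funext x
  unfold pert qf
  rw [PiLp.inner_apply]
  simp only [Fin.sum_univ_three]
  simp
  ring

/-- Flatness of order three at a point with nonvanishing coordinate `l`. -/
lemma mem_image {φ : E 3 → ℝ} (hφ : ContDiff ℝ ∞ φ) (hil : i ≠ l) (hij : i ≠ j) (hjl : j ≠ l)
    {p : V6} {x ξ : E 3} (hx : ‖x‖ = 1) (hl : x l ≠ 0)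
    (h : ∀ m, m ≠ l → ∀ k, 1 ≤ k → k ≤ 3 →
      (rotD m l)^[k] (fun x => pert φ p x + inner ℝ ξ x) x = 0) :
    ∃ σ : ℝ, (σ = 1 ∨ σ = -1) ∧ p ∈ FF φ σ i l j '' HH i j := by
  have hsum : x i ^ 2 + x l ^ 2 + x j ^ 2 = 1 := by
    have h1 : ‖x‖ ^ 2 = 1 := by rw [hx]; norm_num
    rw [EuclideanSpace.norm_sq_eq] at h1
    rw [← sum_three hil hij hjl (fun m => x m ^ 2)]
    simpa using h1
  have hpos : 0 < x l ^ 2 := by positivity
  obtain ⟨σ, hσ, hxl⟩ : ∃ σ : ℝ, (σ = 1 ∨ σ = -1) ∧ x l = σ * √(1 - x i ^ 2 - x j ^ 2) := by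
    have h1 : 1 - x i ^ 2 - x j ^ 2 = x l ^ 2 := by linarith
    rw [h1, Real.sqrt_sq_eq_abs]
    rcases lt_or_gt_of_ne hl with h2 | h2
    · exact ⟨-1, Or.inr rfl, by rw [abs_of_neg h2]; ring⟩
    · exact ⟨1, Or.inl rfl, by rw [abs_of_pos h2]; ring⟩
  refine ⟨σ, hσ, (fun m => if m = l then ξ l else x m,
    fun m => if m = l then p.1 l else if m = i then p.2 l else 0), ?_, ?_⟩
  · constructor
    · simp [hjl, hij.symm]
    · simp only [hil, hjl, if_false]
      linarith
  · have hX : XP σ i l j (fun m => if m = l then ξ l else x m) = x := by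
      ext m
      by_cases hm : m = l
      · subst hm
        rw [XP_l]
        simp only [hil, hjl, if_false]
        exact hxl.symm
      · rw [XP_of_ne _ _ hm]
        simp [hm]
    have key : ∀ m n : Fin 3, m ≠ l → n ≠ l → m ≠ n →
        p.2 m = dS ((rotD m l)^[1] φ x) ((rotD m l)^[2] φ x) ((rotD m l)^[3] φ x) (x m) (x l)
          (ξ l) (p.1 l) (p.2 l) ∧
        p.1 m = bS ((rotD m l)^[1] φ x) ((rotD m l)^[2] φ x) ((rotD m l)^[3] φ x) (x m) (x l)
          (ξ l) (p.1 l) (p.2 l) := by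
      intro m n hml hnl hmn
      have hq := contDiff_qf p.1 p.2 (fun m => ξ m)
      have h1 := h m hml 1 le_rfl (by norm_num)
      have h2 := h m hml 2 (by norm_num) (by norm_num)
      have h3 := h m hml 3 (by norm_num) le_rfl
      rw [pert_add_inner, iter_add hφ hq] at h1 h2 h3
      rw [Function.iterate_one (f := rotD m l)] at h1
      simp only [qf_D1 hml hmn hnl] at h1
      rw [qf_D2 hml hmn hnl] at h2
      rw [qf_D3 hml hmn hnl] at h3
      exact solve (X := ξ m) hl (by rw [Function.iterate_one]; linarith) (by linarith)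
        (by linarith)
    obtain ⟨k1, k2⟩ := key i j hil hjl hij
    obtain ⟨k3, k4⟩ := key j i hjl hil hij.symm
    have hcase : ∀ m : Fin 3, m ≠ i → m ≠ j → m = l := by
      intro m hm1 hm2
      omega
    unfold FF
    simp only [hX]
    refine Prod.ext ?_ ?_
    · funext m
      by_cases hm : m = i
      · subst hm
        simp only [if_true, hil, if_false]
        exact k2.symm
      · by_cases hm2 : m = j
        · subst hm2
          simp only [hm, if_true, hil, if_false]
          exact k4.symm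
        · have hm3 := hcase m hm hm2
          subst hm3
          simp [hm, hm2]
    · funext m
      by_cases hm : m = i
      · subst hm
        simp only [if_true, hil, if_false]
        exact k1.symm
      · by_cases hm2 : m = j
        · subst hm2
          simp only [hm, if_true, hil, if_false]
          exact k3.symm
        · have hm3 := hcase m hm hm2
          subst hm3
          simp [hm, hm2, hil]

end Pool.Agent.VAN.K
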