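import Pool.Agent.VAN.NG2

/-!
Generic finite-dimensional families: for almost all coefficients there is no flat combination.
-/

set_option autoImplicit false

namespace Pool.Agent.VAN.NG

open MeasureTheory Set Polynomial Pool.Agent.MP_6cbfb8_an Pool.Agent.VAN.K
open scoped ENNReal Real ContDiff

variable {i l j : Fin 3} {d : ℕ}

/-- The combination of the perturbed functions and of the linear functions. -/
noncomputable def tot (φ : Fin d → E 3 → ℝ) (b : VV d) (a : Fin d → ℝ) (ζ : Fin 3 → ℝ)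
    (x : E 3) : ℝ :=
  (∑ j', a j' * (φ j' x + ∑ i, ∑ k : Fin (d + 5), b j' i k * x i ^ ((k : ℕ) + 1))) +
    ∑ m, ζ m * x m

/-- The polynomial which is solved for. -/
noncomputable def pl (b : VV d) (j0 : Fin d) (i : Fin 3) : ℝ[X] :=
  ∑ k : Fin (d + 5), C (b j0 i k) * X ^ ((k : ℕ) + 1)

lemma pl_natDegree (b : VV d) (j0 : Fin d) (i : Fin 3) : (pl b j0 i).natDegree ≤ d + 5 := by
  unfold pl
  refine natDegree_sum_le_of_forall_le _ _ fun k _ => ?_
  exact (natDegree_C_mul_X_pow_le _ _).trans (by have := k.2; omega)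

lemma pl_coeff (b : VV d) (j0 : Fin d) (i : Fin 3) (k : Fin (d + 5)) :
    (pl b j0 i).coeff ((k : ℕ) + 1) = b j0 i k := by
  unfold pl
  rw [finsetSum_coeff]
  simp only [coeff_C_mul, coeff_X_pow]
  rw [Finset.sum_eq_single k]
  · simp
  · intro k' _ hk'
    have : ¬ ((k : ℕ) + 1 = (k' : ℕ) + 1) := by
      intro h
      exact hk' (Fin.ext (by omega))
    rw [if_neg this, mul_zero]
  · simp

/-- The coefficients of the powers which are not solved for. -/
noncomputable def co' (i : Fin 3) (j0 : Fin d) (b : VV d) (a : Fin d → ℝ)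
    (q : Fin d × Fin 3 × Fin (d + 5)) : ℝ :=
  if q.1 = j0 ∧ q.2.1 = i then 0 else a q.1 * b q.1 q.2.1 q.2.2

lemma tot_split (φ : Fin d → E 3 → ℝ) (b : VV d) (a : Fin d → ℝ) (ζ : Fin 3 → ℝ) (i : Fin 3)
    (j0 : Fin d) (ha : a j0 = 1) (x : E 3) :
    tot φ b a ζ x = (∑ j', a j' * φ j' x) + (∑ q, co' i j0 b a q * mono q.2.1 q.2.2 x) +
      (∑ m, ζ m * x m) + (pl b j0 i).eval (x i) := by
  have h1 : ∑ j', a j' * (φ j' x + ∑ i, ∑ k : Fin (d + 5), b j' i k * x i ^ ((k : ℕ) + 1)) =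
      (∑ j', a j' * φ j' x) +
        ∑ q : Fin d × Fin 3 × Fin (d + 5), a q.1 * b q.1 q.2.1 q.2.2 * mono q.2.1 q.2.2 x := by
    rw [Fintype.sum_prod_type, ← Finset.sum_add_distrib]
    refine Finset.sum_congr rfl fun j' _ => ?_
    rw [Fintype.sum_prod_type, mul_add, Finset.mul_sum]
    congr 1
    refine Finset.sum_congr rfl fun i' _ => ?_
    rw [Finset.mul_sum]
    refine Finset.sum_congr rfl fun k _ => ?_
    unfold mono
    ring
  have h2 : ∑ q : Fin d × Fin 3 × Fin (d + 5), a q.1 * b q.1 q.2.1 q.2.2 * mono q.2.1 q.2.2 x =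
      (∑ q, co' i j0 b a q * mono q.2.1 q.2.2 x) + (pl b j0 i).eval (x i) := by
    have h3 : (pl b j0 i).eval (x i) = ∑ q : Fin d × Fin 3 × Fin (d + 5),
        (if q.1 = j0 ∧ q.2.1 = i then b q.1 q.2.1 q.2.2 else 0) * mono q.2.1 q.2.2 x := by
      rw [Fintype.sum_prod_type, Finset.sum_eq_single j0]
      · rw [Fintype.sum_prod_type, Finset.sum_eq_single i]
        · unfold pl
          rw [eval_finsetSum]
          refine Finset.sum_congr rfl fun k _ => ?_
          simp [mono]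
        · intro i' _ hi'
          refine Finset.sum_eq_zero fun k _ => ?_
          simp [hi']
        · simp
      · intro j' _ hj'
        refine Finset.sum_eq_zero fun q _ => ?_
        simp [hj']
      · simp
    rw [h3, ← Finset.sum_add_distrib]
    refine Finset.sum_congr rfl fun q _ => ?_
    rw [← add_mul]
    congr 1
    unfold co'
    split_ifs with h
    · rw [h.1, ha]; ring
    · ring
  unfold tot
  rw [h1, h2]
  ring

lemma iter_tot {φ : Fin d → E 3 → ℝ} (hφ : ∀ j', ContDiff ℝ ∞ (φ j')) (hil : i ≠ l) (b : VV d)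
    (a : Fin d → ℝ) (ζ : Fin 3 → ℝ) (j0 : Fin d) (ha : a j0 = 1) (n : ℕ) (x : E 3) :
    (rotD i l)^[n] (tot φ b a ζ) x =
      ((∑ j', a j' * (rotD i l)^[n] (φ j') x) +
        (∑ q, co' i j0 b a q * (rotD i l)^[n] (mono q.2.1 q.2.2) x) +
        ∑ m, ζ m * (rotD i l)^[n] (fun x => x m) x) +
      ∑ m ∈ Finset.range (n + 1), BB i l n m x * (derivative^[m] (pl b j0 i)).eval (x i) := by
  have h1 : tot φ b a ζ = fun x => ((∑ j', a j' * φ j' x) +
      (∑ q, co' i j0 b a q * mono q.2.1 q.2.2 x) + (∑ m, ζ m * x m)) +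
        (pl b j0 i).eval (x i) := by
    funext y
    exact tot_split φ b a ζ i j0 ha y
  have c1 : ContDiff ℝ ∞ (fun x : E 3 => ∑ j', a j' * φ j' x) :=
    ContDiff.sum fun j' _ => contDiff_const.mul (hφ j')
  have c2 : ContDiff ℝ ∞ (fun x : E 3 => ∑ q : Fin d × Fin 3 × Fin (d + 5),
      co' i j0 b a q * mono q.2.1 q.2.2 x) :=
    ContDiff.sum fun q _ => contDiff_const.mul (contDiff_mono _ _)
  have c3 : ContDiff ℝ ∞ (fun x : E 3 => ∑ m, ζ m * x m) :=
    ContDiff.sum fun m _ => contDiff_const.mul (contDiff_coord m)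
  rw [h1, iter_add ((c1.add c2).add c3) (contDiff_eval _), iter_add (c1.add c2) c3,
    iter_add c1 c2, iter_sum _ _ hφ, iter_sum _ _ (fun q => contDiff_mono _ _),
    iter_sum _ _ (fun m => contDiff_coord m), iter_eval hil]

/-- The code of the parameters. -/
noncomputable def enc (i j : Fin 3) (j0 : Fin d) (a : Fin d → ℝ) (ζ : Fin 3 → ℝ) (x : E 3)
    (k : Fin (d + 5)) : ℝ :=
  if h : (k : ℕ) < 5 then ![x i, x j, ζ 0, ζ 1, ζ 2] ⟨k, h⟩
  else if (⟨k - 5, by have := k.2; omega⟩ : Fin d) = j0 then 0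
  else a ⟨k - 5, by have := k.2; omega⟩

/-- The parameters. -/
noncomputable def ww (i j : Fin 3) (j0 : Fin d) (b : VV d) (a : Fin d → ℝ) (ζ : Fin 3 → ℝ)
    (x : E 3) : VV d := fun j' i' k =>
  if j' = j0 ∧ i' = i then enc i j j0 a ζ x k else b j' i' k

lemma ww_sl (j0 : Fin d) (b : VV d) (a : Fin d → ℝ) (ζ : Fin 3 → ℝ) (x : E 3) (k : Fin 5) :
    ww i j j0 b a ζ x j0 i (sl k) = ![x i, x j, ζ 0, ζ 1, ζ 2] k := by
  unfold ww enc sl
  simp

lemma ww_sa (j0 : Fin d) (b : VV d) (a : Fin d → ℝ) (ζ : Fin 3 → ℝ) (x : E 3) (j' : Fin d) :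
    ww i j j0 b a ζ x j0 i (sa j') = if j' = j0 then 0 else a j' := by
  unfold ww enc sa
  simp

lemma uu_ww (j0 : Fin d) (b : VV d) (a : Fin d → ℝ) (ζ : Fin 3 → ℝ) (x : E 3) (m : Fin 3) :
    uu i j0 (ww i j j0 b a ζ x) m = if m = i then x i else x j := by
  unfold uu
  rw [ww_sl, ww_sl]
  simp

lemma al_ww (j0 : Fin d) (b : VV d) (a : Fin d → ℝ) (ha : a j0 = 1) (ζ : Fin 3 → ℝ) (x : E 3)
    (j' : Fin d) : al i j0 (ww i j j0 b a ζ x) j' = a j' := by
  unfold al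
  rw [ww_sa]
  split_ifs with h
  · rw [h, ha]
  · rfl

lemma ze_ww (j0 : Fin d) (b : VV d) (a : Fin d → ℝ) (ζ : Fin 3 → ℝ) (x : E 3) (m : Fin 3) :
    ze i j0 (ww i j j0 b a ζ x) m = ζ m := by
  unfold ze
  rw [ww_sl]
  fin_cases m <;> rfl

lemma co_ww (j0 : Fin d) (b : VV d) (a : Fin d → ℝ) (ha : a j0 = 1) (ζ : Fin 3 → ℝ) (x : E 3)
    (q : Fin d × Fin 3 × Fin (d + 5)) : co i j0 (ww i j j0 b a ζ x) q = co' i j0 b a q := by
  unfold co co'
  split_ifs with h
  · rfl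
  · rw [al_ww j0 b a ha]
    unfold ww
    rw [if_neg h]

/-- Flatness of order `d + 5` at a point with nonvanishing coordinate `l`. -/
lemma mem_image {φ : Fin d → E 3 → ℝ} (hφ : ∀ j', ContDiff ℝ ∞ (φ j')) (hil : i ≠ l)
    (hij : i ≠ j) (hjl : j ≠ l) {b : VV d} {a : Fin d → ℝ} {ζ : Fin 3 → ℝ} {j0 : Fin d}
    (ha : a j0 = 1) {x : E 3} (hx : ‖x‖ = 1) (hl : x l ≠ 0)
    (h : ∀ n, 1 ≤ n → n ≤ d + 5 → (rotD i l)^[n] (tot φ b a ζ) x = 0) :
    ∃ σ : ℝ, (σ = 1 ∨ σ = -1) ∧ b ∈ PP φ σ i l j j0 '' HP i j j0 := by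
  have hsum : x i ^ 2 + x l ^ 2 + x j ^ 2 = 1 := by
    have h1 : ‖x‖ ^ 2 = 1 := by rw [hx]; norm_num
    rw [EuclideanSpace.norm_sq_eq] at h1
    rw [← sum_three hil hij hjl (fun m => x m ^ 2)]
    simpa using h1
  have hpos : 0 < x l ^ 2 := by positivity
  obtain ⟨σ, hσ, hxl⟩ : ∃ σ : ℝ, (σ = 1 ∨ σ = -1) ∧ x l = σ * √(1 - x i ^ 2 - x j ^ 2) := by
    have h1 : 1 - x i ^ 2 - x j ^ 2 = x l ^ 2 := by linarith
    rw [h1, Real.sqrt_sq_eq_abs]
    rcases lt_or_gt_of_ne hl with h2 | h2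
    · exact ⟨-1, Or.inr rfl, by rw [abs_of_neg h2]; ring⟩
    · exact ⟨1, Or.inl rfl, by rw [abs_of_pos h2]; ring⟩
  have hX : XX' σ i l j j0 (ww i j j0 b a ζ x) = x := by
    ext m
    unfold XX'
    by_cases hm : m = l
    · subst hm
      rw [XP_l, uu_ww, uu_ww]
      simp only [if_true, hij.symm, if_false]
      exact hxl.symm
    · rw [XP_of_ne _ _ hm, uu_ww]
      by_cases hm2 : m = i
      · simp [hm2]
      · have : m = j := by omega
        simp [this, hij.symm]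
  have hr : ∀ n, rr φ σ i l j j0 (ww i j j0 b a ζ x) n =
      (∑ j', a j' * (rotD i l)^[n] (φ j') x) +
        (∑ q, co' i j0 b a q * (rotD i l)^[n] (mono q.2.1 q.2.2) x) +
        ∑ m, ζ m * (rotD i l)^[n] (fun x => x m) x := by
    intro n
    unfold rr
    simp only [hX, al_ww j0 b a ha, co_ww j0 b a ha, ze_ww]
  have hY := YY_eq (i := i) (l := l) (x := x) hl (r := rr φ σ i l j j0 (ww i j j0 b a ζ x))
    (y := fun m => (derivative^[m] (pl b j0 i)).eval (x i)) (N := d + 5) (by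
      intro n h1 h2
      have h3 := h n h1 h2
      rw [iter_tot hφ hil b a ζ j0 ha] at h3
      rw [hr]
      exact h3)
  refine ⟨σ, hσ, ww i j j0 b a ζ x, ⟨?_, ?_⟩, ?_⟩
  · rw [ww_sa, if_pos rfl]
  · rw [uu_ww, uu_ww]
    simp only [if_true, hij.symm, if_false]
    linarith
  · funext j' i' k
    unfold PP
    by_cases hq : j' = j0 ∧ i' = i
    · rw [if_pos hq, hX]
      obtain ⟨rfl, rfl⟩ := hq
      rw [← pl_coeff b j' i' k, coeff_of_derivatives (pl b j' i') (x i') (pl_natDegree b j' i')]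
      refine Finset.sum_congr rfl fun m hm => ?_
      rcases Nat.eq_zero_or_pos m with h0 | h0
      · subst h0
        simp
      · have h1 := hY m h0 (by have := Finset.mem_range.1 hm; omega)
        simp only at h1
        rw [h1]
    · rw [if_neg hq]
      unfold ww
      rw [if_neg hq]

lemma exists_l {x : E 3} (hx : ‖x‖ = 1) : ∃ l, x l ≠ 0 := by
  by_contra h
  push Not at h
  have : x = 0 := by ext m; simpa using h m
  rw [this] at hx
  simp at hx

lemma exists_ij (l : Fin 3) : ∃ i j : Fin 3, i ≠ l ∧ i ≠ j ∧ j ≠ l := by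
  fin_cases l
  · exact ⟨1, 2, by decide, by decide, by decide⟩
  · exact ⟨0, 2, by decide, by decide, by decide⟩
  · exact ⟨0, 1, by decide, by decide, by decide⟩

lemma contDiff_tot {φ : Fin d → E 3 → ℝ} (hφ : ∀ j', ContDiff ℝ ∞ (φ j')) (b : VV d)
    (a : Fin d → ℝ) (ζ : Fin 3 → ℝ) : ContDiff ℝ ∞ (tot φ b a ζ) := by
  unfold tot
  refine ContDiff.add (ContDiff.sum fun j' _ => contDiff_const.mul ((hφ j').add ?_)) ?_
  · fun_prop
  · fun_prop

lemma lin_zero {ζ : Fin 3 → ℝ} {x : E 3} (hx : ‖x‖ = 1)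
    (h : ∀ i l : Fin 3, i ≠ l → ∀ n, 1 ≤ n → n ≤ 2 →
      (rotD i l)^[n] (fun y => ∑ m, ζ m * y m) x = 0) : ζ = 0 := by
  have hsum : x 0 ^ 2 + x 1 ^ 2 + x 2 ^ 2 = 1 := by
    have h1 : ‖x‖ ^ 2 = 1 := by rw [hx]; norm_num
    rw [EuclideanSpace.norm_sq_eq, Fin.sum_univ_three] at h1
    simpa using h1
  have hq : (fun y : E 3 => ∑ m, ζ m * y m) = qf 0 0 ζ := by
    funext y
    unfold qf
    simp
  have key : ∀ i l j : Fin 3, i ≠ l → i ≠ j → j ≠ l →
      ζ i * x l - ζ l * x i = 0 ∧ ζ i * x i + ζ l * x l = 0 := by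
    intro i l j hil hij hjl
    have h1 := h i l hil 1 le_rfl (by norm_num)
    have h2 := h i l hil 2 (by norm_num) (by norm_num)
    rw [hq] at h1 h2
    rw [Function.iterate_one] at h1
    simp only [qf_D1 hil hij hjl] at h1
    rw [qf_D2 hil hij hjl] at h2
    simp only [Pi.zero_apply] at h1 h2
    constructor <;> linarith
  obtain ⟨a1, a2⟩ := key 0 1 2 (by decide) (by decide) (by decide)
  obtain ⟨b1, b2⟩ := key 0 2 1 (by decide) (by decide) (by decide)
  obtain ⟨c1, c2⟩ := key 1 2 0 (by decide) (by decide) (by decide)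
  have hs : ζ 0 * x 0 + ζ 1 * x 1 + ζ 2 * x 2 = 0 := by linarith
  funext m
  fin_cases m
  · show ζ 0 = 0
    linear_combination (-ζ 0) * hsum + x 0 * hs + x 1 * a1 + x 2 * b1
  · show ζ 1 = 0
    linear_combination (-ζ 1) * hsum + x 1 * hs - x 0 * a1 + x 2 * c1
  · show ζ 2 = 0
    linear_combination (-ζ 2) * hsum + x 2 * hs - x 0 * b1 - x 1 * c1

/-- For almost all coefficients no combination is flat. -/
theorem ae_tot {φ : Fin d → E 3 → ℝ} (hφ : ∀ j', ContDiff ℝ ∞ (φ j')) :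
    ∀ᵐ b : VV d, ∀ (a : Fin d → ℝ) (ζ : Fin 3 → ℝ) (x : E 3), ‖x‖ = 1 →
      (∀ i l : Fin 3, i ≠ l → ∀ n, 1 ≤ n → n ≤ d + 5 → (rotD i l)^[n] (tot φ b a ζ) x = 0) →
      a = 0 ∧ ζ = 0 := by
  have h1 : ∀ (i l j : Fin 3) (j0 : Fin d) (σ : ℝ), σ ≠ 0 →
      ∀ᵐ b : VV d, b ∉ PP φ σ i l j j0 '' HP i j j0 := by
    intro i l j j0 σ hσ
    exact measure_eq_zero_iff_ae_notMem.1 (measure_PP hφ hσ i l j j0)
  have h2 : ∀ᵐ b : VV d, ∀ (i l j : Fin 3) (j0 : Fin d),
      b ∉ PP φ 1 i l j j0 '' HP i j j0 ∧ b ∉ PP φ (-1) i l j j0 '' HP i j j0 := by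
    rw [ae_all_iff]
    intro i
    rw [ae_all_iff]
    intro l
    rw [ae_all_iff]
    intro j
    rw [ae_all_iff]
    intro j0
    filter_upwards [h1 i l j j0 1 one_ne_zero, h1 i l j j0 (-1) (by norm_num)] with b h3 h4
    exact ⟨h3, h4⟩
  filter_upwards [h2] with b h3
  intro a ζ x hx h
  have ha : a = 0 := by
    by_contra hne
    obtain ⟨j0, hj0⟩ : ∃ j0, a j0 ≠ 0 := by
      by_contra hcon
      push Not at hcon
      exact hne (funext hcon)
    obtain ⟨l, hl⟩ := exists_l hx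
    obtain ⟨i, j, hil, hij, hjl⟩ := exists_ij l
    have hsc : tot φ b (fun j' => (a j0)⁻¹ * a j') (fun m => (a j0)⁻¹ * ζ m) =
        fun y => (a j0)⁻¹ * tot φ b a ζ y := by
      funext y
      unfold tot
      rw [mul_add, Finset.mul_sum, Finset.mul_sum]
      congr 1
      · exact Finset.sum_congr rfl fun _ _ => by ring
      · exact Finset.sum_congr rfl fun _ _ => by ring
    obtain ⟨σ, hσ, hmem⟩ := mem_image (b := b) (a := fun j' => (a j0)⁻¹ * a j')
      (ζ := fun m => (a j0)⁻¹ * ζ m) (j0 := j0) hφ hil hij hjl (inv_mul_cancel₀ hj0) hx hl (by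
        intro n n1 n2
        rw [hsc, iter_cmul _ (contDiff_tot hφ b a ζ)]
        show (a j0)⁻¹ * (rotD i l)^[n] (tot φ b a ζ) x = 0
        rw [h i l hil n n1 n2, mul_zero])
    rcases hσ with rfl | rfl
    · exact (h3 i l j j0).1 hmem
    · exact (h3 i l j j0).2 hmem
  refine ⟨ha, ?_⟩
  subst ha
  exact lin_zero hx (fun i l hil n n1 n2 => by
    have h4 := h i l hil n n1 (by omega)
    have h5 : tot φ b 0 ζ = fun y => ∑ m, ζ m * y m := by
      funext y
      unfold tot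
      simp
    rwa [h5] at h4)

end Pool.Agent.VAN.NG
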