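import Pool.Agent.VAN.NDefs
import Pool.Agent.VAN.D1
import Pool.Agent.VAN.NG3

/-!
Almost every finite-dimensional space of smooth functions has no flat points.
-/

set_option autoImplicit false

namespace Pool.Agent.VAN.NG

open MeasureTheory Set Filter Topology Asymptotics Pool.Agent.MP_6cbfb8_an Pool.Agent.VAN.K
open scoped ENNReal Real ContDiff

variable {i l j : Fin 3} {d : ℕ}

/-- The rotation of `x` in the plane of the coordinates `i` and `l`. -/
noncomputable def rot (i l : Fin 3) (x : E 3) (θ : ℝ) : E 3 :=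
  x + (x i * (Real.cos θ - 1) + x l * Real.sin θ) • EuclideanSpace.single i (1:ℝ) +
    (x l * (Real.cos θ - 1) - x i * Real.sin θ) • EuclideanSpace.single l (1:ℝ)

lemma rot_zero (x : E 3) : rot i l x 0 = x := by
  unfold rot
  simp

lemma rot_i (hil : i ≠ l) (x : E 3) (θ : ℝ) :
    rot i l x θ i = x i * Real.cos θ + x l * Real.sin θ := by
  unfold rot
  simp [hil]
  ring

lemma rot_l (hil : i ≠ l) (x : E 3) (θ : ℝ) :
    rot i l x θ l = x l * Real.cos θ - x i * Real.sin θ := by
  unfold rot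
  simp [hil.symm]
  ring

lemma rot_j (hij : i ≠ j) (hjl : j ≠ l) (x : E 3) (θ : ℝ) : rot i l x θ j = x j := by
  unfold rot
  simp [hij.symm, hjl]

lemma hasDerivAt_rot (hil : i ≠ l) (x : E 3) (θ : ℝ) :
    HasDerivAt (rot i l x) (rot i l x θ l • EuclideanSpace.single i (1:ℝ) -
      rot i l x θ i • EuclideanSpace.single l (1:ℝ)) θ := by
  rw [rot_i hil, rot_l hil]
  have h1 : HasDerivAt (fun θ => x i * (Real.cos θ - 1) + x l * Real.sin θ)
      (x i * (-Real.sin θ) + x l * Real.cos θ) θ :=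
    (((Real.hasDerivAt_cos θ).sub_const 1).const_mul (x i)).add
      ((Real.hasDerivAt_sin θ).const_mul (x l))
  have h2 : HasDerivAt (fun θ => x l * (Real.cos θ - 1) - x i * Real.sin θ)
      (x l * (-Real.sin θ) - x i * Real.cos θ) θ :=
    (((Real.hasDerivAt_cos θ).sub_const 1).const_mul (x l)).sub
      ((Real.hasDerivAt_sin θ).const_mul (x i))
  have h3 := ((h1.smul_const (EuclideanSpace.single i (1:ℝ) : E 3)).const_add x).add
    (h2.smul_const (EuclideanSpace.single l (1:ℝ) : E 3))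
  refine (h3.congr_deriv ?_).congr_of_eventuallyEq ?_
  · module
  · exact Eventually.of_forall fun θ => by unfold rot; rfl

lemma deriv_comp_rot (hil : i ≠ l) {f : E 3 → ℝ} (hf : Differentiable ℝ f) (x : E 3) :
    deriv (fun θ => f (rot i l x θ)) = fun θ => rotD i l f (rot i l x θ) := by
  funext θ
  have h := (hf (rot i l x θ)).hasFDerivAt.comp_hasDerivAt θ (hasDerivAt_rot hil x θ)
  exact h.deriv

lemma iteratedDeriv_comp_rot (hil : i ≠ l) {f : E 3 → ℝ} (hf : ContDiff ℝ ∞ f) (x : E 3) (n : ℕ) :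
    iteratedDeriv n (fun θ => f (rot i l x θ)) = fun θ => (rotD i l)^[n] f (rot i l x θ) := by
  induction n with
  | zero => simp
  | succ n ih =>
    rw [iteratedDeriv_succ, ih, deriv_comp_rot hil ((contDiff_iter hf n).differentiable (by simp)),
      Function.iterate_succ_apply']

lemma contDiff_rot (x : E 3) : ContDiff ℝ ∞ (rot i l x) := by
  unfold rot
  have h1 : ContDiff ℝ ∞ (fun θ => x i * (Real.cos θ - 1) + x l * Real.sin θ) :=
    (contDiff_const.mul (Real.contDiff_cos.sub contDiff_const)).add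
      (contDiff_const.mul Real.contDiff_sin)
  have h2 : ContDiff ℝ ∞ (fun θ => x l * (Real.cos θ - 1) - x i * Real.sin θ) :=
    (contDiff_const.mul (Real.contDiff_cos.sub contDiff_const)).sub
      (contDiff_const.mul Real.contDiff_sin)
  exact (contDiff_const.add (h1.smul contDiff_const)).add (h2.smul contDiff_const)

lemma rot_norm (hil : i ≠ l) (hij : i ≠ j) (hjl : j ≠ l) {x : E 3} (hx : ‖x‖ = 1) (θ : ℝ) :
    ‖rot i l x θ‖ = 1 := by
  have h1 : ‖x‖ ^ 2 = 1 := by rw [hx]; norm_num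
  have h2 : ‖rot i l x θ‖ ^ 2 = 1 := by
    rw [EuclideanSpace.norm_sq_eq] at h1 ⊢
    rw [sum_three hil hij hjl] at h1 ⊢
    simp only [Real.norm_eq_abs, sq_abs] at h1 ⊢
    rw [rot_i hil, rot_l hil, rot_j hij hjl]
    have h3 := Real.sin_sq_add_cos_sq θ
    nlinarith
  have h3 : 0 ≤ ‖rot i l x θ‖ := norm_nonneg _
  nlinarith

lemma rot_isBigO (x : E 3) (hil : i ≠ l) :
    (fun θ => rot i l x θ - x) =O[𝓝 0] fun θ : ℝ => θ := by
  have h := (hasDerivAt_rot hil x 0).isBigO_sub
  simpa [rot_zero] using h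

/-- A smooth function of one variable which is flat at `0`. -/
lemma iteratedDeriv_eq_zero {g : ℝ → ℝ} (hg : ContDiff ℝ ∞ g)
    (h : ∀ k : ℕ, (fun θ => g θ - g 0) =O[𝓝 0] fun θ => θ ^ k) (n : ℕ) (hn : 1 ≤ n) :
    iteratedDeriv n g 0 = 0 := by
  induction n using Nat.strong_induction_on with
  | _ n ih =>
    have h1 := taylor_isLittleO (f := g) (x₀ := 0) (n := n) (s := univ) convex_univ (mem_univ _)
      ((hg.of_le (by exact_mod_cast le_top)).contDiffOn)
    rw [nhdsWithin_univ] at h1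
    have h2 : ∀ θ : ℝ, taylorWithinEval g n univ 0 θ =
        g 0 + (n.factorial : ℝ)⁻¹ * θ ^ n * iteratedDeriv n g 0 := by
      intro θ
      obtain ⟨m, rfl⟩ : ∃ m, n = m + 1 := ⟨n - 1, by omega⟩
      rw [taylor_within_apply, Finset.sum_range_succ, Finset.sum_range_succ']
      have h3 : ∀ k ∈ Finset.range m, (((k + 1).factorial : ℝ)⁻¹ * (θ - 0) ^ (k + 1)) •
          iteratedDerivWithin (k + 1) g univ 0 = 0 := by
        intro k hk
        rw [iteratedDerivWithin_univ, ih (k + 1) (by have := Finset.mem_range.1 hk; omega)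
          (by omega), smul_zero]
      rw [Finset.sum_eq_zero h3]
      simp [iteratedDerivWithin_univ]
    have h4 : (fun θ : ℝ => (n.factorial : ℝ)⁻¹ * iteratedDeriv n g 0 * θ ^ n) =o[𝓝 0]
        fun θ : ℝ => θ ^ n := by
      have h5 : (fun θ : ℝ => g θ - g 0) =o[𝓝 0] fun θ : ℝ => θ ^ n := by
        refine (h (n + 1)).trans_isLittleO ?_
        have := isLittleO_pow_pow (𝕜 := ℝ) (show n < n + 1 by omega)
        exact this
      have h6 := h5.sub (by simpa using h1)
      refine h6.congr_left fun θ => ?_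
      rw [h2]
      ring
    by_contra hne
    have h7 : (n.factorial : ℝ)⁻¹ * iteratedDeriv n g 0 ≠ 0 :=
      mul_ne_zero (inv_ne_zero (by exact_mod_cast n.factorial_ne_zero)) hne
    rw [isLittleO_const_mul_left_iff h7] at h4
    have h8 : ∃ᶠ θ : ℝ in 𝓝 0, θ ^ n ≠ 0 := by
      have h9 : ∀ᶠ θ : ℝ in 𝓝[≠] (0:ℝ), θ ∈ ({0}ᶜ : Set ℝ) := eventually_mem_nhdsWithin
      have h10 : ∃ᶠ θ : ℝ in 𝓝 (0:ℝ), θ ∈ ({0}ᶜ : Set ℝ) :=
        h9.frequently.filter_mono nhdsWithin_le_nhds
      exact h10.mono fun θ hθ => pow_ne_zero _ hθ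
    exact isLittleO_irrefl h8 h4

lemma rotD_of_flat {f : E 3 → ℝ} (hf : ContDiff ℝ ∞ f) {x : E 3} (hx : ‖x‖ = 1) (h : Flat f x)
    (hil : i ≠ l) (n : ℕ) (hn : 1 ≤ n) : (rotD i l)^[n] f x = 0 := by
  obtain ⟨j, hij, hjl⟩ : ∃ j : Fin 3, i ≠ j ∧ j ≠ l := by
    clear hf hx h hn f x
    revert hil
    fin_cases i <;> fin_cases l <;> simp <;> decide
  have h1 := iteratedDeriv_eq_zero (g := fun θ => f (rot i l x θ)) (hf.comp (contDiff_rot x)) (by
    intro k
    have h2 : Tendsto (rot i l x) (𝓝 0) (𝓝[Metric.sphere 0 1] x) := by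
      rw [tendsto_nhdsWithin_iff]
      constructor
      · have h3 : Continuous (rot i l x) := (contDiff_rot (i := i) (l := l) x).continuous
        have h4 := h3.tendsto 0
        rwa [rot_zero] at h4
      · exact Eventually.of_forall fun θ => by
          rw [mem_sphere_zero_iff_norm]
          exact rot_norm hil hij hjl hx θ
    have h5 := (h k).comp_tendsto h2
    rw [rot_zero]
    refine h5.trans ?_
    have h6 := ((rot_isBigO x hil).norm_left).pow k
    exact h6) n hn
  rw [iteratedDeriv_comp_rot hil hf] at h1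
  simpa [rot_zero] using h1

end Pool.Agent.VAN.NG

namespace Pool.Agent.VAN

open MeasureTheory Set Filter Topology Asymptotics Pool.Agent.MP_6cbfb8_an Pool.Agent.VAN.NG
open scoped ENNReal Real ContDiff

/-- Almost every family is nonflat. -/
theorem ae_nonflat {d : ℕ} (φ : Fin d → E 3 → ℝ)
    (hs : ∀ j, ∀ x ∈ Metric.sphere (0 : E 3) 1, ContDiffAt ℝ ((⊤ : ℕ∞) : WithTop ℕ∞) (φ j) x) :
    ∀ᵐ b : Fin d → Fin 3 → Fin (d + 5) → ℝ,
      Nonflat fun j x => φ j x + ∑ i, ∑ k : Fin (d + 5), b j i k * x i ^ ((k : ℕ) + 1) := by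
  choose F hF _ hFS using fun j => extend (φ j) (hs j)
  filter_upwards [ae_tot hF] with b hb
  refine ⟨fun j x hx => (hs j x hx).add ?_, ?_⟩
  · have : ContDiff ℝ ∞ fun x : E 3 => ∑ i, ∑ k : Fin (d + 5), b j i k * x i ^ ((k : ℕ) + 1) := by
      fun_prop
    exact this.contDiffAt
  intro a ζ x hx hflat
  have hS : ∀ y : E 3, ‖y‖ = 1 → fam (fun j x => φ j x +
      ∑ i, ∑ k : Fin (d + 5), b j i k * x i ^ ((k : ℕ) + 1)) a y + inner ℝ y ζ =
        tot F b a (fun m => ζ m) y := by
    intro y hy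
    unfold fam tot
    rw [PiLp.inner_apply]
    congr 1
    refine Finset.sum_congr rfl fun j _ => ?_
    rw [hFS j y (by simpa using hy)]
  have hflat' : Flat (tot F b a (fun m => ζ m)) x := by
    intro k
    refine (hflat k).congr' ?_ EventuallyEq.rfl
    filter_upwards [self_mem_nhdsWithin] with y hy
    rw [hS y (by simpa using hy), hS x hx]
  obtain ⟨ha, hζ⟩ := hb a (fun m => ζ m) x hx fun i l hil n hn _ =>
    rotD_of_flat (contDiff_tot hF b a _) hx hflat' hil n hn
  have hζ' : ζ = 0 := by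
    ext m
    exact congrFun hζ m
  intro y _
  subst ha hζ'
  simp [fam]

end Pool.Agent.VAN
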