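import Pool.Agent.VAN.Defs

/-!
Spaces of smooth functions on the unit sphere of `R^3` without flat points.
-/

namespace Pool.Agent.VAN

open MeasureTheory Set Filter Topology Asymptotics Pool.Agent.MP_6cbfb8_an
open scoped Real

/-- The restriction of `f` to the unit sphere of `R^3` is flat at `x`:
`f y - f x = O(|y - x|^k)` on the sphere for every `k`. -/
def Flat (f : E 3 → ℝ) (x : E 3) : Prop :=
  ∀ k : ℕ, (fun y => f y - f x) =O[𝓝[Metric.sphere 0 1] x] fun y => ‖y - x‖ ^ k

/-- The functions `φ j` are smooth near the unit sphere of `R^3`, and a linear combination of them and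
of linear functions which is flat at some point of the sphere is constant on the sphere. -/
def Nonflat {d : ℕ} (φ : Fin d → E 3 → ℝ) : Prop :=
  (∀ j, ∀ x ∈ Metric.sphere (0 : E 3) 1, ContDiffAt ℝ ((⊤ : ℕ∞) : WithTop ℕ∞) (φ j) x) ∧
  ∀ (a : Fin d → ℝ) (ζ x : E 3), ‖x‖ = 1 → Flat (fun y => fam φ a y + inner ℝ y ζ) x →
    ∀ y : E 3, ‖y‖ = 1 → fam φ a y + inner ℝ y ζ = fam φ a x + inner ℝ x ζ

end Pool.Agent.VAN
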