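import Pool.Agent.VAN.NG1

/-!
Generic finite-dimensional families: the exceptional coefficients lie in differentiable images of
hyperplanes.
-/

set_option autoImplicit false

namespace Pool.Agent.VAN.NG

open MeasureTheory Set Polynomial Pool.Agent.MP_6cbfb8_an Pool.Agent.VAN.K
open scoped ENNReal Real ContDiff

variable {i l j : Fin 3} {d : ℕ}

/-- The coefficients of the polynomials. -/
abbrev VV (d : ℕ) : Type := Fin d → Fin 3 → Fin (d + 5) → ℝ

/-- The powers of the coordinates. -/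
def mono (i : Fin 3) (k : ℕ) (x : E 3) : ℝ := x i ^ (k + 1)

lemma contDiff_mono (i : Fin 3) (k : ℕ) : ContDiff ℝ ∞ (mono i k) := by
  unfold mono
  fun_prop

lemma contDiff_coord (m : Fin 3) : ContDiff ℝ ∞ (fun x : E 3 => x m) := by fun_prop

/-- The slots of the parameters. -/
def sl (k : Fin 5) : Fin (d + 5) := ⟨k, by omega⟩

/-- The slots of the coefficients. -/
def sa (j : Fin d) : Fin (d + 5) := ⟨5 + j, by omega⟩

/-- The two coordinates of the point. -/
def uu (i : Fin 3) (j0 : Fin d) (w : VV d) (m : Fin 3) : ℝ :=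
  if m = i then w j0 i (sl 0) else w j0 i (sl 1)

/-- The point. -/
noncomputable def XX' (σ : ℝ) (i l j : Fin 3) (j0 : Fin d) (w : VV d) : E 3 :=
  XP σ i l j (uu i j0 w)

/-- The coefficients of the combination. -/
def al (i : Fin 3) (j0 : Fin d) (w : VV d) (j' : Fin d) : ℝ :=
  if j' = j0 then 1 else w j0 i (sa j')

/-- The linear function. -/
def ze (i : Fin 3) (j0 : Fin d) (w : VV d) (m : Fin 3) : ℝ :=
  w j0 i (sl ⟨2 + m, by omega⟩)

/-- The coefficients of the powers which are not solved for. -/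
noncomputable def co (i : Fin 3) (j0 : Fin d) (w : VV d) (q : Fin d × Fin 3 × Fin (d + 5)) : ℝ :=
  if q.1 = j0 ∧ q.2.1 = i then 0 else al i j0 w q.1 * w q.1 q.2.1 q.2.2

/-- The derivatives of the rest. -/
noncomputable def rr (φ : Fin d → E 3 → ℝ) (σ : ℝ) (i l j : Fin 3) (j0 : Fin d) (w : VV d)
    (n : ℕ) : ℝ :=
  (∑ j', al i j0 w j' * (rotD i l)^[n] (φ j') (XX' σ i l j j0 w)) +
  (∑ q, co i j0 w q * (rotD i l)^[n] (mono q.2.1 q.2.2) (XX' σ i l j j0 w)) +
  ∑ m, ze i j0 w m * (rotD i l)^[n] (fun x => x m) (XX' σ i l j j0 w)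

/-- The map. -/
noncomputable def PP (φ : Fin d → E 3 → ℝ) (σ : ℝ) (i l j : Fin 3) (j0 : Fin d) (w : VV d) :
    VV d := fun j' i' k =>
  if j' = j0 ∧ i' = i then
    ∑ m ∈ Finset.range (d + 5 + 1), ((m.factorial : ℝ)⁻¹ *
      YY i l (rr φ σ i l j j0 w) (XX' σ i l j j0 w) m) *
        ((-(XX' σ i l j j0 w i)) ^ (m - ((k : ℕ) + 1)) * (m.choose ((k : ℕ) + 1) : ℝ))
  else w j' i' k

/-- The hyperplane. -/
def HP (i j : Fin 3) (j0 : Fin d) : Set (VV d) :=
  {w | w j0 i (sa j0) = 0 ∧ uu i j0 w i ^ 2 + uu i j0 w j ^ 2 < 1}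

lemma differentiable_uu (j0 : Fin d) (m : Fin 3) : Differentiable ℝ (fun w => uu i j0 w m) := by
  unfold uu
  split_ifs <;> fun_prop

lemma differentiableAt_XX' (σ : ℝ) {j0 : Fin d} {w : VV d}
    (h : uu i j0 w i ^ 2 + uu i j0 w j ^ 2 < 1) :
    DifferentiableAt ℝ (fun w : VV d => XX' σ i l j j0 w) w := by
  rw [differentiableAt_euclidean]
  intro m
  by_cases hm : m = l
  · subst hm
    simp only [XX', XP_l]
    have h1 : (1 - uu i j0 w i ^ 2 - uu i j0 w j ^ 2) ≠ 0 := by
      have : 0 < 1 - uu i j0 w i ^ 2 - uu i j0 w j ^ 2 := by linarith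
      exact this.ne'
    have h2 : DifferentiableAt ℝ (fun w : VV d => 1 - uu i j0 w i ^ 2 - uu i j0 w j ^ 2) w := by
      have h3 := differentiable_uu (i := i) j0 i
      have h4 := differentiable_uu (i := i) j0 j
      exact ((differentiableAt_const _).sub ((h3 w).pow 2)).sub ((h4 w).pow 2)
    exact (h2.sqrt h1).const_mul σ
  · simp only [XX', XP_of_ne σ _ hm]
    exact differentiable_uu (i := i) j0 m w

lemma differentiable_al (j0 j' : Fin d) : Differentiable ℝ (fun w => al i j0 w j') := by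
  unfold al
  split_ifs <;> fun_prop

lemma differentiable_ze (j0 : Fin d) (m : Fin 3) : Differentiable ℝ (fun w => ze i j0 w m) := by
  unfold ze
  fun_prop

lemma differentiable_co (j0 : Fin d) (q : Fin d × Fin 3 × Fin (d + 5)) :
    Differentiable ℝ (fun w => co i j0 w q) := by
  unfold co
  split_ifs
  · fun_prop
  · exact (differentiable_al j0 q.1).mul (by fun_prop)

lemma differentiableAt_iterXX' {f : E 3 → ℝ} (hf : ContDiff ℝ ∞ f) (σ : ℝ) {j0 : Fin d}
    {w : VV d} (h : uu i j0 w i ^ 2 + uu i j0 w j ^ 2 < 1) (n : ℕ) :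
    DifferentiableAt ℝ (fun w => (rotD i l)^[n] f (XX' σ i l j j0 w)) w := by
  have h1 : Differentiable ℝ ((rotD i l)^[n] f) := (contDiff_iter hf n).differentiable (by simp)
  exact (h1 _).comp w (differentiableAt_XX' σ h)

lemma differentiableAt_rr {φ : Fin d → E 3 → ℝ} (hφ : ∀ j', ContDiff ℝ ∞ (φ j')) (σ : ℝ)
    {j0 : Fin d} {w : VV d} (h : uu i j0 w i ^ 2 + uu i j0 w j ^ 2 < 1) (n : ℕ) :
    DifferentiableAt ℝ (fun w => rr φ σ i l j j0 w n) w := by
  unfold rr
  refine DifferentiableAt.add (DifferentiableAt.add ?_ ?_) ?_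
  · refine DifferentiableAt.fun_sum fun j' _ => ?_
    exact (differentiable_al j0 j' w).mul (differentiableAt_iterXX' (hφ j') σ h n)
  · refine DifferentiableAt.fun_sum fun q _ => ?_
    exact (differentiable_co j0 q w).mul (differentiableAt_iterXX' (contDiff_mono _ _) σ h n)
  · refine DifferentiableAt.fun_sum fun m _ => ?_
    exact (differentiable_ze j0 m w).mul (differentiableAt_iterXX' (contDiff_coord m) σ h n)

lemma differentiableAt_PP {φ : Fin d → E 3 → ℝ} (hφ : ∀ j', ContDiff ℝ ∞ (φ j')) {σ : ℝ}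
    (hσ : σ ≠ 0) {j0 : Fin d} {w : VV d} (h : uu i j0 w i ^ 2 + uu i j0 w j ^ 2 < 1) :
    DifferentiableAt ℝ (PP φ σ i l j j0) w := by
  rw [differentiableAt_pi]
  intro j'
  rw [differentiableAt_pi]
  intro i'
  rw [differentiableAt_pi]
  intro k
  by_cases hq : j' = j0 ∧ i' = i
  · simp only [PP, hq, and_self, if_true]
    have hX := differentiableAt_XX' (i := i) (l := l) (j := j) σ h
    have hXi : DifferentiableAt ℝ (fun w => XX' σ i l j j0 w i) w :=
      (differentiableAt_euclidean.1 hX) i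
    have hl : XX' σ i l j j0 w l ≠ 0 := XP_l_ne hσ h
    refine DifferentiableAt.fun_sum fun m _ => ?_
    have h1 := differentiableAt_YY (i := i) (l := l)
      (fun n => differentiableAt_rr (i := i) (l := l) (j := j) hφ σ h n) hX hl m
    exact ((h1.const_mul _)).mul ((hXi.neg.pow _).mul_const _)
  · simp only [PP, hq, if_false]
    fun_prop

lemma haar1 (d : ℕ) : (volume : Measure (Fin 3 → Fin (d + 5) → ℝ)).IsAddHaarMeasure :=
  Measure.pi.isAddHaarMeasure (fun _ : Fin 3 => (volume : Measure (Fin (d + 5) → ℝ)))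

lemma haarVV (d : ℕ) : (volume : Measure (VV d)).IsAddHaarMeasure := by
  have := haar1 d
  exact Measure.pi.isAddHaarMeasure
    (fun _ : Fin d => (volume : Measure (Fin 3 → Fin (d + 5) → ℝ)))

lemma measure_HP (i j : Fin 3) (j0 : Fin d) : (volume : Measure (VV d)) (HP i j j0) = 0 := by
  have := haarVV d
  have hle : HP i j j0 ⊆ (LinearMap.ker
      ((LinearMap.proj (sa j0) : (Fin (d + 5) → ℝ) →ₗ[ℝ] ℝ) ∘ₗ
        (LinearMap.proj i : (Fin 3 → Fin (d + 5) → ℝ) →ₗ[ℝ] (Fin (d + 5) → ℝ)) ∘ₗ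
        (LinearMap.proj j0 : VV d →ₗ[ℝ] (Fin 3 → Fin (d + 5) → ℝ))) : Submodule ℝ (VV d)) := by
    intro w hw
    simpa using hw.1
  refine measure_mono_null hle (Measure.addHaar_submodule _ _ ?_)
  intro htop
  have h1 : (fun _ _ _ => (1:ℝ) : VV d) ∈ (⊤ : Submodule ℝ (VV d)) := Submodule.mem_top
  rw [← htop] at h1
  simp at h1

lemma measure_PP {φ : Fin d → E 3 → ℝ} (hφ : ∀ j', ContDiff ℝ ∞ (φ j')) {σ : ℝ} (hσ : σ ≠ 0)
    (i l j : Fin 3) (j0 : Fin d) :
    (volume : Measure (VV d)) (PP φ σ i l j j0 '' HP i j j0) = 0 := by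
  have := haarVV d
  exact addHaar_image_eq_zero_of_differentiableOn_of_addHaar_eq_zero _
    (fun _ hw => (differentiableAt_PP hφ hσ hw.2).differentiableWithinAt) (measure_HP i j j0)

end Pool.Agent.VAN.NG
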