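import Pool.Agent.VAN.AN4

/-!
# The gliding hump with a perturbation

A smooth function `f`, flat at the point `e` of the sphere and supported in a sequence of disjoint
balls which tend to `e`, such that the integer multiples of `f + w` decide the restriction problem,
for every measurable `w` which is small on the balls.
-/

set_option autoImplicit false

namespace Pool.Agent.VAN

open MeasureTheory Set Filter Topology Asymptotics Pool.Agent.MP_6cbfb8_an Pool.Agent.VAN.AN
open scoped ENNReal Real ContDiff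

variable {n : ℕ}

/-- **Humps which bear small perturbations.** -/
theorem of_humps (hn : 2 ≤ n) (e : E n) (he : ‖e‖ = 1) :
    ∃ (x : ℕ → E n) (r ε : ℕ → ℝ) (f : E n → ℝ),
      (∀ k, 0 < r k) ∧ (∀ k, 0 < ε k) ∧ (∀ k, 8 * r k ≤ dist (x k) e) ∧ Tendsto x atTop (𝓝 e) ∧
      (∀ j k, j ≠ k → Disjoint (Metric.ball (x j) (4 * r j)) (Metric.ball (x k) (4 * r k))) ∧
      ContDiff ℝ ∞ f ∧ (∀ z, (∀ k, z ∉ Metric.ball (x k) (4 * r k)) → f z = 0) ∧
      (∀ N : ℕ, f =O[𝓝 e] fun z => ‖z - e‖ ^ N) ∧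
      ∀ w : E n → ℝ, Measurable w → (∀ k, ∀ z ∈ Metric.ball (x k) (2 * r k), |w z| ≤ ε k) →
        ∀ p : ℝ, 1 ≤ p → (∃ C : ℝ≥0∞, C ≠ ⊤ ∧ ∀ l : ℕ,
          ∫⁻ ξ, ‖extn (fun x => Complex.exp (((l * (f x + w x) : ℝ) : ℂ) * Complex.I)) ξ‖ₑ ^ p ≤ C) →
        ∃ C : ℝ≥0∞, C ≠ ⊤ ∧ ∀ g : E n → ℂ, Measurable g → (∀ x, ‖g x‖ ≤ 1) →
          ∫⁻ ξ, ‖extn g ξ‖ₑ ^ p ≤ C := by
  obtain ⟨x, f, ε, hxe, hf, hε, H⟩ := core_robust hn he
  obtain ⟨q, hq⟩ : ∃ q : ℕ → ℝ, ∀ k, q k = (1 / 3 : ℝ) ^ k := ⟨_, fun _ => rfl⟩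
  have hq0 : ∀ k, 0 < q k := fun k => by rw [hq]; positivity
  have hxq : ∀ k, dist (x k) e = q k := fun k => by rw [hxe, hq]
  -- smooth functions near the functions of the hump
  have hP : ∀ k, ∃ h : E n → ℝ, ContDiff ℝ ∞ h ∧ HasCompactSupport h ∧
      (∀ z ∈ Metric.closedBall (x k) (2 * (q k / 16)), |h z - f k z| ≤ ε k / 2) ∧
      ∀ z, z ∉ Metric.ball (x k) (3 * (q k / 16)) → h z = 0 := by
    intro k
    obtain ⟨P, hP⟩ := exists_ev_near (isCompact_closedBall (x k) (2 * (q k / 16))) (hf k)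
      (half_pos (hε k))
    let χ : ContDiffBump (x k) := ⟨2 * (q k / 16), 3 * (q k / 16), by linarith [hq0 k],
      by linarith [hq0 k]⟩
    refine ⟨fun z => χ z * ev P z, χ.contDiff.mul ?_, χ.hasCompactSupport.mul_right,
      fun z hz => ?_, fun z hz => ?_⟩
    · have : ContDiff ℝ ω (ev P) := by
        rw [contDiff_omega_iff_analyticOnNhd]
        exact fun z _ => analyticAt_ev P z
      exact this.of_le le_top
    · simp only
      rw [χ.one_of_mem_closedBall hz, one_mul]
      exact hP z hz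
    · simp only
      rw [χ.zero_of_le_dist (by rwa [Metric.mem_ball, not_lt] at hz), zero_mul]
  choose h hcd hcs hnear hzero using hP
  -- their bounds
  have hM : ∀ k, ∃ M : ℕ, 0 < M ∧ ∀ z, |h k z| ≤ M * (1 / 3 : ℝ) ^ (k * k) := by
    intro k
    obtain ⟨C, hC⟩ := (hcd k).continuous.bounded_above_of_compact_support (hcs k)
    obtain ⟨m, hm⟩ := exists_nat_ge (C * 3 ^ (k * k))
    refine ⟨m + 1, Nat.succ_pos m, fun z => ?_⟩
    have h1 := hC z
    rw [Real.norm_eq_abs] at h1
    have h2 : (0 : ℝ) < (1 / 3) ^ (k * k) := by positivity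
    have h3 : (3 : ℝ) ^ (k * k) * (1 / 3) ^ (k * k) = 1 := by rw [← mul_pow]; norm_num
    calc |h k z| ≤ C := h1
      _ = (C * 3 ^ (k * k)) * (1 / 3) ^ (k * k) := by rw [mul_assoc, h3, mul_one]
      _ ≤ ((m + 1 : ℕ) : ℝ) * (1 / 3) ^ (k * k) := by
          gcongr
          push_cast
          linarith
  choose M hM0 hM using hM
  obtain ⟨l, hl, hsm⟩ := J.exists_weights (fun k z => h k z / M k) (fun k => (hcd k).div_const _)
    (fun k => by
      have : (fun z => h k z / (M k : ℝ)) = fun z => h k z * (M k : ℝ)⁻¹ := by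
        funext z
        rw [div_eq_mul_inv]
      rw [this]
      exact (hcs k).mul_right)
  -- disjointness
  have hr : ∀ k, (0 : ℝ) < q k / 15 := fun k => by have := hq0 k; positivity
  have hshell : ∀ {k : ℕ} {z : E n}, z ∈ Metric.ball (x k) (4 * (q k / 15)) →
      11 / 15 * q k < dist z e ∧ dist z e < 19 / 15 * q k := by
    intro k z hz
    rw [Metric.mem_ball] at hz
    have h2 := dist_triangle z (x k) e
    have h3 := dist_triangle (x k) z e
    rw [dist_comm (x k) z] at h3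
    rw [hxq] at h2 h3
    constructor
    · linarith
    · linarith
  have hqq : ∀ {j k : ℕ}, j < k → q k ≤ q j / 3 := by
    intro j k hjk
    have h1 : (1 / 3 : ℝ) ^ k ≤ (1 / 3) ^ (j + 1) :=
      pow_le_pow_of_le_one (by norm_num) (by norm_num) hjk
    rw [pow_succ] at h1
    rw [hq, hq]
    linarith
  have hdis : ∀ {j k : ℕ} {z : E n}, z ∈ Metric.ball (x j) (4 * (q j / 15)) →
      z ∈ Metric.ball (x k) (4 * (q k / 15)) → j = k := by
    intro j k z hj hk
    have h1 := hshell hj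
    have h2 := hshell hk
    rcases lt_trichotomy j k with h | h | h
    · have := hqq h
      have := hq0 j
      linarith
    · exact h
    · have := hqq h
      have := hq0 k
      linarith
  have hsub : ∀ k, Metric.ball (x k) (3 * (q k / 16)) ⊆ Metric.ball (x k) (4 * (q k / 15)) :=
    fun k => Metric.ball_subset_ball (by linarith [hq0 k])
  have hval : ∀ {k : ℕ} {z : E n}, z ∈ Metric.ball (x k) (4 * (q k / 15)) →
      ∑' j, h j z / M j / (l j : ℝ) = h k z / M k / l k := by
    intro k z hz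
    refine tsum_eq_single k fun j hj => ?_
    rw [hzero j z fun h => hj (hdis (hsub j h) hz), zero_div, zero_div]
  have hval0 : ∀ z : E n, (∀ k, z ∉ Metric.ball (x k) (4 * (q k / 15))) →
      ∑' j, h j z / M j / (l j : ℝ) = 0 := by
    intro z hz
    have : (fun j => h j z / M j / (l j : ℝ)) = fun _ => 0 := by
      funext j
      rw [hzero j z fun h => hz j (hsub j h), zero_div, zero_div]
    rw [this, tsum_zero]
  have hMr : ∀ k, (1 : ℝ) ≤ M k := fun k => by exact_mod_cast hM0 k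
  have hlr : ∀ k, (1 : ℝ) ≤ l k := fun k => by exact_mod_cast hl k
  have hL0 : ∀ k, (0 : ℝ) < (l k * M k : ℕ) := fun k => by
    exact_mod_cast Nat.mul_pos (hl k) (hM0 k)
  refine ⟨x, fun k => q k / 15, fun k => ε k / (2 * (l k * M k : ℕ)),
    fun z => ∑' j, h j z / M j / (l j : ℝ), hr, fun k => ?_, fun k => ?_, ?_, fun j k hjk => ?_, hsm,
    hval0, fun N => ?_, fun w hw hwb p hp hC => ?_⟩
  · have := hL0 k
    have := hε k
    positivity
  · rw [hxq]
    linarith [hq0 k]
  · rw [tendsto_iff_dist_tendsto_zero]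
    simp only [hxe]
    exact tendsto_pow_atTop_nhds_zero_of_lt_one (by norm_num) (by norm_num)
  · rw [Set.disjoint_left]
    exact fun z hj hk => hjk (hdis hj hk)
  · -- flatness
    refine Asymptotics.IsBigO.of_bound (3 ^ (N * N) * 2 ^ N) (Eventually.of_forall fun z => ?_)
    rw [Real.norm_eq_abs, norm_pow, norm_norm]
    by_cases hz : ∃ k, z ∈ Metric.ball (x k) (4 * (q k / 15))
    · obtain ⟨k, hk⟩ := hz
      rw [hval hk]
      have h1 : |h k z / M k / l k| ≤ (1 / 3 : ℝ) ^ (k * k) := by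
        have h2 : (0 : ℝ) < M k := by linarith [hMr k]
        have h3 : (0 : ℝ) < l k := by linarith [hlr k]
        rw [abs_div, abs_div, abs_of_pos h2, abs_of_pos h3, div_div, div_le_iff₀ (by positivity)]
        have h4 : (0 : ℝ) < (1 / 3 : ℝ) ^ (k * k) := by positivity
        calc |h k z| ≤ M k * (1 / 3 : ℝ) ^ (k * k) := hM k z
          _ ≤ (M k * (1 / 3 : ℝ) ^ (k * k)) * l k := le_mul_of_one_le_right (by positivity) (hlr k)
          _ = _ := by ring
      have h5 : (1 / 3 : ℝ) ^ k / 2 ≤ ‖z - e‖ := by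
        rw [← dist_eq_norm, ← hq]
        linarith [(hshell hk).1, hq0 k]
      have h6 : ((1 / 3 : ℝ) ^ k / 2) ^ N ≤ ‖z - e‖ ^ N := pow_le_pow_left₀ (by positivity) h5 N
      have h7 : (1 / 3 : ℝ) ^ (k * k + N * N) ≤ (1 / 3 : ℝ) ^ (k * N) := by
        refine pow_le_pow_of_le_one (by norm_num) (by norm_num) ?_
        rcases le_total k N with h9 | h9
        · have := Nat.mul_le_mul_right N h9
          omega
        · have := Nat.mul_le_mul_left k h9
          omega
      have h9 : (3 : ℝ) ^ (N * N) * (1 / 3) ^ (N * N) = 1 := by rw [← mul_pow]; norm_num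
      have h10 : (2 : ℝ) ^ N * ((1 / 3 : ℝ) ^ k / 2) ^ N = (1 / 3 : ℝ) ^ (k * N) := by
        rw [← mul_pow, pow_mul]
        congr 1
        ring
      calc |h k z / M k / l k| ≤ (1 / 3 : ℝ) ^ (k * k) := h1
        _ = 3 ^ (N * N) * (1 / 3 : ℝ) ^ (k * k + N * N) := by
            rw [pow_add, mul_comm ((1 / 3 : ℝ) ^ (k * k)), ← mul_assoc, h9, one_mul]
        _ ≤ 3 ^ (N * N) * (1 / 3 : ℝ) ^ (k * N) := by gcongr
        _ = 3 ^ (N * N) * 2 ^ N * ((1 / 3 : ℝ) ^ k / 2) ^ N := by rw [mul_assoc, h10]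
        _ ≤ 3 ^ (N * N) * 2 ^ N * ‖z - e‖ ^ N := by gcongr
    · push Not at hz
      rw [hval0 z hz, abs_zero]
      positivity
  · -- the estimate
    obtain ⟨C, hC, HC⟩ := hC
    by_contra hUB
    obtain ⟨k, hk⟩ := H p hp hUB C hC
    have hmeas : Measurable fun z => ((l k * M k : ℕ) : ℝ) *
        ((∑' j, h j z / M j / (l j : ℝ)) + w z) :=
      (hsm.continuous.measurable.add hw).const_mul _
    refine absurd (HC (l k * M k)) (not_le.2 (hk _ (J.measurable_phase hmeas)
      (J.norm_phase_le fun z => ((l k * M k : ℕ) : ℝ) *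
        ((∑' j, h j z / M j / (l j : ℝ)) + w z)) fun z hz => ?_))
    rw [← hq] at hz
    have hz2 : z ∈ Metric.ball (x k) (2 * (q k / 15)) := by
      rw [Metric.mem_closedBall] at hz
      rw [Metric.mem_ball]
      linarith [hq0 k]
    have hz4 : z ∈ Metric.ball (x k) (4 * (q k / 15)) :=
      Metric.ball_subset_ball (by linarith [hq0 k]) hz2
    refine (norm_phase_sub_le _ _).trans ?_
    simp only
    rw [hval hz4]
    have h1 := hnear k z hz
    have h2 := hwb k z hz2
    simp only at h2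
    rw [le_div_iff₀ (by have := hL0 k; positivity)] at h2
    have h3 : ((l k * M k : ℕ) : ℝ) * (h k z / M k / l k + w z) - f k z =
        (h k z - f k z) + ((l k * M k : ℕ) : ℝ) * w z := by
      have h4 : (M k : ℝ) ≠ 0 := by have := hMr k; positivity
      have h5 : (l k : ℝ) ≠ 0 := by have := hlr k; positivity
      push_cast
      field_simp
      ring
    rw [h3]
    refine (abs_add_le _ _).trans ?_
    rw [abs_mul, abs_of_pos (hL0 k)]
    linarith

end Pool.Agent.VAN
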