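import Pool.Agent.VAN.AN7

/-!
The restriction conjecture is the independence of the degree of the constants for polynomial phases.
-/

set_option autoImplicit false

namespace Pool.Agent.VAN.PD

open MeasureTheory Set MvPolynomial Pool.Agent.MP_6cbfb8_an Filter Topology
open scoped ENNReal Real ContDiff

variable {n : ℕ}

/-- The coordinate functions on the sphere. -/
noncomputable def crd (n : ℕ) (i : Fin n) : C(S n, ℝ) := ⟨fun x => (x : E n) i, by fun_prop⟩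

lemma aeval_crd (P : MvPolynomial (Fin n) ℝ) (x : S n) :
    (aeval (crd n) P : C(S n, ℝ)) x = eval (fun i => (x : E n) i) P := by
  induction P using MvPolynomial.induction_on with
  | C a => simp
  | add p q hp hq => simp [hp, hq]
  | mul_X p i hp => simp [hp, crd]

theorem exists_poly (φ : E n → ℝ) (hφ : Continuous φ) {δ : ℝ} (hδ : 0 < δ) :
    ∃ P : MvPolynomial (Fin n) ℝ, ∀ x : E n, ‖x‖ = 1 → |eval (fun i => x i) P - φ x| < δ := by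
  obtain ⟨g, hg⟩ := ContinuousMap.exists_mem_subalgebra_near_continuous_of_separatesPoints
    (X := S n) (aeval (crd n) : MvPolynomial (Fin n) ℝ →ₐ[ℝ] C(S n, ℝ)).range (by
      intro x y hxy
      obtain ⟨i, hi⟩ : ∃ i, (x : E n) i ≠ (y : E n) i := by
        by_contra h
        push Not at h
        exact hxy (Subtype.ext (by ext i; exact h i))
      exact ⟨crd n i, ⟨crd n i, ⟨X i, aeval_X _ _⟩, rfl⟩, hi⟩) (fun x => φ x)
    (hφ.comp continuous_subtype_val) δ hδ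
  obtain ⟨P, hP⟩ := g.2
  refine ⟨P, fun x hx => ?_⟩
  have h1 := hg ⟨x, mem_sphere_zero_iff_norm.2 hx⟩
  rw [Real.norm_eq_abs] at h1
  have h2 : (g : S n → ℝ) ⟨x, mem_sphere_zero_iff_norm.2 hx⟩ = eval (fun i => x i) P := by
    rw [← aeval_crd P ⟨x, mem_sphere_zero_iff_norm.2 hx⟩]
    have : (aeval (crd n) P : C(S n, ℝ)) = g := hP
    rw [this]
  rwa [h2] at h1

lemma measurable_eval (P : MvPolynomial (Fin n) ℝ) : Measurable fun x : E n => eval (fun i => x i) P := by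
  have h1 : Continuous fun x : E n => eval (fun i => x i) P := by
    apply MvPolynomial.continuous_eval P |>.comp
    exact continuous_pi fun i => by fun_prop
  exact h1.measurable

/-- A bound for all polynomial phases holds for all continuous phases. -/
theorem cont_of_poly {p : ℝ} {C : ℝ≥0∞} (H : ∀ P : MvPolynomial (Fin n) ℝ,
    ∫⁻ ξ, ‖extn (fun x : E n => Complex.exp (((eval (fun i => x i) P : ℝ) : ℂ) * Complex.I)) ξ‖ₑ ^ p ≤ C)
    (φ : E n → ℝ) (hφ : Continuous φ) :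
    ∫⁻ ξ, ‖extn (fun x => Complex.exp ((φ x : ℂ) * Complex.I)) ξ‖ₑ ^ p ≤ C := by
  have h1 : ∀ k : ℕ, ∃ P : MvPolynomial (Fin n) ℝ, ∀ x : E n, ‖x‖ = 1 →
      |eval (fun i => x i) P - φ x| < 1 / ((k : ℝ) + 1) := fun k =>
    exists_poly φ hφ Nat.one_div_pos_of_nat
  choose P hP using h1
  refine AN.FF_fatou (B := 1) (g := fun k (x : E n) =>
    Complex.exp (((eval (fun i => x i) (P k) : ℝ) : ℂ) * Complex.I)) (fun k => ?_) (fun k x => ?_) ?_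
    (fun k => H (P k))
  · have := measurable_eval (P k)
    fun_prop
  · rw [Complex.norm_exp_ofReal_mul_I]
  · refine Eventually.of_forall fun x => ?_
    have hx : ‖(x : E n)‖ = 1 := mem_sphere_zero_iff_norm.1 x.2
    have h2 : Tendsto (fun k => eval (fun i => (x : E n) i) (P k)) atTop (𝓝 (φ x)) := by
      rw [tendsto_iff_norm_sub_tendsto_zero]
      refine squeeze_zero (fun _ => norm_nonneg _) (fun k => (hP k x hx).le)
        tendsto_one_div_add_atTop_nhds_zero_nat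
    exact ((Complex.continuous_exp.comp (Complex.continuous_ofReal.mul continuous_const)).tendsto _).comp h2

/-- **The equivalences**, with the polynomial phases. -/
theorem equiv_poly (hn : 2 ≤ n) (e : E n) (he : ‖e‖ = 1) :
    ∃ φ₀ ψ₀ : E n → ℝ, ContDiff ℝ ∞ φ₀ ∧
      (∀ s : ℝ, 1 < s → ∃ C : ℝ, ∀ m x, ‖iteratedFDeriv ℝ m φ₀ x‖ ≤ C * (m.factorial : ℝ) ^ s) ∧
      Measurable ψ₀ ∧ AnalyticOnNhd ℝ ψ₀ {e}ᶜ ∧
      ∀ p : ℝ, 1 ≤ p → List.TFAE [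
        ∀ g : E n → ℂ, Measurable g → (∀ x, ‖g x‖ ≤ 1) → ∫⁻ ξ, ‖extn g ξ‖ₑ ^ p < ⊤,
        ∃ C : ℝ≥0∞, C ≠ ⊤ ∧ ∀ g : E n → ℂ, Measurable g → (∀ x, ‖g x‖ ≤ 1) →
          ∫⁻ ξ, ‖extn g ξ‖ₑ ^ p ≤ C,
        ∃ C : ℝ≥0∞, C ≠ ⊤ ∧ ∀ P : MvPolynomial (Fin n) ℝ,
          ∫⁻ ξ, ‖extn (fun x : E n =>
            Complex.exp (((eval (fun i => x i) P : ℝ) : ℂ) * Complex.I)) ξ‖ₑ ^ p ≤ C,
        ∀ φ : E n → ℝ, ContDiff ℝ ∞ φ → ∃ C : ℝ≥0∞, C ≠ ⊤ ∧ ∀ l : ℝ,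
          ∫⁻ ξ, ‖extn (fun x => Complex.exp (((l * φ x : ℝ) : ℂ) * Complex.I)) ξ‖ₑ ^ p ≤ C,
        ∃ C : ℝ≥0∞, C ≠ ⊤ ∧ ∀ m : ℕ,
          ∫⁻ ξ, ‖extn (fun x => Complex.exp (((m * φ₀ x : ℝ) : ℂ) * Complex.I)) ξ‖ₑ ^ p ≤ C,
        ∫⁻ ξ, ‖extn (fun x => Complex.exp ((ψ₀ x : ℂ) * Complex.I)) ξ‖ₑ ^ p < ⊤,
        ∫⁻ ξ, ‖extn (Set.indicator {x | 0 < ψ₀ x} fun _ => (1 : ℂ)) ξ‖ₑ ^ p < ⊤] := by
  obtain ⟨φ₀, ψ₀, h1, h2, h3, h4, h5⟩ := AN.equiv_final hn e he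
  refine ⟨φ₀, ψ₀, h1, h2, h3, h4, fun p hp => ?_⟩
  have h7 := h5 p hp
  tfae_have 1 ↔ 2 := h7.out 0 1
  tfae_have 2 → 3 := fun ⟨C, hC, h⟩ => ⟨C, hC, fun P => h _ (by
    have := measurable_eval P
    fun_prop) fun x => by rw [Complex.norm_exp_ofReal_mul_I]⟩
  tfae_have 3 → 4 := fun ⟨C, hC, h⟩ φ hφ => ⟨C, hC, fun l =>
    cont_of_poly h (fun x => l * φ x) (continuous_const.mul hφ.continuous)⟩
  tfae_have 4 ↔ 2 := h7.out 2 1
  tfae_have 5 ↔ 2 := h7.out 3 1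
  tfae_have 6 ↔ 2 := h7.out 4 1
  tfae_have 7 ↔ 2 := h7.out 5 1
  tfae_finish

end Pool.Agent.VAN.PD
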