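import Pool.Agent.MP_6cbfb8_an.Slice

/-!
The measure of a small cap.
-/

set_option autoImplicit false

namespace Pool.Agent.VAN.SP

open MeasureTheory Set Pool.Agent.MP_6cbfb8_an
open scoped ENNReal Real RealInnerProductSpace

lemma join_zero_one_norm : ‖(join (0 : E 2) 1 : E 3)‖ = 1 := by
  have h := norm_join_sq (0 : E 2) 1
  rw [norm_zero] at h
  have h2 : 0 ≤ ‖(join (0 : E 2) 1 : E 3)‖ := norm_nonneg _
  nlinarith

lemma join_sub {n : ℕ} (x y : E n) (s t : ℝ) : join x s - join y t = join (x - y) (s - t) := by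
  ext i
  refine Fin.lastCases ?_ (fun i => ?_) i
  · simp [join]
  · simp [join]

lemma norm_pt_sub (θ : ℝ) (ω : S 2) : ‖pt θ (ω : E 2) - join (0 : E 2) 1‖ ^ 2 = 2 - 2 * Real.cos θ := by
  unfold pt
  rw [join_sub, norm_join_sq, sub_zero, norm_smul]
  have h1 : ‖(ω : E 2)‖ = 1 := by simp
  rw [h1, mul_one, Real.norm_eq_abs, sq_abs]
  nlinarith [Real.sin_sq_add_cos_sq θ]

lemma theta_le {θ r : ℝ} (hθ : θ ∈ Ioo 0 π) (hr : 0 ≤ r) (h : 2 - 2 * Real.cos θ ≤ r ^ 2) :
    θ ≤ π / 2 * r := by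
  have h1 : 2 - 2 * Real.cos θ = (2 * Real.sin (θ / 2)) ^ 2 := by
    have h2 := Real.cos_two_mul (θ / 2)
    have h3 := Real.sin_sq_add_cos_sq (θ / 2)
    rw [mul_div_cancel₀ _ (two_ne_zero)] at h2
    nlinarith
  have h2 : 2 / π * (θ / 2) ≤ Real.sin (θ / 2) :=
    Real.mul_le_sin (by linarith [hθ.1]) (by linarith [hθ.2])
  have h3 : 0 ≤ Real.sin (θ / 2) :=
    Real.sin_nonneg_of_nonneg_of_le_pi (by linarith [hθ.1]) (by linarith [hθ.2, Real.pi_pos])
  rw [h1] at h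
  have h4 : 2 * Real.sin (θ / 2) ≤ r := le_of_sq_le_sq h hr
  have h5 : 2 / π * (θ / 2) = θ / π := by ring
  rw [h5] at h2
  have h6 : θ / π * 2 ≤ r := by linarith
  rw [div_mul_eq_mul_div, div_le_iff₀ Real.pi_pos] at h6
  linarith

/-- The measure of a cap of radius `r` is at most a constant times `r²`. -/
theorem sm_cap_le : ∃ K : ℝ, 0 ≤ K ∧ ∀ e : E 3, ‖e‖ = 1 → ∀ r : ℝ, 0 ≤ r →
    sm 3 {x : S 3 | ‖(x : E 3) - e‖ ≤ r} ≤ ENNReal.ofReal (K * r ^ 2) := by
  refine ⟨(π / 2) ^ 2 * (sm 2).real univ, by positivity, fun e he r hr => ?_⟩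
  -- rotate to the north pole
  obtain ⟨R, hR⟩ : ∃ R : E 3 ≃ₗᵢ[ℝ] E 3, R e = join (0 : E 2) 1 :=
    ⟨_, Submodule.reflection_sub (he.trans join_zero_one_norm.symm)⟩
  have hA : MeasurableSet {y : E 3 | ‖y - join (0 : E 2) 1‖ ≤ r} :=
    measurableSet_le (by fun_prop) measurable_const
  have hmp := measurePreserving_isometry R
  have h1 : {x : S 3 | ‖(x : E 3) - e‖ ≤ r} =
      (fun x : S 3 => (⟨R x, by simp⟩ : S 3)) ⁻¹' {y : S 3 | ‖(y : E 3) - join (0 : E 2) 1‖ ≤ r} := by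
    ext x
    simp only [mem_ofPred_eq, mem_preimage]
    rw [← hR, ← map_sub, R.norm_map]
  have hB : MeasurableSet {y : S 3 | ‖(y : E 3) - join (0 : E 2) 1‖ ≤ r} :=
    measurable_subtype_coe hA
  rw [h1, hmp.measure_preimage hB.nullMeasurableSet]
  -- polar coordinates
  have h2 : sm 3 {y : S 3 | ‖(y : E 3) - join (0 : E 2) 1‖ ≤ r} =
      ∫⁻ x : S 3, ({y : E 3 | ‖y - join (0 : E 2) 1‖ ≤ r}.indicator (fun _ => (1:ℝ≥0∞))) x ∂(sm 3) := by
    rw [← lintegral_indicator_one hB]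
    rfl
  rw [h2, lintegral_slice 1 _ (measurable_const.indicator hA)]
  have hpr : 0 ≤ π / 2 * r := by positivity
  calc ∫⁻ θ in Ioo 0 π, ENNReal.ofReal (Real.sin θ ^ 1) *
        (∫⁻ ω : S 2, ({y : E 3 | ‖y - join (0 : E 2) 1‖ ≤ r}.indicator (fun _ => (1:ℝ≥0∞)))
          (pt θ (ω : E 2)) ∂(sm 2))
      ≤ ∫⁻ θ in Ioo 0 π, (Icc 0 (π / 2 * r)).indicator
          (fun _ => ENNReal.ofReal (π / 2 * r) * sm 2 univ) θ := by
        refine setLIntegral_mono_ae' measurableSet_Ioo (ae_of_all _ fun θ hθ => ?_)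
        by_cases h : 2 - 2 * Real.cos θ ≤ r ^ 2
        · have h3 := theta_le hθ hr h
          rw [indicator_of_mem (show θ ∈ Icc 0 (π / 2 * r) from ⟨hθ.1.le, h3⟩)]
          refine mul_le_mul' (ENNReal.ofReal_le_ofReal ?_) ?_
          · rw [pow_one]
            exact (Real.sin_le hθ.1.le).trans h3
          · calc _ ≤ ∫⁻ _ω : S 2, 1 ∂(sm 2) := by
                  refine lintegral_mono fun ω => ?_
                  exact indicator_le_self' (fun _ _ => zero_le) _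
              _ = sm 2 univ := by simp
        · have h3 : ∀ ω : S 2, ({y : E 3 | ‖y - join (0 : E 2) 1‖ ≤ r}.indicator
              (fun _ => (1:ℝ≥0∞))) (pt θ (ω : E 2)) = 0 := by
            intro ω
            refine indicator_of_notMem (fun h4 => h ?_) _
            rw [← norm_pt_sub θ ω]
            exact pow_le_pow_left₀ (norm_nonneg _) h4 2
          simp only [h3, lintegral_zero, mul_zero]
          exact zero_le
    _ ≤ ∫⁻ θ, (Icc 0 (π / 2 * r)).indicator (fun _ => ENNReal.ofReal (π / 2 * r) * sm 2 univ) θ :=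
        setLIntegral_le_lintegral _ _
    _ = ENNReal.ofReal (π / 2 * r) * sm 2 univ * ENNReal.ofReal (π / 2 * r) := by
        rw [lintegral_indicator measurableSet_Icc, setLIntegral_const, Real.volume_Icc, sub_zero]
    _ = ENNReal.ofReal ((π / 2) ^ 2 * (sm 2).real univ * r ^ 2) := by
        have h5 : sm 2 univ = ENNReal.ofReal ((sm 2).real univ) := by
          rw [ofReal_measureReal]
        rw [h5, ← ENNReal.ofReal_mul hpr, ← ENNReal.ofReal_mul (by positivity)]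
        congr 1
        ring

end Pool.Agent.VAN.SP
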