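import Pool.Agent.VAN.CK

/-!
The estimate with loss on one cube.
-/

set_option autoImplicit false

namespace Pool.Agent.VAN.SP

open MeasureTheory Set MvPolynomial Pool.Agent.MP_6cbfb8_an Filter Topology
open scoped ENNReal Real

/-- the step function -/
noncomputable def J (s t : ℝ) : ℝ := if s < t then 1 else 0

/-- the indicator of the half open cube with lower corner `s` and side `h` -/
noncomputable def box (s : Fin 3 → ℝ) (h : ℝ) (x : E 3) : ℝ := ∏ i, (J (s i) (x i) - J (s i + h) (x i))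

lemma J_sub {s h t : ℝ} (hh : 0 ≤ h) : J s t - J (s + h) t = if s < t ∧ t ≤ s + h then 1 else 0 := by
  unfold J
  by_cases h1 : s < t
  · by_cases h2 : s + h < t
    · rw [if_pos h1, if_pos h2, if_neg (fun h3 => absurd h3.2 (not_le.2 h2))]; simp
    · rw [if_pos h1, if_neg h2, if_pos ⟨h1, not_lt.1 h2⟩]; simp
  · rw [if_neg h1, if_neg (fun h3 => h1 (by linarith)), if_neg (fun h3 => h1 h3.1)]; simp

lemma box_eq (s : Fin 3 → ℝ) {h : ℝ} (hh : 0 ≤ h) (x : E 3) :
    box s h x = if ∀ i, s i < x i ∧ x i ≤ s i + h then 1 else 0 := by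
  unfold box
  simp only [J_sub hh]
  by_cases h1 : ∀ i, s i < x i ∧ x i ≤ s i + h
  · rw [if_pos h1]
    exact Finset.prod_eq_one fun i _ => if_pos (h1 i)
  · rw [if_neg h1]
    push Not at h1
    obtain ⟨i, hi⟩ := h1
    exact Finset.prod_eq_zero (Finset.mem_univ i) (if_neg fun h2 => absurd h2.2 (not_le.2 (hi h2.1)))

lemma box_nonneg (s : Fin 3 → ℝ) {h : ℝ} (hh : 0 ≤ h) (x : E 3) : 0 ≤ box s h x := by
  rw [box_eq s hh]; split_ifs <;> norm_num

lemma box_le_one (s : Fin 3 → ℝ) {h : ℝ} (hh : 0 ≤ h) (x : E 3) : box s h x ≤ 1 := by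
  rw [box_eq s hh]; split_ifs <;> norm_num

lemma box_mem {s : Fin 3 → ℝ} {h : ℝ} (hh : 0 ≤ h) {x : E 3} (hx : box s h x ≠ 0) (i : Fin 3) :
    s i < x i ∧ x i ≤ s i + h := by
  rw [box_eq s hh] at hx
  by_contra h1
  exact hx (if_neg fun h2 => h1 (h2 i))

/-- the subdivision of a cube into `M³` cubes -/
lemma box_sum (s : Fin 3 → ℝ) (h : ℝ) (M : ℕ) (hM : 0 < M) (x : E 3) :
    box s h x = ∑ q ∈ Fintype.piFinset (fun _ : Fin 3 => Finset.range M),
      box (fun i => s i + (q i : ℝ) * (h / M)) (h / M) x := by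
  have hM0 : (M : ℝ) ≠ 0 := by exact_mod_cast hM.ne'
  unfold box
  rw [← Finset.prod_univ_sum (fun _ => Finset.range M)
    (fun i (m : ℕ) => J (s i + (m : ℝ) * (h / M)) (x i) - J (s i + (m : ℝ) * (h / M) + h / M) (x i))]
  refine Finset.prod_congr rfl fun i _ => ?_
  have h1 := Finset.sum_range_sub' (fun m : ℕ => J (s i + (m : ℝ) * (h / M)) (x i)) M
  have e1 : J (s i) (x i) - J (s i + h) (x i) = J (s i + ((0 : ℕ) : ℝ) * (h / M)) (x i) -
      J (s i + ((M : ℕ) : ℝ) * (h / M)) (x i) := by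
    congr 2
    · push_cast; ring
    · field_simp
  rw [e1, ← h1]
  refine Finset.sum_congr rfl fun m _ => ?_
  congr 2
  push_cast
  ring

/-- the cube as a combination of octants -/
lemma box_oct (s : Fin 3 → ℝ) (h : ℝ) (x : E 3) :
    ((box s h x : ℝ) : ℂ) = ∑ t : Finset (Fin 3), sg t *
      oct (fun i => if i ∈ t then s i else s i + h) x := by
  have hJ : ∀ a b : ℝ, ((J a b : ℝ) : ℂ) = if a < b then 1 else 0 := by
    intro a b; unfold J; split_ifs <;> simp
  unfold box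
  push_cast
  simp only [sub_eq_add_neg, hJ]
  rw [Finset.prod_add, ← Finset.powerset_univ]
  refine Finset.sum_congr rfl fun t _ => ?_
  have h3 : ∏ i ∈ Finset.univ \ t, -(if s i + h < x i then (1 : ℂ) else 0) =
      (-1) ^ (Finset.univ \ t).card * ∏ i ∈ Finset.univ \ t, (if s i + h < x i then (1 : ℂ) else 0) := by
    rw [← Finset.prod_const, ← Finset.prod_mul_distrib]
    refine Finset.prod_congr rfl fun i _ => ?_
    ring
  rw [h3]
  unfold sg oct
  have h4 : ∏ i, (if (if i ∈ t then s i else s i + h) < x i then (1 : ℂ) else 0) =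
      (∏ i ∈ t, (if s i < x i then (1 : ℂ) else 0)) *
        ∏ i ∈ Finset.univ \ t, (if s i + h < x i then (1 : ℂ) else 0) := by
    rw [← Finset.prod_sdiff (Finset.subset_univ t), mul_comm]
    congr 1
    · refine Finset.prod_congr rfl fun i hi => ?_
      rw [if_pos hi]
    · refine Finset.prod_congr rfl fun i hi => ?_
      rw [if_neg (Finset.mem_sdiff.1 hi).2]
  rw [h4]
  ring

lemma measurable_box (s : Fin 3 → ℝ) (h : ℝ) : Measurable (box s h) := by
  have hJ : ∀ (a : ℝ) (i : Fin 3), Measurable fun x : E 3 => J a (x i) := fun a i =>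
    Measurable.ite (measurableSet_lt measurable_const (by fun_prop)) measurable_const measurable_const
  unfold box
  exact Finset.measurable_prod _ fun i _ => (hJ _ i).sub (hJ _ i)

lemma norm_box_le (s : Fin 3 → ℝ) {h : ℝ} (hh : 0 ≤ h) (x : E 3) : ‖((box s h x : ℝ) : ℂ)‖ ≤ 1 := by
  rw [Complex.norm_real, Real.norm_of_nonneg (box_nonneg s hh x)]
  exact box_le_one s hh x

/-- norms of finite sums -/
lemma eLp_fsum {ι : Type*} (s : Finset ι) (c : ι → ℂ) (hc : ∀ i, ‖c i‖ ≤ 1) (g : ι → E 3 → ℂ)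
    (hg : ∀ i, Measurable (g i)) (hb : ∀ i x, ‖g i x‖ ≤ 1) {p : ℝ} (hp : 1 ≤ p) {C : ℝ≥0∞}
    (H : ∀ i, ∫⁻ ξ, ‖extn (g i) ξ‖ₑ ^ p ≤ C) :
    eLpNorm' (extn fun x => ∑ i ∈ s, c i * g i x) p volume ≤ (s.card : ℝ≥0∞) * C ^ (1 / p) := by
  classical
  have hme : ∀ i, Measurable (extn fun x => c i * g i x) := fun i =>
    measurable_extn' ((hg i).const_mul _)
  have hbd : ∀ i x, ‖c i * g i x‖ ≤ 1 := fun i x => by
    rw [norm_mul]
    exact mul_le_one₀ (hc i) (norm_nonneg _) (hb i x)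
  have h1 : (extn fun x => ∑ i ∈ s, c i * g i x) = fun ξ => ∑ i ∈ s, extn (fun x => c i * g i x) ξ := by
    funext ξ
    exact extn_fsum s (fun i x => c i * g i x) (fun i => (hg i).const_mul _) 1 hbd ξ
  have h2 : ∀ i, eLpNorm' (extn fun x => c i * g i x) p volume ≤ C ^ (1 / p) := by
    intro i
    unfold eLpNorm'
    apply ENNReal.rpow_le_rpow _ (by positivity)
    refine le_trans (lintegral_mono fun ξ => ?_) (H i)
    have h3 : extn (fun x => c i * g i x) ξ = c i * extn (g i) ξ := by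
      unfold extn
      rw [← integral_const_mul]
      congr 1
      ext x
      ring
    simp only
    rw [h3, enorm_mul]
    refine ENNReal.rpow_le_rpow ?_ (by linarith)
    have h4 : ‖c i‖ₑ ≤ 1 := by
      rw [← ofReal_norm]
      exact ENNReal.ofReal_le_one.2 (hc i)
    calc ‖c i‖ₑ * ‖extn (g i) ξ‖ₑ ≤ 1 * ‖extn (g i) ξ‖ₑ := mul_le_mul_left h4 _
      _ = _ := one_mul _
  rw [h1]
  induction s using Finset.induction_on with
  | empty =>
    simp only [Finset.sum_empty, Finset.card_empty, Nat.cast_zero, zero_mul]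
    unfold eLpNorm'
    simp [ENNReal.zero_rpow_of_pos (show 0 < p by linarith),
      ENNReal.zero_rpow_of_pos (show 0 < p⁻¹ by positivity)]
  | insert a s ha ih =>
    have h6 : (fun ξ => ∑ i ∈ insert a s, extn (fun x => c i * g i x) ξ) =
        (extn fun x => c a * g a x) + fun ξ => ∑ i ∈ s, extn (fun x => c i * g i x) ξ := by
      funext ξ
      rw [Finset.sum_insert ha]
      rfl
    rw [h6]
    refine (eLpNorm'_add_le (hme a).aestronglyMeasurable
      (Finset.measurable_sum _ fun b _ => hme b).aestronglyMeasurable hp).trans ?_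
    rw [Finset.card_insert_of_notMem ha]
    push_cast
    rw [add_mul, one_mul, add_comm]
    refine add_le_add (ih ?_) (h2 a)
    funext ξ
    exact extn_fsum s (fun i x => c i * g i x) (fun i => (hg i).const_mul _) 1 hbd ξ

/-- The index set of the cells of level `k`. -/
abbrev cells (k : ℕ) : Finset (Fin 3 → ℕ) := Fintype.piFinset fun _ : Fin 3 => Finset.range (2 ^ k)

/-- The lower corner of a cell. -/
noncomputable def cc (s : Fin 3 → ℝ) (h : ℝ) (k : ℕ) (q : Fin 3 → ℕ) (i : Fin 3) : ℝ :=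
  s i + (q i : ℝ) * (h / 2 ^ k)

/-- The approximation of level `k` on the cube. -/
noncomputable def ap (w : E 3 → ℂ) (s : Fin 3 → ℝ) (h : ℝ) (k : ℕ)
    (T : (Fin 3 → ℕ) → MvPolynomial (Fin 3) ℝ) (x : E 3) : ℂ :=
  ∑ q ∈ cells k, w x * pex (T q) x * ((box (cc s h k q) (h / 2 ^ k) x : ℝ) : ℂ)

lemma box_cells (s : Fin 3 → ℝ) (h : ℝ) (k : ℕ) (x : E 3) :
    box s h x = ∑ q ∈ cells k, box (cc s h k q) (h / 2 ^ k) x := by
  have h1 := box_sum s h (2 ^ k) (by positivity) x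
  push_cast at h1
  exact h1

lemma card_cells (k : ℕ) : (cells k).card = 8 ^ k := by
  rw [Fintype.card_piFinset]
  simp only [Finset.card_range, Finset.prod_const, Finset.card_univ, Fintype.card_fin]
  rw [← pow_mul, mul_comm, pow_mul]
  norm_num

lemma ap_eq (w : E 3 → ℂ) (s : Fin 3 → ℝ) (h : ℝ) (k : ℕ)
    (T : (Fin 3 → ℕ) → MvPolynomial (Fin 3) ℝ) :
    ap w s h k T = fun x => ∑ a ∈ cells k ×ˢ (Finset.univ : Finset (Finset (Fin 3))),
      sg a.2 * (w x * pex (T a.1) x *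
        oct (fun i => if i ∈ a.2 then cc s h k a.1 i else cc s h k a.1 i + h / 2 ^ k) x) := by
  funext x
  unfold ap
  rw [Finset.sum_product]
  refine Finset.sum_congr rfl fun q _ => ?_
  rw [box_oct, Finset.mul_sum]
  refine Finset.sum_congr rfl fun t _ => ?_
  ring

lemma measurable_ap {w : E 3 → ℂ} (hw : Measurable w) (s : Fin 3 → ℝ) (h : ℝ) (k : ℕ)
    (T : (Fin 3 → ℕ) → MvPolynomial (Fin 3) ℝ) : Measurable (ap w s h k T) := by
  unfold ap
  refine Finset.measurable_sum _ fun q _ => ?_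
  exact (hw.mul (measurable_pex _)).mul (Complex.measurable_ofReal.comp (measurable_box _ _))

lemma norm_ap_le {w : E 3 → ℂ} (hw1 : ∀ x, ‖w x‖ ≤ 1) (s : Fin 3 → ℝ) {h : ℝ} (hh : 0 ≤ h) (k : ℕ)
    (T : (Fin 3 → ℕ) → MvPolynomial (Fin 3) ℝ) (x : E 3) : ‖ap w s h k T x‖ ≤ 1 := by
  have hh' : 0 ≤ h / 2 ^ k := by positivity
  unfold ap
  calc ‖∑ q ∈ cells k, w x * pex (T q) x * ((box (cc s h k q) (h / 2 ^ k) x : ℝ) : ℂ)‖
      ≤ ∑ q ∈ cells k, box (cc s h k q) (h / 2 ^ k) x := by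
        refine norm_sum_le_of_le _ fun q _ => ?_
        rw [norm_mul, norm_mul, norm_pex, mul_one, Complex.norm_real,
          Real.norm_of_nonneg (box_nonneg _ hh' x)]
        exact mul_le_of_le_one_left (box_nonneg _ hh' x) (hw1 x)
    _ = box s h x := (box_cells s h k x).symm
    _ ≤ 1 := box_le_one s hh x

lemma ap_error {w : E 3 → ℂ} (hw1 : ∀ x, ‖w x‖ ≤ 1) (s : Fin 3 → ℝ) {h : ℝ} (hh : 0 ≤ h) (k : ℕ)
    (T : (Fin 3 → ℕ) → MvPolynomial (Fin 3) ℝ) (φ : E 3 → ℝ) (x : E 3) {ε : ℝ} (hε : 0 ≤ ε)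
    (herr : ∀ q ∈ cells k, w x ≠ 0 → box (cc s h k q) (h / 2 ^ k) x ≠ 0 →
      |φ x - eval (fun i => x i) (T q)| ≤ ε) :
    ‖ap w s h k T x - w x * Complex.exp ((φ x : ℂ) * Complex.I) * ((box s h x : ℝ) : ℂ)‖ ≤ ε := by
  have hh' : 0 ≤ h / 2 ^ k := by positivity
  have e1 : ap w s h k T x - w x * Complex.exp ((φ x : ℂ) * Complex.I) * ((box s h x : ℝ) : ℂ) =
      ∑ q ∈ cells k, w x * (pex (T q) x - Complex.exp ((φ x : ℂ) * Complex.I)) *
        ((box (cc s h k q) (h / 2 ^ k) x : ℝ) : ℂ) := by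
    rw [box_cells s h k x]
    unfold ap
    push_cast
    rw [Finset.mul_sum, ← Finset.sum_sub_distrib]
    refine Finset.sum_congr rfl fun q _ => ?_
    ring
  rw [e1]
  calc _ ≤ ∑ q ∈ cells k, ε * box (cc s h k q) (h / 2 ^ k) x := by
        refine norm_sum_le_of_le _ fun q hq => ?_
        by_cases hw0 : w x = 0
        · rw [hw0]
          simp only [zero_mul, norm_zero]
          exact mul_nonneg hε (box_nonneg _ hh' x)
        by_cases hb0 : box (cc s h k q) (h / 2 ^ k) x = 0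
        · rw [hb0]; simp
        rw [norm_mul, norm_mul, Complex.norm_real, Real.norm_of_nonneg (box_nonneg _ hh' x)]
        refine mul_le_mul_of_nonneg_right ?_ (box_nonneg _ hh' x)
        have h1 := norm_exp_sub_le (eval (fun i => x i) (T q)) (φ x)
        rw [abs_sub_comm] at h1
        calc ‖w x‖ * ‖pex (T q) x - Complex.exp ((φ x : ℂ) * Complex.I)‖ ≤ 1 * ε :=
              mul_le_mul (hw1 x) (h1.trans (herr q hq hw0 hb0)) (norm_nonneg _) zero_le_one
          _ = ε := one_mul _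
    _ = ε * box s h x := by rw [← Finset.mul_sum, ← box_cells]
    _ ≤ ε := mul_le_of_le_one_right hε (box_le_one s hh x)

/-- **The estimate with loss on one cube.** -/
theorem local_loss (cls : (E 3 → ℂ) → Prop)
    (hcls : ∀ w, cls w → Measurable w ∧ ∀ x, ‖w x‖ ≤ 1)
    (H : ∀ (A : ℕ) (p : ℝ), 3 < p → ∃ C : ℝ≥0∞, C ≠ ∞ ∧ ∀ (w : E 3 → ℂ)
      (T : MvPolynomial (Fin 3) ℝ) (s : Fin 3 → ℝ), cls w → T.totalDegree ≤ A →
        ∫⁻ ξ, ‖extn (fun x => w x * pex T x * oct s x) ξ‖ₑ ^ p ≤ C)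
    (A : ℕ) (p : ℝ) (hKp : 9 < ((A + 1 : ℕ) : ℝ) * (p - 3)) :
    ∃ C : ℝ≥0∞, C ≠ ∞ ∧ ∀ (φ : E 3 → ℝ) (Λ : ℝ) (w : E 3 → ℂ) (s : Fin 3 → ℝ) (h : ℝ), cls w →
      Measurable φ → 1 ≤ Λ → 0 ≤ h →
      (∀ (k : ℕ) (q : Fin 3 → ℕ), q ∈ cells k → ∃ T : MvPolynomial (Fin 3) ℝ, T.totalDegree ≤ A ∧
        ∀ x : E 3, ‖x‖ = 1 → w x ≠ 0 → box (cc s h k q) (h / 2 ^ k) x ≠ 0 →
          |φ x - eval (fun i => x i) T| ≤ Λ * ((2:ℝ) ^ (k * (A + 1)))⁻¹) →
      ∫⁻ ξ, ‖extn (fun x => w x * Complex.exp ((φ x : ℂ) * Complex.I) * ((box s h x : ℝ) : ℂ)) ξ‖ₑ ^ p ≤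
        C * ENNReal.ofReal (Λ ^ (3 * p / (A + 1 : ℕ))) := by
  have hK : 1 ≤ A + 1 := by omega
  have hK0 : (0:ℝ) < (A + 1 : ℕ) := by exact_mod_cast hK
  have hp : 3 < p := by
    by_contra hcon
    have : ((A + 1 : ℕ) : ℝ) * (p - 3) ≤ 0 := mul_nonpos_of_nonneg_of_nonpos hK0.le (by linarith)
    linarith
  -- the exponent `p1`
  set q0 : ℝ := ((A + 1 : ℕ) : ℝ) * p / ((A + 1 : ℕ) + 3) with hq0
  have hq3 : 3 < q0 := by
    rw [hq0, lt_div_iff₀ (by positivity)]
    linarith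
  set p1 : ℝ := (3 + q0) / 2 with hp1
  have h31 : 3 < p1 := by rw [hp1]; linarith
  have h1q : p1 < q0 := by rw [hp1]; linarith
  have hcond : 3 * p1 < ((A + 1 : ℕ) : ℝ) * (p - p1) := by
    rw [hq0, lt_div_iff₀ (by positivity)] at h1q
    linarith
  have h1p : p1 < p := by
    by_contra hcon
    have : ((A + 1 : ℕ) : ℝ) * (p - p1) ≤ 0 := mul_nonpos_of_nonneg_of_nonpos hK0.le (by linarith)
    linarith
  obtain ⟨Ca, hCa, Ha⟩ := H A p1 h31
  obtain ⟨Cb, hCb, Hb⟩ := H A p hp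
  obtain ⟨C, hC, key⟩ := tele_fix (μ := (volume : Measure (E 3))) (p1 := p1) (p := p) (A + 1) hK
    (by linarith) h1p hcond ((sm 3).real univ) (8 * (Ca ^ (1 / p1)).toReal)
    (8 * (Cb ^ (1 / p)).toReal) (by positivity) (by positivity) (by positivity)
  refine ⟨C, hC, fun φ Λ w s h hw hφm hΛ hh happ => ?_⟩
  obtain ⟨hwm, hw1⟩ := hcls w hw
  choose! T hTd hTe using happ
  -- outside the index set the polynomial is irrelevant
  set T' : ℕ → (Fin 3 → ℕ) → MvPolynomial (Fin 3) ℝ := fun k q => if q ∈ cells k then T k q else 0 with hT'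
  have hdeg : ∀ k q, (T' k q).totalDegree ≤ A := by
    intro k q
    rw [hT']
    simp only
    split_ifs with hq
    · exact hTd k q hq
    · simp
  have hnorm : ∀ (q : ℝ) (_ : 3 < q) (C0 : ℝ≥0∞), C0 ≠ ∞ → (∀ (w : E 3 → ℂ)
      (T : MvPolynomial (Fin 3) ℝ) (s : Fin 3 → ℝ), cls w → T.totalDegree ≤ A →
        ∫⁻ ξ, ‖extn (fun x => w x * pex T x * oct s x) ξ‖ₑ ^ q ≤ C0) → ∀ k,
      eLpNorm' (extn (ap w s h k (T' k))) q volume ≤
        ENNReal.ofReal (8 * (C0 ^ (1 / q)).toReal * 8 ^ k) := by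
    intro q hq C0 hC0 h0 k
    have h1 := eLp_fsum (cells k ×ˢ (Finset.univ : Finset (Finset (Fin 3)))) (fun a => sg a.2)
      (fun a => (norm_sg a.2).le)
      (fun a x => w x * pex (T' k a.1) x *
        oct (fun i => if i ∈ a.2 then cc s h k a.1 i else cc s h k a.1 i + h / 2 ^ k) x)
      (fun a => (hwm.mul (measurable_pex _)).mul (measurable_oct _))
      (fun a x => by
        rw [norm_mul, norm_mul, norm_pex, mul_one]
        exact mul_le_one₀ (hw1 x) (norm_nonneg _) (norm_oct_le _ _))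
      (p := q) (by linarith) (C := C0) (fun a => h0 w _ _ hw (hdeg k a.1))
    rw [← ap_eq] at h1
    refine h1.trans (le_of_eq ?_)
    have h2 : C0 ^ (1 / q) ≠ ∞ := ENNReal.rpow_ne_top_of_nonneg (by positivity) hC0
    rw [mul_right_comm, ENNReal.ofReal_mul (by positivity), ENNReal.ofReal_toReal h2]
    congr 1
    rw [← ENNReal.ofReal_natCast]
    congr 1
    rw [Finset.card_product, card_cells]
    simp [mul_comm]
  refine key _ (fun k => extn (ap w s h k (T' k))) Λ hΛ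
    (fun k => measurable_extn' (measurable_ap hwm s h k _)) (fun k ξ => ?_)
    (hnorm p1 h31 Ca hCa Ha) (hnorm p hp Cb hCb Hb)
  have h5 := norm_extn_sub_le (n := 3) (g := ap w s h k (T' k))
    (h := fun x => w x * Complex.exp ((φ x : ℂ) * Complex.I) * ((box s h x : ℝ) : ℂ))
    (measurable_ap hwm s h k _)
    ((hwm.mul (by fun_prop)).mul (Complex.measurable_ofReal.comp (measurable_box s h))) (K := 1)
    (fun x => norm_ap_le hw1 s hh k _ x) (fun x => by
      rw [norm_mul, norm_mul, Complex.norm_exp_ofReal_mul_I, mul_one]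
      exact mul_le_one₀ (hw1 x) (norm_nonneg _) (norm_box_le s hh x))
    (M := Λ * ((2:ℝ) ^ (k * (A + 1)))⁻¹) (fun x hx => by
      refine ap_error hw1 s hh k (T' k) φ x (by positivity) fun q hq hw0 hb0 => ?_
      have e : T' k q = T k q := by
        rw [hT']
        simp only
        exact if_pos hq
      rw [e]
      exact hTe k q hq x hx hw0 hb0) ξ
  refine h5.trans (le_of_eq ?_)
  ring

end Pool.Agent.VAN.SP
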