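import Pool.Agent.VAN.SP1
import Pool.Agent.VAN.SP2

/-!
Whitney cubes at a point: Taylor polynomials and the norm of one piece.
-/

set_option autoImplicit false

namespace Pool.Agent.VAN.SP

open MeasureTheory Set MvPolynomial Pool.Agent.MP_6cbfb8_an Filter Topology
open scoped ENNReal Real

/-- the Taylor polynomial of degree `A` at `x0` -/
noncomputable def TP (F : E 3 → ℝ) (A : ℕ) (x0 : E 3) : MvPolynomial (Fin 3) ℝ :=
  ∑ k ∈ Finset.range (A + 1), C ((k.factorial : ℝ)⁻¹) * mpoly k (iteratedFDeriv ℝ k F x0) x0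

lemma TP_deg (F : E 3 → ℝ) (A : ℕ) (x0 : E 3) : (TP F A x0).totalDegree ≤ A := by
  refine totalDegree_finsetSum_le fun k hk => ?_
  refine (totalDegree_mul _ _).trans ?_
  rw [totalDegree_C, zero_add]
  exact (mpoly_deg _ _ _).trans (Nat.lt_succ_iff.1 (Finset.mem_range.1 hk))

/-- Taylor's formula along a segment -/
theorem TP_err (F : E 3 → ℝ) (A : ℕ) (x0 x : E 3) (L : ℝ)
    (hF : ∀ t ∈ Icc (0:ℝ) 1, ContDiffAt ℝ (A + 1 : ℕ) F (x0 + t • (x - x0)))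
    (hL : ∀ t ∈ Icc (0:ℝ) 1, ‖iteratedFDeriv ℝ (A + 1) F (x0 + t • (x - x0))‖ ≤ L) :
    |F x - eval (fun i => x i) (TP F A x0)| ≤ L * ‖x - x0‖ ^ (A + 1) := by
  have h1 := map_add_eq_sum_add_integral_iteratedFDeriv (f := F) (x := x0) (y := x - x0) (n := A)
    (fun t ht => (hF t ht).of_le (by norm_cast))
  rw [add_sub_cancel] at h1
  have h2 : eval (fun i => x i) (TP F A x0) =
      ∑ k ∈ Finset.range (A + 1), (k.factorial : ℝ)⁻¹ •
        (iteratedFDeriv ℝ k F x0 fun _ => x - x0) := by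
    unfold TP
    rw [map_sum]
    refine Finset.sum_congr rfl fun k _ => ?_
    rw [map_mul, eval_C, eval_mpoly, smul_eq_mul]
  rw [h2, h1, add_sub_cancel_left]
  have h3 : ‖∫ t in (0:ℝ)..1, (1 - t) ^ A • iteratedFDeriv ℝ (A + 1) F (x0 + t • (x - x0))
      (fun _ => x - x0)‖ ≤ L * ‖x - x0‖ ^ (A + 1) * |1 - 0| := by
    refine intervalIntegral.norm_integral_le_of_norm_le_const fun t ht => ?_
    rw [uIoc_of_le zero_le_one] at ht
    rw [norm_smul]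
    have e1 : ‖(1 - t) ^ A‖ ≤ 1 := by
      rw [norm_pow, Real.norm_eq_abs, abs_of_nonneg (by linarith [ht.2])]
      exact pow_le_one₀ (by linarith [ht.2]) (by linarith [ht.1])
    have e2 := (iteratedFDeriv ℝ (A + 1) F (x0 + t • (x - x0))).le_opNorm (fun _ => x - x0)
    rw [Finset.prod_const, Finset.card_univ, Fintype.card_fin] at e2
    have e3 : ‖iteratedFDeriv ℝ (A + 1) F (x0 + t • (x - x0))‖ ≤ L := hL t ⟨ht.1.le, ht.2⟩
    calc _ ≤ 1 * (L * ‖x - x0‖ ^ (A + 1)) := by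
          refine mul_le_mul e1 (e2.trans ?_) (norm_nonneg _) zero_le_one
          exact mul_le_mul_of_nonneg_right e3 (by positivity)
      _ = _ := one_mul _
  rw [smul_eq_mul, abs_mul]
  have h4 : |((A.factorial : ℝ))⁻¹| ≤ 1 := by
    rw [abs_of_nonneg (by positivity)]
    exact inv_le_one_of_one_le₀ (by exact_mod_cast Nat.succ_le_of_lt (Nat.factorial_pos A))
  rw [Real.norm_eq_abs] at h3
  calc _ ≤ 1 * (L * ‖x - x0‖ ^ (A + 1) * |1 - 0|) :=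
        mul_le_mul h4 h3 (abs_nonneg _) zero_le_one
    _ = _ := by simp

lemma norm_le_of_coord {x : E 3} {c : ℝ} (hc : 0 ≤ c) (h : ∀ i, |x i| ≤ c) : ‖x‖ ≤ 2 * c := by
  have h5 : ‖x‖ ^ 2 ≤ 3 * c ^ 2 := by
    rw [EuclideanSpace.norm_sq_eq, Fin.sum_univ_three]
    have h6 : ∀ i, ‖x i‖ ^ 2 ≤ c ^ 2 := fun i => by
      rw [Real.norm_eq_abs]
      exact pow_le_pow_left₀ (abs_nonneg _) (h i) 2
    linarith [h6 0, h6 1, h6 2]
  nlinarith [norm_nonneg x]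

lemma coord_le_norm (x : E 3) (i : Fin 3) : |x i| ≤ ‖x‖ := by
  rw [← Real.norm_eq_abs]
  exact PiLp.norm_apply_le x i

/-- Taylor polynomials on the cells of a cube which does not meet the point `e`. -/
theorem cell_taylor {A : ℕ} {φ : E 3 → ℝ} {e : E 3} {V : Set (E 3)} (hV : Convex ℝ V) {w : E 3 → ℂ}
    (hwV : ∀ x, w x ≠ 0 → x ∈ V) {L δ : ℝ} (hδ : 0 ≤ δ) (hL : 0 ≤ L)
    (hφ : ∀ x, ‖x‖ ≤ 1 → x ∈ V → x ≠ e → ContDiffAt ℝ (A + 1 : ℕ) φ x ∧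
      ‖iteratedFDeriv ℝ (A + 1) φ x‖ ≤ L * ‖x - e‖ ^ (-((1 + δ) * ((A + 1 : ℕ) : ℝ))))
    {s : Fin 3 → ℝ} {h : ℝ} (hh : 0 < h)
    (hs : ∀ y : E 3, (∀ i, s i ≤ y i ∧ y i ≤ s i + h) → h ≤ ‖y - e‖) (k : ℕ) (q : Fin 3 → ℕ)
    (hq : q ∈ cells k) : ∃ T : MvPolynomial (Fin 3) ℝ, T.totalDegree ≤ A ∧
        ∀ x : E 3, ‖x‖ = 1 → w x ≠ 0 → box (cc s h k q) (h / 2 ^ k) x ≠ 0 →
          |φ x - eval (fun i => x i) T| ≤
            (2 ^ (A + 1) * L * h ^ (-(δ * ((A + 1 : ℕ) : ℝ)))) * ((2:ℝ) ^ (k * (A + 1)))⁻¹ := by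
  by_cases hex : ∃ x0 : E 3, ‖x0‖ = 1 ∧ w x0 ≠ 0 ∧ box (cc s h k q) (h / 2 ^ k) x0 ≠ 0
  swap
  · refine ⟨0, by simp, fun x h1 h2 h3 => (hex ⟨x, h1, h2, h3⟩).elim⟩
  obtain ⟨x0, hx0, hwx0, hbx0⟩ := hex
  have hh' : 0 ≤ h / 2 ^ k := by positivity
  -- points of the cell are in the cube
  have hcube : ∀ x : E 3, box (cc s h k q) (h / 2 ^ k) x ≠ 0 → ∀ i, s i < x i ∧ x i ≤ s i + h := by
    intro x hx
    have h1 : box s h x ≠ 0 := by
      rw [box_cells s h k x]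
      refine ne_of_gt ?_
      refine lt_of_lt_of_le (lt_of_le_of_ne (box_nonneg _ hh' x) hx.symm)
        (Finset.single_le_sum (f := fun q => box (cc s h k q) (h / 2 ^ k) x)
          (fun q _ => box_nonneg _ hh' x) hq)
    exact fun i => box_mem hh.le h1 i
  refine ⟨TP φ A x0, TP_deg _ _ _, fun x hx hwx hbx => ?_⟩
  have hseg : ∀ t ∈ Icc (0:ℝ) 1, ContDiffAt ℝ (A + 1 : ℕ) φ (x0 + t • (x - x0)) ∧
      ‖iteratedFDeriv ℝ (A + 1) φ (x0 + t • (x - x0))‖ ≤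
        L * h ^ (-((1 + δ) * ((A + 1 : ℕ) : ℝ))) := by
    intro t ht
    have hy1 : ‖x0 + t • (x - x0)‖ ≤ 1 := by
      have := (convex_closedBall (0 : E 3) 1).add_smul_sub_mem
        (mem_closedBall_zero_iff.2 hx0.le) (mem_closedBall_zero_iff.2 hx.le) ht
      exact mem_closedBall_zero_iff.1 this
    have hyV : x0 + t • (x - x0) ∈ V := hV.add_smul_sub_mem (hwV _ hwx0) (hwV _ hwx) ht
    have hyc : ∀ i, s i ≤ (x0 + t • (x - x0)) i ∧ (x0 + t • (x - x0)) i ≤ s i + h := by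
      intro i
      have h1 := hcube x0 hbx0 i
      have h2 := hcube x hbx i
      have h3 : (x0 + t • (x - x0)) i = x0 i + t * (x i - x0 i) := rfl
      rw [h3]
      constructor
      · nlinarith [ht.1, ht.2, h1.1, h2.1]
      · nlinarith [ht.1, ht.2, h1.2, h2.2]
    have hye := hs _ hyc
    have hne : x0 + t • (x - x0) ≠ e := by
      intro h1
      rw [h1, sub_self, norm_zero] at hye
      linarith
    obtain ⟨h1, h2⟩ := hφ _ hy1 hyV hne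
    refine ⟨h1, h2.trans (mul_le_mul_of_nonneg_left ?_ hL)⟩
    refine Real.rpow_le_rpow_of_nonpos hh hye ?_
    have : (0:ℝ) ≤ ((A + 1 : ℕ) : ℝ) := Nat.cast_nonneg _
    have : 0 ≤ (1 + δ) * ((A + 1 : ℕ) : ℝ) := by positivity
    linarith
  have herr := TP_err φ A x0 x _ (fun t ht => (hseg t ht).1) (fun t ht => (hseg t ht).2)
  have hd : ‖x - x0‖ ≤ 2 * (h / 2 ^ k) := by
    refine norm_le_of_coord hh' fun i => ?_
    have h1 := box_mem hh' hbx0 i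
    have h2 := box_mem hh' hbx i
    have h3 : (x - x0) i = x i - x0 i := rfl
    rw [h3, abs_le]
    constructor <;> linarith [h1.1, h1.2, h2.1, h2.2]
  refine herr.trans ?_
  have h4 : ‖x - x0‖ ^ (A + 1) ≤ 2 ^ (A + 1) * h ^ ((A + 1 : ℕ) : ℝ) * ((2:ℝ) ^ (k * (A + 1)))⁻¹ := by
    refine (pow_le_pow_left₀ (norm_nonneg _) hd _).trans (le_of_eq ?_)
    rw [Real.rpow_natCast, mul_pow, div_pow, ← pow_mul]
    ring
  have h5 : h ^ (-((1 + δ) * ((A + 1 : ℕ) : ℝ))) * h ^ ((A + 1 : ℕ) : ℝ) =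
      h ^ (-(δ * ((A + 1 : ℕ) : ℝ))) := by
    rw [← Real.rpow_add hh]
    congr 1
    ring
  calc L * h ^ (-((1 + δ) * ((A + 1 : ℕ) : ℝ))) * ‖x - x0‖ ^ (A + 1)
      ≤ L * h ^ (-((1 + δ) * ((A + 1 : ℕ) : ℝ))) *
        (2 ^ (A + 1) * h ^ ((A + 1 : ℕ) : ℝ) * ((2:ℝ) ^ (k * (A + 1)))⁻¹) := by gcongr
    _ = (2 ^ (A + 1) * L * (h ^ (-((1 + δ) * ((A + 1 : ℕ) : ℝ))) * h ^ ((A + 1 : ℕ) : ℝ))) *
        ((2:ℝ) ^ (k * (A + 1)))⁻¹ := by ring
    _ = _ := by rw [h5]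

/-- The sup norm of a piece near `e`. -/
lemma sup_piece {K0 : ℝ} (hK0 : 0 ≤ K0)
    (hcap : ∀ e : E 3, ‖e‖ = 1 → ∀ r : ℝ, 0 ≤ r →
      sm 3 {x : S 3 | ‖(x : E 3) - e‖ ≤ r} ≤ ENNReal.ofReal (K0 * r ^ 2)) {e : E 3} (he : ‖e‖ = 1)
    {g : E 3 → ℂ} (hb : ∀ x, ‖g x‖ ≤ 1) {r : ℝ} (hr : 0 ≤ r)
    (hsupp : ∀ x, ‖x‖ = 1 → g x ≠ 0 → ‖x - e‖ ≤ r) (ξ : E 3) : ‖extn g ξ‖ ≤ K0 * r ^ 2 := by
  have hA : MeasurableSet {x : S 3 | ‖(x : E 3) - e‖ ≤ r} :=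
    measurableSet_le (by fun_prop) measurable_const
  have h1 : ‖extn g ξ‖ₑ ≤ ENNReal.ofReal (K0 * r ^ 2) := by
    refine le_trans ?_ (hcap e he r hr)
    unfold extn
    refine (enorm_integral_le_lintegral_enorm _).trans ?_
    rw [← lintegral_indicator_one hA]
    refine lintegral_mono fun x => ?_
    simp only
    by_cases h2 : ‖(x : E 3) - e‖ ≤ r
    · rw [indicator_of_mem (show x ∈ {x : S 3 | ‖(x : E 3) - e‖ ≤ r} from h2)]
      rw [← ofReal_norm, norm_mul, Complex.norm_exp_ofReal_mul_I, mul_one]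
      exact ENNReal.ofReal_le_one.2 (hb _)
    · have h3 : g x = 0 := by
        by_contra h4
        exact h2 (hsupp x (mem_sphere_zero_iff_norm.1 x.2) h4)
      rw [h3]
      simp
  rw [← ofReal_norm] at h1
  exact (ENNReal.ofReal_le_ofReal_iff (by positivity)).1 h1

end Pool.Agent.VAN.SP
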