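import Pool.Agent.VAN.SP3

/-!
Phases of class `C^K` off one point, with power type singularities at the point.
-/

set_option autoImplicit false

namespace Pool.Agent.VAN.SP

open MeasureTheory Set MvPolynomial Pool.Agent.MP_6cbfb8_an Filter Topology
open scoped ENNReal Real

/-- The indices of the Whitney cubes of one generation. -/
def good : Finset (Fin 3 → ℕ) :=
  (Fintype.piFinset fun _ : Fin 3 => Finset.range 4) \ Fintype.piFinset fun _ : Fin 3 => {1, 2}

lemma card_good_le : good.card ≤ 64 := by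
  unfold good
  refine (Finset.card_le_card Finset.sdiff_subset).trans ?_
  rw [Fintype.card_piFinset]
  simp

lemma shell_sum (u : Fin 3 → ℝ) (h : ℝ) (x : E 3) :
    box u (4 * h) x - box (fun i => u i + h) (2 * h) x =
      ∑ a ∈ good, box (fun i => u i + (a i : ℝ) * h) h x := by
  have h1 : box u (4 * h) x = ∑ a ∈ Fintype.piFinset (fun _ : Fin 3 => Finset.range 4),
      box (fun i => u i + (a i : ℝ) * h) h x := by
    have h2 := box_sum u (4 * h) 4 (by norm_num) x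
    have h3 : 4 * h / ((4 : ℕ) : ℝ) = h := by push_cast; field_simp
    rw [h3] at h2
    exact h2
  have h2 : box (fun i => u i + h) (2 * h) x = ∑ a ∈ Fintype.piFinset (fun _ : Fin 3 => ({1, 2} : Finset ℕ)),
      box (fun i => u i + (a i : ℝ) * h) h x := by
    unfold box
    rw [← Finset.prod_univ_sum (fun _ : Fin 3 => ({1, 2} : Finset ℕ))
      (fun i (m : ℕ) => J (u i + (m : ℝ) * h) (x i) - J (u i + (m : ℝ) * h + h) (x i))]
    refine Finset.prod_congr rfl fun i _ => ?_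
    rw [Finset.sum_pair (by norm_num)]
    have e1 : u i + ((1 : ℕ) : ℝ) * h = u i + h := by push_cast; ring
    have e2 : u i + ((2 : ℕ) : ℝ) * h = u i + h + h := by push_cast; ring
    have e3 : u i + h + 2 * h = u i + h + h + h := by ring
    rw [e1, e2, e3]
    ring
  have hsub : (Fintype.piFinset fun _ : Fin 3 => ({1, 2} : Finset ℕ)) ⊆
      Fintype.piFinset fun _ : Fin 3 => Finset.range 4 := by
    refine Fintype.piFinset_subset _ _ fun _ => ?_
    intro m hm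
    simp only [Finset.mem_insert, Finset.mem_singleton] at hm
    rw [Finset.mem_range]
    omega
  rw [h1, h2]
  unfold good
  rw [← Finset.sum_sdiff hsub]
  ring

/-- the side of the Whitney cubes of generation `j` -/
noncomputable def hj (j : ℕ) : ℝ := 2 * (1 / 2) ^ j

lemma hj_pos (j : ℕ) : 0 < hj j := by unfold hj; positivity

/-- the lower corner of a Whitney cube at `e` -/
noncomputable def wc (e : E 3) (j : ℕ) (a : Fin 3 → ℕ) (i : Fin 3) : ℝ :=
  (e i - 2 * hj j) + (a i : ℝ) * hj j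

lemma sum_whitney (e : E 3) (N : ℕ) (x : E 3) :
    ∑ j ∈ Finset.range N, ∑ a ∈ good, box (wc e j a) (hj j) x =
      box (fun i => e i - 2 * hj 0) (4 * hj 0) x - box (fun i => e i - 2 * hj N) (4 * hj N) x := by
  induction N with
  | zero => simp
  | succ N ih =>
    rw [Finset.sum_range_succ, ih]
    have h1 := shell_sum (fun i => e i - 2 * hj N) (hj N) x
    have h2 : hj (N + 1) = hj N / 2 := by unfold hj; rw [pow_succ]; ring
    have e1 : (fun i => e i - 2 * hj N + hj N) = fun i => e i - 2 * hj (N + 1) := by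
      funext i; rw [h2]; ring
    have e2 : 2 * hj N = 4 * hj (N + 1) := by rw [h2]; ring
    rw [e1] at h1
    have h3 : box (fun i => e i - 2 * hj (N + 1)) (2 * hj N) x =
        box (fun i => e i - 2 * hj (N + 1)) (4 * hj (N + 1)) x := by rw [e2]
    rw [h3] at h1
    have h4 : ∑ a ∈ good, box (wc e N a) (hj N) x =
        ∑ a ∈ good, box (fun i => e i - 2 * hj N + (a i : ℝ) * hj N) (hj N) x := rfl
    rw [h4, ← h1]
    ring

lemma good_far {e : E 3} {j : ℕ} {a : Fin 3 → ℕ} (ha : a ∈ good) (y : E 3)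
    (hy : ∀ i, wc e j a i ≤ y i ∧ y i ≤ wc e j a i + hj j) : hj j ≤ ‖y - e‖ := by
  unfold good at ha
  rw [Finset.mem_sdiff, Fintype.mem_piFinset, Fintype.mem_piFinset] at ha
  obtain ⟨h1, h2⟩ := ha
  push Not at h2
  obtain ⟨i, hi⟩ := h2
  have h3 := h1 i
  rw [Finset.mem_range] at h3
  simp only [Finset.mem_insert, Finset.mem_singleton] at hi
  have h4 := hy i
  unfold wc at h4
  have hp := hj_pos j
  have h5 := coord_le_norm (y - e) i
  have h6 : (y - e) i = y i - e i := rfl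
  rw [h6] at h5
  have h7 : a i = 0 ∨ a i = 3 := by omega
  rcases h7 with h7 | h7
  · rw [h7] at h4
    push_cast at h4
    have := neg_abs_le (y i - e i)
    linarith [h4.2]
  · rw [h7] at h4
    push_cast at h4
    have := le_abs_self (y i - e i)
    linarith [h4.1]

lemma whitney_near {e : E 3} {j : ℕ} {a : Fin 3 → ℕ} (ha : a ∈ good) {x : E 3}
    (hx : box (wc e j a) (hj j) x ≠ 0) : ‖x - e‖ ≤ 4 * hj j := by
  have hp := hj_pos j
  have h0 : ‖x - e‖ ≤ 2 * (2 * hj j) := by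
    refine norm_le_of_coord (by positivity) fun i => ?_
    have h1 := box_mem hp.le hx i
    unfold wc at h1
    have h2 : (x - e) i = x i - e i := rfl
    unfold good at ha
    rw [Finset.mem_sdiff, Fintype.mem_piFinset] at ha
    have h3 := ha.1 i
    rw [Finset.mem_range] at h3
    have h4 : (a i : ℝ) ≤ 3 := by exact_mod_cast Nat.lt_succ_iff.1 h3
    have h5 : (0:ℝ) ≤ a i := Nat.cast_nonneg _
    rw [h2, abs_le]
    constructor
    · nlinarith [h1.1]
    · nlinarith [h1.2]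
  linarith

lemma core_near {e : E 3} {j : ℕ} {x : E 3}
    (hx : box (fun i => e i - 2 * hj j) (4 * hj j) x ≠ 0) : ‖x - e‖ ≤ 4 * hj j := by
  have hp := hj_pos j
  have h0 : ‖x - e‖ ≤ 2 * (2 * hj j) := by
    refine norm_le_of_coord (by positivity) fun i => ?_
    have h1 := box_mem (by positivity) hx i
    have h2 : (x - e) i = x i - e i := rfl
    rw [h2, abs_le]
    constructor <;> linarith [h1.1, h1.2]
  linarith

lemma core_zero {e x : E 3} (he : ‖e‖ = 1) (hx : ‖x‖ = 1) :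
    box (fun i => e i - 2 * hj 0) (4 * hj 0) x = 1 := by
  have h0 : hj 0 = 2 := by unfold hj; norm_num
  rw [h0, box_eq _ (by norm_num)]
  refine if_pos fun i => ?_
  have h1 := abs_le.1 ((coord_le_norm x i).trans hx.le)
  have h2 := abs_le.1 ((coord_le_norm e i).trans he.le)
  constructor <;> linarith [h1.1, h1.2, h2.1, h2.2]

lemma extn_congrS {g h : E 3 → ℂ} (H : ∀ x, ‖x‖ = 1 → g x = h x) : extn g = extn h := by
  funext ξ
  unfold extn
  refine integral_congr_ae (Eventually.of_forall fun x => ?_)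
  simp only
  rw [H x (mem_sphere_zero_iff_norm.1 x.2)]

/-- the arithmetic of one piece -/
lemma piece_arith {K0 p q δ L : ℝ} {K : ℕ} (hK : 0 < K) (hK0 : 0 ≤ K0) (hp : 0 < p)
    (hL : 0 ≤ L) (j : ℕ) :
    (K0 * (4 * hj j) ^ 2) ^ ((p - q) / p) *
      ((2 ^ K * (1 + L) * ((1 / 2 : ℝ) ^ j) ^ (-(δ * (K : ℝ)))) ^ (3 * q / (K : ℝ))) ^ (1 / p) =
      ((64 * K0) ^ ((p - q) / p) * ((2:ℝ) ^ K) ^ (3 * q / (K : ℝ) / p)) *
        (1 + L) ^ (3 * q / (K : ℝ) / p) *
        ((1 / 2 : ℝ) ^ ((2 * (p - q) - 3 * δ * q) / p)) ^ j := by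
  have hKr : (0:ℝ) < K := by exact_mod_cast hK
  obtain ⟨x, hx⟩ : ∃ x : ℝ, x = (1 / 2 : ℝ) ^ j := ⟨_, rfl⟩
  have hx0 : 0 < x := by rw [hx]; positivity
  have e1 : K0 * (4 * hj j) ^ 2 = 64 * K0 * x ^ (2:ℝ) := by
    unfold hj
    rw [← hx, Real.rpow_two]
    ring
  rw [e1, ← hx, Real.mul_rpow (by positivity) (by positivity), ← Real.rpow_mul hx0.le]
  rw [← Real.rpow_mul (by positivity),
    Real.mul_rpow (x := (2:ℝ) ^ K * (1 + L)) (by positivity) (by positivity),
    Real.mul_rpow (x := (2:ℝ) ^ K) (y := 1 + L) (by positivity) (by positivity),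
    ← Real.rpow_mul hx0.le]
  have e2 : 3 * q / (K : ℝ) * (1 / p) = 3 * q / (K : ℝ) / p := by ring
  rw [e2]
  have e3 : ((1 / 2 : ℝ) ^ ((2 * (p - q) - 3 * δ * q) / p)) ^ j =
      x ^ (2 * ((p - q) / p)) * x ^ (-(δ * (K : ℝ)) * (3 * q / (K : ℝ) / p)) := by
    rw [← Real.rpow_add hx0, hx, ← Real.rpow_natCast, ← Real.rpow_natCast, ← Real.rpow_mul (by norm_num),
      ← Real.rpow_mul (by norm_num)]
    congr 1
    field_simp
    ring
  rw [e3]
  ring

/-- **Phases with a power type singularity at one point**, for a general class of factors. -/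
theorem sing_cls (cls : (E 3 → ℂ) → Prop)
    (hcls : ∀ w, cls w → Measurable w ∧ ∀ x, ‖w x‖ ≤ 1)
    (H : ∀ (A : ℕ) (p : ℝ), 3 < p → ∃ C : ℝ≥0∞, C ≠ ∞ ∧ ∀ (w : E 3 → ℂ)
      (T : MvPolynomial (Fin 3) ℝ) (s : Fin 3 → ℝ), cls w → T.totalDegree ≤ A →
        ∫⁻ ξ, ‖extn (fun x => w x * pex T x * oct s x) ξ‖ₑ ^ p ≤ C)
    (A : ℕ) (p δ : ℝ) (hδ : 0 ≤ δ)
    (hKp : (3 * ((A + 1 : ℕ) : ℝ) + 9) * (2 + 3 * δ) < 2 * ((A + 1 : ℕ) : ℝ) * p) :
    ∃ C : ℝ≥0∞, C ≠ ∞ ∧ ∀ (e : E 3) (V : Set (E 3)) (w : E 3 → ℂ) (φ : E 3 → ℝ) (L : ℝ),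
      ‖e‖ = 1 → Convex ℝ V → cls w → (∀ x, w x ≠ 0 → x ∈ V) → Measurable φ → 0 ≤ L →
      (∀ x, ‖x‖ ≤ 1 → x ∈ V → x ≠ e → ContDiffAt ℝ (A + 1 : ℕ) φ x ∧
        ‖iteratedFDeriv ℝ (A + 1) φ x‖ ≤ L * ‖x - e‖ ^ (-((1 + δ) * ((A + 1 : ℕ) : ℝ)))) →
      ∫⁻ ξ, ‖extn (fun x => w x * Complex.exp ((φ x : ℂ) * Complex.I)) ξ‖ₑ ^ p ≤
        C * ENNReal.ofReal ((1 + L) ^ (3 * p / (A + 1 : ℕ))) := by
  obtain ⟨K, hKdef⟩ : ∃ K : ℕ, K = A + 1 := ⟨_, rfl⟩
  have hK : 0 < K := by omega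
  have hKr : (0:ℝ) < K := by exact_mod_cast hK
  rw [← hKdef] at hKp ⊢
  -- the exponent `q`
  obtain ⟨q0, hq0⟩ : ∃ q0 : ℝ, q0 = 3 + 9 / K := ⟨_, rfl⟩
  obtain ⟨q1, hq1⟩ : ∃ q1 : ℝ, q1 = 2 * p / (2 + 3 * δ) := ⟨_, rfl⟩
  have hd : 0 < 2 + 3 * δ := by positivity
  have h01 : q0 < q1 := by
    rw [hq0, hq1, lt_div_iff₀ hd]
    have h1 : (3 + 9 / (K:ℝ)) * (2 + 3 * δ) * K = (3 * K + 9) * (2 + 3 * δ) := by
      field_simp
    have h2 : (3 + 9 / (K:ℝ)) * (2 + 3 * δ) * K < 2 * p * K := by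
      rw [h1]; linarith
    exact lt_of_mul_lt_mul_right h2 hKr.le
  obtain ⟨q, hq⟩ : ∃ q : ℝ, q = (q0 + q1) / 2 := ⟨_, rfl⟩
  have hq0q : q0 < q := by rw [hq]; linarith
  have hqq1 : q < q1 := by rw [hq]; linarith
  have h9 : 0 < 9 / (K:ℝ) := by positivity
  have hq3 : 3 < q := by linarith
  have hKq : 9 < (K:ℝ) * (q - 3) := by
    have h1 : 9 / (K:ℝ) < q - 3 := by linarith
    rw [div_lt_iff₀ hKr] at h1
    linarith
  have hq2 : q * (2 + 3 * δ) < 2 * p := by
    rw [hq1, lt_div_iff₀ hd] at hqq1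
    exact hqq1
  have hδq : 0 ≤ δ * q := by positivity
  have hqp : q < p := by nlinarith
  have hγ : 0 < (2 * (p - q) - 3 * δ * q) / p := div_pos (by nlinarith) (by linarith)
  have hp : 0 < p := by linarith
  have hq' : 0 < q := by linarith
  obtain ⟨r, hr⟩ : ∃ r : ℝ, r = (1 / 2 : ℝ) ^ ((2 * (p - q) - 3 * δ * q) / p) := ⟨_, rfl⟩
  have hr0 : 0 ≤ r := by rw [hr]; positivity
  have hr1 : r < 1 := by
    rw [hr]
    exact Real.rpow_lt_one (by norm_num) (by norm_num) hγ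
  obtain ⟨Cq, hCq, hloc⟩ := local_loss cls hcls H A q (by rw [← hKdef]; exact hKq)
  obtain ⟨K0, hK0, hcap⟩ := sm_cap_le
  obtain ⟨D, hD⟩ : ∃ D : ℝ, D = (64 * K0) ^ ((p - q) / p) * ((2:ℝ) ^ K) ^ (3 * q / (K : ℝ) / p) :=
    ⟨_, rfl⟩
  have hD0 : 0 ≤ D := by rw [hD]; positivity
  have hCq' : Cq ^ (1 / p) ≠ ∞ := ENNReal.rpow_ne_top_of_nonneg (by positivity) hCq
  refine ⟨(64 * Cq ^ (1 / p) * ENNReal.ofReal (D * (1 - r)⁻¹)) ^ p,
    ENNReal.rpow_ne_top_of_nonneg hp.le (ENNReal.mul_ne_top (ENNReal.mul_ne_top (by norm_num) hCq')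
      ENNReal.ofReal_ne_top), ?_⟩
  intro e V w φ L he hV hw hwV hφm hL hφ
  obtain ⟨hwm, hw1⟩ := hcls w hw
  have hφ' := hφ
  rw [hKdef] at hφ'
  have hem : Measurable fun x => w x * Complex.exp ((φ x : ℂ) * Complex.I) := hwm.mul (by fun_prop)
  have hem1 : ∀ x, ‖w x * Complex.exp ((φ x : ℂ) * Complex.I)‖ ≤ 1 := fun x => by
    rw [norm_mul, Complex.norm_exp_ofReal_mul_I, mul_one]
    exact hw1 x
  -- the pieces
  have hpm : ∀ (s : Fin 3 → ℝ) (h : ℝ), Measurable fun x =>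
      w x * Complex.exp ((φ x : ℂ) * Complex.I) * ((box s h x : ℝ) : ℂ) := fun s h =>
    hem.mul (Complex.measurable_ofReal.comp (measurable_box s h))
  have hp1 : ∀ (s : Fin 3 → ℝ) (h : ℝ), 0 ≤ h → ∀ x,
      ‖w x * Complex.exp ((φ x : ℂ) * Complex.I) * ((box s h x : ℝ) : ℂ)‖ ≤ 1 := fun s h hh x => by
    rw [norm_mul]
    exact mul_le_one₀ (hem1 x) (norm_nonneg _) (norm_box_le s hh x)
  have hpiece : ∀ (j : ℕ) (a : Fin 3 → ℕ), a ∈ good →
      eLpNorm' (extn fun x => w x * Complex.exp ((φ x : ℂ) * Complex.I) *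
        ((box (wc e j a) (hj j) x : ℝ) : ℂ)) p volume ≤
        Cq ^ (1 / p) * ENNReal.ofReal (D * (1 + L) ^ (3 * q / (K : ℝ) / p) * r ^ j) := by
    intro j a ha
    have hh := hj_pos j
    obtain ⟨Λ, hΛ⟩ : ∃ Λ : ℝ, Λ = 2 ^ K * (1 + L) * ((1 / 2 : ℝ) ^ j) ^ (-(δ * (K : ℝ))) := ⟨_, rfl⟩
    have hx0 : (0:ℝ) < (1 / 2) ^ j := by positivity
    have hx1 : ((1:ℝ) / 2) ^ j ≤ 1 := pow_le_one₀ (by norm_num) (by norm_num)
    have hy1 : (1:ℝ) ≤ ((1 / 2 : ℝ) ^ j) ^ (-(δ * (K : ℝ))) :=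
      Real.one_le_rpow_of_pos_of_le_one_of_nonpos hx0 hx1 (by
        have : 0 ≤ δ * (K:ℝ) := by positivity
        linarith)
    have h2K : (1:ℝ) ≤ 2 ^ K := one_le_pow₀ (by norm_num)
    have hΛ1 : 1 ≤ Λ := by
      rw [hΛ]
      have h1 : (1:ℝ) ≤ 2 ^ K * (1 + L) := by nlinarith
      nlinarith
    have hbound : 2 ^ (A + 1) * L * hj j ^ (-(δ * ((A + 1 : ℕ) : ℝ))) ≤ Λ := by
      rw [← hKdef, hΛ]
      have h1 : hj j ^ (-(δ * (K : ℝ))) ≤ ((1 / 2 : ℝ) ^ j) ^ (-(δ * (K : ℝ))) := by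
        refine Real.rpow_le_rpow_of_nonpos hx0 ?_ (by
          have : 0 ≤ δ * (K:ℝ) := by positivity
          linarith)
        unfold hj
        linarith
      have h2 : 0 ≤ hj j ^ (-(δ * (K : ℝ))) := by positivity
      gcongr
      linarith
    have h1 := hloc φ Λ w (wc e j a) (hj j) hw hφm hΛ1 hh.le (fun k c hc => by
      obtain ⟨T, hT1, hT2⟩ := cell_taylor (A := A) (φ := φ) (e := e) hV hwV hδ hL hφ' hh
        (fun y hy => good_far ha y hy) k c hc
      refine ⟨T, hT1, fun x hx hwx hbx => (hT2 x hx hwx hbx).trans ?_⟩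
      exact mul_le_mul_of_nonneg_right hbound (by positivity))
    have hsup : ∀ ξ, ‖extn (fun x => w x * Complex.exp ((φ x : ℂ) * Complex.I) *
        ((box (wc e j a) (hj j) x : ℝ) : ℂ)) ξ‖ ≤ K0 * (4 * hj j) ^ 2 := by
      refine sup_piece hK0 hcap he (hp1 _ _ hh.le) (by positivity) fun x hx hne => ?_
      refine whitney_near ha fun h0 => hne ?_
      rw [h0]
      simp
    have h2 : eLpNorm' (extn fun x => w x * Complex.exp ((φ x : ℂ) * Complex.I) *
        ((box (wc e j a) (hj j) x : ℝ) : ℂ)) q volume ≤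
        (Cq * ENNReal.ofReal (Λ ^ (3 * q / (K : ℝ)))) ^ (1 / q) := by
      unfold eLpNorm'
      refine ENNReal.rpow_le_rpow ?_ (by positivity)
      rw [← hKdef] at h1
      exact h1
    have h3 := tele_interp (μ := (volume : Measure (E 3))) (p1 := q) (p := p) (by linarith) hqp.le
      (by positivity) _ hsup h2
    refine h3.trans (le_of_eq ?_)
    rw [← ENNReal.rpow_mul, show 1 / q * (q / p) = 1 / p by field_simp,
      ENNReal.mul_rpow_of_nonneg _ _ (by positivity),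
      ENNReal.ofReal_rpow_of_nonneg (by positivity) (by positivity)]
    rw [mul_left_comm, ← ENNReal.ofReal_mul (by positivity)]
    congr 2
    have h4 := piece_arith (q := q) (δ := δ) hK hK0 hp hL j
    rw [← hΛ, ← hD, ← hr] at h4
    exact h4
  -- the partial sums
  obtain ⟨F, hF⟩ : ∃ F : ℕ → E 3 → ℂ, ∀ N, F N = extn fun x => ∑ i ∈ Finset.range N ×ˢ good,
      w x * Complex.exp ((φ x : ℂ) * Complex.I) * ((box (wc e i.1 i.2) (hj i.1) x : ℝ) : ℂ) :=
    ⟨_, fun _ => rfl⟩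
  have hFm : ∀ N, Measurable (F N) := fun N => by
    rw [hF]
    exact measurable_extn' (Finset.measurable_sum _ fun i _ => hpm _ _)
  have hFn : ∀ N, eLpNorm' (F N) p volume ≤ 64 * Cq ^ (1 / p) *
      ENNReal.ofReal (D * (1 - r)⁻¹) * ENNReal.ofReal ((1 + L) ^ (3 * q / (K : ℝ) / p)) := by
    intro N
    have h1 : F N = ∑ i ∈ Finset.range N ×ˢ good, extn fun x =>
        w x * Complex.exp ((φ x : ℂ) * Complex.I) * ((box (wc e i.1 i.2) (hj i.1) x : ℝ) : ℂ) := by
      rw [hF]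
      funext ξ
      rw [Finset.sum_apply]
      exact extn_fsum _ (fun (i : ℕ × (Fin 3 → ℕ)) x => w x * Complex.exp ((φ x : ℂ) * Complex.I) *
        ((box (wc e i.1 i.2) (hj i.1) x : ℝ) : ℂ)) (fun i => hpm _ _) 1
        (fun i x => hp1 _ _ (hj_pos i.1).le x) ξ
    rw [h1]
    refine (eLpNorm'_sum_le (fun i _ => (measurable_extn' (hpm _ _)).aestronglyMeasurable)
      (by linarith)).trans ?_
    rw [Finset.sum_product]
    calc ∑ j ∈ Finset.range N, ∑ a ∈ good, eLpNorm' (extn fun x =>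
          w x * Complex.exp ((φ x : ℂ) * Complex.I) * ((box (wc e j a) (hj j) x : ℝ) : ℂ)) p volume
        ≤ ∑ j ∈ Finset.range N, ∑ _a ∈ good, Cq ^ (1 / p) *
            ENNReal.ofReal (D * (1 + L) ^ (3 * q / (K : ℝ) / p) * r ^ j) :=
          Finset.sum_le_sum fun j _ => Finset.sum_le_sum fun a ha => hpiece j a ha
      _ ≤ ∑ j ∈ Finset.range N, 64 * (Cq ^ (1 / p) *
            ENNReal.ofReal (D * (1 + L) ^ (3 * q / (K : ℝ) / p) * r ^ j)) := by
          refine Finset.sum_le_sum fun j _ => ?_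
          rw [Finset.sum_const, nsmul_eq_mul]
          refine mul_le_mul_left ?_ _
          exact_mod_cast card_good_le
      _ = 64 * Cq ^ (1 / p) * ENNReal.ofReal (D * (1 + L) ^ (3 * q / (K : ℝ) / p) *
            ∑ j ∈ Finset.range N, r ^ j) := by
          rw [← Finset.mul_sum, ← Finset.mul_sum, ← mul_assoc]
          congr 1
          rw [Finset.mul_sum, ENNReal.ofReal_sum_of_nonneg fun j _ => by positivity]
      _ ≤ 64 * Cq ^ (1 / p) * ENNReal.ofReal (D * (1 + L) ^ (3 * q / (K : ℝ) / p) * (1 - r)⁻¹) := by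
          gcongr
          have h2 : ∑ j ∈ Finset.range N, r ^ j ≤ ∑' j : ℕ, r ^ j :=
            (summable_geometric_of_lt_one hr0 hr1).sum_le_tsum _ fun j _ => by positivity
          rwa [tsum_geometric_of_lt_one hr0 hr1] at h2
      _ = _ := by
          have h1r : 0 ≤ (1 - r)⁻¹ := inv_nonneg.2 (by linarith)
          rw [mul_assoc (64 * Cq ^ (1 / p)), ← ENNReal.ofReal_mul (by positivity)]
          congr 2
          ring
  -- the limit
  have hlim : ∀ ξ, Tendsto (fun N => F N ξ) atTop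
      (𝓝 (extn (fun x => w x * Complex.exp ((φ x : ℂ) * Complex.I)) ξ)) := by
    intro ξ
    rw [tendsto_iff_norm_sub_tendsto_zero]
    have h1 : ∀ N, ‖F N ξ - extn (fun x => w x * Complex.exp ((φ x : ℂ) * Complex.I)) ξ‖ ≤
        K0 * (4 * hj N) ^ 2 := by
      intro N
      have h2 : extn (fun x => w x * Complex.exp ((φ x : ℂ) * Complex.I)) ξ = F N ξ +
          extn (fun x => w x * Complex.exp ((φ x : ℂ) * Complex.I) *
            ((box (fun i => e i - 2 * hj N) (4 * hj N) x : ℝ) : ℂ)) ξ := by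
        have h3 : extn (fun x => w x * Complex.exp ((φ x : ℂ) * Complex.I)) =
            extn (fun x => (∑ i ∈ Finset.range N ×ˢ good,
              w x * Complex.exp ((φ x : ℂ) * Complex.I) *
                ((box (wc e i.1 i.2) (hj i.1) x : ℝ) : ℂ)) +
              w x * Complex.exp ((φ x : ℂ) * Complex.I) *
            ((box (fun i => e i - 2 * hj N) (4 * hj N) x : ℝ) : ℂ)) := by
          refine extn_congrS fun x hx => ?_
          have h4 : ((∑ i ∈ Finset.range N ×ˢ good, box (wc e i.1 i.2) (hj i.1) x : ℝ) : ℂ) +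
              ((box (fun i => e i - 2 * hj N) (4 * hj N) x : ℝ) : ℂ) = 1 := by
            rw [Finset.sum_product, sum_whitney, core_zero he hx]
            push_cast
            ring
          calc w x * Complex.exp ((φ x : ℂ) * Complex.I)
              = w x * Complex.exp ((φ x : ℂ) * Complex.I) * 1 := (mul_one _).symm
            _ = _ := by
              rw [← h4]
              push_cast
              rw [mul_add, Finset.mul_sum]
        rw [h3, hF]
        unfold extn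
        rw [← integral_add]
        · refine integral_congr_ae (Eventually.of_forall fun x => ?_)
          simp only
          ring
        · refine integrable_extn (Finset.measurable_sum _ fun i _ => hpm _ _)
            (K := ((Finset.range N ×ˢ good).card : ℝ)) (fun x => ?_) ξ
          calc _ ≤ ∑ _i ∈ Finset.range N ×ˢ good, (1:ℝ) :=
                norm_sum_le_of_le _ fun i _ => hp1 _ _ (hj_pos i.1).le x
            _ = _ := by simp
        · exact integrable_extn (hpm _ _) (K := 1) (hp1 _ _ (by have := hj_pos N; positivity)) ξ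
      rw [h2, sub_add_cancel_left, norm_neg]
      refine sup_piece hK0 hcap he (hp1 _ _ (by have := hj_pos N; positivity))
        (by have := hj_pos N; positivity) (fun x hx hne => ?_) ξ
      refine core_near fun h0 => hne ?_
      rw [h0]
      simp
    have h2 : Tendsto (fun N => K0 * (4 * hj N) ^ 2) atTop (𝓝 0) := by
      have h3 : Tendsto hj atTop (𝓝 (2 * 0)) :=
        (tendsto_pow_atTop_nhds_zero_of_lt_one (by norm_num) (by norm_num)).const_mul 2
      have h4 := ((h3.const_mul 4).pow 2).const_mul K0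
      simpa using h4
    exact squeeze_zero (fun _ => norm_nonneg _) h1 h2
  obtain ⟨Mt, hMt⟩ : ∃ Mt : ℝ≥0∞, Mt = 64 * Cq ^ (1 / p) *
      ENNReal.ofReal (D * (1 - r)⁻¹) * ENNReal.ofReal ((1 + L) ^ (3 * q / (K : ℝ) / p)) := ⟨_, rfl⟩
  have hint : ∀ N : ℕ, ∫⁻ ξ, ‖F N ξ‖ₑ ^ p ≤ Mt ^ p := by
    intro N
    have h1 := ENNReal.rpow_le_rpow (hFn N) hp.le
    rw [← hMt] at h1
    unfold eLpNorm' at h1
    rwa [← ENNReal.rpow_mul, one_div, inv_mul_cancel₀ hp.ne', ENNReal.rpow_one] at h1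
  have hfin : ∫⁻ ξ, ‖extn (fun x => w x * Complex.exp ((φ x : ℂ) * Complex.I)) ξ‖ₑ ^ p ≤ Mt ^ p := by
    have hlim' : ∀ ξ, Tendsto (fun N => ‖F N ξ‖ₑ ^ p) atTop
        (𝓝 (‖extn (fun x => w x * Complex.exp ((φ x : ℂ) * Complex.I)) ξ‖ₑ ^ p)) := fun ξ =>
      ((ENNReal.continuous_rpow_const).tendsto _).comp (hlim ξ).enorm
    calc ∫⁻ ξ, ‖extn (fun x => w x * Complex.exp ((φ x : ℂ) * Complex.I)) ξ‖ₑ ^ p
        = ∫⁻ ξ, liminf (fun N => ‖F N ξ‖ₑ ^ p) atTop := by
          congr 1; ext ξ; exact (hlim' ξ).liminf_eq.symm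
      _ ≤ liminf (fun N => ∫⁻ ξ, ‖F N ξ‖ₑ ^ p) atTop :=
          lintegral_liminf_le (fun N => ((hFm N).enorm.pow_const p))
      _ ≤ Mt ^ p := by
          refine liminf_le_of_le (by isBoundedDefault) ?_
          intro c hc
          obtain ⟨N, hN⟩ := hc.exists
          exact hN.trans (hint N)
  refine hfin.trans ?_
  rw [hMt, ENNReal.mul_rpow_of_nonneg _ _ hp.le]
  gcongr
  rw [ENNReal.ofReal_rpow_of_nonneg (by positivity) hp.le]
  refine ENNReal.ofReal_le_ofReal ?_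
  rw [← Real.rpow_mul (by positivity)]
  refine Real.rpow_le_rpow_of_exponent_le (by linarith) ?_
  rw [div_mul_cancel₀ _ hp.ne']
  gcongr

end Pool.Agent.VAN.SP
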