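import Pool.Agent.VAN.SP4
import Pool.Agent.VAN.CKL

/-!
Finitely many singular points: Voronoi cells.
-/

set_option autoImplicit false

namespace Pool.Agent.VAN.SP

open MeasureTheory Set MvPolynomial Pool.Agent.MP_6cbfb8_an Pool.Agent.PPH Filter Topology
open scoped ENNReal Real

/-- A product of indicators of open and closed half spaces through the origin. -/
noncomputable def hcut {M : ℕ} (u : Fin M → E 3) (b : Fin M → Bool) (x : E 3) : ℂ :=
  ∏ j, if b j then (if 0 < inner ℝ x (u j) then 1 else 0) else (if 0 < inner ℝ x (u j) then 0 else 1)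

/-- The class of these products. -/
def HC (M : ℕ) (w : E 3 → ℂ) : Prop := ∃ (u : Fin M → E 3) (b : Fin M → Bool), w = hcut u b

lemma HC_meas (M : ℕ) (w : E 3 → ℂ) (hw : HC M w) : Measurable w ∧ ∀ x, ‖w x‖ ≤ 1 := by
  obtain ⟨u, b, rfl⟩ := hw
  constructor
  · unfold hcut
    refine Finset.measurable_prod _ fun j _ => ?_
    have h1 : MeasurableSet {x : E 3 | 0 < inner ℝ x (u j)} :=
      measurableSet_lt measurable_const (by fun_prop)
    by_cases hb : b j
    · simp only [hb, if_true]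
      exact Measurable.ite h1 measurable_const measurable_const
    · simp only [hb, Bool.false_eq_true, if_false]
      exact Measurable.ite h1 measurable_const measurable_const
  · intro x
    unfold hcut
    rw [norm_prod]
    refine Finset.prod_le_one (fun j _ => norm_nonneg _) fun j _ => ?_
    split_ifs <;> simp

/-- the linear form as a polynomial -/
noncomputable def lpol (u : E 3) : MvPolynomial (Fin 3) ℝ := ∑ i, C (u i) * X i

lemma lpol_deg (u : E 3) : (lpol u).totalDegree ≤ 1 := by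
  unfold lpol
  refine totalDegree_finsetSum_le fun i _ => ?_
  refine (totalDegree_mul _ _).trans ?_
  rw [totalDegree_C, totalDegree_X]

lemma eval_lpol (u x : E 3) : eval (fun i => x i) (lpol u) = inner ℝ x u := by
  unfold lpol
  rw [map_sum, PiLp.inner_apply]
  refine Finset.sum_congr rfl fun i _ => ?_
  rw [map_mul, eval_C, eval_X]
  simp

/-- the cuts which belong to a subset of the indices -/
noncomputable def qs {M : ℕ} (u : Fin M → E 3) (t : Finset (Fin M)) (j : Fin M) :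
    MvPolynomial (Fin 3) ℝ := if j ∈ t then 1 else lpol (u j)

lemma qs_deg {M : ℕ} (u : Fin M → E 3) (t : Finset (Fin M)) (j : Fin M) :
    (qs u t j).totalDegree ≤ 1 := by
  unfold qs
  split_ifs
  · simp
  · exact lpol_deg _

lemma pol_qs {M : ℕ} (u : Fin M → E 3) (t : Finset (Fin M)) (x : E 3) :
    pol 0 (qs u t) x = ∏ j ∈ Finset.univ \ t, (if 0 < inner ℝ x (u j) then (1 : ℂ) else 0) := by
  unfold pol
  rw [map_zero, Complex.ofReal_zero, zero_mul, Complex.exp_zero, one_mul,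
    ← Finset.prod_sdiff (Finset.subset_univ t)]
  have h1 : ∏ j ∈ t, (if 0 < eval (fun j => x j) (qs u t j) then (1 : ℂ) else 0) = 1 := by
    refine Finset.prod_eq_one fun j hj => ?_
    have h2 : qs u t j = 1 := if_pos hj
    rw [h2, map_one, if_pos one_pos]
  rw [h1, mul_one]
  refine Finset.prod_congr rfl fun j hj => ?_
  have h2 : qs u t j = lpol (u j) := if_neg (Finset.mem_sdiff.1 hj).2
  rw [h2, eval_lpol]

/-- the sign which belongs to a subset of the indices -/
noncomputable def cs {M : ℕ} (b : Fin M → Bool) (t : Finset (Fin M)) : ℂ :=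
  (∏ j ∈ t, if b j then 0 else 1) * ∏ j ∈ Finset.univ \ t, if b j then 1 else -1

lemma norm_cs_le {M : ℕ} (b : Fin M → Bool) (t : Finset (Fin M)) : ‖cs b t‖ ≤ 1 := by
  unfold cs
  rw [norm_mul, norm_prod, norm_prod]
  refine mul_le_one₀ (Finset.prod_le_one (fun _ _ => norm_nonneg _) fun j _ => ?_)
    (Finset.prod_nonneg fun _ _ => norm_nonneg _)
    (Finset.prod_le_one (fun _ _ => norm_nonneg _) fun j _ => ?_)
  · split_ifs <;> simp
  · split_ifs <;> simp

lemma hcut_eq {M : ℕ} (u : Fin M → E 3) (b : Fin M → Bool) (x : E 3) :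
    hcut u b x = ∑ t : Finset (Fin M), cs b t * pol 0 (qs u t) x := by
  have h1 : hcut u b x = ∏ j, ((if b j then (0:ℂ) else 1) +
      (if b j then 1 else -1) * (if 0 < inner ℝ x (u j) then (1 : ℂ) else 0)) := by
    unfold hcut
    refine Finset.prod_congr rfl fun j _ => ?_
    split_ifs <;> simp
  rw [h1, Finset.prod_add, ← Finset.powerset_univ]
  refine Finset.sum_congr rfl fun t _ => ?_
  rw [pol_qs, Finset.prod_mul_distrib]
  unfold cs
  ring

lemma HC_bound (M : ℕ) (A : ℕ) (p : ℝ) (hp : 3 < p) : ∃ C : ℝ≥0∞, C ≠ ∞ ∧ ∀ (w : E 3 → ℂ)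
    (T : MvPolynomial (Fin 3) ℝ) (s : Fin 3 → ℝ), HC M w → T.totalDegree ≤ A →
      ∫⁻ ξ, ‖extn (fun x => w x * pex T x * oct s x) ξ‖ₑ ^ p ≤ C := by
  obtain ⟨C, hC, h⟩ := PC_bound 1 M A p hp
  have hp0 : 0 < p := by linarith
  refine ⟨(((Finset.univ : Finset (Finset (Fin M))).card : ℝ≥0∞) * C ^ (1 / p)) ^ p,
    ENNReal.rpow_ne_top_of_nonneg hp0.le (ENNReal.mul_ne_top (ENNReal.natCast_ne_top _)
      (ENNReal.rpow_ne_top_of_nonneg (by positivity) hC)), ?_⟩
  rintro w T s ⟨u, b, rfl⟩ hT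
  have h1 := eLp_fsum (Finset.univ : Finset (Finset (Fin M))) (cs b) (norm_cs_le b)
    (fun t x => pol 0 (qs u t) x * pex T x * oct s x)
    (fun t => ((measurable_pol _ _).mul (measurable_pex _)).mul (measurable_oct _))
    (fun t x => by
      rw [norm_mul, norm_mul, norm_pex, mul_one]
      exact mul_le_one₀ (norm_pol_le _ _ x) (norm_nonneg _) (norm_oct_le _ _))
    (p := p) (by linarith) (C := C)
    (fun t => h _ T s ⟨0, qs u t, by simp, fun j => qs_deg u t j, rfl⟩ hT)
  have h2 : (fun x => ∑ t : Finset (Fin M), cs b t * (pol 0 (qs u t) x * pex T x * oct s x)) =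
      fun x => hcut u b x * pex T x * oct s x := by
    funext x
    rw [hcut_eq, Finset.sum_mul, Finset.sum_mul]
    refine Finset.sum_congr rfl fun t _ => ?_
    ring
  rw [h2] at h1
  have h3 := ENNReal.rpow_le_rpow h1 hp0.le
  unfold eLpNorm' at h3
  rw [← ENNReal.rpow_mul, one_div_mul_cancel hp0.ne', ENNReal.rpow_one] at h3
  exact h3

/-- the factor of the Voronoi cell of `z i` -/
noncomputable def vor {M : ℕ} (z : Fin M → E 3) (i : Fin M) : E 3 → ℂ :=
  hcut (fun j => if j < i then z i - z j else z j - z i) (fun j => decide (j < i))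

lemma vor_ne {M : ℕ} (z : Fin M → E 3) (i : Fin M) (x : E 3) :
    (∀ j, if j < i then inner ℝ x (z j) < inner ℝ x (z i) else inner ℝ x (z j) ≤ inner ℝ x (z i)) →
      vor z i x = 1 := by
  intro h
  unfold vor hcut
  refine Finset.prod_eq_one fun j _ => ?_
  have h1 := h j
  by_cases hji : j < i
  · simp only [hji, decide_true, if_true] at h1 ⊢
    rw [if_pos]
    rw [inner_sub_right]
    linarith
  · simp only [hji, decide_false, if_false] at h1 ⊢
    rw [if_neg (by simp), if_neg]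
    rw [inner_sub_right]
    linarith

lemma vor_eq_zero {M : ℕ} (z : Fin M → E 3) (i : Fin M) (x : E 3) (j : Fin M)
    (h : ¬ (if j < i then inner ℝ x (z j) < inner ℝ x (z i) else
      inner ℝ x (z j) ≤ inner ℝ x (z i))) : vor z i x = 0 := by
  unfold vor hcut
  refine Finset.prod_eq_zero (Finset.mem_univ j) ?_
  by_cases hji : j < i
  · simp only [hji, decide_true, if_true] at h ⊢
    rw [if_neg]
    rw [inner_sub_right]
    linarith
  · simp only [hji, decide_false, if_false] at h ⊢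
    rw [if_neg (by simp), if_pos]
    rw [inner_sub_right]
    linarith

lemma sum_vor {M : ℕ} [NeZero M] (z : Fin M → E 3) (x : E 3) : ∑ i, vor z i x = 1 := by
  classical
  -- the first maximiser
  obtain ⟨i0, -, hi0⟩ := Finset.exists_max_image (Finset.univ : Finset (Fin M))
    (fun i => (inner ℝ x (z i) : ℝ)) ⟨0, Finset.mem_univ _⟩
  obtain ⟨i, hi, hmin⟩ := Finset.exists_min_image
    (Finset.univ.filter fun i : Fin M => (inner ℝ x (z i) : ℝ) = inner ℝ x (z i0)) id
    ⟨i0, by simp⟩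
  have hie : (inner ℝ x (z i) : ℝ) = inner ℝ x (z i0) := (Finset.mem_filter.1 hi).2
  have h1 : ∀ j, if j < i then (inner ℝ x (z j) : ℝ) < inner ℝ x (z i) else
      (inner ℝ x (z j) : ℝ) ≤ inner ℝ x (z i) := by
    intro j
    have h2 := hi0 j (Finset.mem_univ j)
    split_ifs with hji
    · rw [hie]
      refine lt_of_le_of_ne h2 fun h3 => ?_
      have h4 := hmin j (by simp [h3])
      exact absurd hji (not_lt.2 h4)
    · rw [hie]; exact h2
  rw [Finset.sum_eq_single i]
  · exact vor_ne z i x h1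
  · intro k _ hki
    rcases lt_or_gt_of_ne hki with h | h
    · -- `k < i`
      refine vor_eq_zero z k x i ?_
      have h2 := h1 k
      rw [if_pos h] at h2
      rw [if_neg (not_lt.2 h.le)]
      linarith
    · refine vor_eq_zero z k x i ?_
      rw [if_pos h]
      have h2 := h1 k
      rw [if_neg (not_lt.2 h.le)] at h2
      linarith
  · intro h; exact absurd (Finset.mem_univ i) h

/-- The Voronoi cell. -/
def vc {M : ℕ} (z : Fin M → E 3) (i : Fin M) : Set (E 3) :=
  {x | ∀ j, inner ℝ x (z j) ≤ inner ℝ x (z i)}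

lemma convex_vc {M : ℕ} (z : Fin M → E 3) (i : Fin M) : Convex ℝ (vc z i) := by
  intro x hx y hy a b ha hb hab j
  have h1 := hx j
  have h2 := hy j
  rw [inner_add_left, inner_add_left, real_inner_smul_left, real_inner_smul_left,
    real_inner_smul_left, real_inner_smul_left]
  nlinarith

lemma vor_mem {M : ℕ} (z : Fin M → E 3) (i : Fin M) (x : E 3) (h : vor z i x ≠ 0) : x ∈ vc z i := by
  intro j
  by_contra h1
  refine h (vor_eq_zero z i x j fun h2 => h1 ?_)
  split_ifs at h2 with h3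
  · exact h2.le
  · exact h2

/-- **Phases with finitely many singular points of power type.** -/
theorem sing_points (m A : ℕ) (p δ : ℝ) (hδ : 0 ≤ δ)
    (hKp : (3 * ((A + 1 : ℕ) : ℝ) + 9) * (2 + 3 * δ) < 2 * ((A + 1 : ℕ) : ℝ) * p) :
    ∃ C : ℝ≥0∞, C ≠ ∞ ∧ ∀ (Z : Finset (E 3)) (φ : E 3 → ℝ) (L : ℝ), Z.card = m → 0 ≤ L →
      (∀ y ∈ Z, ‖y‖ = 1) → ContDiffOn ℝ (A + 1 : ℕ) φ (Z : Set (E 3))ᶜ →
      (∀ x ∉ Z, ‖x‖ ≤ 1 → ∃ y ∈ Z,
        ‖iteratedFDeriv ℝ (A + 1) φ x‖ ≤ L * ‖x - y‖ ^ (-((1 + δ) * ((A + 1 : ℕ) : ℝ)))) →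
      ∫⁻ ξ, ‖extn (fun x => Complex.exp ((φ x : ℂ) * Complex.I)) ξ‖ₑ ^ p ≤
        C * ENNReal.ofReal ((1 + L) ^ (3 * p / (A + 1 : ℕ))) := by
  classical
  obtain ⟨C, hC, h⟩ := sing_cls (HC m) (HC_meas m) (fun A p hp => HC_bound m A p hp) A p δ hδ hKp
  have hp : 3 < p := by
    have h1 : (0:ℝ) < ((A + 1 : ℕ) : ℝ) := by positivity
    nlinarith
  have hp0 : 0 < p := by linarith
  refine ⟨(m : ℝ≥0∞) ^ p * C, ENNReal.mul_ne_top (ENNReal.rpow_ne_top_of_nonneg hp0.le
    (ENNReal.natCast_ne_top _)) hC, ?_⟩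
  intro Z φ L hZ hL hZ1 hφ hD
  rcases Nat.eq_zero_or_pos m with hm | hm
  · -- no singular point: impossible by the bound at the origin
    subst hm
    rw [Finset.card_eq_zero] at hZ
    subst hZ
    obtain ⟨y, hy, -⟩ := hD 0 (by simp) (by simp)
    exact absurd hy (by simp)
  have : NeZero m := ⟨hm.ne'⟩
  obtain ⟨z, hz⟩ : ∃ z : Fin m → E 3, (∀ i, z i ∈ Z) ∧ (∀ y ∈ Z, ∃ i, z i = y) := by
    let eq := Z.equivFinOfCardEq hZ
    refine ⟨fun i => (eq.symm i : E 3), fun i => (eq.symm i).2, fun y hy => ⟨eq ⟨y, hy⟩, by simp⟩⟩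
  obtain ⟨hz1, hz2⟩ := hz
  have hopen : IsOpen ((Z : Set (E 3))ᶜ) := Z.finite_toSet.isClosed.isOpen_compl
  have hφm : Measurable φ := by
    have h1 : ContinuousOn φ (Z : Set (E 3))ᶜ := hφ.continuousOn
    refine measurable_of_restrict_of_restrict_compl Z.finite_toSet.measurableSet ?_
      h1.domRestrict.measurable
    have : Finite (Z : Set (E 3)) := Z.finite_toSet
    exact measurable_of_finite _
  have hvm : ∀ i, Measurable (vor z i) ∧ ∀ x, ‖vor z i x‖ ≤ 1 := fun i => HC_meas m _ ⟨_, _, rfl⟩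
  have hterm : ∀ i : Fin m, ∫⁻ ξ, ‖extn (fun x => vor z i x *
      Complex.exp ((φ x : ℂ) * Complex.I)) ξ‖ₑ ^ p ≤
      C * ENNReal.ofReal ((1 + L) ^ (3 * p / (A + 1 : ℕ))) := by
    intro i
    refine h (z i) (vc z i) (vor z i) φ L (hZ1 _ (hz1 i)) (convex_vc z i) ⟨_, _, rfl⟩
      (fun x hx => vor_mem z i x hx) hφm hL fun x hx hxV hxe => ?_
    have hZx : x ∉ Z := by
      intro hxZ
      obtain ⟨j, rfl⟩ := hz2 x hxZ
      have h1 := hxV j
      rw [real_inner_self_eq_norm_sq, hZ1 _ hxZ] at h1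
      have h2 : ‖z j - z i‖ ^ 2 ≤ 0 := by
        rw [norm_sub_sq_real, hZ1 _ hxZ, hZ1 _ (hz1 i)]
        linarith
      have h3 : ‖z j - z i‖ = 0 := by nlinarith [norm_nonneg (z j - z i)]
      exact hxe (sub_eq_zero.1 (norm_eq_zero.1 h3))
    refine ⟨(hφ x hZx).contDiffAt (hopen.mem_nhds hZx), ?_⟩
    obtain ⟨y, hy, h1⟩ := hD x hZx hx
    refine h1.trans (mul_le_mul_of_nonneg_left ?_ hL)
    obtain ⟨j, rfl⟩ := hz2 y hy
    have h2 : ‖x - z i‖ ≤ ‖x - z j‖ := by
      refine le_of_sq_le_sq ?_ (norm_nonneg _)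
      rw [norm_sub_sq_real, norm_sub_sq_real, hZ1 _ hy, hZ1 _ (hz1 i)]
      have := hxV j
      linarith
    refine Real.rpow_le_rpow_of_nonpos (norm_pos_iff.2 (sub_ne_zero.2 hxe)) h2 ?_
    have : 0 ≤ (1 + δ) * ((A + 1 : ℕ) : ℝ) := by positivity
    linarith
  have h1 := eLp_fsum (Finset.univ : Finset (Fin m)) (fun _ => 1) (fun _ => by simp)
    (fun i x => vor z i x * Complex.exp ((φ x : ℂ) * Complex.I))
    (fun i => (hvm i).1.mul (by fun_prop)) (fun i x => by
      rw [norm_mul, Complex.norm_exp_ofReal_mul_I, mul_one]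
      exact (hvm i).2 x) (p := p) (by linarith) hterm
  have h2 : (fun x => ∑ i : Fin m, (1:ℂ) * (vor z i x * Complex.exp ((φ x : ℂ) * Complex.I))) =
      fun x => Complex.exp ((φ x : ℂ) * Complex.I) := by
    funext x
    simp only [one_mul]
    rw [← Finset.sum_mul, sum_vor, one_mul]
  rw [h2] at h1
  have h3 := ENNReal.rpow_le_rpow h1 hp0.le
  unfold eLpNorm' at h3
  rw [← ENNReal.rpow_mul, one_div_mul_cancel hp0.ne', ENNReal.rpow_one] at h3
  refine h3.trans (le_of_eq ?_)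
  rw [Finset.card_univ, Fintype.card_fin, ENNReal.mul_rpow_of_nonneg _ _ hp0.le, ← ENNReal.rpow_mul,
    one_div_mul_cancel hp0.ne', ENNReal.rpow_one, mul_assoc]

end Pool.Agent.VAN.SP
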