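import Pool.Agent.VAN.SP5

/-!
Phases with finitely many singular points of power type: the final form, and smooth phases.
-/

set_option autoImplicit false

namespace Pool.Agent.VAN.SP

open MeasureTheory Set Pool.Agent.MP_6cbfb8_an
open scoped ENNReal Real ContDiff

theorem sing_final (p ε a : ℝ) (m : ℕ) (hp : 3 < p) (hε : 0 < ε) (ha : 0 ≤ a) :
    ∃ (K : ℕ) (C : ℝ≥0∞), C ≠ ⊤ ∧ ∀ (Z : Finset (E 3)) (φ : E 3 → ℝ) (L : ℝ), Z.card ≤ m →
      (∀ y ∈ Z, ‖y‖ = 1) → 0 ≤ L → ContDiffOn ℝ K φ (Z : Set (E 3))ᶜ →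
      (∀ x ∉ Z, ‖x‖ ≤ 1 → ∃ y ∈ Z, ‖iteratedFDeriv ℝ K φ x‖ ≤ L * ‖x - y‖ ^ (-((K : ℝ) + a))) →
      ∫⁻ ξ, ‖extn (fun x => Complex.exp ((φ x : ℂ) * Complex.I)) ξ‖ₑ ^ p ≤
        C * ENNReal.ofReal ((1 + L) ^ ε) := by
  classical
  have hp3 : 0 < p - 3 := by linarith
  obtain ⟨A, hA⟩ := exists_nat_ge (max ((9 + 18 * a) / (p - 3)) (3 * p / ε))
  obtain ⟨K, hK⟩ : ∃ K : ℝ, K = ((A + 1 : ℕ) : ℝ) := ⟨_, rfl⟩
  have hK1 : 1 ≤ K := by rw [hK]; push_cast; linarith [Nat.cast_nonneg (α := ℝ) A]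
  have hK0 : 0 < K := by linarith
  have hAK : (A : ℝ) < K := by rw [hK]; push_cast; linarith
  have h1 : 9 + 18 * a < K * (p - 3) := by
    have := (le_max_left _ _).trans hA
    rw [div_le_iff₀ hp3] at this
    nlinarith
  have h2 : 3 * p / K ≤ ε := by
    have := ((le_max_right _ _).trans hA).trans hAK.le
    rw [div_le_iff₀ hε] at this
    rw [div_le_iff₀ hK0]
    linarith
  have hδ : 0 ≤ a / K := by positivity
  have hcond : (3 * ((A + 1 : ℕ) : ℝ) + 9) * (2 + 3 * (a / K)) < 2 * ((A + 1 : ℕ) : ℝ) * p := by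
    rw [← hK]
    have e1 : (3 * K + 9) * (2 + 3 * (a / K)) = 6 * K + 18 + 9 * a + 27 * (a / K) := by
      field_simp
      ring
    have e2 : a / K ≤ a := div_le_self ha hK1
    rw [e1]
    nlinarith
  choose C hC h using fun m' : ℕ => sing_points m' A p (a / K) hδ hcond
  refine ⟨A + 1, ∑ m' ∈ Finset.range (m + 1), C m', ENNReal.sum_ne_top.2 fun m' _ => hC m', ?_⟩
  intro Z φ L hZ hZ1 hL hφ hD
  have h3 := h Z.card Z φ L rfl hL hZ1 hφ (fun x hx hx1 => by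
    obtain ⟨y, hy, h4⟩ := hD x hx hx1
    refine ⟨y, hy, h4.trans (le_of_eq ?_)⟩
    congr 2
    rw [← hK]
    field_simp)
  refine h3.trans ?_
  gcongr
  · exact Finset.single_le_sum (f := C) (fun _ _ => zero_le) (Finset.mem_range.2 (by omega))
  · linarith
  · rw [← hK]; exact h2

theorem smooth_final (φ : E 3 → ℝ) (hφ : ContDiff ℝ ∞ φ) (p ε : ℝ) (hp : 3 < p) (hε : 0 < ε) :
    ∃ C : ℝ≥0∞, C ≠ ⊤ ∧ ∀ l : ℝ,
      ∫⁻ ξ, ‖extn (fun x => Complex.exp (((l * φ x : ℝ) : ℂ) * Complex.I)) ξ‖ₑ ^ p ≤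
        C * ENNReal.ofReal ((1 + |l|) ^ ε) := by
  classical
  obtain ⟨K, C, hC, h⟩ := sing_final p ε 0 1 hp hε le_rfl
  obtain ⟨e, he⟩ : ∃ e : E 3, ‖e‖ = 1 := ⟨EuclideanSpace.single 0 1, by simp⟩
  obtain ⟨M, hM⟩ := (isCompact_closedBall (0 : E 3) 1).exists_bound_of_continuousOn
    ((hφ.continuous_iteratedFDeriv (m := K) (by exact_mod_cast le_top)).continuousOn)
  have hM0 : 0 ≤ |M| := abs_nonneg M
  refine ⟨C * ENNReal.ofReal ((1 + 2 ^ K * |M|) ^ ε), ENNReal.mul_ne_top hC ENNReal.ofReal_ne_top,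
    fun l => ?_⟩
  have h1 := h {e} (fun x => l * φ x) (|l| * (2 ^ K * |M|)) (by simp) (by simpa using he)
    (by positivity) ((contDiff_const.mul (hφ.of_le (by exact_mod_cast le_top))).contDiffOn)
    (fun x hx hx1 => by
      refine ⟨e, by simp, ?_⟩
      have h2 : (fun x => l * φ x) = fun x => l • φ x := rfl
      rw [h2, iteratedFDeriv_const_smul_apply' ((hφ.of_le (by exact_mod_cast le_top)).contDiffAt),
        norm_smul, Real.norm_eq_abs, mul_assoc, mul_assoc]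
      refine mul_le_mul_of_nonneg_left ?_ (abs_nonneg l)
      have h3 : ‖iteratedFDeriv ℝ K φ x‖ ≤ |M| :=
        (hM x (mem_closedBall_zero_iff.2 hx1)).trans (le_abs_self M)
      have hxe : x ≠ e := by simpa using hx
      have h4 : 0 < ‖x - e‖ := norm_pos_iff.2 (sub_ne_zero.2 hxe)
      have h5 : ‖x - e‖ ≤ 2 := by
        calc ‖x - e‖ ≤ ‖x‖ + ‖e‖ := norm_sub_le _ _
          _ ≤ 2 := by rw [he]; linarith
      have h6 : (2:ℝ) ^ (-((K : ℝ) + 0)) ≤ ‖x - e‖ ^ (-((K : ℝ) + 0)) :=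
        Real.rpow_le_rpow_of_nonpos h4 h5 (by
          have : (0:ℝ) ≤ K := Nat.cast_nonneg K
          linarith)
      have h7 : (2:ℝ) ^ K * 2 ^ (-((K : ℝ) + 0)) = 1 := by
        rw [← Real.rpow_natCast, ← Real.rpow_add (by norm_num), add_zero, add_neg_cancel,
          Real.rpow_zero]
      calc ‖iteratedFDeriv ℝ K φ x‖ ≤ |M| := h3
        _ = (2:ℝ) ^ K * 2 ^ (-((K : ℝ) + 0)) * |M| := by rw [h7, one_mul]
        _ ≤ (2:ℝ) ^ K * ‖x - e‖ ^ (-((K : ℝ) + 0)) * |M| := by gcongr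
        _ = _ := by ring)
  refine h1.trans ?_
  rw [mul_assoc, ← ENNReal.ofReal_mul (by positivity)]
  gcongr
  rw [← Real.mul_rpow (by positivity) (by positivity)]
  refine Real.rpow_le_rpow (by positivity) ?_ hε.le
  nlinarith [abs_nonneg l, mul_nonneg (show (0:ℝ) ≤ 2 ^ K by positivity) hM0]

end Pool.Agent.VAN.SP
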