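import Pool.Agent.VAN.TM1
import Pool.Agent.BVA.R3

/-!
The restriction estimate with an arbitrarily small loss for tame phases, with an amplitude of bounded
variation.
-/

set_option autoImplicit false

namespace Pool.Agent.VAN.TM

open MeasureTheory Set MvPolynomial Pool.Agent.MP_6cbfb8_an Pool.Agent.PPH Pool.Agent.BVA Filter Topology
open scoped ENNReal Real

lemma norm_abp_le {N : ℕ} {a : E 3 → ℂ} {x : E 3} (ha : ‖a x‖ ≤ 1) (T : MvPolynomial (Fin 3) ℝ)
    (q : Fin N → MvPolynomial (Fin 3) ℝ) (b : Fin N → Bool) :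
    ‖a x * (((bc q b x : ℝ) : ℂ) * pex T x)‖ ≤ 1 := by
  rw [norm_mul]
  exact mul_le_one₀ ha (norm_nonneg _) (norm_bp_le T q b x)

/-- the uniform bound for one cell, with an amplitude -/
lemma bc_bound_amp (D N : ℕ) (p : ℝ) (hp : 3 < p) : ∃ C : ℝ≥0∞, C ≠ ∞ ∧
    ∀ (V : ℝ) (a : E 3 → ℂ), 1 ≤ V → Measurable a → (∀ x, ‖a x‖ ≤ 1) → BVar 1 V a →
    ∀ (T : MvPolynomial (Fin 3) ℝ) (q : Fin N → MvPolynomial (Fin 3) ℝ) (b : Fin N → Bool),
      T.totalDegree ≤ D → (∀ i, (q i).totalDegree ≤ D) →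
      ∫⁻ ξ, ‖extn (fun x => a x * (((bc q b x : ℝ) : ℂ) * pex T x)) ξ‖ₑ ^ p ≤
        C * ENNReal.ofReal V ^ (p - 1) := by
  obtain ⟨C, hC, h⟩ := main3_bv D N 1 p one_pos hp (by linarith)
  have hp0 : 0 < p := by linarith
  refine ⟨(((Finset.univ : Finset (Finset (Fin N))).card : ℝ≥0∞)) ^ p * C,
    ENNReal.mul_ne_top (ENNReal.rpow_ne_top_of_nonneg hp0.le (ENNReal.natCast_ne_top _)) hC, ?_⟩
  intro V a hV ham hab hvar T q b hT hq
  have h1 := eLp_fsum' (Finset.univ : Finset (Finset (Fin N))) (cs b) (fun t _ => norm_cs_le b t)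
    (fun t x => a x * pol T (qs q t) x) (fun t => ham.mul (measurable_pol _ _))
    (fun t x => by
      rw [norm_mul]
      exact mul_le_one₀ (hab x) (norm_nonneg _) (norm_pol_le _ _ x))
    (p := p) (by linarith) (C := C * ENNReal.ofReal V ^ (p - 1))
    (fun t _ => h V a hV ham hab hvar T _ hT fun j => qs_deg hq t j)
  have h2 : (fun x => ∑ t : Finset (Fin N), cs b t * (a x * pol T (qs q t) x)) =
      fun x => a x * (((bc q b x : ℝ) : ℂ) * pex T x) := by
    funext x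
    rw [bc_eq, Finset.mul_sum]
    refine Finset.sum_congr rfl fun t _ => ?_
    ring
  rw [h2] at h1
  have h3 := ENNReal.rpow_le_rpow h1 hp0.le
  unfold eLpNorm' at h3
  rw [← ENNReal.rpow_mul, one_div_mul_cancel hp0.ne', ENNReal.rpow_one,
    ENNReal.mul_rpow_of_nonneg _ _ hp0.le, ← ENNReal.rpow_mul, one_div_mul_cancel hp0.ne',
    ENNReal.rpow_one, ← mul_assoc] at h3
  exact h3

/-- The telescoping argument for a tame phase with a bounded amplitude, with explicit constants. -/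
theorem tame_core (p ε p1 η : ℝ) (hp : 3 < p) (h31 : 3 < p1) (h1p : p1 < p) (hη0 : 0 < η)
    (hηε : η * p ≤ ε) (hηp : η * p1 ≤ (p - p1) / 2) (D N : ℕ) (C0 : ℝ) (hC0 : 0 < C0)
    (a : E 3 → ℂ) (ham : Measurable a) (hab : ∀ x, ‖a x‖ ≤ 1) (Ba Bb : ℝ≥0∞) (hBa : Ba ≠ ∞)
    (hBb : Bb ≠ ∞)
    (Ha : ∀ (T : MvPolynomial (Fin 3) ℝ) (q : Fin N → MvPolynomial (Fin 3) ℝ) (b : Fin N → Bool),
      T.totalDegree ≤ D → (∀ i, (q i).totalDegree ≤ D) →
      ∫⁻ ξ, ‖extn (fun x => a x * (((bc q b x : ℝ) : ℂ) * pex T x)) ξ‖ₑ ^ p1 ≤ Ba)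
    (Hb : ∀ (T : MvPolynomial (Fin 3) ℝ) (q : Fin N → MvPolynomial (Fin 3) ℝ) (b : Fin N → Bool),
      T.totalDegree ≤ D → (∀ i, (q i).totalDegree ≤ D) →
      ∫⁻ ξ, ‖extn (fun x => a x * (((bc q b x : ℝ) : ℂ) * pex T x)) ξ‖ₑ ^ p ≤ Bb)
    (φ : E 3 → ℝ) (hφm : Measurable φ) (happ : TameAt η D N C0 φ) (l : ℝ) :
      ∫⁻ ξ, ‖extn (fun x => a x * Complex.exp (((l * φ x : ℝ) : ℂ) * Complex.I)) ξ‖ₑ ^ p ≤
        ENNReal.ofReal ((C0 * (Bb ^ (1 / p)).toReal +
          (2 * ((sm 3).real univ + 2 * C0)) ^ ((p - p1) / p) *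
            ((2 ^ η + 1) * (C0 * (Ba ^ (1 / p1)).toReal)) ^ (p1 / p) *
            (1 - (2:ℝ) ^ (-((p - p1 - η * p1) / p)))⁻¹) ^ p) * ENNReal.ofReal ((1 + |l|) ^ ε) := by
  have hp0 : 0 < p := by linarith
  have hp10 : 0 < p1 := by linarith
  obtain ⟨σ, hσ⟩ : ∃ σ : ℝ, σ = (sm 3).real univ := ⟨_, rfl⟩
  have hσ0 : 0 ≤ σ := by rw [hσ]; exact measureReal_nonneg
  obtain ⟨M, hM⟩ : ∃ M : ℝ, M = σ + 2 * C0 := ⟨_, rfl⟩
  have hM0 : 0 < M := by rw [hM]; linarith
  -- the ratio of the geometric series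
  obtain ⟨r, hr⟩ : ∃ r : ℝ, r = (2:ℝ) ^ (-((p - p1 - η * p1) / p)) := ⟨_, rfl⟩
  have hr0 : 0 ≤ r := by rw [hr]; positivity
  have hr1 : r < 1 := by
    rw [hr]
    refine Real.rpow_lt_one_of_one_lt_of_neg (by norm_num) ?_
    have : 0 < (p - p1 - η * p1) / p := div_pos (by linarith) hp0
    linarith
  have h1r : 0 ≤ (1 - r)⁻¹ := inv_nonneg.2 (by linarith)
  obtain ⟨ca, hca⟩ : ∃ ca : ℝ, ca = C0 * (Ba ^ (1 / p1)).toReal := ⟨_, rfl⟩
  obtain ⟨cb, hcb⟩ : ∃ cb : ℝ, cb = C0 * (Bb ^ (1 / p)).toReal := ⟨_, rfl⟩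
  have hca0 : 0 ≤ ca := by rw [hca]; positivity
  have hcb0 : 0 ≤ cb := by rw [hcb]; positivity
  obtain ⟨E0, hE0⟩ : ∃ E0 : ℝ, E0 = (2 * M) ^ ((p - p1) / p) * ((2 ^ η + 1) * ca) ^ (p1 / p) := ⟨_, rfl⟩
  have hE00 : 0 ≤ E0 := by rw [hE0]; positivity
  rw [← hσ, ← hM, ← hcb, ← hca, ← hE0, ← hr]
  obtain ⟨Λ, hΛ⟩ : ∃ Λ : ℝ, Λ = 1 + |l| := ⟨_, rfl⟩
  have hΛ1 : 1 ≤ Λ := by rw [hΛ]; linarith [abs_nonneg l]
  have hΛ0 : 0 < Λ := by linarith
  have hlΛ : |l| ≤ Λ := by rw [hΛ]; linarith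
  -- the levels
  obtain ⟨d, hd⟩ : ∃ d : ℕ → ℝ, ∀ k, d k = (1 / 2) ^ k / Λ := ⟨_, fun _ => rfl⟩
  have hd0 : ∀ k, 0 < d k := fun k => by rw [hd]; positivity
  have hd1 : ∀ k, d k ≤ 1 := fun k => by
    rw [hd, div_le_one hΛ0]
    have : ((1:ℝ) / 2) ^ k ≤ 1 := pow_le_one₀ (by norm_num) (by norm_num)
    linarith
  have happ' := fun k => happ (d k) (hd0 k) (hd1 k)
  choose ι s T q b hcard hTd hqd hsum herr hmeas using happ'
  -- the approximations
  obtain ⟨G, hG⟩ : ∃ G : ℕ → E 3 → ℂ, ∀ k, G k = fun x =>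
      ∑ j ∈ s k, (1 : ℂ) * (a x * (((bc (q k j) (b k j) x : ℝ) : ℂ) * pex (C l * T k j) x)) :=
    ⟨_, fun _ => rfl⟩
  have hGm : ∀ k, Measurable (G k) := fun k => by
    rw [hG]
    exact Finset.measurable_sum _ fun j _ => (ham.mul (measurable_bp _ _ _)).const_mul _
  have hGb : ∀ k x, ‖G k x‖ ≤ ((s k).card : ℝ) := fun k x => by
    rw [hG]
    calc _ ≤ ∑ _j ∈ s k, (1:ℝ) := norm_sum_le_of_le _ fun j _ => by
          rw [one_mul]; exact norm_abp_le (hab x) _ _ _
      _ = _ := by simp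
  have hgm : Measurable fun x => a x * Complex.exp (((l * φ x : ℝ) : ℂ) * Complex.I) := by fun_prop
  have hgb : ∀ x, ‖a x * Complex.exp (((l * φ x : ℝ) : ℂ) * Complex.I)‖ ≤ 1 := fun x => by
    rw [norm_mul, Complex.norm_exp_ofReal_mul_I, mul_one]
    exact hab x
  -- sup norm errors
  have hsup : ∀ k ξ, ‖extn (G k) ξ - extn (fun x => a x * Complex.exp (((l * φ x : ℝ) : ℂ) * Complex.I)) ξ‖ ≤
      M * (1 / 2) ^ k := by
    intro k ξ
    obtain ⟨Bad, hBad⟩ : ∃ Bad : Set (S 3), Bad = {x : S 3 | ∑ j ∈ s k, bc (q k j) (b k j) x ≠ 1} :=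
      ⟨_, rfl⟩
    have hBm : MeasurableSet Bad := by
      rw [hBad]
      have h1 : Measurable fun x : S 3 => ∑ j ∈ s k, bc (q k j) (b k j) x :=
        (Finset.measurable_sum _ fun j _ => measurable_bc _ _).comp measurable_subtype_coe
      exact (h1 (measurableSet_singleton 1)).compl
    have h1 : ‖extn (G k) ξ - extn (fun x => a x * Complex.exp (((l * φ x : ℝ) : ℂ) * Complex.I)) ξ‖ₑ ≤
        ENNReal.ofReal (M * (1 / 2) ^ k) := by
      unfold extn
      rw [← integral_sub (integrable_extn (hGm k) (hGb k) ξ) (integrable_extn hgm hgb ξ)]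
      refine (enorm_integral_le_lintegral_enorm _).trans ?_
      calc ∫⁻ x : S 3, ‖_‖ₑ ∂(sm 3)
          ≤ ∫⁻ x : S 3, (ENNReal.ofReal ((1 / 2) ^ k) + Bad.indicator (fun _ => (2:ℝ≥0∞)) x) ∂(sm 3) := by
            refine lintegral_mono fun x => ?_
            simp only
            have hx : ‖(x : E 3)‖ = 1 := mem_sphere_zero_iff_norm.1 x.2
            rw [← sub_mul, ← ofReal_norm, norm_mul, Complex.norm_exp_ofReal_mul_I, mul_one]
            by_cases hxB : x ∈ Bad
            · rw [indicator_of_mem hxB]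
              refine le_trans ?_ le_add_self
              have h3 : ‖G k x‖ ≤ 1 := by
                rw [hG]
                calc _ ≤ ∑ j ∈ s k, bc (q k j) (b k j) x := norm_sum_le_of_le _ fun j _ => by
                      rw [one_mul, norm_mul, norm_mul, norm_pex, mul_one, Complex.norm_real,
                        Real.norm_of_nonneg (bc_nonneg _ _ _)]
                      exact mul_le_of_le_one_left (bc_nonneg _ _ _) (hab x)
                  _ ≤ 1 := hsum k x hx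
              calc ENNReal.ofReal ‖G k x - a x * Complex.exp (((l * φ x : ℝ) : ℂ) * Complex.I)‖
                  ≤ ENNReal.ofReal 2 := by
                    refine ENNReal.ofReal_le_ofReal ((norm_sub_le _ _).trans ?_)
                    have := hgb x
                    linarith
                _ = 2 := by norm_num
            · rw [indicator_of_notMem hxB, add_zero]
              refine ENNReal.ofReal_le_ofReal ?_
              have h3 : ∑ j ∈ s k, bc (q k j) (b k j) x = 1 := by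
                by_contra h4
                exact hxB (by rw [hBad]; exact h4)
              have h4 : G k x - a x * Complex.exp (((l * φ x : ℝ) : ℂ) * Complex.I) =
                  a x * ∑ j ∈ s k, ((bc (q k j) (b k j) x : ℝ) : ℂ) *
                    (pex (C l * T k j) x - Complex.exp (((l * φ x : ℝ) : ℂ) * Complex.I)) := by
                have h5 : ((∑ j ∈ s k, bc (q k j) (b k j) x : ℝ) : ℂ) = 1 := by
                  rw [h3]; simp
                push_cast at h5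
                simp only [mul_sub, Finset.sum_sub_distrib]
                rw [← Finset.sum_mul, h5, one_mul, hG]
                simp only [one_mul]
                rw [Finset.mul_sum]
              rw [h4, norm_mul]
              refine (mul_le_of_le_one_left (norm_nonneg _) (hab x)).trans ?_
              calc _ ≤ ∑ j ∈ s k, bc (q k j) (b k j) x * (1 / 2) ^ k := by
                    refine norm_sum_le_of_le _ fun j hj => ?_
                    rw [norm_mul, Complex.norm_real, Real.norm_of_nonneg (bc_nonneg _ _ _)]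
                    by_cases h0 : bc (q k j) (b k j) x = 0
                    · rw [h0]; simp
                    refine mul_le_mul_of_nonneg_left ?_ (bc_nonneg _ _ _)
                    unfold pex
                    refine (norm_exp_sub_le _ _).trans ?_
                    have h6 := herr k x hx j hj h0
                    rw [map_mul, eval_C]
                    have h7 : l * eval (fun i => (x : E 3) i) (T k j) - l * φ x =
                        -(l * (φ x - ev (T k j) x)) := by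
                      unfold ev
                      ring
                    rw [h7, abs_neg, abs_mul]
                    calc |l| * |φ x - ev (T k j) x| ≤ Λ * d k :=
                          mul_le_mul hlΛ h6 (abs_nonneg _) hΛ0.le
                      _ = (1 / 2) ^ k := by rw [hd]; field_simp
                _ = (1 / 2) ^ k := by rw [← Finset.sum_mul, h3, one_mul]
        _ = ENNReal.ofReal ((1 / 2) ^ k) * sm 3 univ + 2 * sm 3 Bad := by
            rw [lintegral_add_left measurable_const, lintegral_const, lintegral_indicator hBm,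
              setLIntegral_const]
        _ ≤ ENNReal.ofReal ((1 / 2) ^ k * σ) + ENNReal.ofReal (2 * (C0 * (1 / 2) ^ k)) := by
            refine add_le_add (le_of_eq ?_) ?_
            · rw [ENNReal.ofReal_mul (by positivity), hσ, ofReal_measureReal]
            · rw [ENNReal.ofReal_mul (by norm_num)]
              have h2 := hmeas k
              rw [← hBad] at h2
              refine mul_le_mul' (by norm_num) (h2.trans (ENNReal.ofReal_le_ofReal ?_))
              refine mul_le_mul_of_nonneg_left ?_ hC0.le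
              rw [hd]
              exact div_le_self (by positivity) hΛ1
        _ = ENNReal.ofReal (M * (1 / 2) ^ k) := by
            rw [← ENNReal.ofReal_add (by positivity) (by positivity)]
            congr 1
            rw [hM]
            ring
    rw [← ofReal_norm] at h1
    exact (ENNReal.ofReal_le_ofReal_iff (by positivity)).1 h1
  -- norms
  have hnorm : ∀ (p' : ℝ), 3 < p' → ∀ (B : ℝ≥0∞), B ≠ ∞ →
      (∀ (T : MvPolynomial (Fin 3) ℝ) (q : Fin N → MvPolynomial (Fin 3) ℝ) (b : Fin N → Bool),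
        T.totalDegree ≤ D → (∀ i, (q i).totalDegree ≤ D) →
        ∫⁻ ξ, ‖extn (fun x => a x * (((bc q b x : ℝ) : ℂ) * pex T x)) ξ‖ₑ ^ p' ≤ B) → ∀ k,
      eLpNorm' (extn (G k)) p' volume ≤
        ENNReal.ofReal (C0 * (B ^ (1 / p')).toReal * (Λ ^ η * (2 ^ η) ^ k)) := by
    intro p' hp' B hB HB k
    have h1 := eLp_fsum' (s k) (fun _ => (1:ℂ)) (fun _ _ => by simp)
      (fun j x => a x * (((bc (q k j) (b k j) x : ℝ) : ℂ) * pex (C l * T k j) x))
      (fun j => ham.mul (measurable_bp _ _ _)) (fun j x => norm_abp_le (hab x) _ _ _)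
      (p := p') (by linarith) (C := B)
      (fun j hj => HB _ _ _ ((totalDegree_Cmul_le _ _).trans (hTd k j hj)) (hqd k j hj))
    have h2 : (extn fun x => ∑ i ∈ s k, (fun _ => (1:ℂ)) i *
        (a x * (((bc (q k i) (b k i) x : ℝ) : ℂ) * pex (C l * T k i) x))) = extn (G k) := by rw [hG]
    rw [h2] at h1
    refine h1.trans ?_
    have hB' : B ^ (1 / p') ≠ ∞ := ENNReal.rpow_ne_top_of_nonneg (by positivity) hB
    have h3 : ((s k).card : ℝ) ≤ C0 * (Λ ^ η * (2 ^ η) ^ k) := by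
      refine (hcard k).trans (le_of_eq ?_)
      congr 1
      rw [hd, div_eq_mul_inv, Real.mul_rpow (by positivity) (by positivity), Real.inv_rpow hΛ0.le,
        Real.rpow_neg hΛ0.le, inv_inv, mul_comm]
      congr 1
      rw [← Real.rpow_natCast, ← Real.rpow_natCast, ← Real.rpow_mul (by norm_num),
        ← Real.rpow_mul (by norm_num), one_div, Real.inv_rpow (by norm_num), ← Real.rpow_neg (by norm_num)]
      congr 1
      ring
    calc ((s k).card : ℝ≥0∞) * B ^ (1 / p')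
        = ENNReal.ofReal ((s k).card : ℝ) * ENNReal.ofReal (B ^ (1 / p')).toReal := by
          rw [ENNReal.ofReal_toReal hB', ENNReal.ofReal_natCast]
      _ = ENNReal.ofReal (((s k).card : ℝ) * (B ^ (1 / p')).toReal) := by
          rw [ENNReal.ofReal_mul (by positivity)]
      _ ≤ _ := by
          refine ENNReal.ofReal_le_ofReal ?_
          calc ((s k).card : ℝ) * (B ^ (1 / p')).toReal
              ≤ C0 * (Λ ^ η * (2 ^ η) ^ k) * (B ^ (1 / p')).toReal := by gcongr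
            _ = _ := by ring
  have hna := hnorm p1 h31 Ba hBa Ha
  have hnb := hnorm p hp Bb hBb Hb
  rw [← hca] at hna
  rw [← hcb] at hnb
  have hΛη : 1 ≤ Λ ^ η := Real.one_le_rpow hΛ1 hη0.le
  have h2η : (1:ℝ) ≤ 2 ^ η := Real.one_le_rpow (by norm_num) hη0.le
  have key := tele (μ := (volume : Measure (E 3))) (p1 := p1) (p := p) (by linarith) h1p.le
    (fun k => extn (G k)) (extn fun x => a x * Complex.exp (((l * φ x : ℝ) : ℂ) * Complex.I))
    (fun k => measurable_extn' (hGm k)) (fun ξ => by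
      rw [tendsto_iff_norm_sub_tendsto_zero]
      refine squeeze_zero (fun _ => norm_nonneg _) (fun k => hsup k ξ) ?_
      have h1 := (tendsto_pow_atTop_nhds_zero_of_lt_one (r := (1:ℝ) / 2) (by norm_num)
        (by norm_num)).const_mul M
      rwa [mul_zero] at h1)
    (fun k => 2 * M * (1 / 2) ^ k) (fun k => ENNReal.ofReal (ca * (Λ ^ η * (2 ^ η) ^ k)))
    (fun k => by positivity) 0 (fun k _ ξ => by
      have h1 := hsup k ξ
      have h2 := hsup (k + 1) ξ
      have h3 : M * (1 / 2) ^ (k + 1) ≤ M * (1 / 2) ^ k :=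
        mul_le_mul_of_nonneg_left (pow_le_pow_of_le_one (by norm_num) (by norm_num) (Nat.le_succ k))
          hM0.le
      calc ‖extn (G (k + 1)) ξ - extn (G k) ξ‖
          = ‖(extn (G (k + 1)) ξ - extn (fun x => a x * Complex.exp (((l * φ x : ℝ) : ℂ) * Complex.I)) ξ) -
            (extn (G k) ξ - extn (fun x => a x * Complex.exp (((l * φ x : ℝ) : ℂ) * Complex.I)) ξ)‖ := by
              congr 1; ring
        _ ≤ M * (1 / 2) ^ (k + 1) + M * (1 / 2) ^ k := (norm_sub_le _ _).trans (add_le_add h2 h1)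
        _ ≤ _ := by linarith)
    (fun k _ => hna k)
  -- the terms of the series
  have hterm : ∀ j : ℕ, ENNReal.ofReal ((2 * M * (1 / 2) ^ (0 + j)) ^ ((p - p1) / p)) *
      (ENNReal.ofReal (ca * (Λ ^ η * (2 ^ η) ^ (0 + j + 1))) +
        ENNReal.ofReal (ca * (Λ ^ η * (2 ^ η) ^ (0 + j)))) ^ (p1 / p) ≤
      ENNReal.ofReal (E0 * Λ ^ η * r ^ j) := by
    intro j
    rw [zero_add, ← ENNReal.ofReal_add (by positivity) (by positivity),
      ENNReal.ofReal_rpow_of_nonneg (by positivity) (by positivity),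
      ← ENNReal.ofReal_mul (by positivity)]
    refine ENNReal.ofReal_le_ofReal ?_
    have e1 : ca * (Λ ^ η * (2 ^ η) ^ (j + 1)) + ca * (Λ ^ η * (2 ^ η) ^ j) =
        ((2 ^ η + 1) * ca) * (Λ ^ η * (2 ^ η) ^ j) := by
      rw [pow_succ]; ring
    rw [e1, Real.mul_rpow (by positivity) (by positivity),
      Real.mul_rpow (x := (2 ^ η + 1) * ca) (by positivity) (by positivity),
      Real.mul_rpow (x := Λ ^ η) (by positivity) (by positivity)]
    have e2 : (Λ ^ η) ^ (p1 / p) ≤ Λ ^ η := by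
      calc (Λ ^ η) ^ (p1 / p) ≤ (Λ ^ η) ^ (1:ℝ) :=
            Real.rpow_le_rpow_of_exponent_le hΛη ((div_le_one hp0).2 h1p.le)
        _ = _ := Real.rpow_one _
    have e3 : ((1 / 2 : ℝ) ^ j) ^ ((p - p1) / p) * ((2 ^ η) ^ j) ^ (p1 / p) = r ^ j := by
      have h2 : (0:ℝ) < 2 := by norm_num
      have h3 : ((1:ℝ) / 2) ^ j = 2 ^ (-(j:ℝ)) := by
        rw [Real.rpow_neg h2.le, Real.rpow_natCast, one_div, inv_pow]
      have h4 : ((2:ℝ) ^ η) ^ j = 2 ^ (η * j) := by
        rw [← Real.rpow_natCast, ← Real.rpow_mul h2.le]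
      rw [h3, h4, ← Real.rpow_mul h2.le, ← Real.rpow_mul h2.le, ← Real.rpow_add h2, hr,
        ← Real.rpow_natCast, ← Real.rpow_mul h2.le]
      congr 1
      field_simp
      ring
    calc (2 * M) ^ ((p - p1) / p) * ((1 / 2 : ℝ) ^ j) ^ ((p - p1) / p) *
          (((2 ^ η + 1) * ca) ^ (p1 / p) * ((Λ ^ η) ^ (p1 / p) * ((2 ^ η) ^ j) ^ (p1 / p)))
        = E0 * (Λ ^ η) ^ (p1 / p) * (((1 / 2 : ℝ) ^ j) ^ ((p - p1) / p) *
            ((2 ^ η) ^ j) ^ (p1 / p)) := by rw [hE0]; ring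
      _ = E0 * (Λ ^ η) ^ (p1 / p) * r ^ j := by rw [e3]
      _ ≤ E0 * Λ ^ η * r ^ j := by gcongr
  have hfinal : eLpNorm' (extn fun x => a x * Complex.exp (((l * φ x : ℝ) : ℂ) * Complex.I)) p volume ≤
      ENNReal.ofReal ((cb + E0 * (1 - r)⁻¹) * Λ ^ η) := by
    refine key.trans ?_
    have h1 : eLpNorm' (extn (G 0)) p volume ≤ ENNReal.ofReal (cb * Λ ^ η) := by
      refine (hnb 0).trans (le_of_eq ?_)
      rw [pow_zero, mul_one]
    have h2 : ∑' j : ℕ, ENNReal.ofReal ((2 * M * (1 / 2) ^ (0 + j)) ^ ((p - p1) / p)) *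
        (ENNReal.ofReal (ca * (Λ ^ η * (2 ^ η) ^ (0 + j + 1))) +
        ENNReal.ofReal (ca * (Λ ^ η * (2 ^ η) ^ (0 + j)))) ^ (p1 / p) ≤
        ENNReal.ofReal (E0 * Λ ^ η * (1 - r)⁻¹) := by
      refine (ENNReal.tsum_le_tsum hterm).trans (le_of_eq ?_)
      rw [← ENNReal.ofReal_tsum_of_nonneg (fun j => by positivity)
        ((summable_geometric_of_lt_one hr0 hr1).mul_left _), tsum_mul_left,
        tsum_geometric_of_lt_one hr0 hr1]
    refine (add_le_add h1 h2).trans (le_of_eq ?_)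
    rw [← ENNReal.ofReal_add (by positivity) (by positivity)]
    congr 1
    ring
  have h3 := ENNReal.rpow_le_rpow hfinal hp0.le
  unfold eLpNorm' at h3
  rw [← ENNReal.rpow_mul, one_div_mul_cancel hp0.ne', ENNReal.rpow_one] at h3
  refine h3.trans ?_
  rw [ENNReal.ofReal_rpow_of_nonneg (by positivity) hp0.le, ← ENNReal.ofReal_mul (by positivity)]
  refine ENNReal.ofReal_le_ofReal ?_
  rw [Real.mul_rpow (by positivity) (by positivity), ← hΛ]
  refine mul_le_mul_of_nonneg_left ?_ (by positivity)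
  rw [← Real.rpow_mul hΛ0.le]
  exact Real.rpow_le_rpow_of_exponent_le hΛ1 hηε

/-- **The restriction estimate with an arbitrarily small loss for tame phases and amplitudes of
bounded variation**, with a constant which depends only on the constants of the phase. -/
theorem tame_loss_u_bv (p ε : ℝ) (hp : 3 < p) (hε : 0 < ε) : ∃ η : ℝ, 0 < η ∧
    ∀ (D N : ℕ) (C0 : ℝ), 0 < C0 → ∃ C : ℝ≥0∞, C ≠ ∞ ∧ ∀ φ : E 3 → ℝ, Measurable φ →
      TameAt η D N C0 φ → ∀ (V : ℝ) (a : E 3 → ℂ), 1 ≤ V → Measurable a → (∀ x, ‖a x‖ ≤ 1) →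
      BVar 1 V a → ∀ l : ℝ,
      ∫⁻ ξ, ‖extn (fun x => a x * Complex.exp (((l * φ x : ℝ) : ℂ) * Complex.I)) ξ‖ₑ ^ p ≤
        C * ENNReal.ofReal (V ^ (p - 1) * (1 + |l|) ^ ε) := by
  have hp0 : 0 < p := by linarith
  obtain ⟨p1, hp1⟩ : ∃ p1 : ℝ, p1 = (3 + p) / 2 := ⟨_, rfl⟩
  have h31 : 3 < p1 := by rw [hp1]; linarith
  have h1p : p1 < p := by rw [hp1]; linarith
  have hp10 : 0 < p1 := by linarith
  obtain ⟨η, hη⟩ : ∃ η : ℝ, η = min (ε / p) ((p - p1) / (2 * p1)) := ⟨_, rfl⟩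
  have hη0 : 0 < η := by
    rw [hη]
    refine lt_min (by positivity) (div_pos (by linarith) (by positivity))
  have hηε : η * p ≤ ε := by
    have : η ≤ ε / p := by rw [hη]; exact min_le_left _ _
    rwa [le_div_iff₀ hp0] at this
  have hηp : η * p1 ≤ (p - p1) / 2 := by
    have : η ≤ (p - p1) / (2 * p1) := by rw [hη]; exact min_le_right _ _
    rw [le_div_iff₀ (by positivity)] at this
    linarith
  refine ⟨η, hη0, fun D N C0 hC0 => ?_⟩
  obtain ⟨Ba, hBa, Ha⟩ := bc_bound_amp D N p1 h31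
  obtain ⟨Bb, hBb, Hb⟩ := bc_bound_amp D N p hp
  obtain ⟨ρ, hρ⟩ : ∃ ρ : ℝ, ρ = (1 - (2:ℝ) ^ (-((p - p1 - η * p1) / p)))⁻¹ := ⟨_, rfl⟩
  have hρ0 : 0 ≤ ρ := by
    rw [hρ]
    refine inv_nonneg.2 ?_
    have : (2:ℝ) ^ (-((p - p1 - η * p1) / p)) ≤ 1 := by
      refine Real.rpow_le_one_of_one_le_of_nonpos (by norm_num) ?_
      have : 0 < (p - p1 - η * p1) / p := div_pos (by linarith) hp0
      linarith
    linarith
  obtain ⟨σ, hσ⟩ : ∃ σ : ℝ, σ = (sm 3).real univ := ⟨_, rfl⟩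
  have hσ0 : 0 ≤ σ := by rw [hσ]; exact measureReal_nonneg
  refine ⟨ENNReal.ofReal ((C0 * (Bb ^ (1 / p)).toReal +
          (2 * (σ + 2 * C0)) ^ ((p - p1) / p) *
            ((2 ^ η + 1) * (C0 * (Ba ^ (1 / p1)).toReal)) ^ (p1 / p) * ρ) ^ p),
    ENNReal.ofReal_ne_top, fun φ hφm happ V a hV ham hab hvar l => ?_⟩
  have hV0 : 0 < V := by linarith
  have hVt : ∀ q : ℝ, 0 ≤ q → ENNReal.ofReal V ^ q ≠ ∞ := fun q hq =>
    ENNReal.rpow_ne_top_of_nonneg hq ENNReal.ofReal_ne_top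
  refine (tame_core p ε p1 η hp h31 h1p hη0 hηε hηp D N C0 hC0 a ham hab
    (Ba * ENNReal.ofReal V ^ (p1 - 1)) (Bb * ENNReal.ofReal V ^ (p - 1))
    (ENNReal.mul_ne_top hBa (hVt _ (by linarith))) (ENNReal.mul_ne_top hBb (hVt _ (by linarith)))
    (Ha V a hV ham hab hvar) (Hb V a hV ham hab hvar) φ hφm happ l).trans ?_
  rw [← hρ, ← hσ, ENNReal.ofReal_mul (by positivity),
    show ∀ x y z : ℝ≥0∞, x * (y * z) = x * y * z from fun x y z => (mul_assoc x y z).symm]
  refine mul_le_mul' ?_ le_rfl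
  rw [← ENNReal.ofReal_mul (by positivity)]
  refine ENNReal.ofReal_le_ofReal ?_
  have e0 : ∀ (B : ℝ≥0∞) (q : ℝ), 1 < q → ((B * ENNReal.ofReal V ^ (q - 1)) ^ (1 / q)).toReal =
      (B ^ (1 / q)).toReal * V ^ ((q - 1) / q) := by
    intro B q hq
    rw [ENNReal.mul_rpow_of_nonneg _ _ (by positivity), ENNReal.toReal_mul, ← ENNReal.rpow_mul,
      ENNReal.ofReal_rpow_of_nonneg hV0.le (by
        have : 0 ≤ q - 1 := by linarith
        positivity), ENNReal.toReal_ofReal (by positivity)]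
    congr 2
    ring
  rw [e0 Bb p (by linarith), e0 Ba p1 (by linarith)]
  obtain ⟨v, hv⟩ : ∃ v : ℝ, v = V ^ ((p - 1) / p) := ⟨_, rfl⟩
  have hv0 : 0 ≤ v := by rw [hv]; positivity
  have hvp : v ^ p = V ^ (p - 1) := by
    rw [hv, ← Real.rpow_mul hV0.le]
    congr 1
    field_simp
  have hva : (V ^ ((p1 - 1) / p1)) ^ (p1 / p) ≤ v := by
    rw [hv, ← Real.rpow_mul hV0.le]
    refine Real.rpow_le_rpow_of_exponent_le hV ?_
    have : (p1 - 1) / p1 * (p1 / p) = (p1 - 1) / p := by field_simp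
    rw [this]
    gcongr
  rw [← hv, ← hvp]
  have h2η : (0:ℝ) ≤ 2 ^ η + 1 := by positivity
  have e1 : ((2 ^ η + 1) * (C0 * ((Ba ^ (1 / p1)).toReal * V ^ ((p1 - 1) / p1)))) ^ (p1 / p) ≤
      ((2 ^ η + 1) * (C0 * (Ba ^ (1 / p1)).toReal)) ^ (p1 / p) * v := by
    have e2 : (2 ^ η + 1) * (C0 * ((Ba ^ (1 / p1)).toReal * V ^ ((p1 - 1) / p1))) =
        ((2 ^ η + 1) * (C0 * (Ba ^ (1 / p1)).toReal)) * V ^ ((p1 - 1) / p1) := by ring
    rw [e2, Real.mul_rpow (by positivity) (by positivity)]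
    exact mul_le_mul_of_nonneg_left hva (by positivity)
  rw [← Real.mul_rpow (by positivity) hv0]
  refine Real.rpow_le_rpow (by positivity) ?_ hp0.le
  calc C0 * ((Bb ^ (1 / p)).toReal * v) + (2 * (σ + 2 * C0)) ^ ((p - p1) / p) *
        ((2 ^ η + 1) * (C0 * ((Ba ^ (1 / p1)).toReal * V ^ ((p1 - 1) / p1)))) ^ (p1 / p) * ρ
      ≤ C0 * ((Bb ^ (1 / p)).toReal * v) + (2 * (σ + 2 * C0)) ^ ((p - p1) / p) *
        (((2 ^ η + 1) * (C0 * (Ba ^ (1 / p1)).toReal)) ^ (p1 / p) * v) * ρ := by gcongr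
    _ = _ := by ring

end Pool.Agent.VAN.TM
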