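import Pool.Agent.VAN.TM1

/-!
Tame functions: sums, products with polynomials.
-/

set_option autoImplicit false

namespace Pool.Agent.VAN.TM

open MeasureTheory Set MvPolynomial Pool.Agent.MP_6cbfb8_an Filter Topology
open scoped ENNReal Real

theorem Tame.congr {φ ψ : E 3 → ℝ} (h : Tame φ) (he : ∀ x : E 3, ‖x‖ = 1 → φ x = ψ x) : Tame ψ := by
  intro η hη
  obtain ⟨D, N, C, hC, H⟩ := h η hη
  refine ⟨D, N, C, hC, fun δ hδ hδ1 => ?_⟩
  obtain ⟨ι, s, T, q, b, h1, h2, h3, h4, h5, h6⟩ := H δ hδ hδ1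
  refine ⟨ι, s, T, q, b, h1, h2, h3, h4, fun x hx j hj h0 => ?_, h6⟩
  rw [← he x hx]
  exact h5 x hx j hj h0

lemma one_le_rpow_neg {δ η : ℝ} (hδ : 0 < δ) (hδ1 : δ ≤ 1) (hη : 0 < η) : 1 ≤ δ ^ (-η) :=
  Real.one_le_rpow_of_pos_of_le_one_of_nonpos hδ hδ1 (by linarith)

theorem tame_poly (P : MvPolynomial (Fin 3) ℝ) : Tame (ev P) := by
  intro η hη
  refine ⟨P.totalDegree, 0, 1, one_pos, fun δ hδ hδ1 => ?_⟩
  refine ⟨Unit, {()}, fun _ => P, fun _ i => i.elim0, fun _ i => i.elim0, ?_, fun _ _ => le_rfl,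
    fun _ _ i => i.elim0, ?_, ?_, ?_⟩
  · simp only [Finset.card_singleton, Nat.cast_one, one_mul]
    exact one_le_rpow_neg hδ hδ1 hη
  · intro x _
    simp [bc]
  · intro x _ j _ _
    simp [hδ.le]
  · have h1 : {x : S 3 | ∑ j ∈ ({()} : Finset Unit), bc (fun i : Fin 0 => i.elim0)
        (fun i : Fin 0 => i.elim0) (x : E 3) ≠ 1} = ∅ := by
      ext x
      simp [bc]
    rw [h1, measure_empty]
    exact zero_le

theorem Tame.add {φ ψ : E 3 → ℝ} (hφ : Tame φ) (hψ : Tame ψ) : Tame fun x => φ x + ψ x := by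
  intro η hη
  obtain ⟨D, N, C, hC, H⟩ := hφ (η / 2) (by positivity)
  obtain ⟨D', N', C', hC', H'⟩ := hψ (η / 2) (by positivity)
  refine ⟨max D D', N + N', max (C * C' * 2 ^ η) (C / 2 + C' / 2), by positivity, fun δ hδ hδ1 => ?_⟩
  have hδ2 : 0 < δ / 2 := by positivity
  obtain ⟨ι, s, T, q, b, h1, h2, h3, h4, h5, h6⟩ := H (δ / 2) hδ2 (by linarith)
  obtain ⟨ι', s', T', q', b', h1', h2', h3', h4', h5', h6'⟩ := H' (δ / 2) hδ2 (by linarith)
  have hsum : ∀ x : E 3, ∑ j ∈ s ×ˢ s', bc (Fin.append (q j.1) (q' j.2)) (Fin.append (b j.1) (b' j.2)) x =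
      (∑ j ∈ s, bc (q j) (b j) x) * ∑ j ∈ s', bc (q' j) (b' j) x := by
    intro x
    rw [Finset.sum_mul_sum, ← Finset.sum_product']
    exact Finset.sum_congr rfl fun j _ => bc_append _ _ _ _ x
  have hs0 : ∀ x : E 3, 0 ≤ ∑ j ∈ s, bc (q j) (b j) x := fun x =>
    Finset.sum_nonneg fun j _ => bc_nonneg _ _ x
  have hs0' : ∀ x : E 3, 0 ≤ ∑ j ∈ s', bc (q' j) (b' j) x := fun x =>
    Finset.sum_nonneg fun j _ => bc_nonneg _ _ x
  refine ⟨ι × ι', s ×ˢ s', fun j => T j.1 + T' j.2, fun j => Fin.append (q j.1) (q' j.2),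
    fun j => Fin.append (b j.1) (b' j.2), ?_, ?_, ?_, ?_, ?_, ?_⟩
  · rw [Finset.card_product]
    push_cast
    have e : (δ / 2) ^ (-(η / 2)) * (δ / 2) ^ (-(η / 2)) = 2 ^ η * δ ^ (-η) := by
      rw [← Real.rpow_add hδ2, div_eq_mul_inv, Real.mul_rpow hδ.le (by norm_num),
        Real.inv_rpow (by norm_num), ← Real.rpow_neg (by norm_num)]
      rw [show -(η / 2) + -(η / 2) = -η by ring, neg_neg]
      ring
    calc (s.card : ℝ) * s'.card ≤ (C * (δ / 2) ^ (-(η / 2))) * (C' * (δ / 2) ^ (-(η / 2))) := by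
          gcongr
      _ = C * C' * ((δ / 2) ^ (-(η / 2)) * (δ / 2) ^ (-(η / 2))) := by ring
      _ = C * C' * 2 ^ η * δ ^ (-η) := by rw [e]; ring
      _ ≤ _ := by gcongr; exact le_max_left _ _
  · intro j hj
    rw [Finset.mem_product] at hj
    exact (totalDegree_add _ _).trans (max_le_max (h2 _ hj.1) (h2' _ hj.2))
  · intro j hj i
    rw [Finset.mem_product] at hj
    refine Fin.addCases (fun k => ?_) (fun k => ?_) i
    · simp only [Fin.append_left]
      exact (h3 _ hj.1 k).trans (le_max_left _ _)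
    · simp only [Fin.append_right]
      exact (h3' _ hj.2 k).trans (le_max_right _ _)
  · intro x hx
    rw [hsum]
    exact mul_le_one₀ (h4 x hx) (hs0' x) (h4' x hx)
  · intro x hx j hj h0
    rw [Finset.mem_product] at hj
    rw [bc_append] at h0
    have e1 := h5 x hx _ hj.1 (left_ne_zero_of_mul h0)
    have e2 := h5' x hx _ hj.2 (right_ne_zero_of_mul h0)
    have e3 : φ x + ψ x - ev (T j.1 + T' j.2) x =
        (φ x - ev (T j.1) x) + (ψ x - ev (T' j.2) x) := by
      unfold ev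
      rw [map_add]
      ring
    rw [e3]
    calc _ ≤ |φ x - ev (T j.1) x| + |ψ x - ev (T' j.2) x| := abs_add_le _ _
      _ ≤ δ := by linarith
  · have hsub : {x : S 3 | ∑ j ∈ s ×ˢ s', bc (Fin.append (q j.1) (q' j.2))
        (Fin.append (b j.1) (b' j.2)) (x : E 3) ≠ 1} ⊆
        {x : S 3 | ∑ j ∈ s, bc (q j) (b j) (x : E 3) ≠ 1} ∪
          {x : S 3 | ∑ j ∈ s', bc (q' j) (b' j) (x : E 3) ≠ 1} := by
      intro x hx
      by_contra h
      rw [mem_union, not_or] at h
      have e1 : ∑ j ∈ s, bc (q j) (b j) (x : E 3) = 1 := not_not.1 h.1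
      have e2 : ∑ j ∈ s', bc (q' j) (b' j) (x : E 3) = 1 := not_not.1 h.2
      refine hx ?_
      rw [hsum, e1, e2, mul_one]
    refine (measure_mono hsub).trans ((measure_union_le _ _).trans ((add_le_add h6 h6').trans ?_))
    rw [← ENNReal.ofReal_add (by positivity) (by positivity)]
    refine ENNReal.ofReal_le_ofReal ?_
    calc C * (δ / 2) + C' * (δ / 2) = (C / 2 + C' / 2) * δ := by ring
      _ ≤ _ := by gcongr; exact le_max_right _ _

theorem exists_bound (P : MvPolynomial (Fin 3) ℝ) : ∃ B : ℝ, 1 ≤ B ∧ ∀ x : E 3, ‖x‖ = 1 → |ev P x| ≤ B := by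
  have h1 : Continuous fun x : E 3 => ev P x := by
    unfold ev
    apply MvPolynomial.continuous_eval P |>.comp
    exact continuous_pi fun i => by fun_prop
  obtain ⟨B, hB⟩ := (isCompact_sphere (0 : E 3) 1).exists_bound_of_continuousOn h1.continuousOn
  refine ⟨max B 1, le_max_right _ _, fun x hx => ?_⟩
  exact (hB x (mem_sphere_zero_iff_norm.2 hx)).trans (le_max_left _ _)

theorem Tame.polymul {φ : E 3 → ℝ} (hφ : Tame φ) (P : MvPolynomial (Fin 3) ℝ) :
    Tame fun x => ev P x * φ x := by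
  obtain ⟨B, hB1, hB⟩ := exists_bound P
  have hB0 : 0 < B := by linarith
  intro η hη
  obtain ⟨D, N, C, hC, H⟩ := hφ η hη
  refine ⟨P.totalDegree + D, N, max (C * B ^ η) C, by positivity, fun δ hδ hδ1 => ?_⟩
  have hδB : 0 < δ / B := by positivity
  have hδB1 : δ / B ≤ 1 := by
    rw [div_le_one hB0]; linarith
  obtain ⟨ι, s, T, q, b, h1, h2, h3, h4, h5, h6⟩ := H (δ / B) hδB hδB1
  refine ⟨ι, s, fun j => P * T j, q, b, ?_, fun j hj => ?_, fun j hj i => ?_, h4,
    fun x hx j hj h0 => ?_, ?_⟩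
  · refine h1.trans ?_
    have e : (δ / B) ^ (-η) = B ^ η * δ ^ (-η) := by
      rw [div_eq_mul_inv, Real.mul_rpow hδ.le (by positivity), Real.inv_rpow hB0.le,
        ← Real.rpow_neg hB0.le, neg_neg, mul_comm]
    rw [e, ← mul_assoc]
    gcongr
    exact le_max_left _ _
  · exact (totalDegree_mul _ _).trans (add_le_add le_rfl (h2 j hj))
  · exact (h3 j hj i).trans (Nat.le_add_left _ _)
  · have e1 := h5 x hx j hj h0
    have e2 : ev P x * φ x - ev (P * T j) x = ev P x * (φ x - ev (T j) x) := by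
      unfold ev
      rw [map_mul]
      ring
    simp only
    rw [e2, abs_mul]
    calc |ev P x| * |φ x - ev (T j) x| ≤ B * (δ / B) :=
          mul_le_mul (hB x hx) e1 (abs_nonneg _) hB0.le
      _ = δ := by field_simp
  · refine h6.trans (ENNReal.ofReal_le_ofReal ?_)
    calc C * (δ / B) ≤ C * δ := by
          gcongr
          exact div_le_self hδ.le hB1
      _ ≤ _ := by gcongr; exact le_max_right _ _

theorem tame_sum {ι : Type*} (s : Finset ι) (φ : ι → E 3 → ℝ) (h : ∀ i ∈ s, Tame (φ i)) :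
    Tame fun x => ∑ i ∈ s, φ i x := by
  classical
  induction s using Finset.induction_on with
  | empty =>
    refine (tame_poly 0).congr fun x _ => ?_
    simp [ev]
  | insert a s ha ih =>
    have h1 := (h a (Finset.mem_insert_self a s)).add
      (ih fun i hi => h i (Finset.mem_insert_of_mem hi))
    refine h1.congr fun x _ => ?_
    rw [Finset.sum_insert ha]

end Pool.Agent.VAN.TM
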