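import Pool.Agent.VAN.TM2
import Pool.Agent.VAN.B4
import Pool.Agent.VAN.SP2

/-!
Compositions of functions with a power type singularity at one point with polynomial maps are tame.
-/

set_option autoImplicit false

namespace Pool.Agent.VAN.TM

open MeasureTheory Set MvPolynomial Pool.Agent.MP_6cbfb8_an Filter Topology
open Pool.Agent.VAN.SP (J J_sub)
open scoped ENNReal Real ContDiff

variable {k : ℕ}

/-- the indicator of the half open cube with lower corner `s` and side `h` in `R^k` -/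
noncomputable def bx (s : Fin k → ℝ) (h : ℝ) (y : E k) : ℝ := ∏ i, (J (s i) (y i) - J (s i + h) (y i))

lemma bx_eq (s : Fin k → ℝ) {h : ℝ} (hh : 0 ≤ h) (y : E k) :
    bx s h y = if ∀ i, s i < y i ∧ y i ≤ s i + h then 1 else 0 := by
  unfold bx
  simp only [J_sub hh]
  by_cases h1 : ∀ i, s i < y i ∧ y i ≤ s i + h
  · rw [if_pos h1]
    exact Finset.prod_eq_one fun i _ => if_pos (h1 i)
  · rw [if_neg h1]
    push Not at h1
    obtain ⟨i, hi⟩ := h1
    exact Finset.prod_eq_zero (Finset.mem_univ i) (if_neg fun h2 => absurd h2.2 (not_le.2 (hi h2.1)))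

lemma bx_nonneg (s : Fin k → ℝ) {h : ℝ} (hh : 0 ≤ h) (y : E k) : 0 ≤ bx s h y := by
  rw [bx_eq s hh]; split_ifs <;> norm_num

lemma bx_mem {s : Fin k → ℝ} {h : ℝ} (hh : 0 ≤ h) {y : E k} (hy : bx s h y ≠ 0) (i : Fin k) :
    s i < y i ∧ y i ≤ s i + h := by
  rw [bx_eq s hh] at hy
  by_contra h1
  exact hy (if_neg fun h2 => h1 (h2 i))

/-- the subdivision of a cube into `M^k` cubes -/
lemma bx_sum (s : Fin k → ℝ) (h : ℝ) (M : ℕ) (hM : 0 < M) (y : E k) :
    bx s h y = ∑ q ∈ Fintype.piFinset (fun _ : Fin k => Finset.range M),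
      bx (fun i => s i + (q i : ℝ) * (h / M)) (h / M) y := by
  have hM0 : (M : ℝ) ≠ 0 := by exact_mod_cast hM.ne'
  unfold bx
  rw [← Finset.prod_univ_sum (fun _ => Finset.range M)
    (fun i (m : ℕ) => J (s i + (m : ℝ) * (h / M)) (y i) - J (s i + (m : ℝ) * (h / M) + h / M) (y i))]
  refine Finset.prod_congr rfl fun i _ => ?_
  have h1 := Finset.sum_range_sub' (fun m : ℕ => J (s i + (m : ℝ) * (h / M)) (y i)) M
  have e1 : J (s i) (y i) - J (s i + h) (y i) = J (s i + ((0 : ℕ) : ℝ) * (h / M)) (y i) -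
      J (s i + ((M : ℕ) : ℝ) * (h / M)) (y i) := by
    congr 2
    · push_cast; ring
    · field_simp
  rw [e1, ← h1]
  refine Finset.sum_congr rfl fun m _ => ?_
  congr 2
  push_cast
  ring

/-- The indices of the Whitney cubes of one generation. -/
def gd (k : ℕ) : Finset (Fin k → ℕ) :=
  (Fintype.piFinset fun _ : Fin k => Finset.range 4) \ Fintype.piFinset fun _ : Fin k => {1, 2}

lemma card_gd_le : (gd k).card ≤ 4 ^ k := by
  unfold gd
  refine (Finset.card_le_card Finset.sdiff_subset).trans ?_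
  rw [Fintype.card_piFinset]
  simp

lemma shell_bx (u : Fin k → ℝ) (h : ℝ) (y : E k) :
    bx u (4 * h) y - bx (fun i => u i + h) (2 * h) y =
      ∑ a ∈ gd k, bx (fun i => u i + (a i : ℝ) * h) h y := by
  have h1 : bx u (4 * h) y = ∑ a ∈ Fintype.piFinset (fun _ : Fin k => Finset.range 4),
      bx (fun i => u i + (a i : ℝ) * h) h y := by
    have h2 := bx_sum u (4 * h) 4 (by norm_num) y
    have h3 : 4 * h / ((4 : ℕ) : ℝ) = h := by push_cast; field_simp
    rw [h3] at h2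
    exact h2
  have h2 : bx (fun i => u i + h) (2 * h) y = ∑ a ∈ Fintype.piFinset (fun _ : Fin k => ({1, 2} : Finset ℕ)),
      bx (fun i => u i + (a i : ℝ) * h) h y := by
    unfold bx
    rw [← Finset.prod_univ_sum (fun _ : Fin k => ({1, 2} : Finset ℕ))
      (fun i (m : ℕ) => J (u i + (m : ℝ) * h) (y i) - J (u i + (m : ℝ) * h + h) (y i))]
    refine Finset.prod_congr rfl fun i _ => ?_
    rw [Finset.sum_pair (by norm_num)]
    have e1 : u i + ((1 : ℕ) : ℝ) * h = u i + h := by push_cast; ring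
    have e2 : u i + ((2 : ℕ) : ℝ) * h = u i + h + h := by push_cast; ring
    have e3 : u i + h + 2 * h = u i + h + h + h := by ring
    rw [e1, e2, e3]
    ring
  have hsub : (Fintype.piFinset fun _ : Fin k => ({1, 2} : Finset ℕ)) ⊆
      Fintype.piFinset fun _ : Fin k => Finset.range 4 := by
    refine Fintype.piFinset_subset _ _ fun _ => ?_
    intro m hm
    simp only [Finset.mem_insert, Finset.mem_singleton] at hm
    rw [Finset.mem_range]
    omega
  rw [h1, h2]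
  unfold gd
  rw [← Finset.sum_sdiff hsub]
  ring

/-- the side of the Whitney cubes of generation `j` -/
noncomputable def hs (H : ℝ) (j : ℕ) : ℝ := H * (1 / 2) ^ j

lemma hs_pos {H : ℝ} (hH : 0 < H) (j : ℕ) : 0 < hs H j := by unfold hs; positivity

lemma hs_anti {H : ℝ} (hH : 0 < H) {i j : ℕ} (hij : i ≤ j) : hs H j ≤ hs H i := by
  unfold hs
  exact mul_le_mul_of_nonneg_left (pow_le_pow_of_le_one (by norm_num) (by norm_num) hij) hH.le

/-- the lower corner of a Whitney cube at `z` -/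
noncomputable def wk (z : E k) (H : ℝ) (j : ℕ) (a : Fin k → ℕ) (i : Fin k) : ℝ :=
  (z i - 2 * hs H j) + (a i : ℝ) * hs H j

lemma sum_wh (z : E k) (H : ℝ) (N : ℕ) (y : E k) :
    ∑ j ∈ Finset.range N, ∑ a ∈ gd k, bx (wk z H j a) (hs H j) y =
      bx (fun i => z i - 2 * hs H 0) (4 * hs H 0) y - bx (fun i => z i - 2 * hs H N) (4 * hs H N) y := by
  induction N with
  | zero => simp
  | succ N ih =>
    rw [Finset.sum_range_succ, ih]
    have h1 := shell_bx (fun i => z i - 2 * hs H N) (hs H N) y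
    have h2 : hs H (N + 1) = hs H N / 2 := by unfold hs; rw [pow_succ]; ring
    have e1 : (fun i => z i - 2 * hs H N + hs H N) = fun i => z i - 2 * hs H (N + 1) := by
      funext i; rw [h2]; ring
    have e2 : 2 * hs H N = 4 * hs H (N + 1) := by rw [h2]; ring
    rw [e1] at h1
    have h3 : bx (fun i => z i - 2 * hs H (N + 1)) (2 * hs H N) y =
        bx (fun i => z i - 2 * hs H (N + 1)) (4 * hs H (N + 1)) y := by rw [e2]
    rw [h3] at h1
    have h4 : ∑ a ∈ gd k, bx (wk z H N a) (hs H N) y =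
        ∑ a ∈ gd k, bx (fun i => z i - 2 * hs H N + (a i : ℝ) * hs H N) (hs H N) y := rfl
    rw [h4, ← h1]
    ring

lemma coord_le (y : E k) (i : Fin k) : |y i| ≤ ‖y‖ := by
  rw [← Real.norm_eq_abs]
  exact PiLp.norm_apply_le y i

lemma norm_le_coord {y : E k} {c : ℝ} (hc : 0 ≤ c) (h : ∀ i, |y i| ≤ c) : ‖y‖ ≤ (k + 1 : ℝ) * c := by
  have hk : (0:ℝ) ≤ k := Nat.cast_nonneg k
  have h5 : ‖y‖ ^ 2 ≤ k * c ^ 2 := by
    rw [EuclideanSpace.norm_sq_eq]
    calc ∑ i, ‖y i‖ ^ 2 ≤ ∑ _i : Fin k, c ^ 2 := by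
          refine Finset.sum_le_sum fun i _ => ?_
          rw [Real.norm_eq_abs]
          exact pow_le_pow_left₀ (abs_nonneg _) (h i) 2
      _ = k * c ^ 2 := by simp
  refine le_of_sq_le_sq (h5.trans ?_) (by positivity)
  have : (k:ℝ) * c ^ 2 ≤ (k + 1) ^ 2 * c ^ 2 := by
    refine mul_le_mul_of_nonneg_right ?_ (by positivity)
    nlinarith
  linarith [mul_pow ((k:ℝ) + 1) c 2]

lemma gd_far {z : E k} {H : ℝ} (hH : 0 < H) {j : ℕ} {a : Fin k → ℕ} (ha : a ∈ gd k) (y : E k)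
    (hy : ∀ i, wk z H j a i ≤ y i ∧ y i ≤ wk z H j a i + hs H j) : hs H j ≤ ‖y - z‖ := by
  unfold gd at ha
  rw [Finset.mem_sdiff, Fintype.mem_piFinset, Fintype.mem_piFinset] at ha
  obtain ⟨h1, h2⟩ := ha
  push Not at h2
  obtain ⟨i, hi⟩ := h2
  have h3 := h1 i
  rw [Finset.mem_range] at h3
  simp only [Finset.mem_insert, Finset.mem_singleton] at hi
  have h4 := hy i
  unfold wk at h4
  have hp := hs_pos hH j
  have h5 := coord_le (y - z) i
  have h6 : (y - z) i = y i - z i := rfl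
  rw [h6] at h5
  have h7 : a i = 0 ∨ a i = 3 := by omega
  rcases h7 with h7 | h7
  · rw [h7] at h4
    push_cast at h4
    have := neg_abs_le (y i - z i)
    linarith [h4.2]
  · rw [h7] at h4
    push_cast at h4
    have := le_abs_self (y i - z i)
    linarith [h4.1]

lemma gd_near {z : E k} {H : ℝ} (hH : 0 < H) {j : ℕ} {a : Fin k → ℕ} (ha : a ∈ gd k) (y : E k)
    (hy : ∀ i, wk z H j a i ≤ y i ∧ y i ≤ wk z H j a i + hs H j) :
    ‖y - z‖ ≤ (k + 1) * (2 * hs H j) := by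
  have hp := hs_pos hH j
  refine norm_le_coord (by positivity) fun i => ?_
  have h1 := hy i
  unfold wk at h1
  unfold gd at ha
  rw [Finset.mem_sdiff, Fintype.mem_piFinset] at ha
  have h3 := ha.1 i
  rw [Finset.mem_range] at h3
  have h4 : (a i : ℝ) ≤ 3 := by exact_mod_cast Nat.lt_succ_iff.1 h3
  have h5 : (0:ℝ) ≤ a i := Nat.cast_nonneg _
  have h2 : (y - z) i = y i - z i := rfl
  rw [h2, abs_le]
  constructor
  · nlinarith [h1.1]
  · nlinarith [h1.2]

/-- The index set of the cells of level `m`. -/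
abbrev cls (k m : ℕ) : Finset (Fin k → ℕ) := Fintype.piFinset fun _ : Fin k => Finset.range (2 ^ m)

/-- The lower corner of a cell. -/
noncomputable def ck (s : Fin k → ℝ) (h : ℝ) (m : ℕ) (q : Fin k → ℕ) (i : Fin k) : ℝ :=
  s i + (q i : ℝ) * (h / 2 ^ m)

lemma bx_cells (s : Fin k → ℝ) (h : ℝ) (m : ℕ) (y : E k) :
    bx s h y = ∑ q ∈ cls k m, bx (ck s h m q) (h / 2 ^ m) y := by
  have h1 := bx_sum s h (2 ^ m) (by positivity) y
  push_cast at h1
  exact h1

lemma card_cls (m : ℕ) : (cls k m).card = (2 ^ m) ^ k := by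
  rw [Fintype.card_piFinset]
  simp

lemma cell_sub {s : Fin k → ℝ} {h : ℝ} (hh : 0 ≤ h) {m : ℕ} {q : Fin k → ℕ} (hq : q ∈ cls k m)
    {y : E k} (hy : bx (ck s h m q) (h / 2 ^ m) y ≠ 0) : ∀ i, s i < y i ∧ y i ≤ s i + h := by
  have hh' : 0 ≤ h / 2 ^ m := by positivity
  have h1 : bx s h y ≠ 0 := by
    rw [bx_cells s h m y]
    refine ne_of_gt (lt_of_lt_of_le (lt_of_le_of_ne (bx_nonneg _ hh' y) hy.symm)
      (Finset.single_le_sum (f := fun q => bx (ck s h m q) (h / 2 ^ m) y)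
        (fun q _ => bx_nonneg _ hh' y) hq))
  exact fun i => bx_mem hh h1 i

/-- The polynomial map. -/
noncomputable def qm (Q : Fin k → MvPolynomial (Fin 3) ℝ) (x : E 3) : E k :=
  WithLp.toLp 2 fun i => ev (Q i) x

lemma qm_apply (Q : Fin k → MvPolynomial (Fin 3) ℝ) (x : E 3) (i : Fin k) :
    qm Q x i = ev (Q i) x := rfl

/-- the cuts which describe the preimage of a cube -/
noncomputable def bq (Q : Fin k → MvPolynomial (Fin 3) ℝ) (s : Fin k → ℝ) (h : ℝ) :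
    Fin (k + k) → MvPolynomial (Fin 3) ℝ :=
  Fin.append (fun i => Q i - C (s i)) (fun i => Q i - C (s i + h))

lemma bc_bq (Q : Fin k → MvPolynomial (Fin 3) ℝ) (s : Fin k → ℝ) {h : ℝ} (hh : 0 ≤ h) (x : E 3) :
    bc (bq Q s h) (Fin.append (fun _ => true) (fun _ => false)) x = bx s h (qm Q x) := by
  unfold bq
  rw [bc_append]
  unfold bc bx
  rw [← Finset.prod_mul_distrib]
  refine Finset.prod_congr rfl fun i _ => ?_
  have e1 : ev (Q i - C (s i)) x = qm Q x i - s i := by unfold ev; rw [map_sub, eval_C]; rfl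
  have e2 : ev (Q i - C (s i + h)) x = qm Q x i - (s i + h) := by
    unfold ev; rw [map_sub, eval_C]; rfl
  rw [e1, e2]
  simp only [if_true, Bool.false_eq_true, if_false, sub_pos]
  unfold J
  by_cases h1 : s i < qm Q x i
  · by_cases h2 : s i + h < qm Q x i
    · simp [h1, h2]
    · simp [h1, h2]
  · have h2 : ¬ s i + h < qm Q x i := fun h3 => h1 (by linarith)
    simp [h1, h2]

lemma bq_deg {Q : Fin k → MvPolynomial (Fin 3) ℝ} {D : ℕ} (hQ : ∀ i, (Q i).totalDegree ≤ D)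
    (s : Fin k → ℝ) (h : ℝ) (i : Fin (k + k)) : (bq Q s h i).totalDegree ≤ D := by
  unfold bq
  refine Fin.addCases (fun j => ?_) (fun j => ?_) i
  · rw [Fin.append_left]
    refine (totalDegree_sub _ _).trans (max_le (hQ j) ?_)
    rw [totalDegree_C]; exact Nat.zero_le _
  · rw [Fin.append_right]
    refine (totalDegree_sub _ _).trans (max_le (hQ j) ?_)
    rw [totalDegree_C]; exact Nat.zero_le _

/-- The Taylor polynomial of `f` at `y0`, composed with the polynomial map. -/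
noncomputable def cp (Q : Fin k → MvPolynomial (Fin 3) ℝ) (f : E k → ℝ) (A : ℕ) (y0 : E k) :
    MvPolynomial (Fin 3) ℝ :=
  ∑ r ∈ Finset.range (A + 1), C ((r.factorial : ℝ)⁻¹) *
    ∑ κ : Fin r → Fin k, C (iteratedFDeriv ℝ r f y0 fun l => EuclideanSpace.single (κ l) (1:ℝ)) *
      ∏ l, (Q (κ l) - C (y0 (κ l)))

lemma cp_deg {Q : Fin k → MvPolynomial (Fin 3) ℝ} {D : ℕ} (hQ : ∀ i, (Q i).totalDegree ≤ D)
    (f : E k → ℝ) (A : ℕ) (y0 : E k) : (cp Q f A y0).totalDegree ≤ A * D := by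
  unfold cp
  refine totalDegree_finsetSum_le fun r hr => ?_
  refine (totalDegree_Cmul_le _ _).trans ?_
  refine totalDegree_finsetSum_le fun κ _ => ?_
  refine (totalDegree_Cmul_le _ _).trans ?_
  refine (totalDegree_finsetProd _ _).trans ?_
  calc ∑ l : Fin r, (Q (κ l) - C (y0 (κ l)) : MvPolynomial (Fin 3) ℝ).totalDegree
      ≤ ∑ _l : Fin r, D := by
        refine Finset.sum_le_sum fun l _ => ?_
        refine (totalDegree_sub _ _).trans (max_le (hQ _) ?_)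
        rw [totalDegree_C]; exact Nat.zero_le _
    _ = r * D := by simp
    _ ≤ A * D := Nat.mul_le_mul_right _ (Nat.lt_succ_iff.1 (Finset.mem_range.1 hr))

lemma ev_cp (Q : Fin k → MvPolynomial (Fin 3) ℝ) (f : E k → ℝ) (A : ℕ) (y0 : E k) (x : E 3) :
    ev (cp Q f A y0) x = ∑ r ∈ Finset.range (A + 1), (r.factorial : ℝ)⁻¹ •
      (iteratedFDeriv ℝ r f y0 fun _ => qm Q x - y0) := by
  unfold cp ev
  rw [map_sum]
  refine Finset.sum_congr rfl fun r _ => ?_
  rw [map_mul, eval_C, smul_eq_mul]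
  congr 1
  have h1 : qm Q x - y0 = ∑ i : Fin k, (qm Q x i - y0 i) • EuclideanSpace.single i (1:ℝ) := by
    ext j
    simp [Finset.sum_apply, Pi.single_apply]
  rw [h1, ContinuousMultilinearMap.map_sum, map_sum]
  refine Finset.sum_congr rfl fun κ _ => ?_
  rw [ContinuousMultilinearMap.map_smul_univ, map_mul, eval_C, map_prod]
  simp only [map_sub, eval_C, smul_eq_mul]
  rw [mul_comm]
  rfl

/-- Taylor's formula along a segment. -/
theorem taylor_seg (f : E k → ℝ) (A : ℕ) (y0 y : E k) (L : ℝ)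
    (hF : ∀ t ∈ Icc (0:ℝ) 1, ContDiffAt ℝ (A + 1 : ℕ) f (y0 + t • (y - y0)))
    (hL : ∀ t ∈ Icc (0:ℝ) 1, ‖iteratedFDeriv ℝ (A + 1) f (y0 + t • (y - y0))‖ ≤ L) :
    |f y - ∑ r ∈ Finset.range (A + 1), (r.factorial : ℝ)⁻¹ •
      (iteratedFDeriv ℝ r f y0 fun _ => y - y0)| ≤ L * ‖y - y0‖ ^ (A + 1) := by
  have h1 := map_add_eq_sum_add_integral_iteratedFDeriv (f := f) (x := y0) (y := y - y0) (n := A)
    (fun t ht => (hF t ht).of_le (by norm_cast))
  rw [add_sub_cancel] at h1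
  rw [h1, add_sub_cancel_left]
  have h3 : ‖∫ t in (0:ℝ)..1, (1 - t) ^ A • iteratedFDeriv ℝ (A + 1) f (y0 + t • (y - y0))
      (fun _ => y - y0)‖ ≤ L * ‖y - y0‖ ^ (A + 1) * |1 - 0| := by
    refine intervalIntegral.norm_integral_le_of_norm_le_const fun t ht => ?_
    rw [uIoc_of_le zero_le_one] at ht
    rw [norm_smul]
    have e1 : ‖(1 - t) ^ A‖ ≤ 1 := by
      rw [norm_pow, Real.norm_eq_abs, abs_of_nonneg (by linarith [ht.2])]
      exact pow_le_one₀ (by linarith [ht.2]) (by linarith [ht.1])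
    have e2 := (iteratedFDeriv ℝ (A + 1) f (y0 + t • (y - y0))).le_opNorm (fun _ => y - y0)
    rw [Finset.prod_const, Finset.card_univ, Fintype.card_fin] at e2
    have e3 : ‖iteratedFDeriv ℝ (A + 1) f (y0 + t • (y - y0))‖ ≤ L := hL t ⟨ht.1.le, ht.2⟩
    calc _ ≤ 1 * (L * ‖y - y0‖ ^ (A + 1)) := by
          refine mul_le_mul e1 (e2.trans ?_) (norm_nonneg _) zero_le_one
          exact mul_le_mul_of_nonneg_right e3 (by positivity)
      _ = _ := one_mul _
  rw [smul_eq_mul, abs_mul]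
  have h4 : |((A.factorial : ℝ))⁻¹| ≤ 1 := by
    rw [abs_of_nonneg (by positivity)]
    exact inv_le_one_of_one_le₀ (by exact_mod_cast Nat.succ_le_of_lt (Nat.factorial_pos A))
  rw [Real.norm_eq_abs] at h3
  calc _ ≤ 1 * (L * ‖y - y0‖ ^ (A + 1) * |1 - 0|) :=
        mul_le_mul h4 h3 (abs_nonneg _) zero_le_one
    _ = _ := by simp

/-- Taylor polynomials on the cells of a Whitney cube. -/
theorem cell_tk {Q : Fin k → MvPolynomial (Fin 3) ℝ} {D : ℕ} (hQ : ∀ i, (Q i).totalDegree ≤ D)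
    {f : E k → ℝ} {z : E k} {A : ℕ} {a L H : ℝ} (ha : 0 ≤ a) (hL : 0 ≤ L) (hH : 0 < H)
    (hf : ∀ y, 0 < ‖y - z‖ → ‖y - z‖ ≤ (k + 1) * (2 * H) → ContDiffAt ℝ (A + 1 : ℕ) f y ∧
      ‖iteratedFDeriv ℝ (A + 1) f y‖ ≤ L * ‖y - z‖ ^ (-(((A + 1 : ℕ) : ℝ) + a)))
    (j m : ℕ) (al : Fin k → ℕ) (hal : al ∈ gd k) (q : Fin k → ℕ) (hq : q ∈ cls k m) :
    ∃ T : MvPolynomial (Fin 3) ℝ, T.totalDegree ≤ A * D ∧
      ∀ x : E 3, bx (ck (wk z H j al) (hs H j) m q) (hs H j / 2 ^ m) (qm Q x) ≠ 0 →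
        |f (qm Q x) - ev T x| ≤ L * (k + 1) ^ (A + 1) * hs H j ^ (-a) * ((2:ℝ) ^ (m * (A + 1)))⁻¹ := by
  by_cases hex : ∃ x0 : E 3, bx (ck (wk z H j al) (hs H j) m q) (hs H j / 2 ^ m) (qm Q x0) ≠ 0
  swap
  · exact ⟨0, by simp, fun x h => (hex ⟨x, h⟩).elim⟩
  obtain ⟨x0, hx0⟩ := hex
  have hh := hs_pos hH j
  have hh' : 0 ≤ hs H j / 2 ^ m := by positivity
  refine ⟨cp Q f A (qm Q x0), cp_deg hQ f A _, fun x hx => ?_⟩
  rw [ev_cp]
  have hseg : ∀ t ∈ Icc (0:ℝ) 1, ContDiffAt ℝ (A + 1 : ℕ) f (qm Q x0 + t • (qm Q x - qm Q x0)) ∧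
      ‖iteratedFDeriv ℝ (A + 1) f (qm Q x0 + t • (qm Q x - qm Q x0))‖ ≤
        L * hs H j ^ (-(((A + 1 : ℕ) : ℝ) + a)) := by
    intro t ht
    have hyc : ∀ i, wk z H j al i ≤ (qm Q x0 + t • (qm Q x - qm Q x0)) i ∧
        (qm Q x0 + t • (qm Q x - qm Q x0)) i ≤ wk z H j al i + hs H j := by
      intro i
      have h1 := cell_sub hh.le hq hx0 i
      have h2 := cell_sub hh.le hq hx i
      have h3 : (qm Q x0 + t • (qm Q x - qm Q x0)) i = qm Q x0 i + t * (qm Q x i - qm Q x0 i) := rfl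
      rw [h3]
      constructor
      · nlinarith [ht.1, ht.2, h1.1, h2.1]
      · nlinarith [ht.1, ht.2, h1.2, h2.2]
    have hfar := gd_far hH hal _ hyc
    have hnear := gd_near hH hal _ hyc
    have hnear' : ‖qm Q x0 + t • (qm Q x - qm Q x0) - z‖ ≤ (k + 1) * (2 * H) := by
      refine hnear.trans ?_
      have : hs H j ≤ H := by
        have := hs_anti hH (Nat.zero_le j)
        unfold hs at this ⊢
        simpa using this
      gcongr
    obtain ⟨h1, h2⟩ := hf _ (lt_of_lt_of_le hh hfar) hnear'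
    refine ⟨h1, h2.trans (mul_le_mul_of_nonneg_left ?_ hL)⟩
    refine Real.rpow_le_rpow_of_nonpos hh hfar ?_
    have : (0:ℝ) ≤ ((A + 1 : ℕ) : ℝ) := Nat.cast_nonneg _
    linarith
  have herr := taylor_seg f A (qm Q x0) (qm Q x) _ (fun t ht => (hseg t ht).1)
    (fun t ht => (hseg t ht).2)
  have hd : ‖qm Q x - qm Q x0‖ ≤ (k + 1) * (hs H j / 2 ^ m) := by
    refine norm_le_coord hh' fun i => ?_
    have h1 := bx_mem hh' hx0 i
    have h2 := bx_mem hh' hx i
    have h3 : (qm Q x - qm Q x0) i = qm Q x i - qm Q x0 i := rfl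
    rw [h3, abs_le]
    constructor <;> linarith [h1.1, h1.2, h2.1, h2.2]
  refine herr.trans ?_
  have h4 : ‖qm Q x - qm Q x0‖ ^ (A + 1) ≤
      (k + 1) ^ (A + 1) * hs H j ^ ((A + 1 : ℕ) : ℝ) * ((2:ℝ) ^ (m * (A + 1)))⁻¹ := by
    refine (pow_le_pow_left₀ (norm_nonneg _) hd _).trans (le_of_eq ?_)
    rw [Real.rpow_natCast, mul_pow, div_pow, ← pow_mul]
    ring
  have h5 : hs H j ^ (-(((A + 1 : ℕ) : ℝ) + a)) * hs H j ^ ((A + 1 : ℕ) : ℝ) = hs H j ^ (-a) := by
    rw [← Real.rpow_add hh]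
    congr 1
    ring
  calc L * hs H j ^ (-(((A + 1 : ℕ) : ℝ) + a)) * ‖qm Q x - qm Q x0‖ ^ (A + 1)
      ≤ L * hs H j ^ (-(((A + 1 : ℕ) : ℝ) + a)) *
        ((k + 1) ^ (A + 1) * hs H j ^ ((A + 1 : ℕ) : ℝ) * ((2:ℝ) ^ (m * (A + 1)))⁻¹) := by gcongr
    _ = L * (k + 1) ^ (A + 1) * (hs H j ^ (-(((A + 1 : ℕ) : ℝ) + a)) * hs H j ^ ((A + 1 : ℕ) : ℝ)) *
        ((2:ℝ) ^ (m * (A + 1)))⁻¹ := by ring
    _ = _ := by rw [h5]

end Pool.Agent.VAN.TM
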