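import Pool.Agent.VAN.TM3

/-!
Compositions of functions with a power type singularity at one point with polynomial maps are tame:
the choice of the parameters.
-/

set_option autoImplicit false

namespace Pool.Agent.VAN.TM

open MeasureTheory Set MvPolynomial Pool.Agent.MP_6cbfb8_an Filter Topology
open scoped ENNReal Real ContDiff

variable {k : ℕ}

lemma analytic_ev (P : MvPolynomial (Fin 3) ℝ) : AnalyticOnNhd ℝ (ev P) (Metric.sphere 0 1) := by
  have h1 : ∀ i : Fin 3, AnalyticOnNhd ℝ (fun x : E 3 => x i) (Metric.sphere 0 1) := fun i x _ =>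
    (EuclideanSpace.proj i : E 3 →L[ℝ] ℝ).analyticAt x
  have h2 := AnalyticOnNhd.aeval_mvPolynomial h1 P
  have h3 : (fun x : E 3 => aeval (fun i => x i) P) = ev P := by
    funext x
    unfold ev
    rw [MvPolynomial.aeval_eq_eval]
  rw [h3] at h2
  exact h2

lemma poly_sublevel (P : MvPolynomial (Fin 3) ℝ) {x1 : E 3} (hx1 : ‖x1‖ = 1) (h : ev P x1 ≠ 0) :
    ∃ M κ : ℝ, 0 ≤ M ∧ 0 < κ ∧ ∀ t : ℝ, 0 ≤ t →
      sm 3 {x : S 3 | |ev P x| ≤ t} ≤ ENNReal.ofReal (M * t ^ κ) := by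
  obtain ⟨M, κ, hM, hκ, H⟩ := sublevel (d := 1) (fun _ => ev P) (fun _ => analytic_ev P) (by
    intro a ha
    have h1 := ha x1 hx1
    unfold fam at h1
    rw [Fin.sum_univ_one] at h1
    funext i
    rw [Subsingleton.elim i 0]
    exact (mul_eq_zero.1 h1).resolve_right h)
  refine ⟨M, κ, hM, hκ, fun t ht => ?_⟩
  have h1 := H (fun _ => 1) (by simp) t ht
  have h2 : ∀ x : E 3, fam (fun _ : Fin 1 => ev P) (fun _ => 1) x = ev P x := fun x => by
    unfold fam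
    simp
  simpa only [h2] using h1

/-- bounds for the derivatives on a punctured ball -/
lemma punctured {f : E k → ℝ} {z : E k} (hf : ContDiffOn ℝ ∞ f {z}ᶜ) {a : ℝ} (ha : 0 ≤ a) {K : ℕ}
    {L1 : ℝ} (hD : ∀ y, 0 < ‖y - z‖ → ‖y - z‖ ≤ 1 →
      ‖iteratedFDeriv ℝ K f y‖ ≤ L1 * ‖y - z‖ ^ (-((K : ℝ) + a))) (R : ℝ) :
    ∃ L : ℝ, 0 ≤ L ∧ ∀ y, 0 < ‖y - z‖ → ‖y - z‖ ≤ R → ContDiffAt ℝ K f y ∧
      ‖iteratedFDeriv ℝ K f y‖ ≤ L * ‖y - z‖ ^ (-((K : ℝ) + a)) := by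
  have hK : (0:ℝ) ≤ (K : ℝ) + a := by positivity
  have hat : ∀ y, y ≠ z → ContDiffAt ℝ ∞ f y := fun y hy =>
    (hf y hy).contDiffAt (isOpen_compl_singleton.mem_nhds hy)
  obtain ⟨R1, hR1⟩ : ∃ R1 : ℝ, R1 = max R 1 := ⟨_, rfl⟩
  have hR11 : 1 ≤ R1 := by rw [hR1]; exact le_max_right _ _
  have hcomp : IsCompact (Metric.closedBall z R1 ∩ {y | 1 ≤ ‖y - z‖}) :=
    (isCompact_closedBall z R1).inter_right (isClosed_le continuous_const (by fun_prop))
  obtain ⟨B, hB⟩ := hcomp.exists_bound_of_continuousOn (f := fun y => iteratedFDeriv ℝ K f y) (by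
    intro y hy
    have hyz : y ≠ z := by
      rintro rfl
      have := hy.2
      simp only [mem_ofPred_eq, sub_self, norm_zero] at this
      linarith
    have h1 : ContDiffAt ℝ 0 (iteratedFDeriv ℝ K f) y :=
      (hat y hyz).iteratedFDeriv_right (by rw [zero_add]; exact_mod_cast le_top)
    exact h1.continuousAt.continuousWithinAt)
  refine ⟨max |L1| (|B| * R1 ^ ((K : ℝ) + a)), (abs_nonneg _).trans (le_max_left _ _),
    fun y hy0 hyR => ⟨(hat y (by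
      rintro rfl
      simp at hy0)).of_le (by exact_mod_cast le_top), ?_⟩⟩
  have hp : 0 < ‖y - z‖ ^ (-((K : ℝ) + a)) := Real.rpow_pos_of_pos hy0 _
  rcases le_total ‖y - z‖ 1 with h1 | h1
  · refine (hD y hy0 h1).trans (mul_le_mul_of_nonneg_right ?_ hp.le)
    exact (le_abs_self _).trans (le_max_left _ _)
  · have h2 : ‖iteratedFDeriv ℝ K f y‖ ≤ |B| := by
      refine (hB y ⟨?_, h1⟩).trans (le_abs_self B)
      rw [Metric.mem_closedBall, dist_eq_norm, hR1]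
      exact hyR.trans (le_max_left _ _)
    have h3 : R1 ^ (-((K : ℝ) + a)) ≤ ‖y - z‖ ^ (-((K : ℝ) + a)) :=
      Real.rpow_le_rpow_of_nonpos hy0 (hyR.trans (by rw [hR1]; exact le_max_left _ _)) (by linarith)
    have h4 : R1 ^ ((K : ℝ) + a) * R1 ^ (-((K : ℝ) + a)) = 1 := by
      rw [← Real.rpow_add (by linarith), add_neg_cancel, Real.rpow_zero]
    calc ‖iteratedFDeriv ℝ K f y‖ ≤ |B| := h2
      _ = |B| * R1 ^ ((K : ℝ) + a) * R1 ^ (-((K : ℝ) + a)) := by rw [mul_assoc, h4, mul_one]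
      _ ≤ |B| * R1 ^ ((K : ℝ) + a) * ‖y - z‖ ^ (-((K : ℝ) + a)) := by gcongr
      _ ≤ _ := mul_le_mul_of_nonneg_right (le_max_right _ _) hp.le

lemma ceil_log {Y : ℝ} (hY : 1 ≤ Y) : ∃ m : ℕ, Y ≤ 2 ^ m ∧ (2:ℝ) ^ m ≤ 2 * Y := by
  have hY0 : 0 < Y := by linarith
  refine ⟨⌈Real.logb 2 Y⌉₊, ?_, ?_⟩
  · have h1 : Real.logb 2 Y ≤ ⌈Real.logb 2 Y⌉₊ := Nat.le_ceil _
    rw [Real.logb_le_iff_le_rpow (by norm_num) hY0, Real.rpow_natCast] at h1
    exact h1
  · have h1 : (⌈Real.logb 2 Y⌉₊ : ℝ) < Real.logb 2 Y + 1 :=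
      Nat.ceil_lt_add_one (Real.logb_nonneg (by norm_num) hY)
    have h2 : (2:ℝ) ^ ((⌈Real.logb 2 Y⌉₊ : ℝ) - 1) ≤ Y := by
      rw [← Real.le_logb_iff_rpow_le (by norm_num) hY0]
      linarith
    rw [Real.rpow_sub (by norm_num), Real.rpow_natCast, Real.rpow_one, div_le_iff₀ (by norm_num)] at h2
    linarith

lemma nat_le_pow {θ : ℝ} (hθ : 0 < θ) (N : ℕ) : (N : ℝ) ≤ (θ * Real.log 2)⁻¹ * ((2:ℝ) ^ N) ^ θ := by
  have hl : 0 < Real.log 2 := Real.log_pos (by norm_num)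
  have h1 := Real.add_one_le_exp (θ * Real.log 2 * N)
  have h2 : Real.exp (θ * Real.log 2 * N) = ((2:ℝ) ^ N) ^ θ := by
    rw [← Real.rpow_natCast, ← Real.rpow_mul (by norm_num), Real.rpow_def_of_pos (by norm_num)]
    congr 1
    ring
  rw [h2] at h1
  rw [inv_mul_eq_div, le_div_iff₀ (by positivity)]
  linarith

/-- **Compositions with polynomial maps.** -/
theorem tame_comp (Q : Fin k → MvPolynomial (Fin 3) ℝ) (z : E k) (f : E k → ℝ)
    (hf : ContDiffOn ℝ ∞ f {z}ᶜ) (a : ℝ) (ha : 0 ≤ a)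
    (hD : ∀ K : ℕ, ∃ L : ℝ, ∀ y, 0 < ‖y - z‖ → ‖y - z‖ ≤ 1 →
      ‖iteratedFDeriv ℝ K f y‖ ≤ L * ‖y - z‖ ^ (-((K : ℝ) + a))) :
    Tame fun x => f (qm Q x) := by
  classical
  by_cases hcon : ∀ x : E 3, ‖x‖ = 1 → qm Q x = z
  · refine (tame_poly (C (f z))).congr fun x hx => ?_
    rw [hcon x hx]
    unfold ev
    rw [eval_C]
  push Not at hcon
  obtain ⟨x1, hx1, hne⟩ := hcon
  obtain ⟨i0, hi0⟩ : ∃ i, ev (Q i) x1 ≠ z i := by
    by_contra h
    push Not at h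
    exact hne (by ext i; exact h i)
  obtain ⟨M, κ, hM, hκ, hsub⟩ := poly_sublevel (Q i0 - C (z i0)) hx1 (by
    unfold ev
    rw [map_sub, eval_C]
    exact sub_ne_zero.2 hi0)
  -- the size
  obtain ⟨H, hH1, hH⟩ : ∃ H : ℝ, 1 ≤ H ∧ ∀ x : E 3, ‖x‖ = 1 → ∀ i, |ev (Q i) x - z i| ≤ H := by
    choose B hB1 hB using fun i => exists_bound (Q i - C (z i))
    refine ⟨1 + ∑ i, B i, ?_, fun x hx i => ?_⟩
    · have : 0 ≤ ∑ i, B i := Finset.sum_nonneg fun i _ => by linarith [hB1 i]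
      linarith
    · have h1 := hB i x hx
      have h2 : ev (Q i - C (z i)) x = ev (Q i) x - z i := by unfold ev; rw [map_sub, eval_C]
      rw [h2] at h1
      have h3 : B i ≤ ∑ i, B i :=
        Finset.single_le_sum (f := B) (fun i _ => by linarith [hB1 i]) (Finset.mem_univ i)
      linarith
  have hH0 : 0 < H := by linarith
  obtain ⟨D0, hD0⟩ : ∃ D0 : ℕ, ∀ i, (Q i).totalDegree ≤ D0 :=
    ⟨Finset.univ.sup fun i => (Q i).totalDegree, fun i =>
      Finset.le_sup (f := fun i => (Q i).totalDegree) (Finset.mem_univ i)⟩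
  intro η hη
  obtain ⟨A, hA⟩ := exists_nat_ge (2 * k * (1 + a / κ) / η)
  obtain ⟨K, hK⟩ : ∃ K : ℝ, K = ((A + 1 : ℕ) : ℝ) := ⟨_, rfl⟩
  have hAK : (A : ℝ) ≤ K := by rw [hK]; push_cast; linarith
  have hK0 : 0 < K := by rw [hK]; positivity
  have hKη : k * (1 + a / κ) / K ≤ η / 2 := by
    rw [div_le_iff₀ hη] at hA
    rw [div_le_iff₀ hK0]
    nlinarith
  obtain ⟨L1, hL1⟩ := hD (A + 1)
  obtain ⟨L, hL0, hL⟩ := punctured hf ha hL1 ((k + 1) * (2 * H))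
  obtain ⟨W, hW⟩ : ∃ W : ℝ, W = L * (k + 1) ^ (A + 1) * 4 ^ a + 1 := ⟨_, rfl⟩
  have hW1 : 1 ≤ W := by
    have : 0 ≤ L * (k + 1) ^ (A + 1) * 4 ^ a := by positivity
    rw [hW]; linarith
  have hW0 : 0 < W := by linarith
  obtain ⟨θ, hθ⟩ : ∃ θ : ℝ, θ = κ * η / 2 := ⟨_, rfl⟩
  have hθ0 : 0 < θ := by rw [hθ]; positivity
  have hl2 : 0 < Real.log 2 := Real.log_pos (by norm_num)
  obtain ⟨C1, hC1⟩ : ∃ C1 : ℝ, C1 = ((θ * Real.log 2)⁻¹ * (4 * H) ^ θ) * (4 ^ k * (2 ^ k * W ^ (k / K))) :=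
    ⟨_, rfl⟩
  have hC10 : 0 < C1 := by rw [hC1]; positivity
  refine ⟨max (A * D0) D0, k + k, max C1 M, lt_of_lt_of_le hC10 (le_max_left _ _),
    fun δ hδ hδ1 => ?_⟩
  -- the cut-off
  obtain ⟨τ, hτ⟩ : ∃ τ : ℝ, τ = δ ^ (1 / κ) := ⟨_, rfl⟩
  have hτ0 : 0 < τ := by rw [hτ]; positivity
  have hτ1 : τ ≤ 1 := by rw [hτ]; exact Real.rpow_le_one hδ.le hδ1 (by positivity)
  obtain ⟨N, hN1, hN2⟩ := ceil_log (Y := 2 * H / τ) (by
    rw [le_div_iff₀ hτ0]; linarith)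
  have hN3 : 2 * hs H N ≤ τ := by
    unfold hs
    rw [div_le_iff₀ hτ0] at hN1
    rw [one_div, inv_pow, ← mul_assoc, ← div_eq_mul_inv, div_le_iff₀ (by positivity)]
    linarith
  have hN4 : τ / 4 ≤ hs H N := by
    unfold hs
    have h1 : (2:ℝ) ^ N * τ ≤ 4 * H := by
      have h2 : (2:ℝ) ^ N * τ ≤ 2 * (2 * H / τ) * τ := mul_le_mul_of_nonneg_right hN2 hτ0.le
      have h3 : 2 * (2 * H / τ) * τ = 4 * H := by field_simp; ring
      linarith
    rw [one_div, inv_pow, ← div_eq_mul_inv, le_div_iff₀ (by positivity)]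
    linarith
  -- the level of the cells
  obtain ⟨Y, hY⟩ : ∃ Y : ℝ, Y = (W * δ ^ (-(1 + a / κ))) ^ (1 / K) := ⟨_, rfl⟩
  have hδa : 1 ≤ δ ^ (-(1 + a / κ)) :=
    Real.one_le_rpow_of_pos_of_le_one_of_nonpos hδ hδ1 (by
      have : 0 ≤ a / κ := by positivity
      linarith)
  have hY1 : 1 ≤ Y := by
    rw [hY]
    exact Real.one_le_rpow (by nlinarith) (by positivity)
  obtain ⟨m, hm1, hm2⟩ := ceil_log hY1
  have hmK : W * δ ^ (-(1 + a / κ)) ≤ (2:ℝ) ^ (m * (A + 1)) := by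
    have h1 : Y ^ (A + 1) ≤ (2 ^ m) ^ (A + 1) := pow_le_pow_left₀ (by linarith) hm1 _
    rw [← pow_mul] at h1
    have h2 : Y ^ (A + 1) = W * δ ^ (-(1 + a / κ)) := by
      rw [hY, ← Real.rpow_natCast, ← Real.rpow_mul (by positivity), ← hK, one_div,
        inv_mul_cancel₀ hK0.ne', Real.rpow_one]
    rwa [h2] at h1
  -- the Taylor polynomials
  have hT : ∀ i : ℕ × (Fin k → ℕ) × (Fin k → ℕ), i ∈ Finset.range N ×ˢ (gd k ×ˢ cls k m) →
      ∃ T : MvPolynomial (Fin 3) ℝ, T.totalDegree ≤ A * D0 ∧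
        ∀ x : E 3, bx (ck (wk z H i.1 i.2.1) (hs H i.1) m i.2.2) (hs H i.1 / 2 ^ m) (qm Q x) ≠ 0 →
          |f (qm Q x) - ev T x| ≤ δ := by
    rintro ⟨j, al, c⟩ hi
    rw [Finset.mem_product, Finset.mem_product, Finset.mem_range] at hi
    obtain ⟨hj, hal, hc⟩ := hi
    obtain ⟨T, hT1, hT2⟩ := cell_tk hD0 (f := f) (z := z) (A := A) ha hL0 hH0 hL j m al hal c hc
    refine ⟨T, hT1, fun x hx => (hT2 x hx).trans ?_⟩
    have h1 : hs H j ^ (-a) ≤ 4 ^ a * δ ^ (-(a / κ)) := by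
      have h2 : τ / 4 ≤ hs H j := hN4.trans (hs_anti hH0 (le_of_lt hj))
      calc hs H j ^ (-a) ≤ (τ / 4) ^ (-a) :=
            Real.rpow_le_rpow_of_nonpos (by positivity) h2 (by linarith)
        _ = 4 ^ a * δ ^ (-(a / κ)) := by
            rw [Real.div_rpow hτ0.le (by norm_num), Real.rpow_neg (by norm_num : (0:ℝ) ≤ 4), hτ,
              ← Real.rpow_mul hδ.le, div_inv_eq_mul, mul_comm]
            congr 2
            ring
    have h3 : δ ^ (-(a / κ)) = δ ^ (-(1 + a / κ)) * δ := by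
      rw [← Real.rpow_add_one hδ.ne']
      congr 1
      ring
    have h4 : L * (k + 1) ^ (A + 1) * 4 ^ a ≤ W := by rw [hW]; linarith
    have hpos : (0:ℝ) < 2 ^ (m * (A + 1)) := by positivity
    calc L * (k + 1) ^ (A + 1) * hs H j ^ (-a) * ((2:ℝ) ^ (m * (A + 1)))⁻¹
        ≤ L * (k + 1) ^ (A + 1) * (4 ^ a * δ ^ (-(a / κ))) * ((2:ℝ) ^ (m * (A + 1)))⁻¹ := by gcongr
      _ = (L * (k + 1) ^ (A + 1) * 4 ^ a) * (δ ^ (-(1 + a / κ)) * δ) * ((2:ℝ) ^ (m * (A + 1)))⁻¹ := by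
          rw [h3]; ring
      _ ≤ W * (δ ^ (-(1 + a / κ)) * δ) * ((2:ℝ) ^ (m * (A + 1)))⁻¹ := by gcongr
      _ = (W * δ ^ (-(1 + a / κ)) * ((2:ℝ) ^ (m * (A + 1)))⁻¹) * δ := by ring
      _ ≤ 1 * δ := by
          refine mul_le_mul_of_nonneg_right ?_ hδ.le
          rw [mul_inv_le_iff₀ hpos, one_mul]
          exact hmK
      _ = δ := one_mul δ
  choose! T hT1 hT2 using hT
  -- the sum of the indicators
  have hsum : ∀ x : E 3, ‖x‖ = 1 → ∑ i ∈ Finset.range N ×ˢ (gd k ×ˢ cls k m),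
      bc (bq Q (ck (wk z H i.1 i.2.1) (hs H i.1) m i.2.2) (hs H i.1 / 2 ^ m))
        (Fin.append (fun _ => true) (fun _ => false)) x =
      1 - bx (fun i => z i - 2 * hs H N) (4 * hs H N) (qm Q x) := by
    intro x hx
    have h1 : ∀ j, 0 ≤ hs H j / 2 ^ m := fun j => by
      have := hs_pos hH0 j
      positivity
    have h2 : bx (fun i => z i - 2 * hs H 0) (4 * hs H 0) (qm Q x) = 1 := by
      have h3 : hs H 0 = H := by unfold hs; simp
      rw [h3, bx_eq _ (by positivity)]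
      refine if_pos fun i => ?_
      have h4 := abs_le.1 (hH x hx i)
      rw [qm_apply]
      constructor <;> linarith [h4.1, h4.2]
    rw [← h2, ← sum_wh, Finset.sum_product]
    refine Finset.sum_congr rfl fun j _ => ?_
    rw [Finset.sum_product]
    refine Finset.sum_congr rfl fun al _ => ?_
    rw [bx_cells _ _ m]
    refine Finset.sum_congr rfl fun c _ => ?_
    exact bc_bq Q _ (h1 j) x
  refine ⟨ℕ × (Fin k → ℕ) × (Fin k → ℕ), Finset.range N ×ˢ (gd k ×ˢ cls k m), T,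
    fun i => bq Q (ck (wk z H i.1 i.2.1) (hs H i.1) m i.2.2) (hs H i.1 / 2 ^ m),
    fun _ => Fin.append (fun _ => true) (fun _ => false), ?_, fun i hi => (hT1 i hi).trans (le_max_left _ _),
    fun i _ l => (bq_deg hD0 _ _ l).trans (le_max_right _ _), fun x hx => ?_, fun x hx i hi h0 => ?_, ?_⟩
  · -- the number of cells
    rw [Finset.card_product, Finset.card_product, Finset.card_range, card_cls]
    push_cast
    have h1 : (N : ℝ) ≤ (θ * Real.log 2)⁻¹ * (4 * H) ^ θ * δ ^ (-(η / 2)) := by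
      refine (nat_le_pow hθ0 N).trans ?_
      rw [mul_assoc]
      refine mul_le_mul_of_nonneg_left ?_ (by positivity)
      calc ((2:ℝ) ^ N) ^ θ ≤ (2 * (2 * H / τ)) ^ θ := Real.rpow_le_rpow (by positivity) hN2 hθ0.le
        _ = (4 * H) ^ θ * δ ^ (-(η / 2)) := by
            have e1 : 2 * (2 * H / τ) = (4 * H) / τ := by ring
            rw [e1, Real.div_rpow (by positivity) hτ0.le, hτ, ← Real.rpow_mul hδ.le, div_eq_mul_inv,
              ← Real.rpow_neg hδ.le]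
            congr 2
            rw [hθ]
            field_simp
    have h2 : ((gd k).card : ℝ) ≤ 4 ^ k := by exact_mod_cast card_gd_le
    have h3 : ((2:ℝ) ^ m) ^ k ≤ 2 ^ k * W ^ (k / K) * δ ^ (-(η / 2)) := by
      have e1 : Y ^ k = W ^ (k / K) * δ ^ (-(k * (1 + a / κ) / K)) := by
        rw [hY, ← Real.rpow_natCast, ← Real.rpow_mul (by positivity),
          Real.mul_rpow hW0.le (by positivity), ← Real.rpow_mul hδ.le]
        congr 2
        · ring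
        · ring
      calc ((2:ℝ) ^ m) ^ k ≤ (2 * Y) ^ k := pow_le_pow_left₀ (by positivity) hm2 k
        _ = 2 ^ k * W ^ (k / K) * δ ^ (-(k * (1 + a / κ) / K)) := by rw [mul_pow, e1]; ring
        _ ≤ _ := by
          refine mul_le_mul_of_nonneg_left ?_ (by positivity)
          exact Real.rpow_le_rpow_of_exponent_ge hδ hδ1 (by linarith)
    have e2 : δ ^ (-(η / 2)) * δ ^ (-(η / 2)) = δ ^ (-η) := by
      rw [← Real.rpow_add hδ]
      congr 1
      ring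
    calc (N : ℝ) * ((gd k).card * ((2:ℝ) ^ m) ^ k)
        ≤ ((θ * Real.log 2)⁻¹ * (4 * H) ^ θ * δ ^ (-(η / 2))) *
          (4 ^ k * (2 ^ k * W ^ (k / K) * δ ^ (-(η / 2)))) := by gcongr
      _ = C1 * (δ ^ (-(η / 2)) * δ ^ (-(η / 2))) := by rw [hC1]; ring
      _ = C1 * δ ^ (-η) := by rw [e2]
      _ ≤ _ := by gcongr; exact le_max_left _ _
  · rw [hsum x hx]
    have := bx_nonneg (fun i => z i - 2 * hs H N) (h := 4 * hs H N)
      (by have := hs_pos hH0 N; positivity) (qm Q x)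
    linarith
  · refine hT2 i hi x ?_
    rw [bc_bq Q _ (by have := hs_pos hH0 i.1; positivity)] at h0
    exact h0
  · have hsub2 : {x : S 3 | ∑ i ∈ Finset.range N ×ˢ (gd k ×ˢ cls k m),
        bc (bq Q (ck (wk z H i.1 i.2.1) (hs H i.1) m i.2.2) (hs H i.1 / 2 ^ m))
          (Fin.append (fun _ => true) (fun _ => false)) (x : E 3) ≠ 1} ⊆
        {x : S 3 | |ev (Q i0 - C (z i0)) (x : E 3)| ≤ τ} := by
      intro x hx
      have hx' : ‖(x : E 3)‖ = 1 := mem_sphere_zero_iff_norm.1 x.2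
      have h1 : bx (fun i => z i - 2 * hs H N) (4 * hs H N) (qm Q (x : E 3)) ≠ 0 := by
        intro h2
        refine hx ?_
        rw [hsum x hx', h2, sub_zero]
      have h2 := bx_mem (by have := hs_pos hH0 N; positivity) h1 i0
      rw [qm_apply] at h2
      show |ev (Q i0 - C (z i0)) (x : E 3)| ≤ τ
      have h3 : ev (Q i0 - C (z i0)) (x : E 3) = ev (Q i0) x - z i0 := by
        unfold ev; rw [map_sub, eval_C]
      rw [h3, abs_le]
      constructor <;> linarith [h2.1, h2.2]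
    refine (measure_mono hsub2).trans ((hsub τ hτ0.le).trans (ENNReal.ofReal_le_ofReal ?_))
    have e1 : τ ^ κ = δ := by
      rw [hτ, ← Real.rpow_mul hδ.le, one_div_mul_cancel hκ.ne', Real.rpow_one]
    rw [e1]
    gcongr
    exact le_max_right _ _

end Pool.Agent.VAN.TM
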