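import Pool.Agent.VAN.TM4

/-!
The restriction estimate with an arbitrarily small loss for sums of compositions of functions with
one singular point of power type with polynomial maps.
-/

set_option autoImplicit false

namespace Pool.Agent.VAN.TM

open MeasureTheory Set MvPolynomial Pool.Agent.MP_6cbfb8_an Filter Topology
open scoped ENNReal Real ContDiff

lemma measurable_sing {k : ℕ} {f : E k → ℝ} {z : E k} (hf : ContDiffOn ℝ ∞ f {z}ᶜ) : Measurable f :=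
  measurable_of_continuousOn_compl_singleton z hf.continuousOn

lemma measurable_qm {k : ℕ} (Q : Fin k → MvPolynomial (Fin 3) ℝ) : Measurable (qm Q) := by
  unfold qm
  exact (PiLp.continuous_toLp 2 _).measurable.comp (measurable_pi_lambda _ fun i => measurable_ev (Q i))

lemma measurable_comp {k : ℕ} (Q : Fin k → MvPolynomial (Fin 3) ℝ) {f : E k → ℝ} {z : E k}
    (hf : ContDiffOn ℝ ∞ f {z}ᶜ) : Measurable fun x => f (qm Q x) :=
  (measurable_sing hf).comp (measurable_qm Q)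

theorem comp_loss {J : ℕ} (k : Fin J → ℕ) (P : Fin J → MvPolynomial (Fin 3) ℝ)
    (Q : ∀ j, Fin (k j) → MvPolynomial (Fin 3) ℝ) (z : ∀ j, E (k j)) (f : ∀ j, E (k j) → ℝ)
    (hf : ∀ j, ContDiffOn ℝ ∞ (f j) {z j}ᶜ) (a : ℝ) (ha : 0 ≤ a)
    (hD : ∀ j, ∀ K : ℕ, ∃ L : ℝ, ∀ y, 0 < ‖y - z j‖ → ‖y - z j‖ ≤ 1 →
      ‖iteratedFDeriv ℝ K (f j) y‖ ≤ L * ‖y - z j‖ ^ (-((K : ℝ) + a)))
    (p ε : ℝ) (hp : 3 < p) (hε : 0 < ε) : ∃ C : ℝ≥0∞, C ≠ ⊤ ∧ ∀ l : ℝ,
      ∫⁻ ξ, ‖extn (fun x => Complex.exp (((l * ∑ j, ev (P j) x * f j (qm (Q j) x) : ℝ) : ℂ) *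
        Complex.I)) ξ‖ₑ ^ p ≤ C * ENNReal.ofReal ((1 + |l|) ^ ε) := by
  refine tame_loss (φ := fun x => ∑ j, ev (P j) x * f j (qm (Q j) x)) ?_ ?_ p ε hp hε
  · exact Finset.measurable_sum _ fun j _ => (measurable_ev (P j)).mul (measurable_comp (Q j) (hf j))
  · exact tame_sum _ _ fun j _ => (tame_comp (Q j) (z j) (f j) (hf j) a ha (hD j)).polymul (P j)

end Pool.Agent.VAN.TM
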