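import Pool.Agent.VAN.TM4

/-!
Finitely many tame functions: common cells, and the restriction estimate for their linear
combinations.
-/

set_option autoImplicit false

namespace Pool.Agent.VAN.TM

open MeasureTheory Set MvPolynomial Pool.Agent.MP_6cbfb8_an Filter Topology
open scoped ENNReal Real

/-- common cells for finitely many functions -/
def TameV {κ : Type} (S' : Finset κ) (φ : κ → E 3 → ℝ) : Prop :=
  ∀ η : ℝ, 0 < η → ∃ (D N : ℕ) (C : ℝ), 0 < C ∧
    ∀ δ : ℝ, 0 < δ → δ ≤ 1 → ∃ (ι : Type) (s : Finset ι) (T : ι → κ → MvPolynomial (Fin 3) ℝ)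
    (q : ι → Fin N → MvPolynomial (Fin 3) ℝ) (b : ι → Fin N → Bool),
    (s.card : ℝ) ≤ C * δ ^ (-η) ∧ (∀ j ∈ s, ∀ k ∈ S', (T j k).totalDegree ≤ D) ∧
    (∀ j ∈ s, ∀ i, (q j i).totalDegree ≤ D) ∧
    (∀ x : E 3, ‖x‖ = 1 → ∑ j ∈ s, bc (q j) (b j) x ≤ 1) ∧
    (∀ x : E 3, ‖x‖ = 1 → ∀ j ∈ s, bc (q j) (b j) x ≠ 0 → ∀ k ∈ S', |φ k x - ev (T j k) x| ≤ δ) ∧
    sm 3 {x : S 3 | ∑ j ∈ s, bc (q j) (b j) x ≠ 1} ≤ ENNReal.ofReal (C * δ)

theorem TameV.empty {κ : Type} (φ : κ → E 3 → ℝ) : TameV ∅ φ := by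
  intro η hη
  refine ⟨0, 0, 1, one_pos, fun δ hδ hδ1 => ?_⟩
  refine ⟨Unit, {()}, fun _ _ => 0, fun _ i => i.elim0, fun _ i => i.elim0, ?_, fun _ _ _ hk => ?_,
    fun _ _ i => i.elim0, ?_, ?_, ?_⟩
  · simp only [Finset.card_singleton, Nat.cast_one, one_mul]
    exact one_le_rpow_neg hδ hδ1 hη
  · simp at hk
  · intro x _
    simp [bc]
  · intro x _ j _ _ k hk
    simp at hk
  · have h1 : {x : S 3 | ∑ j ∈ ({()} : Finset Unit), bc (fun i : Fin 0 => i.elim0)
        (fun i : Fin 0 => i.elim0) (x : E 3) ≠ 1} = ∅ := by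
      ext x
      simp [bc]
    rw [h1, measure_empty]
    exact zero_le

theorem TameV.insert {κ : Type} [DecidableEq κ] {S' : Finset κ} {φ : κ → E 3 → ℝ} {a : κ}
    (hψ : TameV S' φ) (hφ : Tame (φ a)) : TameV (insert a S') φ := by
  intro η hη
  obtain ⟨D, N, C, hC, H⟩ := hφ (η / 2) (by positivity)
  obtain ⟨D', N', C', hC', H'⟩ := hψ (η / 2) (by positivity)
  refine ⟨max D D', N + N', max (C * C') (C + C'), by positivity, fun δ hδ hδ1 => ?_⟩
  obtain ⟨ι, s, T, q, b, h1, h2, h3, h4, h5, h6⟩ := H δ hδ hδ1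
  obtain ⟨ι', s', T', q', b', h1', h2', h3', h4', h5', h6'⟩ := H' δ hδ hδ1
  have hsum : ∀ x : E 3, ∑ j ∈ s ×ˢ s', bc (Fin.append (q j.1) (q' j.2)) (Fin.append (b j.1) (b' j.2)) x =
      (∑ j ∈ s, bc (q j) (b j) x) * ∑ j ∈ s', bc (q' j) (b' j) x := by
    intro x
    rw [Finset.sum_mul_sum, ← Finset.sum_product']
    exact Finset.sum_congr rfl fun j _ => bc_append _ _ _ _ x
  have hs0' : ∀ x : E 3, 0 ≤ ∑ j ∈ s', bc (q' j) (b' j) x := fun x =>
    Finset.sum_nonneg fun j _ => bc_nonneg _ _ x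
  refine ⟨ι × ι', s ×ˢ s', fun j k => if k = a then T j.1 else T' j.2 k,
    fun j => Fin.append (q j.1) (q' j.2), fun j => Fin.append (b j.1) (b' j.2), ?_, ?_, ?_, ?_, ?_, ?_⟩
  · rw [Finset.card_product]
    push_cast
    have e : δ ^ (-(η / 2)) * δ ^ (-(η / 2)) = δ ^ (-η) := by
      rw [← Real.rpow_add hδ]
      congr 1
      ring
    calc (s.card : ℝ) * s'.card ≤ (C * δ ^ (-(η / 2))) * (C' * δ ^ (-(η / 2))) := by
          gcongr
      _ = C * C' * (δ ^ (-(η / 2)) * δ ^ (-(η / 2))) := by ring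
      _ = C * C' * δ ^ (-η) := by rw [e]
      _ ≤ _ := by gcongr; exact le_max_left _ _
  · intro j hj k hk
    rw [Finset.mem_product] at hj
    simp only
    split_ifs with h
    · exact (h2 _ hj.1).trans (le_max_left _ _)
    · exact (h2' _ hj.2 k ((Finset.mem_insert.1 hk).resolve_left h)).trans (le_max_right _ _)
  · intro j hj i
    rw [Finset.mem_product] at hj
    refine Fin.addCases (fun k => ?_) (fun k => ?_) i
    · simp only [Fin.append_left]
      exact (h3 _ hj.1 k).trans (le_max_left _ _)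
    · simp only [Fin.append_right]
      exact (h3' _ hj.2 k).trans (le_max_right _ _)
  · intro x hx
    rw [hsum]
    exact mul_le_one₀ (h4 x hx) (hs0' x) (h4' x hx)
  · intro x hx j hj h0 k hk
    rw [Finset.mem_product] at hj
    rw [bc_append] at h0
    simp only
    split_ifs with h
    · rw [h]
      exact h5 x hx _ hj.1 (left_ne_zero_of_mul h0)
    · exact h5' x hx _ hj.2 (right_ne_zero_of_mul h0) k ((Finset.mem_insert.1 hk).resolve_left h)
  · have hsub : {x : S 3 | ∑ j ∈ s ×ˢ s', bc (Fin.append (q j.1) (q' j.2))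
        (Fin.append (b j.1) (b' j.2)) (x : E 3) ≠ 1} ⊆
        {x : S 3 | ∑ j ∈ s, bc (q j) (b j) (x : E 3) ≠ 1} ∪
          {x : S 3 | ∑ j ∈ s', bc (q' j) (b' j) (x : E 3) ≠ 1} := by
      intro x hx
      by_contra h
      rw [mem_union, not_or] at h
      have e1 : ∑ j ∈ s, bc (q j) (b j) (x : E 3) = 1 := not_not.1 h.1
      have e2 : ∑ j ∈ s', bc (q' j) (b' j) (x : E 3) = 1 := not_not.1 h.2
      refine hx ?_
      rw [hsum, e1, e2, mul_one]
    refine (measure_mono hsub).trans ((measure_union_le _ _).trans ((add_le_add h6 h6').trans ?_))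
    rw [← ENNReal.ofReal_add (by positivity) (by positivity)]
    refine ENNReal.ofReal_le_ofReal ?_
    calc C * δ + C' * δ = (C + C') * δ := by ring
      _ ≤ _ := by gcongr; exact le_max_right _ _

theorem tameV_of {κ : Type} (S' : Finset κ) (φ : κ → E 3 → ℝ) (h : ∀ k ∈ S', Tame (φ k)) :
    TameV S' φ := by
  classical
  induction S' using Finset.induction_on with
  | empty => exact TameV.empty φ
  | insert a s ha ih =>
    exact (ih fun i hi => h i (Finset.mem_insert_of_mem hi)).insert (h a (Finset.mem_insert_self a s))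

/-- linear combinations with bounded coefficients are uniformly tame -/
theorem tameAt_comb {m : ℕ} (φ : Fin m → E 3 → ℝ) (h : ∀ k, Tame (φ k)) (η : ℝ) (hη : 0 < η) :
    ∃ (D N : ℕ) (C : ℝ), 0 < C ∧ ∀ c : Fin m → ℝ, (∀ k, |c k| ≤ 1) →
      TameAt η D N C fun x => ∑ k, c k * φ k x := by
  obtain ⟨D, N, C, hC, H⟩ := tameV_of Finset.univ φ (fun k _ => h k) η hη
  have hm : (0:ℝ) < m + 1 := by positivity
  refine ⟨D, N, max (C * (m + 1) ^ η) C, by positivity, fun c hc δ hδ hδ1 => ?_⟩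
  have hδm : 0 < δ / (m + 1) := by positivity
  have hδm1 : δ / (m + 1) ≤ 1 := by
    rw [div_le_one hm]
    have : (0:ℝ) ≤ m := Nat.cast_nonneg m
    linarith
  obtain ⟨ι, s, T, q, b, h1, h2, h3, h4, h5, h6⟩ := H (δ / (m + 1)) hδm hδm1
  refine ⟨ι, s, fun j => ∑ k, MvPolynomial.C (c k) * T j k, q, b, ?_, fun j hj => ?_, h3, h4,
    fun x hx j hj h0 => ?_, ?_⟩
  · refine h1.trans ?_
    have e : (δ / (m + 1)) ^ (-η) = (m + 1) ^ η * δ ^ (-η) := by
      rw [div_eq_mul_inv, Real.mul_rpow hδ.le (by positivity), Real.inv_rpow hm.le,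
        ← Real.rpow_neg hm.le, neg_neg, mul_comm]
    rw [e, ← mul_assoc]
    gcongr
    exact le_max_left _ _
  · refine (totalDegree_finset_sum _ _).trans (Finset.sup_le fun k _ => ?_)
    exact (totalDegree_Cmul_le _ _).trans (h2 j hj k (Finset.mem_univ k))
  · have e1 : ∑ k, c k * φ k x - ev (∑ k, MvPolynomial.C (c k) * T j k) x =
        ∑ k, c k * (φ k x - ev (T j k) x) := by
      unfold ev
      rw [map_sum, ← Finset.sum_sub_distrib]
      refine Finset.sum_congr rfl fun k _ => ?_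
      rw [map_mul, eval_C]
      ring
    rw [e1]
    calc |∑ k, c k * (φ k x - ev (T j k) x)| ≤ ∑ _k : Fin m, δ / (m + 1) := by
          refine (Finset.abs_sum_le_sum_abs _ _).trans (Finset.sum_le_sum fun k _ => ?_)
          rw [abs_mul]
          calc |c k| * |φ k x - ev (T j k) x| ≤ 1 * (δ / (m + 1)) :=
                mul_le_mul (hc k) (h5 x hx j hj h0 k (Finset.mem_univ k)) (abs_nonneg _) zero_le_one
            _ = _ := one_mul _
      _ = m * (δ / (m + 1)) := by simp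
      _ ≤ δ := by
          rw [← mul_div_assoc, div_le_iff₀ hm]
          nlinarith
  · refine h6.trans (ENNReal.ofReal_le_ofReal ?_)
    calc C * (δ / (m + 1)) ≤ C * δ := by
          gcongr
          exact div_le_self hδ.le (by
            have : (0:ℝ) ≤ m := Nat.cast_nonneg m
            linarith)
      _ ≤ _ := by gcongr; exact le_max_right _ _

/-- **The restriction estimate with an arbitrarily small loss for finite-dimensional spaces of tame
phases.** -/
theorem tame_loss_vec {m : ℕ} (φ : Fin m → E 3 → ℝ) (hφm : ∀ k, Measurable (φ k))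
    (h : ∀ k, Tame (φ k)) (p ε : ℝ) (hp : 3 < p) (hε : 0 < ε) : ∃ C : ℝ≥0∞, C ≠ ∞ ∧
      ∀ l : Fin m → ℝ,
      ∫⁻ ξ, ‖extn (fun x => Complex.exp (((∑ k, l k * φ k x : ℝ) : ℂ) * Complex.I)) ξ‖ₑ ^ p ≤
        C * ENNReal.ofReal ((1 + ‖l‖) ^ ε) := by
  obtain ⟨η, hη, H⟩ := tame_loss_u p ε hp hε
  obtain ⟨D, N, C0, hC0, H1⟩ := tameAt_comb φ h η hη
  obtain ⟨C, hC, H2⟩ := H D N C0 hC0
  refine ⟨C * ENNReal.ofReal (2 ^ ε), ENNReal.mul_ne_top hC ENNReal.ofReal_ne_top, fun l => ?_⟩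
  have hl : 0 < 1 + ‖l‖ := by positivity
  have h1 := H2 (fun x => ∑ k, l k / (1 + ‖l‖) * φ k x)
    (Finset.measurable_sum _ fun k _ => (hφm k).const_mul _)
    (H1 (fun k => l k / (1 + ‖l‖)) fun k => by
      rw [abs_div, abs_of_pos hl, div_le_one hl]
      have := norm_le_pi_norm l k
      rw [Real.norm_eq_abs] at this
      linarith) (1 + ‖l‖)
  have e1 : ∀ x : E 3, (1 + ‖l‖) * ∑ k, l k / (1 + ‖l‖) * φ k x = ∑ k, l k * φ k x := fun x => by
    rw [Finset.mul_sum]
    refine Finset.sum_congr rfl fun k _ => ?_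
    field_simp
  simp only [e1] at h1
  refine h1.trans ?_
  rw [mul_assoc, ← ENNReal.ofReal_mul (by positivity)]
  gcongr
  rw [← Real.mul_rpow (by norm_num) (by positivity), abs_of_pos hl]
  refine Real.rpow_le_rpow (by positivity) ?_ hε.le
  linarith [norm_nonneg l]

end Pool.Agent.VAN.TM
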