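import Pool.Agent.VAN.TM1A
import Pool.Agent.VAN.TM8

/-!
The restriction estimate with an arbitrarily small loss in the algebra, with amplitudes of bounded
variation.
-/

set_option autoImplicit false

namespace Pool.Agent.VAN.TM

open MeasureTheory Set MvPolynomial Pool.Agent.MP_6cbfb8_an Filter Topology
open scoped ENNReal Real ContDiff

/-- **The restriction estimate with an arbitrarily small loss for finite-dimensional spaces of tame
phases**, with amplitudes of bounded variation. -/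
theorem tame_loss_vec_bv {m : ℕ} (φ : Fin m → E 3 → ℝ) (hφm : ∀ k, Measurable (φ k))
    (h : ∀ k, Tame (φ k)) (p ε : ℝ) (hp : 3 < p) (hε : 0 < ε) : ∃ C : ℝ≥0∞, C ≠ ⊤ ∧
      ∀ (V : ℝ) (a : E 3 → ℂ), 1 ≤ V → Measurable a → (∀ x, ‖a x‖ ≤ 1) → BVA.BVar 1 V a →
      ∀ l : Fin m → ℝ,
      ∫⁻ ξ, ‖extn (fun x => a x * Complex.exp (((∑ k, l k * φ k x : ℝ) : ℂ) * Complex.I)) ξ‖ₑ ^ p ≤
        C * ENNReal.ofReal (V ^ (p - 1) * (1 + ‖l‖) ^ ε) := by
  obtain ⟨η, hη, H⟩ := tame_loss_u_bv p ε hp hε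
  obtain ⟨D, N, C0, hC0, H1⟩ := tameAt_comb φ h η hη
  obtain ⟨C, hC, H2⟩ := H D N C0 hC0
  refine ⟨C * ENNReal.ofReal (2 ^ ε), ENNReal.mul_ne_top hC ENNReal.ofReal_ne_top,
    fun V a hV ham ha1 hav l => ?_⟩
  have hV0 : 0 < V := by linarith
  have hl : 0 < 1 + ‖l‖ := by positivity
  have h1 := H2 (fun x => ∑ k, l k / (1 + ‖l‖) * φ k x)
    (Finset.measurable_sum _ fun k _ => (hφm k).const_mul _)
    (H1 (fun k => l k / (1 + ‖l‖)) fun k => by
      rw [abs_div, abs_of_pos hl, div_le_one hl]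
      have := norm_le_pi_norm l k
      rw [Real.norm_eq_abs] at this
      linarith) V a hV ham ha1 hav (1 + ‖l‖)
  have e1 : ∀ x : E 3, (1 + ‖l‖) * ∑ k, l k / (1 + ‖l‖) * φ k x = ∑ k, l k * φ k x := fun x => by
    rw [Finset.mul_sum]
    refine Finset.sum_congr rfl fun k _ => ?_
    field_simp
  simp only [e1] at h1
  refine h1.trans ?_
  rw [mul_assoc, ← ENNReal.ofReal_mul (by positivity)]
  refine mul_le_mul' le_rfl (ENNReal.ofReal_le_ofReal ?_)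
  calc V ^ (p - 1) * (1 + |1 + ‖l‖|) ^ ε ≤ V ^ (p - 1) * (2 * (1 + ‖l‖)) ^ ε := by
        gcongr
        rw [abs_of_pos hl]
        linarith [norm_nonneg l]
    _ = 2 ^ ε * (V ^ (p - 1) * (1 + ‖l‖) ^ ε) := by
        rw [Real.mul_rpow (by norm_num) (by positivity)]
        ring

/-- **The restriction estimate with an arbitrarily small loss in the algebra**, with amplitudes of
bounded variation. -/
theorem alg_loss_bv {m : ℕ} (φ : Fin m → E 3 → ℝ) (hφ : ∀ k, φ k ∈ Alg) (p ε : ℝ) (hp : 3 < p)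
    (hε : 0 < ε) : ∃ C : ℝ≥0∞, C ≠ ⊤ ∧
      ∀ (V : ℝ) (a : E 3 → ℂ), 1 ≤ V → Measurable a → (∀ x, ‖a x‖ ≤ 1) → BVA.BVar 1 V a →
      ∀ l : Fin m → ℝ,
      ∫⁻ ξ, ‖extn (fun x => a x * Complex.exp (((∑ k, l k * φ k x : ℝ) : ℂ) * Complex.I)) ξ‖ₑ ^ p ≤
        C * ENNReal.ofReal (V ^ (p - 1) * (1 + ‖l‖) ^ ε) :=
  tame_loss_vec_bv φ (fun k => (alg_tame (hφ k)).1) (fun k => (alg_tame (hφ k)).2.1) p ε hp hε

end Pool.Agent.VAN.TM
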