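import Pool.Agent.VAN.TM5
import Pool.Agent.VAN.TM6

/-!
Tame functions of polynomial growth off the zero set of a polynomial: products. The algebra which is
generated by the compositions of functions with one singular point of power type with polynomial
maps.
-/

set_option autoImplicit false

namespace Pool.Agent.VAN.TM

open MeasureTheory Set MvPolynomial Pool.Agent.MP_6cbfb8_an Filter Topology
open scoped ENNReal Real ContDiff

/-- polynomial growth off the zero set of a polynomial -/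
def Grow (φ : E 3 → ℝ) : Prop := ∃ (q : MvPolynomial (Fin 3) ℝ) (a L : ℝ), 0 ≤ a ∧ 0 ≤ L ∧
  (∃ x : E 3, ‖x‖ = 1 ∧ ev q x ≠ 0) ∧ ∀ x : E 3, ‖x‖ = 1 → |φ x| * |ev q x| ^ a ≤ L

lemma null_zero {q : MvPolynomial (Fin 3) ℝ} (h : ∃ x : E 3, ‖x‖ = 1 ∧ ev q x ≠ 0) :
    sm 3 {x : S 3 | ev q (x : E 3) = 0} = 0 := by
  obtain ⟨x, hx, h⟩ := h
  obtain ⟨M, κ, hM, hκ, H⟩ := poly_sublevel q hx h
  have h1 := H 0 le_rfl
  rw [Real.zero_rpow hκ.ne', mul_zero, ENNReal.ofReal_zero] at h1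
  refine measure_mono_null (fun y hy => ?_) (le_antisymm h1 zero_le)
  show |ev q (y : E 3)| ≤ 0
  have h2 : ev q (y : E 3) = 0 := hy
  rw [h2, abs_zero]

lemma ev_mul (q q' : MvPolynomial (Fin 3) ℝ) (x : E 3) : ev (q * q') x = ev q x * ev q' x := by
  unfold ev
  rw [map_mul]

lemma mul_nonvan {q q' : MvPolynomial (Fin 3) ℝ} (h : ∃ x : E 3, ‖x‖ = 1 ∧ ev q x ≠ 0)
    (h' : ∃ x : E 3, ‖x‖ = 1 ∧ ev q' x ≠ 0) : ∃ x : E 3, ‖x‖ = 1 ∧ ev (q * q') x ≠ 0 := by
  by_contra hcon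
  push Not at hcon
  have h1 : (univ : Set (S 3)) ⊆ {x | ev q (x : E 3) = 0} ∪ {x | ev q' (x : E 3) = 0} := by
    intro x _
    have h2 := hcon x (mem_sphere_zero_iff_norm.1 x.2)
    rw [ev_mul] at h2
    exact mul_eq_zero.1 h2
  have h2 : sm 3 univ = 0 := measure_mono_null h1 (measure_union_null (null_zero h) (null_zero h'))
  obtain ⟨x0, hx0, _⟩ := h
  have h3 : (univ : Set (S 3)).Nonempty := ⟨⟨x0, mem_sphere_zero_iff_norm.2 hx0⟩, mem_univ _⟩
  exact isOpen_univ.measure_ne_zero (sm 3) h3 h2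

lemma Grow.pair {φ ψ : E 3 → ℝ} (hφ : Grow φ) (hψ : Grow ψ) :
    ∃ (q : MvPolynomial (Fin 3) ℝ) (a L : ℝ), 0 ≤ a ∧ 1 ≤ L ∧ (∃ x : E 3, ‖x‖ = 1 ∧ ev q x ≠ 0) ∧
      ∀ x : E 3, ‖x‖ = 1 → |φ x| * |ev q x| ^ a ≤ L ∧ |ψ x| * |ev q x| ^ a ≤ L := by
  obtain ⟨q1, a1, L1, ha1, hL1, hn1, H1⟩ := hφ
  obtain ⟨q2, a2, L2, ha2, hL2, hn2, H2⟩ := hψ
  obtain ⟨B1, hB1, hb1⟩ := exists_bound q1
  obtain ⟨B2, hB2, hb2⟩ := exists_bound q2
  have hB10 : 0 < B1 := by linarith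
  have hB20 : 0 < B2 := by linarith
  refine ⟨q1 * q2, a1 + a2, 1 + L1 * (B1 ^ a2 * B2 ^ (a1 + a2)) + L2 * (B2 ^ a1 * B1 ^ (a1 + a2)),
    by positivity, ?_, mul_nonvan hn1 hn2, fun x hx => ?_⟩
  · have e1 : 0 ≤ L1 * (B1 ^ a2 * B2 ^ (a1 + a2)) := by positivity
    have e2 : 0 ≤ L2 * (B2 ^ a1 * B1 ^ (a1 + a2)) := by positivity
    linarith
  have e1 : 0 ≤ L1 * (B1 ^ a2 * B2 ^ (a1 + a2)) := by positivity
  have e2 : 0 ≤ L2 * (B2 ^ a1 * B1 ^ (a1 + a2)) := by positivity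
  rw [ev_mul, abs_mul, Real.mul_rpow (abs_nonneg _) (abs_nonneg _)]
  constructor
  · calc |φ x| * (|ev q1 x| ^ (a1 + a2) * |ev q2 x| ^ (a1 + a2))
        = (|φ x| * |ev q1 x| ^ a1) * (|ev q1 x| ^ a2 * |ev q2 x| ^ (a1 + a2)) := by
          rw [Real.rpow_add_of_nonneg (abs_nonneg _) ha1 ha2]
          ring
      _ ≤ L1 * (B1 ^ a2 * B2 ^ (a1 + a2)) := by
          have := H1 x hx
          have := hb1 x hx
          have := hb2 x hx
          gcongr
      _ ≤ _ := by linarith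
  · calc |ψ x| * (|ev q1 x| ^ (a1 + a2) * |ev q2 x| ^ (a1 + a2))
        = (|ψ x| * |ev q2 x| ^ a2) * (|ev q2 x| ^ a1 * |ev q1 x| ^ (a1 + a2)) := by
          rw [Real.rpow_add_of_nonneg (abs_nonneg (ev q2 x)) ha1 ha2]
          ring
      _ ≤ L2 * (B2 ^ a1 * B1 ^ (a1 + a2)) := by
          have := H2 x hx
          have := hb1 x hx
          have := hb2 x hx
          gcongr
      _ ≤ _ := by linarith

theorem Grow.add {φ ψ : E 3 → ℝ} (hφ : Grow φ) (hψ : Grow ψ) : Grow fun x => φ x + ψ x := by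
  obtain ⟨q, a, L, ha, hL, hn, H⟩ := hφ.pair hψ
  refine ⟨q, a, 2 * L, ha, by linarith, hn, fun x hx => ?_⟩
  obtain ⟨h1, h2⟩ := H x hx
  calc |φ x + ψ x| * |ev q x| ^ a ≤ (|φ x| + |ψ x|) * |ev q x| ^ a := by
        gcongr
        exact abs_add_le _ _
    _ ≤ 2 * L := by linarith

theorem Grow.mul {φ ψ : E 3 → ℝ} (hφ : Grow φ) (hψ : Grow ψ) : Grow fun x => φ x * ψ x := by
  obtain ⟨q, a, L, ha, hL, hn, H⟩ := hφ.pair hψ
  refine ⟨q, a + a, L * L, by linarith, by positivity, hn, fun x hx => ?_⟩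
  obtain ⟨h1, h2⟩ := H x hx
  rw [abs_mul, Real.rpow_add_of_nonneg (abs_nonneg _) ha ha]
  calc |φ x| * |ψ x| * (|ev q x| ^ a * |ev q x| ^ a)
      = (|φ x| * |ev q x| ^ a) * (|ψ x| * |ev q x| ^ a) := by ring
    _ ≤ L * L := by gcongr

theorem grow_const (c : ℝ) : Grow fun _ => c := by
  refine ⟨1, 0, |c|, le_rfl, abs_nonneg c, ⟨EuclideanSpace.single 0 1, by simp, by simp [ev]⟩,
    fun x _ => ?_⟩
  rw [Real.rpow_zero, mul_one]

lemma bc_one (q : MvPolynomial (Fin 3) ℝ) (x : E 3) :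
    bc (fun _ : Fin 1 => q) (fun _ => true) x = if 0 < ev q x then 1 else 0 := by
  unfold bc
  rw [Fin.prod_univ_one]
  simp

theorem Tame.mul {φ ψ : E 3 → ℝ} (hφ : Tame φ) (hψ : Tame ψ) (gφ : Grow φ) (gψ : Grow ψ) :
    Tame fun x => φ x * ψ x := by
  obtain ⟨qq, a, L, ha, hL, ⟨x1, hx1, hne⟩, HG⟩ := gφ.pair gψ
  obtain ⟨M, κ, hM, hκ, hsub⟩ := poly_sublevel qq hx1 hne
  intro η hη
  obtain ⟨β, hβ⟩ : ∃ β : ℝ, β = 1 + a / κ := ⟨_, rfl⟩
  have haκ : 0 ≤ a / κ := by positivity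
  have hβ1 : 1 ≤ β := by linarith
  have hβ0 : 0 < β := by linarith
  obtain ⟨D, N, C, hC, H⟩ := hφ (η / (2 * β)) (by positivity)
  obtain ⟨D', N', C', hC', H'⟩ := hψ (η / (2 * β)) (by positivity)
  have hL0 : 0 < L := by linarith
  refine ⟨D + D' + 2 * qq.totalDegree, N + N' + 1, max (C * C' * (3 * L) ^ (η / β)) (C + C' + M),
    by positivity, fun δ hδ hδ1 => ?_⟩
  obtain ⟨δ', hδ'⟩ : ∃ δ' : ℝ, δ' = δ ^ β / (3 * L) := ⟨_, rfl⟩
  have hδ'0 : 0 < δ' := by rw [hδ']; positivity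
  have hδβ : δ ^ β ≤ δ := by
    calc δ ^ β ≤ δ ^ (1:ℝ) := Real.rpow_le_rpow_of_exponent_ge hδ hδ1 hβ1
      _ = δ := Real.rpow_one δ
  have hδ'δ : δ' ≤ δ := by
    rw [hδ']
    exact (div_le_self (by positivity) (by linarith)).trans hδβ
  obtain ⟨ι, s, T, q, b, h1, h2, h3, h4, h5, h6⟩ := H δ' hδ'0 (hδ'δ.trans hδ1)
  obtain ⟨ι', s', T', q', b', h1', h2', h3', h4', h5', h6'⟩ := H' δ' hδ'0 (hδ'δ.trans hδ1)
  obtain ⟨τ, hτ⟩ : ∃ τ : ℝ, τ = δ ^ (1 / κ) := ⟨_, rfl⟩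
  have hτ0 : 0 < τ := by rw [hτ]; positivity
  obtain ⟨r, hr⟩ : ∃ r : MvPolynomial (Fin 3) ℝ, r = qq * qq - MvPolynomial.C (τ * τ) := ⟨_, rfl⟩
  have hrev : ∀ x : E 3, ev r x = ev qq x * ev qq x - τ * τ := fun x => by
    rw [hr]
    unfold ev
    rw [map_sub, map_mul, eval_C]
  have hrτ : ∀ x : E 3, 0 < ev r x ↔ τ < |ev qq x| := fun x => by
    rw [hrev, sub_pos, ← abs_mul_abs_self (ev qq x)]
    exact mul_self_lt_mul_self_iff hτ0.le (abs_nonneg _) |>.symm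
  have hsum : ∀ x : E 3, ∑ j ∈ s ×ˢ s', bc (Fin.append (Fin.append (q j.1) (q' j.2)) fun _ : Fin 1 => r)
      (Fin.append (Fin.append (b j.1) (b' j.2)) fun _ => true) x =
      ((∑ j ∈ s, bc (q j) (b j) x) * ∑ j ∈ s', bc (q' j) (b' j) x) * (if 0 < ev r x then 1 else 0) := by
    intro x
    rw [Finset.sum_mul_sum, ← Finset.sum_product', Finset.sum_mul]
    exact Finset.sum_congr rfl fun j _ => by rw [bc_append, bc_append, bc_one]
  have hs0 : ∀ x : E 3, 0 ≤ ∑ j ∈ s, bc (q j) (b j) x := fun x =>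
    Finset.sum_nonneg fun j _ => bc_nonneg _ _ x
  have hs0' : ∀ x : E 3, 0 ≤ ∑ j ∈ s', bc (q' j) (b' j) x := fun x =>
    Finset.sum_nonneg fun j _ => bc_nonneg _ _ x
  refine ⟨ι × ι', s ×ˢ s', fun j => T j.1 * T' j.2,
    fun j => Fin.append (Fin.append (q j.1) (q' j.2)) fun _ : Fin 1 => r,
    fun j => Fin.append (Fin.append (b j.1) (b' j.2)) fun _ => true, ?_, ?_, ?_, ?_, ?_, ?_⟩
  · rw [Finset.card_product]
    push_cast
    have e : δ' ^ (-(η / (2 * β))) * δ' ^ (-(η / (2 * β))) = (3 * L) ^ (η / β) * δ ^ (-η) := by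
      rw [← Real.rpow_add hδ'0, hδ', Real.div_rpow (by positivity) (by positivity),
        ← Real.rpow_mul hδ.le, div_eq_mul_inv, ← Real.rpow_neg (by positivity)]
      rw [mul_comm]
      congr 2
      · field_simp
        ring
      · field_simp
        ring
    calc (s.card : ℝ) * s'.card ≤ (C * δ' ^ (-(η / (2 * β)))) * (C' * δ' ^ (-(η / (2 * β)))) := by
          gcongr
      _ = C * C' * (δ' ^ (-(η / (2 * β))) * δ' ^ (-(η / (2 * β)))) := by ring
      _ = C * C' * (3 * L) ^ (η / β) * δ ^ (-η) := by rw [e]; ring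
      _ ≤ _ := by gcongr; exact le_max_left _ _
  · intro j hj
    rw [Finset.mem_product] at hj
    refine (totalDegree_mul _ _).trans ?_
    have e1 := h2 _ hj.1
    have e2 := h2' _ hj.2
    omega
  · intro j hj i
    rw [Finset.mem_product] at hj
    refine Fin.addCases (fun i => ?_) (fun k => ?_) i
    · simp only [Fin.append_left]
      refine Fin.addCases (fun k => ?_) (fun k => ?_) i
      · simp only [Fin.append_left]
        have := h3 _ hj.1 k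
        omega
      · simp only [Fin.append_right]
        have := h3' _ hj.2 k
        omega
    · simp only [Fin.append_right]
      rw [hr]
      refine (totalDegree_sub _ _).trans (max_le ?_ ?_)
      · refine (totalDegree_mul _ _).trans ?_
        omega
      · rw [totalDegree_C]
        exact Nat.zero_le _
  · intro x hx
    rw [hsum]
    refine mul_le_one₀ (mul_le_one₀ (h4 x hx) (hs0' x) (h4' x hx)) (by split_ifs <;> norm_num)
      (by split_ifs <;> norm_num)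
  · intro x hx j hj h0
    rw [Finset.mem_product] at hj
    rw [bc_append, bc_append, bc_one] at h0
    have e1 := h5 x hx _ hj.1 (left_ne_zero_of_mul (left_ne_zero_of_mul h0))
    have e2 := h5' x hx _ hj.2 (right_ne_zero_of_mul (left_ne_zero_of_mul h0))
    have e3 : τ < |ev qq x| := by
      have h7 := right_ne_zero_of_mul h0
      rw [ne_eq, ite_eq_right_iff, not_forall] at h7
      exact (hrτ x).1 h7.1
    obtain ⟨g1, g2⟩ := HG x hx
    have hτa : τ ^ a ≤ |ev qq x| ^ a := Real.rpow_le_rpow hτ0.le e3.le ha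
    have hτe : τ ^ a * δ ^ (-(a / κ)) = 1 := by
      rw [hτ, ← Real.rpow_mul hδ.le, ← Real.rpow_add hδ]
      have : 1 / κ * a + -(a / κ) = 0 := by field_simp; ring
      rw [this, Real.rpow_zero]
    have hδa : 0 < δ ^ (-(a / κ)) := by positivity
    have hgr : ∀ t : ℝ, |t| * |ev qq x| ^ a ≤ L → |t| ≤ L * δ ^ (-(a / κ)) := fun t ht => by
      calc |t| = |t| * τ ^ a * δ ^ (-(a / κ)) := by rw [mul_assoc, hτe, mul_one]
        _ ≤ |t| * |ev qq x| ^ a * δ ^ (-(a / κ)) := by gcongr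
        _ ≤ _ := by gcongr
    have f1 := hgr _ g1
    have f2 := hgr _ g2
    have hone : 1 ≤ δ ^ (-(a / κ)) :=
      Real.one_le_rpow_of_pos_of_le_one_of_nonpos hδ hδ1 (by linarith)
    have e4 : φ x * ψ x - ev (T j.1 * T' j.2) x =
        (φ x - ev (T j.1) x) * ψ x + (φ x - (φ x - ev (T j.1) x)) * (ψ x - ev (T' j.2) x) := by
      rw [ev_mul]
      ring
    have hδ'1 : δ' ≤ 1 := hδ'δ.trans hδ1
    have e5 : |φ x - (φ x - ev (T j.1) x)| ≤ L * δ ^ (-(a / κ)) + δ' :=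
      (abs_sub _ _).trans (add_le_add f1 e1)
    rw [e4]
    calc _ ≤ |φ x - ev (T j.1) x| * |ψ x| +
          |φ x - (φ x - ev (T j.1) x)| * |ψ x - ev (T' j.2) x| := by
          refine (abs_add_le _ _).trans (le_of_eq ?_)
          rw [abs_mul, abs_mul]
      _ ≤ δ' * (L * δ ^ (-(a / κ))) + (L * δ ^ (-(a / κ)) + δ') * δ' := by gcongr
      _ ≤ δ' * (3 * L * δ ^ (-(a / κ))) := by
          have h8 : δ' ≤ L * δ ^ (-(a / κ)) := by nlinarith
          nlinarith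
      _ = δ ^ β * δ ^ (-(a / κ)) := by
          rw [hδ']
          field_simp
      _ = δ := by
          rw [← Real.rpow_add hδ, hβ]
          have : 1 + a / κ + -(a / κ) = 1 := by ring
          rw [this, Real.rpow_one]
  · have hsub2 : {x : S 3 | ∑ j ∈ s ×ˢ s', bc (Fin.append (Fin.append (q j.1) (q' j.2))
        fun _ : Fin 1 => r) (Fin.append (Fin.append (b j.1) (b' j.2)) fun _ => true) (x : E 3) ≠ 1} ⊆
        ({x : S 3 | ∑ j ∈ s, bc (q j) (b j) (x : E 3) ≠ 1} ∪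
          {x : S 3 | ∑ j ∈ s', bc (q' j) (b' j) (x : E 3) ≠ 1}) ∪
          {x : S 3 | |ev qq (x : E 3)| ≤ τ} := by
      intro x hx
      by_contra h
      rw [mem_union, not_or, mem_union, not_or] at h
      have e1 : ∑ j ∈ s, bc (q j) (b j) (x : E 3) = 1 := not_not.1 h.1.1
      have e2 : ∑ j ∈ s', bc (q' j) (b' j) (x : E 3) = 1 := not_not.1 h.1.2
      have e3 : τ < |ev qq (x : E 3)| := not_le.1 h.2
      refine hx ?_
      rw [hsum, e1, e2, if_pos ((hrτ _).2 e3), mul_one, mul_one]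
    refine (measure_mono hsub2).trans ((measure_union_le _ _).trans
      ((add_le_add ((measure_union_le _ _).trans (add_le_add h6 h6')) (hsub τ hτ0.le)).trans ?_))
    rw [← ENNReal.ofReal_add (by positivity) (by positivity),
      ← ENNReal.ofReal_add (by positivity) (by positivity)]
    refine ENNReal.ofReal_le_ofReal ?_
    have e1 : τ ^ κ = δ := by
      rw [hτ, ← Real.rpow_mul hδ.le, one_div_mul_cancel hκ.ne', Real.rpow_one]
    rw [e1]
    calc C * δ' + C' * δ' + M * δ ≤ C * δ + C' * δ + M * δ := by gcongr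
      _ = (C + C' + M) * δ := by ring
      _ ≤ _ := by gcongr; exact le_max_right _ _

end Pool.Agent.VAN.TM
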