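import Pool.Agent.VAN.TM8

/-!
Examples of elements of the algebra: real powers of the absolute value of a polynomial.
-/

set_option autoImplicit false

namespace Pool.Agent.VAN.TM

open MeasureTheory Set MvPolynomial Pool.Agent.MP_6cbfb8_an Filter Topology
open scoped ENNReal Real ContDiff

/-- homogeneous functions which are smooth off the origin have a singularity of power type -/
theorem powerType_of_homogeneous {k : ℕ} {f : E k → ℝ} (hf : ContDiffOn ℝ ∞ f {0}ᶜ) (s : ℝ)
    (hh : ∀ (t : ℝ) (y : E k), 0 < t → f (t • y) = t ^ s * f y) : PowerType f 0 := by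
  refine ⟨hf, -s, fun K => ?_⟩
  have hat : ∀ y : E k, y ≠ 0 → ContDiffAt ℝ ∞ f y := fun y hy =>
    (hf y hy).contDiffAt (isOpen_compl_singleton.mem_nhds hy)
  obtain ⟨B, hB⟩ := (isCompact_sphere (0 : E k) 1).exists_bound_of_continuousOn
    (f := fun y => iteratedFDeriv ℝ K f y) (by
    intro y hy
    have hyz : y ≠ 0 := by
      rintro rfl
      simp at hy
    have h1 : ContDiffAt ℝ 0 (iteratedFDeriv ℝ K f) y :=
      (hat y hyz).iteratedFDeriv_right (by rw [zero_add]; exact_mod_cast le_top)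
    exact h1.continuousAt.continuousWithinAt)
  refine ⟨B, fun y hy _ => ?_⟩
  rw [sub_zero] at hy ⊢
  have hy0 : y ≠ 0 := norm_pos_iff.1 hy
  obtain ⟨r, hr⟩ : ∃ r : ℝ, r = ‖y‖ := ⟨_, rfl⟩
  rw [← hr] at hy ⊢
  have hrne : r ≠ 0 := hy.ne'
  obtain ⟨g, hg⟩ : ∃ g : E k ≃L[ℝ] E k, g = ContinuousLinearEquiv.smulLeft (Units.mk0 r hrne) := ⟨_, rfl⟩
  have hgx : ∀ x, g x = r • x := fun x => by rw [hg]; rfl
  obtain ⟨u, hu⟩ : ∃ u : E k, u = r⁻¹ • y := ⟨_, rfl⟩
  have hgu : g u = y := by rw [hgx, hu, smul_smul, mul_inv_cancel₀ hrne, one_smul]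
  have hu1 : ‖u‖ = 1 := by
    rw [hu, norm_smul, ← hr, Real.norm_of_nonneg (by positivity), inv_mul_cancel₀ hrne]
  have hu0 : u ≠ 0 := by
    rintro h
    rw [h, norm_zero] at hu1
    exact zero_ne_one hu1
  have e1 : f ∘ g = fun x => r ^ s • f x := by
    funext x
    rw [Function.comp_apply, hgx, hh r x hy, smul_eq_mul]
  have e2 : iteratedFDeriv ℝ K (f ∘ g) u =
      (iteratedFDeriv ℝ K f (g u)).compContinuousLinearMap fun _ => (g : E k →L[ℝ] E k) := by
    have := g.iteratedFDerivWithin_comp_right f uniqueDiffOn_univ (mem_univ (g u)) K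
    simpa only [preimage_univ, iteratedFDerivWithin_univ] using this
  rw [e1, hgu, iteratedFDeriv_const_smul_apply' ((hat u hu0).of_le (by exact_mod_cast le_top))] at e2
  have e3 : iteratedFDeriv ℝ K f y = (r⁻¹) ^ K • (r ^ s • iteratedFDeriv ℝ K f u) := by
    rw [e2]
    ext v
    simp only [_root_.smul_apply,
      ContinuousMultilinearMap.compContinuousLinearMap_apply, ContinuousLinearEquiv.coe_coe]
    have : (fun i => g (v i)) = fun i => r • v i := funext fun i => hgx _
    rw [this, ContinuousMultilinearMap.map_smul_univ, Finset.prod_const, Finset.card_univ,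
      Fintype.card_fin, smul_smul, ← mul_pow, inv_mul_cancel₀ hrne, one_pow, one_smul]
  rw [e3, norm_smul, norm_smul, Real.norm_of_nonneg (by positivity),
    Real.norm_of_nonneg (by positivity), ← mul_assoc]
  have e4 : r⁻¹ ^ K * r ^ s = r ^ (-((K : ℝ) + -s)) := by
    rw [neg_add, neg_neg, Real.rpow_add hy, Real.rpow_neg hy.le, Real.rpow_natCast, inv_pow]
  rw [e4, mul_comm]
  have := hB u (mem_sphere_zero_iff_norm.2 hu1)
  gcongr

/-- the algebra contains all real powers of the absolute value of a polynomial -/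
theorem rpow_mem (Q : MvPolynomial (Fin 3) ℝ) (s : ℝ) :
    (fun x : E 3 => |eval (fun j => x j) Q| ^ s) ∈ Alg := by
  refine Algebra.subset_adjoin ⟨1, fun _ => Q, fun y => |y 0| ^ s, 0, ?_, ?_⟩
  · refine powerType_of_homogeneous (fun y hy => ?_) s fun t y ht => ?_
    · have hy0 : y 0 ≠ 0 := by
        intro h
        refine hy ?_
        ext i
        rw [Subsingleton.elim i 0, h]
        rfl
      have h1 : ContDiffAt ℝ ∞ (fun y : E 1 => y 0) y := by fun_prop
      have h2 : ContDiffAt ℝ ∞ (fun y : E 1 => |y 0|) y := h1.abs hy0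
      exact (h2.rpow_const_of_ne (abs_ne_zero.2 hy0)).contDiffWithinAt
    · have : (t • y) 0 = t * y 0 := rfl
      rw [this, abs_mul, abs_of_pos ht, Real.mul_rpow ht.le (abs_nonneg _)]
  · funext x
    rfl

/-- polynomials are in the algebra -/
theorem poly_mem (P : MvPolynomial (Fin 3) ℝ) : (fun x : E 3 => eval (fun j => x j) P) ∈ Alg := by
  refine smooth_mem ?_
  have h1 : AnalyticOnNhd ℝ (fun x : E 3 => eval (fun j => x j) P) univ := by
    have h2 : ∀ i : Fin 3, AnalyticOnNhd ℝ (fun x : E 3 => x i) univ := fun i x _ =>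
      (EuclideanSpace.proj i : E 3 →L[ℝ] ℝ).analyticAt x
    have h3 := AnalyticOnNhd.aeval_mvPolynomial h2 P
    have h4 : (fun x : E 3 => aeval (fun i => x i) P) = fun x : E 3 => eval (fun j => x j) P := by
      funext x
      rw [MvPolynomial.aeval_eq_eval]
    rw [h4] at h3
    exact h3
  exact contDiffOn_univ.1 (h1.contDiffOn uniqueDiffOn_univ)

/-- quotients of polynomials are in the algebra -/
theorem div_mem (P Q : MvPolynomial (Fin 3) ℝ) :
    (fun x : E 3 => eval (fun j => x j) P / eval (fun j => x j) Q) ∈ Alg := by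
  have h1 := Alg.mul_mem (Alg.mul_mem (poly_mem P) (poly_mem Q)) (rpow_mem Q (-2))
  convert h1 using 1
  funext x
  simp only [Pi.mul_apply]
  by_cases h : eval (fun j => x j) Q = 0
  · rw [h]
    simp
  · have h2 : |eval (fun j => x j) Q| ^ (-2 : ℝ) = (eval (fun j => x j) Q ^ 2)⁻¹ := by
      rw [Real.rpow_neg (abs_nonneg _), Real.rpow_two, sq_abs]
    rw [h2]
    field_simp

/-- indicator functions of the sets `Q > 0` are in the algebra -/
theorem indicator_mem (Q : MvPolynomial (Fin 3) ℝ) :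
    (Set.indicator {x : E 3 | 0 < eval (fun j => x j) Q} fun _ => (1 : ℝ)) ∈ Alg := by
  have h1 := Alg.mul_mem (poly_mem Q) (rpow_mem Q (-1))
  have h2 := Alg.smul_mem (Alg.add_mem h1 (Alg.mul_mem h1 h1)) (1 / 2 : ℝ)
  convert h2 using 1
  funext x
  simp only [Pi.mul_apply, Pi.add_apply, Pi.smul_apply, smul_eq_mul]
  rcases lt_trichotomy (eval (fun j => x j) Q) 0 with h | h | h
  · have h3 : |eval (fun j => x j) Q| ^ (-1 : ℝ) = -(eval (fun j => x j) Q)⁻¹ := by
      rw [Real.rpow_neg_one, abs_of_neg h, inv_neg]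
    rw [Set.indicator_of_notMem (by simpa using h.le), h3]
    have : eval (fun j => x j) Q ≠ 0 := h.ne
    field_simp
    ring
  · rw [Set.indicator_of_notMem (by simp [h]), h]
    simp
  · have h3 : |eval (fun j => x j) Q| ^ (-1 : ℝ) = (eval (fun j => x j) Q)⁻¹ := by
      rw [Real.rpow_neg_one, abs_of_pos h]
    rw [Set.indicator_of_mem (by simpa using h), h3]
    have : eval (fun j => x j) Q ≠ 0 := h.ne'
    field_simp
    norm_num

end Pool.Agent.VAN.TM
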